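import Pool.Agent.BTV.Defs

/-! BTV CDa: the coding layer.

`Dcd N R`: every `z` with `R X z` can be decoded from at most `N` hints from `X` and one of `N` tags.

PROOFS.  `mono`: hints/tags of `Fin N` embedded into `Fin N'` by `Fin.castLE`; the decoder restricts
the hints to the first `N` and reads the tag if it is `< N`.
`map`: compose with `Option.map f`.  `bind`: hints `Fin N ⊕ Fin N'`, tags `Fin N × Fin N'`, both
embedded into `Fin (bd N N')` (`bd N N' = N + N' + N * N'`); decoder: decode `z` by the first part;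
if `z` is obtained decode with the decoder of `R' z` (choice).  A general lemma
`Dcd.of_types` (hints and tags from arbitrary finite types of cardinality `≤ N`) is convenient, see
`Cert.normal` in `Pool/Agent/BTD/T1.lean`.
`ncard`: enumerate the finite set (`exists_enum` in `Pool/Agent/BTD/CBa.lean` for a model).
`or`: tags `Fin N ⊕ Fin N'`, hints `Fin N ⊕ Fin N'`.
`list`: induction on `m`: `ld N 0 = 1` (only the empty list), `l = z :: l'`: `bind` + `map` + `or`.
`cert_of_dcd`: `H := Fin N`, `T := Fin N`, `dec h t := (dec h t).getD ∅`. -/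

set_option autoImplicit false

open Classical

namespace Pool.Agent.BTV

open Pool.Agent.BTD

/-- `z` with `R X z` is decodable from `≤ N` hints from `X` and one of `N` tags. -/
def Dcd {P Z : Type*} (N : ℕ) (R : Set P → Z → Prop) : Prop :=
  ∃ dec : (Fin N → Option P) → Fin N → Option Z, ∀ X z, R X z →
    ∃ h t, (∀ i x, h i = some x → x ∈ X) ∧ dec h t = some z

def bd (N N' : ℕ) : ℕ := N + N' + N * N'

variable {P Z Z' : Type*} {N N' : ℕ} {R : Set P → Z → Prop}

lemma Dcd.of_types {H T : Type} [Fintype H] [Fintype T] (hH : Fintype.card H ≤ N)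
    (hT : Fintype.card T ≤ N) (dec : (H → Option P) → T → Option Z)
    (h : ∀ X z, R X z → ∃ a t, (∀ i x, a i = some x → x ∈ X) ∧ dec a t = some z) : Dcd N R := by
  obtain ⟨fH⟩ : Nonempty (H ↪ Fin N) := Function.Embedding.nonempty_of_card_le (by simpa using hH)
  obtain ⟨fT⟩ : Nonempty (T ↪ Fin N) := Function.Embedding.nonempty_of_card_le (by simpa using hT)
  refine ⟨fun a t => if ht : ∃ t', fT t' = t then dec (fun i => a (fH i)) ht.choose else none, ?_⟩
  intro X z hz
  obtain ⟨a, t, h4, h5⟩ := h X z hz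
  refine ⟨fun j => if hj : ∃ i, fH i = j then a hj.choose else none, fT t, ?_, ?_⟩
  · intro j x hjx
    by_cases hj : ∃ i, fH i = j
    · simp only [dif_pos hj] at hjx
      exact h4 _ _ hjx
    · simp only [dif_neg hj] at hjx
      cases hjx
  · have ht : ∃ t', fT t' = fT t := ⟨t, rfl⟩
    have ht' : ht.choose = t := fT.injective ht.choose_spec
    have hH : (fun i => (if hj : ∃ i', fH i' = fH i then a hj.choose else none)) = a := by
      funext i
      have hj : ∃ i', fH i' = fH i := ⟨i, rfl⟩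
      rw [dif_pos hj, fH.injective hj.choose_spec]
    simp only [dif_pos ht, ht', hH]
    exact h5

lemma Dcd.mono {R' : Set P → Z → Prop} (h : Dcd N R) (hN : N ≤ N') (hR : ∀ X z, R' X z → R X z) :
    Dcd N' R' := by
  obtain ⟨dec, hd⟩ := h
  refine Dcd.of_types (H := Fin N) (T := Fin N) (by simpa using hN) (by simpa using hN) dec ?_
  intro X z hz
  exact hd X z (hR X z hz)

lemma Dcd.map {Z' : Type*} (h : Dcd N R) (f : Z → Z') : Dcd N (fun X z' => ∃ z, R X z ∧ f z = z') := by
  obtain ⟨dec, hd⟩ := h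
  refine ⟨fun a t => (dec a t).map f, ?_⟩
  rintro X z' ⟨z, hz, rfl⟩
  obtain ⟨a, t, h1, h2⟩ := hd X z hz
  exact ⟨a, t, h1, by simp [h2]⟩

lemma Dcd.pure (z : Z) : Dcd (P := P) 1 (fun _ z' => z' = z) := by
  refine ⟨fun _ _ => some z, ?_⟩
  rintro X z' rfl
  exact ⟨fun _ => none, 0, fun i x hx => by simp at hx, rfl⟩

lemma Dcd.site : Dcd (P := P) 1 (fun X x => x ∈ X) := by
  refine ⟨fun a _ => a 0, ?_⟩
  intro X x hx
  refine ⟨fun _ => some x, 0, fun i y hy => ?_, rfl⟩
  simp only [Option.some.injEq] at hy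
  exact hy ▸ hx

lemma Dcd.bind {Z' : Type*} (h : Dcd N R) {R' : Z → Set P → Z' → Prop} (h' : ∀ z, Dcd N' (R' z)) :
    Dcd (bd N N') (fun X z' => ∃ z, R X z ∧ R' z X z') := by
  obtain ⟨dec, hd⟩ := h
  choose dec' hd' using h'
  refine Dcd.of_types (H := Fin N ⊕ Fin N') (T := Fin N × Fin N') ?_ ?_
    (fun a t => (dec (fun i => a (.inl i)) t.1).bind fun z => dec' z (fun i => a (.inr i)) t.2) ?_
  · simp only [Fintype.card_sum, Fintype.card_fin, bd]
    omega
  · simp only [Fintype.card_prod, Fintype.card_fin, bd]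
    omega
  · rintro X z' ⟨z, hz, hz'⟩
    obtain ⟨a, t, h1, h2⟩ := hd X z hz
    obtain ⟨a', t', h1', h2'⟩ := hd' z X z' hz'
    refine ⟨Sum.elim a a', (t, t'), ?_, ?_⟩
    · rintro (i | i) x hx
      · exact h1 i x hx
      · exact h1' i x hx
    · simp only [Sum.elim_inl, Sum.elim_inr]
      rw [show (fun i => a i) = a from rfl, h2]
      exact h2'

lemma Dcd.pair {Z' : Type*} (h : Dcd N R) {R' : Set P → Z' → Prop} (h' : Dcd N' R') :
    Dcd (bd N N') (fun X (z : Z × Z') => R X z.1 ∧ R' X z.2) := by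
  refine (h.bind (R' := fun z X (z' : Z × Z') => ∃ w, R' X w ∧ (z, w) = z')
    (fun z => h'.map (fun w => (z, w)))).mono le_rfl ?_
  rintro X ⟨z, z'⟩ ⟨h1, h2⟩
  exact ⟨z, h1, z', h2, rfl⟩

lemma Dcd.ncard {S : Set Z} (hf : S.Finite) {m : ℕ} (hm : S.ncard ≤ m) :
    Dcd (P := P) m (fun _ z => z ∈ S) := by
  have hlen : hf.toFinset.toList.length ≤ m := by
    rw [Finset.length_toList, ← Set.ncard_eq_toFinset_card S hf]
    exact hm
  refine ⟨fun _ t => hf.toFinset.toList[(t : ℕ)]?, ?_⟩
  intro X z hz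
  have hz' : z ∈ hf.toFinset.toList := by simpa using hz
  obtain ⟨n, hn, hnb⟩ := List.getElem_of_mem hz'
  refine ⟨fun _ => none, ⟨n, hn.trans_le hlen⟩, fun i x hx => by simp at hx, ?_⟩
  simp only
  rw [List.getElem?_eq_getElem hn, hnb]

lemma Dcd.fin {m : ℕ} (f : Fin m → Z) : Dcd (P := P) m (fun _ z => ∃ i, f i = z) := by
  refine ⟨fun _ t => some (f t), ?_⟩
  rintro X z ⟨i, rfl⟩
  exact ⟨fun _ => none, i, fun i x hx => by simp at hx, rfl⟩

lemma Dcd.or {R' : Set P → Z → Prop} (h : Dcd N R) (h' : Dcd N' R') :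
    Dcd (N + N') (fun X z => R X z ∨ R' X z) := by
  obtain ⟨dec, hd⟩ := h
  obtain ⟨dec', hd'⟩ := h'
  refine Dcd.of_types (H := Fin N ⊕ Fin N') (T := Fin N ⊕ Fin N') (by simp) (by simp)
    (fun a t => match t with
      | .inl t => dec (fun i => a (.inl i)) t
      | .inr t => dec' (fun i => a (.inr i)) t) ?_
  rintro X z (hz | hz)
  · obtain ⟨a, t, h1, h2⟩ := hd X z hz
    refine ⟨Sum.elim a (fun _ => none), .inl t, ?_, ?_⟩
    · rintro (i | i) x hx
      · exact h1 i x hx
      · simp at hx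
    · simpa using h2
  · obtain ⟨a, t, h1, h2⟩ := hd' X z hz
    refine ⟨Sum.elim (fun _ => none) a, .inr t, ?_, ?_⟩
    · rintro (i | i) x hx
      · simp at hx
      · exact h1 i x hx
    · simpa using h2

lemma Dcd.option (h : Dcd N R) : Dcd (N + 1) (fun X (o : Option Z) => ∀ z, o = some z → R X z) := by
  obtain ⟨dec, hd⟩ := h
  refine Dcd.of_types (H := Fin N) (T := Option (Fin N)) (by simp) (by simp)
    (fun a t => match t with
      | none => some none
      | some t => (dec a t).map some) ?_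
  rintro X (_ | z) hz
  · exact ⟨fun _ => none, none, fun i x hx => by simp at hx, rfl⟩
  · obtain ⟨a, t, h1, h2⟩ := hd X z (hz z rfl)
    exact ⟨a, some t, h1, by simp [h2]⟩

end Pool.Agent.BTV
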