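import Pool.Agent.BTV.CDf

/-! BTV CDb: classes of sites (`s = true`).

`Hd inc N Cond`: for every class `Y ⊆ X` of sites with `Cond X Y e` there is a decodable region
containing `e` all of whose members cover all sites of `Y`.

PROOFS.  `weaken`: trivial.  `or`: `Dcd.or`.  `split`: regions = intersections of a list of at most
`m` decodable regions: `Dcd.list` + `Dcd.map (fun l => {e | ∀ r ∈ l, e ∈ r})`: `Y` is covered by
the classes `Y' ∈ l`, `Y' ⊆ Y`, each has a region; take the list of the regions.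
`param`: `Dcd.bind`.  `empty`: region `univ`.
`inter`: two classes.  `cert`: from `cert_of_dcd`. -/

set_option autoImplicit false

open Classical

namespace Pool.Agent.BTV

open Pool.Agent.BTD

variable {C P : Type*} {inc : C → P → Prop} {N N' : ℕ}

/-- Classes of sites with condition `Cond` are handled. -/
def Hd (inc : C → P → Prop) (N : ℕ) (Cond : Set P → Set P → C → Prop) : Prop :=
  ∃ Rg : Set P → Set C → Prop, Dcd N Rg ∧ ∀ X Y e, Y ⊆ X → (∀ x ∈ Y, inc e x) → Cond X Y e →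
    ∃ reg, Rg X reg ∧ e ∈ reg ∧ ∀ e' ∈ reg, ∀ x ∈ Y, inc e' x

variable {Cond Cond' : Set P → Set P → C → Prop}

lemma Hd.weaken (h : Hd inc N Cond) (hN : N ≤ N') (hC : ∀ X Y e, Y ⊆ X → (∀ x ∈ Y, inc e x) →
    Cond' X Y e → Cond X Y e) : Hd inc N' Cond' := by
  obtain ⟨Rg, h1, h2⟩ := h
  refine ⟨Rg, h1.mono hN fun _ _ hz => hz, fun X Y e hY hi hc => ?_⟩
  exact h2 X Y e hY hi (hC X Y e hY hi hc)

lemma Hd.or (h : Hd inc N Cond) (h' : Hd inc N' Cond') :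
    Hd inc (N + N') (fun X Y e => Cond X Y e ∨ Cond' X Y e) := by
  obtain ⟨Rg, h1, h2⟩ := h
  obtain ⟨Rg', h1', h2'⟩ := h'
  refine ⟨fun X z => Rg X z ∨ Rg' X z, h1.or h1', fun X Y e hY hi hc => ?_⟩
  rcases hc with hc | hc
  · obtain ⟨reg, r1, r2, r3⟩ := h2 X Y e hY hi hc
    exact ⟨reg, Or.inl r1, r2, r3⟩
  · obtain ⟨reg, r1, r2, r3⟩ := h2' X Y e hY hi hc
    exact ⟨reg, Or.inr r1, r2, r3⟩

/-- bounded unions -/
lemma Hd.split (h : Hd inc N Cond) (m : ℕ) :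
    Hd inc (ld N m) (fun X Y e => ∃ l : List (Set P), l.length ≤ m ∧ (∀ x ∈ Y, ∃ Y' ∈ l, x ∈ Y') ∧
      ∀ Y' ∈ l, Y' ⊆ Y ∧ Cond X Y' e) := by
  obtain ⟨Rg, h1, h2⟩ := h
  refine ⟨_, (h1.list m).map (fun l : List (Set C) => {e | ∀ r ∈ l, e ∈ r}), ?_⟩
  intro X Y e hY hi hc
  obtain ⟨l, hl, hcov, hl2⟩ := hc
  have hch : ∀ Y' : Set P, ∃ reg : Set C, Y' ∈ l →
      (Rg X reg ∧ e ∈ reg ∧ ∀ e' ∈ reg, ∀ x ∈ Y', inc e' x) := by
    intro Y'
    by_cases hY' : Y' ∈ l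
    · obtain ⟨a, b⟩ := hl2 Y' hY'
      obtain ⟨reg, r⟩ := h2 X Y' e (a.trans hY) (fun x hx => hi x (a hx)) b
      exact ⟨reg, fun _ => r⟩
    · exact ⟨∅, fun hh => absurd hh hY'⟩
  choose f hf using hch
  refine ⟨{e | ∀ r ∈ l.map f, e ∈ r}, ⟨l.map f, ⟨by simpa using hl, ?_⟩, rfl⟩, ?_, ?_⟩
  · intro z hz
    obtain ⟨Y', hY', rfl⟩ := List.mem_map.1 hz
    exact (hf Y' hY').1
  · intro r hr
    obtain ⟨Y', hY', rfl⟩ := List.mem_map.1 hr
    exact (hf Y' hY').2.1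
  · intro e' he' x hx
    obtain ⟨Y', hY', hx'⟩ := hcov x hx
    exact (hf Y' hY').2.2 e' (he' _ (List.mem_map.2 ⟨Y', hY', rfl⟩)) x hx'

/-- two classes with different conditions -/
lemma Hd.inter (h : Hd inc N Cond) (h' : Hd inc N' Cond') :
    Hd inc (bd N N') (fun X Y e => ∃ Y₁ Y₂, (∀ x ∈ Y, x ∈ Y₁ ∨ x ∈ Y₂) ∧ Y₁ ⊆ Y ∧ Y₂ ⊆ Y ∧
      Cond X Y₁ e ∧ Cond' X Y₂ e) := by
  obtain ⟨Rg, h1, h2⟩ := h
  obtain ⟨Rg', h1', h2'⟩ := h'
  refine ⟨_, (h1.pair h1').map (fun z : Set C × Set C => z.1 ∩ z.2), ?_⟩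
  intro X Y e hY hi hc
  obtain ⟨Y₁, Y₂, hcov, s1, s2, c1, c2⟩ := hc
  obtain ⟨reg, r1, r2, r3⟩ := h2 X Y₁ e (s1.trans hY) (fun x hx => hi x (s1 hx)) c1
  obtain ⟨reg', r1', r2', r3'⟩ := h2' X Y₂ e (s2.trans hY) (fun x hx => hi x (s2 hx)) c2
  refine ⟨reg ∩ reg', ⟨(reg, reg'), ⟨r1, r1'⟩, rfl⟩, ⟨r2, r2'⟩, ?_⟩
  intro e' he' x hx
  rcases hcov x hx with hx' | hx'
  · exact r3 e' he'.1 x hx'
  · exact r3' e' he'.2 x hx'

/-- a decodable parameter -/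
lemma Hd.param {Z : Type*} {R : Set P → Z → Prop} (hR : Dcd N R) {CondZ : Z → Set P → Set P → C → Prop}
    (h : ∀ z, Hd inc N' (CondZ z)) : Hd inc (bd N N') (fun X Y e => ∃ z, R X z ∧ CondZ z X Y e) := by
  choose Rg h1 h2 using h
  refine ⟨_, hR.bind (R' := Rg) h1, ?_⟩
  intro X Y e hY hi hc
  obtain ⟨z, hz, hc⟩ := hc
  obtain ⟨reg, r1, r2, r3⟩ := h2 z X Y e hY hi hc
  exact ⟨reg, ⟨z, hz, r1⟩, r2, r3⟩

lemma Hd.empty : Hd inc 1 (fun _ Y _ => Y = ∅) := by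
  refine ⟨_, Dcd.pure (P := P) (Set.univ : Set C), ?_⟩
  intro X Y e hY hi hc
  refine ⟨Set.univ, rfl, Set.mem_univ _, ?_⟩
  intro e' _ x hx
  rw [hc] at hx
  exact absurd hx (Set.notMem_empty x)

lemma Hd.cert (h : Hd inc N (fun _ _ _ => True)) : Cert true N inc Set.univ Set.univ := by
  obtain ⟨Rg, h1, h2⟩ := h
  refine cert_of_dcd true h1 ?_
  intro X e he
  obtain ⟨reg, r1, r2, r3⟩ := h2 X X e (le_refl X) (fun x hx => (he x hx).2 rfl) trivial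
  exact ⟨reg, r1, r2, fun e' he' x hx => ⟨fun _ => rfl, fun _ => r3 e' he' x hx⟩⟩

/-- A finite partition of the sites into classes by a label with boundedly many values. -/
lemma Hd.labels (h : Hd inc N Cond) (m : ℕ) :
    Hd inc (ld N m) (fun X Y e => ∃ L : P → Fin m, ∀ i, Cond X {x ∈ Y | L x = i} e) := by
  refine (h.split m).weaken (le_refl _) ?_
  intro X Y e hY hi hc
  obtain ⟨L, hL⟩ := hc
  refine ⟨(List.finRange m).map (fun i => {x ∈ Y | L x = i}), by simp, ?_, ?_⟩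
  · intro x hx
    exact ⟨_, List.mem_map.2 ⟨L x, List.mem_finRange _, rfl⟩, hx, rfl⟩
  · intro Y' hY'
    obtain ⟨i, _, rfl⟩ := List.mem_map.1 hY'
    exact ⟨fun x hx => hx.1, hL i⟩

/-- The same with labels in a set with at most `m` elements. -/
lemma Hd.labelSet {T : Type*} (h : Hd inc N Cond) (m : ℕ) :
    Hd inc (ld N m) (fun X Y e => ∃ L : P → T, {t | ∃ x ∈ Y, L x = t}.Finite ∧
      {t | ∃ x ∈ Y, L x = t}.ncard ≤ m ∧ ∀ t, (∃ x ∈ Y, L x = t) → Cond X {x ∈ Y | L x = t} e) := by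
  refine (h.split m).weaken (le_refl _) ?_
  intro X Y e hY hi hc
  obtain ⟨L, hfin, hcard, hL⟩ := hc
  refine ⟨hfin.toFinset.toList.map (fun t => {x ∈ Y | L x = t}), ?_, ?_, ?_⟩
  · rw [List.length_map, Finset.length_toList, ← Set.ncard_eq_toFinset_card _ hfin]
    exact hcard
  · intro x hx
    refine ⟨_, List.mem_map.2 ⟨L x, ?_, rfl⟩, hx, rfl⟩
    rw [Finset.mem_toList, Set.Finite.mem_toFinset]
    exact ⟨x, hx, rfl⟩
  · intro Y' hY'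
    obtain ⟨t, ht, rfl⟩ := List.mem_map.1 hY'
    rw [Finset.mem_toList, Set.Finite.mem_toFinset] at ht
    exact ⟨fun x hx => hx.1, hL t ht⟩

end Pool.Agent.BTV
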