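import Pool.Agent.BTV.LC

/-! BTV LD: gates and exits.

`gt_ncard`: an interval has at most one next position and at most one previous position outside of
it (if `a, a' ∈ α`, `Nx a p`, `Nx a' p'`, `p, p' ∉ α`: if `a < a'` then `a < p ≤ a'`, so `p ∈ α`).
So `Gt α` is contained in two bags.
`gate_cross`: `a ∈ α`, `b ∉ α`, `w a, w b ∈ X p` (so `disc a = disc b` by `X_sub` and `w_inj`).
Let `r` be the first position after `a` outside `α`, in the direction of `b` (exists as `b` is one;
`r` is adjacent to a position of `α`, same disc); `r` is weakly between `a` and `b`: `bag_between`.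
`exists_exitV`: well-founded induction on `(D (w a) q).toNat`, statement for all `a ∈ α` (with the
hypotheses `hG` for this `a`): `w a ≠ q` as `a ∈ α`.  Let `e` be the landing of `par q (w a)`
(`free_or_land`).  `e = none`: the step is not in a bag (`vst_isV`), so `Reg q (w a) none`; take
`a' = a`: every vortex vertex on the leg of `w a` is `w a` itself.  `e = some b`, `b ∈ α`: apply the
induction hypothesis to `b` (smaller `D`, its leg is part of the leg); the vortex vertices on the leg
of `w a` are `w a` and those on the leg of `w b` (`land_first`).  `e = some b`, `b ∉ α`: if the step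
is in a bag then `par q (w a)` is a vortex vertex, so it is `w b` (`land_eq_of_isV`), and
`gate_cross` contradicts `hG` (`w a` and `w b` are on the leg); so `Reg q (w a) (some b)`, `a' = a`.
`exit_of_all`: `e = some b` would put `w b` on the leg, `b ∉ α`.
`lastV`: induction on `(D (w p) q).toNat`.
`lastV_unique`: `w p`, `w p'` comparable (`anc_total`); if `w p'` is a proper ancestor of `w p` it is an
ancestor of `par (w p)`, planar by `Free`. -/

set_option autoImplicit false

open Classical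

namespace Pool.Agent.BTV

open Pool.Agent.BTD Pool.Agent.H81.Balls

universe u

variable {V : Type u} {G : SimpleGraph V} {M : LMet G} {E : NE V}

lemma gt_ncard [Finite V] {α : Set (Fin E.n)} (h : E.Itv α) {k : ℕ} (hk : ∀ p, (E.X p).ncard ≤ k) :
    (E.Gt α).ncard ≤ 2 * k := by
  have key : ∀ P : Set (Fin E.n), (∀ p ∈ P, ∀ p' ∈ P, p = p') →
      {v | ∃ p ∈ P, v ∈ E.X p}.ncard ≤ k := by
    intro P hP
    by_cases hne : ∃ p, p ∈ P
    · obtain ⟨p, hp⟩ := hne
      have : {v | ∃ p ∈ P, v ∈ E.X p} = E.X p := by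
        ext v
        constructor
        · rintro ⟨p', hp', hv⟩
          rwa [hP p hp p' hp']
        · intro hv
          exact ⟨p, hp, hv⟩
      rw [this]
      exact hk p
    · have : {v | ∃ p ∈ P, v ∈ E.X p} = ∅ := by
        ext v
        simp only [Set.mem_setOf_eq, Set.mem_empty_iff_false, iff_false]
        rintro ⟨p', hp', -⟩
        exact hne ⟨p', hp'⟩
      rw [this]
      simp
  have h1 := key {p | p ∉ α ∧ ∃ a ∈ α, E.Nx a p} (by
    rintro p ⟨hp, a, ha, hap⟩ p' ⟨hp', a', ha', hap'⟩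
    rcases lt_trichotomy a a' with hlt | heq | hgt
    · exact absurd (h.2 a p a' ha ha' (by rw [Fin.le_def]; have := hap.1; omega)
        (by rw [Fin.le_def]; have := hap.1; have := Fin.lt_def.mp hlt; omega)) hp
    · subst heq
      apply Fin.ext
      have := hap.1
      have := hap'.1
      omega
    · exact absurd (h.2 a' p' a ha' ha (by rw [Fin.le_def]; have := hap'.1; omega)
        (by rw [Fin.le_def]; have := hap'.1; have := Fin.lt_def.mp hgt; omega)) hp')
  have h2 := key {p | p ∉ α ∧ ∃ a ∈ α, E.Nx p a} (by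
    rintro p ⟨hp, a, ha, hap⟩ p' ⟨hp', a', ha', hap'⟩
    rcases lt_trichotomy a a' with hlt | heq | hgt
    · exact absurd (h.2 a p' a' ha ha'
        (by rw [Fin.le_def]; have := hap'.1; have := Fin.lt_def.mp hlt; omega)
        (by rw [Fin.le_def]; have := hap'.1; omega)) hp'
    · subst heq
      apply Fin.ext
      have := hap.1
      have := hap'.1
      omega
    · exact absurd (h.2 a' p a ha' ha
        (by rw [Fin.le_def]; have := hap.1; have := Fin.lt_def.mp hgt; omega)
        (by rw [Fin.le_def]; have := hap.1; omega)) hp)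
  have hsub : E.Gt α ⊆ {v | ∃ p ∈ {p | p ∉ α ∧ ∃ a ∈ α, E.Nx a p}, v ∈ E.X p} ∪
      {v | ∃ p ∈ {p | p ∉ α ∧ ∃ a ∈ α, E.Nx p a}, v ∈ E.X p} := by
    rintro v ⟨p, hv, hp, a, ha, hap | hap⟩
    · exact Or.inl ⟨p, ⟨hp, a, ha, hap⟩, hv⟩
    · exact Or.inr ⟨p, ⟨hp, a, ha, hap⟩, hv⟩
  calc (E.Gt α).ncard ≤ _ := Set.ncard_le_ncard hsub (Set.toFinite _)
    _ ≤ _ := Set.ncard_union_le _ _
    _ ≤ 2 * k := by omega

lemma gate_cross {α : Set (Fin E.n)} (h : E.Itv α) {a b p : Fin E.n} (ha : a ∈ α) (hb : b ∉ α)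
    (hap : E.w a ∈ E.X p) (hbp : E.w b ∈ E.X p) : E.w a ∈ E.Gt α ∨ E.w b ∈ E.Gt α := by
  obtain ⟨a', ha', hda⟩ := E.X_sub p _ hap
  obtain ⟨b', hb', hdb⟩ := E.X_sub p _ hbp
  obtain rfl := E.w_inj _ _ ha'
  obtain rfl := E.w_inj _ _ hb'
  have hab : a' ≠ b' := by
    rintro rfl
    exact hb ha
  -- it suffices to find an adjacent pair
  have fin : ∀ r r' : Fin E.n, r ∉ α → r' ∈ α → E.Nx r' r ∨ E.Nx r r' → E.Hull a' b' r →
      E.w a' ∈ E.Gt α ∨ E.w b' ∈ E.Gt α := by
    intro r r' hr hr' hN hH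
    rcases bag_between hap hbp hH with h1 | h1
    · exact Or.inl ⟨r, h1, hr, r', hr', hN⟩
    · exact Or.inr ⟨r, h1, hr, r', hr', hN⟩
  rcases lt_or_gt_of_ne hab with hlt | hgt
  · -- first position after `a` outside of `α`
    have hex : ∃ m : ℕ, ∃ hm : m < E.n, a'.val < m ∧ (⟨m, hm⟩ : Fin E.n) ∉ α :=
      ⟨b'.val, b'.isLt, hlt, hb⟩
    obtain ⟨hm, h1, h2⟩ := Nat.find_spec hex
    have hle : Nat.find hex ≤ b'.val := Nat.find_min' hex ⟨b'.isLt, hlt, hb⟩
    have hmin := fun k (hk : k < Nat.find hex) => Nat.find_min hex hk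
    revert hm h1 h2 hle hmin
    generalize Nat.find hex = m
    intro hm h1 h2 hle hmin
    have hm' : m - 1 < E.n := by omega
    have hr' : (⟨m - 1, hm'⟩ : Fin E.n) ∈ α := by
      by_contra hcon
      by_cases hc : a'.val < m - 1
      · exact hmin (m - 1) (by omega) ⟨hm', hc, hcon⟩
      · apply hcon
        have : (⟨m - 1, hm'⟩ : Fin E.n) = a' := Fin.ext (by simp only; omega)
        rw [this]
        exact ha
    refine fin ⟨m, hm⟩ ⟨m - 1, hm'⟩ h2 hr' (Or.inl ⟨by simp only; omega, ?_⟩)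
      (Or.inl ⟨by rw [Fin.le_def]; simp only; omega, by rw [Fin.le_def]; simp only; omega⟩)
    have e1 := E.disc_mono a' ⟨m - 1, hm'⟩ (by rw [Fin.le_def]; simp only; omega)
    have e2 := E.disc_mono ⟨m - 1, hm'⟩ ⟨m, hm⟩ (by rw [Fin.le_def]; simp only; omega)
    have e3 := E.disc_mono ⟨m, hm⟩ b' (by rw [Fin.le_def]; simp only; omega)
    omega
  · -- last position before `a` outside of `α`
    have hex : ∃ m : ℕ, m < a'.val ∧ ∃ hm : a'.val - 1 - m < E.n, (⟨a'.val - 1 - m, hm⟩ : Fin E.n) ∉ α := by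
      refine ⟨a'.val - 1 - b'.val, ?_, ?_, ?_⟩
      · have := Fin.lt_def.mp hgt; omega
      · have := a'.isLt; omega
      · have : (⟨a'.val - 1 - (a'.val - 1 - b'.val), by have := a'.isLt; omega⟩ : Fin E.n) = b' :=
          Fin.ext (by have := Fin.lt_def.mp hgt; simp only; omega)
        rw [this]
        exact hb
    obtain ⟨h1, hm, h2⟩ := Nat.find_spec hex
    have hle : Nat.find hex ≤ a'.val - 1 - b'.val := Nat.find_min' hex (by
      refine ⟨?_, ?_, ?_⟩
      · have := Fin.lt_def.mp hgt; omega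
      · have := a'.isLt; omega
      · have : (⟨a'.val - 1 - (a'.val - 1 - b'.val), by have := a'.isLt; omega⟩ : Fin E.n) = b' :=
          Fin.ext (by have := Fin.lt_def.mp hgt; simp only; omega)
        rw [this]
        exact hb)
    have hmin := fun k (hk : k < Nat.find hex) => Nat.find_min hex hk
    revert hm h1 h2 hle hmin
    generalize Nat.find hex = m
    intro h1 hm h2 hle hmin
    have hlt' := Fin.lt_def.mp hgt
    have hm' : a'.val - 1 - m + 1 < E.n := by have := a'.isLt; omega
    have hr' : (⟨a'.val - 1 - m + 1, hm'⟩ : Fin E.n) ∈ α := by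
      by_contra hcon
      by_cases hc : m = 0
      · apply hcon
        have : (⟨a'.val - 1 - m + 1, hm'⟩ : Fin E.n) = a' := Fin.ext (by simp only; omega)
        rw [this]
        exact ha
      · refine hmin (m - 1) (by omega) ⟨by omega, by omega, ?_⟩
        have : (⟨a'.val - 1 - (m - 1), by omega⟩ : Fin E.n) = ⟨a'.val - 1 - m + 1, hm'⟩ :=
          Fin.ext (by simp only; omega)
        rw [this]
        exact hcon
    refine fin ⟨a'.val - 1 - m, hm⟩ ⟨a'.val - 1 - m + 1, hm'⟩ h2 hr' (Or.inr ⟨by simp only, ?_⟩)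
      (Or.inr ⟨by rw [Fin.le_def]; simp only; omega, by rw [Fin.le_def]; simp only; omega⟩)
    have e1 := E.disc_mono b' ⟨a'.val - 1 - m, hm⟩ (by rw [Fin.le_def]; simp only; omega)
    have e2 := E.disc_mono ⟨a'.val - 1 - m, hm⟩ ⟨a'.val - 1 - m + 1, hm'⟩ (by rw [Fin.le_def]; simp only; omega)
    have e3 := E.disc_mono ⟨a'.val - 1 - m + 1, hm'⟩ a' (by rw [Fin.le_def]; simp only; omega)
    omega

/-- The first exit of the leg of `v` from `α` is the regular piece of `w a`, which lands at `e`. -/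
def Exit (M : LMet G) (E : NE V) (q v : V) (α : Set (Fin E.n)) (a : Fin E.n) (e : Option (Fin E.n)) : Prop :=
  M.Anc q (E.w a) v ∧ a ∈ α ∧ Reg M E q (E.w a) e ∧ (∀ b, e = some b → b ∉ α) ∧
    ∀ p, M.Anc q (E.w p) v → M.Anc q (E.w a) (E.w p) → p ∈ α

lemma exists_exitV {α : Set (Fin E.n)} (h : E.Itv α) {q : V} {a : Fin E.n} (ha : a ∈ α)
    (hD : M.D (E.w a) q ≠ ⊤) (hG : ∀ x, M.Anc q x (E.w a) → x ∉ E.Gt α) (hq : ∀ p ∈ α, E.w p ≠ q) :
    ∃ a' e, Exit M E q (E.w a) α a' e := by
  have key : ∀ N : ℕ, ∀ a ∈ α, M.D (E.w a) q ≠ ⊤ → (M.D (E.w a) q).toNat ≤ N →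
      (∀ x, M.Anc q x (E.w a) → x ∉ E.Gt α) → ∃ a' e, Exit M E q (E.w a) α a' e := by
    intro N
    induction N with
    | zero =>
      intro a ha hD hN hG
      have := LMet.toNat_par_lt (hq a ha) hD
      omega
    | succ N ih =>
      intro a ha hD hN hG
      have hne := hq a ha
      have hlt := LMet.toNat_par_lt hne hD
      have hDp := LMet.par_ne_top hD
      have hself : ∀ p, M.Anc q (E.w p) (E.w a) → M.Anc q (E.w a) (E.w p) → p ∈ α := by
        intro p hp hp'
        have := LMet.anc_antisymm hD hp' hp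
        rw [← E.w_inj _ _ this]
        exact ha
      rcases free_or_land (E := E) hDp with hF | ⟨b, hb⟩
      · have hv : ¬ E.VSt (E.w a) (M.par q (E.w a)) := fun hv =>
          hF.2 _ LMet.anc_refl (vst_isV hv).2
        exact ⟨a, none, LMet.anc_refl, ha, ⟨hD, hne, hv, hF⟩, by simp, hself⟩
      · have hanc : M.Anc q (E.w b) (M.par q (E.w a)) := land_anc hb
        have hanc' : M.Anc q (E.w b) (E.w a) := LMet.anc_trans hanc LMet.anc_par
        by_cases hbα : b ∈ α
        · have hle := LMet.CAb_anc_toNat_le hanc hDp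
          obtain ⟨a', e, h1, h2, h3, h4, h5⟩ := ih b hbα (LMet.Anc.ne_top hanc hDp) (by omega)
            (fun x hx => hG x (LMet.anc_trans hx hanc'))
          refine ⟨a', e, LMet.anc_trans h1 hanc', h2, h3, h4, ?_⟩
          intro p hp hp'
          by_cases hpa : E.w p = E.w a
          · rw [E.w_inj _ _ hpa]
            exact ha
          · exact h5 p (land_first hb (LMet.anc_par_of_ne hp hpa) ⟨p, rfl⟩) hp'
        · have hv : ¬ E.VSt (E.w a) (M.par q (E.w a)) := by
            intro hv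
            have e1 := land_eq_of_isV hb (vst_isV hv).2
            obtain ⟨p, hp1, hp2⟩ := hv
            rw [← e1] at hp2
            rcases gate_cross h ha hbα hp1 hp2 with h1 | h1
            · exact hG _ LMet.anc_refl h1
            · exact hG _ hanc' h1
          refine ⟨a, some b, LMet.anc_refl, ha, ⟨hD, hne, hv, hb⟩, ?_, hself⟩
          intro b' hb'
          rw [← Option.some.inj hb']
          exact hbα
  exact key _ a ha hD le_rfl hG

/-- a leg which stays in `α` ends with a regular piece without landing -/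
lemma exit_of_all {α : Set (Fin E.n)} {q : V} {v : V} {a : Fin E.n} {e : Option (Fin E.n)}
    (hx : Exit M E q v α a e) (hall : ∀ p, M.Anc q (E.w p) v → p ∈ α) : e = none := by
  rcases e with _ | b
  · rfl
  · exfalso
    obtain ⟨h1, -, h3, h4, -⟩ := hx
    exact h4 b rfl (hall b (LMet.anc_trans (LMet.anc_trans (land_anc h3.2.2.2) LMet.anc_par) h1))

/-- the last vortex vertex on a leg towards a planar vertex -/
lemma lastV {q v : V} (hD : M.D v q ≠ ⊤) (hq : ¬ E.IsV q) {p : Fin E.n} (hp : M.Anc q (E.w p) v) :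
    ∃ p', M.Anc q (E.w p') (E.w p) ∧ Reg M E q (E.w p') none := by
  have hne : ∀ p, E.w p ≠ q := fun p h => hq ⟨p, h⟩
  have key : ∀ N : ℕ, ∀ p, M.D (E.w p) q ≠ ⊤ → (M.D (E.w p) q).toNat ≤ N →
      ∃ p', M.Anc q (E.w p') (E.w p) ∧ Reg M E q (E.w p') none := by
    intro N
    induction N with
    | zero =>
      intro p hD hN
      have := LMet.toNat_par_lt (hne p) hD
      omega
    | succ N ih =>
      intro p hD hN
      have hlt := LMet.toNat_par_lt (hne p) hD
      have hDp := LMet.par_ne_top hD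
      rcases free_or_land (E := E) hDp with hF | ⟨b, hb⟩
      · have hv : ¬ E.VSt (E.w p) (M.par q (E.w p)) := fun hv =>
          hF.2 _ LMet.anc_refl (vst_isV hv).2
        exact ⟨p, LMet.anc_refl, hD, hne p, hv, hF⟩
      · have hanc : M.Anc q (E.w b) (M.par q (E.w p)) := land_anc hb
        have hle := LMet.CAb_anc_toNat_le hanc hDp
        obtain ⟨p', h1, h2⟩ := ih b (LMet.Anc.ne_top hanc hDp) (by omega)
        exact ⟨p', LMet.anc_trans h1 (LMet.anc_trans hanc LMet.anc_par), h2⟩
  exact key _ p (LMet.Anc.ne_top hp hD) le_rfl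

lemma lastV_unique {q v : V} {p p' : Fin E.n} (hp : M.Anc q (E.w p) v) (hp' : M.Anc q (E.w p') v)
    (h : Reg M E q (E.w p) none) (h' : Reg M E q (E.w p') none) : p = p' := by
  rcases anc_total hp hp' with h1 | h1
  · by_contra hne
    have hne' : E.w p ≠ E.w p' := fun e => hne (E.w_inj _ _ e)
    exact h'.2.2.2.2 _ (LMet.anc_par_of_ne h1 hne') ⟨p, rfl⟩
  · by_contra hne
    have hne' : E.w p' ≠ E.w p := fun e => hne (E.w_inj _ _ e).symm
    exact h.2.2.2.2 _ (LMet.anc_par_of_ne h1 hne') ⟨p', rfl⟩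

end Pool.Agent.BTV
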