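import Pool.Agent.BTV.CDf
import Pool.Agent.BTV.LD

/-! BTV CDc: the tower of decodable positions.

`Op X α β` = output positions of the construction with the site set `X` and the cells `α`, `β`.
`Tow E Op X t` = positions of level `t`.

PROOF of `cell_dcd`: let `p ∉ D X`.  `cell D p` is determined by `disc p` (`< s`), the largest
`l ∈ D` with `l < p`, `disc l = disc p` (if it exists) and the smallest `h ∈ D` with `p < h`,
`disc h = disc p` (if it exists): `cell D p = {q | disc q = disc p ∧ (∀ l, lo = some l → l < q) ∧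
(∀ h, hi = some h → q < h)}`.  If `p ∈ D` then the cell is `{p}`.  So: `Dcd.or` of `Dcd.map` of `R`
and of `Dcd.map` of `pair (fin s) (pair (option) (option))`.
PROOF of `tow_dcd`: induction on `t`.  Level `0`: no positions (`Dcd` trivial), then cells by
`cell_dcd`.  Step: `q ∈ Tow t` or `q ∈ Op X α β` with `α`, `β` cells of level `t`: `bind` of the pair
of cells with `hop α β`.  All bounds are functions of `N`, `s`, `t`. -/

set_option autoImplicit false

open Classical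

namespace Pool.Agent.BTV

open Pool.Agent.BTD

universe u

/-- positions of level `t` -/
def Tow {V : Type u} {P : Type*} (E : NE V)
    (Op : Set P → Set (Fin E.n) → Set (Fin E.n) → Set (Fin E.n)) (X : Set P) : ℕ → Set (Fin E.n)
  | 0 => ∅
  | t + 1 => {q | q ∈ Tow E Op X t ∨ ∃ p p', q ∈ Op X (E.cell (Tow E Op X t) p) (E.cell (Tow E Op X t) p')}

lemma tow_mono {V : Type u} {P : Type*} (E : NE V)
    (Op : Set P → Set (Fin E.n) → Set (Fin E.n) → Set (Fin E.n)) (X : Set P) {t t' : ℕ} (h : t ≤ t') :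
    Tow E Op X t ⊆ Tow E Op X t' := by
  induction t', h using Nat.le_induction with
  | base => exact fun _ hx => hx
  | succ m _ ih => exact fun _ hx => Or.inl (ih hx)

lemma tow_op {V : Type u} {P : Type*} (E : NE V)
    (Op : Set P → Set (Fin E.n) → Set (Fin E.n) → Set (Fin E.n)) (X : Set P) {t : ℕ} (p p' q : Fin E.n)
    (h : q ∈ Op X (E.cell (Tow E Op X t) p) (E.cell (Tow E Op X t) p')) : q ∈ Tow E Op X (t + 1) :=
  Or.inr ⟨p, p', h⟩

/-- the largest element of `D` before `p` in the same vortex -/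
lemma CDc_lo {V : Type u} (E : NE V) (D : Set (Fin E.n)) (p : Fin E.n) :
    ∃ o : Option (Fin E.n), (∀ l, o = some l → l ∈ D ∧ l < p ∧ E.disc l = E.disc p) ∧
      ∀ l ∈ D, l < p → E.disc l = E.disc p → ∃ l', o = some l' ∧ l ≤ l' := by
  by_cases hne : ∃ l, l ∈ D ∧ l < p ∧ E.disc l = E.disc p
  · obtain ⟨l0, hl0⟩ := hne
    obtain ⟨m, hm, hmax⟩ := Finset.exists_max_image
      (Finset.univ.filter fun l : Fin E.n => l ∈ D ∧ l < p ∧ E.disc l = E.disc p) id
      ⟨l0, Finset.mem_filter.2 ⟨Finset.mem_univ _, hl0⟩⟩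
    refine ⟨some m, fun l hl => ?_, fun l h1 h2 h3 => ⟨m, rfl, ?_⟩⟩
    · rw [← Option.some.inj hl]
      exact (Finset.mem_filter.1 hm).2
    · exact hmax l (Finset.mem_filter.2 ⟨Finset.mem_univ _, h1, h2, h3⟩)
  · refine ⟨none, fun l hl => by simp at hl, fun l h1 h2 h3 => absurd ⟨l, h1, h2, h3⟩ hne⟩

/-- the smallest element of `D` after `p` in the same vortex -/
lemma CDc_hi {V : Type u} (E : NE V) (D : Set (Fin E.n)) (p : Fin E.n) :
    ∃ o : Option (Fin E.n), (∀ l, o = some l → l ∈ D ∧ p < l ∧ E.disc l = E.disc p) ∧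
      ∀ l ∈ D, p < l → E.disc l = E.disc p → ∃ l', o = some l' ∧ l' ≤ l := by
  by_cases hne : ∃ l, l ∈ D ∧ p < l ∧ E.disc l = E.disc p
  · obtain ⟨l0, hl0⟩ := hne
    obtain ⟨m, hm, hmin⟩ := Finset.exists_min_image
      (Finset.univ.filter fun l : Fin E.n => l ∈ D ∧ p < l ∧ E.disc l = E.disc p) id
      ⟨l0, Finset.mem_filter.2 ⟨Finset.mem_univ _, hl0⟩⟩
    refine ⟨some m, fun l hl => ?_, fun l h1 h2 h3 => ⟨m, rfl, ?_⟩⟩
    · rw [← Option.some.inj hl]
      exact (Finset.mem_filter.1 hm).2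
    · exact hmin l (Finset.mem_filter.2 ⟨Finset.mem_univ _, h1, h2, h3⟩)
  · refine ⟨none, fun l hl => by simp at hl, fun l h1 h2 h3 => absurd ⟨l, h1, h2, h3⟩ hne⟩

/-- the cell with the data (vortex, last position before, first position after) -/
def CDc_F {V : Type u} (E : NE V) (s : ℕ) (z : Fin s × (Option (Fin E.n) × Option (Fin E.n))) : Set (Fin E.n) :=
  {q | E.disc q = z.1.val ∧ (∀ l, z.2.1 = some l → l < q) ∧ ∀ h, z.2.2 = some h → q < h}

/-- the cells of a decodable set of positions are decodable -/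
theorem cell_dcd (N s : ℕ) : ∃ N' : ℕ, ∀ (V : Type u) (P : Type u) (E : NE V)
    (_ : ∀ p, E.disc p < s) (D : Set P → Set (Fin E.n)), Dcd N (fun X q => q ∈ D X) →
    Dcd N' (fun X α => ∃ p, α = E.cell (D X) p) := by
  refine ⟨N + bd s (bd (N + 1) (N + 1)), fun V P E hs D hD => ?_⟩
  have h1 := hD.map (fun q => ({q} : Set (Fin E.n)))
  have h2 := ((Dcd.fin (P := P) (fun i : Fin s => i)).pair (hD.option.pair hD.option)).map (CDc_F E s)
  refine (h1.or h2).mono le_rfl fun X α hα => ?_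
  obtain ⟨p, rfl⟩ := hα
  by_cases hp : p ∈ D X
  · left
    refine ⟨p, hp, ?_⟩
    ext q
    simp only [Set.mem_singleton_iff, NE.cell, Set.mem_ofPred_eq]
    constructor
    · exact fun h => Or.inl h
    · rintro (h | ⟨_, h⟩)
      · exact h
      · exfalso
        apply h p hp
        rcases le_total p q with hq | hq
        · exact Or.inl ⟨le_rfl, hq⟩
        · exact Or.inr ⟨hq, le_rfl⟩
  · right
    obtain ⟨lo, lo1, lo2⟩ := CDc_lo E (D X) p
    obtain ⟨hi, hi1, hi2⟩ := CDc_hi E (D X) p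
    refine ⟨(⟨E.disc p, hs p⟩, (lo, hi)), ⟨⟨_, rfl⟩, fun l hl => (lo1 l hl).1, fun l hl => (hi1 l hl).1⟩, ?_⟩
    ext q
    simp only [CDc_F, NE.cell, Set.mem_ofPred_eq]
    constructor
    · rintro ⟨hd, hl, hh⟩
      right
      refine ⟨hd, fun d hdD hull => ?_⟩
      rcases hull with ⟨a, b⟩ | ⟨a, b⟩
      · have hpd : p < d := lt_of_le_of_ne a fun e => hp (by rw [e]; exact hdD)
        have hdd : E.disc d = E.disc p :=
          le_antisymm ((E.disc_mono _ _ b).trans (le_of_eq hd)) (E.disc_mono _ _ a)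
        obtain ⟨h', e1, e2⟩ := hi2 d hdD hpd hdd
        exact absurd (lt_of_lt_of_le (hh h' e1) e2) (not_lt.2 b)
      · have hpd : d < p := lt_of_le_of_ne b fun e => hp (by rw [← e]; exact hdD)
        have hdd : E.disc d = E.disc p :=
          le_antisymm (E.disc_mono _ _ b) ((le_of_eq hd.symm).trans (E.disc_mono _ _ a))
        obtain ⟨l', e1, e2⟩ := lo2 d hdD hpd hdd
        exact absurd (lt_of_le_of_lt e2 (hl l' e1)) (not_lt.2 a)
    · rintro (h | ⟨hd, hD'⟩)
      · subst h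
        exact ⟨rfl, fun l hl => (lo1 l hl).2.1, fun l hl => (hi1 l hl).2.1⟩
      · refine ⟨hd, fun l hl => ?_, fun l hl => ?_⟩
        · by_contra hc
          exact hD' l (lo1 l hl).1 (Or.inr ⟨not_lt.1 hc, (lo1 l hl).2.1.le⟩)
        · by_contra hc
          exact hD' l (hi1 l hl).1 (Or.inl ⟨(hi1 l hl).2.1.le, not_lt.1 hc⟩)

theorem tow_dcd (N s t : ℕ) : ∃ N' : ℕ, ∀ (V : Type u) (P : Type u) (E : NE V)
    (_ : ∀ p, E.disc p < s) (Op : Set P → Set (Fin E.n) → Set (Fin E.n) → Set (Fin E.n)),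
    (∀ α β, Dcd N (fun X q => q ∈ Op X α β)) →
    Dcd N' (fun X q => q ∈ Tow E Op X t) ∧ Dcd N' (fun X α => ∃ p, α = E.cell (Tow E Op X t) p) := by
  induction t with
  | zero =>
    obtain ⟨N1, h1⟩ := cell_dcd.{u} 0 s
    refine ⟨N1, fun V P E hs Op _ => ?_⟩
    have h0 : Dcd (P := P) 0 (fun X q => q ∈ Tow E Op X 0) :=
      ⟨fun _ _ => none, fun _ _ h => h.elim⟩
    exact ⟨h0.mono (Nat.zero_le _) fun _ _ h => h, h1 V P E hs _ h0⟩
  | succ t ih =>
    obtain ⟨N1, h1⟩ := ih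
    obtain ⟨N2, h2⟩ := cell_dcd.{u} (N1 + bd (bd N1 N1) N) s
    refine ⟨max (N1 + bd (bd N1 N1) N) N2, fun V P E hs Op hOp => ?_⟩
    obtain ⟨hq, hc⟩ := h1 V P E hs Op hOp
    have hb := (hc.pair hc).bind (R' := fun z X q => q ∈ Op X z.1 z.2) fun z => hOp z.1 z.2
    have ht : Dcd (N1 + bd (bd N1 N1) N) (fun X q => q ∈ Tow E Op X (t + 1)) := by
      refine (hq.or hb).mono le_rfl fun X q h => ?_
      rcases h with h | ⟨p, p', h⟩
      · exact Or.inl h
      · exact Or.inr ⟨(_, _), ⟨⟨p, rfl⟩, ⟨p', rfl⟩⟩, h⟩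
    exact ⟨ht.mono (le_max_left _ _) fun _ _ h => h,
      (h2 V P E hs _ ht).mono (le_max_right _ _) fun _ _ h => h⟩

/-- gate vertices of decodable intervals are decodable -/
theorem gate_dcd (N k : ℕ) : ∃ N' : ℕ, ∀ (V : Type u) (P : Type u) [Finite V] (E : NE V)
    (_ : ∀ p, (E.X p).ncard ≤ k) (A : Set P → Set (Fin E.n) → Prop), Dcd N A →
    (∀ X α, A X α → E.Itv α) → Dcd N' (fun X v => ∃ α, A X α ∧ v ∈ E.Gt α) := by
  refine ⟨bd N (2 * k), fun V P _ E hk A hA hI => ?_⟩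
  have h' : ∀ α : Set (Fin E.n), Dcd (P := P) (2 * k) (fun _ v => E.Itv α ∧ v ∈ E.Gt α) := fun α => by
    by_cases hα : E.Itv α
    · exact (Dcd.ncard (Set.toFinite (E.Gt α)) (gt_ncard hα hk)).mono le_rfl fun _ _ h => h.2
    · exact ⟨fun _ _ => none, fun _ _ h => absurd h.1 hα⟩
  exact (hA.bind h').mono le_rfl fun X v ⟨α, a, b⟩ => ⟨α, a, hI X α a, b⟩

end Pool.Agent.BTV
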