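import Pool.Agent.BTV.Defs
import Pool.Agent.BTD.CBa

/-! BTV CDd: change points of a two-coloured linear order.

`CP rk Q₁ Q₂`: the elements of `Q₁ ∪ Q₂` which have a neighbour (no element of `Q₁ ∪ Q₂` strictly
between) of the other colour.  `rk` is injective on `Q₁ ∪ Q₂`, which is finite.

`cp_between`: `a ∈ Q₁`, `b ∈ Q₂`, `rk a < rk b`.  Let `e` be the element of `Q₁` with the largest
rank `< rk b`... more precisely: the largest `e ∈ Q₁` with `rk a ≤ rk e < rk b`, and `e'` the smallest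
element of `Q₂` with `rk e < rk e'` (`≤ rk b`); no element of `Q₁ ∪ Q₂` lies strictly between.
Symmetric for `rk b < rk a`.
`cp_bound_alt`: `CP = {Q₁ with successor in Q₂} ∪ {Q₁ with predecessor in Q₂} ∪` (the same with
`Q₁`, `Q₂` exchanged).  The first is bounded by `count_changes` (`Pool/Agent/BTD/CBa.lean`); an
element of `Q₂` with predecessor in `Q₁` is the successor of an element of the first set (injective).
So `≤ 4 * B`.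
`cp_bound_cls`: the map `κ` is injective on `{a ∈ Q₁ | successor in Q₂}` (if `rk a < rk a'` both in
it then the successor of `a`, an element of `Q₂`, lies strictly between `a` and `a'`), the same for
predecessors; `≤ N` each; and the other two sets inject into these. -/

set_option autoImplicit false

open Classical

namespace Pool.Agent.BTV

open Pool.Agent.BTD

/-- change points -/
def CP {W : Type*} (rk : W → ℕ) (Q₁ Q₂ : Set W) : Set W :=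
  {e | ∃ e', ((e ∈ Q₁ ∧ e' ∈ Q₂) ∨ (e ∈ Q₂ ∧ e' ∈ Q₁)) ∧
    ∀ d, d ∈ Q₁ ∨ d ∈ Q₂ → ¬ ((rk e < rk d ∧ rk d < rk e') ∨ (rk e' < rk d ∧ rk d < rk e))}

variable {W : Type*} [Finite W] {rk : W → ℕ} {Q₁ Q₂ : Set W}

/-- between elements of different colours there is a pair of neighbouring change points -/
lemma cp_between (hd : Disjoint Q₁ Q₂)
    (hinj : ∀ a b, (a ∈ Q₁ ∨ a ∈ Q₂) → (b ∈ Q₁ ∨ b ∈ Q₂) → rk a = rk b → a = b)
    {a b : W} (ha : a ∈ Q₁) (hb : b ∈ Q₂) (hlt : rk a < rk b) :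
    ∃ e ∈ CP rk Q₁ Q₂, ∃ e' ∈ CP rk Q₁ Q₂, e ∈ Q₁ ∧ e' ∈ Q₂ ∧ rk a ≤ rk e ∧ rk e < rk e' ∧ rk e' ≤ rk b := by
  have hfin1 : ({e | e ∈ Q₁ ∧ rk a ≤ rk e ∧ rk e < rk b} : Set W).Finite := Set.toFinite _
  obtain ⟨e, ⟨he1, he2, he3⟩, hmax⟩ := Set.exists_max_image _ rk hfin1 ⟨a, ha, le_refl _, hlt⟩
  have hfin2 : ({e' | e' ∈ Q₂ ∧ rk e < rk e' ∧ rk e' ≤ rk b} : Set W).Finite := Set.toFinite _
  obtain ⟨e', ⟨he1', he2', he3'⟩, hmin⟩ := Set.exists_min_image _ rk hfin2 ⟨b, hb, he3, le_refl _⟩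
  have key : ∀ d, d ∈ Q₁ ∨ d ∈ Q₂ → ¬ (rk e < rk d ∧ rk d < rk e') := by
    rintro d (h | h) ⟨h1, h2⟩
    · have := hmax d ⟨h, by omega, by omega⟩
      omega
    · have := hmin d ⟨h, h1, by omega⟩
      omega
  refine ⟨e, ⟨e', Or.inl ⟨he1, he1'⟩, fun d h => ?_⟩, e', ⟨e, Or.inr ⟨he1', he1⟩, fun d h => ?_⟩,
    he1, he1', he2, he2', he3'⟩
  · rintro (h3 | ⟨h3, h4⟩)
    · exact key d h h3
    · omega
  · rintro (⟨h3, h4⟩ | h3)
    · omega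
    · exact key d h h3

lemma cp_comm : CP rk Q₁ Q₂ = CP rk Q₂ Q₁ := by
  ext e
  constructor
  · rintro ⟨e', h, h'⟩
    exact ⟨e', h.symm.imp id id, fun d hd => h' d hd.symm⟩
  · rintro ⟨e', h, h'⟩
    exact ⟨e', h.symm.imp id id, fun d hd => h' d hd.symm⟩

lemma cp_mem {e : W} (h : e ∈ CP rk Q₁ Q₂) : e ∈ Q₁ ∨ e ∈ Q₂ := by
  obtain ⟨e', h | h, -⟩ := h
  · exact Or.inl h.1
  · exact Or.inr h.1

/-- elements of the first colour whose successor has the second colour -/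
private def SU {W : Type*} (rk : W → ℕ) (Q₁ Q₂ : Set W) : Set W :=
  {a | a ∈ Q₁ ∧ ∃ b ∈ Q₂, rk a < rk b ∧ ∀ d, d ∈ Q₁ ∨ d ∈ Q₂ → ¬ (rk a < rk d ∧ rk d < rk b)}

/-- elements of the first colour whose predecessor has the second colour -/
private def SP {W : Type*} (rk : W → ℕ) (Q₁ Q₂ : Set W) : Set W :=
  {a | a ∈ Q₁ ∧ ∃ b ∈ Q₂, rk b < rk a ∧ ∀ d, d ∈ Q₁ ∨ d ∈ Q₂ → ¬ (rk b < rk d ∧ rk d < rk a)}

omit [Finite W] in
private lemma cp_sub (hd : Disjoint Q₁ Q₂)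
    (hinj : ∀ a b, (a ∈ Q₁ ∨ a ∈ Q₂) → (b ∈ Q₁ ∨ b ∈ Q₂) → rk a = rk b → a = b) :
    CP rk Q₁ Q₂ ⊆ (SU rk Q₁ Q₂ ∪ SP rk Q₁ Q₂) ∪ (SU rk Q₂ Q₁ ∪ SP rk Q₂ Q₁) := by
  have hne : ∀ a ∈ Q₁, ∀ b ∈ Q₂, rk a ≠ rk b := by
    intro a ha b hb h
    have := hinj a b (Or.inl ha) (Or.inr hb) h
    subst this
    exact Set.disjoint_left.1 hd ha hb
  rintro e ⟨e', h | h, h'⟩
  · rcases lt_or_gt_of_ne (hne e h.1 e' h.2) with hl | hl
    · exact Or.inl (Or.inl ⟨h.1, e', h.2, hl, fun d hdd hh => h' d hdd (Or.inl hh)⟩)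
    · exact Or.inl (Or.inr ⟨h.1, e', h.2, hl, fun d hdd hh => h' d hdd (Or.inr hh)⟩)
  · rcases lt_or_gt_of_ne (hne e' h.2 e h.1) with hl | hl
    · exact Or.inr (Or.inr ⟨h.1, e', h.2, hl, fun d hdd hh => h' d hdd.symm (Or.inr hh)⟩)
    · exact Or.inr (Or.inl ⟨h.1, e', h.2, hl, fun d hdd hh => h' d hdd.symm (Or.inl hh)⟩)

/-- the predecessor is injective -/
private lemma sp_le (hinj : ∀ a b, (a ∈ Q₁ ∨ a ∈ Q₂) → (b ∈ Q₁ ∨ b ∈ Q₂) → rk a = rk b → a = b) :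
    (SP rk Q₂ Q₁).ncard ≤ (SU rk Q₁ Q₂).ncard := by
  have hex : ∀ b ∈ SP rk Q₂ Q₁, ∃ a, a ∈ SU rk Q₁ Q₂ ∧ rk a < rk b ∧
      ∀ d, d ∈ Q₁ ∨ d ∈ Q₂ → ¬ (rk a < rk d ∧ rk d < rk b) := by
    rintro b ⟨hb, a, ha, hlt, h⟩
    exact ⟨a, ⟨ha, b, hb, hlt, fun d hd => h d hd.symm⟩, hlt, fun d hd => h d hd.symm⟩
  let f : W → W := fun b => if h : b ∈ SP rk Q₂ Q₁ then (hex b h).choose else b
  have hf : ∀ b (h : b ∈ SP rk Q₂ Q₁), f b = (hex b h).choose := fun b h => by simp only [f, dif_pos h]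
  refine Set.ncard_le_ncard_of_injOn f ?_ ?_ (Set.toFinite _)
  · intro b hb
    rw [hf b hb]
    exact (hex b hb).choose_spec.1
  · intro b hb b' hb' he
    have h1 := (hex b hb).choose_spec
    have h2 := (hex b' hb').choose_spec
    rw [← hf b hb] at h1
    rw [← hf b' hb'] at h2
    have he' : f b = f b' := he
    rw [← he'] at h2
    rcases lt_trichotomy (rk b) (rk b') with h | h | h
    · exact absurd ⟨h1.2.1, h⟩ (h2.2.2 b (Or.inr hb.1))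
    · exact hinj b b' (Or.inr hb.1) (Or.inr hb'.1) h
    · exact absurd ⟨h2.2.1, h⟩ (h1.2.2 b' (Or.inr hb'.1))

private lemma cp_le (hd : Disjoint Q₁ Q₂)
    (hinj : ∀ a b, (a ∈ Q₁ ∨ a ∈ Q₂) → (b ∈ Q₁ ∨ b ∈ Q₂) → rk a = rk b → a = b) :
    (CP rk Q₁ Q₂).ncard ≤ ((SU rk Q₁ Q₂).ncard + (SP rk Q₁ Q₂).ncard) +
      ((SU rk Q₂ Q₁).ncard + (SP rk Q₂ Q₁).ncard) :=
  (Set.ncard_le_ncard (cp_sub hd hinj) (Set.toFinite _)).trans
    ((Set.ncard_union_le _ _).trans (Nat.add_le_add (Set.ncard_union_le _ _) (Set.ncard_union_le _ _)))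

private lemma su_alt (hd : Disjoint Q₁ Q₂)
    (hinj : ∀ a b, (a ∈ Q₁ ∨ a ∈ Q₂) → (b ∈ Q₁ ∨ b ∈ Q₂) → rk a = rk b → a = b) (B : ℕ)
    (halt : ∀ l : List W, l.Pairwise (fun a b => rk a < rk b) → (∀ b ∈ l, b ∈ Q₁ ∨ b ∈ Q₂) →
      l.IsChain (fun a b => a ∈ Q₁ ↔ b ∈ Q₂) → l.length ≤ B) : (SU rk Q₁ Q₂).ncard ≤ B := by
  have h := count_changes (F := {x | x ∈ Q₁ ∨ x ∈ Q₂}) (Set.toFinite _) rk
    (fun a ha b hb => hinj a b ha hb) (fun x => x ∈ Q₁) B (fun l h1 h2 h3 => halt l h1 h2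
      (h3.imp_of_mem_imp (fun a b _ hb hab => by
        rcases h2 b hb with h | h
        · exact ⟨fun h' => absurd h (hab.1 h'), fun h' => absurd h' (Set.disjoint_left.1 hd h)⟩
        · exact ⟨fun _ => h, fun _ => hab.2 (Set.disjoint_right.1 hd h)⟩)))
  refine (Set.ncard_le_ncard ?_ (Set.toFinite _)).trans h
  rintro a ⟨ha, b, hb, hlt, hh⟩
  exact ⟨Or.inl ha, ha, b, Or.inr hb, Set.disjoint_right.1 hd hb, hlt, hh⟩

lemma cp_bound_alt (hd : Disjoint Q₁ Q₂)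
    (hinj : ∀ a b, (a ∈ Q₁ ∨ a ∈ Q₂) → (b ∈ Q₁ ∨ b ∈ Q₂) → rk a = rk b → a = b) (B : ℕ)
    (halt : ∀ l : List W, l.Pairwise (fun a b => rk a < rk b) → (∀ b ∈ l, b ∈ Q₁ ∨ b ∈ Q₂) →
      l.IsChain (fun a b => a ∈ Q₁ ↔ b ∈ Q₂) → l.length ≤ B) : (CP rk Q₁ Q₂).ncard ≤ 4 * B := by
  have hinj' : ∀ a b, (a ∈ Q₂ ∨ a ∈ Q₁) → (b ∈ Q₂ ∨ b ∈ Q₁) → rk a = rk b → a = b :=
    fun a b ha hb => hinj a b ha.symm hb.symm
  have h1 := su_alt hd hinj B halt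
  have h2 := su_alt hd.symm hinj' B (fun l hl h3 h4 => halt l hl (fun b hb => (h3 b hb).symm)
    (h4.imp_of_mem_imp (fun a b ha hb hab => by
      have ha' := h3 a ha
      have hb' := h3 b hb
      have d1 : a ∈ Q₁ → ¬ a ∈ Q₂ := fun h => Set.disjoint_left.1 hd h
      have d2 : b ∈ Q₁ → ¬ b ∈ Q₂ := fun h => Set.disjoint_left.1 hd h
      tauto)))
  have h3 := sp_le hinj
  have h4 := sp_le hinj'
  have h5 := cp_le hd hinj
  omega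

omit [Finite W] in
private lemma su_cls {N : ℕ} (hd : Disjoint Q₁ Q₂)
    (hinj : ∀ a b, (a ∈ Q₁ ∨ a ∈ Q₂) → (b ∈ Q₁ ∨ b ∈ Q₂) → rk a = rk b → a = b) (κ : W → Fin N)
    (h : ∀ a ∈ Q₁, ∀ a' ∈ Q₁, κ a = κ a' → ∀ q ∈ Q₂, ¬ (rk a < rk q ∧ rk q < rk a')) :
    (SU rk Q₁ Q₂).ncard ≤ N := by
  have key : ∀ a ∈ SU rk Q₁ Q₂, ∀ a' ∈ SU rk Q₁ Q₂, κ a = κ a' → ¬ rk a < rk a' := by
    rintro a ⟨ha, q, hq, hlt, hh⟩ a' ⟨ha', -⟩ hκ hl
    have h1 := hh a' (Or.inl ha')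
    have h2 := h a ha a' ha' hκ q hq
    have h3 : rk a' ≠ rk q := by
      intro he
      have := hinj a' q (Or.inl ha') (Or.inr hq) he
      subst this
      exact Set.disjoint_left.1 hd ha' hq
    omega
  have hle := Set.ncard_le_ncard_of_injOn (s := SU rk Q₁ Q₂) (t := (Set.univ : Set (Fin N))) κ
    (fun _ _ => Set.mem_univ _) (fun a ha a' ha' he => by
      rcases lt_trichotomy (rk a) (rk a') with hl | hl | hl
      · exact absurd hl (key a ha a' ha' he)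
      · exact hinj a a' (Or.inl ha.1) (Or.inl ha'.1) hl
      · exact absurd hl (key a' ha' a ha he.symm)) (Set.toFinite _)
  simpa using hle

omit [Finite W] in
private lemma sp_cls {N : ℕ} (hd : Disjoint Q₁ Q₂)
    (hinj : ∀ a b, (a ∈ Q₁ ∨ a ∈ Q₂) → (b ∈ Q₁ ∨ b ∈ Q₂) → rk a = rk b → a = b) (κ : W → Fin N)
    (h : ∀ a ∈ Q₁, ∀ a' ∈ Q₁, κ a = κ a' → ∀ q ∈ Q₂, ¬ (rk a < rk q ∧ rk q < rk a')) :
    (SP rk Q₁ Q₂).ncard ≤ N := by
  have key : ∀ a ∈ SP rk Q₁ Q₂, ∀ a' ∈ SP rk Q₁ Q₂, κ a = κ a' → ¬ rk a < rk a' := by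
    rintro a ⟨ha, -⟩ a' ⟨ha', q, hq, hlt, hh⟩ hκ hl
    have h1 := hh a (Or.inl ha)
    have h2 := h a ha a' ha' hκ q hq
    have h3 : rk a ≠ rk q := by
      intro he
      have := hinj a q (Or.inl ha) (Or.inr hq) he
      subst this
      exact Set.disjoint_left.1 hd ha hq
    omega
  have hle := Set.ncard_le_ncard_of_injOn (s := SP rk Q₁ Q₂) (t := (Set.univ : Set (Fin N))) κ
    (fun _ _ => Set.mem_univ _) (fun a ha a' ha' he => by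
      rcases lt_trichotomy (rk a) (rk a') with hl | hl | hl
      · exact absurd hl (key a ha a' ha' he)
      · exact hinj a a' (Or.inl ha.1) (Or.inl ha'.1) hl
      · exact absurd hl (key a' ha' a ha he.symm)) (Set.toFinite _)
  simpa using hle

/-- the successor is injective -/
private lemma su_le (hinj : ∀ a b, (a ∈ Q₁ ∨ a ∈ Q₂) → (b ∈ Q₁ ∨ b ∈ Q₂) → rk a = rk b → a = b) :
    (SU rk Q₂ Q₁).ncard ≤ (SP rk Q₁ Q₂).ncard := by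
  have hex : ∀ b ∈ SU rk Q₂ Q₁, ∃ a, a ∈ SP rk Q₁ Q₂ ∧ rk b < rk a ∧
      ∀ d, d ∈ Q₁ ∨ d ∈ Q₂ → ¬ (rk b < rk d ∧ rk d < rk a) := by
    rintro b ⟨hb, a, ha, hlt, h⟩
    exact ⟨a, ⟨ha, b, hb, hlt, fun d hd => h d hd.symm⟩, hlt, fun d hd => h d hd.symm⟩
  let f : W → W := fun b => if h : b ∈ SU rk Q₂ Q₁ then (hex b h).choose else b
  have hf : ∀ b (h : b ∈ SU rk Q₂ Q₁), f b = (hex b h).choose := fun b h => by simp only [f, dif_pos h]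
  refine Set.ncard_le_ncard_of_injOn f ?_ ?_ (Set.toFinite _)
  · intro b hb
    rw [hf b hb]
    exact (hex b hb).choose_spec.1
  · intro b hb b' hb' he
    have h1 := (hex b hb).choose_spec
    have h2 := (hex b' hb').choose_spec
    rw [← hf b hb] at h1
    rw [← hf b' hb'] at h2
    have he' : f b = f b' := he
    rw [← he'] at h2
    rcases lt_trichotomy (rk b) (rk b') with h | h | h
    · exact absurd ⟨h, h2.2.1⟩ (h1.2.2 b' (Or.inr hb'.1))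
    · exact hinj b b' (Or.inr hb.1) (Or.inr hb'.1) h
    · exact absurd ⟨h, h1.2.1⟩ (h2.2.2 b (Or.inr hb.1))

lemma cp_bound_cls {N : ℕ} (hd : Disjoint Q₁ Q₂)
    (hinj : ∀ a b, (a ∈ Q₁ ∨ a ∈ Q₂) → (b ∈ Q₁ ∨ b ∈ Q₂) → rk a = rk b → a = b) (κ : W → Fin N)
    (h : ∀ a ∈ Q₁, ∀ a' ∈ Q₁, κ a = κ a' → ∀ q ∈ Q₂, ¬ (rk a < rk q ∧ rk q < rk a')) :
    (CP rk Q₁ Q₂).ncard ≤ 4 * N := by
  have h1 := su_cls hd hinj κ h
  have h2 := sp_cls hd hinj κ h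
  have h3 := sp_le hinj
  have h4 := su_le hinj
  have h5 := cp_le hd hinj
  omega

end Pool.Agent.BTV
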