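import Pool.Agent.BTV.Defs
import Pool.Agent.BTD.CAa
import Pool.Agent.BTD.CAb

/-! BTV LA: legs, landings, regular pieces.

All facts are about the iterates of the parent map `M.par q` (`LMet.Anc q a v ↔ ∃ k, (par q)^[k] v = a`).
`land_unique`: the smaller of the two numbers `k` is a vortex vertex, so both are equal; `w_inj`.
`land_par`: if `v` is planar then `k ≥ 1`; shift by one (`Function.iterate_succ_apply`).
`free_or_land`: `D v q ≠ ⊤`: `Anc q q v` (`LMet.anc_root`); if some iterate is a vortex vertex take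
the first one (`Nat.find`), otherwise `Free`.
`anc_total`: iterates of `v` with numbers `k ≤ l`.
`land_between`: `u = (par q)^[j] v`; if `j ≤ k` clear (iterate `k - j` of `u` is `w p`).  If `j > k`
then `u` is an ancestor of `w p`; by `LMet.anc_antisymm` `u = w p`.
`uu_isV`: `UU q v (some b)`, `u` between `v` and `w b`.  If `u ≠ v` then `u` is an ancestor of
`par q v` (`LMet.anc_par_of_ne`) and by `land_between` `u = w b` or planar.  For `none`: `u ≠ v`
is an ancestor of `par q v`, planar by `Free`.
`reg_unique`: cases; `some b`, `some b'`: `land_unique`; `some b`, `none`: `w b` is an ancestor of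
`par q v`, contradiction to `Free`. -/

set_option autoImplicit false

open Classical

namespace Pool.Agent.BTV

open Pool.Agent.BTD Pool.Agent.H81.Balls

universe u

variable {V : Type u} {G : SimpleGraph V} {M : LMet G} {E : NE V}

lemma bag_isV {p : Fin E.n} {v : V} (h : v ∈ E.X p) : E.IsV v := by
  obtain ⟨q, hq, -⟩ := E.X_sub p v h
  exact ⟨q, hq⟩

lemma land_unique {q v : V} {p p' : Fin E.n} (h : Land M E q v p) (h' : Land M E q v p') : p = p' := by
  obtain ⟨k, hk, hk'⟩ := h
  obtain ⟨l, hl, hl'⟩ := h'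
  rcases lt_trichotomy k l with h | h | h
  · exact absurd ⟨p, hk.symm⟩ (hl' k h)
  · subst h
    exact E.w_inj _ _ (hk.symm.trans hl)
  · exact absurd ⟨p', hl.symm⟩ (hk' l h)

lemma land_self {q : V} {p : Fin E.n} : Land M E q (E.w p) p := by
  exact ⟨0, rfl, fun j hj => absurd hj (Nat.not_lt_zero j)⟩

lemma land_eq_of_isV {q v : V} {p : Fin E.n} (h : Land M E q v p) (hv : E.IsV v) : E.w p = v := by
  obtain ⟨k, hk, hk'⟩ := h
  cases k with
  | zero => exact hk.symm
  | succ k => exact absurd hv (hk' 0 (Nat.succ_pos k))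

lemma land_par {q v : V} {p : Fin E.n} (hv : ¬ E.IsV v) : Land M E q v p ↔ Land M E q (M.par q v) p := by
  constructor
  · rintro ⟨k, hk, hk'⟩
    cases k with
    | zero => exact absurd ⟨p, hk.symm⟩ hv
    | succ k =>
      refine ⟨k, ?_, ?_⟩
      · rw [← hk, Function.iterate_succ_apply]
      · intro j hj
        have := hk' (j + 1) (Nat.succ_lt_succ hj)
        rwa [Function.iterate_succ_apply] at this
  · rintro ⟨k, hk, hk'⟩
    refine ⟨k + 1, ?_, ?_⟩
    · rw [← hk, Function.iterate_succ_apply]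
    · intro j hj
      cases j with
      | zero => exact hv
      | succ j =>
        rw [Function.iterate_succ_apply]
        exact hk' j (Nat.lt_of_succ_lt_succ hj)

lemma land_anc {q v : V} {p : Fin E.n} (h : Land M E q v p) : M.Anc q (E.w p) v := by
  obtain ⟨k, hk, -⟩ := h
  exact ⟨k, hk⟩

lemma free_or_land {q v : V} (h : M.D v q ≠ ⊤) : Free M E q v ∨ ∃ p, Land M E q v p := by
  by_cases hex : ∃ k : ℕ, E.IsV ((M.par q)^[k] v)
  · right
    obtain ⟨p, hp⟩ := Nat.find_spec hex
    exact ⟨p, Nat.find hex, hp.symm, fun j hj => Nat.find_min hex hj⟩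
  · left
    refine ⟨h, ?_⟩
    rintro a ⟨k, rfl⟩ ha
    exact hex ⟨k, ha⟩

lemma not_free_of_land {q v : V} {p : Fin E.n} (h : Land M E q v p) : ¬ Free M E q v := by
  intro hf
  exact hf.2 _ (land_anc h) ⟨p, rfl⟩

lemma free_anc {q v a : V} (h : Free M E q v) (ha : M.Anc q a v) : Free M E q a := by
  exact ⟨LMet.Anc.ne_top ha h.1, fun b hb => h.2 b (M.anc_trans hb ha)⟩

lemma free_par_iff {q v : V} (hv : ¬ E.IsV v) (hq : v ≠ q) : Free M E q v ↔ (M.D v q ≠ ⊤ ∧ Free M E q (M.par q v)) := by
  constructor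
  · intro h
    exact ⟨h.1, free_anc h M.anc_par⟩
  · rintro ⟨hD, h⟩
    refine ⟨hD, fun a ha => ?_⟩
    by_cases hav : a = v
    · rw [hav]; exact hv
    · exact h.2 a (M.anc_par_of_ne ha hav)

/-- two vertices on a leg are comparable -/
lemma anc_total {q v a b : V} (ha : M.Anc q a v) (hb : M.Anc q b v) : M.Anc q a b ∨ M.Anc q b a := by
  obtain ⟨k, hk⟩ := ha
  obtain ⟨l, hl⟩ := hb
  rcases le_total k l with h | h
  · right
    refine ⟨l - k, ?_⟩
    rw [← hk, ← Function.iterate_add_apply, Nat.sub_add_cancel h, hl]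
  · left
    refine ⟨k - l, ?_⟩
    rw [← hl, ← Function.iterate_add_apply, Nat.sub_add_cancel h, hk]

/-- vertices between `v` and its landing are planar and have the same landing -/
lemma land_between {q v u : V} {p : Fin E.n} (hD : M.D v q ≠ ⊤) (h : Land M E q v p) (hu : M.Anc q u v)
    (hpu : M.Anc q (E.w p) u) : Land M E q u p ∧ (u = E.w p ∨ ¬ E.IsV u) := by
  obtain ⟨k, hk, hk'⟩ := h
  obtain ⟨j, hj⟩ := hu
  rcases le_or_gt j k with h | h
  · constructor
    · refine ⟨k - j, ?_, ?_⟩
      · rw [← hj, ← Function.iterate_add_apply, Nat.sub_add_cancel h, hk]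
      · intro i hi
        rw [← hj, ← Function.iterate_add_apply]
        exact hk' _ (by omega)
    · rcases Nat.lt_or_eq_of_le h with h' | h'
      · right
        rw [← hj]
        exact hk' j h'
      · left
        rw [← hj, h', hk]
  · have h1 : M.Anc q u (E.w p) := by
      refine ⟨j - k, ?_⟩
      rw [← hk, ← Function.iterate_add_apply, Nat.sub_add_cancel h.le, hj]
    have h2 : u = E.w p := M.anc_antisymm (LMet.Anc.ne_top ⟨j, hj⟩ hD) h1 hpu
    rw [h2]
    exact ⟨land_self, Or.inl rfl⟩

/-- a vortex vertex on the leg is at or after the landing -/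
lemma land_first {q v u : V} {p : Fin E.n} (h : Land M E q v p) (hu : M.Anc q u v) (huV : E.IsV u) :
    M.Anc q u (E.w p) := by
  obtain ⟨k, hk, hk'⟩ := h
  obtain ⟨j, hj⟩ := hu
  rcases lt_or_ge j k with h | h
  · exact absurd (hj ▸ huV) (hk' j h)
  · refine ⟨j - k, ?_⟩
    rw [← hk, ← Function.iterate_add_apply, Nat.sub_add_cancel h, hj]

lemma reg_ne_top {q v : V} {e : Option (Fin E.n)} (h : Reg M E q v e) : M.D v q ≠ ⊤ := by
  cases e with
  | none => exact h.1
  | some b => exact h.1

lemma reg_ne {q v : V} {e : Option (Fin E.n)} (h : Reg M E q v e) : v ≠ q := by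
  cases e with
  | none => exact h.2.1
  | some b => exact h.2.1

lemma reg_vst {q v : V} {e : Option (Fin E.n)} (h : Reg M E q v e) : ¬ E.VSt v (M.par q v) := by
  cases e with
  | none => exact h.2.2.1
  | some b => exact h.2.2.1

lemma reg_unique {q v : V} {e e' : Option (Fin E.n)} (h : Reg M E q v e) (h' : Reg M E q v e') : e = e' := by
  cases e with
  | none =>
    cases e' with
    | none => rfl
    | some b => exact absurd h.2.2.2 (not_free_of_land h'.2.2.2)
  | some b =>
    cases e' with
    | none => exact absurd h'.2.2.2 (not_free_of_land h.2.2.2)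
    | some b' => rw [land_unique h.2.2.2 h'.2.2.2]

/-- for planar `v ≠ q` a landing is a regular piece -/
lemma reg_of_land {q v : V} {p : Fin E.n} (hv : ¬ E.IsV v) (hD : M.D v q ≠ ⊤) (h : Land M E q v p) :
    Reg M E q v (some p) := by
  have hne : v ≠ q := by
    rintro rfl
    obtain ⟨k, hk, -⟩ := h
    rw [LMet.CAb_iter_root] at hk
    exact hv ⟨p, hk.symm⟩
  refine ⟨hD, hne, ?_, (land_par hv).1 h⟩
  rintro ⟨r, hr, -⟩
  exact hv (bag_isV hr)

lemma uu_anc {q v x : V} {e : Option (Fin E.n)} (h : x ∈ UU M E q v e) : M.Anc q x v := by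
  cases e with
  | none => exact h
  | some b => exact h.1

lemma uu_start {q v : V} {e : Option (Fin E.n)} (h : Reg M E q v e) : v ∈ UU M E q v e := by
  cases e with
  | none => exact M.anc_refl
  | some b => exact ⟨M.anc_refl, M.anc_trans (land_anc h.2.2.2) M.anc_par⟩

lemma uu_end {q v : V} {b : Fin E.n} (h : Reg M E q v (some b)) : E.w b ∈ UU M E q v (some b) := by
  exact ⟨M.anc_trans (land_anc h.2.2.2) M.anc_par, M.anc_refl⟩

/-- the only vortex vertices on a regular piece are its ends -/
lemma uu_isV {q v x : V} {e : Option (Fin E.n)} (h : Reg M E q v e) (hx : x ∈ UU M E q v e) (hxV : E.IsV x) :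
    x = v ∨ ∃ b, e = some b ∧ x = E.w b := by
  by_cases hxv : x = v
  · exact Or.inl hxv
  · right
    have h1 := M.anc_par_of_ne (uu_anc hx) hxv
    cases e with
    | none => exact absurd hxV (h.2.2.2.2 x h1)
    | some b =>
      refine ⟨b, rfl, ?_⟩
      rcases (land_between (M.par_ne_top h.1) h.2.2.2 h1 hx.2).2 with h2 | h2
      · exact h2
      · exact absurd hxV h2

/-- the vertices of a regular piece belong to every set closed under the parent map -/
lemma uu_sub {q v : V} {e : Option (Fin E.n)} {W : Set V} (hW : M.Cl q W) (hv : v ∈ W) :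
    UU M E q v e ⊆ W := by
  intro x hx
  exact hW.anc hv (uu_anc hx)

/-- a step outside of the bags is an edge of `H` -/
lemma hadj_par {q v : V} (hfit : E.Fits G) (hD : M.D v q ≠ ⊤) (hq : v ≠ q) (hst : ¬ E.VSt v (M.par q v)) :
    E.H.Adj v (M.par q v) := by
  rcases hfit v (M.par q v) (M.par_adj hq hD) with h | h
  · exact h
  · exact absurd h hst

lemma vst_isV {u v : V} (h : E.VSt u v) : E.IsV u ∧ E.IsV v := by
  obtain ⟨p, hu, hv⟩ := h
  exact ⟨bag_isV hu, bag_isV hv⟩

end Pool.Agent.BTV
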