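import Pool.Agent.BTV.CDb
import Pool.Agent.BTV.LA

/-! BTV CDe: facts on weighted distances and handled classes for length metrics.

`D_anc`: `a` on the leg of `v` towards `q`: `D v q = D v a + D a q`, for `D v q ≠ ⊤`: `≤` by
`D_tri` (triangle inequality: induction on the leg of `v` towards `a`: `D v q ≤ len v (par a v) +
D (par a v) q`, `D v a = len + D (par a v) a`), `≥` by induction along the leg of `q`
(`D v q = len v (par q v) + D (par q v) q`, `D v a ≤ len v (par q v) + D (par q v) a` (`D_le`)).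
`wd_anc`: the same with offsets.  `wd_step_le`: `wd x v ≤ len v v' + wd x v'`.
`killed_up`: if `wd y v < wd x v` (`y` strictly closer) then the same at `par y.1 v`.
`exists_far`: `Y` nonempty, all `wd x c ≤ ρ`: the values `wd x c` are natural numbers `≤ ρ`; take a
maximal one.
`hd_dom`: region `{e' | wd r e'.1 ≤ e'.2}` with one hint `r`.
`hd_via`: all sites of `Y` have `wd x e.1 = D e.1 z + wd x z`; `x* ∈ Y` with `wd x* z` maximal
(bounded by `e.2`); region `{e' | D e'.1 z + wd x* z ≤ e'.2}`; triangle inequality.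
`hd_shift`: region `{e' | ∃ e'' ∈ reg, D e'.1 e''.1 + e''.2 ≤ e'.2}`: `Dcd.map`; triangle inequality.
`hd_larger`: `M'` with larger distances. -/

set_option autoImplicit false

open Classical

namespace Pool.Agent.BTV

open Pool.Agent.BTD

universe u

variable {V : Type u} {G : SimpleGraph V} {M : LMet G}

lemma D_tri (v a q : V) : M.D v q ≤ M.D v a + M.D a q := by
  by_cases h : M.D v a = ⊤
  · rw [h, top_add]
    exact le_top
  have key : ∀ n : ℕ, ∀ w : V, M.D w a ≠ ⊤ → (M.D w a).toNat ≤ n →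
      M.D w q ≤ M.D w a + M.D a q := by
    intro n
    induction n with
    | zero =>
      intro w hw hn
      by_cases hwa : w = a
      · rw [hwa, M.D_self, zero_add]
      · have := LMet.toNat_par_lt hwa hw
        omega
    | succ n ih =>
      intro w hw hn
      by_cases hwa : w = a
      · rw [hwa, M.D_self, zero_add]
      · have h1 := LMet.toNat_par_lt hwa hw
        have h2 := ih _ (LMet.par_ne_top hw) (by omega)
        rw [LMet.par_D hwa hw, add_assoc]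
        exact (M.D_le _ _ _ (LMet.par_adj hwa hw)).trans (add_le_add le_rfl h2)
  exact key _ v h le_rfl

lemma CDe_step {q v : V} (hD : M.D v q ≠ ⊤) (hv : v ≠ q) {a : V}
    (ih : M.D (M.par q v) q = M.D (M.par q v) a + M.D a q) : M.D v q = M.D v a + M.D a q := by
  refine le_antisymm (D_tri v a q) ?_
  rw [LMet.par_D hv hD, ih, ← add_assoc]
  exact add_le_add (M.D_le _ _ _ (LMet.par_adj hv hD)) le_rfl

lemma D_anc {q v a : V} (hD : M.D v q ≠ ⊤) (h : M.Anc q a v) : M.D v q = M.D v a + M.D a q := by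
  obtain ⟨k, hk⟩ := h
  induction k generalizing v with
  | zero =>
    have : v = a := hk
    rw [this, M.D_self, zero_add]
  | succ k ih =>
    by_cases hv : v = q
    · rw [Function.iterate_succ_apply, hv, LMet.par_root] at hk
      rw [LMet.CAb_iter_root] at hk
      rw [hv, ← hk, M.D_self, zero_add]
    · rw [Function.iterate_succ_apply] at hk
      exact CDe_step hD hv (ih (LMet.par_ne_top hD) hk)

lemma wd_tri (x : V × ℕ) (v a : V) : M.wd x v ≤ M.D v a + M.wd x a := by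
  unfold LMet.wd
  rw [← add_assoc]
  exact add_le_add (D_tri v a x.1) le_rfl

lemma wd_anc {x : V × ℕ} {v a : V} (hD : M.D v x.1 ≠ ⊤) (h : M.Anc x.1 a v) :
    M.wd x v = M.D v a + M.wd x a := by
  unfold LMet.wd
  rw [← add_assoc, D_anc hD h]

lemma CDe_ne_top {q v a : V} (hD : M.D v q ≠ ⊤) (h : M.Anc q a v) : M.D v a ≠ ⊤ := by
  intro h2
  apply hD
  rw [D_anc hD h, h2, top_add]

/-- `x ≤ y` at `v` implies `x ≤ y` along the leg of `x` -/
lemma le_anc {x y : V × ℕ} {v a : V} (hD : M.D v x.1 ≠ ⊤) (h : M.Anc x.1 a v)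
    (hle : M.wd x v ≤ M.wd y v) : M.wd x a ≤ M.wd y a := by
  have h1 := hle.trans (wd_tri y v a)
  rw [wd_anc hD h] at h1
  exact (ENat.add_le_add_iff_left (CDe_ne_top hD h)).1 h1

lemma lt_anc {x y : V × ℕ} {v a : V} (hD : M.D v x.1 ≠ ⊤) (h : M.Anc x.1 a v)
    (hlt : M.wd x v < M.wd y v) : M.wd x a < M.wd y a := by
  have h1 := hlt.trans_le (wd_tri y v a)
  rw [wd_anc hD h] at h1
  exact (ENat.add_lt_add_iff_left (CDe_ne_top hD h)).1 h1

/-- a set defined by comparisons with `x` is closed along the legs of `x` -/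
lemma cl_cmp (x : V × ℕ) (A B : Set (V × ℕ)) :
    M.Cl x.1 {v | M.wd x v ≠ ⊤ ∧ (∀ y ∈ A, M.wd x v ≤ M.wd y v) ∧ ∀ y ∈ B, M.wd x v < M.wd y v} :=
  LMet.cell_cl x A B

lemma exists_far {Y : Set (V × ℕ)} (hY : Y.Nonempty) {c : V} {ρ : ℕ} (h : ∀ x ∈ Y, M.wd x c ≤ ρ) :
    ∃ x ∈ Y, ∀ y ∈ Y, M.wd y c ≤ M.wd x c := by
  have hfin : ((fun x => M.wd x c) '' Y).Finite := by
    refine Set.Finite.subset ((Set.finite_Iic ρ).image (Nat.cast : ℕ → ℕ∞)) ?_
    rintro _ ⟨x, hx, rfl⟩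
    obtain ⟨n, hn⟩ := ENat.ne_top_iff_exists.mp (ne_top_of_le_ne_top (ENat.natCast_ne_top _) (h x hx))
    refine ⟨n, ?_, hn⟩
    have h2 := h x hx
    rw [← hn] at h2
    exact_mod_cast h2
  obtain ⟨_, ⟨x, hx, rfl⟩, hmax⟩ := Set.Finite.exists_maximal hfin (hY.image _)
  refine ⟨x, hx, fun y hy => ?_⟩
  by_contra hc
  exact hc (hmax ⟨y, hy, rfl⟩ (le_of_lt (not_le.1 hc)))

/-- a dominating site -/
lemma hd_dom : Hd M.inc 1 (fun _ Y e => Y = ∅ ∨ ∃ r ∈ Y, ∀ x ∈ Y, ∀ c, M.wd x c ≤ M.wd r c) := by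
  refine ⟨fun X reg => reg = Set.univ ∨ ∃ r ∈ X, reg = {e' : V × ℕ | M.wd r e'.1 ≤ e'.2},
    ⟨fun a _ => some (match a 0 with
      | none => Set.univ
      | some r => {e' : V × ℕ | M.wd r e'.1 ≤ e'.2}), ?_⟩, ?_⟩
  · rintro X reg (rfl | ⟨r, hr, rfl⟩)
    · refine ⟨fun _ => none, 0, ?_, rfl⟩
      intro i x hx
      exact absurd hx (by simp)
    · refine ⟨fun _ => some r, 0, ?_, rfl⟩
      intro i x hx
      simp only [Option.some.injEq] at hx
      rw [← hx]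
      exact hr
  · rintro X Y e hYX hinc (rfl | ⟨r, hr, hdom⟩)
    · exact ⟨Set.univ, Or.inl rfl, Set.mem_univ _, fun e' _ x hx => absurd hx (by simp)⟩
    · exact ⟨_, Or.inr ⟨r, hYX hr, rfl⟩, LMet.inc_iff.1 (hinc r hr),
        fun e' he' x hx => LMet.inc_iff.2 ((hdom x hx e'.1).trans he')⟩

/-- all legs pass a decodable vertex -/
lemma hd_via {N : ℕ} {R : Set (V × ℕ) → V → Prop} (h : Dcd N R) :
    Hd M.inc (bd N 1 + 1) (fun X Y e => ∃ z, R X z ∧ ∀ x ∈ Y, M.wd x e.1 = M.D e.1 z + M.wd x z) := by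
  have h1 : Dcd (bd N 1) (fun X (reg : Set (V × ℕ)) => ∃ z, R X z ∧
      ∃ x ∈ X, (fun x : V × ℕ => {e' : V × ℕ | M.D e'.1 z + M.wd x z ≤ e'.2}) x = reg) :=
    Dcd.bind h (fun z => Dcd.map Dcd.site _)
  refine ⟨_, Dcd.or h1 (Dcd.pure Set.univ), ?_⟩
  rintro X Y e hYX hinc ⟨z, hz, hvia⟩
  rcases Y.eq_empty_or_nonempty with rfl | hne
  · exact ⟨Set.univ, Or.inr rfl, Set.mem_univ _, fun e' _ x hx => absurd hx (by simp)⟩
  · obtain ⟨r, hr, hmax⟩ := exists_far (M := M) (c := z) (ρ := e.2) hne (fun x hx => by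
      refine le_trans ?_ (LMet.inc_iff.1 (hinc x hx))
      rw [hvia x hx]
      exact le_add_self)
    refine ⟨_, Or.inl ⟨z, hz, r, hYX hr, rfl⟩, ?_, ?_⟩
    · have := LMet.inc_iff.1 (hinc r hr)
      rw [hvia r hr] at this
      exact this
    · intro e' he' x hx
      exact LMet.inc_iff.2 ((wd_tri x e'.1 z).trans ((add_le_add le_rfl (hmax x hx)).trans he'))

/-- all legs pass a vertex which is handled as a target -/
lemma hd_shift {N : ℕ} {Cond : Set (V × ℕ) → Set (V × ℕ) → V × ℕ → Prop} (h : Hd M.inc N Cond) :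
    Hd M.inc N (fun X Y e => ∃ e' : V × ℕ, M.D e.1 e'.1 + e'.2 ≤ e.2 ∧ (∀ x ∈ Y, M.inc e' x) ∧
      Cond X Y e') := by
  obtain ⟨Rg, hR, hreg⟩ := h
  refine ⟨_, Dcd.map hR (fun reg => {f : V × ℕ | ∃ e'' ∈ reg, M.D f.1 e''.1 + (e''.2 : ℕ∞) ≤ f.2}), ?_⟩
  rintro X Y e hYX - ⟨e', hle, hinc', hc⟩
  obtain ⟨reg, h1, h2, h3⟩ := hreg X Y e' hYX hinc' hc
  refine ⟨_, ⟨reg, h1, rfl⟩, ⟨e', h2, hle⟩, ?_⟩
  rintro f ⟨e'', he'', hf⟩ x hx
  have h4 := LMet.inc_iff.1 (h3 e'' he'' x hx)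
  exact LMet.inc_iff.2 ((wd_tri x f.1 e''.1).trans ((add_le_add le_rfl h4).trans hf))

/-- a larger metric (for example of a subgraph) -/
lemma hd_larger {G' : SimpleGraph V} {M' : LMet G'} (hM : ∀ v q, M.D v q ≤ M'.D v q) {N : ℕ}
    {Cond : Set (V × ℕ) → Set (V × ℕ) → V × ℕ → Prop} (h : Hd M'.inc N Cond) :
    Hd M.inc N (fun X Y e => (∀ x ∈ Y, M'.inc e x) ∧ Cond X Y e) := by
  obtain ⟨Rg, hR, hreg⟩ := h
  refine ⟨Rg, hR, ?_⟩
  rintro X Y e hYX - ⟨hinc', hc⟩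
  obtain ⟨reg, h1, h2, h3⟩ := hreg X Y e hYX hinc' hc
  exact ⟨reg, h1, h2, fun e' he' x hx => (add_le_add (hM e'.1 x.1) le_rfl).trans (h3 e' he' x hx)⟩

end Pool.Agent.BTV
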