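import Pool.Agent.BTV.CDa

/-! BTV CDf: lists, sets, certificates.

`list`: induction on `m`: `ld N 0 = 1` (only the empty list), step: `l = []` (`Dcd.pure`) or
`l = z :: l'`: `Dcd.bind` + `Dcd.map` (or `Dcd.pair` + `Dcd.map`), `Dcd.or`.
`set`: `Dcd.map` of `list` with `l ↦ {z | z ∈ l}`; a finite set with at most `m` elements is the set of
members of a list of length `≤ m`.
`cert_of_dcd`: `H := Fin N`, `T := Fin N`, decoder `(dec h t).getD ∅`.
`dcd_of_cert`: `Cert.normal`; `Rg X reg := ∃ h t, hints in X ∧ reg = dec h t` (then the decoder of `Rg`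
is `some (dec h t)`). -/

set_option autoImplicit false

open Classical

namespace Pool.Agent.BTV

open Pool.Agent.BTD

variable {P Z Z' : Type*} {N N' : ℕ} {R : Set P → Z → Prop}

def ld (N : ℕ) : ℕ → ℕ
  | 0 => 1
  | m + 1 => 1 + bd N (ld N m)

/-- lists of bounded length -/
lemma Dcd.list (h : Dcd N R) (m : ℕ) : Dcd (ld N m) (fun X (l : List Z) => l.length ≤ m ∧ ∀ z ∈ l, R X z) := by
  induction m with
  | zero =>
    refine (Dcd.pure ([] : List Z)).mono le_rfl ?_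
    rintro X l ⟨h1, -⟩
    exact List.length_eq_zero_iff.1 (Nat.le_zero.1 h1)
  | succ m ih =>
    refine ((Dcd.pure ([] : List Z)).or ((h.pair ih).map (fun z => z.1 :: z.2))).mono le_rfl ?_
    rintro X (_ | ⟨z, l⟩) ⟨h1, h2⟩
    · exact Or.inl rfl
    · exact Or.inr ⟨(z, l), ⟨h2 z (by simp), by simpa using h1, fun y hy => h2 y (by simp [hy])⟩, rfl⟩

/-- finite sets of bounded cardinality -/
lemma Dcd.set (h : Dcd N R) (m : ℕ) :
    Dcd (ld N m) (fun X (S : Set Z) => S.Finite ∧ S.ncard ≤ m ∧ ∀ z ∈ S, R X z) := by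
  refine ((h.list m).map (fun l => {z | z ∈ l})).mono le_rfl ?_
  rintro X S ⟨h1, h2, h3⟩
  refine ⟨h1.toFinset.toList, ⟨?_, ?_⟩, ?_⟩
  · rw [Finset.length_toList, ← Set.ncard_eq_toFinset_card S h1]
    exact h2
  · intro z hz
    exact h3 z (by simpa using hz)
  · ext z
    simp

lemma cert_of_dcd {C : Type*} {inc : C → P → Prop} (s : Bool) {Rg : Set P → Set C → Prop}
    (h : Dcd N Rg) (H : ∀ X e, (∀ x ∈ X, (inc e x ↔ s = true)) →
      ∃ reg, Rg X reg ∧ e ∈ reg ∧ ∀ e' ∈ reg, ∀ x ∈ X, (inc e' x ↔ s = true)) :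
    Cert s N inc Set.univ Set.univ := by
  obtain ⟨dec, hd⟩ := h
  refine Cert.ofNormal ⟨fun a t => {e' | ∃ reg, dec a t = some reg ∧ e' ∈ reg}, ?_⟩
  intro X _ e _ hx
  obtain ⟨reg, h1, h2, h3⟩ := H X e hx
  obtain ⟨a, t, h4, h5⟩ := hd X reg h1
  refine ⟨a, t, h4, ⟨reg, h5, h2⟩, ?_⟩
  rintro e' ⟨reg', h6, h7⟩
  rw [h5] at h6
  cases h6
  exact ⟨Set.mem_univ _, h3 e' h7⟩

/-- converse: a certificate gives decodable regions (`s = true`) -/
lemma dcd_of_cert {C : Type*} {inc : C → P → Prop} (h : Cert true N inc Set.univ Set.univ) :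
    ∃ Rg : Set P → Set C → Prop, Dcd N Rg ∧ ∀ X e, (∀ x ∈ X, inc e x) →
      ∃ reg, Rg X reg ∧ e ∈ reg ∧ ∀ e' ∈ reg, ∀ x ∈ X, inc e' x := by
  obtain ⟨dec, hd⟩ := h.normal
  refine ⟨fun X reg => ∃ a t, (∀ i x, a i = some x → x ∈ X) ∧ reg = dec a t,
    ⟨fun a t => some (dec a t), ?_⟩, ?_⟩
  · rintro X reg ⟨a, t, h1, rfl⟩
    exact ⟨a, t, h1, rfl⟩
  · intro X e hX
    obtain ⟨a, t, h1, h2, h3⟩ := hd X (Set.subset_univ _) e (Set.mem_univ _)
      (fun x hx => by simpa using hX x hx)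
    exact ⟨_, ⟨a, t, h1, rfl⟩, h2, fun e' he' x hx => by simpa using (h3 e' he').2 x hx⟩

end Pool.Agent.BTV
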