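import Pool.Agent.BTV.CNe

/-! BTV CNf (helper58): the faces of the embedding scheme of the normal form. -/

set_option autoImplicit false

open Classical

namespace Pool.Agent.BTV

open Pool.Agent.BTD Pool.Agent.H81.Balls

universe u

namespace CNPos

variable {W : Type u} {K : SimpleGraph W} {g k s : ℕ} {C : CNE K g k s} (P : CNPos C)

/-- the face after the society vertex with the index of the position `j` -/
noncomputable def cf (j : Fin P.n) : C.S.Face := C.S.face (dS C.H C.m C.soc (P.d j) (P.p j)) true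

/-- the last index -/
def ls (j : Fin P.n) : Fin (C.m (P.d j)) := ⟨C.m (P.d j) - 1, by have := (P.p j).2; omega⟩

/-- the face after the last society vertex -/
noncomputable def ci (j : Fin P.n) : C.S.Face := C.S.face (dS C.H C.m C.soc (P.d j) (P.ls j)) true

lemma cf_congr {j j' : Fin P.n} (h : P.d j = P.d j') (h' : (P.p j).val = (P.p j').val) : P.cf j = P.cf j' := by
  unfold cf
  rw [dS_congr _ _ h h']

lemma ci_congr {j j' : Fin P.n} (h : P.d j = P.d j') : P.ci j = P.ci j' := by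
  unfold ci
  rw [dS_congr (P.ls j) (P.ls j') h (by simp [ls, h])]

/-- the face of a side -/
noncomputable def Ph : P.E.Ga.Dart → Bool → C.S.Face
  | ⟨(.inl u, .inl v), h⟩, b => C.S.face ⟨(.inl u, .inl v), h⟩ b
  | ⟨(.inl v, .inr j), h⟩, b => (P.T ⟨(.inl v, .inr j), h⟩).elim (P.cf j) (fun e => C.S.face e b)
  | ⟨(.inr j, .inl v), h⟩, b => (P.T ⟨(.inr j, .inl v), h⟩).elim (P.cf j) (fun e => C.S.face e b)
  | ⟨(.inr a, .inr c), _⟩, b => if a < c then (if b then P.ci a else P.cf a) else (if b then P.cf c else P.ci a)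

lemma Ph_some {d : P.E.Ga.Dart} {e : (CG C.H C.m C.soc).Dart} (h : P.T d = some e) (b : Bool) :
    P.Ph d b = C.S.face e b := by
  obtain ⟨⟨x, y⟩, hd⟩ := d
  rcases x with u | j <;> rcases y with v | j'
  · simp only [T, Option.some.injEq] at h
    subst h
    rfl
  · simp only [Ph]
    rw [h]
    rfl
  · simp only [Ph]
    rw [h]
    rfl
  · simp [T] at h

lemma Ph_lr {v : W} {j : Fin P.n} {hd : P.E.Ga.Adj (.inl v) (.inr j)} (h : P.T ⟨(.inl v, .inr j), hd⟩ = none)
    (b : Bool) : P.Ph ⟨(.inl v, .inr j), hd⟩ b = P.cf j := by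
  simp only [Ph]
  rw [h]
  rfl

lemma Ph_rl {v : W} {j : Fin P.n} {hd : P.E.Ga.Adj (.inr j) (.inl v)} (h : P.T ⟨(.inr j, .inl v), hd⟩ = none)
    (b : Bool) : P.Ph ⟨(.inr j, .inl v), hd⟩ b = P.cf j := by
  simp only [Ph]
  rw [h]
  rfl

lemma Ph_up {a c : Fin P.n} {hd : P.E.Ga.Adj (.inr a) (.inr c)} (h : a < c) (b : Bool) :
    P.Ph ⟨(.inr a, .inr c), hd⟩ b = if b then P.ci a else P.cf a := if_pos h

lemma Ph_dn {a c : Fin P.n} {hd : P.E.Ga.Adj (.inr a) (.inr c)} (h : c < a) (b : Bool) :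
    P.Ph ⟨(.inr a, .inr c), hd⟩ b = if b then P.cf c else P.ci a := if_neg (not_lt.2 h.le)

lemma T_dW {j : Fin P.n} (h : P.Sc j) : P.T (P.E.dW j) = some (dS C.H C.m C.soc (P.d j) (P.p j)) := by
  change P.T ⟨(.inr j, .inl (P.w j)), _⟩ = _
  simp only [T]
  rw [dif_pos h]
  refine congrArg some (SimpleGraph.Dart.ext _ _ ?_)
  change ((.inr (P.d j), .inl (P.w j)) : (W ⊕ Fin s) × (W ⊕ Fin s)) = (.inr (P.d j), .inl (C.soc (P.d j) (P.p j)))
  rw [← show P.w j = C.soc (P.d j) (P.p j) from h]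

lemma T_dW' {j : Fin P.n} (h : ¬ P.Sc j) : P.T (P.E.dW j) = none := by
  change P.T ⟨(.inr j, .inl (P.w j)), _⟩ = _
  simp only [T]
  rw [dif_neg h]

lemma Ph_dW_true (j : Fin P.n) : P.Ph (P.E.dW j) true = P.cf j := by
  by_cases h : P.Sc j
  · rw [P.Ph_some (P.T_dW h)]
    rfl
  · exact P.Ph_rl (P.T_dW' h) true

lemma Ph_dW_sc {j : Fin P.n} (h : P.Sc j) :
    P.Ph (P.E.dW j) false = C.S.face (dS C.H C.m C.soc (P.d j) (P.p j)) false := P.Ph_some (P.T_dW h) false

lemma Ph_dW_ns {j : Fin P.n} (h : ¬ P.Sc j) : P.Ph (P.E.dW j) false = P.cf j := P.Ph_rl (P.T_dW' h) false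

lemma nx_none {j : Fin P.n} (h : P.nx j = none) : (P.p j).val + 1 = C.m (P.d j) := by
  apply P.last
  intro a ha hd
  have h1 : j.val + 1 < P.n := by
    have := a.2
    have h2 : j.val < a.val := ha
    omega
  have h2 : P.E.Nx j ⟨j.val + 1, h1⟩ := by
    refine ⟨rfl, ?_⟩
    change (P.d ⟨j.val + 1, h1⟩).val = (P.d j).val
    have h3 := P.d_mono j ⟨j.val + 1, h1⟩ (Fin.le_def.2 (by simp))
    have h4 := P.d_mono ⟨j.val + 1, h1⟩ a (Fin.le_def.2 (by
      have h2 : j.val < a.val := ha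
      simp
      omega))
    rw [hd] at h4
    rw [le_antisymm h4 h3]
  rw [P.nx_iff.2 h2] at h
  cases h

lemma pv_none {j : Fin P.n} (h : P.pv j = none) : P.w j = C.soc (P.d j) (P.p j) ∧ (P.p j).val = 0 := by
  apply P.first
  intro a ha hd
  have h0 : a.val < j.val := ha
  have h1 : j.val - 1 < P.n := by
    have := j.2
    omega
  have h2 : P.E.Nx ⟨j.val - 1, h1⟩ j := by
    refine ⟨?_, ?_⟩
    · simp
      omega
    · change (P.d j).val = (P.d ⟨j.val - 1, h1⟩).val
      have h3 := P.d_mono ⟨j.val - 1, h1⟩ j (Fin.le_def.2 (by simp))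
      have h4 := P.d_mono a ⟨j.val - 1, h1⟩ (Fin.le_def.2 (by
        simp
        omega))
      rw [hd] at h4
      rw [le_antisymm h4 h3]
  rw [P.pv_iff.2 h2] at h
  cases h

lemma d_of_nx {a b : Fin P.n} (h : P.E.Nx a b) : P.d b = P.d a := Fin.ext h.2

lemma lt_of_nx {a b : Fin P.n} (h : P.E.Nx a b) : a < b := by
  have := h.1
  exact Fin.lt_def.2 (by omega)

lemma cf_last {j : Fin P.n} (h : (P.p j).val + 1 = C.m (P.d j)) : P.cf j = P.ci j := by
  unfold cf ci
  rw [dS_congr (P.p j) (P.ls j) rfl (by simp only [ls]; omega)]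

/-- the first position: around the vortex -/
lemma ci_first {j : Fin P.n} (h : P.pv j = none) : P.ci j = P.Ph (P.E.dW j) false := by
  obtain ⟨h1, h2⟩ := P.pv_none h
  rw [P.Ph_dW_sc h1]
  unfold ci
  rw [C.S.face_corner]
  congr 1
  apply C.rot
  right
  refine ⟨?_, h2⟩
  have := (P.p j).2
  simp only [ls]
  omega

lemma cf_prev {j j' : Fin P.n} (h : P.E.Nx j' j) : P.cf j' = P.Ph (P.E.dW j) false := by
  rcases P.next j' j h.1 (P.d_of_nx h) with ⟨h1, h2⟩ | ⟨h1, h2⟩
  · rw [P.Ph_dW_sc h1]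
    have h3 : (P.p j').val < C.m (P.d j) := by
      have := (P.p j).2
      omega
    have e1 : P.cf j' = C.S.face (dS C.H C.m C.soc (P.d j) ⟨(P.p j').val, h3⟩) true := by
      unfold cf
      rw [dS_congr (P.p j') ⟨(P.p j').val, h3⟩ (P.d_of_nx h).symm rfl]
    rw [e1, C.S.face_corner]
    congr 1
    exact C.rot _ _ _ (Or.inl h2)
  · have h3 : ¬ P.Sc j := fun hs => h1 _ _ (show P.w j = _ from hs).symm
    rw [P.Ph_dW_ns h3]
    exact P.cf_congr (P.d_of_nx h).symm h2.symm

variable [Fintype W]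

lemma Ph_corner (d : P.E.Ga.Dart) : P.Ph d true = P.Ph (P.Sch.rot d) false := by
  change P.Ph d true = P.Ph (P.Rf d) false
  obtain ⟨⟨x, y⟩, hd⟩ := d
  rcases x with v | j
  · rw [P.Rf_inl (d := ⟨(.inl v, y), hd⟩) rfl]
    cases hT : P.T ⟨(.inl v, y), hd⟩ with
    | some e =>
      rw [P.Ph_some hT, Option.elim_some, P.Ph_some (P.TB _), C.S.face_corner]
    | none =>
      rw [Option.elim_none]
      rcases y with u | j
      · simp [T] at hT
      · rw [P.Ph_lr hT, P.Ph_lr hT]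
  · rw [P.Rf_inr (d := ⟨(.inr j, y), hd⟩) rfl]
    have hgen : ∀ (z : W ⊕ Fin P.n) (hz : P.E.Ga.Adj (.inr j) z), P.tgt j y = z →
        (⟨(.inr j, P.tgt j y), P.tgt_adj j y⟩ : P.E.Ga.Dart) = ⟨(.inr j, z), hz⟩ := by
      intro z hz e
      subst e
      rfl
    rcases P.nbr hd with rfl | ⟨a, ha, rfl⟩ | ⟨a, ha, rfl⟩
    · change P.Ph (P.E.dW j) true = _
      rw [P.Ph_dW_true]
      cases hn : P.nx j with
      | some b =>
        have hb := P.nx_iff.1 hn
        rw [hgen (.inr b) (Or.inl hb) (by rw [P.tgt_inl, hn]; rfl)]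
        change _ = P.Ph ⟨(.inr j, .inr b), _⟩ false
        rw [P.Ph_up (P.lt_of_nx hb)]
        rfl
      | none =>
        cases hp : P.pv j with
        | some b =>
          have hb := P.pv_iff.1 hp
          rw [hgen (.inr b) (Or.inr hb) (by rw [P.tgt_inl, hn, hp]; rfl)]
          change _ = P.Ph ⟨(.inr j, .inr b), _⟩ false
          rw [P.Ph_dn (P.lt_of_nx hb)]
          exact P.cf_last (P.nx_none hn)
        | none =>
          rw [hgen (.inl (P.w j)) rfl (by rw [P.tgt_inl, hn, hp]; rfl)]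
          change _ = P.Ph (P.E.dW j) false
          rw [← P.ci_first hp]
          exact P.cf_last (P.nx_none hn)
    · have hna := P.nx_iff.1 ha
      change P.Ph ⟨(.inr j, .inr a), _⟩ true = _
      rw [P.Ph_up (P.lt_of_nx hna)]
      cases hp : P.pv j with
      | some b =>
        have hb := P.pv_iff.1 hp
        rw [hgen (.inr b) (Or.inr hb) (by rw [P.tgt_nx ha, hp]; rfl)]
        change _ = P.Ph ⟨(.inr j, .inr b), _⟩ false
        rw [P.Ph_dn (P.lt_of_nx hb)]
        rfl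
      | none =>
        rw [hgen (.inl (P.w j)) rfl (by rw [P.tgt_nx ha, hp]; rfl)]
        exact P.ci_first hp
    · have hna := P.pv_iff.1 ha
      change P.Ph ⟨(.inr j, .inr a), _⟩ true = _
      rw [P.Ph_dn (P.lt_of_nx hna), hgen (.inl (P.w j)) rfl (P.tgt_pv ha)]
      exact P.cf_prev hna

lemma Ph_along (d : P.E.Ga.Dart) (b : Bool) : P.Ph d b = P.Ph d.symm (!(xor b (P.Sch.twist d))) := by
  change _ = P.Ph d.symm (!(xor b ((P.T d).elim false C.S.twist)))
  cases hT : P.T d with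
  | some e =>
    have hT' : P.T d.symm = some e.symm := by rw [P.T_symm, hT]; rfl
    rw [P.Ph_some hT, P.Ph_some hT', Option.elim_some, C.S.face_along]
  | none =>
    have hT' : P.T d.symm = none := by rw [P.T_symm, hT]; rfl
    rw [Option.elim_none, Bool.xor_false]
    obtain ⟨⟨x, y⟩, hd⟩ := d
    rcases x with u | j <;> rcases y with v | j'
    · simp [T] at hT
    · rw [P.Ph_lr hT]
      exact (P.Ph_rl hT' _).symm
    · rw [P.Ph_rl hT]
      exact (P.Ph_lr hT' _).symm
    · change _ = P.Ph ⟨(.inr j', .inr j), _⟩ (!b)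
      rcases (show P.E.Nx j j' ∨ P.E.Nx j' j from hd) with h | h
      · rw [P.Ph_up (P.lt_of_nx h), P.Ph_dn (P.lt_of_nx h)]
        cases b
        · rfl
        · exact P.ci_congr (P.d_of_nx h).symm
      · rw [P.Ph_dn (P.lt_of_nx h), P.Ph_up (P.lt_of_nx h)]
        cases b
        · exact P.ci_congr (P.d_of_nx h)
        · rfl

/-- the map of the faces -/
noncomputable def Pf : P.Sch.Face → C.S.Face :=
  Quot.lift (fun x => P.Ph x.1 x.2) (by
    intro x y h
    cases h with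
    | corner d => exact P.Ph_corner d
    | along d b => exact P.Ph_along d b)

theorem genus_of {psi : W ⊕ Fin P.n → W ⊕ Fin s}
    (h_inr : ∀ j, psi (.inr j) = .inr (P.d j))
    (h_adj : ∀ v c, (CG C.H C.m C.soc).Adj (.inl v) c → psi (.inl v) = .inl v)
    (h_iso : ∀ a y, P.E.Ga.Adj a y → ∃ c, (CG C.H C.m C.soc).Adj (psi a) c)
    (h_reach : ∀ a b, P.E.Ga.Reachable a b ↔ (CG C.H C.m C.soc).Reachable (psi a) (psi b))
    (h_count : ∀ a, {e | e ∈ P.E.Ga.edgeSet ∧ ∀ v ∈ e, P.E.Ga.Reachable a v}.ncard +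
      {v | (CG C.H C.m C.soc).Reachable (psi a) v}.ncard ≤ {v | P.E.Ga.Reachable a v}.ncard +
      {e | e ∈ (CG C.H C.m C.soc).edgeSet ∧ ∀ v ∈ e, (CG C.H C.m C.soc).Reachable (psi a) v}.ncard) :
    P.Sch.EulerGenusLE g := by
  intro a ha
  obtain ⟨y, hy⟩ := ha
  have h1 := C.genus (psi a) (h_iso a y hy)
  have h2 : (C.S.facesOf (psi a)).ncard ≤ (P.Sch.facesOf a).ncard := by
    have h3 : C.S.facesOf (psi a) ⊆ P.Pf '' P.Sch.facesOf a := by
      rintro f ⟨e, b, hr, rfl⟩
      refine ⟨P.Sch.face (P.B e) b, ⟨P.B e, b, ?_, rfl⟩, P.Ph_some (P.TB e) b⟩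
      rw [h_reach]
      have h4 : psi (P.B e).fst = e.fst := by
        obtain ⟨⟨x, z⟩, hd⟩ := e
        rcases x with u | i <;> rcases z with v | i'
        · exact h_adj u (.inl v) hd
        · exact h_adj u (.inr i') hd
        · change psi (.inr _) = _
          rw [h_inr, (P.js_spec _ _).1]
        · exact (show False from hd).elim
      rw [h4]
      exact hr
    have hfin : (P.Sch.facesOf a).Finite := Set.toFinite _
    exact (Set.ncard_le_ncard h3 (hfin.image _)).trans (Set.ncard_image_le hfin)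
  have h3 := h_count a
  omega

lemma bag_js (i : Fin s) (q : Fin (C.m i)) :
    C.bag (P.d (P.js i q)) (P.p (P.js i q)) = C.bag i q := by
  have key : ∀ {i i' : Fin s} (q : Fin (C.m i)) (q' : Fin (C.m i')), i = i' → q.val = q'.val →
      C.bag i q = C.bag i' q' := by
    intro i i' q q' h h'
    subst h
    obtain rfl : q = q' := Fin.ext h'
    rfl
  exact key _ _ (P.js_spec i q).1 (P.js_spec i q).2

lemma fits : P.E.Fits K := by
  intro u v h
  rcases C.edge u v h with h | ⟨i, q, h1, h2⟩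
  · exact Or.inl h
  · refine Or.inr ⟨P.js i q, ?_, ?_⟩
    · change u ∈ C.bag _ _
      rw [P.bag_js]
      exact h1
    · change v ∈ C.bag _ _
      rw [P.bag_js]
      exact h2

end CNPos

end Pool.Agent.BTV
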