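import Pool.Agent.BTV.CNe

/-! BTV CNg (helper42): the components of the normal form and the count of vertices and edges.

`psi` maps the vertices of `Ga` to the vertices of the drawn graph `CG`: planar and society vertices to
themselves, interior vertices of a vortex and the comb vertices to the vertex of the vortex.
`reach_iff`: `a`, `b` are connected in `Ga` iff `psi a`, `psi b` are connected in `CG`.
`count`: `F` = edges of `H` in the component, `J` = positions in the component, `J = Jn + Jf` (with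
and without a previous position in the same vortex), `J = Js + Ji` (society and interior vertices),
`A` = vertices `inl v` of the component of `psi a`, `I` = vortices in it.  `E' ≤ F + J + Jn`,
`V ≤ A + I`, `I ≤ Jf`, `A + Ji + J ≤ V'`, `F + Js ≤ E`. -/

set_option autoImplicit false

open Classical

namespace Pool.Agent.BTV

open Pool.Agent.BTD Pool.Agent.H81.Balls

universe u

variable {W : Type u} {K : SimpleGraph W} {g k s : ℕ} {C : CNE K g k s}

namespace CNPos

variable (P : CNPos C)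

/-- interior vertices of the vortices -/
def Int (v : W) : Prop := (∃ j, P.w j = v) ∧ ∀ i q, C.soc i q ≠ v

/-- the map from the vertices of `Ga` to the vertices of the drawn graph -/
noncomputable def psi : W ⊕ Fin P.n → W ⊕ Fin s
  | .inl v => if h : P.Int v then .inr (P.d h.1.choose) else .inl v
  | .inr j => .inr (P.d j)

variable {P}

lemma psi_inr (j : Fin P.n) : P.psi (.inr j) = .inr (P.d j) := rfl

lemma psi_inl {v : W} (h : ¬ P.Int v) : P.psi (.inl v) = .inl v := dif_neg h

lemma psi_int {j : Fin P.n} (h : P.Int (P.w j)) : P.psi (.inl (P.w j)) = .inr (P.d j) := by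
  have e : P.psi (.inl (P.w j)) = .inr (P.d h.1.choose) := dif_pos h
  rw [e, P.w_inj _ _ h.1.choose_spec]

lemma not_int_soc {i : Fin s} {q : Fin (C.m i)} : ¬ P.Int (C.soc i q) := fun h => h.2 i q rfl

lemma not_int_adj {u v : W} (h : C.H.Adj u v) : ¬ P.Int u := by
  rintro ⟨⟨j, rfl⟩, h2⟩
  obtain ⟨q, hq⟩ := C.H_bag _ _ _ _ (P.mem j) h
  exact h2 _ q hq

lemma w_soc {j : Fin P.n} (h : ¬ P.Int (P.w j)) : P.w j = C.soc (P.d j) (P.p j) := by
  rcases P.soc_or j with h1 | h1
  · exact h1
  · exact absurd ⟨⟨j, rfl⟩, h1⟩ h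

lemma psi_eq_inl {b : W ⊕ Fin P.n} {v : W} (h : P.psi b = .inl v) : b = .inl v ∧ ¬ P.Int v := by
  rcases b with u | j
  · by_cases hu : P.Int u
    · obtain ⟨⟨j, rfl⟩, -⟩ := id hu
      rw [psi_int hu] at h
      exact absurd h (by simp)
    · rw [psi_inl hu] at h
      have e := Sum.inl.inj h
      subst e
      exact ⟨rfl, hu⟩
  · rw [psi_inr] at h
    exact absurd h (by simp)

/-- the comb of a vortex is connected -/
lemma comb_reach : ∀ (m : ℕ) (j j' : Fin P.n), j'.val = j.val + m → P.d j = P.d j' →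
    P.E.Ga.Reachable (.inr j) (.inr j') := by
  intro m
  induction m with
  | zero =>
    intro j j' h _
    have e : j' = j := Fin.ext h
    rw [e]
  | succ m ih =>
    intro j j' h hd
    have hlt : j.val + m < P.n := by
      have := j'.isLt
      omega
    have h1 : j ≤ ⟨j.val + m, hlt⟩ := by
      rw [Fin.le_def]
      exact Nat.le_add_right _ _
    have h2 : (⟨j.val + m, hlt⟩ : Fin P.n) ≤ j' := by
      rw [Fin.le_def, h]
      exact Nat.add_le_add_left (Nat.le_succ m) _
    have e1 := P.d_mono _ _ h1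
    have e2 := P.d_mono _ _ h2
    have e3 : P.d j = P.d ⟨j.val + m, hlt⟩ := le_antisymm e1 (by rw [hd]; exact e2)
    have r1 := ih j ⟨j.val + m, hlt⟩ rfl e3
    have hadj : P.E.Ga.Adj (.inr (⟨j.val + m, hlt⟩ : Fin P.n)) (.inr j') := by
      refine Or.inl ⟨h, ?_⟩
      show (P.d j').val = (P.d ⟨j.val + m, hlt⟩).val
      rw [← e3, hd]
    exact r1.trans hadj.reachable

lemma comb_conn {j j' : Fin P.n} (h : P.d j = P.d j') : P.E.Ga.Reachable (.inr j) (.inr j') := by
  rcases le_total j j' with hle | hle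
  · exact comb_reach (j'.val - j.val) j j' (by rw [Fin.le_def] at hle; omega) h
  · exact (comb_reach (j.val - j'.val) j' j (by rw [Fin.le_def] at hle; omega) h.symm).symm

lemma w_reach (j : Fin P.n) : P.E.Ga.Reachable (.inl (P.w j)) (.inr j) := by
  have h : P.E.Ga.Adj (.inl (P.w j)) (.inr j) := rfl
  exact h.reachable

lemma psi_eq_inr {c : W ⊕ Fin P.n} {i : Fin s} (hc : P.psi c = .inr i) :
    ∃ j, P.d j = i ∧ P.E.Ga.Reachable c (.inr j) := by
  rcases c with u | j
  · by_cases hu : P.Int u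
    · obtain ⟨⟨j, rfl⟩, -⟩ := id hu
      rw [psi_int hu] at hc
      exact ⟨j, Sum.inr.inj hc, w_reach j⟩
    · rw [psi_inl hu] at hc
      exact absurd hc (by simp)
  · exact ⟨j, Sum.inr.inj hc, SimpleGraph.Reachable.refl _⟩

/-- the fibres of `psi` are connected -/
lemma psi_fib {a b : W ⊕ Fin P.n} (h : P.psi a = P.psi b) : P.E.Ga.Reachable a b := by
  rcases hb : P.psi b with v | i
  · rw [hb] at h
    rw [(psi_eq_inl h).1, (psi_eq_inl hb).1]
  · rw [hb] at h
    obtain ⟨j, hj, r1⟩ := psi_eq_inr h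
    obtain ⟨j', hj', r2⟩ := psi_eq_inr hb
    exact (r1.trans (comb_conn (hj.trans hj'.symm))).trans r2.symm

lemma psi_adj {a b : W ⊕ Fin P.n} (h : P.E.Ga.Adj a b) :
    (CG C.H C.m C.soc).Reachable (P.psi a) (P.psi b) := by
  have key : ∀ j : Fin P.n, (CG C.H C.m C.soc).Reachable (P.psi (.inl (P.w j))) (P.psi (.inr j)) := by
    intro j
    by_cases hj : P.Int (P.w j)
    · rw [psi_int hj, psi_inr]
    · rw [psi_inl hj, psi_inr]
      have hadj : (CG C.H C.m C.soc).Adj (.inl (P.w j)) (.inr (P.d j)) := ⟨P.p j, (w_soc hj).symm⟩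
      exact hadj.reachable
  rcases a with u | j <;> rcases b with v | j'
  · have h1 : C.H.Adj u v := h
    rw [psi_inl (not_int_adj h1), psi_inl (not_int_adj h1.symm)]
    have hadj : (CG C.H C.m C.soc).Adj (.inl u) (.inl v) := h1
    exact hadj.reachable
  · have h1 : P.w j' = u := h
    rw [← h1]
    exact key j'
  · have h1 : P.w j = v := h
    rw [← h1]
    exact (key j).symm
  · rw [psi_inr, psi_inr]
    have e : P.d j = P.d j' := by
      rcases h with h1 | h1
      · exact (Fin.ext h1.2).symm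
      · exact Fin.ext h1.2
    rw [e]

lemma psi_lift_adj {a : W ⊕ Fin P.n} {y : W ⊕ Fin s} (h : (CG C.H C.m C.soc).Adj (P.psi a) y) :
    ∃ b, P.psi b = y ∧ P.E.Ga.Reachable a b := by
  rcases ha : P.psi a with u | i
  · rw [ha] at h
    have hu := psi_eq_inl ha
    rcases y with v | i
    · have h1 : C.H.Adj u v := h
      refine ⟨.inl v, psi_inl (not_int_adj h1.symm), ?_⟩
      rw [hu.1]
      have hadj : P.E.Ga.Adj (.inl u) (.inl v) := h1
      exact hadj.reachable
    · obtain ⟨p, hp⟩ : ∃ p, C.soc i p = u := h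
      obtain ⟨j, hj, hd⟩ := P.surj i p _ (C.soc_mem i p)
      refine ⟨.inr j, by rw [psi_inr, hd], ?_⟩
      rw [hu.1, ← hp, ← hj]
      exact w_reach j
  · rw [ha] at h
    rcases y with v | i'
    · obtain ⟨p, hp⟩ : ∃ p, C.soc i p = v := h
      obtain ⟨j, hj, hd⟩ := P.surj i p _ (C.soc_mem i p)
      refine ⟨.inl v, psi_inl (by rw [← hp]; exact not_int_soc), ?_⟩
      have e : P.psi a = P.psi (.inr j) := by rw [ha, psi_inr, hd]
      have h1 : P.E.Ga.Reachable a (.inr j) := psi_fib e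
      rw [← hp, ← hj]
      exact h1.trans (w_reach j).symm
    · exact absurd h (by simp [CG, CGAdj])

lemma psi_lift {a : W ⊕ Fin P.n} {y : W ⊕ Fin s} (h : (CG C.H C.m C.soc).Reachable (P.psi a) y) :
    ∃ b, P.psi b = y ∧ P.E.Ga.Reachable a b := by
  obtain ⟨p⟩ := h
  generalize hx : P.psi a = x at p
  induction p generalizing a with
  | nil => exact ⟨a, hx, SimpleGraph.Reachable.refl _⟩
  | cons hadj p ih =>
    rw [← hx] at hadj
    obtain ⟨b, hb, r1⟩ := psi_lift_adj hadj
    obtain ⟨c, hc, r2⟩ := ih hb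
    exact ⟨c, hc, r1.trans r2⟩

theorem reach_iff (a b : W ⊕ Fin P.n) :
    P.E.Ga.Reachable a b ↔ (CG C.H C.m C.soc).Reachable (P.psi a) (P.psi b) := by
  constructor
  · rintro ⟨p⟩
    induction p with
    | nil => exact SimpleGraph.Reachable.refl _
    | cons hadj p ih => exact (psi_adj hadj).trans ih
  · intro h
    obtain ⟨c, hc, r⟩ := psi_lift h
    exact r.trans (psi_fib hc)

lemma psi_h_adj (v : W) (c : W ⊕ Fin s) (h : (CG C.H C.m C.soc).Adj (.inl v) c) :
    P.psi (.inl v) = .inl v := by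
  rcases c with u | i
  · exact psi_inl (not_int_adj h)
  · obtain ⟨p, hp⟩ : ∃ p, C.soc i p = v := h
    rw [← hp]
    exact psi_inl not_int_soc

lemma psi_h_iso (a y : W ⊕ Fin P.n) (h : P.E.Ga.Adj a y) : ∃ c, (CG C.H C.m C.soc).Adj (P.psi a) c := by
  have key : ∀ j : Fin P.n, (CG C.H C.m C.soc).Adj (.inr (P.d j)) (.inl (C.soc (P.d j) (P.p j))) :=
    fun j => ⟨P.p j, rfl⟩
  rcases a with u | j
  · rcases y with v | j'
    · have h1 : C.H.Adj u v := h
      rw [psi_inl (not_int_adj h1)]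
      exact ⟨.inl v, h1⟩
    · have h1 : P.w j' = u := h
      rw [← h1]
      by_cases hj : P.Int (P.w j')
      · rw [psi_int hj]
        exact ⟨_, key j'⟩
      · rw [psi_inl hj]
        have hadj : (CG C.H C.m C.soc).Adj (.inl (P.w j')) (.inr (P.d j')) :=
          ⟨P.p j', (w_soc hj).symm⟩
        exact ⟨_, hadj⟩
  · exact ⟨_, key j⟩

/-- the count: `E' + V ≤ V' + E` in every component -/
theorem count [Fintype W] (a : W ⊕ Fin P.n) :
    {e : Sym2 (W ⊕ Fin P.n) | e ∈ P.E.Ga.edgeSet ∧ ∀ v ∈ e, P.E.Ga.Reachable a v}.ncard +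
      {y : W ⊕ Fin s | (CG C.H C.m C.soc).Reachable (P.psi a) y}.ncard ≤
    {v : W ⊕ Fin P.n | P.E.Ga.Reachable a v}.ncard +
      {e : Sym2 (W ⊕ Fin s) | e ∈ (CG C.H C.m C.soc).edgeSet ∧
        ∀ v ∈ e, (CG C.H C.m C.soc).Reachable (P.psi a) v}.ncard := by
  set F : Set (Sym2 W) := {f | f ∈ C.H.edgeSet ∧
    ∀ v ∈ f, P.E.Ga.Reachable a (.inl v : W ⊕ Fin P.n)} with hF
  set J : Set (Fin P.n) := {j | P.E.Ga.Reachable a (.inr j : W ⊕ Fin P.n)} with hJ
  set Jn : Set (Fin P.n) := {j | j ∈ J ∧ ∃ i : Fin P.n, P.E.Nx i j} with hJn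
  set Jf : Set (Fin P.n) := {j | j ∈ J ∧ ¬ ∃ i : Fin P.n, P.E.Nx i j} with hJf
  set Ji : Set (Fin P.n) := {j | j ∈ J ∧ P.Int (P.w j)} with hJi
  set Js : Set (Fin P.n) := {j | j ∈ J ∧ ¬ P.Int (P.w j)} with hJs
  set A : Set W := {v | (CG C.H C.m C.soc).Reachable (P.psi a) (.inl v)} with hA
  set I : Set (Fin s) := {i | (CG C.H C.m C.soc).Reachable (P.psi a) (.inr i)} with hI
  -- splitting of the positions
  have c1 : Jn.ncard + Jf.ncard = J.ncard := by
    have hd : Disjoint Jn Jf := by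
      rw [Set.disjoint_left]
      rintro j ⟨_, h1⟩ ⟨_, h2⟩
      exact h2 h1
    rw [← Set.ncard_union_eq hd (Set.toFinite _) (Set.toFinite _)]
    congr 1
    ext j
    constructor
    · rintro (h | h)
      · exact h.1
      · exact h.1
    · intro h
      by_cases h1 : ∃ i : Fin P.n, P.E.Nx i j
      · exact Or.inl ⟨h, h1⟩
      · exact Or.inr ⟨h, h1⟩
  have c2 : Ji.ncard + Js.ncard = J.ncard := by
    have hd : Disjoint Ji Js := by
      rw [Set.disjoint_left]
      rintro j ⟨_, h1⟩ ⟨_, h2⟩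
      exact h2 h1
    rw [← Set.ncard_union_eq hd (Set.toFinite _) (Set.toFinite _)]
    congr 1
    ext j
    constructor
    · rintro (h | h)
      · exact h.1
      · exact h.1
    · intro h
      by_cases h1 : P.Int (P.w j)
      · exact Or.inl ⟨h, h1⟩
      · exact Or.inr ⟨h, h1⟩
  -- edges of the normal form
  have c3 : {e : Sym2 (W ⊕ Fin P.n) | e ∈ P.E.Ga.edgeSet ∧
      ∀ v ∈ e, P.E.Ga.Reachable a v}.ncard ≤ F.ncard + J.ncard + Jn.ncard := by
    set pre : Fin P.n → Fin P.n := fun j =>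
      if h : ∃ i : Fin P.n, P.E.Nx i j then h.choose else j with hpre
    have hprev : ∀ i j : Fin P.n, P.E.Nx i j → pre j = i := by
      intro i j hij
      have h : ∃ i : Fin P.n, P.E.Nx i j := ⟨i, hij⟩
      have e : pre j = h.choose := dif_pos h
      have h1 : j.val = h.choose.val + 1 := h.choose_spec.1
      have h2 : j.val = i.val + 1 := hij.1
      rw [e]
      apply Fin.ext
      omega
    have hsub : {e : Sym2 (W ⊕ Fin P.n) | e ∈ P.E.Ga.edgeSet ∧
        ∀ v ∈ e, P.E.Ga.Reachable a v} ⊆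
        (Sym2.map (Sum.inl : W → W ⊕ Fin P.n) '' F ∪
          (fun j : Fin P.n => s((.inr j : W ⊕ Fin P.n), .inl (P.w j))) '' J) ∪
          (fun j : Fin P.n => s((.inr (pre j) : W ⊕ Fin P.n), .inr j)) '' Jn := by
      intro e
      induction e using Sym2.ind with
      | _ x y =>
        rintro ⟨he, hr⟩
        have hadj : P.E.Ga.Adj x y := he
        have hx := hr x (Sym2.mem_mk_left x y)
        have hy := hr y (Sym2.mem_mk_right x y)
        rcases x with u | j <;> rcases y with v | j'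
        · refine Or.inl (Or.inl ⟨s(u, v), ⟨hadj, ?_⟩, rfl⟩)
          intro z hz
          rcases Sym2.mem_iff.1 hz with rfl | rfl
          · exact hx
          · exact hy
        · have h1 : P.w j' = u := hadj
          refine Or.inl (Or.inr ⟨j', hy, ?_⟩)
          simp only [h1]
          exact Sym2.eq_swap
        · have h1 : P.w j = v := hadj
          refine Or.inl (Or.inr ⟨j, hx, ?_⟩)
          simp only [h1]
        · rcases hadj with h1 | h1
          · refine Or.inr ⟨j', ⟨hy, j, h1⟩, ?_⟩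
            simp only [hprev j j' h1]
          · refine Or.inr ⟨j, ⟨hx, j', h1⟩, ?_⟩
            simp only [hprev j' j h1]
            exact Sym2.eq_swap
    have h1 := Set.ncard_le_ncard hsub (Set.toFinite _)
    have h2 := Set.ncard_union_le (Sym2.map (Sum.inl : W → W ⊕ Fin P.n) '' F ∪
          (fun j : Fin P.n => s((.inr j : W ⊕ Fin P.n), .inl (P.w j))) '' J)
          ((fun j : Fin P.n => s((.inr (pre j) : W ⊕ Fin P.n), .inr j)) '' Jn)
    have h3 := Set.ncard_union_le (Sym2.map (Sum.inl : W → W ⊕ Fin P.n) '' F)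
          ((fun j : Fin P.n => s((.inr j : W ⊕ Fin P.n), .inl (P.w j))) '' J)
    have h4 := Set.ncard_image_le (f := Sym2.map (Sum.inl : W → W ⊕ Fin P.n)) (Set.toFinite F)
    have h5 := Set.ncard_image_le (f := fun j : Fin P.n =>
      s((.inr j : W ⊕ Fin P.n), .inl (P.w j))) (Set.toFinite J)
    have h6 := Set.ncard_image_le (f := fun j : Fin P.n =>
      s((.inr (pre j) : W ⊕ Fin P.n), .inr j)) (Set.toFinite Jn)
    omega
  -- vertices of the drawn graph
  have c4 : {y : W ⊕ Fin s | (CG C.H C.m C.soc).Reachable (P.psi a) y}.ncard ≤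
      A.ncard + I.ncard := by
    have hsub : {y : W ⊕ Fin s | (CG C.H C.m C.soc).Reachable (P.psi a) y} ⊆
        (Sum.inl : W → W ⊕ Fin s) '' A ∪ (Sum.inr : Fin s → W ⊕ Fin s) '' I := by
      rintro (v | i) h
      · exact Or.inl ⟨v, h, rfl⟩
      · exact Or.inr ⟨i, h, rfl⟩
    have h1 := Set.ncard_le_ncard hsub (Set.toFinite _)
    have h2 := Set.ncard_union_le ((Sum.inl : W → W ⊕ Fin s) '' A) ((Sum.inr : Fin s → W ⊕ Fin s) '' I)
    have h3 := Set.ncard_image_le (f := (Sum.inl : W → W ⊕ Fin s)) (Set.toFinite A)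
    have h4 := Set.ncard_image_le (f := (Sum.inr : Fin s → W ⊕ Fin s)) (Set.toFinite I)
    omega
  have c5 : I.ncard ≤ Jf.ncard := by
    have hsub : I ⊆ P.d '' Jf := by
      intro i hi
      obtain ⟨b, hb, hab⟩ := psi_lift hi
      obtain ⟨j, hj, hbj⟩ := psi_eq_inr hb
      obtain ⟨j0, hj0, hmin⟩ := Finset.exists_min_image (Finset.univ.filter (fun l => P.d l = i)) id
        ⟨j, Finset.mem_filter.2 ⟨Finset.mem_univ _, hj⟩⟩
      have hd0 : P.d j0 = i := (Finset.mem_filter.1 hj0).2
      refine ⟨j0, ⟨(hab.trans hbj).trans (comb_conn (hj.trans hd0.symm)), ?_⟩, hd0⟩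
      rintro ⟨l, hl1, hl2⟩
      have hdl : P.d l = i := by
        rw [← hd0]
        exact (Fin.ext hl2).symm
      have h1 := hmin l (Finset.mem_filter.2 ⟨Finset.mem_univ _, hdl⟩)
      have h2 : j0.val ≤ l.val := h1
      omega
    exact (Set.ncard_le_ncard hsub (Set.toFinite _)).trans (Set.ncard_image_le (Set.toFinite _))
  -- vertices of the normal form
  have hAr : ∀ v ∈ A, P.E.Ga.Reachable a (.inl v : W ⊕ Fin P.n) ∧ ¬ P.Int v := by
    intro v hv
    obtain ⟨b, hb, hab⟩ := psi_lift hv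
    obtain ⟨e, h1⟩ := psi_eq_inl hb
    rw [e] at hab
    exact ⟨hab, h1⟩
  have c6 : A.ncard + Ji.ncard + J.ncard ≤ {v : W ⊕ Fin P.n | P.E.Ga.Reachable a v}.ncard := by
    have d1 : Disjoint A (P.w '' Ji) := by
      rw [Set.disjoint_left]
      rintro v hv ⟨j, hj, rfl⟩
      exact (hAr _ hv).2 hj.2
    have d2 : Disjoint ((Sum.inl : W → W ⊕ Fin P.n) '' (A ∪ P.w '' Ji))
        ((Sum.inr : Fin P.n → W ⊕ Fin P.n) '' J) := by
      rw [Set.disjoint_left]
      rintro _ ⟨v, _, rfl⟩ ⟨j, _, h⟩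
      exact absurd h (by simp)
    have hsub : (Sum.inl : W → W ⊕ Fin P.n) '' (A ∪ P.w '' Ji) ∪
        (Sum.inr : Fin P.n → W ⊕ Fin P.n) '' J ⊆ {v : W ⊕ Fin P.n | P.E.Ga.Reachable a v} := by
      rintro _ (⟨v, hv | ⟨j, hj, rfl⟩, rfl⟩ | ⟨j, hj, rfl⟩)
      · exact (hAr v hv).1
      · exact hj.1.trans (w_reach j).symm
      · exact hj
    have h1 := Set.ncard_le_ncard hsub (Set.toFinite _)
    rw [Set.ncard_union_eq d2 (Set.toFinite _) (Set.toFinite _),
      Set.ncard_image_of_injective _ Sum.inl_injective,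
      Set.ncard_image_of_injective _ Sum.inr_injective,
      Set.ncard_union_eq d1 (Set.toFinite _) (Set.toFinite _),
      Set.ncard_image_of_injective Ji (fun i j hij => P.w_inj i j hij)] at h1
    exact h1
  -- edges of the drawn graph
  have c7 : F.ncard + Js.ncard ≤ {e : Sym2 (W ⊕ Fin s) | e ∈ (CG C.H C.m C.soc).edgeSet ∧
        ∀ v ∈ e, (CG C.H C.m C.soc).Reachable (P.psi a) v}.ncard := by
    set sp : Fin P.n → Sym2 (W ⊕ Fin s) := fun j => s(.inr (P.d j), .inl (P.w j)) with hsp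
    have hinj : Function.Injective sp := by
      intro j j' h
      rcases Sym2.eq_iff.1 h with ⟨_, h2⟩ | ⟨h1, _⟩
      · exact P.w_inj _ _ (Sum.inl.inj h2)
      · exact absurd h1 (by simp)
    have d1 : Disjoint (Sym2.map (Sum.inl : W → W ⊕ Fin s) '' F) (sp '' Js) := by
      rw [Set.disjoint_left]
      rintro _ ⟨f, _, rfl⟩ ⟨j, _, h⟩
      have hm : (.inr (P.d j) : W ⊕ Fin s) ∈ Sym2.map (Sum.inl : W → W ⊕ Fin s) f := by
        rw [← h]
        exact Sym2.mem_mk_left _ _
      rw [Sym2.mem_map] at hm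
      obtain ⟨v, _, hv⟩ := hm
      exact absurd hv (by simp)
    have hsub : Sym2.map (Sum.inl : W → W ⊕ Fin s) '' F ∪ sp '' Js ⊆
        {e : Sym2 (W ⊕ Fin s) | e ∈ (CG C.H C.m C.soc).edgeSet ∧
        ∀ v ∈ e, (CG C.H C.m C.soc).Reachable (P.psi a) v} := by
      rintro _ (⟨f, hf, rfl⟩ | ⟨j, hj, rfl⟩)
      · induction f using Sym2.ind with
        | _ u v =>
          obtain ⟨h1, h2⟩ := hf
          have hadj : C.H.Adj u v := h1
          have ru := (reach_iff a (.inl u)).1 (h2 u (Sym2.mem_mk_left u v))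
          have rv := (reach_iff a (.inl v)).1 (h2 v (Sym2.mem_mk_right u v))
          rw [psi_inl (not_int_adj hadj)] at ru
          rw [psi_inl (not_int_adj hadj.symm)] at rv
          refine ⟨hadj, ?_⟩
          intro z hz
          rcases Sym2.mem_iff.1 hz with rfl | rfl
          · exact ru
          · exact rv
      · have r1 := (reach_iff a (.inr j)).1 hj.1
        rw [psi_inr] at r1
        have hadj : (CG C.H C.m C.soc).Adj (.inr (P.d j)) (.inl (P.w j)) :=
          ⟨P.p j, (w_soc hj.2).symm⟩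
        refine ⟨hadj, ?_⟩
        intro z hz
        rcases Sym2.mem_iff.1 hz with rfl | rfl
        · exact r1
        · exact r1.trans hadj.reachable
    have h1 := Set.ncard_le_ncard hsub (Set.toFinite _)
    rw [Set.ncard_union_eq d1 (Set.toFinite _) (Set.toFinite _),
      Set.ncard_image_of_injective _ (Sym2.map.injective Sum.inl_injective),
      Set.ncard_image_of_injective _ hinj] at h1
    exact h1
  omega

end CNPos

end Pool.Agent.BTV
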