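import Pool.Agent.BTV.CNa
import Pool.Agent.BTV.CNf
import Pool.Agent.BTV.CNg

/-! BTV CN: near embeddings in the classical form, and the conversion into the normal form.

`CNE K g k s`: the graph `K` is nearly embedded: `H` (the drawn part `G_0`), vortices `i < s` with
society `soc i 0, …, soc i (m i - 1)` and a path decomposition with bags `bag i p`, `p < m i`; the
auxiliary graph `CG` = `H` plus one vertex `ω_i` (`Sum.inr i`) in the disc of every vortex, joined to its
society, has an embedding of Euler genus `≤ g` with the society in this order around `ω_i`.

THEOREM `cne_normal`: there is a near embedding in the normal form `NE` (all vortex vertices are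
society vertices, comb instead of `ω_i`) with the same bounds.

PROOF.  Positions of the normal form: for every `i` (in order) and every `p < m i` (in order): first
`soc i p`, then the interior vertices `z` of the vortex `i` (elements of bags outside `range (soc i)`)
whose first bag is `p`, in any order; all these positions `j` get the bag `X j := bag i p`, `disc j := i`.
`w` is injective (societies are disjoint and injective, interior vertices belong to one vortex and
have one first bag); the interval property is inherited.  `H` is unchanged; interior vertices are
isolated in `H` (`H_bag`).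
Embedding scheme of `Ga` from `S` on `CG`: twist of `H`-darts and of old spokes as in `S`, all other
edges untwisted.  Rotation: at `inl v`: as in `S` (the spoke of `v` replaced by its comb spoke), at an
interior vertex the single dart; at the comb vertex `inr j`: previous → spoke → next → previous.
Faces: let `c(j)` be the face of `S` at the left side of the spoke dart `(ω_i, soc i p)`, `p` the bag
index of the position `j`; `c_∞(i)` the left side of `(ω_i, soc i (m i - 1))`.  The map from the sides of
`Ga`-darts to the faces of `S`: `H`-darts and old spokes: themselves; comb dart `j → j+1` right side and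
`j+1 → j` left side: `c(j)`; comb dart `j → j+1` left side and `j+1 → j` right side: `c_∞(i)`; both sides
of new spokes (both directions) at `j`: `c(j)`.  It respects `SideRel`, and it is injective on faces:
sides of `S` related by a corner at `ω_i` are connected in `Ga`:
`(W_p, true) ~ … ~ (W_{p+1}, false)` through the comb darts and new spokes between, and
`(W_last, true) ~ … ~ (W_0, false)` around the back side of the comb.  So the number of faces in a
component does not change.  Vertices: `ω_i` is replaced by `n_i` comb vertices and the `n_i - m i` new
interior vertices join the component; edges: `n_i - m i` new spokes and `n_i - 1` comb edges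
(`n_i ≥ 1`).  So `V - E` does not change.  (`m i = 0`: no positions; `ω_i` isolated.) -/

set_option autoImplicit false

open Classical

namespace Pool.Agent.BTV

open Pool.Agent.BTD Pool.Agent.H81.Balls

universe u

lemma CNPos.psi_of_adj {W : Type u} {K : SimpleGraph W} {g k s : ℕ} {C : CNE K g k s} (P : CNPos C) (v : W)
    (c : W ⊕ Fin s) (h : (CG C.H C.m C.soc).Adj (.inl v) c) : P.psi (.inl v) = .inl v := by
  apply CNPos.psi_inl
  rcases c with u | i
  · exact CNPos.not_int_adj (P := P) (show C.H.Adj v u from h)
  · obtain ⟨q, hq⟩ := (show ∃ q, C.soc i q = v from h)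
    rw [← hq]
    exact CNPos.not_int_soc

lemma CNPos.psi_iso {W : Type u} {K : SimpleGraph W} {g k s : ℕ} {C : CNE K g k s} (P : CNPos C)
    (a y : W ⊕ Fin P.n) (h : P.E.Ga.Adj a y) : ∃ c, (CG C.H C.m C.soc).Adj (P.psi a) c := by
  cases ha : P.psi a with
  | inl v =>
    obtain ⟨rfl, hv⟩ := CNPos.psi_eq_inl ha
    rcases y with u | j
    · exact ⟨.inl u, h⟩
    · have hw : P.w j = v := h
      refine ⟨.inr (P.d j), P.p j, ?_⟩
      rw [← hw] at hv ⊢
      exact (CNPos.w_soc hv).symm
  | inr i =>
    obtain ⟨j, rfl, -⟩ := CNPos.psi_eq_inr ha
    exact ⟨.inl (C.soc (P.d j) (P.p j)), P.p j, rfl⟩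

theorem cne_normal {W : Type u} [Fintype W] {K : SimpleGraph W} {g k s : ℕ} (C : CNE K g k s) :
    ∃ (E : NE W) (_ : E.Emb g), E.Fits K ∧ (∀ p, (E.X p).ncard ≤ k) ∧ ∀ p, E.disc p < s := by
  obtain ⟨P⟩ := exists_cnpos C
  exact ⟨P.E, ⟨P.Sch, P.genus_of CNPos.psi_inr P.psi_of_adj P.psi_iso CNPos.reach_iff CNPos.count, P.sch_rotW,
    P.sch_rotL, P.sch_flat⟩, P.fits, fun p => C.bag_card _ _, fun p => (P.d p).2⟩

end Pool.Agent.BTV
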