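import Pool.Agent.BTV.CNd

/-! BTV CNa: the positions of the normal form exist.

PROOF.  Vortex vertices: `v` with `v ∈ bag i q` for some `i`, `q`; `i` is unique (`bag_disj`).  Index of
`v`: `q` if `v = soc i q` (unique by `soc_inj`), otherwise some `q` with `v ∈ bag i q`.  Key of `v`:
`(i, index, t)` in `ℕ ×ₗ ℕ ×ₗ ℕ` with `t = 0` for society vertices and `t = 1 + rank of v` (any injection of
`W` into `ℕ`) otherwise; the key is injective on vortex vertices.  `n` = number of vortex vertices, the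
positions = the order isomorphism of `Fin n` with the vortex vertices, ordered by the key. -/

set_option autoImplicit false

open Classical

namespace Pool.Agent.BTV

open Pool.Agent.BTD Pool.Agent.H81.Balls

universe u

section CNa

variable {W : Type u} {K : SimpleGraph W} {g k s : ℕ} (C : CNE K g k s)

lemma CNa_soc_eq {i j : Fin s} {p : Fin (C.m i)} {q : Fin (C.m j)} (h : i = j)
    (h' : p.val = q.val) : C.soc i p = C.soc j q := by
  subst h
  rw [Fin.ext h']

/-- the vortex vertices -/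
abbrev CNaT : Type u := {v : W // ∃ i q, v ∈ C.bag i q}

lemma CNa_data [Fintype W] (t : CNaT C) : ∃ (i : Fin s) (q : Fin (C.m i)) (z : ℕ),
    t.1 ∈ C.bag i q ∧ ((t.1 = C.soc i q ∧ z = 0) ∨
      ((∀ i' q', C.soc i' q' ≠ t.1) ∧ z = (Fintype.equivFin W t.1).val + 1)) := by
  by_cases h : ∃ i q, C.soc i q = t.1
  · obtain ⟨i, q, hq⟩ := h
    exact ⟨i, q, 0, hq ▸ C.soc_mem i q, Or.inl ⟨hq.symm, rfl⟩⟩
  · obtain ⟨i, q, hq⟩ := t.2
    exact ⟨i, q, _, hq, Or.inr ⟨fun i' q' h' => h ⟨i', q', h'⟩, rfl⟩⟩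

end CNa

theorem exists_cnpos {W : Type u} [Fintype W] {K : SimpleGraph W} {g k s : ℕ} (C : CNE K g k s) :
    Nonempty (CNPos C) := by
  choose vi vq vt hmem hor using CNa_data C
  have hsoc : ∀ t : CNaT C, ∀ i q, C.soc i q = t.1 →
      vi t = i ∧ (vq t).val = q.val ∧ vt t = 0 ∧ t.1 = C.soc (vi t) (vq t) := by
    intro t i q h
    rcases hor t with h1 | h1
    · have h2 := C.soc_inj _ _ _ _ (h.trans h1.1)
      exact ⟨h2.1.symm, h2.2.symm, h1.2, h1.1⟩
    · exact absurd h (h1.1 i q)
  have hvi : ∀ t : CNaT C, ∀ i q, t.1 ∈ C.bag i q → vi t = i := fun t i q h =>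
    C.bag_disj _ _ _ _ _ (hmem t) h
  obtain ⟨key, hkey⟩ : ∃ key : CNaT C → ℕ ×ₗ ℕ ×ₗ ℕ, ∀ t,
      key t = toLex ((vi t).val, toLex ((vq t).val, vt t)) := ⟨_, fun _ => rfl⟩
  have hle : ∀ a b, key a ≤ key b ↔ (vi a).val < (vi b).val ∨ ((vi a).val = (vi b).val ∧
      ((vq a).val < (vq b).val ∨ ((vq a).val = (vq b).val ∧ vt a ≤ vt b))) := by
    intro a b
    rw [hkey, hkey, Prod.Lex.toLex_le_toLex]
    simp only [Prod.Lex.toLex_le_toLex]
  have hlt : ∀ a b, key a < key b ↔ (vi a).val < (vi b).val ∨ ((vi a).val = (vi b).val ∧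
      ((vq a).val < (vq b).val ∨ ((vq a).val = (vq b).val ∧ vt a < vt b))) := by
    intro a b
    rw [hkey, hkey, Prod.Lex.toLex_lt_toLex]
    simp only [Prod.Lex.toLex_lt_toLex]
  have hinj : Function.Injective key := by
    intro a b h
    have h1 := (hle a b).1 h.le
    have h2 := (hle b a).1 h.ge
    have e1 : (vi a).val = (vi b).val := by omega
    have e2 : (vq a).val = (vq b).val := by omega
    have e3 : vt a = vt b := by omega
    apply Subtype.ext
    rcases hor a with h3 | h3 <;> rcases hor b with h4 | h4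
    · rw [h3.1, h4.1]
      exact CNa_soc_eq C (Fin.ext e1) e2
    · omega
    · omega
    · have h5 : (Fintype.equivFin W a.1).val = (Fintype.equivFin W b.1).val := by omega
      exact (Fintype.equivFin W).injective (Fin.ext h5)
  let instL : LinearOrder (CNaT C) := LinearOrder.lift' key hinj
  have : Finite (CNaT C) := Subtype.finite
  let _ : Fintype (CNaT C) := Fintype.ofFinite _
  have hT : ∀ a b : CNaT C, a ≤ b ↔ key a ≤ key b := fun a b => Iff.rfl
  have hT' : ∀ a b : CNaT C, a < b ↔ key a < key b := fun a b => Iff.rfl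
  obtain ⟨n, o, -⟩ : ∃ (n : ℕ) (o : Fin n ≃o CNaT C), True :=
    ⟨_, Fintype.orderIsoFinOfCardEq (CNaT C) rfl, trivial⟩
  have hd_mono : ∀ a b, a ≤ b → vi (o a) ≤ vi (o b) := by
    intro a b hab
    have h1 := (hle _ _).1 ((hT _ _).1 (o.monotone hab))
    rw [Fin.le_def]
    omega
  have hp_mono : ∀ a b, a ≤ b → vi (o a) = vi (o b) → (vq (o a)).val ≤ (vq (o b)).val := by
    intro a b hab hd
    have h1 := (hle _ _).1 ((hT _ _).1 (o.monotone hab))
    have h2 : (vi (o a)).val = (vi (o b)).val := by rw [hd]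
    omega
  -- the position of a society vertex
  have hpos : ∀ i (q : Fin (C.m i)), ∃ j, vi (o j) = i ∧ (vq (o j)).val = q.val ∧ vt (o j) = 0 ∧
      (o j).1 = C.soc (vi (o j)) (vq (o j)) := by
    intro i q
    obtain ⟨t, ht⟩ : ∃ t : CNaT C, C.soc i q = t.1 := ⟨⟨_, i, q, C.soc_mem i q⟩, rfl⟩
    refine ⟨o.symm t, ?_⟩
    rw [o.apply_symm_apply]
    exact hsoc t i q ht
  refine ⟨{ n := n, w := fun j => (o j).1, d := fun j => vi (o j), p := fun j => vq (o j),
            w_inj := ?_, d_mono := hd_mono, p_mono := hp_mono, mem := fun j => hmem (o j),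
            soc_or := ?_, surj := ?_, first := ?_, last := ?_, next := ?_ }⟩
  · intro a b h
    exact o.injective (Subtype.ext h)
  · intro j
    rcases hor (o j) with h | h
    · exact Or.inl h.1
    · exact Or.inr h.1
  · intro i q v hv
    refine ⟨o.symm ⟨v, i, q, hv⟩, ?_, ?_⟩
    · simp only [o.apply_symm_apply]
    · simp only [o.apply_symm_apply]
      exact hvi _ i q hv
  · intro j hj
    have hm : 0 < C.m (vi (o j)) := Nat.lt_of_le_of_lt (Nat.zero_le _) (vq (o j)).isLt
    obtain ⟨j0, h1, h2, h3, h4⟩ := hpos (vi (o j)) ⟨0, hm⟩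
    simp only at h2
    have h5 : j0 ≤ j := by
      rw [← o.le_iff_le, hT, hle]
      have : (vi (o j0)).val = (vi (o j)).val := by rw [h1]
      omega
    rcases h5.lt_or_eq with h6 | h6
    · exact absurd h1 (hj j0 h6)
    · subst h6
      exact ⟨h4, h2⟩
  · intro j hj
    have hm : C.m (vi (o j)) - 1 < C.m (vi (o j)) := by
      have := (vq (o j)).isLt
      omega
    obtain ⟨j1, h1, h2, -, -⟩ := hpos (vi (o j)) ⟨C.m (vi (o j)) - 1, hm⟩
    simp only at h2
    have h5 : j1 ≤ j := by
      by_contra h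
      exact hj j1 (not_le.1 h) h1
    have h6 := hp_mono j1 j h5 h1
    have := (vq (o j)).isLt
    show (vq (o j)).val + 1 = C.m (vi (o j))
    omega
  · intro j j' hjj hd
    change vi (o j') = vi (o j) at hd
    have hlt' : j < j' := by
      rw [Fin.lt_def]
      omega
    have h1 := (hlt _ _).1 ((hT' _ _).1 (o.strictMono hlt'))
    have h2 : (vi (o j)).val = (vi (o j')).val := by rw [hd]
    have h3 : (vq (o j)).val < (vq (o j')).val ∨
        ((vq (o j)).val = (vq (o j')).val ∧ vt (o j) < vt (o j')) := by omega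
    rcases h3 with h3 | h3
    · left
      have hm : (vq (o j)).val + 1 < C.m (vi (o j')) := by
        have := (vq (o j')).isLt
        omega
      obtain ⟨j2, h4, h5, h6, h7⟩ := hpos (vi (o j')) ⟨_, hm⟩
      simp only at h5
      have e2 : (vi (o j2)).val = (vi (o j')).val := by rw [h4]
      have h8 : j2 ≤ j' := by
        rw [← o.le_iff_le, hT, hle]
        omega
      have h9 : j < j2 := by
        rw [← o.lt_iff_lt, hT', hlt]
        omega
      have h10 : j2 = j' := by
        rw [Fin.le_def] at h8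
        rw [Fin.lt_def] at h9
        exact Fin.ext (by omega)
      subst h10
      exact ⟨h7, h5⟩
    · right
      rcases hor (o j') with h4 | h4
      · omega
      · exact ⟨h4.1, h3.1.symm⟩

end Pool.Agent.BTV
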