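import Pool.Agent.BTV.Defs

/-! BTV CNd (helper58): classical near embeddings (definitions moved from CN) and the list of the
positions of the normal form (interface between CNa and CNe). -/

set_option autoImplicit false

open Classical

namespace Pool.Agent.BTV

open Pool.Agent.BTD Pool.Agent.H81.Balls

universe u

/-- adjacency of the drawn graph with one vertex for every vortex -/
def CGAdj {W : Type u} (H : SimpleGraph W) {s : ℕ} (m : Fin s → ℕ) (soc : ∀ i, Fin (m i) → W) :
    W ⊕ Fin s → W ⊕ Fin s → Prop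
  | .inl a, .inl b => H.Adj a b
  | .inl a, .inr i => ∃ p, soc i p = a
  | .inr i, .inl a => ∃ p, soc i p = a
  | .inr _, .inr _ => False

/-- the drawn graph with one vertex in the disc of every vortex, joined to its society -/
def CG {W : Type u} (H : SimpleGraph W) {s : ℕ} (m : Fin s → ℕ) (soc : ∀ i, Fin (m i) → W) :
    SimpleGraph (W ⊕ Fin s) where
  Adj := CGAdj H m soc
  symm := ⟨by
    rintro (a | i) (b | j) h
    · exact SimpleGraph.Adj.symm h
    · exact h
    · exact h
    · exact h⟩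
  loopless := ⟨by
    rintro (a | i) h
    · exact H.loopless.irrefl a h
    · exact h⟩

/-- the dart from the vertex of the vortex `i` to the society vertex `soc i p` -/
def dS {W : Type u} (H : SimpleGraph W) {s : ℕ} (m : Fin s → ℕ) (soc : ∀ i, Fin (m i) → W)
    (i : Fin s) (p : Fin (m i)) : (CG H m soc).Dart := ⟨(.inr i, .inl (soc i p)), ⟨p, rfl⟩⟩

/-- A near embedding (classical form) of the graph `K`, without apices: Euler genus `≤ g`, `s`
vortices of depth `≤ k`. -/
structure CNE {W : Type u} (K : SimpleGraph W) (g k s : ℕ) where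
  H : SimpleGraph W
  m : Fin s → ℕ
  soc : ∀ i, Fin (m i) → W
  bag : ∀ i, Fin (m i) → Set W
  soc_inj : ∀ i j p q, soc i p = soc j q → i = j ∧ p.val = q.val
  soc_mem : ∀ i p, soc i p ∈ bag i p
  bag_int : ∀ i (p q r : Fin (m i)), p ≤ q → q ≤ r → bag i p ∩ bag i r ⊆ bag i q
  bag_card : ∀ i p, (bag i p).ncard ≤ k
  bag_disj : ∀ i j p q v, v ∈ bag i p → v ∈ bag j q → i = j
  H_bag : ∀ i p u v, u ∈ bag i p → H.Adj u v → ∃ q, soc i q = u
  edge : ∀ u v, K.Adj u v → H.Adj u v ∨ ∃ i p, u ∈ bag i p ∧ v ∈ bag i p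
  S : EmbeddingScheme (CG H m soc)
  genus : S.EulerGenusLE g
  rot : ∀ i (p q : Fin (m i)), (q.val = p.val + 1 ∨ (p.val + 1 = m i ∧ q.val = 0)) →
    S.rot (dS H m soc i p) = dS H m soc i q

/-- The positions of the normal form: position `j` belongs to the vortex `d j` and gets the bag with
the index `p j`; `w j` is either the society vertex of this bag or not a society vertex. -/
structure CNPos {W : Type u} {K : SimpleGraph W} {g k s : ℕ} (C : CNE K g k s) where
  n : ℕ
  w : Fin n → W
  d : Fin n → Fin s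
  p : ∀ j, Fin (C.m (d j))
  w_inj : ∀ a b, w a = w b → a = b
  d_mono : ∀ a b, a ≤ b → d a ≤ d b
  p_mono : ∀ a b, a ≤ b → d a = d b → (p a).val ≤ (p b).val
  mem : ∀ j, w j ∈ C.bag (d j) (p j)
  soc_or : ∀ j, w j = C.soc (d j) (p j) ∨ ∀ i q, C.soc i q ≠ w j
  surj : ∀ i q v, v ∈ C.bag i q → ∃ j, w j = v ∧ d j = i
  first : ∀ j, (∀ a, a < j → d a ≠ d j) → w j = C.soc (d j) (p j) ∧ (p j).val = 0
  last : ∀ j, (∀ a, j < a → d a ≠ d j) → (p j).val + 1 = C.m (d j)
  next : ∀ j j', j'.val = j.val + 1 → d j' = d j →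
    (w j' = C.soc (d j') (p j') ∧ (p j').val = (p j).val + 1) ∨
      ((∀ i q, C.soc i q ≠ w j') ∧ (p j').val = (p j).val)

end Pool.Agent.BTV
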