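import Pool.Agent.BTV.CNd

/-! BTV CNe (helper58): the normal form and its embedding scheme, from the positions. -/

set_option autoImplicit false

open Classical

namespace Pool.Agent.BTV

open Pool.Agent.BTD Pool.Agent.H81.Balls

universe u

namespace CNPos

variable {W : Type u} {K : SimpleGraph W} {g k s : ℕ} {C : CNE K g k s} (P : CNPos C)

/-- the position `j` belongs to a society vertex -/
def Sc (j : Fin P.n) : Prop := P.w j = C.soc (P.d j) (P.p j)

lemma bag_int' {i1 i2 i3 : Fin s} (e1 : i1 = i2) (e2 : i2 = i3) (a : Fin (C.m i1)) (b : Fin (C.m i2))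
    (c : Fin (C.m i3)) (h1 : a.val ≤ b.val) (h2 : b.val ≤ c.val) {v : W} (hv : v ∈ C.bag i1 a)
    (hv' : v ∈ C.bag i3 c) : v ∈ C.bag i2 b := by
  subst e1
  subst e2
  exact C.bag_int _ a b c h1 h2 ⟨hv, hv'⟩

/-- the near embedding in the normal form -/
def E : NE W where
  H := C.H
  n := P.n
  w := P.w
  X := fun j => C.bag (P.d j) (P.p j)
  disc := fun j => (P.d j).val
  w_inj := P.w_inj
  disc_mono := fun p q h => P.d_mono p q h
  w_mem := P.mem
  X_sub := by
    intro j v hv
    obtain ⟨q, h1, h2⟩ := P.surj _ _ v hv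
    exact ⟨q, h1, by rw [h2]⟩
  X_int := by
    intro a b c hab hbc v ha hc
    have h1 : P.d a = P.d c := C.bag_disj _ _ _ _ v ha hc
    have h2 := P.d_mono a b hab
    have h3 := P.d_mono b c hbc
    have h4 : P.d a = P.d b := le_antisymm h2 (by rw [h1]; exact h3)
    have h5 : P.d b = P.d c := h4.symm.trans h1
    exact bag_int' h4 h5 _ _ _ (P.p_mono a b hab h4) (P.p_mono b c hbc h5) ha hc

lemma exists_js (i : Fin s) (q : Fin (C.m i)) : ∃ j, P.w j = C.soc i q := by
  obtain ⟨j, h1, -⟩ := P.surj i q _ (C.soc_mem i q)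
  exact ⟨j, h1⟩

/-- the position of a society vertex -/
noncomputable def js (i : Fin s) (q : Fin (C.m i)) : Fin P.n := (P.exists_js i q).choose

lemma w_js (i : Fin s) (q : Fin (C.m i)) : P.w (P.js i q) = C.soc i q := (P.exists_js i q).choose_spec

lemma sc_of_soc {j : Fin P.n} {i : Fin s} {q : Fin (C.m i)} (h : C.soc i q = P.w j) : P.Sc j := by
  rcases P.soc_or j with h1 | h1
  · exact h1
  · exact absurd h (h1 i q)

lemma sc_js (i : Fin s) (q : Fin (C.m i)) : P.Sc (P.js i q) := P.sc_of_soc (P.w_js i q).symm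

lemma js_spec (i : Fin s) (q : Fin (C.m i)) : P.d (P.js i q) = i ∧ (P.p (P.js i q)).val = q.val := by
  have h1 : C.soc _ _ = C.soc i q := (P.sc_js i q).symm.trans (P.w_js i q)
  exact C.soc_inj _ _ _ _ h1

lemma js_eq {j : Fin P.n} {i : Fin s} {q : Fin (C.m i)} (h : C.soc i q = P.w j) : P.js i q = j :=
  P.w_inj _ _ ((P.w_js i q).trans h)

lemma dS_congr {i i' : Fin s} (q : Fin (C.m i)) (q' : Fin (C.m i')) (h : i = i') (h' : q.val = q'.val) :
    dS C.H C.m C.soc i q = dS C.H C.m C.soc i' q' := by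
  subst h
  obtain rfl : q = q' := Fin.ext h'
  rfl

/-- darts of the old graph as darts of the new graph -/
noncomputable def B : (CG C.H C.m C.soc).Dart → P.E.Ga.Dart
  | ⟨(.inl u, .inl v), h⟩ => ⟨(.inl u, .inl v), h⟩
  | ⟨(.inl v, .inr i), h⟩ =>
    ⟨(.inl v, .inr (P.js i (show ∃ q, C.soc i q = v from h).choose)),
      (P.w_js i _).trans (show ∃ q, C.soc i q = v from h).choose_spec⟩
  | ⟨(.inr i, .inl v), h⟩ =>
    ⟨(.inr (P.js i (show ∃ q, C.soc i q = v from h).choose), .inl v),
      (P.w_js i _).trans (show ∃ q, C.soc i q = v from h).choose_spec⟩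
  | ⟨(.inr _, .inr _), h⟩ => (show False from h).elim

/-- darts of the new graph as darts of the old graph -/
noncomputable def T : P.E.Ga.Dart → Option (CG C.H C.m C.soc).Dart
  | ⟨(.inl u, .inl v), h⟩ => some ⟨(.inl u, .inl v), h⟩
  | ⟨(.inl v, .inr j), h⟩ => if hs : P.Sc j then
      some ⟨(.inl v, .inr (P.d j)), ⟨P.p j, hs.symm.trans h⟩⟩ else none
  | ⟨(.inr j, .inl v), h⟩ => if hs : P.Sc j then
      some ⟨(.inr (P.d j), .inl v), ⟨P.p j, hs.symm.trans h⟩⟩ else none
  | ⟨(.inr _, .inr _), _⟩ => none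

lemma TB (e : (CG C.H C.m C.soc).Dart) : P.T (P.B e) = some e := by
  obtain ⟨⟨a, b⟩, h⟩ := e
  rcases a with u | i <;> rcases b with v | i'
  · rfl
  · have hs := P.sc_js i' (show ∃ q, C.soc i' q = u from h).choose
    have hd := (P.js_spec i' (show ∃ q, C.soc i' q = u from h).choose).1
    simp only [B, T]
    rw [dif_pos hs]
    exact congrArg some (SimpleGraph.Dart.ext _ _ (by simp [hd]))
  · have hs := P.sc_js i (show ∃ q, C.soc i q = v from h).choose
    have hd := (P.js_spec i (show ∃ q, C.soc i q = v from h).choose).1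
    simp only [B, T]
    rw [dif_pos hs]
    exact congrArg some (SimpleGraph.Dart.ext _ _ (by simp [hd]))
  · exact (show False from h).elim

lemma BT {d : P.E.Ga.Dart} {e : (CG C.H C.m C.soc).Dart} (h : P.T d = some e) : P.B e = d := by
  obtain ⟨⟨a, b⟩, hd⟩ := d
  rcases a with u | j <;> rcases b with v | j'
  · simp only [T, Option.some.injEq] at h
    subst h
    rfl
  · simp only [T] at h
    split_ifs at h with hs
    simp only [Option.some.injEq] at h
    subst h
    have h1 : ∃ q, C.soc (P.d j') q = u := ⟨P.p j', hs.symm.trans hd⟩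
    have h2 : P.js (P.d j') h1.choose = j' := P.js_eq (h1.choose_spec.trans (show P.w j' = u from hd).symm)
    exact SimpleGraph.Dart.ext _ _ (by simp [B, h2])
  · simp only [T] at h
    split_ifs at h with hs
    simp only [Option.some.injEq] at h
    subst h
    have h1 : ∃ q, C.soc (P.d j) q = v := ⟨P.p j, hs.symm.trans hd⟩
    have h2 : P.js (P.d j) h1.choose = j := P.js_eq (h1.choose_spec.trans (show P.w j = v from hd).symm)
    exact SimpleGraph.Dart.ext _ _ (by simp [B, h2])
  · simp [T] at h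

lemma B_inj {e e' : (CG C.H C.m C.soc).Dart} (h : P.B e = P.B e') : e = e' := by
  have h1 := P.TB e
  rw [h, P.TB e'] at h1
  exact (Option.some.inj h1).symm

lemma B_fst {e : (CG C.H C.m C.soc).Dart} {v : W} (h : e.fst = .inl v) : (P.B e).fst = .inl v := by
  obtain ⟨⟨a, b⟩, hd⟩ := e
  change a = .inl v at h
  subst h
  rcases b with u | i <;> rfl

lemma T_fst {d : P.E.Ga.Dart} {e : (CG C.H C.m C.soc).Dart} {v : W} (hv : d.fst = .inl v)
    (h : P.T d = some e) : e.fst = .inl v := by
  obtain ⟨⟨a, b⟩, hd⟩ := d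
  change a = .inl v at hv
  subst hv
  rcases b with u | j
  · simp only [T, Option.some.injEq] at h
    subst h
    rfl
  · simp only [T] at h
    split_ifs at h with hs
    simp only [Option.some.injEq] at h
    subst h
    rfl

lemma T_symm (d : P.E.Ga.Dart) : P.T d.symm = (P.T d).map SimpleGraph.Dart.symm := by
  obtain ⟨⟨a, b⟩, hd⟩ := d
  rcases a with u | j <;> rcases b with v | j'
  · rfl
  · by_cases hs : P.Sc j'
    · simp only [SimpleGraph.Dart.symm, Prod.swap, T, dif_pos hs, Option.map]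
    · simp only [SimpleGraph.Dart.symm, Prod.swap, T, dif_neg hs, Option.map]
  · by_cases hs : P.Sc j
    · simp only [SimpleGraph.Dart.symm, Prod.swap, T, dif_pos hs, Option.map]
    · simp only [SimpleGraph.Dart.symm, Prod.swap, T, dif_neg hs, Option.map]
  · rfl

/-- vertices of vortices outside the societies have one neighbour in the new graph -/
lemma T_none {d : P.E.Ga.Dart} {v : W} (hv : d.fst = .inl v) (h : P.T d = none) {d' : P.E.Ga.Dart}
    (hv' : d'.fst = .inl v) : d' = d := by
  obtain ⟨⟨a, b⟩, hd⟩ := d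
  obtain ⟨⟨a', b'⟩, hd'⟩ := d'
  change a = .inl v at hv
  change a' = .inl v at hv'
  subst hv
  subst hv'
  rcases b with u | j
  · simp [T] at h
  · simp only [T] at h
    split_ifs at h with hs
    have hw : P.w j = v := hd
    have hn : ∀ i q, C.soc i q ≠ v := by
      rw [← hw]
      exact (P.soc_or j).resolve_left hs
    rcases b' with u' | j'
    · exfalso
      have hH : C.H.Adj v u' := hd'
      obtain ⟨q, hq⟩ := C.H_bag (P.d j) (P.p j) v u' (by rw [← hw]; exact P.mem j) hH
      exact hn _ _ hq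
    · have hw' : P.w j' = v := hd'
      have hj : j' = j := P.w_inj _ _ (hw'.trans hw.symm)
      subst hj
      rfl

/-! ### the rotation at the comb vertices -/

/-- next position of the vortex -/
noncomputable def nx (j : Fin P.n) : Option (Fin P.n) := if h : ∃ j', P.E.Nx j j' then some h.choose else none

/-- previous position of the vortex -/
noncomputable def pv (j : Fin P.n) : Option (Fin P.n) := if h : ∃ j', P.E.Nx j' j then some h.choose else none

lemma nx_iff {j j' : Fin P.n} : P.nx j = some j' ↔ P.E.Nx j j' := by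
  unfold nx
  constructor
  · intro h
    split_ifs at h with h1
    rw [← Option.some.inj h]
    exact h1.choose_spec
  · intro h
    have h1 : ∃ j', P.E.Nx j j' := ⟨j', h⟩
    rw [dif_pos h1]
    congr 1
    exact Fin.ext (h1.choose_spec.1.trans h.1.symm)

lemma pv_iff {j j' : Fin P.n} : P.pv j = some j' ↔ P.E.Nx j' j := by
  unfold pv
  constructor
  · intro h
    split_ifs at h with h1
    rw [← Option.some.inj h]
    exact h1.choose_spec
  · intro h
    have h1 : ∃ j', P.E.Nx j' j := ⟨j', h⟩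
    rw [dif_pos h1]
    congr 1
    have h2 := h1.choose_spec.1
    have h3 := h.1
    exact Fin.ext (by omega)

/-- the target of the rotation at a comb vertex -/
noncomputable def tgt (j : Fin P.n) : W ⊕ Fin P.n → W ⊕ Fin P.n
  | .inl _ => (P.nx j).elim ((P.pv j).elim (.inl (P.w j)) .inr) .inr
  | .inr j' => if P.nx j = some j' then (P.pv j).elim (.inl (P.w j)) .inr else .inl (P.w j)

lemma pv_adj (j : Fin P.n) : P.E.Ga.Adj (.inr j) ((P.pv j).elim (.inl (P.w j)) .inr) := by
  cases h : P.pv j with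
  | none => exact (rfl : P.w j = P.w j)
  | some j' => exact Or.inr (P.pv_iff.1 h)

lemma tgt_adj (j : Fin P.n) (y : W ⊕ Fin P.n) : P.E.Ga.Adj (.inr j) (P.tgt j y) := by
  rcases y with v | j'
  · simp only [tgt]
    cases h : P.nx j with
    | none => exact P.pv_adj j
    | some j' => exact Or.inl (P.nx_iff.1 h)
  · simp only [tgt]
    split_ifs with h
    · exact P.pv_adj j
    · exact (rfl : P.w j = P.w j)

lemma nbr {j : Fin P.n} {y : W ⊕ Fin P.n} (h : P.E.Ga.Adj (.inr j) y) :
    y = .inl (P.w j) ∨ (∃ j', P.nx j = some j' ∧ y = .inr j') ∨ ∃ j', P.pv j = some j' ∧ y = .inr j' := by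
  rcases y with v | j'
  · left
    rw [show P.w j = v from h]
  · right
    rcases (show P.E.Nx j j' ∨ P.E.Nx j' j from h) with h1 | h1
    · exact Or.inl ⟨j', P.nx_iff.2 h1, rfl⟩
    · exact Or.inr ⟨j', P.pv_iff.2 h1, rfl⟩

lemma tgt_inl (j : Fin P.n) (v : W) :
    P.tgt j (.inl v) = (P.nx j).elim ((P.pv j).elim (.inl (P.w j)) .inr) .inr := rfl

lemma tgt_nx {j j' : Fin P.n} (h : P.nx j = some j') :
    P.tgt j (.inr j') = (P.pv j).elim (.inl (P.w j)) .inr := if_pos h

lemma tgt_pv {j j' : Fin P.n} (h : P.pv j = some j') : P.tgt j (.inr j') = .inl (P.w j) := by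
  refine if_neg ?_
  intro h1
  have h2 := (P.nx_iff.1 h1).1
  have h3 := (P.pv_iff.1 h).1
  omega

lemma nx_ne_pv {j j' : Fin P.n} (h : P.nx j = some j') (h' : P.pv j = some j') : False := by
  have h2 := (P.nx_iff.1 h).1
  have h3 := (P.pv_iff.1 h').1
  omega

lemma tgt_inj {j : Fin P.n} {y y' : W ⊕ Fin P.n} (h : P.E.Ga.Adj (.inr j) y) (h' : P.E.Ga.Adj (.inr j) y')
    (e : P.tgt j y = P.tgt j y') : y = y' := by
  rcases P.nbr h with rfl | ⟨a, ha, rfl⟩ | ⟨a, ha, rfl⟩ <;>
    rcases P.nbr h' with rfl | ⟨b, hb, rfl⟩ | ⟨b, hb, rfl⟩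
  · rfl
  · rw [P.tgt_nx hb, P.tgt_inl, hb] at e
    cases hp : P.pv j with
    | none => rw [hp] at e; simp at e
    | some c =>
      rw [hp] at e
      simp only [Option.elim_some, Sum.inr.injEq] at e
      rw [e] at hb
      exact (P.nx_ne_pv hb hp).elim
  · rw [P.tgt_pv hb, P.tgt_inl] at e
    cases hn : P.nx j with
    | none => rw [hn, hb] at e; simp at e
    | some c => rw [hn] at e; simp at e
  · rw [P.tgt_nx ha, P.tgt_inl, ha] at e
    cases hp : P.pv j with
    | none => rw [hp] at e; simp at e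
    | some c =>
      rw [hp] at e
      simp only [Option.elim_some, Sum.inr.injEq] at e
      rw [← e] at ha
      exact (P.nx_ne_pv ha hp).elim
  · rw [ha] at hb
    rw [Option.some.inj hb]
  · rw [P.tgt_nx ha, P.tgt_pv hb, hb] at e
    simp at e
  · rw [P.tgt_pv ha, P.tgt_inl] at e
    cases hn : P.nx j with
    | none => rw [hn, ha] at e; simp at e
    | some c => rw [hn] at e; simp at e
  · rw [P.tgt_nx hb, P.tgt_pv ha, ha] at e
    simp at e
  · rw [ha] at hb
    rw [Option.some.inj hb]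

/-! ### the rotation -/

/-- the rotation -/
noncomputable def Rf (d : P.E.Ga.Dart) : P.E.Ga.Dart :=
  match d.fst with
  | .inl _ => (P.T d).elim d (fun e => P.B (C.S.rot e))
  | .inr j => ⟨(.inr j, P.tgt j d.snd), P.tgt_adj j d.snd⟩

lemma Rf_inl {d : P.E.Ga.Dart} {v : W} (h : d.fst = .inl v) :
    P.Rf d = (P.T d).elim d (fun e => P.B (C.S.rot e)) := by
  unfold Rf
  rw [h]

lemma Rf_inr {d : P.E.Ga.Dart} {j : Fin P.n} (h : d.fst = .inr j) :
    P.Rf d = ⟨(.inr j, P.tgt j d.snd), P.tgt_adj j d.snd⟩ := by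
  unfold Rf
  rw [h]

lemma Rf_fst (d : P.E.Ga.Dart) : (P.Rf d).fst = d.fst := by
  cases h : d.fst with
  | inl v =>
    rw [P.Rf_inl h]
    cases hT : P.T d with
    | none => exact h
    | some e =>
      apply P.B_fst
      rw [C.S.rot_fst]
      exact P.T_fst h hT
  | inr j => rw [P.Rf_inr h]

lemma Rf_inj : Function.Injective P.Rf := by
  intro d d' e
  have hf : d.fst = d'.fst := by rw [← P.Rf_fst d, e, P.Rf_fst]
  cases h : d.fst with
  | inl v =>
    have h' : d'.fst = .inl v := hf.symm.trans h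
    cases hT : P.T d with
    | none => exact (P.T_none h hT h').symm
    | some a =>
      cases hT' : P.T d' with
      | none => exact P.T_none h' hT' h
      | some a' =>
        rw [P.Rf_inl h, P.Rf_inl h', hT, hT'] at e
        have h1 := C.S.rot.injective (P.B_inj e)
        rw [← P.BT hT, ← P.BT hT', h1]
  | inr j =>
    have h' : d'.fst = .inr j := hf.symm.trans h
    rw [P.Rf_inr h, P.Rf_inr h'] at e
    have e2 : P.tgt j d.snd = P.tgt j d'.snd := by
      have := congrArg SimpleGraph.Dart.toProd e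
      exact (Prod.mk.inj this).2
    have a1 : P.E.Ga.Adj (.inr j) d.snd := h ▸ d.adj
    have a2 : P.E.Ga.Adj (.inr j) d'.snd := h' ▸ d'.adj
    exact SimpleGraph.Dart.ext _ _ (Prod.ext hf (P.tgt_inj a1 a2 e2))

variable [Fintype W]

/-- the rotation as a permutation -/
noncomputable def rt : Equiv.Perm P.E.Ga.Dart :=
  Equiv.ofBijective P.Rf (Finite.injective_iff_bijective.1 P.Rf_inj)

lemma rt_apply (d : P.E.Ga.Dart) : P.rt d = P.Rf d := rfl

lemma rt_pow {v : W} {e : (CG C.H C.m C.soc).Dart} (he : e.fst = .inl v) (i : ℕ) :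
    (P.rt ^ i) (P.B e) = P.B ((C.S.rot ^ i) e) ∧ ((C.S.rot ^ i) e).fst = .inl v := by
  induction i with
  | zero => exact ⟨rfl, he⟩
  | succ i ih =>
    obtain ⟨h1, h2⟩ := ih
    rw [pow_succ', pow_succ', Equiv.Perm.mul_apply, Equiv.Perm.mul_apply, h1, P.rt_apply,
      P.Rf_inl (P.B_fst h2), P.TB]
    exact ⟨rfl, by rw [C.S.rot_fst]; exact h2⟩

lemma rt_cycle (d d' : P.E.Ga.Dart) (hf : d.fst = d'.fst) : P.rt.SameCycle d d' := by
  cases h : d.fst with
  | inl v =>
    have h' : d'.fst = .inl v := hf.symm.trans h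
    cases hT : P.T d with
    | none =>
      rw [P.T_none h hT h']
    | some a =>
      cases hT' : P.T d' with
      | none => rw [P.T_none h' hT' h]
      | some a' =>
        have h1 := P.T_fst h hT
        have h2 := P.T_fst h' hT'
        have h3 := C.S.rot_cycle a a' (h1.trans h2.symm)
        obtain ⟨i, -, hi⟩ := h3.exists_pow_eq'
        refine ⟨(i : ℤ), ?_⟩
        rw [zpow_natCast, ← P.BT hT, (P.rt_pow h1 i).1, hi, P.BT hT']
  | inr j =>
    have key : ∀ d : P.E.Ga.Dart, d.fst = .inr j → P.rt.SameCycle (P.E.dW j) d := by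
      intro d h
      obtain ⟨⟨a, y⟩, hd⟩ := d
      change a = .inr j at h
      subst h
      rcases P.nbr hd with rfl | ⟨b, hb, rfl⟩ | ⟨b, hb, rfl⟩
      · exact Equiv.Perm.SameCycle.refl _ _
      · refine ⟨1, ?_⟩
        rw [zpow_one, P.rt_apply, P.Rf_inr (d := P.E.dW j) rfl]
        refine SimpleGraph.Dart.ext _ _ (Prod.ext rfl ?_)
        change P.tgt j (.inl (P.w j)) = _
        rw [P.tgt_inl, hb]
        rfl
      · refine Equiv.Perm.SameCycle.symm ⟨1, ?_⟩
        rw [zpow_one, P.rt_apply, P.Rf_inr rfl]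
        refine SimpleGraph.Dart.ext _ _ (Prod.ext rfl ?_)
        exact P.tgt_pv hb
    exact (key d h).symm.trans (key d' (hf.symm.trans h))

/-- the embedding scheme of the new graph -/
noncomputable def Sch : EmbeddingScheme P.E.Ga where
  rot := P.rt
  rot_fst := P.Rf_fst
  rot_cycle := P.rt_cycle
  twist := fun d => (P.T d).elim false C.S.twist
  twist_symm := by
    intro d
    rw [P.T_symm]
    cases P.T d with
    | none => rfl
    | some e => exact C.S.twist_symm e

lemma sch_rotW (p q : Fin P.n) (h : P.E.Nx p q) : P.Sch.rot (P.E.dW p) = P.E.dR p q h := by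
  change P.Rf (P.E.dW p) = _
  rw [P.Rf_inr (d := P.E.dW p) rfl]
  refine SimpleGraph.Dart.ext _ _ (Prod.ext rfl ?_)
  change P.tgt p (.inl (P.w p)) = _
  rw [P.tgt_inl, P.nx_iff.2 h]
  rfl

lemma sch_rotL (p q : Fin P.n) (h : P.E.Nx p q) : P.Sch.rot (P.E.dL p q h) = P.E.dW q := by
  change P.Rf (P.E.dL p q h) = _
  rw [P.Rf_inr (d := P.E.dL p q h) rfl]
  exact SimpleGraph.Dart.ext _ _ (Prod.ext rfl (P.tgt_pv (P.pv_iff.2 h)))

lemma sch_flat (p q : Fin P.n) (h : P.E.Nx p q) : P.Sch.twist (P.E.dR p q h) = false := rfl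

end CNPos

end Pool.Agent.BTV
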