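import Pool.Agent.BTD.CDefs
import Pool.Agent.BTD.T1
import Pool.Agent.BTD.T4

/-! BTV: definitions (helper31).  Near embeddings with vortices. -/

set_option autoImplicit false

open Classical

namespace Pool.Agent.BTV

open Pool.Agent.BTD Pool.Agent.H81.Balls

universe u

/-- A near embedding on the vertex set `V` (its combinatorial part): a graph `H` (drawn on the
surface), positions `0, …, n - 1` (the societies of all vortices, one after the other), the vertex
`w p` at the position `p`, the number `disc p` of its vortex, and the bag `X p` of the path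
decomposition of the vortex.  All vertices of a vortex are society vertices. -/
structure NE (V : Type u) where
  H : SimpleGraph V
  n : ℕ
  w : Fin n → V
  X : Fin n → Set V
  disc : Fin n → ℕ
  w_inj : ∀ p q, w p = w q → p = q
  disc_mono : ∀ p q, p ≤ q → disc p ≤ disc q
  w_mem : ∀ p, w p ∈ X p
  X_sub : ∀ p, ∀ v ∈ X p, ∃ q, w q = v ∧ disc q = disc p
  X_int : ∀ p q r, p ≤ q → q ≤ r → ∀ v, v ∈ X p → v ∈ X r → v ∈ X q

namespace NE

variable {V : Type u} (E : NE V)

/-- `v` is a vortex vertex. -/
def IsV (v : V) : Prop := ∃ p, E.w p = v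

/-- Every edge of `G` is an edge of the drawn graph or lies in a bag. -/
def Fits (G : SimpleGraph V) : Prop :=
  ∀ u v, G.Adj u v → E.H.Adj u v ∨ ∃ p, u ∈ E.X p ∧ v ∈ E.X p

/-- `q` is the next position after `p` in the same vortex. -/
def Nx (p q : Fin E.n) : Prop := q.val = p.val + 1 ∧ E.disc q = E.disc p

/-- The adjacency of the auxiliary graph. -/
def GaAdj : V ⊕ Fin E.n → V ⊕ Fin E.n → Prop
  | .inl u, .inl v => E.H.Adj u v
  | .inl v, .inr p => E.w p = v
  | .inr p, .inl v => E.w p = v
  | .inr p, .inr q => E.Nx p q ∨ E.Nx q p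

/-- The auxiliary graph: `H` together with a comb for every vortex. -/
def Ga : SimpleGraph (V ⊕ Fin E.n) where
  Adj := E.GaAdj
  symm := ⟨by
    rintro (u | p) (v | q) h
    · exact SimpleGraph.Adj.symm h
    · exact h
    · exact h
    · exact Or.symm h⟩
  loopless := ⟨by
    rintro (u | p) h
    · exact E.H.loopless.irrefl u h
    · rcases h with h | h <;> exact absurd h.1 (by omega)⟩

/-- the spoke at `p` -/
def dW (p : Fin E.n) : E.Ga.Dart := ⟨(.inr p, .inl (E.w p)), rfl⟩

/-- the comb edge from `p` to its successor `q` -/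
def dR (p q : Fin E.n) (h : E.Nx p q) : E.Ga.Dart := ⟨(.inr p, .inr q), Or.inl h⟩

/-- the comb edge from `q` to its predecessor `p` -/
def dL (p q : Fin E.n) (h : E.Nx p q) : E.Ga.Dart := ⟨(.inr q, .inr p), Or.inr h⟩

/-- An embedding of the auxiliary graph of Euler genus at most `g` in which all spokes of a comb
are on the same side of the comb path. -/
structure Emb (g : ℕ) where
  S : EmbeddingScheme E.Ga
  genus : S.EulerGenusLE g
  rotW : ∀ p q (h : E.Nx p q), S.rot (E.dW p) = E.dR p q h
  rotL : ∀ p q (h : E.Nx p q), S.rot (E.dL p q h) = E.dW q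
  flat : ∀ p q (h : E.Nx p q), S.twist (E.dR p q h) = false

/-- position of a vortex vertex -/
noncomputable def po (v : V) : Option (Fin E.n) := if h : ∃ p, E.w p = v then some h.choose else none

/-- `u` and `v` lie in a common bag -/
def VSt (u v : V) : Prop := ∃ p, u ∈ E.X p ∧ v ∈ E.X p

/-- strictly between -/
def Bt (a b p : Fin E.n) : Prop := (a < p ∧ p < b) ∨ (b < p ∧ p < a)

/-- strictly between, for optional positions -/
def OBt (a b : Option (Fin E.n)) (p : Fin E.n) : Prop := ∃ a' b', a = some a' ∧ b = some b' ∧ E.Bt a' b' p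

/-- weakly between -/
def Hull (a b p : Fin E.n) : Prop := (a ≤ p ∧ p ≤ b) ∨ (b ≤ p ∧ p ≤ a)

/-- an interval of positions of one vortex -/
def Itv (α : Set (Fin E.n)) : Prop :=
  (∀ p ∈ α, ∀ r ∈ α, E.disc p = E.disc r) ∧ ∀ p q r, p ∈ α → r ∈ α → p ≤ q → q ≤ r → q ∈ α

/-- the gates of a set of positions: the bags at the positions adjacent to it -/
def Gt (α : Set (Fin E.n)) : Set V := {v | ∃ p, v ∈ E.X p ∧ p ∉ α ∧ ∃ a ∈ α, E.Nx a p ∨ E.Nx p a}

/-- the union of the bags at two optional positions -/
def OX (a : Option (Fin E.n)) : Set V := {v | ∃ p, a = some p ∧ v ∈ E.X p}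

/-- The cell of `p` with respect to a set `D` of positions. -/
def cell (D : Set (Fin E.n)) (p : Fin E.n) : Set (Fin E.n) :=
  {q | q = p ∨ (E.disc q = E.disc p ∧ ∀ d ∈ D, ¬ E.Hull p q d)}

end NE

section legs

variable {V : Type u} {G : SimpleGraph V} (M : LMet G) (E : NE V)

/-- the first vortex vertex on the leg of `v` towards `q` (`v` included) is `w p` -/
def Land (q v : V) (p : Fin E.n) : Prop :=
  ∃ k : ℕ, (M.par q)^[k] v = E.w p ∧ ∀ j < k, ¬ E.IsV ((M.par q)^[j] v)

/-- the leg of `v` towards `q` has no vortex vertex -/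
def Free (q v : V) : Prop := M.D v q ≠ ⊤ ∧ ∀ a, M.Anc q a v → ¬ E.IsV a

/-- The leg of `v` towards `q` starts with a step outside of the vortices, and its first vortex
vertex after `v` is at position `b` (`e = some b`) or does not exist (`e = none`). -/
def Reg (q v : V) : Option (Fin E.n) → Prop
  | some b => M.D v q ≠ ⊤ ∧ v ≠ q ∧ ¬ E.VSt v (M.par q v) ∧ Land M E q (M.par q v) b
  | none => M.D v q ≠ ⊤ ∧ v ≠ q ∧ ¬ E.VSt v (M.par q v) ∧ Free M E q (M.par q v)

/-- the vertices of the piece of the leg of `v` towards `q` up to the landing `e` -/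
def UU (q v : V) : Option (Fin E.n) → Set V
  | some b => {x | M.Anc q x v ∧ M.Anc q (E.w b) x}
  | none => {x | M.Anc q x v}

/-- Two pieces have comparable ends: they start at the same vertex or at the same vortex, and end
at the same vortex or at the same vertex (both without landing). -/
def Cmp (q v : V) (e : Option (Fin E.n)) (q' v' : V) (e' : Option (Fin E.n)) : Prop :=
  (v = v' ∨ ∃ a a', E.w a = v ∧ E.w a' = v' ∧ E.disc a = E.disc a') ∧
  ((e = none ∧ e' = none ∧ q = q') ∨ ∃ b b', e = some b ∧ e' = some b' ∧ E.disc b = E.disc b')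

/-- `Ins` is (the set of vertices inside) the region between the piece of `(q, v, e)` and the
piece of `(q', v', e')`. -/
structure Sep (q v : V) (e : Option (Fin E.n)) (q' v' : V) (e' : Option (Fin E.n))
    (Ins : V → Prop) : Prop where
  hH : ∀ x y, E.H.Adj x y → x ∉ UU M E q v e → x ∉ UU M E q' v' e' → y ∉ UU M E q v e →
    y ∉ UU M E q' v' e' → (Ins x ↔ Ins y)
  hV : ∀ p, E.w p ∉ UU M E q v e → E.w p ∉ UU M E q' v' e' →
    (Ins (E.w p) ↔ Xor' (E.OBt (E.po v) (E.po v') p) (E.OBt e e' p))

/-- The four bags at the ends of two pieces. -/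
def F4 (v : V) (e : Option (Fin E.n)) (v' : V) (e' : Option (Fin E.n)) : Set V :=
  E.OX (E.po v) ∪ E.OX e ∪ (E.OX (E.po v') ∪ E.OX e')

end legs

/-- A graph `G` with a length metric and a near embedding: Euler genus `≤ g`, bags of size `≤ k`,
at most `s` vortices. -/
structure Inst (g k s : ℕ) (V : Type u) where
  G : SimpleGraph V
  M : LMet G
  E : NE V
  fits : E.Fits G
  A : E.Emb g
  bag : ∀ p, (E.X p).ncard ≤ k
  disc_lt : ∀ p, E.disc p < s

end Pool.Agent.BTV
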