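import Pool.Agent.BTV.NH

/-! BTV NI: regions for planar targets, nearest sites.

`Rg X reg := ∃ u ∈ X, ∃ A (none or a cell of level 2), ∃ S ⊆ X finite, at most `3 C + 3` elements,
∃ lo hi : Option V (elements of `DCP I X u A`), reg = {e' | e'.1 ∈ PP u.1 A ∧ Near S u e'.1 ∧
e'.2 < wd u e'.1 ∧ (∀ l, lo = some l → rk l < rk e'.1) ∧ (∀ h, hi = some h → rk e'.1 < rk h)}`,
`rk := rkP I u.1 A`.  Decodable: `bind` over `(u, A)` (`Dcd.site`, `Dcd.option (twN_dcd 2)`), then `S`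
(`Dcd.set`), `lo`, `hi` (`Dcd.option (dcp_dcd)`).
Correct: `c := e.1` planar, `Near X u c`.  `A := none` if `c` is free towards `u.1`, otherwise
`some (cell (TwN 2) p)`, `p` its landing (`free_or_land`).  `c ∈ PP u.1 A`.
`bL` := the element of `FO` of largest rank below `rk c` (if there is one), `bR` the one of smallest rank
above.  `S := {u} ∪ Col X (OA A) ∪` (for `b = bL, bR`: its colour `y`, and `Col X (cell (TwN 2) p)` if `b`
lands at `p` towards `y`): at most `3 C + 3` elements (`creepN`; `Col` of `∅` is empty).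
`lo` := element of `DCP` of largest rank `< rk c`, if there is one; `hi` := smallest rank `> rk c`.
`e ∈ reg` clear (`near_sub`, `u` does not cover `e`).  Let `e' ∈ reg`, `z := e'.1`.  If `Near X u z` then
`e'.2 < wd u z ≤ wd x z` for all `x ∈ X`: done.  Otherwise: `rk z < rk c`: `top_FO` gives `b ∈ FO` with
`rk b ≤ rk z < rk c`, so `bL` exists; `left_N` gives `v ∈ DCP` with `rk z < rk v < rk c`, so `lo` exists
and `rk z < rk v ≤ rk lo < rk z`.  `rk z > rk c`: `top_FO` gives `b`, and as in `right_N` `rk b > rk c`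
(`rk b < rk c` would give `PAnc b c`; `b ≠ c`), so `bR` exists; `right_N` gives `v` with
`rk c < rk v ≤ rk z`, so `rk hi ≤ rk v ≤ rk z < rk hi`.  `rk z = rk c`: `z = c` (`POrd.inj`). -/

set_option autoImplicit false

open Classical

namespace Pool.Agent.BTV

open Pool.Agent.BTD Pool.Agent.H81.Balls

universe u

variable {V : Type u} [Fintype V] {g k s : ℕ}

/-- the region with parameters `u, A, S, lo, hi` -/
def NIreg (I : Inst g k s V) (u : V × ℕ) (A : Option (Set (Fin I.E.n))) (S : Set (V × ℕ))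
    (lo hi : Option V) : Set (V × ℕ) :=
  {e' | e'.1 ∈ PP I.M I.E u.1 A ∧ Near I.M S u e'.1 ∧ (e'.2 : ℕ∞) < I.M.wd u e'.1 ∧
    (∀ l, lo = some l → rkP I u.1 A l < rkP I u.1 A e'.1) ∧
    (∀ h, hi = some h → rkP I u.1 A e'.1 < rkP I u.1 A h)}

lemma NI_max (D : Set V) (r : V → ℕ) (n : ℕ) : ∃ lo : Option V,
    (∀ z, lo = some z → z ∈ D ∧ r z < n) ∧ ∀ v ∈ D, r v < n → ∃ l, lo = some l ∧ r v ≤ r l := by
  by_cases hne : {v | v ∈ D ∧ r v < n}.Nonempty
  · obtain ⟨m, hm1, hm2⟩ := Set.exists_max_image {v | v ∈ D ∧ r v < n} r (Set.toFinite _) hne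
    refine ⟨some m, ?_, ?_⟩
    · intro z hz
      rw [Option.some.injEq] at hz
      rw [← hz]
      exact hm1
    · intro v hv hv'
      exact ⟨m, rfl, hm2 v ⟨hv, hv'⟩⟩
  · refine ⟨none, ?_, ?_⟩
    · intro z hz
      exact absurd hz (by simp)
    · intro v hv hv'
      exact absurd ⟨v, hv, hv'⟩ hne

lemma NI_min (D : Set V) (r : V → ℕ) (n : ℕ) : ∃ hi : Option V,
    (∀ z, hi = some z → z ∈ D ∧ n < r z) ∧ ∀ v ∈ D, n < r v → ∃ l, hi = some l ∧ r l ≤ r v := by
  by_cases hne : {v | v ∈ D ∧ n < r v}.Nonempty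
  · obtain ⟨m, hm1, hm2⟩ := Set.exists_min_image {v | v ∈ D ∧ n < r v} r (Set.toFinite _) hne
    refine ⟨some m, ?_, ?_⟩
    · intro z hz
      rw [Option.some.injEq] at hz
      rw [← hz]
      exact hm1
    · intro v hv hv'
      exact ⟨m, rfl, hm2 v ⟨hv, hv'⟩⟩
  · refine ⟨none, ?_, ?_⟩
    · intro z hz
      exact absurd hz (by simp)
    · intro v hv hv'
      exact absurd ⟨v, hv, hv'⟩ hne

lemma NI_cov (I : Inst g k s V) {C : ℕ} {X : Set (V × ℕ)}
    (hC : ∀ p, (Col I.M I.E X (I.E.cell (TwN I X 2) p)).ncard ≤ C) {u : V × ℕ} (hu : u ∈ X)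
    {A : Option (Set (Fin I.E.n))} {b : V} (hb : b ∈ FO I X u A) :
    ∃ S : Set (V × ℕ), S ⊆ X ∧ S.Finite ∧ S.ncard ≤ C + 1 ∧ Cov I X S b := by
  have hD : I.M.D b u.1 ≠ ⊤ := by
    have h1 := hb.1
    cases A with
    | none => exact h1.1
    | some α => exact h1.2.1
  obtain ⟨y, hy⟩ := near_exists (M := I.M) hu (v := b) (LMet.wd_ne_top.mpr hD)
  by_cases hl : ∃ p, Land I.M I.E y.1 b p
  · obtain ⟨p, hp⟩ := hl
    refine ⟨insert y (Col I.M I.E X (I.E.cell (TwN I X 2) p)), ?_, ?_, ?_, y, Set.mem_insert _ _, hy, ?_⟩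
    · exact Set.insert_subset hy.1 col_sub
    · exact (col_finite I.E X _).insert y
    · exact (Set.ncard_insert_le _ _).trans (Nat.add_le_add_right (hC p) 1)
    · intro p' hp'
      rw [land_unique hp' hp]
      exact Set.subset_insert _ _
  · refine ⟨{y}, ?_, Set.finite_singleton y, ?_, y, rfl, hy, ?_⟩
    · rw [Set.singleton_subset_iff]
      exact hy.1
    · rw [Set.ncard_singleton]
      omega
    · intro p' hp'
      exact absurd ⟨p', hp'⟩ hl

lemma NI_cov_mono (I : Inst g k s V) {X S S' : Set (V × ℕ)} {b : V} (h : Cov I X S b) (hS : S ⊆ S') :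
    Cov I X S' b := by
  obtain ⟨y, hy, h1, h2⟩ := h
  exact ⟨y, hS hy, h1, fun p hp => (h2 p hp).trans hS⟩

lemma NI_correct (I : Inst g k s V) {C : ℕ} {X : Set (V × ℕ)}
    (hC : ∀ p, (Col I.M I.E X (I.E.cell (TwN I X 2) p)).ncard ≤ C) {e u : V × ℕ}
    (he : ∀ x ∈ X, ¬ I.M.inc e x) (heV : ¬ I.E.IsV e.1) (hcX : Near I.M X u e.1) :
    ∃ A : Option (Set (Fin I.E.n)), (∀ α, A = some α → ∃ p, α = I.E.cell (TwN I X 2) p) ∧
      ∃ S : Set (V × ℕ), (S.Finite ∧ S.ncard ≤ 3 * C + 3 ∧ ∀ x ∈ S, x ∈ X) ∧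
      ∃ lo hi : Option V, (∀ z, lo = some z → z ∈ DCP I X u A) ∧ (∀ z, hi = some z → z ∈ DCP I X u A) ∧
        e ∈ NIreg I u A S lo hi ∧ ∀ e' ∈ NIreg I u A S lo hi, ∀ x ∈ X, ¬ I.M.inc e' x := by
  have hu : u ∈ X := hcX.1
  have hD : I.M.D e.1 u.1 ≠ ⊤ := LMet.wd_ne_top.mp hcX.2.1
  obtain ⟨A, hA, hc⟩ : ∃ A : Option (Set (Fin I.E.n)),
      (A = none ∨ ∃ p, A = some (I.E.cell (TwN I X 2) p)) ∧ e.1 ∈ PP I.M I.E u.1 A := by
    rcases free_or_land (E := I.E) hD with h | ⟨p, h⟩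
    · exact ⟨none, Or.inl rfl, h⟩
    · exact ⟨some (I.E.cell (TwN I X 2) p), Or.inr ⟨p, rfl⟩, heV, hD, p, Or.inl rfl, h⟩
  have hitv : ∀ α, A = some α → I.E.Itv α := by
    intro α hα
    rcases hA with h | ⟨p, h⟩
    · rw [h] at hα
      exact absurd hα (by simp)
    · rw [h, Option.some.injEq] at hα
      rw [← hα]
      exact cell_itv _ _
  have hspec := rkP_spec I u.1 A hitv
  have hcolA : (Col I.M I.E X (OA A)).ncard ≤ C := by
    rcases hA with h | ⟨p, h⟩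
    · have h0 : Col I.M I.E X (OA A) = ∅ := by
        rw [h]
        ext x
        constructor
        · rintro ⟨q, ⟨α, hα, -⟩, -⟩
          exact absurd hα (by simp)
        · intro hx
          exact absurd hx (Set.notMem_empty x)
      rw [h0, Set.ncard_empty]
      exact Nat.zero_le C
    · have h0 : (OA A : Set (Fin I.E.n)) = I.E.cell (TwN I X 2) p := by
        rw [h]
        ext q
        constructor
        · rintro ⟨α, hα, hq⟩
          rw [Option.some.injEq] at hα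
          rwa [hα]
        · intro hq
          exact ⟨_, rfl, hq⟩
      rw [h0]
      exact hC p
  -- bounds in the outer frontier
  obtain ⟨oL, hoL1, hoL2⟩ := NI_max (FO I X u A) (rkP I u.1 A) (rkP I u.1 A e.1)
  obtain ⟨oR, hoR1, hoR2⟩ := NI_min (FO I X u A) (rkP I u.1 A) (rkP I u.1 A e.1)
  obtain ⟨SL, hSL1, hSL2, hSL3, hSL4⟩ : ∃ S : Set (V × ℕ), S ⊆ X ∧ S.Finite ∧ S.ncard ≤ C + 1 ∧
      ∀ b, oL = some b → Cov I X S b := by
    cases hh : oL with
    | none =>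
      refine ⟨∅, Set.empty_subset _, Set.finite_empty, ?_, ?_⟩
      · rw [Set.ncard_empty]
        exact Nat.zero_le _
      · intro b hb
        exact absurd hb (by simp)
    | some b =>
      obtain ⟨S, h1, h2, h3, h4⟩ := NI_cov I hC hu (hoL1 b hh).1
      refine ⟨S, h1, h2, h3, ?_⟩
      intro b' hb'
      rw [Option.some.injEq] at hb'
      rwa [← hb']
  obtain ⟨SR, hSR1, hSR2, hSR3, hSR4⟩ : ∃ S : Set (V × ℕ), S ⊆ X ∧ S.Finite ∧ S.ncard ≤ C + 1 ∧
      ∀ b, oR = some b → Cov I X S b := by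
    cases hh : oR with
    | none =>
      refine ⟨∅, Set.empty_subset _, Set.finite_empty, ?_, ?_⟩
      · rw [Set.ncard_empty]
        exact Nat.zero_le _
      · intro b hb
        exact absurd hb (by simp)
    | some b =>
      obtain ⟨S, h1, h2, h3, h4⟩ := NI_cov I hC hu (hoR1 b hh).1
      refine ⟨S, h1, h2, h3, ?_⟩
      intro b' hb'
      rw [Option.some.injEq] at hb'
      rwa [← hb']
  obtain ⟨lo, hlo1, hlo2⟩ := NI_max (DCP I X u A) (rkP I u.1 A) (rkP I u.1 A e.1)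
  obtain ⟨hi, hhi1, hhi2⟩ := NI_min (DCP I X u A) (rkP I u.1 A) (rkP I u.1 A e.1)
  -- the set of sites
  obtain ⟨S, hS⟩ : ∃ S : Set (V × ℕ), S = insert u (Col I.M I.E X (OA A) ∪ (SL ∪ SR)) := ⟨_, rfl⟩
  have huS : u ∈ S := by
    rw [hS]
    exact Set.mem_insert _ _
  have hSX : S ⊆ X := by
    rw [hS]
    exact Set.insert_subset hu (Set.union_subset col_sub (Set.union_subset hSL1 hSR1))
  have hSf : S.Finite := by
    rw [hS]
    exact ((col_finite I.E X _).union (hSL2.union hSR2)).insert u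
  have hScard : S.ncard ≤ 3 * C + 3 := by
    rw [hS]
    have h1 := Set.ncard_insert_le u (Col I.M I.E X (OA A) ∪ (SL ∪ SR))
    have h2 := Set.ncard_union_le (Col I.M I.E X (OA A)) (SL ∪ SR)
    have h3 := Set.ncard_union_le SL SR
    omega
  have hcol : Col I.M I.E X (OA A) ⊆ S := by
    rw [hS]
    exact (Set.subset_union_left).trans (Set.subset_insert _ _)
  have hLS : SL ⊆ S := by
    rw [hS]
    exact (Set.subset_union_left.trans Set.subset_union_right).trans (Set.subset_insert _ _)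
  have hRS : SR ⊆ S := by
    rw [hS]
    exact (Set.subset_union_right.trans Set.subset_union_right).trans (Set.subset_insert _ _)
  refine ⟨A, ?_, S, ⟨hSf, hScard, fun x hx => hSX hx⟩, lo, hi, fun z hz => (hlo1 z hz).1,
    fun z hz => (hhi1 z hz).1, ?_, ?_⟩
  · intro α hα
    rcases hA with h | ⟨p, h⟩
    · rw [h] at hα
      exact absurd hα (by simp)
    · rw [h, Option.some.injEq] at hα
      exact ⟨p, hα.symm⟩
  · refine ⟨hc, near_sub hcX hSX huS, ?_, fun l hl => (hlo1 l hl).2, fun l hl => (hhi1 l hl).2⟩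
    have h1 := he u hu
    rw [LMet.inc_iff, not_le] at h1
    exact h1
  · rintro e' ⟨hz, hzS, hz2, hzlo, hzhi⟩
    by_cases hzX : Near I.M X u e'.1
    · intro x hx
      rw [LMet.inc_iff, not_le]
      refine lt_of_lt_of_le hz2 ?_
      rcases hzX.2.2 x hx with h | h
      · exact h.le
      · exact h.1.le
    · exfalso
      obtain ⟨b, x, hb1, hb2, hb3, hb4, hb5⟩ := top_FO I hu hSX hcol hcX hz hzS hzX
      have hbz : rkP I u.1 A b ≤ rkP I u.1 A e'.1 := hspec.anc_le b e'.1 hz hb1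
      rcases lt_trichotomy (rkP I u.1 A e'.1) (rkP I u.1 A e.1) with hlt | heq | hgt
      · obtain ⟨bL, hbL, hbL2⟩ := hoL2 b hb2 (lt_of_le_of_lt hbz hlt)
        have hmax : ∀ b' ∈ FO I X u A, rkP I u.1 A b' < rkP I u.1 A e.1 →
            rkP I u.1 A b' ≤ rkP I u.1 A bL := by
          intro b' h1 h2
          obtain ⟨l, hl1, hl2⟩ := hoL2 b' h1 h2
          rw [hbL, Option.some.injEq] at hl1
          rwa [hl1]
        obtain ⟨v, hv1, hv2, hv3⟩ := left_N I hA hu hSX hcol hc hcX (hoL1 bL hbL).1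
          (hoL1 bL hbL).2 hmax (NI_cov_mono I (hSL4 bL hbL) hLS) hz hzS hzX hlt
        obtain ⟨l, hl1, hl2⟩ := hlo2 v hv1 hv3
        have := hzlo l hl1
        omega
      · have h1 : e'.1 = e.1 := hspec.inj _ hz _ hc heq
        rw [h1] at hzX
        exact hzX hcX
      · have hcb : rkP I u.1 A e.1 < rkP I u.1 A b := by
          rcases lt_trichotomy (rkP I u.1 A b) (rkP I u.1 A e.1) with h1 | h1 | h1
          · exfalso
            obtain ⟨m, hm, -⟩ := hspec.interval b e.1 e'.1 hc hz hb1 h1.le hgt.le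
            exact hb2.2.1 (near_anc hcX ⟨m, hm⟩)
          · exfalso
            have h2 : b = e.1 := hspec.inj _ hb2.1 _ hc h1
            exact hb2.2.1 (by rw [h2]; exact hcX)
          · exact h1
        obtain ⟨bR, hbR, hbR2⟩ := hoR2 b hb2 hcb
        have hmin : ∀ b' ∈ FO I X u A, rkP I u.1 A e.1 < rkP I u.1 A b' →
            rkP I u.1 A bR ≤ rkP I u.1 A b' := by
          intro b' h1 h2
          obtain ⟨l, hl1, hl2⟩ := hoR2 b' h1 h2
          rw [hbR, Option.some.injEq] at hl1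
          rwa [hl1]
        obtain ⟨v, hv1, hv2, hv3⟩ := right_N I hA hu hSX hcol hc hcX (hoR1 bR hbR).1
          (hoR1 bR hbR).2 hmin (NI_cov_mono I (hSR4 bR hbR) hRS) hz hzS hzX hgt
        obtain ⟨l, hl1, hl2⟩ := hhi2 v hv1 hv2
        have := hzhi l hl1
        omega

theorem regP_N (g k s : ℕ) : ∃ N : ℕ, ∀ (V : Type u) [Fintype V] (I : Inst g k s V),
    ∃ Rg : Set (V × ℕ) → Set (V × ℕ) → Prop, Dcd N Rg ∧
      ∀ (X : Set (V × ℕ)) (e u : V × ℕ), (∀ x ∈ X, ¬ I.M.inc e x) → ¬ I.E.IsV e.1 → Near I.M X u e.1 →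
        ∃ reg, Rg X reg ∧ e ∈ reg ∧ ∀ e' ∈ reg, ∀ x ∈ X, ¬ I.M.inc e' x := by
  obtain ⟨C, hC⟩ := creepN.{u} g k s
  obtain ⟨N₁, hN₁⟩ := twN_dcd.{u} g k s 2
  obtain ⟨N₂, hN₂⟩ := dcp_dcd.{u} g k s
  refine ⟨bd (bd 1 (N₁ + 1)) (bd (ld 1 (3 * C + 3)) (bd (N₂ + 1) (N₂ + 1))), ?_⟩
  intro V _ I
  have h1 := (Dcd.site (P := V × ℕ)).pair (hN₁ V I).2.option
  have h2 : ∀ z : (V × ℕ) × Option (Set (Fin I.E.n)), _ := fun z =>
    ((((Dcd.site (P := V × ℕ)).set (3 * C + 3)).pair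
      ((hN₂ V I z.1 z.2).option.pair (hN₂ V I z.1 z.2).option)).map
      (fun w : Set (V × ℕ) × Option V × Option V => NIreg I z.1 z.2 w.1 w.2.1 w.2.2))
  refine ⟨_, h1.bind h2, ?_⟩
  intro X e u he heV hcX
  obtain ⟨A, hA, S, hS, lo, hi, hlo, hhi, hr1, hr2⟩ := NI_correct I (hC V I X) he heV hcX
  exact ⟨NIreg I u A S lo hi, ⟨(u, A), ⟨hcX.1, hA⟩, (S, lo, hi), ⟨hS, hlo, hhi⟩, rfl⟩, hr1, hr2⟩

end Pool.Agent.BTV
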