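import Pool.Agent.BTV.ND
import Pool.Agent.BTV.NI
import Pool.Agent.BTD.CGa

/-! BTV NF: the negative certificate for near embedded graphs.

PROOF.  `cert_of_dcd` with `s = false` and `Rg` = the union (`Dcd.or`) of: the regions of `regV_N`, of
`regP_N`, and the component regions `{e' | ci l.1 < ci e'.1 < ci h.1}` with `lo`, `hi : Option` sites of
`X` (`exists_cidx`, `neg_comp` in `Pool/Agent/BTD/CGa.lean`; `Dcd.pair` of `Dcd.option Dcd.site`).
Given `X`, `e` with `¬ inc e x` for all `x ∈ X`.  If `wd x e.1 = ⊤` for all `x ∈ X`: component region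
(members have all `wd = ⊤`, not `≤ e'.2`).  Otherwise `near_exists` gives `u` with `Near X u e.1`; use
`regV_N` or `regP_N`. -/

set_option autoImplicit false

open Classical

namespace Pool.Agent.BTV

open Pool.Agent.BTD Pool.Agent.H81.Balls

universe u

theorem certN (g k s : ℕ) : ∃ N : ℕ, ∀ (V : Type u) [Fintype V] (I : Inst g k s V),
    Cert false N I.M.inc Set.univ Set.univ := by
  obtain ⟨N1, h1⟩ := regV_N.{u} g k s
  obtain ⟨N2, h2⟩ := regP_N.{u} g k s
  refine ⟨N1 + (N2 + bd (1 + 1) (1 + 1)), fun V _ I => ?_⟩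
  obtain ⟨R1, hd1, hR1⟩ := h1 V I
  obtain ⟨R2, hd2, hR2⟩ := h2 V I
  obtain ⟨ci, hci⟩ := exists_cidx I.G
  have hd3 := (((Dcd.site (P := V × ℕ)).option).pair ((Dcd.site (P := V × ℕ)).option)).map
    (fun z : Option (V × ℕ) × Option (V × ℕ) =>
      {e' : V × ℕ | (∀ l, z.1 = some l → ci l.1 < ci e'.1) ∧
        (∀ l, z.2 = some l → ci e'.1 < ci l.1)})
  refine cert_of_dcd false (hd1.or (hd2.or hd3)) ?_
  intro X e he
  have he' : ∀ x ∈ X, ¬ I.M.inc e x := by
    intro x hx h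
    exact Bool.false_ne_true ((he x hx).mp h)
  by_cases hT : ∀ x ∈ X, I.M.wd x e.1 = ⊤
  · obtain ⟨lo, hi, h3, h4, h5, h6, h7⟩ := neg_comp (M := I.M) ci hci hT
    refine ⟨_, Or.inr (Or.inr ⟨(lo, hi), ⟨h3, h4⟩, rfl⟩), ⟨h5, h6⟩, ?_⟩
    rintro e' ⟨h8, h9⟩ x hx
    constructor
    · intro h
      rw [LMet.inc_iff, h7 e'.1 h8 h9 x hx] at h
      exact absurd h (by simp)
    · intro h
      exact absurd h Bool.false_ne_true
  · push Not at hT
    obtain ⟨x, hx, hxt⟩ := hT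
    obtain ⟨u, hu⟩ := near_exists hx hxt
    have key : ∃ reg, (R1 X reg ∨ R2 X reg) ∧ e ∈ reg ∧ ∀ e' ∈ reg, ∀ x ∈ X, ¬ I.M.inc e' x := by
      by_cases hv : I.E.IsV e.1
      · obtain ⟨reg, h3, h4, h5⟩ := hR1 X e u he' hv hu
        exact ⟨reg, Or.inl h3, h4, h5⟩
      · obtain ⟨reg, h3, h4, h5⟩ := hR2 X e u he' hv hu
        exact ⟨reg, Or.inr h3, h4, h5⟩
    obtain ⟨reg, h3, h4, h5⟩ := key
    refine ⟨reg, ?_, h4, ?_⟩
    · rcases h3 with h3 | h3
      · exact Or.inl h3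
      · exact Or.inr (Or.inl h3)
    · intro e' he2 x' hx'
      constructor
      · intro h
        exact absurd h (h5 e' he2 x' hx')
      · intro h
        exact absurd h Bool.false_ne_true

end Pool.Agent.BTV
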