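import Pool.Agent.BTV.PV
import Pool.Agent.BTV.NF

/-! BTV FAa: certificates for path metrics with arbitrary symmetric positive lengths.

PROOF of `certP_sym`.  `c := Fintype.card (Sym2 V)`, `ι : Sym2 V ≃ Fin c`, `Λ := 2 ^ c`,
`J.ln e := Λ * l0 e + 2 ^ (ι e)`.  `SI`: `∑_S ln = Λ ∑_S l0 + ∑_{e ∈ S} 2 ^ ι e`, the second sum is `< Λ`
(sum over distinct exponents `< c`); reduce mod `Λ`; binary representations are unique (for example
`Nat.bitIndices`/`Finset.sum_two_pow`-type lemma, or induction; Mathlib: `Finset.geomSum_injective` with base 2,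
`Nat.geomSum_lt`).
`M := pathMet G l0`, `M~ := J.inst.M` (same graph).  (1) `M~.D v q ≠ ⊤ ↔ M.D v q ≠ ⊤`
(`LMet.ne_top_iff`).  (2) `Λ * D v q ≤ D~ v q` (every walk: length~ `≥ Λ *` length; or by `LMet.par`
induction along the `M~`-leg).  (3) `D~ v q ≤ Λ * D v q + (Λ - 1)` if finite: the `M`-leg of `v` is a walk
without repeated edges (`D` strictly decreases), its length~ is `Λ * D + ∑ 2 ^ ι e` over distinct edges.
(Or: take an `M`-shortest walk which is a path, `toPath`; a path has distinct edges.)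
(4) `M.inc (c, ρ) (q, o) ↔ M~.inc (c, Λ * ρ + (Λ - 1)) (q, Λ * o)`.
`Cert.pullback` with total maps, `Cert.congr`; `N' = N + 1`.
`cert_any`: `certN` for `false` (instance with this metric), `certP_sym` for `true`, `Cert.mono`. -/

set_option autoImplicit false

open Classical

namespace Pool.Agent.BTV

open Pool.Agent.BTD Pool.Agent.H81.Balls

universe u

private lemma fa_wlen {V : Type u} {G : SimpleGraph V} (L : Sym2 V → ℕ) : ∀ {a b : V} (p : G.Walk a b),
    wlen (fun a b => ((L s(a, b) : ℕ) : ℕ∞)) p = (((p.edges.map L).sum : ℕ) : ℕ∞)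
  | _, _, .nil => by simp [wlen]
  | _, _, .cons h p => by
    rw [wlen, fa_wlen L p, SimpleGraph.Walk.edges_cons, List.map_cons, List.sum_cons, Nat.cast_add]

private lemma fa_path {V : Type u} {G : SimpleGraph V} (M : LMet G) (q : V) : ∀ (n : ℕ) (v : V),
    M.D v q = n → ∃ p : G.Walk v q, p.IsPath ∧ wlen (fun a b => (M.len a b : ℕ∞)) p = n ∧
      ∀ u ∈ p.support, M.D u q ≤ n := by
  intro n
  induction n using Nat.strong_induction_on with
  | _ n ih =>
    intro v hv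
    by_cases hvq : v = q
    · subst hvq
      rw [M.D_self] at hv
      refine ⟨.nil, by simp, by simpa [wlen] using hv, ?_⟩
      intro u hu
      simp only [SimpleGraph.Walk.support_nil, List.mem_singleton] at hu
      subst hu
      rw [M.D_self]
      exact bot_le
    · obtain ⟨w, hw, hD⟩ := M.D_par v q hvq (by rw [hv]; exact ENat.natCast_ne_top _)
      have hl := M.len_pos v w hw
      have hfin : M.D w q ≠ ⊤ := by
        intro h
        rw [h, hv] at hD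
        simp at hD
      obtain ⟨m, hm⟩ := ENat.ne_top_iff_exists.mp hfin
      rw [← hm, hv] at hD
      have hnm : n = M.len v w + m := by exact_mod_cast hD
      obtain ⟨p, hp, hpl, hps⟩ := ih m (by omega) w hm.symm
      have hmn : (m : ℕ∞) < n := by exact_mod_cast (show m < n by omega)
      refine ⟨.cons hw p, ?_, ?_, ?_⟩
      · rw [SimpleGraph.Walk.cons_isPath_iff]
        refine ⟨hp, fun h => ?_⟩
        have := hps v h
        rw [hv] at this
        exact absurd this (not_le.mpr hmn)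
      · rw [wlen, hpl, hnm, Nat.cast_add]
      · intro u hu
        rw [SimpleGraph.Walk.support_cons, List.mem_cons] at hu
        rcases hu with rfl | hu
        · exact hv.le
        · exact (hps u hu).trans hmn.le

private lemma fa_lt {α : Type*} {c : ℕ} (ι : α ≃ Fin c) (S : Finset α) :
    ∑ e ∈ S, 2 ^ (ι e : ℕ) < 2 ^ c := by
  have h : ∑ e ∈ S, 2 ^ (ι e : ℕ) = ∑ i ∈ S.map (ι.toEmbedding.trans Fin.valEmbedding), 2 ^ i := by
    rw [Finset.sum_map]
    rfl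
  rw [h]
  refine Nat.geomSum_lt le_rfl ?_
  intro k hk
  rw [Finset.mem_map] at hk
  obtain ⟨e, -, rfl⟩ := hk
  exact (ι e).isLt

private lemma fa_inj {α : Type*} {c : ℕ} (ι : α ≃ Fin c) (S T : Finset α)
    (h : ∑ e ∈ S, 2 ^ (ι e : ℕ) = ∑ e ∈ T, 2 ^ (ι e : ℕ)) : S = T := by
  have h1 : ∀ S : Finset α, ∑ e ∈ S, 2 ^ (ι e : ℕ) =
      ∑ i ∈ S.map (ι.toEmbedding.trans Fin.valEmbedding), 2 ^ i := by
    intro S
    rw [Finset.sum_map]
    rfl
  rw [h1, h1] at h
  exact Finset.map_injective _ (Finset.geomSum_injective le_rfl h)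

private lemma fa_SI {α : Type*} {c : ℕ} (ι : α ≃ Fin c) (l0 : α → ℕ) (S T : Finset α)
    (h : ∑ e ∈ S, (2 ^ c * l0 e + 2 ^ (ι e : ℕ)) = ∑ e ∈ T, (2 ^ c * l0 e + 2 ^ (ι e : ℕ))) :
    S = T := by
  rw [Finset.sum_add_distrib, Finset.sum_add_distrib, ← Finset.mul_sum, ← Finset.mul_sum] at h
  have h1 := fa_lt ι S
  have h2 := fa_lt ι T
  refine fa_inj ι S T ?_
  have h3 := congrArg (· % 2 ^ c) h
  simp only [Nat.mul_add_mod] at h3
  rwa [Nat.mod_eq_of_lt h1, Nat.mod_eq_of_lt h2] at h3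

private lemma fa_sum {V : Type u} {c : ℕ} (ι : Sym2 V ≃ Fin c) (l0 : Sym2 V → ℕ) (l : List (Sym2 V)) :
    (l.map (fun e => 2 ^ c * l0 e + 2 ^ (ι e : ℕ))).sum =
      2 ^ c * (l.map l0).sum + (l.map (fun e => 2 ^ (ι e : ℕ))).sum := by
  rw [List.sum_map_add, List.sum_map_mul_left]

theorem certP_sym (g k s : ℕ) : ∃ N : ℕ, ∀ (V : Type u) [Fintype V] (G : SimpleGraph V) (E : NE V)
    (_ : E.Fits G) (_ : E.Emb g) (_ : ∀ p, (E.X p).ncard ≤ k) (_ : ∀ p, E.disc p < s)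
    (l0 : Sym2 V → ℕ) (hpos : ∀ v w, G.Adj v w → 0 < l0 s(v, w)),
    Cert true N (pathMet G (fun a b => l0 s(a, b)) hpos).inc Set.univ Set.univ := by
  obtain ⟨N, hN⟩ := certP.{u} g k s
  refine ⟨N + 1, ?_⟩
  intro V _ G E hfit A hbag hdisc l0 hpos
  set c := Fintype.card (Sym2 V) with hc
  set ι : Sym2 V ≃ Fin c := Fintype.equivFin (Sym2 V) with hι
  let ln : Sym2 V → ℕ := fun e => 2 ^ c * l0 e + 2 ^ (ι e : ℕ)
  let J : LInst g k s V := ⟨G, E, hfit, A, hbag, hdisc, ln, fa_SI ι l0⟩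
  set M := pathMet G (fun a b => l0 s(a, b)) hpos with hM
  have ha : ∀ v q : V, ((2 ^ c : ℕ) : ℕ∞) * M.D v q ≤ J.inst.M.D v q := by
    intro v q
    refine le_iInf fun p => ?_
    have h1 : M.D v q ≤ wlen (fun a b => ((l0 s(a, b) : ℕ) : ℕ∞)) p :=
      iInf_le (fun p : G.Walk v q => wlen (fun a b => ((l0 s(a, b) : ℕ) : ℕ∞)) p) p
    have h2 : wlen (fun a b => ((ln s(a, b) : ℕ) : ℕ∞)) p = _ := fa_wlen ln p
    rw [fa_wlen l0 p] at h1
    refine le_trans (mul_le_mul_right h1 _) ?_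
    refine le_of_le_of_eq ?_ h2.symm
    have h3 := fa_sum ι l0 p.edges
    have h4 : 2 ^ c * (p.edges.map l0).sum ≤ (p.edges.map ln).sum := by
      rw [show (p.edges.map ln).sum = _ from h3]
      exact Nat.le_add_right _ _
    exact_mod_cast h4
  have hb : ∀ (v q : V) (n : ℕ), M.D v q = n →
      J.inst.M.D v q ≤ ((2 ^ c * n + (2 ^ c - 1) : ℕ) : ℕ∞) := by
    intro v q n hn
    obtain ⟨p, hp, hpl, -⟩ := fa_path M q n v hn
    have h1 : J.inst.M.D v q ≤ wlen (fun a b => ((ln s(a, b) : ℕ) : ℕ∞)) p :=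
      iInf_le (fun p : G.Walk v q => wlen (fun a b => ((ln s(a, b) : ℕ) : ℕ∞)) p) p
    refine h1.trans ?_
    rw [fa_wlen ln p]
    have h2 : (p.edges.map l0).sum = n := by
      have h3 := fa_wlen l0 p
      have h4 : wlen (fun a b => ((l0 s(a, b) : ℕ) : ℕ∞)) p = n := hpl
      rw [h4] at h3
      exact_mod_cast h3.symm
    have h3 := fa_sum ι l0 p.edges
    have h4 : (p.edges.map (fun e => 2 ^ (ι e : ℕ))).sum < 2 ^ c := by
      have h5 := List.sum_toFinset (fun e => 2 ^ (ι e : ℕ)) hp.isTrail.edges_nodup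
      rw [← h5]
      exact fa_lt ι _
    have h6 : (p.edges.map ln).sum ≤ 2 ^ c * n + (2 ^ c - 1) := by
      rw [show (p.edges.map ln).sum = _ from h3, h2]
      omega
    exact_mod_cast h6
  refine ((hN V J).pullback (fun e : V × ℕ => some (e.1, 2 ^ c * e.2 + (2 ^ c - 1)))
    (fun x : V × ℕ => some (x.1, 2 ^ c * x.2))).congr ?_
  rintro ⟨v, ρ⟩ - ⟨q, o⟩ -
  have hpow : 0 < 2 ^ c := by positivity
  constructor
  · rintro ⟨e', x', h1, h2, h3⟩
    simp only [Option.some.injEq] at h1 h2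
    subst h1 h2
    change J.inst.M.D v q + ((2 ^ c * o : ℕ) : ℕ∞) ≤ ((2 ^ c * ρ + (2 ^ c - 1) : ℕ) : ℕ∞) at h3
    change M.D v q + (o : ℕ∞) ≤ (ρ : ℕ∞)
    have h4 : M.D v q ≠ ⊤ := by
      intro ht
      have h5 := ha v q
      rw [ht, ENat.mul_top (by exact_mod_cast hpow.ne')] at h5
      rw [top_le_iff.mp h5, top_add, top_le_iff] at h3
      exact ENat.natCast_ne_top _ h3
    obtain ⟨n, hn⟩ := ENat.ne_top_iff_exists.mp h4
    have h5 := ha v q
    rw [← hn] at h5 ⊢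
    have h6 := (add_le_add_left h5 ((2 ^ c * o : ℕ) : ℕ∞)).trans h3
    have h7 : 2 ^ c * n + 2 ^ c * o ≤ 2 ^ c * ρ + (2 ^ c - 1) := by exact_mod_cast h6
    have h8 : 2 ^ c * (n + o) < 2 ^ c * (ρ + 1) := by
      rw [mul_add, mul_add, mul_one]
      omega
    have h9 := Nat.lt_of_mul_lt_mul_left h8
    exact_mod_cast Nat.lt_succ_iff.mp h9
  · intro h
    change M.D v q + (o : ℕ∞) ≤ (ρ : ℕ∞) at h
    refine ⟨_, _, rfl, rfl, ?_⟩
    change J.inst.M.D v q + ((2 ^ c * o : ℕ) : ℕ∞) ≤ ((2 ^ c * ρ + (2 ^ c - 1) : ℕ) : ℕ∞)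
    have h4 : M.D v q ≠ ⊤ := by
      intro ht
      rw [ht] at h
      simp at h
    obtain ⟨n, hn⟩ := ENat.ne_top_iff_exists.mp h4
    rw [← hn] at h
    have h5 : n + o ≤ ρ := by exact_mod_cast h
    have h6 := hb v q n hn.symm
    refine (add_le_add_left h6 _).trans ?_
    have h7 : 2 ^ c * (n + o) ≤ 2 ^ c * ρ := Nat.mul_le_mul_left _ h5
    have h8 : 2 ^ c * n + (2 ^ c - 1) + 2 ^ c * o ≤ 2 ^ c * ρ + (2 ^ c - 1) := by
      rw [mul_add] at h7
      omega
    exact_mod_cast h8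

theorem cert_any (g k s : ℕ) : ∃ N : ℕ, ∀ (σ : Bool) (V : Type u) [Fintype V] (G : SimpleGraph V)
    (E : NE V) (_ : E.Fits G) (_ : E.Emb g) (_ : ∀ p, (E.X p).ncard ≤ k) (_ : ∀ p, E.disc p < s)
    (l0 : Sym2 V → ℕ) (hpos : ∀ v w, G.Adj v w → 0 < l0 s(v, w)),
    Cert σ N (pathMet G (fun a b => l0 s(a, b)) hpos).inc Set.univ Set.univ := by
  obtain ⟨N1, h1⟩ := certN.{u} g k s
  obtain ⟨N2, h2⟩ := certP_sym.{u} g k s
  refine ⟨N1 + N2, ?_⟩
  intro σ V _ G E hfit A hbag hdisc l0 hpos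
  cases σ
  · exact (h1 V ⟨G, pathMet G (fun a b => l0 s(a, b)) hpos, E, hfit, A, hbag, hdisc⟩).mono
      (Nat.le_add_right _ _)
  · exact (h2 V G E hfit A hbag hdisc l0 hpos).mono (Nat.le_add_left _ _)

end Pool.Agent.BTV
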