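import Pool.Agent.BTV.FAa
import Pool.Agent.BTD.T8

/-! BTV FAb: schemes from near embedded torsos (normal form).

`D_ext`: two metrics on the same graph with the same lengths on edges have the same distances:
`M₁.D v x ≤ M₂.D v x`: induction on `(M₂.D v x).toNat` (finite case): `v = x`: `D_self`; otherwise
`M₂.D_par` gives `w` with `M₂.D v x = len v w + M₂.D w x` (`len > 0`), `M₁.D_le`.
`scheme_of_torsos'`: copy `scheme_of_torsos` (`Pool/Agent/BTD/T8.lean`) where `hcore` is only required for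
`M := pathMet ((D.torso s).induce (D.bag s \ A)) (fun a b => tlen G a.1 b.1) _`: its distances agree with
`distMetSub` (`D_ext`), so `inc` agrees.
`scheme_of_near`: `cert_any` with `l0 := Sym2.lift ⟨fun a b => tlen G a.1 b.1, _⟩` (`tlen` is symmetric by
`SimpleGraph.edist_comm`). -/

set_option autoImplicit false

open Classical

namespace Pool.Agent.BTV

open Pool.Agent.BTD Pool.Agent.H81.Balls

universe u v

private lemma fab_D_le {V : Type u} {G : SimpleGraph V} (M₁ M₂ : LMet G)
    (h : ∀ v w, G.Adj v w → M₁.len v w = M₂.len v w) (x : V) :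
    ∀ (m : ℕ) (v : V), M₂.D v x = (m : ℕ∞) → M₁.D v x ≤ (m : ℕ∞) := by
  intro m
  induction m using Nat.strong_induction_on with
  | _ m ih =>
    intro v hv
    by_cases hvx : v = x
    · subst hvx
      rw [M₁.D_self]
      exact bot_le
    · obtain ⟨w, hw, hd⟩ := M₂.D_par v x hvx (by rw [hv]; exact ENat.natCast_ne_top m)
      rw [hv] at hd
      have hne : M₂.D w x ≠ ⊤ := by
        intro h0
        rw [h0, add_top] at hd
        exact ENat.natCast_ne_top m hd
      obtain ⟨m', hm'⟩ := ENat.ne_top_iff_exists.mp hne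
      rw [← hm'] at hd
      have hd' : m = M₂.len v w + m' := by exact_mod_cast hd
      have hpos := M₂.len_pos v w hw
      have h1 := ih m' (by omega) w hm'.symm
      calc M₁.D v x ≤ M₁.len v w + M₁.D w x := M₁.D_le v w x hw
        _ ≤ M₁.len v w + (m' : ℕ∞) := add_le_add le_rfl h1
        _ = (m : ℕ∞) := by rw [h v w hw, hd']; push_cast; rfl

lemma D_ext {V : Type u} {G : SimpleGraph V} (M₁ M₂ : LMet G)
    (h : ∀ v w, G.Adj v w → M₁.len v w = M₂.len v w) (v x : V) : M₁.D v x = M₂.D v x := by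
  apply le_antisymm
  · by_cases h2 : M₂.D v x = ⊤
    · rw [h2]; exact le_top
    · obtain ⟨m, hm⟩ := ENat.ne_top_iff_exists.mp h2
      rw [← hm]
      exact fab_D_le M₁ M₂ h x m v hm.symm
  · by_cases h2 : M₁.D v x = ⊤
    · rw [h2]; exact le_top
    · obtain ⟨m, hm⟩ := ENat.ne_top_iff_exists.mp h2
      rw [← hm]
      exact fab_D_le M₂ M₁ (fun a b hab => (h a b hab).symm) x m v hm.symm

/-- From certificates of one metric on the torsos minus few vertices to proper schemes. -/
private theorem fab_scheme {V : Type u} {ι : Type v} {G : SimpleGraph V} {T : SimpleGraph ι}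
    [Finite V] [Finite ι] (D : TreeDecomp G T) {k N : ℕ}
    (hadh : ∀ s t, T.Adj s t → (D.bag s ∩ D.bag t).ncard ≤ k)
    (hcore : ∀ s : ι, ∃ A : Set V, A.ncard ≤ k ∧ ∃ M : LMet ((D.torso s).induce (D.bag s \ A)),
      (∀ a b, M.len a b = tlen G a.1 b.1) ∧ ∀ σ : Bool, Cert σ N M.inc Set.univ Set.univ) :
    HasProperScheme (balls G) (finN k N) := by
  obtain ⟨r⟩ : Nonempty ι := D.isTree.connected.nonempty
  set R := rtree D.isTree r with hR
  set E := D.rooted r with hE
  have key : ∀ σ : Bool, Cert σ (5 + regN k (N + 1) + 5 * regN k (N + 1)) (binc G)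
      Set.univ Set.univ := by
    intro σ
    apply cert_tree E σ
    · intro a ha
      have h1 : T.Adj a (R.par a) := (rtree_adj_iff D.isTree r).mpr (Or.inr ⟨ha, rfl⟩)
      exact hadh _ _ h1
    · intro s
      obtain ⟨A, hA, hex⟩ := hcore s
      set W : Set V := D.bag s \ A with hW
      obtain ⟨M0, hlen, hc⟩ := hex
      let H : SimpleGraph V :=
        { Adj := fun u v => (D.torso s).Adj u v ∧ u ∈ W ∧ v ∈ W
          symm := ⟨fun u v h => ⟨h.1.symm, h.2.2, h.2.1⟩⟩
          loopless := ⟨fun u h => h.1.ne rfl⟩ }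
      refine ⟨A, H, hA, ?_, ?_⟩
      · intro u v
        show ((D.torso s).Adj u v ∧ u ∈ W ∧ v ∈ W) ↔ _
        have h2 : (∃ t, E.Nbr s t ∧ u ∈ E.bag t ∧ v ∈ E.bag t) ↔
            ∃ t, T.Adj s t ∧ u ∈ D.bag t ∧ v ∈ D.bag t := by
          constructor
          · rintro ⟨t, h3, h4⟩
            exact ⟨t, (rtree_adj_iff D.isTree r).mpr h3, h4⟩
          · rintro ⟨t, h3, h4⟩
            exact ⟨t, (rtree_adj_iff D.isTree r).mp h3, h4⟩
        rw [h2]
        constructor
        · rintro ⟨⟨h3, h4, h5⟩, h6, h7⟩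
          exact ⟨h3, h4, ⟨h6.2, h7.2⟩, h5⟩
        · rintro ⟨h3, h4, h5, h6⟩
          exact ⟨⟨h3, h4, h6⟩, ⟨h4.1, h5.1⟩, ⟨h4.2, h5.2⟩⟩
      · set M : LMet ((D.torso s).induce W) := distMetSub G H W ((D.torso s).induce W)
          (fun u v => by
            show (D.torso s).Adj u.1 v.1 ↔ ((D.torso s).Adj u.1 v.1 ∧ u.1 ∈ W ∧ v.1 ∈ W)
            exact ⟨fun h => ⟨h, u.2, v.2⟩, fun h => h.1⟩)
          (fun u v h => h.2) with hM
        have hcM : Cert σ N M.inc Set.univ Set.univ := by
          refine (hc σ).congr ?_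
          intro e _ x _
          show M0.D e.1 x.1 + x.2 ≤ e.2 ↔ M.D e.1 x.1 + x.2 ≤ e.2
          rw [D_ext M0 M (fun a b _ => hlen a b)]
        have h3 := hcM.pullback
          (fun e : V × ℕ => if h : e.1 ∈ W then some ((⟨e.1, h⟩ : W), e.2) else none)
          (fun e : V × ℕ => if h : e.1 ∈ W then some ((⟨e.1, h⟩ : W), e.2) else none)
        refine h3.congr ?_
        rintro ⟨w, ρ⟩ _ ⟨q, o⟩ _
        simp only
        constructor
        · rintro ⟨e', x', h4, h5, h6⟩
          split_ifs at h4 with h7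
          split_ifs at h5 with h8
          cases h4; cases h5
          exact ⟨⟨h7.1, h7.2⟩, ⟨h8.1, h8.2⟩, h6⟩
        · rintro ⟨h4, h5, h6⟩
          exact ⟨_, _, dif_pos (show w ∈ W from h4), dif_pos (show q ∈ W from h5), h6⟩
  exact scheme_of_cert G (key true) (key false)

private lemma fab_tlen_comm {V : Type u} (G : SimpleGraph V) (a b : V) : tlen G a b = tlen G b a := by
  unfold tlen
  rw [SimpleGraph.edist_comm]

/-- Balls in graphs with tree decompositions of bounded adhesion whose torsos, after the removal of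
boundedly many vertices, have near embeddings in the normal form. -/
theorem scheme_of_near (k a g s : ℕ) : ∃ N : ℕ, ∀ (V : Type u) [Fintype V] (G : SimpleGraph V)
    (ι : Type v) [Finite ι] (T : SimpleGraph ι) (D : TreeDecomp G T),
    (∀ s t, T.Adj s t → (D.bag s ∩ D.bag t).ncard ≤ a) →
    (∀ t, ∃ A : Set V, A.ncard ≤ a ∧ ∃ (E : NE ↑(D.bag t \ A)) (_ : E.Emb g),
      E.Fits ((D.torso t).induce (D.bag t \ A)) ∧ (∀ p, (E.X p).ncard ≤ k) ∧ ∀ p, E.disc p < s) →
    HasProperScheme (balls G) N := by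
  obtain ⟨N, hN⟩ := cert_any.{u} g k s
  refine ⟨finN a N, fun V _ G ι _ T D hadh hcore => fab_scheme D hadh ?_⟩
  intro t
  obtain ⟨A, hA, E, hE, hfit, hX, hdisc⟩ := hcore t
  have hft : Fintype ↑(D.bag t \ A) := Fintype.ofFinite _
  let l0 : Sym2 ↑(D.bag t \ A) → ℕ := Sym2.lift ⟨fun a b => tlen G a.1 b.1,
    fun a b => fab_tlen_comm G a.1 b.1⟩
  have hl0 : ∀ a b, l0 s(a, b) = tlen G a.1 b.1 := fun a b => rfl
  have hpos : ∀ v w, ((D.torso t).induce (D.bag t \ A)).Adj v w → 0 < l0 s(v, w) := by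
    intro v w hvw
    have hne : v.1 ≠ w.1 := fun h => hvw.ne (Subtype.ext h)
    exact (distMet G (⊤ : SimpleGraph V)).len_pos v.1 w.1 hne
  exact ⟨A, hA, pathMet _ (fun a b => l0 s(a, b)) hpos, fun a b => rfl,
    fun σ => hN σ _ _ E hfit hE hX hdisc l0 hpos⟩

end Pool.Agent.BTV
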