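import Pool.Agent.BTV.LB

/-! BTV LC: cells.

`Hull` is symmetric in its two ends, `Hull p q p`, `Hull p q q`; positions of `Fin n` are
linearly ordered; use `omega`-style case analysis on values (`Fin.le_def`).
`cell_itv`: `q₁ ≤ q ≤ q₂` in the cell, `Hull p q d`: if `p ≤ q` then `Hull p q₂ d`, if `q ≤ p` then
`Hull p q₁ d` (take care of the disjunct `q = p`); discs by `disc_mono`.
`cell_eq`: for `q ∈ cell D p`, `q ≠ p`: `Hull q r d → Hull p q d ∨ Hull p r d` and conversely.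
`itv_bt`: a position strictly between is in the hull. -/

set_option autoImplicit false

open Classical

namespace Pool.Agent.BTV

open Pool.Agent.BTD Pool.Agent.H81.Balls

universe u

variable {V : Type u} {E : NE V}

lemma LC_hull_symm {a b d : Fin E.n} (h : E.Hull a b d) : E.Hull b a d := by
  rcases h with h | h
  · exact Or.inr h
  · exact Or.inl h

lemma LC_hull_left (a b : Fin E.n) : E.Hull a b a := by
  rcases le_total a b with h | h
  · exact Or.inl ⟨le_refl a, h⟩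
  · exact Or.inr ⟨h, le_refl a⟩

lemma LC_hull_tri {a b c d : Fin E.n} (h : E.Hull a c d) : E.Hull a b d ∨ E.Hull b c d := by
  rcases h with ⟨h1, h2⟩ | ⟨h1, h2⟩
  · rcases le_total d b with h | h
    · exact Or.inl (Or.inl ⟨h1, h⟩)
    · exact Or.inr (Or.inl ⟨h, h2⟩)
  · rcases le_total d b with h | h
    · exact Or.inr (Or.inr ⟨h1, h⟩)
    · exact Or.inl (Or.inr ⟨h, h2⟩)

lemma LC_cell_disc {D : Set (Fin E.n)} {p q : Fin E.n} (h : q ∈ E.cell D p) : E.disc q = E.disc p := by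
  rcases h with h | h
  · rw [h]
  · exact h.1

lemma LC_cell_symm {D : Set (Fin E.n)} {p q : Fin E.n} (h : q ∈ E.cell D p) : p ∈ E.cell D q := by
  rcases h with h | ⟨h1, h2⟩
  · exact Or.inl h.symm
  · exact Or.inr ⟨h1.symm, fun d hd hh => h2 d hd (LC_hull_symm hh)⟩

lemma LC_cell_trans {D : Set (Fin E.n)} {p q r : Fin E.n} (h : q ∈ E.cell D p) (h' : r ∈ E.cell D q) :
    r ∈ E.cell D p := by
  rcases h with h | ⟨h1, h2⟩
  · rw [← h]; exact h'
  · rcases h' with h' | ⟨h3, h4⟩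
    · rw [h']; exact Or.inr ⟨h1, h2⟩
    · refine Or.inr ⟨h3.trans h1, fun d hd hh => ?_⟩
      rcases LC_hull_tri (b := q) hh with h | h
      · exact h2 d hd h
      · exact h4 d hd h

lemma cell_self {D : Set (Fin E.n)} {p : Fin E.n} : p ∈ E.cell D p := Or.inl rfl

lemma cell_itv (D : Set (Fin E.n)) (p : Fin E.n) : E.Itv (E.cell D p) := by
  refine ⟨fun a ha b hb => (LC_cell_disc ha).trans (LC_cell_disc hb).symm, ?_⟩
  intro q1 q q2 h1 h2 h3 h4
  by_cases hqp : q = p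
  · exact Or.inl hqp
  have hd : E.disc q = E.disc p := by
    have e1 := LC_cell_disc h1
    have e2 := LC_cell_disc h2
    have e3 := E.disc_mono _ _ h3
    have e4 := E.disc_mono _ _ h4
    omega
  refine Or.inr ⟨hd, fun d hdD hh => ?_⟩
  rcases lt_or_gt_of_ne hqp with hlt | hgt
  · -- q < p
    rcases hh with ⟨a1, a2⟩ | ⟨a1, a2⟩
    · exact absurd (lt_of_lt_of_le hlt (a1.trans a2)) (lt_irrefl _)
    · rcases h1 with h1 | h1
      · rw [h1] at h3
        exact absurd (lt_of_lt_of_le hlt h3) (lt_irrefl _)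
      · exact h1.2 d hdD (Or.inr ⟨h3.trans a1, a2⟩)
  · rcases hh with ⟨a1, a2⟩ | ⟨a1, a2⟩
    · rcases h2 with h2 | h2
      · rw [h2] at h4
        exact absurd (lt_of_lt_of_le hgt h4) (lt_irrefl _)
      · exact h2.2 d hdD (Or.inl ⟨a1, a2.trans h4⟩)
    · exact absurd (lt_of_lt_of_le hgt (a1.trans a2)) (lt_irrefl _)

lemma cell_eq {D : Set (Fin E.n)} {p q : Fin E.n} (h : q ∈ E.cell D p) : E.cell D q = E.cell D p := by
  ext r
  exact ⟨fun hr => LC_cell_trans h hr, fun hr => LC_cell_trans (LC_cell_symm h) hr⟩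

lemma cell_mono {D D' : Set (Fin E.n)} (h : D ⊆ D') (p : Fin E.n) : E.cell D' p ⊆ E.cell D p := by
  rintro q (hq | ⟨h1, h2⟩)
  · exact Or.inl hq
  · exact Or.inr ⟨h1, fun d hd => h2 d (h hd)⟩

lemma cell_disj {D : Set (Fin E.n)} {p q : Fin E.n} (h : q ∉ E.cell D p) :
    Disjoint (E.cell D p) (E.cell D q) := by
  rw [Set.disjoint_left]
  intro r h1 h2
  exact h (LC_cell_trans h1 (LC_cell_symm h2))

lemma cell_sing {D : Set (Fin E.n)} {p : Fin E.n} (h : p ∈ D) : E.cell D p = {p} := by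
  ext q
  constructor
  · rintro (hq | ⟨_, h2⟩)
    · exact hq
    · exact absurd (LC_hull_left p q) (h2 p h)
  · intro hq
    exact Or.inl hq

lemma cell_not_mem {D : Set (Fin E.n)} {p q : Fin E.n} (h : p ∉ D) (hq : q ∈ E.cell D p) : q ∉ D := by
  intro hqD
  rcases hq with hq | ⟨_, h2⟩
  · exact h (hq ▸ hqD)
  · exact h2 q hqD (LC_hull_symm (LC_hull_left q p))

lemma itv_hull {α : Set (Fin E.n)} (h : E.Itv α) {a b c : Fin E.n} (ha : a ∈ α) (hb : b ∈ α)
    (hc : E.Hull a b c) : c ∈ α := by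
  rcases hc with ⟨h1, h2⟩ | ⟨h1, h2⟩
  · exact h.2 a c b ha hb h1 h2
  · exact h.2 b c a hb ha h1 h2

lemma itv_bt {α : Set (Fin E.n)} (h : E.Itv α) {a b c : Fin E.n} (ha : a ∈ α) (hb : b ∈ α)
    (hc : E.Bt a b c) : c ∈ α := by
  refine itv_hull h ha hb ?_
  rcases hc with ⟨h1, h2⟩ | ⟨h1, h2⟩
  · exact Or.inl ⟨h1.le, h2.le⟩
  · exact Or.inr ⟨h1.le, h2.le⟩

end Pool.Agent.BTV
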