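import Pool.Agent.BTV.RTb
import Pool.Agent.BTV.LC

/-! BTV QCa: cliques of a near embedded graph are bounded.

PROOF of `clique_H`.  `Q` nonempty, `q₀ ∈ Q`.  `RT` on `E.Ga`: `comp := inl '' Q`, root `inl q₀`, `p v := inl q₀`,
`mu := 0` at the root, `1` elsewhere.  `rk` from `treeOrd A.S A.genus`.  Let `l` be the list of the
elements of `inl '' (Q \ {q₀})` sorted by `rk` (injective), `N₀ := {inl q₀}`, `V₁` := the members with even
index in `l`, `V₂` := those with odd index; both are `Conn` (complete graphs, one step to a centre, or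
empty).  The list alternates, so `l.length ≤ 2 g + 3`, `Q.ncard ≤ 2 g + 4`.
PROOF of `clique_bound`.  `Q = {planar} ∪ ⋃_{i < s} Q_i`, `Q_i := {v ∈ Q | v = w p, disc p = i}`.
Two distinct elements of `Q` are `K`-adjacent, so `H`-adjacent or in a common bag (`Fits`); bag elements are
vortex vertices of one disc (`X_sub`, `w_inj`).  Planar part: pairwise `H`-adjacent, `≤ 2 g + 4`.
`Q_i`: claim: every finite set `R ⊆ Q_i` has a subset `R'` whose elements are pairwise in no common bag,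
with `R.ncard ≤ k * R'.ncard`: induction on `R.ncard`: choose `v₁ ∈ R` for which the last position `e₁`
with `v₁ ∈ X e₁` is smallest; every `v ∈ R` in a common bag with `v₁` (a bag `X p`, `p ≤ e₁`) has a last
position `≥ e₁`, so `v ∈ X e₁` (`X_int`); there are at most `k` such `v` (including `v₁`); remove
them, apply the induction hypothesis to the rest and add `v₁`.  `R'` is pairwise `H`-adjacent:
`R'.ncard ≤ 2 g + 4`.  Total `≤ (2 g + 4) * (1 + s * k)`. -/

set_option autoImplicit false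

open Classical

namespace Pool.Agent.BTV

open Pool.Agent.BTD Pool.Agent.H81.Balls

universe u

/-- a sorted list of a finite set -/
lemma QC_list {W : Type u} (R : Set W) (hR : R.Finite) (rk : W → ℕ)
    (hinj : ∀ v ∈ R, ∀ w ∈ R, rk v = rk w → v = w) :
    ∃ l : List W, l.Pairwise (fun a b => rk a < rk b) ∧ (∀ x, x ∈ l ↔ x ∈ R) ∧
      l.length = R.ncard := by
  induction hn : R.ncard generalizing R with
  | zero =>
    have : R = ∅ := (Set.ncard_eq_zero hR).1 hn
    subst this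
    exact ⟨[], by simp, by simp, rfl⟩
  | succ n ih =>
    have hne : R.Nonempty := by
      rw [Set.nonempty_iff_ne_empty]
      rintro rfl
      simp at hn
    obtain ⟨x, hx, hmin⟩ := Set.exists_min_image R rk hR hne
    obtain ⟨l, h1, h2, h3⟩ := ih (R \ {x}) hR.sdiff
      (fun v hv w hw h => hinj v hv.1 w hw.1 h) (by
        have := Set.ncard_sdiff_singleton_add_one hx hR
        omega)
    refine ⟨x :: l, List.pairwise_cons.2 ⟨fun y hy => ?_, h1⟩, fun y => ?_, by simp [h3]⟩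
    · have hy' := (h2 y).1 hy
      rcases lt_or_eq_of_le (hmin y hy'.1) with h | h
      · exact h
      · exact absurd (hinj x hx y hy'.1 h).symm hy'.2
    · rw [List.mem_cons, h2]
      constructor
      · rintro (rfl | h)
        · exact hx
        · exact h.1
      · intro h
        by_cases hyx : y = x
        · exact Or.inl hyx
        · exact Or.inr ⟨h, hyx⟩

lemma QC_conn {V : Type u} {E : NE V} {Q : Set V}
    (hQ : ∀ u ∈ Q, ∀ v ∈ Q, u ≠ v → E.H.Adj u v) (U : Set (V ⊕ Fin E.n)) (q₀ : V)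
    (hU : ∀ x ∈ U, ∃ u ∈ Q, x = .inl u) : Conn E.Ga U := by
  rcases Set.eq_empty_or_nonempty U with h | ⟨c, hc⟩
  · exact ⟨.inl q₀, fun v hv => by rw [h] at hv; exact absurd hv (Set.notMem_empty _)⟩
  · refine ⟨c, fun v hv => ?_⟩
    by_cases hvc : v = c
    · rw [hvc]
    · obtain ⟨a, ha, rfl⟩ := hU v hv
      obtain ⟨b, hb, rfl⟩ := hU c hc
      have hab : a ≠ b := fun h => hvc (by rw [h])
      exact Relation.ReflTransGen.single ⟨hQ a ha b hb hab, hc⟩

theorem clique_H {V : Type u} [Fintype V] {E : NE V} {g : ℕ} (A : E.Emb g) (Q : Set V)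
    (hQ : ∀ u ∈ Q, ∀ v ∈ Q, u ≠ v → E.H.Adj u v) : Q.ncard ≤ 2 * g + 4 := by
  rcases Set.eq_empty_or_nonempty Q with h0 | ⟨q₀, hq₀⟩
  · rw [h0]; simp
  let T : RT E.Ga :=
    { comp := Sum.inl '' Q
      r := .inl q₀
      p := fun _ => .inl q₀
      mu := fun v => if v = .inl q₀ then 0 else 1
      r_mem := ⟨q₀, hq₀, rfl⟩
      p_root := rfl
      p_mem := fun _ _ => ⟨q₀, hq₀, rfl⟩
      adj := by
        rintro _ ⟨a, ha, rfl⟩ hne
        have : a ≠ q₀ := fun h => hne (by rw [h])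
        exact hQ a ha q₀ hq₀ this
      mu_lt := by
        intro v _ hne
        simp [hne] }
  obtain ⟨rk, hinj, -, -, halt⟩ := treeOrd A.S A.genus T
  have hfin : (Q \ {q₀}).Finite := Set.toFinite _
  obtain ⟨l, hl1, hl2, hl3⟩ := QC_list (Sum.inl '' (Q \ {q₀}) : Set (V ⊕ Fin E.n))
    (hfin.image _) rk (by
      rintro _ ⟨a, ha, rfl⟩ _ ⟨b, hb, rfl⟩ h
      exact hinj _ ⟨a, ha.1, rfl⟩ _ ⟨b, hb.1, rfl⟩ h)
  have hlen : l.length + 1 = Q.ncard := by
    rw [hl3, Set.ncard_image_of_injective _ Sum.inl_injective,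
      Set.ncard_sdiff_singleton_add_one hq₀ (Set.toFinite _)]
  have hlt : ∀ (i j : ℕ) (hi : i < l.length) (hj : j < l.length), i < j → rk l[i] < rk l[j] :=
    fun i j hi hj hij => List.pairwise_iff_getElem.1 hl1 i j hi hj hij
  have huniq : ∀ (i j : ℕ) (hi : i < l.length) (hj : j < l.length), l[i] = l[j] → i = j := by
    intro i j hi hj h
    rcases lt_trichotomy i j with h' | h' | h'
    · exact absurd (hlt i j hi hj h') (by rw [h]; exact lt_irrefl _)
    · exact h'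
    · exact absurd (hlt j i hj hi h') (by rw [h]; exact lt_irrefl _)
  have hmemQ : ∀ x ∈ l, ∃ u ∈ Q, x = (.inl u : V ⊕ Fin E.n) := by
    intro x hx
    obtain ⟨u, hu, rfl⟩ := (hl2 x).1 hx
    exact ⟨u, hu.1, rfl⟩
  let V₁ : Set (V ⊕ Fin E.n) := {x | ∃ (i : ℕ) (h : i < l.length), Even i ∧ l[i] = x}
  let V₂ : Set (V ⊕ Fin E.n) := {x | ∃ (i : ℕ) (h : i < l.length), ¬ Even i ∧ l[i] = x}
  have hV1 : ∀ (i : ℕ) (h : i < l.length), l[i] ∈ V₁ ↔ Even i := by
    intro i h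
    constructor
    · rintro ⟨j, hj, hev, he⟩
      rw [← huniq j i hj h he]; exact hev
    · intro hev
      exact ⟨i, h, hev, rfl⟩
  have hV2 : ∀ (i : ℕ) (h : i < l.length), l[i] ∈ V₂ ↔ ¬ Even i := by
    intro i h
    constructor
    · rintro ⟨j, hj, hev, he⟩
      rw [← huniq j i hj h he]; exact hev
    · intro hev
      exact ⟨i, h, hev, rfl⟩
  have hq₀l : (.inl q₀ : V ⊕ Fin E.n) ∉ l := by
    intro h
    obtain ⟨u, hu, he⟩ := (hl2 _).1 h
    exact hu.2 (Sum.inl_injective he)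
  have hmain : l.length ≤ 2 * g + 3 := by
    refine halt {.inl q₀} V₁ V₂ ?_ ?_ ?_ (QC_conn hQ V₁ q₀ ?_) (QC_conn hQ V₂ q₀ ?_) ?_ ?_ ?_ l
      hl1 ?_ ?_
    · rintro _ rfl
      exact ⟨q₀, hq₀, rfl⟩
    · intro v _
      rfl
    · rfl
    · rintro x ⟨i, h, -, rfl⟩
      exact hmemQ _ (List.getElem_mem h)
    · rintro x ⟨i, h, -, rfl⟩
      exact hmemQ _ (List.getElem_mem h)
    · rw [Set.disjoint_singleton_left]
      rintro ⟨i, h, -, he⟩
      exact hq₀l (he ▸ List.getElem_mem h)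
    · rw [Set.disjoint_singleton_left]
      rintro ⟨i, h, -, he⟩
      exact hq₀l (he ▸ List.getElem_mem h)
    · rw [Set.disjoint_left]
      rintro x ⟨i, h, hev, rfl⟩ hx
      exact (hV2 i h).1 hx hev
    · intro b hb
      obtain ⟨i, h, rfl⟩ := List.getElem_of_mem hb
      obtain ⟨u, hu, he⟩ := hmemQ _ hb
      refine ⟨⟨u, hu, he.symm⟩, rfl, ?_⟩
      rcases Nat.even_or_odd i with hev | hod
      · exact Or.inl ((hV1 i h).2 hev)
      · exact Or.inr ((hV2 i h).2 (Nat.not_even_iff_odd.2 hod))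
    · rw [List.isChain_iff_getElem]
      intro i h
      rw [hV1 i (by omega), hV2 (i + 1) h, Nat.even_add_one, not_not]
  omega

lemma QC_sel {V : Type u} [Fintype V] {E : NE V} {k : ℕ} (hk : ∀ p, (E.X p).ncard ≤ k) (n : ℕ) :
    ∀ R : Set V, R.ncard = n → (∀ v ∈ R, E.IsV v) →
      ∃ R' ⊆ R, (∀ u ∈ R', ∀ v ∈ R', u ≠ v → ∀ p, u ∈ E.X p → v ∉ E.X p) ∧
        R.ncard ≤ k * R'.ncard := by
  induction n using Nat.strong_induction_on with
  | _ n ih =>
    intro R hn hRV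
    rcases Set.eq_empty_or_nonempty R with h0 | hne
    · exact ⟨∅, Set.empty_subset _, fun u hu => absurd hu (Set.notMem_empty _), by rw [h0]; simp⟩
    have hex : ∀ v : V, ∃ m : ℕ, v ∈ R → (∃ h : m < E.n, v ∈ E.X ⟨m, h⟩) ∧
        ∀ p : Fin E.n, v ∈ E.X p → p.val ≤ m := by
      intro v
      by_cases hv : v ∈ R
      · obtain ⟨q, rfl⟩ := hRV v hv
        obtain ⟨m, hm, hmax⟩ := Set.exists_max_image {p : Fin E.n | E.w q ∈ E.X p}
          (fun p => p.val) (Set.toFinite _) ⟨q, E.w_mem q⟩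
        exact ⟨m.val, fun _ => ⟨⟨m.isLt, hm⟩, fun p hp => hmax p hp⟩⟩
      · exact ⟨0, fun h => absurd h hv⟩
    choose e he using hex
    obtain ⟨v₁, hv₁, hmin⟩ := Set.exists_min_image R e (Set.toFinite _) hne
    obtain ⟨⟨hlt, hmem⟩, hmax⟩ := he v₁ hv₁
    let S : Set V := {v | v ∈ R ∧ ∃ p, v ∈ E.X p ∧ v₁ ∈ E.X p}
    have hS : S ⊆ E.X ⟨e v₁, hlt⟩ := by
      rintro v ⟨hv, p, hp, hp1⟩
      obtain ⟨⟨hlt', hmem'⟩, _⟩ := he v hv
      exact E.X_int p ⟨e v₁, hlt⟩ ⟨e v, hlt'⟩ (hmax p hp1) (hmin v hv) v hp hmem'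
    have hSk : S.ncard ≤ k := (Set.ncard_le_ncard hS (Set.toFinite _)).trans (hk _)
    have hv₁S : v₁ ∈ S := by
      refine ⟨hv₁, ⟨e v₁, hlt⟩, hmem, hmem⟩
    have hSR : S ⊆ R := fun v hv => hv.1
    have hcard : (R \ S).ncard + S.ncard = R.ncard := Set.ncard_sdiff_add_ncard_of_subset hSR
    have hSpos : 0 < S.ncard := (Set.ncard_pos).2 ⟨v₁, hv₁S⟩
    obtain ⟨R', hR', hpw, hle⟩ := ih (R \ S).ncard (by omega) (R \ S) rfl (fun v hv => hRV v hv.1)
    have hv₁R' : v₁ ∉ R' := fun h => (hR' h).2 hv₁S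
    refine ⟨insert v₁ R', ?_, ?_, ?_⟩
    · intro v hv
      rcases Set.mem_insert_iff.1 hv with rfl | h
      · exact hv₁
      · exact (hR' h).1
    · intro u hu v hv huv p hup hvp
      rcases Set.mem_insert_iff.1 hu with rfl | hu'
      · rcases Set.mem_insert_iff.1 hv with rfl | hv'
        · exact huv rfl
        · exact (hR' hv').2 ⟨(hR' hv').1, p, hvp, hup⟩
      · rcases Set.mem_insert_iff.1 hv with rfl | hv'
        · exact (hR' hu').2 ⟨(hR' hu').1, p, hup, hvp⟩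
        · exact hpw u hu' v hv' huv p hup hvp
    · rw [Set.ncard_insert_of_notMem hv₁R' (Set.toFinite _), Nat.mul_add, Nat.mul_one]
      omega

theorem clique_bound {V : Type u} [Fintype V] {K : SimpleGraph V} {E : NE V} {g k s : ℕ}
    (hF : E.Fits K) (A : E.Emb g) (hk : ∀ p, (E.X p).ncard ≤ k) (hs : ∀ p, E.disc p < s) (Q : Set V)
    (hQ : ∀ u ∈ Q, ∀ v ∈ Q, u ≠ v → K.Adj u v) : Q.ncard ≤ (2 * g + 4) * (1 + s * k) := by
  have hP : {v ∈ Q | ¬ E.IsV v}.ncard ≤ 2 * g + 4 := by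
    refine clique_H A _ fun u hu v hv huv => ?_
    rcases hF u v (hQ u hu.1 v hv.1 huv) with h | ⟨p, h1, _⟩
    · exact h
    · obtain ⟨q, hq, _⟩ := E.X_sub p u h1
      exact absurd ⟨q, hq⟩ hu.2
  have hsub : Q.ncard ≤ {v ∈ Q | ¬ E.IsV v}.ncard + {v ∈ Q | E.IsV v}.ncard := by
    refine le_trans (Set.ncard_le_ncard ?_ (Set.toFinite _)) (Set.ncard_union_le _ _)
    intro v hv
    by_cases h : E.IsV v
    · exact Or.inr ⟨hv, h⟩
    · exact Or.inl ⟨hv, h⟩
  have hV : {v ∈ Q | E.IsV v}.ncard ≤ (2 * g + 4) * (s * k) := by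
    obtain ⟨R', hR', hpw, hle⟩ := QC_sel hk _ {v ∈ Q | E.IsV v} rfl (fun v hv => hv.2)
    have h1 : R'.ncard ≤ 2 * g + 4 := by
      refine clique_H A _ fun u hu v hv huv => ?_
      rcases hF u v (hQ u (hR' hu).1 v (hR' hv).1 huv) with h | ⟨p, h1, h2⟩
      · exact h
      · exact absurd h2 (hpw u hu v hv huv p h1)
    rcases Nat.eq_zero_or_pos s with h0 | h0
    · have : {v ∈ Q | E.IsV v} = ∅ := by
        ext v
        simp only [Set.mem_ofPred_eq, Set.mem_empty_iff_false, iff_false]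
        rintro ⟨_, p, _⟩
        have := hs p
        omega
      rw [this]; simp
    · calc {v ∈ Q | E.IsV v}.ncard ≤ k * R'.ncard := hle
        _ ≤ k * (2 * g + 4) := Nat.mul_le_mul le_rfl h1
        _ = (2 * g + 4) * (1 * k) := by ring
        _ ≤ (2 * g + 4) * (s * k) := Nat.mul_le_mul le_rfl (Nat.mul_le_mul h0 le_rfl)
  calc Q.ncard ≤ {v ∈ Q | ¬ E.IsV v}.ncard + {v ∈ Q | E.IsV v}.ncard := hsub
    _ ≤ (2 * g + 4) + (2 * g + 4) * (s * k) := Nat.add_le_add hP hV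
    _ = (2 * g + 4) * (1 + s * k) := by ring

end Pool.Agent.BTV
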