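import Pool.Agent.BTV.FAb
import Pool.Agent.BTV.QCa
import Pool.Agent.BTV.CN

/-! BTV FAc: no bound on the adhesion is needed.

PROOF of `scheme_of_cne`.  For adjacent nodes `t, t'`: the adhesion set `bag t ∩ bag t'` is a clique in the
torso of `t`.  With `A`, `C` for `t` and the normal form `E` of `C` (`cne_normal`, `Fintype.ofFinite`):
`Q := {x : ↑(bag t \ A) | x.1 ∈ bag t'}` is a clique of `(torso t).induce _`, so
`Q.ncard ≤ (2 g + 4) * (1 + s * k)` (`clique_bound`) and `(bag t ∩ bag t').ncard ≤ a + (2 g + 4) * (1 + s * k)`.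
Apply `scheme_of_near` with `a' := a + (2 g + 4) * (1 + s * k)`. -/

set_option autoImplicit false

open Classical

namespace Pool.Agent.BTV

open Pool.Agent.BTD Pool.Agent.H81.Balls

universe u v

/-- Balls in graphs with tree decompositions whose torsos, after the removal of at most `a`
vertices, have near embeddings of Euler genus `≤ g` with `s` vortices of depth `≤ k`. -/
theorem scheme_of_cne (k a g s : ℕ) : ∃ N : ℕ, ∀ (V : Type u) [Fintype V] (G : SimpleGraph V)
    (ι : Type v) [Finite ι] (T : SimpleGraph ι) (D : TreeDecomp G T),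
    (∀ t, ∃ A : Set V, A.ncard ≤ a ∧
      Nonempty (CNE ((D.torso t).induce (D.bag t \ A)) g k s)) →
    HasProperScheme (balls G) N := by
  obtain ⟨N, hN⟩ := scheme_of_near.{u, v} k (a + (2 * g + 4) * (1 + s * k)) g s
  refine ⟨N, fun V _ G ι _ T D h => hN V G ι T D ?_ ?_⟩
  · intro t t' htt
    obtain ⟨A, hA, ⟨C⟩⟩ := h t
    have : Fintype ↑(D.bag t \ A) := Fintype.ofFinite _
    obtain ⟨E, hE, hfit, hk, hs⟩ := cne_normal C
    have hQ : ({x | x.1 ∈ D.bag t'} : Set ↑(D.bag t \ A)).ncard ≤ (2 * g + 4) * (1 + s * k) := by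
      refine clique_bound hfit hE hk hs _ ?_
      intro u hu v hv huv
      exact ⟨fun h => huv (Subtype.ext h), ⟨u.2.1, v.2.1⟩, Or.inr ⟨t', htt, hu, hv⟩⟩
    have hsub : D.bag t ∩ D.bag t' ⊆
        A ∪ Subtype.val '' ({x | x.1 ∈ D.bag t'} : Set ↑(D.bag t \ A)) := by
      rintro x ⟨hx, hx'⟩
      by_cases hxA : x ∈ A
      · exact Or.inl hxA
      · exact Or.inr ⟨⟨x, hx, hxA⟩, hx', rfl⟩
    calc (D.bag t ∩ D.bag t').ncard
        ≤ (A ∪ Subtype.val '' ({x | x.1 ∈ D.bag t'} : Set ↑(D.bag t \ A))).ncard :=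
          Set.ncard_le_ncard hsub (Set.toFinite _)
      _ ≤ A.ncard + (Subtype.val '' ({x | x.1 ∈ D.bag t'} : Set ↑(D.bag t \ A))).ncard :=
          Set.ncard_union_le _ _
      _ ≤ a + (2 * g + 4) * (1 + s * k) := by
          rw [Set.ncard_image_of_injective _ Subtype.val_injective]
          exact Nat.add_le_add hA hQ
  · intro t
    obtain ⟨A, hA, ⟨C⟩⟩ := h t
    have : Fintype ↑(D.bag t \ A) := Fintype.ofFinite _
    obtain ⟨E, hE, hfit, hk, hs⟩ := cne_normal C
    exact ⟨A, hA.trans (Nat.le_add_right _ _), E, hE, hfit, hk, hs⟩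

end Pool.Agent.BTV
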