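import Pool.Agent.BTV.RTb
import Pool.Agent.BTV.LD

/-! BTV RTc: the order of the planar part of the tree of a site.

`PP M E q A` = the planar vertices whose leg towards `q` lands in `A` (`A = some α`) resp. has no
vortex vertex (`A = none`).

PROOF.  Case `A = some α`, `α` nonempty (if `α = ∅` then `PP = ∅`, take `rk = 0`): `RT` on `E.Ga`:
`comp := {inr p | p ∈ α} ∪ {inl (w p) | p ∈ α} ∪ {inl z | z ∈ PP}`; root `inr p₀`, `p₀` the smallest
element of `α`; parents: `inr p ↦ inr (p - 1)` (`p ≠ p₀`; `p - 1 ∈ α` since `α` is an interval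
(`Itv`), and `Nx (p-1) p`), `inr p₀ ↦ inr p₀`; `inl (w p) ↦ inr p`; `inl z ↦ inl (par q z)` for `z ∈ PP`
(`par q z` is in `PP` or is `w p`, `p ∈ α`: `land_par`; adjacency in `H`: `hadj_par`, planar vertices
are in no bag).  `mu (inr p) = p.val`, `mu (inl (w p)) = n`, `mu (inl z) = n + 1 + (D z q).toNat`
(`LMet.toNat_par_lt`; for `z ∈ PP`, `z ≠ q`, because a vertex `z = q` planar is its own leg).
Case `A = none`: if `q` is a vortex vertex then `PP = ∅`.  Otherwise `comp := {inl z | Free q z}`,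
root `inl q`, parent `par q`, `mu = (D z q).toNat`.
`rk z := rk' (inl z)` with `rk'` from `treeOrd I.A.S I.A.genus`.
`Anc`: for `v ∈ PP`, `a ∈ PP`: `M.Anc q a v ↔ T.Anc (inl a) (inl v)` (iterates stay in `PP` until the
landing; after the landing `w p` the tree goes to the comb, and no planar vertex occurs any more;
on the side of `M.Anc` the ancestors of `v` beyond the landing are NOT in question: if `a ∈ PP` is
an ancestor of `w p` on the leg, `a` planar landing in `α` again: NOTE this can happen!  Therefore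
`anc` below is the relation `PAnc`: `a` is on the leg of `v` before the landing:
`PAnc q a v := ∃ k, (par q)^[k] v = a ∧ ∀ j ≤ k, ¬ IsV ((par q)^[j] v)`.)
`alt`: `N₀' := {inr p | p ∈ α} ∪ {inl (w p) | p ∈ α} ∪ inl '' N₀` (resp. `inl '' N₀` for `none`;
there `q ∈ N₀` is a hypothesis `hroot`). -/

set_option autoImplicit false

open Classical

namespace Pool.Agent.BTV

open Pool.Agent.BTD Pool.Agent.H81.Balls

universe u

/-- planar part of the tree of `q` over `A` -/
def PP {V : Type u} {G : SimpleGraph V} (M : LMet G) (E : NE V) (q : V) : Option (Set (Fin E.n)) → Set V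
  | some α => {z | ¬ E.IsV z ∧ M.D z q ≠ ⊤ ∧ ∃ p ∈ α, Land M E q z p}
  | none => {z | Free M E q z}

/-- `a` is on the leg of `v` towards `q`, not after the first vortex vertex, and planar -/
def PAnc {V : Type u} {G : SimpleGraph V} (M : LMet G) (E : NE V) (q a v : V) : Prop :=
  ∃ k : ℕ, (M.par q)^[k] v = a ∧ ∀ j ≤ k, ¬ E.IsV ((M.par q)^[j] v)

/-- the connected set given by the vertices `Z` and the comb positions `B` -/
def ZB {V : Type u} (E : NE V) (Z : Set V) (B : Set (Fin E.n)) : Set (V ⊕ Fin E.n) :=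
  {x | (∃ z ∈ Z, x = .inl z) ∨ ∃ b ∈ B, x = .inr b}

/-- positions in `A` -/
def OA {V : Type u} {E : NE V} (A : Option (Set (Fin E.n))) : Set (Fin E.n) := {p | ∃ α, A = some α ∧ p ∈ α}

/-- `rk` is a good order for the planar part of the tree of `q` over `A`. -/
structure POrd {V : Type u} {G : SimpleGraph V} (M : LMet G) (E : NE V) (q : V)
    (A : Option (Set (Fin E.n))) (B : ℕ) (rk : V → ℕ) : Prop where
  inj : ∀ v ∈ PP M E q A, ∀ w ∈ PP M E q A, rk v = rk w → v = w
  anc_le : ∀ a v, v ∈ PP M E q A → PAnc M E q a v → rk a ≤ rk v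
  interval : ∀ a y v, y ∈ PP M E q A → v ∈ PP M E q A → PAnc M E q a v → rk a ≤ rk y → rk y ≤ rk v →
    PAnc M E q a y
  alt : ∀ (N₀ Z₁ Z₂ : Set V) (B₁ B₂ : Set (Fin E.n)), N₀ ⊆ PP M E q A →
    (∀ v ∈ N₀, M.par q v ∈ N₀ ∨ E.IsV (M.par q v)) → (A = none → q ∈ N₀) →
    Conn E.Ga (ZB E Z₁ B₁) → Conn E.Ga (ZB E Z₂ B₂) →
    Disjoint N₀ Z₁ → Disjoint N₀ Z₂ → Disjoint Z₁ Z₂ → Disjoint B₁ B₂ →
    Disjoint (OA A) B₁ → Disjoint (OA A) B₂ → (∀ p ∈ OA A, E.w p ∉ Z₁ ∧ E.w p ∉ Z₂) →
    ∀ l : List V, l.Pairwise (fun a b => rk a < rk b) →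
      (∀ b ∈ l, b ∈ PP M E q A ∧ (M.par q b ∈ N₀ ∨ E.IsV (M.par q b)) ∧ (b ∈ Z₁ ∨ b ∈ Z₂)) →
      l.IsChain (fun a b => a ∈ Z₁ ↔ b ∈ Z₂) → l.length ≤ B

lemma RTc_iter {V : Type u} {E : NE V} (f : V → V) (g : V ⊕ Fin E.n → V ⊕ Fin E.n)
    (h : ∀ z, g (.inl z) = .inl (f z)) (k : ℕ) (v : V) : g^[k] (.inl v) = .inl (f^[k] v) := by
  induction k generalizing v with
  | zero => rfl
  | succ k ih => rw [Function.iterate_succ_apply, Function.iterate_succ_apply, h, ih]

theorem exists_pord_none {V : Type u} [Fintype V] {g k s : ℕ} (I : Inst g k s V) (q : V) :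
    ∃ rk : V → ℕ, POrd I.M I.E q none (2 * g + 3) rk := by
  by_cases hq : I.E.IsV q
  · -- no free vertices
    have hemp : ∀ z, z ∉ PP I.M I.E q none := by
      intro z hz
      have hz' : Free I.M I.E q z := hz
      exact hz'.2 q (LMet.anc_root hz'.1) hq
    refine ⟨fun _ => 0, ⟨fun v hv => absurd hv (hemp v), fun a v hv => absurd hv (hemp v),
      fun a y v hy => absurd hy (hemp y), ?_⟩⟩
    intro N₀ Z₁ Z₂ B₁ B₂ _ _ _ _ _ _ _ _ _ _ _ _ l _ hl _
    rcases l with _ | ⟨b, l⟩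
    · simp
    · exact absurd (hl b (by simp)).1 (hemp b)
  · have hplan : ∀ z, Free I.M I.E q z → ¬ I.E.IsV z := fun z hz => hz.2 z LMet.anc_refl
    have hpar : ∀ z, Free I.M I.E q z → Free I.M I.E q (I.M.par q z) := fun z hz => free_anc hz LMet.anc_par
    let T : RT I.E.Ga :=
      { comp := {x | ∃ z, Free I.M I.E q z ∧ x = .inl z}
        r := .inl q
        p := fun x => match x with
          | .inl z => .inl (I.M.par q z)
          | .inr p => .inr p
        mu := fun x => match x with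
          | .inl z => (I.M.D z q).toNat
          | .inr _ => 0
        r_mem := by
          refine ⟨q, ⟨by rw [I.M.D_self]; simp, ?_⟩, rfl⟩
          rintro a ⟨k, hk⟩
          rw [LMet.CAb_iter_root] at hk
          rw [← hk]
          exact hq
        p_root := by simp [LMet.par_root]
        p_mem := by
          rintro v ⟨z, hz, rfl⟩
          exact ⟨_, hpar z hz, rfl⟩
        adj := by
          rintro v ⟨z, hz, rfl⟩ hne
          have hzq : z ≠ q := fun h => hne (by rw [h])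
          exact hadj_par I.fits hz.1 hzq fun h => hplan z hz (vst_isV h).1
        mu_lt := by
          rintro v ⟨z, hz, rfl⟩ hne
          have hzq : z ≠ q := fun h => hne (by rw [h])
          exact LMet.toNat_par_lt hzq hz.1 }
    have hTp : ∀ z, T.p (.inl z) = .inl (I.M.par q z) := fun _ => rfl
    have hmem : ∀ v, v ∈ PP I.M I.E q none → (Sum.inl v : V ⊕ Fin I.E.n) ∈ T.comp := fun v hv => ⟨v, hv, rfl⟩
    have hanc : ∀ a v, PAnc I.M I.E q a v → T.Anc (.inl a) (.inl v) := by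
      rintro a v ⟨k, hk, -⟩
      refine ⟨k, ?_⟩
      rw [RTc_iter _ T.p hTp, hk]
    obtain ⟨rk, h1, h2, h3, h4⟩ := treeOrd I.A.S I.A.genus T
    refine ⟨fun z => rk (.inl z), ⟨?_, ?_, ?_, ?_⟩⟩
    · intro v hv w hw h
      exact Sum.inl.inj (h1 _ (hmem v hv) _ (hmem w hw) h)
    · intro a v hv ha
      exact h2 _ _ (hmem v hv) (hanc a v ha)
    · intro a y v hy hv ha hle hle'
      obtain ⟨k, hk⟩ := h3 _ _ _ (hmem y hy) (hmem v hv) (hanc a v ha) hle hle'
      rw [RTc_iter _ T.p hTp] at hk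
      have hy' : Free I.M I.E q y := hy
      exact ⟨k, Sum.inl.inj hk, fun j _ => hy'.2 _ ⟨j, rfl⟩⟩
    · intro N₀ Z₁ Z₂ B₁ B₂ hN hcl hroot hc1 hc2 d01 d02 d12 dB _ _ _ l hl hb hch
      have key := h4 (Sum.inl '' N₀) (ZB I.E Z₁ B₁) (ZB I.E Z₂ B₂) ?_ ?_ ?_ hc1 hc2 ?_ ?_ ?_
        (l.map Sum.inl) ?_ ?_ ?_
      · simpa using key
      · rintro _ ⟨z, hz, rfl⟩
        exact hmem z (hN hz)
      · rintro _ ⟨z, hz, rfl⟩
        rcases hcl z hz with h | h
        · exact ⟨_, h, rfl⟩
        · exact absurd h (hplan _ (hpar z (hN hz)))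
      · exact ⟨q, hroot rfl, rfl⟩
      · rw [Set.disjoint_left]
        rintro _ ⟨z, hz, rfl⟩ (⟨z', hz', h⟩ | ⟨b, _, h⟩)
        · rw [Sum.inl.inj h] at hz
          exact Set.disjoint_left.1 d01 hz hz'
        · cases h
      · rw [Set.disjoint_left]
        rintro _ ⟨z, hz, rfl⟩ (⟨z', hz', h⟩ | ⟨b, _, h⟩)
        · rw [Sum.inl.inj h] at hz
          exact Set.disjoint_left.1 d02 hz hz'
        · cases h
      · rw [Set.disjoint_left]
        rintro x (⟨z, hz, rfl⟩ | ⟨b, hb, rfl⟩) (⟨z', hz', h⟩ | ⟨b', hb', h⟩)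
        · rw [← Sum.inl.inj h] at hz'
          exact Set.disjoint_left.1 d12 hz hz'
        · cases h
        · cases h
        · rw [← Sum.inr.inj h] at hb'
          exact Set.disjoint_left.1 dB hb hb'
      · rw [List.pairwise_map]
        exact hl
      · intro x hx
        obtain ⟨b, hbl, rfl⟩ := List.mem_map.1 hx
        obtain ⟨g1, g2, g3⟩ := hb b hbl
        refine ⟨hmem b g1, ?_, ?_⟩
        · rcases g2 with h | h
          · exact ⟨_, h, rfl⟩
          · exact absurd h (hplan _ (hpar b g1))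
        · rcases g3 with h | h
          · exact Or.inl (Or.inl ⟨b, h, rfl⟩)
          · exact Or.inr (Or.inl ⟨b, h, rfl⟩)
      · rw [List.isChain_map]
        refine hch.imp fun a b hab => ?_
        have e : ∀ (Z : Set V) (B : Set (Fin I.E.n)) (c : V), (Sum.inl c : V ⊕ Fin I.E.n) ∈ ZB I.E Z B ↔ c ∈ Z := by
          intro Z B c
          constructor
          · rintro (⟨z, hz, h⟩ | ⟨b, _, h⟩)
            · rw [Sum.inl.inj h]
              exact hz
            · cases h
          · exact fun h => Or.inl ⟨c, h, rfl⟩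
        rw [e, e]
        exact hab

end Pool.Agent.BTV
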