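import Pool.Agent.BTV.CDc
import Pool.Agent.BTV.RTc

/-! BTV FB: types of positions relative to two intervals.

`fib A B q₀`: the positions outside `A ∪ B` of the same type as `q₀` (same vortex, same side of `A`,
same side of `B`).
`fib_itv`: `q, q' ∈ fib`, `q < q'' < q'`; discs by `disc_mono`.  If `q'' ∈ A`: then `∃ a ∈ A, q < a`, so
`∃ a ∈ A, q' < a`, so `q'' < q' < a` and `q' ∈ A` (`Itv A`; the empty set is an interval), contradiction.
If `∃ a ∈ A, q < a` then `∃ a ∈ A, q' < a` so `q'' < a`; conversely `q'' < a` gives `q < a`.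
`fib_ncard`: the set `fib A B q₀` is determined by `disc q₀ < s` and two truth values.
`fib_dcd`: `bind` of the decodable pair `(A, B)` with `ncard`. -/

set_option autoImplicit false

open Classical

namespace Pool.Agent.BTV

open Pool.Agent.BTD

universe u

variable {V : Type u}

def fib (E : NE V) (A B : Set (Fin E.n)) (q₀ : Fin E.n) : Set (Fin E.n) :=
  {q | E.disc q = E.disc q₀ ∧ q ∉ A ∧ q ∉ B ∧ ((∃ a ∈ A, q < a) ↔ (∃ a ∈ A, q₀ < a)) ∧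
    ((∃ b ∈ B, q < b) ↔ (∃ b ∈ B, q₀ < b))}

lemma fib_self {E : NE V} {A B : Set (Fin E.n)} {q₀ : Fin E.n} (hA : q₀ ∉ A) (hB : q₀ ∉ B) :
    q₀ ∈ fib E A B q₀ := by
  exact ⟨rfl, hA, hB, Iff.rfl, Iff.rfl⟩

lemma fib_itv {E : NE V} {A B : Set (Fin E.n)} (hA : E.Itv A) (hB : E.Itv B) (q₀ : Fin E.n) :
    E.Itv (fib E A B q₀) := by
  have key : ∀ C : Set (Fin E.n), E.Itv C → ∀ p q r : Fin E.n, p ≤ q → q ≤ r → p ∉ C → r ∉ C →
      ((∃ a ∈ C, p < a) ↔ (∃ a ∈ C, q₀ < a)) → ((∃ a ∈ C, r < a) ↔ (∃ a ∈ C, q₀ < a)) →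
      q ∉ C ∧ ((∃ a ∈ C, q < a) ↔ (∃ a ∈ C, q₀ < a)) := by
    intro C hC p q r hpq hqr hp hr h1 h2
    refine ⟨?_, ?_, ?_⟩
    · intro hq
      have hlt : p < q := lt_of_le_of_ne hpq fun h => hp (h ▸ hq)
      obtain ⟨a, ha, hra⟩ := h2.2 (h1.1 ⟨q, hq, hlt⟩)
      exact hr (hC.2 q r a hq ha hqr hra.le)
    · rintro ⟨a, ha, hqa⟩
      exact h1.1 ⟨a, ha, lt_of_le_of_lt hpq hqa⟩
    · intro h
      obtain ⟨a, ha, hra⟩ := h2.2 h
      exact ⟨a, ha, lt_of_le_of_lt hqr hra⟩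
  refine ⟨fun p hp r hr => hp.1.trans hr.1.symm, ?_⟩
  rintro p q r ⟨p1, p2, p3, p4, p5⟩ ⟨r1, r2, r3, r4, r5⟩ hpq hqr
  have hA' := key A hA p q r hpq hqr p2 r2 p4 r4
  have hB' := key B hB p q r hpq hqr p3 r3 p5 r5
  exact ⟨le_antisymm ((E.disc_mono _ _ hqr).trans r1.le) (p1.symm.le.trans (E.disc_mono _ _ hpq)),
    hA'.1, hB'.1, hA'.2, hB'.2⟩

lemma fib_disj {E : NE V} {A B : Set (Fin E.n)} {q₀ : Fin E.n} :
    Disjoint A (fib E A B q₀) ∧ Disjoint B (fib E A B q₀) := by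
  exact ⟨Set.disjoint_left.2 fun q h1 h2 => h2.2.1 h1, Set.disjoint_left.2 fun q h1 h2 => h2.2.2.1 h1⟩

lemma fib_ncard {E : NE V} {s : ℕ} (hs : ∀ p, E.disc p < s) (A B : Set (Fin E.n)) :
    {F | ∃ q₀, F = fib E A B q₀}.Finite ∧ {F | ∃ q₀, F = fib E A B q₀}.ncard ≤ 4 * s := by
  have hsub : {F | ∃ q₀, F = fib E A B q₀} ⊆ Set.range (fun z : Fin s × (Bool × Bool) =>
      ({q | E.disc q = z.1.val ∧ q ∉ A ∧ q ∉ B ∧ ((∃ a ∈ A, q < a) ↔ z.2.1 = true) ∧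
        ((∃ b ∈ B, q < b) ↔ z.2.2 = true)} : Set (Fin E.n))) := by
    rintro F ⟨q₀, rfl⟩
    refine ⟨(⟨E.disc q₀, hs q₀⟩, (decide (∃ a ∈ A, q₀ < a), decide (∃ b ∈ B, q₀ < b))), ?_⟩
    ext q
    simp only [fib, Set.mem_ofPred_eq, decide_eq_true_eq]
  have hfin : (Set.range (fun z : Fin s × (Bool × Bool) =>
      ({q | E.disc q = z.1.val ∧ q ∉ A ∧ q ∉ B ∧ ((∃ a ∈ A, q < a) ↔ z.2.1 = true) ∧
        ((∃ b ∈ B, q < b) ↔ z.2.2 = true)} : Set (Fin E.n)))).Finite := Set.finite_range _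
  refine ⟨hfin.subset hsub, (Set.ncard_le_ncard hsub hfin).trans ?_⟩
  rw [← Set.image_univ]
  refine (Set.ncard_image_le Set.finite_univ).trans ?_
  rw [Set.ncard_univ, Nat.card_eq_fintype_card]
  simp only [Fintype.card_prod, Fintype.card_fin, Fintype.card_bool]
  omega

theorem fib_dcd (N s : ℕ) : ∃ N' : ℕ, ∀ (V : Type u) (P : Type u) (E : NE V)
    (_ : ∀ p, E.disc p < s) (R : Set P → Set (Fin E.n) × Set (Fin E.n) → Prop), Dcd N R →
    Dcd N' (fun X F => ∃ z q₀, R X z ∧ F = fib E z.1 z.2 q₀) := by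
  refine ⟨bd N (4 * s), fun V P E hs R hR => ?_⟩
  have h := hR.bind (R' := fun z _ F => ∃ q₀, F = fib E z.1 z.2 q₀) (N' := 4 * s) (fun z =>
    (Dcd.ncard (P := P) (fib_ncard hs z.1 z.2).1 (fib_ncard hs z.1 z.2).2).mono le_rfl fun _ _ h => h)
  refine h.mono le_rfl ?_
  rintro X F ⟨z, q₀, hz, hF⟩
  exact ⟨z, hz, q₀, hF⟩

/-- `v` has a landing in `L` (`L = some B`) or no vortex vertex on its leg (`L = none`). -/
def InL {G : SimpleGraph V} (M : LMet G) (E : NE V) (y : V) (L : Option (Set (Fin E.n))) (v : V) : Prop :=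
  match L with
  | some B => M.D v y ≠ ⊤ ∧ ∃ p ∈ B, Land M E y v p
  | none => Free M E y v

lemma mem_pp {G : SimpleGraph V} {M : LMet G} {E : NE V} {q v : V} {A : Option (Set (Fin E.n))} :
    v ∈ PP M E q A ↔ ¬ E.IsV v ∧ InL M E q A v := by
  cases A with
  | none => exact ⟨fun h => ⟨fun hv => h.2 v LMet.anc_refl hv, h⟩, fun h => h.2⟩
  | some α => exact Iff.rfl

lemma inL_par {G : SimpleGraph V} {M : LMet G} {E : NE V} {y v : V} {L : Option (Set (Fin E.n))}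
    (hv : ¬ E.IsV v) (hy : v ≠ y) : InL M E y L v ↔ (M.D v y ≠ ⊤ ∧ InL M E y L (M.par y v)) := by
  cases L with
  | none => exact free_par_iff hv hy
  | some B =>
    constructor
    · rintro ⟨h1, p, hp, hl⟩
      exact ⟨h1, LMet.par_ne_top h1, p, hp, (land_par hv).1 hl⟩
    · rintro ⟨h1, -, p, hp, hl⟩
      exact ⟨h1, p, hp, (land_par hv).2 hl⟩

end Pool.Agent.BTV
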