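import Pool.Agent.BTV.TL
import Pool.Agent.BTV.LD

/-! BTV JLa: class function, outputs of the jump lemma, bounds.

`tyL`: type of a landing relative to the interval `α`.
PROOFS.  `tyL_some`: `2 * d + 1 + ε = 2 * d' + 1 + ε'` with `ε, ε' ≤ 1` gives `d = d'`, `ε = ε'`.  If
`c ∈ α` with `b < c < b'` then `ε = 1`, so `ε' = 1`: `∃ a ∈ α, b' < a`; `c < b' < a`, so `b' ∈ α`
(`Itv`), contradiction.
`jout_ncard`: for every `τ < 2 s + 1` (other `τ` give an empty `FAM` because `disc b < s`) and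
`κ : Fin NC`: at most one least and one greatest element `n`, `n'`; `e`, `e'` are determined
(`reg_unique`); `z` ranges over `F4 ..`, at most `4 k` vertices (`bag`, `OX` of `none` is empty);
each gives at most two elements.  Total `≤ (2 s + 1) * NC * (2 + 8 k)`. -/

set_option autoImplicit false

open Classical

namespace Pool.Agent.BTV

open Pool.Agent.BTD Pool.Agent.H81.Balls

universe u

/-- number of classes -/
noncomputable def NC (g k s : ℕ) : ℕ := (topoL.{u} g k s).choose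

variable {V : Type u} [Fintype V] {g k s : ℕ}

/-- the class function -/
noncomputable def Inst.cl (I : Inst g k s V) (o q v : V) : Fin (NC.{u} g k s) :=
  ((topoL.{u} g k s).choose_spec V I o).choose q v

lemma cl_spec (I : Inst g k s V) (o : V) {q v q' v' : V} {e e' : Option (Fin I.E.n)}
    (h : Reg I.M I.E q v e) (h' : Reg I.M I.E q' v' e') (hc : Cmp I.E q v e q' v' e')
    (hcl : I.cl o q v = I.cl o q' v') :
    ∃ Ins : V → Prop, Sep I.M I.E q v e q' v' e' Ins ∧
      (o ∉ UU I.M I.E q v e → o ∉ UU I.M I.E q' v' e' → ¬ Ins o) :=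
  ((topoL.{u} g k s).choose_spec V I o).choose_spec q v e q' v' e' h h' hc hcl

/-- type of a landing relative to `α` -/
noncomputable def tyL {V : Type u} (E : NE V) (α : Set (Fin E.n)) : Option (Fin E.n) → ℕ
  | none => 0
  | some b => 2 * E.disc b + 1 + (if ∃ a ∈ α, b < a then 1 else 0)

omit [Fintype V] in
lemma tyL_none {E : NE V} {α : Set (Fin E.n)} {e : Option (Fin E.n)} (h : tyL E α e = tyL E α none) :
    e = none := by
  cases e with
  | none => rfl
  | some b => simp [tyL] at h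

omit [Fintype V] in
lemma tyL_some {E : NE V} {α : Set (Fin E.n)} (hα : E.Itv α) {b : Fin E.n} {e : Option (Fin E.n)}
    (h : tyL E α e = tyL E α (some b)) (hb : b ∉ α) (he : ∀ b', e = some b' → b' ∉ α) :
    ∃ b', e = some b' ∧ E.disc b' = E.disc b ∧ ∀ c ∈ α, ¬ E.Bt b b' c := by
  cases e with
  | none =>
    simp only [tyL] at h
    split_ifs at h
  | some b' =>
    have hb' := he b' rfl
    have key : E.disc b' = E.disc b ∧ ((∃ a ∈ α, b' < a) ↔ ∃ a ∈ α, b < a) := by
      simp only [tyL] at h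
      by_cases h1 : ∃ a ∈ α, b' < a <;> by_cases h2 : ∃ a ∈ α, b < a
      · rw [if_pos h1, if_pos h2] at h
        exact ⟨by omega, iff_of_true h1 h2⟩
      · rw [if_pos h1, if_neg h2] at h
        omega
      · rw [if_neg h1, if_pos h2] at h
        omega
      · rw [if_neg h1, if_neg h2] at h
        exact ⟨by omega, iff_of_false h1 h2⟩
    refine ⟨b', rfl, key.1, ?_⟩
    intro c hc hbt
    rcases hbt with ⟨h1, h2⟩ | ⟨h1, h2⟩
    · obtain ⟨a, ha, hba⟩ := key.2.mpr ⟨c, hc, h1⟩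
      exact hb' (hα.2 c b' a hc ha h2.le hba.le)
    · obtain ⟨a, ha, hba⟩ := key.2.mp ⟨c, hc, h1⟩
      exact hb (hα.2 c b a hc ha h2.le hba.le)

/-- the family of regular pieces leaving `α` of a given type and class -/
def FAM (I : Inst g k s V) (y x : V × ℕ) (Red : Set V) (α : Set (Fin I.E.n)) (τ : ℕ)
    (κ : Fin (NC.{u} g k s)) : Set (Fin I.E.n) :=
  {p | p ∈ α ∧ I.E.w p ∈ Red ∧ ∃ e, Reg I.M I.E y.1 (I.E.w p) e ∧ (∀ b, e = some b → b ∉ α) ∧
    tyL I.E α e = τ ∧ I.cl x.1 y.1 (I.E.w p) = κ}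

/-- positions of `α` strictly between `n` and `n'` whose leg towards `x` passes `z` and avoids the
gates of `α` up to `z` and `F` before `z` -/
def DD (I : Inst g k s V) (x : V × ℕ) (Bl : Set V) (α : Set (Fin I.E.n)) (n n' : Fin I.E.n)
    (F : Set V) (z : V) : Set (Fin I.E.n) :=
  {p | p ∈ α ∧ n < p ∧ p < n' ∧ I.E.w p ∈ Bl ∧ I.M.Anc x.1 z (I.E.w p) ∧
    ∀ t, I.M.Anc x.1 t (I.E.w p) → I.M.Anc x.1 z t → t ∉ I.E.Gt α ∧ (t ≠ z → t ∉ F)}

/-- the outputs of the jump lemma -/
def JOut (I : Inst g k s V) (y x : V × ℕ) (Red Bl : Set V) (α : Set (Fin I.E.n)) : Set (Fin I.E.n) :=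
  {q | ∃ τ κ, IsLeast (FAM I y x Red α τ κ) q ∨ IsGreatest (FAM I y x Red α τ κ) q ∨
    ∃ n n' e e' z, IsLeast (FAM I y x Red α τ κ) n ∧ IsGreatest (FAM I y x Red α τ κ) n' ∧
      Reg I.M I.E y.1 (I.E.w n) e ∧ Reg I.M I.E y.1 (I.E.w n') e' ∧
      z ∈ F4 I.E (I.E.w n) e (I.E.w n') e' ∧
      (IsLeast (DD I x Bl α n n' (F4 I.E (I.E.w n) e (I.E.w n') e') z) q ∨
        IsGreatest (DD I x Bl α n n' (F4 I.E (I.E.w n) e (I.E.w n') e') z) q)}

omit [Fintype V] in
lemma ox_ncard (I : Inst g k s V) (a : Option (Fin I.E.n)) : (I.E.OX a).ncard ≤ k := by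
  cases a with
  | none =>
    have : I.E.OX none = ∅ := by
      ext v
      simp [NE.OX]
    rw [this, Set.ncard_empty]
    exact Nat.zero_le k
  | some p =>
    have : I.E.OX (some p) = I.E.X p := by
      ext v
      simp [NE.OX]
    rw [this]
    exact I.bag p

omit [Fintype V] in
lemma f4_ncard (I : Inst g k s V) (v v' : V) (e e' : Option (Fin I.E.n)) :
    (F4 I.E v e v' e').ncard ≤ 4 * k := by
  have h1 := Set.ncard_union_le (I.E.OX (I.E.po v)) (I.E.OX e)
  have h2 := Set.ncard_union_le (I.E.OX (I.E.po v')) (I.E.OX e')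
  have h3 := Set.ncard_union_le (I.E.OX (I.E.po v) ∪ I.E.OX e) (I.E.OX (I.E.po v') ∪ I.E.OX e')
  have a1 := ox_ncard I (I.E.po v)
  have a2 := ox_ncard I e
  have a3 := ox_ncard I (I.E.po v')
  have a4 := ox_ncard I e'
  unfold F4
  omega

lemma ncard_biU_le {ι β : Type*} [Finite β] (S : Finset ι) (f : ι → Set β) (n : ℕ)
    (h : ∀ a ∈ S, (f a).ncard ≤ n) : {x | ∃ a ∈ S, x ∈ f a}.ncard ≤ S.card * n := by
  have e : {x | ∃ a ∈ S, x ∈ f a} = ↑(S.biUnion (fun a => (Set.toFinite (f a)).toFinset)) := by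
    ext x
    simp
  rw [e, Set.ncard_coe_finset]
  apply Finset.card_biUnion_le_card_mul
  intro a ha
  rw [← Set.ncard_eq_toFinset_card]
  exact h a ha

lemma ncard_isLeast_le {β : Type*} [LinearOrder β] (S : Set β) : {q | IsLeast S q}.ncard ≤ 1 := by
  have hs : {q | IsLeast S q}.Subsingleton := fun a ha b hb => IsLeast.unique ha hb
  exact (Set.ncard_le_one hs.finite).mpr (fun a ha b hb => hs ha hb)

lemma ncard_isGreatest_le {β : Type*} [LinearOrder β] (S : Set β) :
    {q | IsGreatest S q}.ncard ≤ 1 := by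
  have hs : {q | IsGreatest S q}.Subsingleton := fun a ha b hb => IsGreatest.unique ha hb
  exact (Set.ncard_le_one hs.finite).mpr (fun a ha b hb => hs ha hb)

/-- the outputs for one type and class -/
def JT (I : Inst g k s V) (y x : V × ℕ) (Red Bl : Set V) (α : Set (Fin I.E.n))
    (τ : ℕ) (κ : Fin (NC.{u} g k s)) : Set (Fin I.E.n) :=
  {q | IsLeast (FAM I y x Red α τ κ) q ∨ IsGreatest (FAM I y x Red α τ κ) q ∨
    ∃ n n' e e' z, IsLeast (FAM I y x Red α τ κ) n ∧ IsGreatest (FAM I y x Red α τ κ) n' ∧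
      Reg I.M I.E y.1 (I.E.w n) e ∧ Reg I.M I.E y.1 (I.E.w n') e' ∧
      z ∈ F4 I.E (I.E.w n) e (I.E.w n') e' ∧
      (IsLeast (DD I x Bl α n n' (F4 I.E (I.E.w n) e (I.E.w n') e') z) q ∨
        IsGreatest (DD I x Bl α n n' (F4 I.E (I.E.w n) e (I.E.w n') e') z) q)}

lemma jt_ncard (I : Inst g k s V) (y x : V × ℕ) (Red Bl : Set V) (α : Set (Fin I.E.n))
    (τ : ℕ) (κ : Fin (NC.{u} g k s)) : (JT I y x Red Bl α τ κ).ncard ≤ 2 + 8 * k := by
  set F := FAM I y x Red α τ κ with hF
  have hL := ncard_isLeast_le F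
  have hG := ncard_isGreatest_le F
  set C : Set (Fin I.E.n) := {q | ∃ n n' e e' z, IsLeast F n ∧ IsGreatest F n' ∧
      Reg I.M I.E y.1 (I.E.w n) e ∧ Reg I.M I.E y.1 (I.E.w n') e' ∧
      z ∈ F4 I.E (I.E.w n) e (I.E.w n') e' ∧
      (IsLeast (DD I x Bl α n n' (F4 I.E (I.E.w n) e (I.E.w n') e') z) q ∨
        IsGreatest (DD I x Bl α n n' (F4 I.E (I.E.w n) e (I.E.w n') e') z) q)} with hCdef
  have hC : C.ncard ≤ 8 * k := by
    by_cases hex : ∃ n n' e e', IsLeast F n ∧ IsGreatest F n' ∧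
      Reg I.M I.E y.1 (I.E.w n) e ∧ Reg I.M I.E y.1 (I.E.w n') e'
    · obtain ⟨n, n', e, e', hn, hn', he, he'⟩ := hex
      set F' := F4 I.E (I.E.w n) e (I.E.w n') e' with hF'
      have hsub : C ⊆ {q | ∃ z ∈ (Set.toFinite F').toFinset, q ∈
          ({q | IsLeast (DD I x Bl α n n' F' z) q} ∪ {q | IsGreatest (DD I x Bl α n n' F' z) q} :
            Set (Fin I.E.n))} := by
        rintro q ⟨m, m', d, d', z, hm, hm', hd, hd', hz, hq⟩
        have e1 : m = n := IsLeast.unique hm hn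
        have e2 : m' = n' := IsGreatest.unique hm' hn'
        subst e1
        subst e2
        have e3 : d = e := reg_unique hd he
        have e4 : d' = e' := reg_unique hd' he'
        subst e3
        subst e4
        exact ⟨z, by simpa using hz, hq⟩
      refine (Set.ncard_le_ncard hsub (Set.toFinite _)).trans ?_
      refine (ncard_biU_le _ _ 2 ?_).trans ?_
      · intro z _
        have h1 := Set.ncard_union_le {q | IsLeast (DD I x Bl α n n' F' z) q}
          {q | IsGreatest (DD I x Bl α n n' F' z) q}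
        have h2 := ncard_isLeast_le (DD I x Bl α n n' F' z)
        have h3 := ncard_isGreatest_le (DD I x Bl α n n' F' z)
        omega
      · have h1 : F'.ncard ≤ 4 * k := f4_ncard I (I.E.w n) (I.E.w n') e e'
        rw [← Set.ncard_eq_toFinset_card]
        omega
    · have : C = ∅ := by
        ext q
        simp only [Set.mem_empty_iff_false, iff_false]
        rintro ⟨m, m', d, d', z, hm, hm', hd, hd', hz, hq⟩
        exact hex ⟨m, m', d, d', hm, hm', hd, hd'⟩
      rw [this, Set.ncard_empty]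
      exact Nat.zero_le _
  have hsub : JT I y x Red Bl α τ κ ⊆ ({q | IsLeast F q} ∪ {q | IsGreatest F q}) ∪ C := by
    rintro q (h | h | h)
    · exact Or.inl (Or.inl h)
    · exact Or.inl (Or.inr h)
    · exact Or.inr h
  have h1 := Set.ncard_le_ncard hsub (Set.toFinite _)
  have h2 := Set.ncard_union_le ({q | IsLeast F q} ∪ {q | IsGreatest F q}) C
  have h3 := Set.ncard_union_le {q | IsLeast F q} {q | IsGreatest F q}
  omega

lemma fam_lt (I : Inst g k s V) (y x : V × ℕ) (Red : Set V) (α : Set (Fin I.E.n)) (τ : ℕ)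
    (κ : Fin (NC.{u} g k s)) {p : Fin I.E.n} (hp : p ∈ FAM I y x Red α τ κ) : τ < 2 * s + 1 := by
  obtain ⟨-, -, e, -, -, hτ, -⟩ := hp
  cases e with
  | none =>
    simp only [tyL] at hτ
    omega
  | some b =>
    have := I.disc_lt b
    simp only [tyL] at hτ
    split_ifs at hτ <;> omega

lemma jout_ncard (I : Inst g k s V) (y x : V × ℕ) (Red Bl : Set V) (α : Set (Fin I.E.n)) :
    (JOut I y x Red Bl α).ncard ≤ (2 * s + 1) * NC.{u} g k s * (2 + 8 * k) := by
  have hsub : JOut I y x Red Bl α ⊆ {q | ∃ a ∈ ((Finset.range (2 * s + 1)) ×ˢ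
      (Finset.univ : Finset (Fin (NC.{u} g k s)))), q ∈ JT I y x Red Bl α a.1 a.2} := by
    rintro q ⟨τ, κ, hq⟩
    refine ⟨(τ, κ), ?_, hq⟩
    simp only [Finset.mem_product, Finset.mem_range, Finset.mem_univ, and_true]
    rcases hq with h | h | ⟨n, n', e, e', z, h, -⟩
    · exact fam_lt I y x Red α τ κ h.1
    · exact fam_lt I y x Red α τ κ h.1
    · exact fam_lt I y x Red α τ κ h.1
  refine (Set.ncard_le_ncard hsub (Set.toFinite _)).trans ?_
  refine (ncard_biU_le _ _ (2 + 8 * k) ?_).trans ?_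
  · intro a _
    exact jt_ncard I y x Red Bl α a.1 a.2
  · rw [Finset.card_product, Finset.card_range, Finset.card_univ, Fintype.card_fin]

end Pool.Agent.BTV
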