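import Pool.Agent.BTV.JLa

/-! BTV JLb: facts for the jump lemma.

`fam_cmp`: two members of `FAM` have comparable pieces (`Itv α` gives equal discs at the starts,
`tyL_none`/`tyL_some` at the ends).
`fam_between`: `c ∈ α`: not strictly between the landings of two members.
PROOF of `mono` (three members `n < a < n'` of `FAM`, landings `m`, `b`, `m'`; claim `Hull m m' b`):
 If `w b ∈ UU y (w n) (some m)` then by `uu_isV` `w b = w n` (impossible, `n ∈ α`, `b ∉ α`) or `b = m`.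
 Same for `n'`.  Otherwise the piece of `a` is disjoint from the pieces of `n` and `n'`: let `t` be in
 `UU y (w a) (some b) ∩ UU y (w n) (some m)`.  `t ≠ w n`: else `w n ∈ UU y (w a)`, so `n = a` or
 `n = b` by `uu_isV`.  `t ≠ w a` likewise.  So `t` is an ancestor of `par (w n)` and of `par (w a)`
 (`LMet.anc_par_of_ne`), by `land_between` `Land t m` and `Land t b`, so `m = b` (`land_unique`), and
 `w b = w m ∈ UU y (w n)`, contradiction.  Take `Ins` from `cl_spec` for `n`, `n'` (object `x.1`).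
 `Ins (w a)` by `hV` (`a` strictly between `n`, `n'`; not strictly between the landings).
 `sep_piece` gives `Ins (w b)`; by `hV` `Xor' (Bt n n' b) (Bt m m' b)`; `b ∉ α` so not `Bt n n' b`.
PROOF of `upsilon`: `Ins` region of two pieces with ends `v, e, v', e'`, all vertices of the leg of
 `w p` towards `x` down to `z` avoid `U ∪ U'`, the vertices before `z` avoid `F4 E v e v' e'`, `Ins (w p)`,
 `z` a vortex vertex.  If `w p = z` take `υ := p`.  Otherwise let `t0` be the last vertex before `z`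
 (`par x t0 = z`, `t0 ≠ z`, on the leg); `conf_leg` from `w p` to `t0`: `Ins t0`.  If `t0`, `z` are not
 in a common bag then they are `H`-adjacent and `hH` gives `Ins z`: `υ :=` position of `z`.
 Otherwise `t0 = w υ` (`X_sub`) and both are in a common bag. -/

set_option autoImplicit false

open Classical

namespace Pool.Agent.BTV

open Pool.Agent.BTD Pool.Agent.H81.Balls

universe u

variable {V : Type u} [Fintype V] {g k s : ℕ} {I : Inst g k s V} {y x : V × ℕ} {Red Bl : Set V}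
  {α : Set (Fin I.E.n)} {τ : ℕ} {κ : Fin (NC.{u} g k s)}

omit [Fintype V] in
private lemma JLb_po (p : Fin I.E.n) : I.E.po (I.E.w p) = some p := by
  unfold NE.po
  have h : ∃ q, I.E.w q = I.E.w p := ⟨p, rfl⟩
  rw [dif_pos h]
  exact congrArg some (I.E.w_inj _ _ h.choose_spec)

private lemma JLb_fam {n : Fin I.E.n} {e : Option (Fin I.E.n)} (hn : n ∈ FAM I y x Red α τ κ)
    (h : Reg I.M I.E y.1 (I.E.w n) e) :
    n ∈ α ∧ (∀ b, e = some b → b ∉ α) ∧ tyL I.E α e = τ ∧ I.cl x.1 y.1 (I.E.w n) = κ := by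
  obtain ⟨h1, -, e1, h2, h3, h4, h5⟩ := hn
  have he : e1 = e := reg_unique h2 h
  subst he
  exact ⟨h1, h3, h4, h5⟩

lemma fam_cmp (hα : I.E.Itv α) {n n' : Fin I.E.n} {e e' : Option (Fin I.E.n)}
    (hn : n ∈ FAM I y x Red α τ κ) (hn' : n' ∈ FAM I y x Red α τ κ)
    (h : Reg I.M I.E y.1 (I.E.w n) e) (h' : Reg I.M I.E y.1 (I.E.w n') e') :
    Cmp I.E y.1 (I.E.w n) e y.1 (I.E.w n') e' := by
  obtain ⟨a1, a2, a3, -⟩ := JLb_fam hn h
  obtain ⟨b1, b2, b3, -⟩ := JLb_fam hn' h'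
  refine ⟨Or.inr ⟨n, n', rfl, rfl, hα.1 n a1 n' b1⟩, ?_⟩
  have ht : tyL I.E α e' = tyL I.E α e := by rw [a3, b3]
  cases e with
  | none =>
    exact Or.inl ⟨rfl, tyL_none ht, rfl⟩
  | some b =>
    obtain ⟨b', h1, h2, -⟩ := tyL_some hα ht (a2 b rfl) b2
    exact Or.inr ⟨b, b', rfl, h1, h2.symm⟩

lemma fam_between (hα : I.E.Itv α) {n n' c : Fin I.E.n} {e e' : Option (Fin I.E.n)}
    (hn : n ∈ FAM I y x Red α τ κ) (hn' : n' ∈ FAM I y x Red α τ κ)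
    (h : Reg I.M I.E y.1 (I.E.w n) e) (h' : Reg I.M I.E y.1 (I.E.w n') e') (hc : c ∈ α) :
    ¬ I.E.OBt e e' c := by
  obtain ⟨a1, a2, a3, -⟩ := JLb_fam hn h
  obtain ⟨b1, b2, b3, -⟩ := JLb_fam hn' h'
  rintro ⟨b, b', rfl, rfl, hbt⟩
  have ht : tyL I.E α (some b') = tyL I.E α (some b) := by rw [a3, b3]
  obtain ⟨b'', h1, -, h3⟩ := tyL_some hα ht (a2 b rfl) b2
  have h4 : b' = b'' := Option.some.inj h1
  subst h4
  exact h3 c hc hbt

omit [Fintype V] in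
private lemma JLb_disj {n a m b : Fin I.E.n}
    (hDn : I.M.D (I.E.w n) y.1 ≠ ⊤) (hDa : I.M.D (I.E.w a) y.1 ≠ ⊤) (hna : n ≠ a) (hnb : n ≠ b)
    (ham : a ≠ m) (hm : Reg I.M I.E y.1 (I.E.w n) (some m))
    (hb : Reg I.M I.E y.1 (I.E.w a) (some b)) (hbm : b ≠ m) :
    ∀ t ∈ UU I.M I.E y.1 (I.E.w a) (some b), t ∉ UU I.M I.E y.1 (I.E.w n) (some m) := by
  intro t ht ht'
  have h1 : t ≠ I.E.w n := by
    rintro rfl
    rcases uu_isV hb ht ⟨n, rfl⟩ with h | ⟨b', h2, h3⟩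
    · exact hna (I.E.w_inj _ _ h)
    · rw [← Option.some.inj h2] at h3
      exact hnb (I.E.w_inj _ _ h3)
  have h2 : t ≠ I.E.w a := by
    rintro rfl
    rcases uu_isV hm ht' ⟨a, rfl⟩ with h | ⟨b', h2, h3⟩
    · exact hna (I.E.w_inj _ _ h).symm
    · rw [← Option.some.inj h2] at h3
      exact ham (I.E.w_inj _ _ h3)
  have h3 := land_between (LMet.par_ne_top hDn) hm.2.2.2 (LMet.anc_par_of_ne ht'.1 h1) ht'.2
  have h4 := land_between (LMet.par_ne_top hDa) hb.2.2.2 (LMet.anc_par_of_ne ht.1 h2) ht.2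
  exact hbm (land_unique h4.1 h3.1)

theorem mono (hα : I.E.Itv α) {n a n' m b m' : Fin I.E.n} (hR : I.M.Cl y.1 Red) (hB : I.M.Cl x.1 Bl)
    (hn : n ∈ FAM I y x Red α τ κ) (ha : a ∈ FAM I y x Red α τ κ) (hn' : n' ∈ FAM I y x Red α τ κ)
    (h1 : n < a) (h2 : a < n')
    (hm : Reg I.M I.E y.1 (I.E.w n) (some m)) (hb : Reg I.M I.E y.1 (I.E.w a) (some b))
    (hm' : Reg I.M I.E y.1 (I.E.w n') (some m')) : I.E.Hull m m' b := by
  obtain ⟨n1, n2, -, n4⟩ := JLb_fam hn hm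
  obtain ⟨a1, a2, -, -⟩ := JLb_fam ha hb
  obtain ⟨n1', n2', -, n4'⟩ := JLb_fam hn' hm'
  have hmα := n2 m rfl
  have hbα := a2 b rfl
  have hmα' := n2' m' rfl
  have hDn := (hR _ hn.2.1).1
  have hDa := (hR _ ha.2.1).1
  have hDn' := (hR _ hn'.2.1).1
  by_cases hbm : b = m
  · subst hbm
    rcases le_total b m' with h | h
    · exact Or.inl ⟨le_rfl, h⟩
    · exact Or.inr ⟨h, le_rfl⟩
  by_cases hbm' : b = m'
  · subst hbm'
    rcases le_total m b with h | h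
    · exact Or.inl ⟨h, le_rfl⟩
    · exact Or.inr ⟨le_rfl, h⟩
  have hne : ∀ {c d : Fin I.E.n}, c ∈ α → d ∉ α → c ≠ d := by
    rintro c d hc hd rfl
    exact hd hc
  have hd := JLb_disj hDn hDa h1.ne (hne n1 hbα) (hne a1 hmα) hm hb hbm
  have hd' := JLb_disj hDn' hDa h2.ne' (hne n1' hbα) (hne a1 hmα') hm' hb hbm'
  obtain ⟨Ins, hS, -⟩ := cl_spec I x.1 hm hm' (fam_cmp hα hn hn' hm hm') (by rw [n4, n4'])
  have hsa := uu_start hb
  have hsb := uu_end hb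
  have hInsa : Ins (I.E.w a) := by
    rw [hS.hV a (hd _ hsa) (hd' _ hsa)]
    refine Or.inl ⟨⟨n, n', JLb_po n, JLb_po n', Or.inl ⟨h1, h2⟩⟩, ?_⟩
    exact fam_between hα hn hn' hm hm' a1
  have hInsb : Ins (I.E.w b) := by
    rw [← sep_piece I.fits hS hb (fun t ht => ⟨hd t ht, hd' t ht⟩)]
    exact hInsa
  rw [hS.hV b (hd _ hsb) (hd' _ hsb)] at hInsb
  have hnb : ¬ I.E.OBt (I.E.po (I.E.w n)) (I.E.po (I.E.w n')) b := by
    rintro ⟨c, c', hc, hc', hbt⟩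
    rw [JLb_po] at hc hc'
    rw [← Option.some.inj hc, ← Option.some.inj hc'] at hbt
    exact hbα (itv_bt hα n1 n1' hbt)
  rcases hInsb with ⟨h3, -⟩ | ⟨⟨c, c', hc, hc', hbt⟩, -⟩
  · exact absurd h3 hnb
  · rw [← Option.some.inj hc, ← Option.some.inj hc'] at hbt
    rcases hbt with ⟨h4, h5⟩ | ⟨h4, h5⟩
    · exact Or.inl ⟨h4.le, h5.le⟩
    · exact Or.inr ⟨h4.le, h5.le⟩

theorem upsilon {q v q' v' : V} {e e' : Option (Fin I.E.n)} {Ins : V → Prop}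
    (h : Sep I.M I.E q v e q' v' e' Ins) {p ζ : Fin I.E.n}
    (hD : I.M.D (I.E.w p) x.1 ≠ ⊤) (hz : I.M.Anc x.1 (I.E.w ζ) (I.E.w p)) (hins : Ins (I.E.w p))
    (ha : ∀ t, I.M.Anc x.1 t (I.E.w p) → I.M.Anc x.1 (I.E.w ζ) t →
      t ∉ UU I.M I.E q v e ∧ t ∉ UU I.M I.E q' v' e' ∧ (t ≠ I.E.w ζ → t ∉ F4 I.E v e v' e')) :
    ∃ υ, Ins (I.E.w υ) ∧ I.M.Anc x.1 (I.E.w υ) (I.E.w p) ∧ I.M.Anc x.1 (I.E.w ζ) (I.E.w υ) ∧
      (υ = ζ ∨ ∃ p', I.E.w υ ∈ I.E.X p' ∧ I.E.w ζ ∈ I.E.X p') := by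
  by_cases hpz : I.E.w p = I.E.w ζ
  · exact ⟨p, hins, LMet.anc_refl, hz, Or.inl (I.E.w_inj _ _ hpz)⟩
  have hex : ∃ k : ℕ, (I.M.par x.1)^[k] (I.E.w p) = I.E.w ζ := hz
  have h0 : Nat.find hex ≠ 0 := by
    intro h0
    have := Nat.find_spec hex
    rw [h0] at this
    exact hpz this
  obtain ⟨j, hj⟩ := Nat.exists_eq_succ_of_ne_zero h0
  have hj1 : (I.M.par x.1)^[j] (I.E.w p) ≠ I.E.w ζ := Nat.find_min hex (by omega)
  have hj2 : I.M.par x.1 ((I.M.par x.1)^[j] (I.E.w p)) = I.E.w ζ := by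
    have := Nat.find_spec hex
    rw [hj, Function.iterate_succ_apply'] at this
    exact this
  obtain ⟨t0, ht0⟩ : ∃ t0, (I.M.par x.1)^[j] (I.E.w p) = t0 := ⟨_, rfl⟩
  rw [ht0] at hj1 hj2
  have hanc : I.M.Anc x.1 t0 (I.E.w p) := ⟨j, ht0⟩
  have hanc2 : I.M.Anc x.1 (I.E.w ζ) t0 := ⟨1, hj2⟩
  have hDt : I.M.D t0 x.1 ≠ ⊤ := LMet.Anc.ne_top hanc hD
  have hIt : Ins t0 := by
    refine (conf_leg I.fits h hD hanc ?_).1 hins
    intro t ht1 ht2
    have h1 := ha t ht1 (LMet.anc_trans hanc2 ht2)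
    refine ⟨h1.1, h1.2.1, h1.2.2 ?_⟩
    rintro rfl
    exact hj1 (LMet.anc_antisymm hDt ht2 hanc2)
  have htx : t0 ≠ x.1 := by
    rintro h1
    rw [h1, LMet.par_root] at hj2
    rw [h1] at hj1
    exact hj1 hj2
  by_cases hst : I.E.VSt t0 (I.M.par x.1 t0)
  · obtain ⟨p', h1, h2⟩ := hst
    rw [hj2] at h2
    obtain ⟨υ, h3, -⟩ := I.E.X_sub p' t0 h1
    subst h3
    exact ⟨υ, hIt, hanc, hanc2, Or.inr ⟨p', h1, h2⟩⟩
  · have hadj := hadj_par I.fits hDt htx hst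
    rw [hj2] at hadj
    have h1 := ha t0 hanc hanc2
    have h2 := ha (I.E.w ζ) hz LMet.anc_refl
    exact ⟨ζ, (h.hH _ _ hadj h1.1 h1.2.1 h2.1 h2.2.1).1 hIt, hz, LMet.anc_refl, Or.inl rfl⟩

end Pool.Agent.BTV
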