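import Pool.Agent.BTV.JLb

/-! BTV JLc: the jump lemma.

PROOF.  `κ := I.cl x.1 y.1 (w a)`, `τ := tyL α e`, `F := FAM I y x Red α τ κ ∋ a`; `n`, `n'` = least and
greatest element of `F` (finite), both in `JOut`.  `n ≤ a ≤ n'`.  If `n` or `n'` is in
`Hull a a'` we are done.  Otherwise `n < a, a'` and `a, a' < n'`.
Let `en`, `en'` be the landings of `n`, `n'`.  `Ins` from `cl_spec` with `o = x.1`
(`fam_cmp`).  All of `UU y (w n) en` is in `Red` (`uu_sub`), `x.1 ∈ Bl` (`LMet.Cl.root`), so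
`¬ Ins x.1`.  `Ins (w a')`: `hV`, `Bt n n' a'`, `fam_between`.
EXIT: if the leg of `w a'` towards `x.1` avoids `F4 := F4 E (w n) en (w n') en'` then `conf_leg`
gives `Ins x.1`; contradiction.  Let `z` be the first vertex of this leg in `F4` (least iterate
number).  `z = w ζ` (`bag_isV`).  So `a' ∈ DD I x Bl α n n' F4 z`.  Let `zL`, `zR` be its least and greatest
elements: in `JOut`, `zL ≤ a' ≤ zR`; if one of them is in `Hull a a'` done; otherwise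
`zL < a < zR`.
CONTRADICTION: `Ins1` for the pieces of `n` and `a`, `Ins2` for the pieces of `a` and `n'` (`cl_spec`;
all have class `κ`).  `Ins1 (w zL)` by `hV` (`n < zL < a`, `fam_between`); `Ins2 (w zR)`.  The legs of
`w zL`, `w zR` down to `z` are in `Bl` (`LMet.Cl.anc`), so off all pieces, and avoid `X a`, `OX e`
(hypothesis `hXa`), before `z` avoid `F4`.  `upsilon` gives `υ` (for `zL`, `Ins1`) and `υ'` (for `zR`,
`Ins2`).  `w υ`, `w υ'`, `w ζ` are in `Bl`, not in `X a`, `OX e`, `Gt α` (members of `DD` avoid the gates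
up to and including `z`).
 By `bag_between`: `a ∉ Hull υ ζ`, and if `e = some b`: `b ∉ Hull υ ζ`; by `gate_cross`:
 `υ ∈ α ↔ ζ ∈ α`; the same for `υ'`.
 `hV` for `υ`: `Xor' (Bt n a υ) (OBt en e υ)`; for `υ'`: `Xor' (Bt a n' υ') (OBt e en' υ')`.
 Case `Bt n a υ`: `υ ∈ α`, so `ζ, υ' ∈ α`; `fam_between` excludes `OBt e en' υ'`; so
 `υ < a < υ'`; `a` lies in `Hull υ ζ` or in `Hull υ' ζ`; contradiction.
 Case `OBt en e υ`: `en = some m`, `e = some b`, `υ ∉ α` (`fam_between`), so `ζ, υ' ∉ α`, so not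
 `Bt a n' υ'` (`Itv`), so `en' = some m'`, `Bt b m' υ'`, `Bt m b υ`.  By `mono` `Hull m m' b`.  So `b` is
 strictly between `υ` and `υ'`, hence in `Hull υ ζ` or `Hull υ' ζ`; contradiction. -/

set_option autoImplicit false

open Classical

namespace Pool.Agent.BTV

open Pool.Agent.BTD Pool.Agent.H81.Balls

universe u

variable {V : Type u} [Fintype V] {g k s : ℕ}

lemma JLc_po {V : Type u} {E : NE V} (p : Fin E.n) : E.po (E.w p) = some p := by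
  have h : ∃ p', E.w p' = E.w p := ⟨p, rfl⟩
  unfold NE.po
  rw [dif_pos h]
  exact congrArg some (E.w_inj _ _ h.choose_spec)

lemma JLc_obt {V : Type u} {E : NE V} {a b p : Fin E.n} :
    E.OBt (some a) (some b) p ↔ E.Bt a b p := by
  constructor
  · rintro ⟨a', b', h1, h2, h3⟩
    cases h1
    cases h2
    exact h3
  · intro h
    exact ⟨a, b, rfl, rfl, h⟩

lemma JLc_lo {V : Type u} {E : NE V} {a a' c : Fin E.n} (h : c ≤ a ∨ c ≤ a')
    (hn : ¬ E.Hull a a' c) : c < a ∧ c < a' := by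
  unfold NE.Hull at hn
  simp only [Fin.le_def, Fin.lt_def] at *
  omega

lemma JLc_hi {V : Type u} {E : NE V} {a a' c : Fin E.n} (h : a ≤ c ∨ a' ≤ c)
    (hn : ¬ E.Hull a a' c) : a < c ∧ a' < c := by
  unfold NE.Hull at hn
  simp only [Fin.le_def, Fin.lt_def] at *
  omega

lemma JLc_least {N : ℕ} {F : Set (Fin N)} {a : Fin N} (ha : a ∈ F) : ∃ n, IsLeast F n := by
  obtain ⟨n, hn, h⟩ := Set.exists_min_image F id (Set.toFinite F) ⟨a, ha⟩
  exact ⟨n, hn, fun b hb => h b hb⟩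

lemma JLc_greatest {N : ℕ} {F : Set (Fin N)} {a : Fin N} (ha : a ∈ F) : ∃ n, IsGreatest F n := by
  obtain ⟨n, hn, h⟩ := Set.exists_max_image F id (Set.toFinite F) ⟨a, ha⟩
  exact ⟨n, hn, fun b hb => h b hb⟩

lemma JLc_F4_isV {V : Type u} {E : NE V} {v v' t : V} {e e' : Option (Fin E.n)}
    (h : t ∈ F4 E v e v' e') : E.IsV t := by
  rcases h with (⟨p, -, h⟩ | ⟨p, -, h⟩) | (⟨p, -, h⟩ | ⟨p, -, h⟩) <;> exact bag_isV h

theorem jumpL (I : Inst g k s V) (y x : V × ℕ) (Red Bl : Set V) (α : Set (Fin I.E.n))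
    (hR : I.M.Cl y.1 Red) (hB : I.M.Cl x.1 Bl) (hd : Disjoint Red Bl) (hα : I.E.Itv α)
    {a a' : Fin I.E.n} (ha : a ∈ α) (ha' : a' ∈ α) {e : Option (Fin I.E.n)}
    (he : Reg I.M I.E y.1 (I.E.w a) e) (haR : I.E.w a ∈ Red) (hout : ∀ b, e = some b → b ∉ α)
    (ha'B : I.E.w a' ∈ Bl) (hgate : ∀ t, I.M.Anc x.1 t (I.E.w a') → t ∉ I.E.Gt α)
    (hXa : ∀ t ∈ Bl, t ∉ I.E.X a ∧ t ∉ I.E.OX e) :
    ∃ q ∈ JOut I y x Red Bl α, I.E.Hull a a' q := by
  have haF : a ∈ FAM I y x Red α (tyL I.E α e) (I.cl x.1 y.1 (I.E.w a)) :=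
    ⟨ha, haR, e, he, hout, rfl, rfl⟩
  obtain ⟨n, hn⟩ := JLc_least haF
  obtain ⟨n', hn'⟩ := JLc_greatest haF
  by_cases c1 : I.E.Hull a a' n
  · exact ⟨n, ⟨_, _, Or.inl hn⟩, c1⟩
  by_cases c2 : I.E.Hull a a' n'
  · exact ⟨n', ⟨_, _, Or.inr (Or.inl hn')⟩, c2⟩
  obtain ⟨hna, hna'⟩ := JLc_lo (Or.inl (hn.2 haF)) c1
  obtain ⟨hn'a, hn'a'⟩ := JLc_hi (Or.inl (hn'.2 haF)) c2
  have hnM := hn.1
  have hn'M := hn'.1
  obtain ⟨hnα, hnR, en, hen, heno, -, hncl⟩ := hn.1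
  obtain ⟨hn'α, hn'R, en', hen', heno', -, hn'cl⟩ := hn'.1
  have hdj : ∀ t ∈ Bl, t ∉ Red := fun t ht ht' => Set.disjoint_left.mp hd ht' ht
  have hx0 : x.1 ∈ Bl := hB.root ha'B
  have huu : ∀ (p : Fin I.E.n) (ep : Option (Fin I.E.n)), I.E.w p ∈ Red → ∀ t ∈ Bl,
      t ∉ UU I.M I.E y.1 (I.E.w p) ep :=
    fun p ep hp t ht h => hdj t ht (uu_sub hR hp h)
  obtain ⟨Ins, hS, hO⟩ := cl_spec I x.1 hen hen' (fam_cmp hα hnM hn'M hen hen')
    (hncl.trans hn'cl.symm)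
  have hOx : ¬ Ins x.1 := hO (huu n en hnR _ hx0) (huu n' en' hn'R _ hx0)
  have hIa' : Ins (I.E.w a') := by
    refine (hS.hV a' (huu n en hnR _ ha'B) (huu n' en' hn'R _ ha'B)).mpr (Or.inl ⟨?_, ?_⟩)
    · rw [JLc_po, JLc_po, JLc_obt]
      exact Or.inl ⟨hna', hn'a'⟩
    · exact fam_between hα hnM hn'M hen hen' ha'
  have hD' : I.M.D (I.E.w a') x.1 ≠ ⊤ := (hB _ ha'B).1
  have hanc : ∀ t, I.M.Anc x.1 t (I.E.w a') → t ∈ Bl := fun t ht => hB.anc ha'B ht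
  have hex : ∃ j, (I.M.par x.1)^[j] (I.E.w a') ∈ F4 I.E (I.E.w n) en (I.E.w n') en' := by
    by_contra hcon
    have hcon' : ∀ j, (I.M.par x.1)^[j] (I.E.w a') ∉ F4 I.E (I.E.w n) en (I.E.w n') en' :=
      fun j hj => hcon ⟨j, hj⟩
    have h1 := conf_leg I.fits hS hD' (LMet.anc_root hD')
      (fun t ht _ => ⟨huu n en hnR t (hanc t ht), huu n' en' hn'R t (hanc t ht), by
        obtain ⟨j, rfl⟩ := ht
        exact hcon' j⟩)
    exact hOx (h1.mp hIa')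
  obtain ⟨K, hK⟩ : ∃ K, K = Nat.find hex := ⟨_, rfl⟩
  have hzF := Nat.find_spec hex
  have hzmin : ∀ j, j < K → (I.M.par x.1)^[j] (I.E.w a') ∉ F4 I.E (I.E.w n) en (I.E.w n') en' :=
    fun j hj => Nat.find_min hex (hK ▸ hj)
  rw [← hK] at hzF
  obtain ⟨ζ, hζ⟩ := JLc_F4_isV hzF
  rw [← hζ] at hzF
  have hζa : I.M.Anc x.1 (I.E.w ζ) (I.E.w a') := ⟨K, hζ.symm⟩
  have ha'D : a' ∈ DD I x Bl α n n' (F4 I.E (I.E.w n) en (I.E.w n') en') (I.E.w ζ) := by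
    refine ⟨ha', hna', hn'a', ha'B, hζa, ?_⟩
    intro t ht hzt
    refine ⟨hgate t ht, ?_⟩
    intro hne htF
    have htB := hanc t ht
    obtain ⟨i, hi⟩ := ht
    by_cases hik : i < K
    · exact hzmin i hik (by rw [hi]; exact htF)
    · apply hne
      have h2 : I.M.Anc x.1 t (I.E.w ζ) := ⟨i - K, by
        rw [hζ, ← Function.iterate_add_apply, Nat.sub_add_cancel (not_lt.mp hik)]
        exact hi⟩
      exact LMet.anc_antisymm (hB t htB).1 h2 hzt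
  obtain ⟨zL, hzL⟩ := JLc_least ha'D
  obtain ⟨zR, hzR⟩ := JLc_greatest ha'D
  by_cases c3 : I.E.Hull a a' zL
  · exact ⟨zL, ⟨_, _, Or.inr (Or.inr ⟨n, n', en, en', I.E.w ζ, hn, hn', hen, hen', hzF,
      Or.inl hzL⟩)⟩, c3⟩
  by_cases c4 : I.E.Hull a a' zR
  · exact ⟨zR, ⟨_, _, Or.inr (Or.inr ⟨n, n', en, en', I.E.w ζ, hn, hn', hen, hen', hzF,
      Or.inr hzR⟩)⟩, c4⟩
  obtain ⟨hLa, -⟩ := JLc_lo (Or.inr (hzL.2 ha'D)) c3
  obtain ⟨hRa, -⟩ := JLc_hi (Or.inr (hzR.2 ha'D)) c4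
  obtain ⟨hLα, hnL, hLn', hLB, hLz, hLt⟩ := hzL.1
  obtain ⟨hRα, hnR', hRn', hRB, hRz, hRt⟩ := hzR.1
  obtain ⟨Ins1, hS1, -⟩ := cl_spec I x.1 hen he (fam_cmp hα hnM haF hen he) hncl
  obtain ⟨Ins2, hS2, -⟩ := cl_spec I x.1 he hen' (fam_cmp hα haF hn'M he hen') hn'cl.symm
  have I1 : Ins1 (I.E.w zL) := by
    refine (hS1.hV zL (huu n en hnR _ hLB) (huu a e haR _ hLB)).mpr (Or.inl ⟨?_, ?_⟩)
    · rw [JLc_po, JLc_po, JLc_obt]
      exact Or.inl ⟨hnL, hLa⟩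
    · exact fam_between hα hnM haF hen he hLα
  have I2 : Ins2 (I.E.w zR) := by
    refine (hS2.hV zR (huu a e haR _ hRB) (huu n' en' hn'R _ hRB)).mpr (Or.inl ⟨?_, ?_⟩)
    · rw [JLc_po, JLc_po, JLc_obt]
      exact Or.inl ⟨hRa, hRn'⟩
    · exact fam_between hα haF hn'M he hen' hRα
  have hXa1 : ∀ t ∈ Bl, t ∉ I.E.OX (I.E.po (I.E.w a)) := by
    rintro t ht ⟨p, hp, hp'⟩
    rw [JLc_po] at hp
    cases hp
    exact (hXa t ht).1 hp'
  obtain ⟨υ, hυI, hυp, hυz, hυ⟩ := upsilon hS1 (hB _ hLB).1 hLz I1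
    (fun t ht hzt => ⟨huu n en hnR t (hB.anc hLB ht), huu a e haR t (hB.anc hLB ht),
      fun hne htF => by
        rcases htF with h3 | (h3 | h3)
        · exact (hLt t ht hzt).2 hne (Or.inl h3)
        · exact hXa1 t (hB.anc hLB ht) h3
        · exact (hXa t (hB.anc hLB ht)).2 h3⟩)
  obtain ⟨υ', hυI', hυp', hυz', hυ'⟩ := upsilon hS2 (hB _ hRB).1 hRz I2
    (fun t ht hzt => ⟨huu a e haR t (hB.anc hRB ht), huu n' en' hn'R t (hB.anc hRB ht),
      fun hne htF => by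
        rcases htF with (h3 | h3) | h3
        · exact hXa1 t (hB.anc hRB ht) h3
        · exact (hXa t (hB.anc hRB ht)).2 h3
        · exact (hRt t ht hzt).2 hne (Or.inr h3)⟩)
  have hυB : I.E.w υ ∈ Bl := hB.anc hLB hυp
  have hυB' : I.E.w υ' ∈ Bl := hB.anc hRB hυp'
  have hζB : I.E.w ζ ∈ Bl := hanc _ hζa
  have hζG : I.E.w ζ ∉ I.E.Gt α := hgate _ hζa
  have hυG : I.E.w υ ∉ I.E.Gt α := (hLt _ hυp hυz).1
  have hυG' : I.E.w υ' ∉ I.E.Gt α := (hRt _ hυp' hυz').1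
  have hnoH : ∀ u, I.E.w u ∈ Bl → (u = ζ ∨ ∃ p', I.E.w u ∈ I.E.X p' ∧ I.E.w ζ ∈ I.E.X p') →
      ∀ c, (∀ t ∈ Bl, t ∉ I.E.X c) → ¬ I.E.Hull u ζ c := by
    intro u huB hu c hc hH
    rcases hu with rfl | ⟨p', h1, h2⟩
    · have h3 : c = u := by
        unfold NE.Hull at hH
        rcases hH with hH | hH <;> exact le_antisymm hH.2 hH.1
      rw [h3] at hc
      exact hc _ huB (I.E.w_mem _)
    · rcases bag_between h1 h2 hH with h | h
      · exact hc _ huB h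
      · exact hc _ hζB h
  have hiff : ∀ u, I.E.w u ∉ I.E.Gt α →
      (u = ζ ∨ ∃ p', I.E.w u ∈ I.E.X p' ∧ I.E.w ζ ∈ I.E.X p') → (u ∈ α ↔ ζ ∈ α) := by
    intro u huG hu
    rcases hu with rfl | ⟨p', h1, h2⟩
    · exact Iff.rfl
    · constructor
      · intro h
        by_contra h'
        rcases gate_cross hα h h' h1 h2 with h3 | h3
        · exact huG h3
        · exact hζG h3
      · intro h
        by_contra h'
        rcases gate_cross hα h h' h2 h1 with h3 | h3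
        · exact hζG h3
        · exact huG h3
  have hca : ∀ t ∈ Bl, t ∉ I.E.X a := fun t ht => (hXa t ht).1
  have X1 := (hS1.hV υ (huu n en hnR _ hυB) (huu a e haR _ hυB)).mp hυI
  have X2 := (hS2.hV υ' (huu a e haR _ hυB') (huu n' en' hn'R _ hυB')).mp hυI'
  rw [JLc_po, JLc_po, JLc_obt] at X1 X2
  exfalso
  rcases X1 with ⟨hb1, -⟩ | ⟨hb1, -⟩
  · have h1 : υ' ∈ α := (hiff υ' hυG' hυ').mpr ((hiff υ hυG hυ).mp (itv_bt hα hnα ha hb1))
    rcases X2 with ⟨h3, -⟩ | ⟨h3, -⟩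
    · have h4 : υ < a := by
        rcases hb1 with h | h
        · exact h.2
        · exact absurd (h.1.trans h.2) (not_lt.mpr hna.le)
      have h5 : a < υ' := by
        rcases h3 with h | h
        · exact h.1
        · exact absurd (h.1.trans h.2) (not_lt.mpr hn'a.le)
      rcases le_total ζ a with h6 | h6
      · exact hnoH υ' hυB' hυ' a hca (Or.inr ⟨h6, h5.le⟩)
      · exact hnoH υ hυB hυ a hca (Or.inl ⟨h4.le, h6⟩)
    · exact fam_between hα haF hn'M he hen' h1 h3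
  · obtain ⟨m, b, hm, hb, hmb⟩ := hb1
    have h1 : υ ∉ α := fun h => fam_between hα hnM haF hen he h ⟨m, b, hm, hb, hmb⟩
    have h2 : υ' ∉ α := fun h => h1 ((hiff υ hυG hυ).mpr ((hiff υ' hυG' hυ').mp h))
    rcases X2 with ⟨h3, -⟩ | ⟨h3, -⟩
    · exact h2 (itv_bt hα ha hn'α h3)
    · obtain ⟨b', m', hb', hm', hbm⟩ := h3
      have hbb : b' = b := by
        rw [hb] at hb'
        cases hb'
        rfl
      subst hbb
      subst hm hb hm'
      have hH := mono hα hR hB hnM haF hn'M hna hn'a hen he hen'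
      have hcb : ∀ t ∈ Bl, t ∉ I.E.X b' := fun t ht h => (hXa t ht).2 ⟨b', rfl, h⟩
      have hno := hnoH υ hυB hυ b' hcb
      have hno' := hnoH υ' hυB' hυ' b' hcb
      unfold NE.Hull at hH hno hno'
      unfold NE.Bt at hmb hbm
      simp only [Fin.le_def, Fin.lt_def] at hH hno hno' hmb hbm
      omega

end Pool.Agent.BTV
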