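import Pool.Agent.BTV.LA

/-! BTV LB: regions and legs.

`bag_between`: `w a, w b ∈ X p`, `c` weakly between `a` and `b` (`Hull a b c`): then `w a ∈ X c` or
`w b ∈ X c`: if `c` is between `a` and `p`: `w a ∈ X a ∩ X p ⊆ X c` (`X_int`, `w_mem`); otherwise `c`
is between `p` and `b`.
`conf`: `G`-adjacent `x, y` off `U ∪ U' ∪ F4`.  By `Fits`: an `H`-edge: `hH`.  Otherwise
`x, y ∈ X p`, `x = w a`, `y = w b` (`X_sub`): by `hV` `Ins x ↔ Xor' (OBt .. a) (OBt .. b)`; we show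
`OBt (po v) (po v') a ↔ OBt (po v) (po v') b` and the same for `e, e'`: if `po v = some c`,
`po v' = some c'` and exactly one of `a`, `b` is strictly between `c` and `c'` then `c` or `c'` is
weakly between `a` and `b`, so `x` or `y` is in `X c` or `X c'` (`bag_between`), which are part of
`F4`; contradiction.
`conf_leg`: induction along the iterates from `v0` to `z`; each step is a `G`-edge
(`LMet.par_adj`; if the iterate equals `q0` the remaining iterates are equal).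
`sep_piece`: along a regular piece from `v0` to `w b` (all steps are `H`-edges: first step by `Reg`
and `hadj_par`, the others because the vertices are planar, bag elements are vortex vertices),
induction with `hH`.  `sep_piece_none`: the same up to `q0`. -/

set_option autoImplicit false

open Classical

namespace Pool.Agent.BTV

open Pool.Agent.BTD Pool.Agent.H81.Balls

universe u

variable {V : Type u} {G : SimpleGraph V} {M : LMet G} {E : NE V}

lemma bag_between {a b c p : Fin E.n} (ha : E.w a ∈ E.X p) (hb : E.w b ∈ E.X p) (hc : E.Hull a b c) :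
    E.w a ∈ E.X c ∨ E.w b ∈ E.X c := by
  rcases hc with ⟨h1, h2⟩ | ⟨h1, h2⟩
  · rcases le_total c p with h | h
    · exact Or.inl (E.X_int a c p h1 h _ (E.w_mem a) ha)
    · exact Or.inr (E.X_int p c b h h2 _ hb (E.w_mem b))
  · rcases le_total c p with h | h
    · exact Or.inr (E.X_int b c p h1 h _ (E.w_mem b) hb)
    · exact Or.inl (E.X_int p c a h h2 _ ha (E.w_mem a))

lemma LB_bt {a b c c' : Fin E.n} (h : E.Bt c c' a) (h' : ¬ E.Bt c c' b) :
    E.Hull a b c ∨ E.Hull a b c' := by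
  rcases h with ⟨h1, h2⟩ | ⟨h1, h2⟩
  · rcases lt_or_ge c b with h3 | h3
    · rcases lt_or_ge b c' with h4 | h4
      · exact absurd (Or.inl ⟨h3, h4⟩) h'
      · exact Or.inr (Or.inl ⟨h2.le, h4⟩)
    · exact Or.inl (Or.inr ⟨h3, h1.le⟩)
  · rcases lt_or_ge c' b with h3 | h3
    · rcases lt_or_ge b c with h4 | h4
      · exact absurd (Or.inr ⟨h3, h4⟩) h'
      · exact Or.inl (Or.inl ⟨h2.le, h4⟩)
    · exact Or.inr (Or.inr ⟨h3, h1.le⟩)

lemma LB_hull_symm {a b d : Fin E.n} (h : E.Hull a b d) : E.Hull b a d := by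
  rcases h with h | h
  · exact Or.inr h
  · exact Or.inl h

lemma LB_obt {a b p : Fin E.n} {o o' : Option (Fin E.n)} (ha : E.w a ∈ E.X p) (hb : E.w b ∈ E.X p)
    (h1 : E.w a ∉ E.OX o) (h2 : E.w a ∉ E.OX o') (h3 : E.w b ∉ E.OX o) (h4 : E.w b ∉ E.OX o')
    (h : E.OBt o o' a) : E.OBt o o' b := by
  obtain ⟨c, c', hc, hc', hbt⟩ := h
  refine ⟨c, c', hc, hc', ?_⟩
  by_contra hn
  rcases LB_bt hbt hn with h | h
  · rcases bag_between ha hb h with h | h
    · exact h1 ⟨c, hc, h⟩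
    · exact h3 ⟨c, hc, h⟩
  · rcases bag_between ha hb h with h | h
    · exact h2 ⟨c', hc', h⟩
    · exact h4 ⟨c', hc', h⟩

lemma conf {q v q' v' : V} {e e' : Option (Fin E.n)} {Ins : V → Prop} (hfit : E.Fits G)
    (h : Sep M E q v e q' v' e' Ins) {x y : V} (hxy : G.Adj x y)
    (hx : x ∉ UU M E q v e) (hx' : x ∉ UU M E q' v' e') (hy : y ∉ UU M E q v e) (hy' : y ∉ UU M E q' v' e')
    (hxF : x ∉ F4 E v e v' e') (hyF : y ∉ F4 E v e v' e') : Ins x ↔ Ins y := by
  rcases hfit x y hxy with hH | ⟨p, hxp, hyp⟩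
  · exact h.hH x y hH hx hx' hy hy'
  · obtain ⟨a, rfl, _⟩ := E.X_sub p x hxp
    obtain ⟨b, rfl, _⟩ := E.X_sub p y hyp
    have x1 : E.w a ∉ E.OX (E.po v) := fun h => hxF (Or.inl (Or.inl h))
    have x2 : E.w a ∉ E.OX e := fun h => hxF (Or.inl (Or.inr h))
    have x3 : E.w a ∉ E.OX (E.po v') := fun h => hxF (Or.inr (Or.inl h))
    have x4 : E.w a ∉ E.OX e' := fun h => hxF (Or.inr (Or.inr h))
    have y1 : E.w b ∉ E.OX (E.po v) := fun h => hyF (Or.inl (Or.inl h))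
    have y2 : E.w b ∉ E.OX e := fun h => hyF (Or.inl (Or.inr h))
    have y3 : E.w b ∉ E.OX (E.po v') := fun h => hyF (Or.inr (Or.inl h))
    have y4 : E.w b ∉ E.OX e' := fun h => hyF (Or.inr (Or.inr h))
    rw [h.hV a hx hx', h.hV b hy hy']
    have e1 : E.OBt (E.po v) (E.po v') a ↔ E.OBt (E.po v) (E.po v') b :=
      ⟨LB_obt hxp hyp x1 x3 y1 y3, LB_obt hyp hxp y1 y3 x1 x3⟩
    have e2 : E.OBt e e' a ↔ E.OBt e e' b :=
      ⟨LB_obt hxp hyp x2 x4 y2 y4, LB_obt hyp hxp y2 y4 x2 x4⟩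
    rw [e1, e2]

lemma conf_leg {q v q' v' : V} {e e' : Option (Fin E.n)} {Ins : V → Prop} (hfit : E.Fits G)
    (h : Sep M E q v e q' v' e' Ins) {q0 v0 z : V} (hD : M.D v0 q0 ≠ ⊤) (hz : M.Anc q0 z v0)
    (ha : ∀ x, M.Anc q0 x v0 → M.Anc q0 z x → x ∉ UU M E q v e ∧ x ∉ UU M E q' v' e' ∧
      x ∉ F4 E v e v' e') : Ins v0 ↔ Ins z := by
  obtain ⟨l, hl⟩ := hz
  induction l generalizing v0 with
  | zero => rw [← hl]; rfl
  | succ l ih =>
    rw [Function.iterate_succ_apply] at hl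
    by_cases hq : v0 = q0
    · subst hq
      rw [LMet.par_root] at hl
      exact ih hD ha hl
    · have hz' : M.Anc q0 z (M.par q0 v0) := ⟨l, hl⟩
      have a1 := ha v0 LMet.anc_refl (LMet.anc_trans hz' LMet.anc_par)
      have a2 := ha (M.par q0 v0) LMet.anc_par hz'
      have s1 := conf hfit h (LMet.par_adj hq hD) a1.1 a1.2.1 a2.1 a2.2.1 a1.2.2 a2.2.2
      rw [s1]
      exact ih (LMet.par_ne_top hD) (fun x hx hzx => ha x (LMet.anc_trans hx LMet.anc_par) hzx) hl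

lemma LB_steps {q v q' v' : V} {e e' : Option (Fin E.n)} {Ins : V → Prop} (hfit : E.Fits G)
    (h : Sep M E q v e q' v' e' Ins) {q0 : V} (l : ℕ) {u : V} (hD : M.D u q0 ≠ ⊤)
    (hpl : ∀ j < l, ¬ E.IsV ((M.par q0)^[j] u))
    (ha : ∀ j ≤ l, (M.par q0)^[j] u ∉ UU M E q v e ∧ (M.par q0)^[j] u ∉ UU M E q' v' e') :
    Ins u ↔ Ins ((M.par q0)^[l] u) := by
  induction l generalizing u with
  | zero => rfl
  | succ l ih =>
    by_cases hq : u = q0
    · subst hq
      rw [LMet.CAb_iter_root]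
    · have hH : E.H.Adj u (M.par q0 u) := by
        rcases hfit _ _ (LMet.par_adj hq hD) with hH | ⟨p, hp, _⟩
        · exact hH
        · exact absurd (bag_isV hp) (hpl 0 (Nat.succ_pos l))
      have a0 := ha 0 (Nat.zero_le _)
      have a1 := ha 1 (Nat.succ_le_succ (Nat.zero_le _))
      rw [h.hH _ _ hH a0.1 a0.2 a1.1 a1.2, Function.iterate_succ_apply]
      refine ih (LMet.par_ne_top hD) (fun j hj => ?_) (fun j hj => ?_)
      · have := hpl (j + 1) (by omega)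
        rwa [Function.iterate_succ_apply] at this
      · have := ha (j + 1) (by omega)
        rwa [Function.iterate_succ_apply] at this

lemma sep_piece {q v q' v' : V} {e e' : Option (Fin E.n)} {Ins : V → Prop} (hfit : E.Fits G)
    (h : Sep M E q v e q' v' e' Ins) {q0 v0 : V} {b : Fin E.n} (hr : Reg M E q0 v0 (some b))
    (ha : ∀ x ∈ UU M E q0 v0 (some b), x ∉ UU M E q v e ∧ x ∉ UU M E q' v' e') :
    Ins v0 ↔ Ins (E.w b) := by
  obtain ⟨hD, hq, hst, l, hl, hpl⟩ := hr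
  have hub : ∀ j ≤ l, (M.par q0)^[j] (M.par q0 v0) ∈ UU M E q0 v0 (some b) := by
    intro j hj
    refine ⟨LMet.anc_trans ⟨j, rfl⟩ LMet.anc_par, l - j, ?_⟩
    rw [← Function.iterate_add_apply, Nat.sub_add_cancel hj]
    exact hl
  have h0 : v0 ∈ UU M E q0 v0 (some b) :=
    ⟨LMet.anc_refl, LMet.anc_trans ⟨l, hl⟩ LMet.anc_par⟩
  have a0 := ha v0 h0
  have a1 := ha _ (hub 0 (Nat.zero_le _))
  rw [h.hH _ _ (hadj_par hfit hD hq hst) a0.1 a0.2 a1.1 a1.2]
  have := LB_steps hfit h l (LMet.par_ne_top hD) hpl (fun j hj => ha _ (hub j hj))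
  rw [this, hl]

lemma sep_piece_none {q v q' v' : V} {e e' : Option (Fin E.n)} {Ins : V → Prop} (hfit : E.Fits G)
    (h : Sep M E q v e q' v' e' Ins) {q0 v0 : V} (hr : Reg M E q0 v0 none)
    (ha : ∀ x ∈ UU M E q0 v0 none, x ∉ UU M E q v e ∧ x ∉ UU M E q' v' e') :
    Ins v0 ↔ Ins q0 := by
  obtain ⟨hD, hq, hst, hD', hpl⟩ := hr
  obtain ⟨l, hl⟩ := LMet.anc_root hD'
  have hub : ∀ j ≤ l, (M.par q0)^[j] (M.par q0 v0) ∈ UU M E q0 v0 none :=
    fun j _ => LMet.anc_trans ⟨j, rfl⟩ LMet.anc_par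
  have h0 : v0 ∈ UU M E q0 v0 none := LMet.anc_refl
  have a0 := ha v0 h0
  have a1 := ha _ (hub 0 (Nat.zero_le _))
  rw [h.hH _ _ (hadj_par hfit hD hq hst) a0.1 a0.2 a1.1 a1.2]
  have := LB_steps hfit h l hD' (fun j _ => hpl _ ⟨j, rfl⟩) (fun j hj => ha _ (hub j hj))
  rw [this, hl]

end Pool.Agent.BTV
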