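import Pool.Agent.BTV.CDe

/-! BTV NA: nearest sites with tie-break.

`ix` numbers the vertices.  `Near M S x v`: `x ∈ S` is the nearest site of `S` to `v` (at finite
distance), ties broken by `ix`.
`near_unique`: equal `ix` gives `x.1 = x'.1`; equal finite `wd` gives `x.2 = x'.2`.
`near_exists`: among the sites of `S` with minimal `wd · v` (`< ⊤`), minimise `ix x.1`.
`near_cl`: `v ≠ x.1`, `v' := par x.1 v`, `wd x v = len + wd x v'`; for `y ∈ S`:
`wd y v ≤ len + wd y v'`; if `wd y v' < wd x v'` then `wd y v < wd x v`, contradiction; if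
`wd y v' = wd x v'` then `wd y v ≤ wd x v` so `=` and `ix x.1 ≤ ix y.1`.
`near_lift`: `Near S x v`, `y` nearest in `X`, `y ∈ S`: then `Near S y v`, so `y = x`. -/

set_option autoImplicit false

open Classical

namespace Pool.Agent.BTV

open Pool.Agent.BTD

universe u

variable {V : Type u} [Fintype V] {G : SimpleGraph V} {M : LMet G}

noncomputable def ix (v : V) : ℕ := (Fintype.equivFin V v).val

def Near (M : LMet G) (S : Set (V × ℕ)) (x : V × ℕ) (v : V) : Prop :=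
  x ∈ S ∧ M.wd x v ≠ ⊤ ∧ ∀ y ∈ S, M.wd x v < M.wd y v ∨ (M.wd x v = M.wd y v ∧ ix x.1 ≤ ix y.1)

lemma near_unique {S : Set (V × ℕ)} {x x' : V × ℕ} {v : V} (h : Near M S x v) (h' : Near M S x' v) :
    x = x' := by
  have h1 := h.2.2 x' h'.1
  have h2 := h'.2.2 x h.1
  have hwd : M.wd x v = M.wd x' v := by
    rcases h1 with h1 | h1
    · rcases h2 with h2 | h2
      · exact absurd h1 (lt_asymm h2)
      · exact h2.1.symm
    · exact h1.1
  have hix : ix x.1 = ix x'.1 := by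
    rcases h1 with h1 | h1
    · exact absurd h1 (by rw [hwd]; exact lt_irrefl _)
    · rcases h2 with h2 | h2
      · exact absurd h2 (by rw [hwd]; exact lt_irrefl _)
      · exact le_antisymm h1.2 h2.2
  have h1' : x.1 = x'.1 := by
    unfold ix at hix
    exact (Fintype.equivFin V).injective (Fin.ext hix)
  refine Prod.ext h1' ?_
  have hD : M.D v x.1 ≠ ⊤ := LMet.wd_ne_top.1 h.2.1
  unfold LMet.wd at hwd
  rw [← h1'] at hwd
  obtain ⟨d, hd⟩ := ENat.ne_top_iff_exists.1 hD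
  rw [← hd] at hwd
  have : d + x.2 = d + x'.2 := by exact_mod_cast hwd
  omega

lemma near_exists {S : Set (V × ℕ)} {y : V × ℕ} {v : V} (hy : y ∈ S) (hv : M.wd y v ≠ ⊤) :
    ∃ x, Near M S x v := by
  obtain ⟨m, ⟨y0, hy0, rfl⟩, hm⟩ := (wellFounded_lt (α := ℕ∞)).has_min ((fun y => M.wd y v) '' S)
    ⟨_, y, hy, rfl⟩
  obtain ⟨i, ⟨x, hx, rfl⟩, hi⟩ := (wellFounded_lt (α := ℕ)).has_min
    ((fun x : V × ℕ => ix x.1) '' {x | x ∈ S ∧ M.wd x v = M.wd y0 v}) ⟨_, y0, ⟨hy0, rfl⟩, rfl⟩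
  refine ⟨x, hx.1, ?_, ?_⟩
  · intro ht
    have h1 : ¬ M.wd y v < M.wd y0 v := hm _ ⟨y, hy, rfl⟩
    rw [← hx.2, ht] at h1
    exact h1 (lt_top_iff_ne_top.2 hv)
  · intro z hz
    have h1 : ¬ M.wd z v < M.wd y0 v := hm _ ⟨z, hz, rfl⟩
    rcases lt_or_eq_of_le (not_lt.1 h1) with h2 | h2
    · exact Or.inl (by rw [hx.2]; exact h2)
    · refine Or.inr ⟨by rw [hx.2, h2], ?_⟩
      exact not_lt.1 (hi _ ⟨z, ⟨hz, h2.symm⟩, rfl⟩)

lemma near_cl (S : Set (V × ℕ)) (x : V × ℕ) : M.Cl x.1 {v | Near M S x v} := by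
  intro v hv
  have hD : M.D v x.1 ≠ ⊤ := LMet.wd_ne_top.1 hv.2.1
  refine ⟨hD, ?_⟩
  by_cases hvx : v = x.1
  · have : M.par x.1 v = v := by
      rw [hvx]
      exact LMet.par_root
    rw [this]
    exact hv
  · have hD' := LMet.par_ne_top hD
    have hadj := LMet.par_adj hvx hD
    have hwx : M.wd x v = (M.len v (M.par x.1 v) : ℕ∞) + M.wd x (M.par x.1 v) := by
      unfold LMet.wd
      rw [LMet.par_D hvx hD, add_assoc]
    refine ⟨hv.1, LMet.wd_ne_top.2 hD', ?_⟩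
    intro y hy
    have hwy : M.wd y v ≤ (M.len v (M.par x.1 v) : ℕ∞) + M.wd y (M.par x.1 v) := by
      unfold LMet.wd
      rw [← add_assoc]
      exact add_le_add (M.D_le _ _ _ hadj) le_rfl
    have hlen : (M.len v (M.par x.1 v) : ℕ∞) ≠ ⊤ := ENat.natCast_ne_top _
    rcases lt_trichotomy (M.wd x (M.par x.1 v)) (M.wd y (M.par x.1 v)) with h1 | h1 | h1
    · exact Or.inl h1
    · refine Or.inr ⟨h1, ?_⟩
      rw [← h1, ← hwx] at hwy
      rcases hv.2.2 y hy with h2 | h2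
      · exact absurd h2 (not_lt.2 hwy)
      · exact h2.2
    · exfalso
      have h3 : M.wd y v < M.wd x v := by
        refine lt_of_le_of_lt hwy ?_
        rw [hwx]
        exact ENat.add_lt_add_iff_left hlen |>.2 h1
      rcases hv.2.2 y hy with h2 | h2
      · exact absurd h2 (lt_asymm h3)
      · exact absurd h3 (by rw [h2.1]; exact lt_irrefl _)

lemma near_anc {S : Set (V × ℕ)} {x : V × ℕ} {v a : V} (h : Near M S x v) (ha : M.Anc x.1 a v) :
    Near M S x a := by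
  exact LMet.Cl.anc (near_cl S x) h ha

lemma near_sub {S X : Set (V × ℕ)} {x : V × ℕ} {v : V} (h : Near M X x v) (hS : S ⊆ X) (hx : x ∈ S) :
    Near M S x v := by
  exact ⟨hx, h.2.1, fun y hy => h.2.2 y (hS hy)⟩

lemma near_lift {S X : Set (V × ℕ)} {x y : V × ℕ} {v : V} (h : Near M S x v) (hS : S ⊆ X)
    (hy : Near M X y v) (hyS : y ∈ S) : y = x := by
  exact near_unique (near_sub hy hS hyS) h

lemma near_disj (S : Set (V × ℕ)) {x y : V × ℕ} (hxy : x ≠ y) :
    Disjoint {v | Near M S x v} {v | Near M S y v} := by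
  rw [Set.disjoint_left]
  intro v hv hv'
  exact hxy (near_unique hv hv')

/-- the colours over a set of positions -/
def Col (M : LMet G) (E : NE V) (X : Set (V × ℕ)) (α : Set (Fin E.n)) : Set (V × ℕ) :=
  {x | ∃ q ∈ α, Near M X x (E.w q)}

lemma col_finite (E : NE V) (X : Set (V × ℕ)) (α : Set (Fin E.n)) : (Col M E X α).Finite := by
  refine Set.Finite.subset (Set.finite_iUnion (fun q : Fin E.n =>
    (Set.Subsingleton.finite (s := {x | Near M X x (E.w q)})
      (fun x hx y hy => near_unique hx hy)))) ?_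
  rintro x ⟨q, _, hq⟩
  exact Set.mem_iUnion.2 ⟨q, hq⟩

lemma col_sing (E : NE V) (X : Set (V × ℕ)) (p : Fin E.n) : (Col M E X {p}).ncard ≤ 1 := by
  rw [Set.ncard_le_one (col_finite E X {p})]
  rintro a ⟨q, hq, ha⟩ b ⟨q', hq', hb⟩
  rw [Set.mem_singleton_iff.1 hq] at ha
  rw [Set.mem_singleton_iff.1 hq'] at hb
  exact near_unique ha hb

lemma col_sub {E : NE V} {X : Set (V × ℕ)} {α : Set (Fin E.n)} : Col M E X α ⊆ X := by
  rintro x ⟨q, _, hq⟩
  exact hq.1

end Pool.Agent.BTV
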