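import Pool.Agent.BTV.JLc
import Pool.Agent.BTV.CDc
import Pool.Agent.BTV.NA

/-! BTV NB: the tower for D- and the jump lemma for nearest sites.

`OpN`: outputs: positions of site vertices, and the outputs of the jump lemma for the regions
`Near S y`, `Near S x` of two sites of a set `S` of at most `4 k + 2` sites.
`opN_dcd`: `Dcd.or` of (`site` bound with the at most one position `q`, `w q = x.1`) and
(`bind` of `pair (Dcd.set site (4k+2)) (pair site site)` with `Dcd.ncard (jout_ncard ..)`).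

PROOF of `jumpN`.  `α := cell (TwN t) p`, `α' := cell (TwN (t+1)) p ⊆ α` (`tow_mono`, `cell_mono`), both
intervals (`cell_itv`).  Suppose not: `∀ b, e = some b → b ∉ α`.
`W := X a ∪ OX e ∪ Gt α`, `W.ncard ≤ 4 k` (`gt_ncard`).  `CW := {x | ∃ v ∈ W, Near X x v}`, finite,
`≤ 4 k` (`near_unique`).  As `4 k + 1 < ncard (Col X α')` there is `x ∈ Col X α'`, `x ∉ CW`, `x ≠ y`;
`a' ∈ α'` with `Near X x (w a')`.  `S := CW ∪ {y, x} ⊆ X`, `ncard ≤ 4 k + 2`.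
`Red := {v | Near S y v}`, `Bl := {v | Near S x v}`: closed (`near_cl`), disjoint (`near_disj`),
`w a ∈ Red`, `w a' ∈ Bl` (`near_sub`).  `Bl ∩ W = ∅`: `v ∈ W`, `Near S x v`: there is `y'` with
`Near X y' v` (`near_exists`; `wd x v ≠ ⊤`), `y' ∈ CW ⊆ S`, so `y' = x` (`near_lift`), but `x ∉ CW`.
The leg of `w a'` towards `x` is in `Bl` (`near_anc`), so avoids `Gt α`.
`jumpL` gives `q ∈ JOut .. α` with `Hull a a' q`; `q ∈ α'` (`itv_hull`), `q ∈ TwN (t+1)` (`tow_op`);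
but `p ∉ TwN (t+1)`: contradiction by `cell_not_mem`. -/

set_option autoImplicit false

open Classical

namespace Pool.Agent.BTV

open Pool.Agent.BTD Pool.Agent.H81.Balls

universe u

variable {V : Type u} [Fintype V] {g k s : ℕ}

/-- outputs for nearest sites -/
def OpN (I : Inst g k s V) (X : Set (V × ℕ)) (α _β : Set (Fin I.E.n)) : Set (Fin I.E.n) :=
  {q | (∃ x ∈ X, I.E.w q = x.1) ∨ ∃ S : Set (V × ℕ), S ⊆ X ∧ S.Finite ∧ S.ncard ≤ 4 * k + 2 ∧
    ∃ y ∈ S, ∃ x ∈ S, x ≠ y ∧ q ∈ JOut I y x {v | Near I.M S y v} {v | Near I.M S x v} α}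

/-- the tower for nearest sites -/
abbrev TwN (I : Inst g k s V) (X : Set (V × ℕ)) (t : ℕ) : Set (Fin I.E.n) := Tow I.E (OpN I) X t

theorem opN_dcd (g k s : ℕ) : ∃ N : ℕ, ∀ (V : Type u) [Fintype V] (I : Inst g k s V)
    (α β : Set (Fin I.E.n)), Dcd N (fun X q => q ∈ OpN I X α β) := by
  refine ⟨bd 1 1 + bd (bd (ld 1 (4 * k + 2)) (bd 1 1))
    ((2 * s + 1) * NC.{u} g k s * (2 + 8 * k)), fun V _ I α β => ?_⟩
  have h0 : Dcd (bd 1 1) (fun (X : Set (V × ℕ)) (q : Fin I.E.n) => ∃ x ∈ X, I.E.w q = x.1) := by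
    refine Dcd.bind Dcd.site (R' := fun (x : V × ℕ) _ (q : Fin I.E.n) => q ∈ {q | I.E.w q = x.1})
      (fun x => Dcd.ncard (Set.toFinite _) ?_)
    rw [Set.ncard_le_one (Set.toFinite _)]
    intro a ha b hb
    exact I.E.w_inj a b (Eq.trans ha (Eq.symm hb))
  have h1 : Dcd (bd (bd (ld 1 (4 * k + 2)) (bd 1 1)) ((2 * s + 1) * NC.{u} g k s * (2 + 8 * k)))
      (fun (X : Set (V × ℕ)) (q : Fin I.E.n) => ∃ S : Set (V × ℕ), S ⊆ X ∧ S.Finite ∧
        S.ncard ≤ 4 * k + 2 ∧ ∃ y ∈ S, ∃ x ∈ S, x ≠ y ∧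
          q ∈ JOut I y x {v | Near I.M S y v} {v | Near I.M S x v} α) := by
    refine (Dcd.bind (Dcd.pair (Dcd.set Dcd.site (4 * k + 2)) (Dcd.pair Dcd.site Dcd.site))
      (R' := fun (z : Set (V × ℕ) × ((V × ℕ) × (V × ℕ))) _ (q : Fin I.E.n) =>
        q ∈ JOut I z.2.1 z.2.2 {v | Near I.M z.1 z.2.1 v} {v | Near I.M z.1 z.2.2 v} α)
      (fun z => Dcd.ncard (Set.toFinite _) (jout_ncard I _ _ _ _ _))).mono le_rfl ?_
    rintro X q ⟨S, hSX, hSf, hSc, y, hy, x, hx, -, hq⟩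
    exact ⟨(S, (y, x)), ⟨⟨hSf, hSc, fun z hz => hSX hz⟩, ⟨hSX hy, hSX hx⟩⟩, hq⟩
  exact (h0.or h1).mono le_rfl (fun X q hq => hq)

theorem twN_dcd (g k s t : ℕ) : ∃ N : ℕ, ∀ (V : Type u) [Fintype V] (I : Inst g k s V),
    Dcd N (fun X q => q ∈ TwN I X t) ∧ Dcd N (fun X α => ∃ p, α = I.E.cell (TwN I X t) p) := by
  obtain ⟨N, hN⟩ := opN_dcd.{u} g k s
  obtain ⟨N', hN'⟩ := tow_dcd.{u} N s t
  exact ⟨N', fun V _ I => hN' V (V × ℕ) I.E I.disc_lt (OpN I) (fun α β => hN V I α β)⟩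

lemma twN_site (I : Inst g k s V) {X : Set (V × ℕ)} {x : V × ℕ} (hx : x ∈ X) {q : Fin I.E.n}
    (h : I.E.w q = x.1) (t : ℕ) : q ∈ TwN I X (t + 1) :=
  tow_op I.E (OpN I) X q q q (Or.inl ⟨x, hx, h⟩)

theorem jumpN (I : Inst g k s V) (X : Set (V × ℕ)) (t : ℕ) (p : Fin I.E.n) (hp : p ∉ TwN I X (t + 1))
    (hC : 4 * k + 1 < (Col I.M I.E X (I.E.cell (TwN I X (t + 1)) p)).ncard) {a : Fin I.E.n}
    (ha : a ∈ I.E.cell (TwN I X (t + 1)) p) {y : V × ℕ} (hy : Near I.M X y (I.E.w a))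
    {e : Option (Fin I.E.n)} (he : Reg I.M I.E y.1 (I.E.w a) e) :
    ∃ b, e = some b ∧ b ∈ I.E.cell (TwN I X t) p := by
  by_contra hcon
  have hout : ∀ b, e = some b → b ∉ I.E.cell (TwN I X t) p := fun b hb hbα => hcon ⟨b, hb, hbα⟩
  have hαi : I.E.Itv (I.E.cell (TwN I X t) p) := cell_itv _ _
  have hα'i : I.E.Itv (I.E.cell (TwN I X (t + 1)) p) := cell_itv _ _
  have hsub : I.E.cell (TwN I X (t + 1)) p ⊆ I.E.cell (TwN I X t) p :=
    cell_mono (tow_mono I.E (OpN I) X (Nat.le_succ t)) p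
  obtain ⟨W, hWdef⟩ : ∃ W : Set V, W = (I.E.X a ∪ I.E.OX e) ∪ I.E.Gt (I.E.cell (TwN I X t) p) :=
    ⟨_, rfl⟩
  have hW : W.ncard ≤ 4 * k := by
    rw [hWdef]
    have h1 := Set.ncard_union_le (I.E.X a ∪ I.E.OX e) (I.E.Gt (I.E.cell (TwN I X t) p))
    have h2 := Set.ncard_union_le (I.E.X a) (I.E.OX e)
    have h3 := I.bag a
    have h4 := ox_ncard I e
    have h5 : (I.E.Gt (I.E.cell (TwN I X t) p)).ncard ≤ 2 * k := gt_ncard hαi I.bag
    omega
  obtain ⟨f, hf⟩ : ∃ f : V → V × ℕ, ∀ v x, Near I.M X x v → f v = x := by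
    refine ⟨fun v => if h : ∃ x, Near I.M X x v then h.choose else y, fun v x h => ?_⟩
    have hex : ∃ x, Near I.M X x v := ⟨x, h⟩
    simp only [dif_pos hex]
    exact near_unique hex.choose_spec h
  obtain ⟨CW, hCW⟩ : ∃ CW : Set (V × ℕ), CW = {x | ∃ v ∈ W, Near I.M X x v} := ⟨_, rfl⟩
  have hCWsub : CW ⊆ f '' W := by
    rw [hCW]
    rintro x ⟨v, hv, hN⟩
    exact ⟨v, hv, hf v x hN⟩
  have hWf : (f '' W).Finite := (Set.toFinite W).image f
  have hCWfin : CW.Finite := hWf.subset hCWsub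
  have hCWc : CW.ncard ≤ 4 * k :=
    (Set.ncard_le_ncard hCWsub hWf).trans ((Set.ncard_image_le (Set.toFinite W)).trans hW)
  have hCWX : CW ⊆ X := by
    rw [hCW]
    rintro x ⟨v, -, hN⟩
    exact hN.1
  obtain ⟨x, hxC, hxn⟩ : ∃ x, x ∈ Col I.M I.E X (I.E.cell (TwN I X (t + 1)) p) ∧ x ∉ insert y CW := by
    by_contra hno
    have hsub' : Col I.M I.E X (I.E.cell (TwN I X (t + 1)) p) ⊆ insert y CW := by
      intro x hx
      by_contra h
      exact hno ⟨x, hx, h⟩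
    have h1 := Set.ncard_le_ncard hsub' (hCWfin.insert y)
    have h2 := Set.ncard_insert_le y CW
    omega
  have hxy : x ≠ y := fun h => hxn (h ▸ Set.mem_insert _ _)
  have hxCW : x ∉ CW := fun h => hxn (Set.mem_insert_of_mem _ h)
  obtain ⟨a', ha', hxa'⟩ := hxC
  obtain ⟨S, hSdef⟩ : ∃ S : Set (V × ℕ), S = insert y (insert x CW) := ⟨_, rfl⟩
  have hyS : y ∈ S := by rw [hSdef]; exact Set.mem_insert _ _
  have hxS : x ∈ S := by rw [hSdef]; exact Set.mem_insert_of_mem _ (Set.mem_insert _ _)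
  have hCWS : CW ⊆ S := by
    rw [hSdef]
    exact fun z hz => Set.mem_insert_of_mem _ (Set.mem_insert_of_mem _ hz)
  have hSX : S ⊆ X := by
    rw [hSdef]
    rintro z (rfl | rfl | hz)
    · exact hy.1
    · exact hxa'.1
    · exact hCWX hz
  have hSfin : S.Finite := by
    rw [hSdef]
    exact (hCWfin.insert x).insert y
  have hSc : S.ncard ≤ 4 * k + 2 := by
    rw [hSdef]
    have h1 := Set.ncard_insert_le y (insert x CW)
    have h2 := Set.ncard_insert_le x CW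
    omega
  have hBW : ∀ v ∈ W, ¬ Near I.M S x v := by
    intro v hv hN
    obtain ⟨y', hy'⟩ := near_exists (M := I.M) (hSX hxS) hN.2.1
    have hy'C : y' ∈ CW := by
      rw [hCW]
      exact ⟨v, hv, hy'⟩
    have h1 := near_lift hN hSX hy' (hCWS hy'C)
    exact hxCW (h1 ▸ hy'C)
  have haR : Near I.M S y (I.E.w a) := near_sub hy hSX hyS
  have ha'B : Near I.M S x (I.E.w a') := near_sub hxa' hSX hxS
  obtain ⟨q, hq, hull⟩ := jumpL I y x {v | Near I.M S y v} {v | Near I.M S x v}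
    (I.E.cell (TwN I X t) p) (near_cl S y) (near_cl S x) (near_disj S (Ne.symm hxy)) hαi (hsub ha)
    (hsub ha') he haR hout ha'B
    (fun t' ht' hg => hBW t' (by rw [hWdef]; exact Or.inr hg) (near_anc ha'B ht'))
    (fun t' ht' => ⟨fun h => hBW t' (by rw [hWdef]; exact Or.inl (Or.inl h)) ht',
      fun h => hBW t' (by rw [hWdef]; exact Or.inl (Or.inr h)) ht'⟩)
  have hqα' : q ∈ I.E.cell (TwN I X (t + 1)) p := itv_hull hα'i ha ha' hull
  exact cell_not_mem hp hqα'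
    (tow_op I.E (OpN I) X p p q (Or.inr ⟨S, hSX, hSfin, hSc, y, hyS, x, hxS, hxy, hq⟩))

end Pool.Agent.BTV
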