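import Pool.Agent.BTV.NB

/-! BTV NC: boundedly many colours over a cell of level 2.

PROOF.  `C := 4 * k + 2 * NC * (4 * k + 2) + 4 * k + 2`.  If `p ∈ TwN 2` the cell is `{p}` (`cell_sing`,
`col_sing`).  Let `p ∉ TwN 2`, `α₂ ⊆ α₁ ⊆ α₀` the cells of `p` at the levels `2, 1, 0`, and suppose more
than `C` colours over `α₂` (so also over `α₁`).  For every colour `x` choose `q_x ∈ α₂` with
`Near X x (w q_x)`; all vertices of the leg of `w q_x` towards `x` are `Near X x` (`near_anc`); legs of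
different colours are disjoint (`near_unique`).
(1) at most `4 k` colours have a leg meeting `Gt α₁ ∪ Gt α₂` (each such colour is the colour of a
vertex of this set, `gt_ncard`).  Remove them: more than `C - 4 k` good colours.
(2) good `x`: `x.1` is not `w q` for `q ∈ α₁` (`twN_site`, `cell_not_mem`; `p ∉ TwN 1`).
`exists_exitV` for `α₂`: `Exit x.1 (w q_x) α₂ a_x e_x`.  `jumpN` (`t = 1`; `a_x ∈ α₂`): `e_x = some b_x`,
`b_x ∈ α₁`, and `b_x ∉ α₂` by `Exit`.
(3) the leg of `w b_x` visits `w f_x`, `f_x ∉ α₁`: otherwise all its vortex vertices are in `α₁`;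
`exists_exitV` for `α₁` from `b_x ∈ α₁` and `exit_of_all` give a regular piece of some `w a'`,
`a' ∈ α₁`, with `e = none`; `jumpN` (`t = 0`) says `e = some _`; contradiction.
(4) label the good colours by (`b_x` below `α₂`?, class `I.cl (w p) x.1 (w a_x)`): `2 * NC` labels; some
label has at least `4 k + 3` colours (in fact `> 4 k + 2`).  Their `a_x` are distinct
(`near_unique`).  Let `x₁`, `x_m` be the ones with the smallest and the largest `a_x`.  `cl_spec` gives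
`Ins` for their pieces (`Cmp`: `a`'s in `α₂`, `b`'s in `α₁`, one disc).  For each of the other
`≥ 4 k + 1` colours `x`: its leg avoids both pieces (their vertices have colours `x₁`, `x_m`:
`uu_anc`, `near_anc`).  `Ins (w a_x)`: `a_x` strictly between; `a_x ∈ α₂` is not strictly between the
landings, which are on the same side of `α₂`.  `¬ Ins (w f_x)`: `f_x ∉ α₁`, all four feet are in `α₁`
(`itv_bt`).  By `conf_leg` the leg of `w a_x` from `w a_x` to `w f_x` meets `F4` in a vertex `z_x`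
(`w f_x` is an ancestor of `w b_x`, hence of `w a_x`).  The `z_x` are distinct (colours), so
`4 k + 1 ≤ 4 k` (`f4_ncard`), contradiction. -/

set_option autoImplicit false

open Classical

namespace Pool.Agent.BTV

open Pool.Agent.BTD Pool.Agent.H81.Balls

universe u

variable {V : Type u} [Fintype V] {g k s : ℕ}

/-- a good colour: exit from the cell of level 2 into the cell of level 1, and a later vortex vertex
outside the cell of level 1 -/
lemma NC_good (I : Inst g k s V) (X : Set (V × ℕ)) {p : Fin I.E.n} (hp2 : p ∉ TwN I X 2)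
    (hC : 4 * k + 1 < (Col I.M I.E X (I.E.cell (TwN I X 2) p)).ncard) {x : V × ℕ}
    (hx : x ∈ Col I.M I.E X (I.E.cell (TwN I X 2) p))
    (hB : ∀ v ∈ I.E.Gt (I.E.cell (TwN I X 1) p) ∪ I.E.Gt (I.E.cell (TwN I X 2) p), ¬ Near I.M X x v) :
    ∃ a b f : Fin I.E.n, a ∈ I.E.cell (TwN I X 2) p ∧ b ∈ I.E.cell (TwN I X 1) p ∧
      b ∉ I.E.cell (TwN I X 2) p ∧ f ∉ I.E.cell (TwN I X 1) p ∧ Near I.M X x (I.E.w a) ∧
      Reg I.M I.E x.1 (I.E.w a) (some b) ∧ I.M.Anc x.1 (I.E.w f) (I.E.w a) := by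
  have h12 : TwN I X 1 ⊆ TwN I X 2 := tow_mono I.E (OpN I) X (by norm_num)
  have hp1 : p ∉ TwN I X 1 := fun h => hp2 (h12 h)
  have hsub : I.E.cell (TwN I X 2) p ⊆ I.E.cell (TwN I X 1) p := cell_mono h12 p
  have hC1 : 4 * k + 1 < (Col I.M I.E X (I.E.cell (TwN I X 1) p)).ncard := by
    refine lt_of_lt_of_le hC (Set.ncard_le_ncard ?_ (col_finite I.E X _))
    rintro y ⟨q, hq, hy⟩
    exact ⟨q, hsub hq, hy⟩
  obtain ⟨q, hq, hxq⟩ := hx
  have hxX : x ∈ X := hxq.1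
  have hDq : I.M.D (I.E.w q) x.1 ≠ ⊤ := LMet.wd_ne_top.1 hxq.2.1
  obtain ⟨a, e, hE⟩ := exists_exitV (cell_itv (TwN I X 2) p) hq hDq
    (fun v hv hg => hB v (Or.inr hg) (near_anc hxq hv))
    (fun p' hp' h => cell_not_mem hp2 hp' (twN_site I hxX h 1))
  have hE1 : I.M.Anc x.1 (I.E.w a) (I.E.w q) := hE.1
  have hEa : a ∈ I.E.cell (TwN I X 2) p := hE.2.1
  have hEr : Reg I.M I.E x.1 (I.E.w a) e := hE.2.2.1
  have hEb : ∀ b, e = some b → b ∉ I.E.cell (TwN I X 2) p := hE.2.2.2.1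
  have hxa : Near I.M X x (I.E.w a) := near_anc hxq hE1
  obtain ⟨b, rfl, hb1⟩ := jumpN I X 1 p hp2 hC hEa hxa hEr
  have hb2 := hEb b rfl
  have hba : I.M.Anc x.1 (I.E.w b) (I.E.w a) := uu_anc (uu_end hEr)
  have hxb : Near I.M X x (I.E.w b) := near_anc hxa hba
  have hDb : I.M.D (I.E.w b) x.1 ≠ ⊤ := LMet.wd_ne_top.1 hxb.2.1
  have hf : ∃ f, f ∉ I.E.cell (TwN I X 1) p ∧ I.M.Anc x.1 (I.E.w f) (I.E.w b) := by
    by_contra hcon
    push Not at hcon
    have hall : ∀ p', I.M.Anc x.1 (I.E.w p') (I.E.w b) → p' ∈ I.E.cell (TwN I X 1) p := by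
      intro p' hp'
      by_contra hn
      exact hcon p' hn hp'
    obtain ⟨a', e', hE'⟩ := exists_exitV (cell_itv (TwN I X 1) p) hb1 hDb
      (fun v hv hg => hB v (Or.inl hg) (near_anc hxb hv))
      (fun p' hp' h => cell_not_mem hp1 hp' (twN_site I hxX h 0))
    have he' := exit_of_all hE' hall
    obtain ⟨b', hb', -⟩ := jumpN I X 0 p hp1 hC1 hE'.2.1 (near_anc hxb hE'.1) hE'.2.2.1
    rw [he'] at hb'
    exact absurd hb' (by simp)
  obtain ⟨f, hf1, hfb⟩ := hf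
  exact ⟨a, b, f, hEa, hb1, hb2, hf1, hxa, hEr, LMet.anc_trans hfb hba⟩

lemma NC_po (E : NE V) (p : Fin E.n) : E.po (E.w p) = some p := by
  unfold NE.po
  have h : ∃ q, E.w q = E.w p := ⟨p, rfl⟩
  rw [dif_pos h]
  exact congrArg some (E.w_inj _ _ h.choose_spec)

/-- two landings on the same side of an interval with nothing of the interval between them -/
lemma NC_side {E : NE V} {α : Set (Fin E.n)} (hα : E.Itv α) {p b b' a : Fin E.n} (hp : p ∈ α)
    (ha : a ∈ α) (hb : b ∉ α) (hb' : b' ∉ α) (hs : b < p ↔ b' < p) : ¬ E.Bt b b' a := by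
  rintro (⟨h1, h2⟩ | ⟨h1, h2⟩)
  · by_cases h : b < p
    · exact hb' (hα.2 a b' p ha hp h2.le (hs.1 h).le)
    · have h3 : p ≤ b := not_lt.1 h
      exact hb (hα.2 p b a hp ha h3 h1.le)
  · by_cases h : b' < p
    · exact hb (hα.2 a b p ha hp h2.le (hs.2 h).le)
    · have h3 : p ≤ b' := not_lt.1 h
      exact hb' (hα.2 p b' a hp ha h3 h1.le)

/-- the confined leg: a vertex of the four bags on the leg of a colour between two others -/
lemma NC_mid (I : Inst g k s V) (X : Set (V × ℕ)) {α₁ α₂ : Set (Fin I.E.n)} (h1 : I.E.Itv α₁)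
    (h2 : I.E.Itv α₂) (h21 : α₂ ⊆ α₁) {p : Fin I.E.n} (hp : p ∈ α₂) {o : V}
    {x y z : V × ℕ} {a b a' b' c f : Fin I.E.n}
    (hxa : Near I.M X x (I.E.w a)) (hyc : Near I.M X y (I.E.w a')) (hzc : Near I.M X z (I.E.w c))
    (hzx : z ≠ x) (hzy : z ≠ y) (ha : a ∈ α₂) (ha' : a' ∈ α₂) (hc : c ∈ α₂) (hac : a < c)
    (hca : c < a') (hb1 : b ∈ α₁) (hb2 : b ∉ α₂) (hb1' : b' ∈ α₁) (hb2' : b' ∉ α₂)
    (hs : b < p ↔ b' < p) (hf : f ∉ α₁)
    (hr : Reg I.M I.E x.1 (I.E.w a) (some b)) (hr' : Reg I.M I.E y.1 (I.E.w a') (some b'))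
    (hcl : I.cl o x.1 (I.E.w a) = I.cl o y.1 (I.E.w a'))
    (hfc : I.M.Anc z.1 (I.E.w f) (I.E.w c)) :
    ∃ v, v ∈ F4 I.E (I.E.w a) (some b) (I.E.w a') (some b') ∧ Near I.M X z v := by
  obtain ⟨Ins, hS, -⟩ := cl_spec I o hr hr'
    ⟨Or.inr ⟨a, a', rfl, rfl, h2.1 a ha a' ha'⟩, Or.inr ⟨b, b', rfl, rfl, h1.1 b hb1 b' hb1'⟩⟩ hcl
  have hDc : I.M.D (I.E.w c) z.1 ≠ ⊤ := LMet.wd_ne_top.1 hzc.2.1
  have hU : ∀ v, Near I.M X z v → v ∉ UU I.M I.E x.1 (I.E.w a) (some b) := fun v hv hu =>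
    hzx (near_unique hv (near_anc hxa (uu_anc hu)))
  have hU' : ∀ v, Near I.M X z v → v ∉ UU I.M I.E y.1 (I.E.w a') (some b') := fun v hv hu =>
    hzy (near_unique hv (near_anc hyc (uu_anc hu)))
  have hzf : Near I.M X z (I.E.w f) := near_anc hzc hfc
  by_contra hcon
  push Not at hcon
  have hiff := conf_leg I.fits hS hDc hfc (fun v hv _ =>
    ⟨hU v (near_anc hzc hv), hU' v (near_anc hzc hv), fun hF => hcon v hF (near_anc hzc hv)⟩)
  have hIc : Ins (I.E.w c) := by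
    rw [hS.hV c (hU _ hzc) (hU' _ hzc)]
    left
    refine ⟨⟨a, a', NC_po I.E a, NC_po I.E a', Or.inl ⟨hac, hca⟩⟩, ?_⟩
    rintro ⟨d, d', hd, hd', hbt⟩
    have e1 : b = d := Option.some.inj hd
    have e2 : b' = d' := Option.some.inj hd'
    subst e1
    subst e2
    exact NC_side h2 hp hc hb2 hb2' hs hbt
  have hIf : ¬ Ins (I.E.w f) := by
    rw [hS.hV f (hU _ hzf) (hU' _ hzf)]
    rintro (⟨⟨d, d', hd, hd', hbt⟩, -⟩ | ⟨⟨d, d', hd, hd', hbt⟩, -⟩)
    · rw [NC_po] at hd hd'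
      have e1 : a = d := Option.some.inj hd
      have e2 : a' = d' := Option.some.inj hd'
      subst e1
      subst e2
      exact hf (itv_bt h1 (h21 ha) (h21 ha') hbt)
    · have e1 : b = d := Option.some.inj hd
      have e2 : b' = d' := Option.some.inj hd'
      subst e1
      subst e2
      exact hf (itv_bt h1 hb1 hb1' hbt)
  exact hIf (hiff.1 hIc)

lemma NC_fin {G : SimpleGraph V} (M : LMet G) (X : Set (V × ℕ)) (W : Set V) :
    {x | ∃ v ∈ W, Near M X x v}.Finite := by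
  refine Set.Finite.of_injOn (f := fun x => if h : ∃ v ∈ W, Near M X x v then h.choose else x.1)
    (t := W) ?_ ?_ (Set.toFinite W)
  · intro x hx
    have hx' : ∃ v ∈ W, Near M X x v := hx
    simp only [dif_pos hx']
    exact hx'.choose_spec.1
  · intro x hx y hy hxy
    have hx' : ∃ v ∈ W, Near M X x v := hx
    have hy' : ∃ v ∈ W, Near M X y v := hy
    simp only [dif_pos hx', dif_pos hy'] at hxy
    have h1 := hx'.choose_spec.2
    have h2 := hy'.choose_spec.2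
    rw [hxy] at h1
    exact near_unique h1 h2

/-- colours of a set of vertices: at most its size -/
lemma NC_bad {G : SimpleGraph V} (M : LMet G) (X : Set (V × ℕ)) (W : Set V) :
    {x | ∃ v ∈ W, Near M X x v}.ncard ≤ W.ncard := by
  refine Set.ncard_le_ncard_of_injOn
    (fun x => if h : ∃ v ∈ W, Near M X x v then h.choose else x.1) ?_ ?_ (Set.toFinite W)
  · intro x hx
    have hx' : ∃ v ∈ W, Near M X x v := hx
    simp only [dif_pos hx']
    exact hx'.choose_spec.1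
  · intro x hx y hy hxy
    have hx' : ∃ v ∈ W, Near M X x v := hx
    have hy' : ∃ v ∈ W, Near M X y v := hy
    simp only [dif_pos hx', dif_pos hy'] at hxy
    have h1 := hx'.choose_spec.2
    have h2 := hy'.choose_spec.2
    rw [hxy] at h1
    exact near_unique h1 h2

theorem creepN (g k s : ℕ) : ∃ C : ℕ, ∀ (V : Type u) [Fintype V] (I : Inst g k s V)
    (X : Set (V × ℕ)) (p : Fin I.E.n), (Col I.M I.E X (I.E.cell (TwN I X 2) p)).ncard ≤ C := by
  refine ⟨4 * k + 2 * NC.{u} g k s * (4 * k + 2) + 4 * k + 2, ?_⟩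
  intro V _ I X p
  by_cases hp2 : p ∈ TwN I X 2
  · rw [cell_sing hp2]
    exact (col_sing I.E X p).trans (by omega)
  by_contra hcon
  push Not at hcon
  have h12 : TwN I X 1 ⊆ TwN I X 2 := tow_mono I.E (OpN I) X (by norm_num)
  have hsub : I.E.cell (TwN I X 2) p ⊆ I.E.cell (TwN I X 1) p := cell_mono h12 p
  have hC : 4 * k + 1 < (Col I.M I.E X (I.E.cell (TwN I X 2) p)).ncard := by omega
  have hW : (I.E.Gt (I.E.cell (TwN I X 1) p) ∪ I.E.Gt (I.E.cell (TwN I X 2) p)).ncard ≤ 4 * k := by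
    have h1 := gt_ncard (cell_itv (TwN I X 1) p) I.bag
    have h2 := gt_ncard (cell_itv (TwN I X 2) p) I.bag
    have h3 := Set.ncard_union_le (I.E.Gt (I.E.cell (TwN I X 1) p)) (I.E.Gt (I.E.cell (TwN I X 2) p))
    omega
  set W : Set V := I.E.Gt (I.E.cell (TwN I X 1) p) ∪ I.E.Gt (I.E.cell (TwN I X 2) p) with hWdef
  have hBad := (NC_bad I.M X W).trans hW
  have hColF := col_finite (M := I.M) I.E X (I.E.cell (TwN I X 2) p)
  have hBadF : {x | ∃ v ∈ W, Near I.M X x v}.Finite := by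
    refine (NC_fin I.M X W)
  have hGF : (Col I.M I.E X (I.E.cell (TwN I X 2) p) \ {x | ∃ v ∈ W, Near I.M X x v}).Finite :=
    hColF.subset Set.diff_subset
  have hGc : (2 * NC.{u} g k s) * (4 * k + 2) < hGF.toFinset.card := by
    rw [← Set.ncard_eq_toFinset_card _ hGF]
    have h1 := Set.le_ncard_diff {x | ∃ v ∈ W, Near I.M X x v}
      (Col I.M I.E X (I.E.cell (TwN I X 2) p)) hBadF
    omega
  haveI : Nonempty (Fin I.E.n) := ⟨p⟩
  have hgood : ∀ x ∈ hGF.toFinset, ∃ a b f : Fin I.E.n, a ∈ I.E.cell (TwN I X 2) p ∧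
      b ∈ I.E.cell (TwN I X 1) p ∧ b ∉ I.E.cell (TwN I X 2) p ∧ f ∉ I.E.cell (TwN I X 1) p ∧
      Near I.M X x (I.E.w a) ∧ Reg I.M I.E x.1 (I.E.w a) (some b) ∧
      I.M.Anc x.1 (I.E.w f) (I.E.w a) := by
    intro x hx
    rw [Set.Finite.mem_toFinset] at hx
    exact NC_good I X hp2 hC hx.1 (fun v hv hn => hx.2 ⟨v, hv, hn⟩)
  choose! a b f ha hb1 hb2 hf hna hr hfa using hgood
  obtain ⟨lab, -, hlab⟩ := Finset.exists_lt_card_fiber_of_mul_lt_card_of_maps_to
    (s := hGF.toFinset) (t := (Finset.univ : Finset (Bool × Fin (NC.{u} g k s))))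
    (f := fun x => (decide (b x < p), I.cl (I.E.w p) x.1 (I.E.w (a x)))) (n := 4 * k + 2)
    (fun x _ => Finset.mem_univ _)
    (by
      rw [Finset.card_univ, Fintype.card_prod, Fintype.card_bool, Fintype.card_fin]
      exact hGc)
  set T := hGF.toFinset.filter
    (fun x => (decide (b x < p), I.cl (I.E.w p) x.1 (I.E.w (a x))) = lab) with hT
  have hTG : ∀ x ∈ T, x ∈ hGF.toFinset := fun x hx => (Finset.mem_filter.1 hx).1
  have hTl : ∀ x ∈ T, (decide (b x < p), I.cl (I.E.w p) x.1 (I.E.w (a x))) = lab := fun x hx =>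
    (Finset.mem_filter.1 hx).2
  have hne : T.Nonempty := Finset.card_pos.1 (by omega)
  have hinj : ∀ x ∈ T, ∀ y ∈ T, a x = a y → x = y := by
    intro x hx y hy hxy
    have h1 := hna x (hTG x hx)
    have h2 := hna y (hTG y hy)
    rw [hxy] at h1
    exact near_unique h1 h2
  obtain ⟨x1, hx1, hmin⟩ := Finset.exists_min_image T a hne
  obtain ⟨xm, hxm, hmax⟩ := Finset.exists_max_image T a hne
  have hl1 := hTl x1 hx1
  rw [← hTl xm hxm] at hl1
  have hcl : I.cl (I.E.w p) x1.1 (I.E.w (a x1)) = I.cl (I.E.w p) xm.1 (I.E.w (a xm)) :=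
    congrArg Prod.snd hl1
  have hs : b x1 < p ↔ b xm < p := by
    have h := congrArg Prod.fst hl1
    exact decide_eq_decide.1 h
  have hmid : (((T.erase x1).erase xm : Finset (V × ℕ)) : Set (V × ℕ)) ⊆
      {x | ∃ v ∈ F4 I.E (I.E.w (a x1)) (some (b x1)) (I.E.w (a xm)) (some (b xm)), Near I.M X x v} := by
    intro z hz
    have hz1 : z ≠ xm := (Finset.mem_erase.1 (Finset.mem_coe.1 hz)).1
    have hz' := (Finset.mem_erase.1 (Finset.mem_coe.1 hz)).2
    have hz2 : z ≠ x1 := (Finset.mem_erase.1 hz').1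
    have hzT : z ∈ T := (Finset.mem_erase.1 hz').2
    obtain ⟨v, hv, hn⟩ := NC_mid I X (cell_itv (TwN I X 1) p) (cell_itv (TwN I X 2) p) hsub
      (cell_self) (o := I.E.w p) (hna x1 (hTG x1 hx1)) (hna xm (hTG xm hxm)) (hna z (hTG z hzT))
      hz2 hz1 (ha x1 (hTG x1 hx1)) (ha xm (hTG xm hxm)) (ha z (hTG z hzT))
      (lt_of_le_of_ne (hmin z hzT) (fun h => hz2 (hinj z hzT x1 hx1 h.symm)))
      (lt_of_le_of_ne (hmax z hzT) (fun h => hz1 (hinj z hzT xm hxm h)))
      (hb1 x1 (hTG x1 hx1)) (hb2 x1 (hTG x1 hx1)) (hb1 xm (hTG xm hxm)) (hb2 xm (hTG xm hxm)) hs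
      (hf z (hTG z hzT)) (hr x1 (hTG x1 hx1)) (hr xm (hTG xm hxm)) hcl (hfa z (hTG z hzT))
    exact ⟨v, hv, hn⟩
  have hfin := Set.ncard_le_ncard hmid (NC_fin I.M X _)
  rw [Set.ncard_coe_finset] at hfin
  have h4 := (NC_bad I.M X (F4 I.E (I.E.w (a x1)) (some (b x1)) (I.E.w (a xm)) (some (b xm)))).trans
    (f4_ncard I _ _ _ _)
  have hc1 := Finset.pred_card_le_card_erase (s := T) (a := x1)
  have hc2 := Finset.pred_card_le_card_erase (s := T.erase x1) (a := xm)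
  omega

end Pool.Agent.BTV
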