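import Pool.Agent.BTV.NC

/-! BTV ND: regions for vortex targets, nearest sites.

`Rg X reg := ∃ p S u, S = Col X (cell (TwN 2) p), u ∈ X, reg = {e' | ∃ q ∈ cell .., e'.1 = w q ∧
Near S u (w q) ∧ e'.2 < wd u (w q)}`.
Decodable: `(α, S, u)` with `α` a cell of level 2 (`twN_dcd`), `S ⊆ X` finite with at most `C` elements
(`creepN`, `col_finite`, `col_sub`; `Dcd.set Dcd.site`), `u ∈ X`; the region is a function of
`(α, S, u)`.
Correct: `e.1 = w p`, `Near X u (w p)`; `e ∈ reg`: `u ∈ S`, `near_sub`; `e.2 < wd u` since `u` does not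
cover `e`.  `e' ∈ reg`, `x ∈ X`: let `y` be the nearest site of `X` at `w q` (`near_exists`, `wd u ≠ ⊤`);
`y ∈ Col = S`, so `y = u` (`near_lift`); so `e'.2 < wd u (w q) ≤ wd x (w q)`. -/

set_option autoImplicit false

open Classical

namespace Pool.Agent.BTV

open Pool.Agent.BTD Pool.Agent.H81.Balls

universe u

theorem regV_N (g k s : ℕ) : ∃ N : ℕ, ∀ (V : Type u) [Fintype V] (I : Inst g k s V),
    ∃ Rg : Set (V × ℕ) → Set (V × ℕ) → Prop, Dcd N Rg ∧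
      ∀ (X : Set (V × ℕ)) (e u : V × ℕ), (∀ x ∈ X, ¬ I.M.inc e x) → I.E.IsV e.1 → Near I.M X u e.1 →
        ∃ reg, Rg X reg ∧ e ∈ reg ∧ ∀ e' ∈ reg, ∀ x ∈ X, ¬ I.M.inc e' x := by
  obtain ⟨N1, h1⟩ := twN_dcd.{u} g k s 2
  obtain ⟨C, hC⟩ := creepN.{u} g k s
  refine ⟨bd N1 (bd (ld 1 C) 1), fun V _ I => ?_⟩
  have hd := ((h1 V I).2.pair (((Dcd.site (P := V × ℕ)).set C).pair (Dcd.site (P := V × ℕ)))).map
    (fun z : Set (Fin I.E.n) × (Set (V × ℕ) × (V × ℕ)) =>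
      {e' : V × ℕ | ∃ q ∈ z.1, e'.1 = I.E.w q ∧ Near I.M z.2.1 z.2.2 (I.E.w q) ∧
        (e'.2 : ℕ∞) < I.M.wd z.2.2 (I.E.w q)})
  refine ⟨_, hd, ?_⟩
  rintro X e u hX ⟨p, hp⟩ hu
  have huX : u ∈ X := hu.1
  have hup : Near I.M X u (I.E.w p) := by rw [hp]; exact hu
  have hpc : p ∈ I.E.cell (TwN I X 2) p := Or.inl rfl
  have huS : u ∈ Col I.M I.E X (I.E.cell (TwN I X 2) p) := ⟨p, hpc, hup⟩
  refine ⟨_, ⟨(I.E.cell (TwN I X 2) p, (Col I.M I.E X (I.E.cell (TwN I X 2) p), u)),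
    ⟨⟨p, rfl⟩, ⟨col_finite _ _ _, hC V I X p, fun z hz => col_sub hz⟩, huX⟩, rfl⟩, ?_, ?_⟩
  · refine ⟨p, hpc, hp.symm, near_sub hup col_sub huS, ?_⟩
    have h := hX u huX
    rw [LMet.inc_iff, not_le] at h
    rw [hp]
    exact h
  · rintro e' ⟨q, hq, hqe, hnear, hlt⟩ x hx
    obtain ⟨y, hy⟩ := near_exists huX hnear.2.1
    have hyS : y ∈ Col I.M I.E X (I.E.cell (TwN I X 2) p) := ⟨q, hq, hy⟩
    have hyu : y = u := near_lift hnear col_sub hy hyS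
    subst hyu
    rw [LMet.inc_iff, not_le, hqe]
    rcases hy.2.2 x hx with h | h
    · exact hlt.trans h
    · exact hlt.trans_le h.1.le

end Pool.Agent.BTV
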