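import Pool.Agent.BTV.TAa

/-! BTV TAc: chains of comb segments.

`cs a b` = indicator of the comb edges `{p, q}`, `Nx p q`, between the positions `a` and `b`.
(1) trivial (unfold, `Sym2` injectivity: `s(inr p, inr q) = s(inr p', inr q')` gives equality up to
swap; `Nx p q` and `Nx q p` are incompatible because of `q.val = p.val + 1`).
(2) `disc a = disc b`, w.l.o.g. `a ≤ b` (`cs` is symmetric in `a`, `b`).  All positions between `a`
and `b` have the same `disc` (`disc_mono`), so consecutive ones are `Nx`.  For `z = inl x` all terms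
vanish.  For `z = inr p` the sum over `y` has at most two non-zero terms: `y = inr (p+1)` (iff
`a ≤ p < b`) and `y = inr (p-1)` (iff `a < p ≤ b`).  Sum = `[a ≤ p < b] + [a < p ≤ b] =
[p = a] + [p = b]` mod 2.
(3) by `disc_mono` and (1).
(4) reachability along the comb path: induction on `b.val - a.val`. -/

set_option autoImplicit false

open Classical

namespace Pool.Agent.BTV

open Pool.Agent.BTD Pool.Agent.H81.Balls

universe u

variable {V : Type u}

/-- the chain of the comb edges between two positions -/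
noncomputable def cs (E : NE V) (a b : Fin E.n) : Sym2 (V ⊕ Fin E.n) → ZMod 2 := fun e =>
  if ∃ p q, E.Nx p q ∧ e = s(.inr p, .inr q) ∧ ((a ≤ p ∧ q ≤ b) ∨ (b ≤ p ∧ q ≤ a)) then 1 else 0

private lemma TAc_disc (E : NE V) {a b p : Fin E.n} (h : E.disc a = E.disc b)
    (hp : (a ≤ p ∧ p ≤ b) ∨ (b ≤ p ∧ p ≤ a)) : E.disc p = E.disc a := by
  rcases hp with ⟨h1, h2⟩ | ⟨h1, h2⟩
  · have h3 := E.disc_mono _ _ h1
    have h4 := E.disc_mono _ _ h2
    omega
  · have h3 := E.disc_mono _ _ h1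
    have h4 := E.disc_mono _ _ h2
    omega

private def TAc_c (E : NE V) (a b p q : Fin E.n) : Prop :=
  E.Nx p q ∧ ((a ≤ p ∧ q ≤ b) ∨ (b ≤ p ∧ q ≤ a))

private lemma TAc_not_both (E : NE V) {p q : Fin E.n} (h : E.Nx p q) (h' : E.Nx q p) : False := by
  have h1 := h.1
  have h2 := h'.1
  omega

private lemma TAc_cs (E : NE V) (a b p q : Fin E.n) :
    cs E a b s(.inr p, .inr q) =
      (if TAc_c E a b p q then 1 else 0) + (if TAc_c E a b q p then 1 else 0) := by
  unfold cs
  by_cases h1 : TAc_c E a b p q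
  · have h2 : ¬ TAc_c E a b q p := fun h => TAc_not_both E h1.1 h.1
    rw [if_pos h1, if_neg h2, add_zero, if_pos]
    exact ⟨p, q, h1.1, rfl, h1.2⟩
  · rw [if_neg h1, zero_add]
    by_cases h2 : TAc_c E a b q p
    · rw [if_pos h2, if_pos]
      exact ⟨q, p, h2.1, Sym2.eq_swap, h2.2⟩
    · rw [if_neg h2, if_neg]
      rintro ⟨p', q', h3, h4, h5⟩
      rw [Sym2.eq_iff] at h4
      rcases h4 with ⟨h4, h6⟩ | ⟨h4, h6⟩
      · have h7 := Sum.inr_injective h4
        have h8 := Sum.inr_injective h6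
        subst h7
        subst h8
        exact h1 ⟨h3, h5⟩
      · have h7 := Sum.inr_injective h4
        have h8 := Sum.inr_injective h6
        subst h7
        subst h8
        exact h2 ⟨h3, h5⟩

private lemma TAc_mem (E : NE V) {a b : Fin E.n} {x y : V ⊕ Fin E.n} (h : cs E a b s(x, y) ≠ 0) :
    ∃ p q, x = .inr p ∧ y = .inr q ∧ (E.Nx p q ∨ E.Nx q p) ∧
      ((a ≤ p ∧ p ≤ b) ∨ (b ≤ p ∧ p ≤ a)) := by
  unfold cs at h
  by_cases h1 : ∃ p q, E.Nx p q ∧ s(x, y) = s(.inr p, .inr q) ∧ ((a ≤ p ∧ q ≤ b) ∨ (b ≤ p ∧ q ≤ a))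
  · obtain ⟨p, q, h2, h3, h4⟩ := h1
    have h5 : p.val + 1 = q.val := h2.1.symm
    rw [Sym2.eq_iff] at h3
    simp only [Fin.le_def] at h4 ⊢
    rcases h3 with ⟨h3, h6⟩ | ⟨h3, h6⟩
    · exact ⟨p, q, h3, h6, Or.inl h2, by omega⟩
    · exact ⟨q, p, h3, h6, Or.inr h2, by omega⟩
  · rw [if_neg h1] at h
    exact absurd rfl h

lemma cs_ne (E : NE V) {a b : Fin E.n} {x y : V ⊕ Fin E.n} (h : cs E a b s(x, y) ≠ 0) :
    E.Ga.Adj x y ∧ ∃ p q, x = .inr p ∧ y = .inr q := by
  obtain ⟨p, q, h1, h2, h3, -⟩ := TAc_mem E h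
  subst h1
  subst h2
  exact ⟨h3, p, q, rfl, rfl⟩

lemma cs_inl (E : NE V) {a b : Fin E.n} (x : V) (y : V ⊕ Fin E.n) : cs E a b s(.inl x, y) = 0 := by
  by_contra h
  obtain ⟨-, p, q, h1, -⟩ := cs_ne E h
  exact absurd h1 (by simp)

private lemma TAc_sum1 [Fintype V] (E : NE V) {a b : Fin E.n} (h : E.disc a = E.disc b)
    (p : Fin E.n) :
    ∑ q, (if TAc_c E a b p q then (1 : ZMod 2) else 0) =
      if (a ≤ p ∧ p < b) ∨ (b ≤ p ∧ p < a) then 1 else 0 := by
  by_cases h1 : (a ≤ p ∧ p < b) ∨ (b ≤ p ∧ p < a)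
  · rw [if_pos h1]
    have hlt : p.val + 1 < E.n := by
      have ha := a.isLt
      have hb := b.isLt
      simp only [Fin.le_def, Fin.lt_def] at h1
      omega
    rw [Finset.sum_eq_single (⟨p.val + 1, hlt⟩ : Fin E.n)]
    · rw [if_pos]
      refine ⟨⟨rfl, ?_⟩, ?_⟩
      · rw [TAc_disc E (p := ⟨p.val + 1, hlt⟩) h, TAc_disc E (p := p) h]
        · simp only [Fin.le_def, Fin.lt_def] at h1 ⊢
          omega
        · simp only [Fin.le_def, Fin.lt_def] at h1 ⊢
          omega
      · simp only [Fin.le_def, Fin.lt_def] at h1 ⊢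
        omega
    · intro q _ hq
      rw [if_neg]
      rintro ⟨h2, -⟩
      exact hq (Fin.ext h2.1)
    · intro h2
      exact absurd (Finset.mem_univ _) h2
  · rw [if_neg h1]
    apply Finset.sum_eq_zero
    intro q _
    rw [if_neg]
    rintro ⟨h2, h3⟩
    apply h1
    have h4 := h2.1
    simp only [Fin.le_def, Fin.lt_def] at h3 ⊢
    omega

private lemma TAc_sum2 [Fintype V] (E : NE V) {a b : Fin E.n} (h : E.disc a = E.disc b)
    (p : Fin E.n) :
    ∑ q, (if TAc_c E a b q p then (1 : ZMod 2) else 0) =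
      if (a < p ∧ p ≤ b) ∨ (b < p ∧ p ≤ a) then 1 else 0 := by
  by_cases h1 : (a < p ∧ p ≤ b) ∨ (b < p ∧ p ≤ a)
  · rw [if_pos h1]
    have hpos : 0 < p.val := by
      simp only [Fin.le_def, Fin.lt_def] at h1
      omega
    have hlt : p.val - 1 < E.n := by
      have hp := p.isLt
      omega
    rw [Finset.sum_eq_single (⟨p.val - 1, hlt⟩ : Fin E.n)]
    · rw [if_pos]
      refine ⟨⟨?_, ?_⟩, ?_⟩
      · simp only
        omega
      · rw [TAc_disc E (p := ⟨p.val - 1, hlt⟩) h, TAc_disc E (p := p) h]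
        · simp only [Fin.le_def, Fin.lt_def] at h1 ⊢
          omega
        · simp only [Fin.le_def, Fin.lt_def] at h1 ⊢
          omega
      · simp only [Fin.le_def, Fin.lt_def] at h1 ⊢
        omega
    · intro q _ hq
      rw [if_neg]
      rintro ⟨h2, -⟩
      apply hq
      apply Fin.ext
      have h3 := h2.1
      simp only
      omega
    · intro h2
      exact absurd (Finset.mem_univ _) h2
  · rw [if_neg h1]
    apply Finset.sum_eq_zero
    intro q _
    rw [if_neg]
    rintro ⟨h2, h3⟩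
    apply h1
    have h4 := h2.1
    simp only [Fin.le_def, Fin.lt_def] at h3 ⊢
    omega

private lemma TAc_arith (a b p : ℕ) :
    ((if (a ≤ p ∧ p < b) ∨ (b ≤ p ∧ p < a) then (1 : ZMod 2) else 0) +
      (if (a < p ∧ p ≤ b) ∨ (b < p ∧ p ≤ a) then 1 else 0)) =
      (if p = a then 1 else 0) + (if p = b then 1 else 0) := by
  split_ifs <;> first | rfl | (exfalso; omega)

lemma cs_boundary [Fintype V] (E : NE V) {a b : Fin E.n} (h : E.disc a = E.disc b)
    (z : V ⊕ Fin E.n) :
    ∑ y, cs E a b s(z, y) = (if z = .inr a then 1 else 0) + (if z = .inr b then 1 else 0) := by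
  cases z with
  | inl x =>
    rw [if_neg (by simp), if_neg (by simp), add_zero]
    apply Finset.sum_eq_zero
    intro y _
    exact cs_inl E x y
  | inr p =>
    rw [Fintype.sum_sum_type]
    have h1 : ∑ v : V, cs E a b s(Sum.inr p, Sum.inl v) = 0 := by
      apply Finset.sum_eq_zero
      intro v _
      rw [Sym2.eq_swap]
      exact cs_inl E v _
    rw [h1, zero_add]
    simp only [TAc_cs]
    rw [Finset.sum_add_distrib, TAc_sum1 E h p, TAc_sum2 E h p]
    have e1 : (Sum.inr p : V ⊕ Fin E.n) = Sum.inr a ↔ p = a := Sum.inr_injective.eq_iff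
    have e2 : (Sum.inr p : V ⊕ Fin E.n) = Sum.inr b ↔ p = b := Sum.inr_injective.eq_iff
    simp only [e1, e2, Fin.ext_iff, Fin.le_def, Fin.lt_def]
    exact TAc_arith a.val b.val p.val

/-- the coefficient on the comb edge after `p` -/
lemma cs_coeff (E : NE V) {a b p q : Fin E.n} (hpq : E.Nx p q) (ha : p ≠ a) (hb : p ≠ b) :
    cs E a b s(.inr p, .inr q) = if E.Bt a b p then 1 else 0 := by
  have h1 : ¬ TAc_c E a b q p := fun h => TAc_not_both E hpq h.1
  rw [TAc_cs, if_neg h1, add_zero]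
  have h2 : TAc_c E a b p q ↔ E.Bt a b p := by
    unfold TAc_c NE.Bt
    have h3 := hpq.1
    have ha' : p.val ≠ a.val := fun h => ha (Fin.ext h)
    have hb' : p.val ≠ b.val := fun h => hb (Fin.ext h)
    simp only [Fin.le_def, Fin.lt_def]
    constructor
    · rintro ⟨-, h4⟩
      omega
    · intro h4
      refine ⟨hpq, ?_⟩
      omega
  by_cases h3 : E.Bt a b p
  · rw [if_pos h3, if_pos (h2.mpr h3)]
  · rw [if_neg h3, if_neg (fun h => h3 (h2.mp h))]

/-- a position strictly between two positions of the same vortex is not the last one -/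
lemma bt_next (E : NE V) {a b p : Fin E.n} (h : E.disc a = E.disc b) (hp : E.Bt a b p) :
    ∃ q, E.Nx p q := by
  unfold NE.Bt at hp
  simp only [Fin.lt_def] at hp
  have hlt : p.val + 1 < E.n := by
    have ha := a.isLt
    have hb := b.isLt
    omega
  refine ⟨⟨p.val + 1, hlt⟩, rfl, ?_⟩
  rw [TAc_disc E (p := ⟨p.val + 1, hlt⟩) h, TAc_disc E (p := p) h]
  · simp only [Fin.le_def]
    omega
  · simp only [Fin.le_def]
    omega

lemma bt_disc (E : NE V) {a b p : Fin E.n} (h : E.disc a = E.disc b) (hp : E.Bt a b p) :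
    E.disc p = E.disc a := by
  apply TAc_disc E h
  unfold NE.Bt at hp
  rcases hp with ⟨h1, h2⟩ | ⟨h1, h2⟩
  · exact Or.inl ⟨h1.le, h2.le⟩
  · exact Or.inr ⟨h1.le, h2.le⟩

private lemma TAc_reach (E : NE V) (k : ℕ) : ∀ a b : Fin E.n, b.val = a.val + k →
    E.disc a = E.disc b → E.Ga.Reachable (.inr a) (.inr b) := by
  induction k with
  | zero =>
    intro a b hab _
    have h1 : b = a := Fin.ext hab
    subst h1
    exact SimpleGraph.Reachable.refl _
  | succ k ih =>
    intro a b hab h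
    have hlt : a.val + k < E.n := by
      have hb := b.isLt
      omega
    have hd : E.disc (⟨a.val + k, hlt⟩ : Fin E.n) = E.disc a := by
      apply TAc_disc E h
      simp only [Fin.le_def]
      omega
    have h2 := ih a ⟨a.val + k, hlt⟩ rfl hd.symm
    have h3 : E.Ga.Adj (.inr ⟨a.val + k, hlt⟩) (.inr b) := by
      refine Or.inl ⟨?_, ?_⟩
      · simp only
        omega
      · rw [hd, h]
    exact h2.trans h3.reachable

lemma comb_reach (E : NE V) {a b : Fin E.n} (h : E.disc a = E.disc b) :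
    E.Ga.Reachable (.inr a) (.inr b) := by
  rcases le_total a.val b.val with h1 | h1
  · exact TAc_reach E (b.val - a.val) a b (by omega) h
  · exact (TAc_reach E (a.val - b.val) b a (by omega) h.symm).symm

lemma cs_reach (E : NE V) {a b : Fin E.n} (h : E.disc a = E.disc b) {x y : V ⊕ Fin E.n}
    (hxy : cs E a b s(x, y) ≠ 0) : E.Ga.Reachable (.inr a) x := by
  obtain ⟨p, q, h1, -, -, h2⟩ := TAc_mem E hxy
  subst h1
  exact comb_reach E (TAc_disc E h h2).symm

end Pool.Agent.BTV
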