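import Pool.Agent.BTV.RTf
import Pool.Agent.BTV.TAc

/-! BTV RTd: connectivity of sets of legs.

`conn_zb`: `B = ∅`: then `Z = ∅` by `hZ`; trivial.  Otherwise centre `inr b₀`, `b₀ ∈ B`: `inr b` to
`inr b₀` along the comb inside `B` (induction on the distance, `Itv`); `inl z → … → inl (w p) → inr p`.
`conn_zb_none`: centre `inl q` (every `v ∈ Z` has a chain to `q` with all further vertices in `Z`). -/

set_option autoImplicit false

open Classical

namespace Pool.Agent.BTV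

open Pool.Agent.BTD Pool.Agent.H81.Balls

universe u

theorem exists_pord {V : Type u} [Fintype V] {g k s : ℕ} (I : Inst g k s V) (q : V)
    (A : Option (Set (Fin I.E.n))) (hA : ∀ α, A = some α → I.E.Itv α) :
    ∃ rk : V → ℕ, POrd I.M I.E q A (2 * g + 3) rk := by
  cases A with
  | none => exact exists_pord_none I q
  | some α => exact exists_pord_some I q α (hA α rfl)

lemma lift_zb {V : Type u} {E : NE V} {Z : Set V} (B : Set (Fin E.n)) {z z' : V}
    (h : Relation.ReflTransGen (fun a b => E.H.Adj a b ∧ b ∈ Z) z z') :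
    Relation.ReflTransGen (fun a b => E.Ga.Adj a b ∧ b ∈ ZB E Z B) (.inl z) (.inl z') := by
  induction h with
  | refl => exact .refl
  | tail _ hbc ih => exact ih.tail ⟨hbc.1, Or.inl ⟨_, hbc.2, rfl⟩⟩

lemma comb_up {V : Type u} {E : NE V} (Z : Set V) {B : Set (Fin E.n)} (hB : E.Itv B)
    {b₀ : Fin E.n} (hb₀ : b₀ ∈ B) :
    ∀ (m : ℕ) (b : Fin E.n), b ∈ B → b ≤ b₀ → b₀.val - b.val = m →
      Relation.ReflTransGen (fun a b => E.Ga.Adj a b ∧ b ∈ ZB E Z B) (.inr b) (.inr b₀) := by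
  intro m
  induction m with
  | zero =>
    intro b hb hle hm
    have : b = b₀ := by
      apply Fin.ext
      have := Fin.le_def.mp hle
      omega
    rw [this]
  | succ m ih =>
    intro b hb hle hm
    have hle' := Fin.le_def.mp hle
    have hlt : b.val + 1 < E.n := by have := b₀.isLt; omega
    have h1 : (⟨b.val + 1, hlt⟩ : Fin E.n) ∈ B :=
      hB.2 b _ b₀ hb hb₀ (by rw [Fin.le_def]; simp) (by rw [Fin.le_def]; simp; omega)
    have hnx : E.Nx b ⟨b.val + 1, hlt⟩ := ⟨rfl, hB.1 _ h1 _ hb⟩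
    refine Relation.ReflTransGen.head ⟨?_, Or.inr ⟨_, h1, rfl⟩⟩
      (ih ⟨b.val + 1, hlt⟩ h1 (by rw [Fin.le_def]; simp; omega) (by simp; omega))
    exact Or.inl hnx

lemma comb_down {V : Type u} {E : NE V} (Z : Set V) {B : Set (Fin E.n)} (hB : E.Itv B)
    {b₀ : Fin E.n} (hb₀ : b₀ ∈ B) :
    ∀ (m : ℕ) (b : Fin E.n), b ∈ B → b₀ ≤ b → b.val - b₀.val = m →
      Relation.ReflTransGen (fun a b => E.Ga.Adj a b ∧ b ∈ ZB E Z B) (.inr b) (.inr b₀) := by
  intro m
  induction m with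
  | zero =>
    intro b hb hle hm
    have : b = b₀ := by
      apply Fin.ext
      have := Fin.le_def.mp hle
      omega
    rw [this]
  | succ m ih =>
    intro b hb hle hm
    have hle' := Fin.le_def.mp hle
    have hlt : b.val - 1 < E.n := by have := b.isLt; omega
    have h1 : (⟨b.val - 1, hlt⟩ : Fin E.n) ∈ B :=
      hB.2 b₀ _ b hb₀ hb (by rw [Fin.le_def]; simp; omega) (by rw [Fin.le_def]; simp)
    have hnx : E.Nx ⟨b.val - 1, hlt⟩ b := ⟨by simp; omega, hB.1 _ hb _ h1⟩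
    refine Relation.ReflTransGen.head ⟨?_, Or.inr ⟨_, h1, rfl⟩⟩
      (ih ⟨b.val - 1, hlt⟩ h1 (by rw [Fin.le_def]; simp; omega) (by simp; omega))
    exact Or.inr hnx

/-- connectivity of sets of legs over an interval of comb positions -/
lemma conn_zb {V : Type u} [Nonempty V] {E : NE V} {Z : Set V} {B : Set (Fin E.n)} (hB : E.Itv B)
    (hw : ∀ p ∈ B, E.w p ∈ Z)
    (hZ : ∀ z ∈ Z, ∃ p ∈ B, Relation.ReflTransGen (fun a b => E.H.Adj a b ∧ b ∈ Z) z (E.w p)) :
    Conn E.Ga (ZB E Z B) := by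
  by_cases hne : B.Nonempty
  · obtain ⟨b₀, hb₀⟩ := hne
    have hcomb : ∀ b ∈ B,
        Relation.ReflTransGen (fun a b => E.Ga.Adj a b ∧ b ∈ ZB E Z B) (.inr b) (.inr b₀) := by
      intro b hb
      rcases le_total b b₀ with h | h
      · exact comb_up Z hB hb₀ _ b hb h rfl
      · exact comb_down Z hB hb₀ _ b hb h rfl
    refine ⟨.inr b₀, ?_⟩
    rintro v (⟨z, hz, rfl⟩ | ⟨b, hb, rfl⟩)
    · obtain ⟨p, hp, hR⟩ := hZ z hz
      refine (lift_zb B hR).trans (Relation.ReflTransGen.head ⟨?_, Or.inr ⟨p, hp, rfl⟩⟩ (hcomb p hp))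
      exact (rfl : E.w p = E.w p)
    · exact hcomb b hb
  · refine ⟨.inl (Classical.arbitrary V), ?_⟩
    rintro v (⟨z, hz, rfl⟩ | ⟨b, hb, rfl⟩)
    · obtain ⟨p, hp, -⟩ := hZ z hz
      exact absurd ⟨p, hp⟩ hne
    · exact absurd ⟨b, hb⟩ hne

lemma conn_zb_none {V : Type u} {E : NE V} {Z : Set V} {q : V}
    (hZ : ∀ z ∈ Z, Relation.ReflTransGen (fun a b => E.H.Adj a b ∧ b ∈ Z) z q) :
    Conn E.Ga (ZB E Z ∅) := by
  refine ⟨.inl q, ?_⟩
  rintro v (⟨z, hz, rfl⟩ | ⟨b, hb, rfl⟩)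
  · exact lift_zb ∅ (hZ z hz)
  · exact absurd hb (Set.notMem_empty b)

end Pool.Agent.BTV
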