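import Pool.Agent.BTV.FB
import Pool.Agent.BTV.RTd
import Pool.Agent.BTV.CDd
import Pool.Agent.BTV.NA

/-! BTV NE: change points of the frontier of a nearest-site region.

`S' := {u, y₁, y₂}`.  `QN .. y L` = elements of the planar part over `A` of the tree of `u`, not in the
region of `u`, whose parent is in the region of `u` (or is a vortex vertex), which are in the region
of `y` and whose leg towards `y` lands in `L`.

PROOF of `cpN_bound`.  `cp_bound_alt` with `B = 2 g + 3`; disjoint by `near_unique` (`y₁ ≠ y₂`);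
injectivity from `POrd.inj`.  Alternation: `POrd.alt` with `N₀ := {v ∈ PP u.1 A | Near S' u v}`
(closed: `near_cl`, `mem_pp`, `inL_par`), `Z_i := {v | ¬ IsV v ∧ Near S' y_i v ∧ InL y_i.1 L_i v} ∪
{w p | p ∈ OA L_i}`, `B_i := OA L_i`.  `Conn`: `conn_zb` (`L_i = some B_i`: a planar `v ∈ Z_i` is followed
along its leg to `w p`, `p ∈ B_i`; all steps are `H`-edges (`hadj_par`, planar vertices are in no bag)
and stay in `Z_i` (`near_cl`, `inL_par`)), `conn_zb_none` (`L_i = none`, centre `y_i.1`).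
If `A = none` then `u.1 ∈ N₀` is required: if `Near S' u u.1` it holds unless `PP` is empty
(`u.1 ∈ PP u.1 none` iff `u.1` planar; elements of `PP .. none` have `u.1` on their leg); if
`¬ Near S' u u.1` then no vertex of `PP` is in the region of `u` (`near_anc`, `LMet.anc_root`), and
for `A = none` parents are planar, so both `QN` are empty and `CP = ∅`.
A list of elements of `Q₁ ∪ Q₂`: each is in `Z₁` or `Z₂` accordingly. -/

set_option autoImplicit false

open Classical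

namespace Pool.Agent.BTV

open Pool.Agent.BTD Pool.Agent.H81.Balls

universe u

variable {V : Type u} [Fintype V] {g k s : ℕ}

/-- the chosen order -/
noncomputable def rkP (I : Inst g k s V) (q : V) (A : Option (Set (Fin I.E.n))) : V → ℕ :=
  if h : ∀ α, A = some α → I.E.Itv α then (exists_pord I q A h).choose else fun _ => 0

lemma rkP_spec (I : Inst g k s V) (q : V) (A : Option (Set (Fin I.E.n)))
    (h : ∀ α, A = some α → I.E.Itv α) : POrd I.M I.E q A (2 * g + 3) (rkP I q A) := by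
  unfold rkP
  rw [dif_pos h]
  exact (exists_pord I q A h).choose_spec

def QN (I : Inst g k s V) (u y₁ y₂ : V × ℕ) (A : Option (Set (Fin I.E.n))) (y : V × ℕ)
    (L : Option (Set (Fin I.E.n))) : Set V :=
  {v | v ∈ PP I.M I.E u.1 A ∧ ¬ Near I.M {u, y₁, y₂} u v ∧
    (Near I.M {u, y₁, y₂} u (I.M.par u.1 v) ∨ I.E.IsV (I.M.par u.1 v)) ∧
    Near I.M {u, y₁, y₂} y v ∧ InL I.M I.E y.1 L v}

def CPN (I : Inst g k s V) (u : V × ℕ) (A : Option (Set (Fin I.E.n))) (y₁ : V × ℕ)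
    (L₁ : Option (Set (Fin I.E.n))) (y₂ : V × ℕ) (L₂ : Option (Set (Fin I.E.n))) : Set V :=
  CP (rkP I u.1 A) (QN I u y₁ y₂ A y₁ L₁) (QN I u y₁ y₂ A y₂ L₂)

/-- admissible parameters -/
structure OKN (I : Inst g k s V) (u : V × ℕ) (A : Option (Set (Fin I.E.n))) (y₁ : V × ℕ)
    (L₁ : Option (Set (Fin I.E.n))) (y₂ : V × ℕ) (L₂ : Option (Set (Fin I.E.n))) : Prop where
  h1 : y₁ ≠ u
  h2 : y₂ ≠ u
  h12 : y₁ ≠ y₂
  iA : ∀ α, A = some α → I.E.Itv α
  i1 : ∀ α, L₁ = some α → I.E.Itv α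
  i2 : ∀ α, L₂ = some α → I.E.Itv α
  d1 : Disjoint (OA A) (OA L₁)
  d2 : Disjoint (OA A) (OA L₂)
  d12 : Disjoint (OA L₁) (OA L₂)

/-- the part of the region of `y` whose legs land in `L`, with the landings -/
def NEz (I : Inst g k s V) (S : Set (V × ℕ)) (y : V × ℕ) (L : Option (Set (Fin I.E.n))) : Set V :=
  {v | (¬ I.E.IsV v ∧ Near I.M S y v ∧ InL I.M I.E y.1 L v) ∨ ∃ p ∈ (OA L : Set (Fin I.E.n)), I.E.w p = v}

lemma NE_chain_some (I : Inst g k s V) {S : Set (V × ℕ)} {y : V × ℕ} {B : Set (Fin I.E.n)}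
    {p : Fin I.E.n} (hp : p ∈ B) :
    ∀ (m : ℕ) (z : V), Near I.M S y z → InL I.M I.E y.1 (some B) z → (I.M.par y.1)^[m] z = I.E.w p →
      (∀ j < m, ¬ I.E.IsV ((I.M.par y.1)^[j] z)) →
      Relation.ReflTransGen (fun a b => I.E.H.Adj a b ∧ b ∈ NEz I S y (some B)) z (I.E.w p) := by
  intro m
  induction m with
  | zero =>
    intro z _ _ h _
    rw [← h]
    exact .refl
  | succ m ih =>
    intro z hz hL h hj
    have hzV : ¬ I.E.IsV z := hj 0 (by omega)
    have hD : I.M.D z y.1 ≠ ⊤ := hL.1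
    have hzy : z ≠ y.1 := by
      rintro rfl
      rw [LMet.CAb_iter_root] at h
      exact hzV ⟨p, h.symm⟩
    rw [Function.iterate_succ_apply] at h
    have hnear : Near I.M S y (I.M.par y.1 z) := near_anc hz LMet.anc_par
    have hL' : InL I.M I.E y.1 (some B) (I.M.par y.1 z) := ((inL_par hzV hzy).mp hL).2
    have hj' : ∀ j < m, ¬ I.E.IsV ((I.M.par y.1)^[j] (I.M.par y.1 z)) := by
      intro j hjm
      have := hj (j + 1) (by omega)
      rwa [Function.iterate_succ_apply] at this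
    have hmem : I.M.par y.1 z ∈ NEz I S y (some B) := by
      by_cases hV : I.E.IsV (I.M.par y.1 z)
      · have hm0 : m = 0 := by
          by_contra hm
          exact hj' 0 (by omega) hV
        subst hm0
        exact Or.inr ⟨p, ⟨B, rfl, hp⟩, h.symm⟩
      · exact Or.inl ⟨hV, hnear, hL'⟩
    have hadj : I.E.H.Adj z (I.M.par y.1 z) := hadj_par I.fits hD hzy (fun hc => hzV (vst_isV hc).1)
    exact Relation.ReflTransGen.head ⟨hadj, hmem⟩ (ih _ hnear hL' h hj')

lemma NE_chain_none (I : Inst g k s V) {S : Set (V × ℕ)} {y : V × ℕ} :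
    ∀ (m : ℕ) (z : V), Near I.M S y z → Free I.M I.E y.1 z → (I.M.par y.1)^[m] z = y.1 →
      Relation.ReflTransGen (fun a b => I.E.H.Adj a b ∧ b ∈ NEz I S y none) z y.1 := by
  intro m
  induction m with
  | zero =>
    intro z _ _ h
    have h' : z = y.1 := h
    rw [h']
  | succ m ih =>
    intro z hz hL h
    by_cases hzy : z = y.1
    · rw [hzy]
    have hzV : ¬ I.E.IsV z := hL.2 z LMet.anc_refl
    rw [Function.iterate_succ_apply] at h
    have hnear : Near I.M S y (I.M.par y.1 z) := near_anc hz LMet.anc_par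
    have hL' : Free I.M I.E y.1 (I.M.par y.1 z) := free_anc hL LMet.anc_par
    have hmem : I.M.par y.1 z ∈ NEz I S y none :=
      Or.inl ⟨hL'.2 _ LMet.anc_refl, hnear, hL'⟩
    have hadj : I.E.H.Adj z (I.M.par y.1 z) :=
      hadj_par I.fits hL.1 hzy (fun hc => hzV (vst_isV hc).1)
    exact Relation.ReflTransGen.head ⟨hadj, hmem⟩ (ih _ hnear hL' h)

lemma NE_conn (I : Inst g k s V) {S : Set (V × ℕ)} {y : V × ℕ} {L : Option (Set (Fin I.E.n))}
    (hL : ∀ α, L = some α → I.E.Itv α) : Conn I.E.Ga (ZB I.E (NEz I S y L) (OA L)) := by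
  have : Nonempty V := ⟨y.1⟩
  cases L with
  | none =>
    have h0 : (OA (none : Option (Set (Fin I.E.n))) : Set (Fin I.E.n)) = ∅ := by
      ext p
      constructor
      · rintro ⟨α, hα, -⟩
        exact absurd hα (by simp)
      · intro h
        exact absurd h (Set.notMem_empty p)
    rw [h0]
    refine conn_zb_none (q := y.1) ?_
    rintro z (⟨-, h2, h3⟩ | ⟨p, ⟨α, hα, -⟩, -⟩)
    · obtain ⟨m, hm⟩ := LMet.anc_root (M := I.M) h3.1
      exact NE_chain_none I m z h2 h3 hm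
    · exact absurd hα (by simp)
  | some B =>
    have h0 : (OA (some B) : Set (Fin I.E.n)) = B := by
      ext p
      constructor
      · rintro ⟨α, hα, h⟩
        rw [Option.some.injEq] at hα
        rwa [hα]
      · intro h
        exact ⟨B, rfl, h⟩
    rw [h0]
    refine conn_zb (hL B rfl) ?_ ?_
    · intro p hp
      exact Or.inr ⟨p, ⟨B, rfl, hp⟩, rfl⟩
    · rintro z (⟨h1, h2, h3⟩ | ⟨p, ⟨α, hα, hp⟩, rfl⟩)
      · obtain ⟨p, hp, m, hm, hj⟩ := h3.2
        exact ⟨p, hp, NE_chain_some I hp m z h2 h3 hm hj⟩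
      · rw [Option.some.injEq] at hα
        exact ⟨p, by rwa [hα], .refl⟩

theorem cpN_bound (I : Inst g k s V) {u y₁ y₂ : V × ℕ} {A L₁ L₂ : Option (Set (Fin I.E.n))}
    (h : OKN I u A y₁ L₁ y₂ L₂) : (CPN I u A y₁ L₁ y₂ L₂).ncard ≤ 4 * (2 * g + 3) := by
  have hspec := rkP_spec I u.1 A h.iA
  -- planar vertices
  have hpl : ∀ {q v : V} {A : Option (Set (Fin I.E.n))}, v ∈ PP I.M I.E q A → ¬ I.E.IsV v :=
    fun hv => (mem_pp.mp hv).1
  have hQ : ∀ {y : V × ℕ} {L : Option (Set (Fin I.E.n))} {v : V}, v ∈ QN I u y₁ y₂ A y L →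
      v ∈ NEz I {u, y₁, y₂} y L := fun hv => Or.inl ⟨hpl hv.1, hv.2.2.2.1, hv.2.2.2.2⟩
  have hdz : Disjoint (NEz I {u, y₁, y₂} y₁ L₁) (NEz I {u, y₁, y₂} y₂ L₂) := by
    rw [Set.disjoint_left]
    rintro v (⟨a1, a2, -⟩ | ⟨p, hp, rfl⟩) (⟨b1, b2, -⟩ | ⟨p', hp', hpp⟩)
    · exact h.h12 (near_unique a2 b2)
    · exact a1 ⟨p', hpp⟩
    · exact b1 ⟨p, rfl⟩
    · rw [I.E.w_inj _ _ hpp] at hp'
      exact Set.disjoint_left.mp h.d12 hp hp'
  have hdQ : Disjoint (QN I u y₁ y₂ A y₁ L₁) (QN I u y₁ y₂ A y₂ L₂) := by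
    rw [Set.disjoint_left]
    intro v hv hv'
    exact Set.disjoint_left.mp hdz (hQ hv) (hQ hv')
  refine cp_bound_alt hdQ ?_ (2 * g + 3) ?_
  · intro a b ha hb hab
    have ha' : a ∈ PP I.M I.E u.1 A := ha.elim (fun h => h.1) (fun h => h.1)
    have hb' : b ∈ PP I.M I.E u.1 A := hb.elim (fun h => h.1) (fun h => h.1)
    exact hspec.inj a ha' b hb' hab
  · intro l hl1 hl2 hl3
    -- parents
    have hparN : ∀ v, v ∈ PP I.M I.E u.1 A → v ≠ u.1 → Near I.M {u, y₁, y₂} u (I.M.par u.1 v) →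
        I.M.par u.1 v ∈ {v | v ∈ PP I.M I.E u.1 A ∧ Near I.M {u, y₁, y₂} u v} ∨
          I.E.IsV (I.M.par u.1 v) := by
      intro v hv hne hn
      by_cases hV : I.E.IsV (I.M.par u.1 v)
      · exact Or.inr hV
      · exact Or.inl ⟨mem_pp.mpr ⟨hV, ((inL_par (hpl hv) hne).mp (mem_pp.mp hv).2).2⟩, hn⟩
    have hne_u : ∀ {y : V × ℕ} {L : Option (Set (Fin I.E.n))} {v : V}, v ∈ QN I u y₁ y₂ A y L →
        v ≠ u.1 := by
      rintro y L v hv rfl
      rcases hv.2.2.1 with h1 | h1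
      · rw [LMet.par_root] at h1
        exact hv.2.1 h1
      · rw [LMet.par_root] at h1
        exact hpl hv.1 h1
    have hlist : ∀ {y : V × ℕ} {L : Option (Set (Fin I.E.n))} {b : V}, b ∈ QN I u y₁ y₂ A y L →
        b ∈ PP I.M I.E u.1 A ∧
        (I.M.par u.1 b ∈ {v | v ∈ PP I.M I.E u.1 A ∧ Near I.M {u, y₁, y₂} u v} ∨
          I.E.IsV (I.M.par u.1 b)) := by
      intro y L b hb
      refine ⟨hb.1, ?_⟩
      rcases hb.2.2.1 with h1 | h1
      · exact hparN b hb.1 (hne_u hb) h1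
      · exact Or.inr h1
    rcases l with _ | ⟨b₀, l₀⟩
    · exact Nat.zero_le _
    have hroot : A = none → u.1 ∈ {v | v ∈ PP I.M I.E u.1 A ∧ Near I.M {u, y₁, y₂} u v} := by
      rintro rfl
      have hb0 : b₀ ∈ PP I.M I.E u.1 none ∧ (Near I.M {u, y₁, y₂} u (I.M.par u.1 b₀) ∨
          I.E.IsV (I.M.par u.1 b₀)) := by
        rcases hl2 b₀ (by simp) with h1 | h1
        · exact ⟨h1.1, h1.2.2.1⟩
        · exact ⟨h1.1, h1.2.2.1⟩
      have hfree : Free I.M I.E u.1 b₀ := hb0.1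
      have hfp : Free I.M I.E u.1 (I.M.par u.1 b₀) := free_anc hfree LMet.anc_par
      have hn : Near I.M {u, y₁, y₂} u (I.M.par u.1 b₀) := by
        rcases hb0.2 with h1 | h1
        · exact h1
        · exact absurd h1 (hfp.2 _ LMet.anc_refl)
      have hr : I.M.Anc u.1 u.1 (I.M.par u.1 b₀) := LMet.anc_root hfp.1
      exact ⟨free_anc hfp hr, near_anc hn hr⟩
    refine hspec.alt {v | v ∈ PP I.M I.E u.1 A ∧ Near I.M {u, y₁, y₂} u v}
      (NEz I {u, y₁, y₂} y₁ L₁) (NEz I {u, y₁, y₂} y₂ L₂) (OA L₁) (OA L₂)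
      (fun v hv => hv.1) ?_ hroot (NE_conn I h.i1) (NE_conn I h.i2) ?_ ?_ hdz h.d12 h.d1 h.d2 ?_
      (b₀ :: l₀) hl1 ?_ ?_
    · rintro v ⟨hv1, hv2⟩
      by_cases hne : v = u.1
      · left
        rw [hne, LMet.par_root]
        rw [hne] at hv1 hv2
        exact ⟨hv1, hv2⟩
      · exact hparN v hv1 hne (near_anc hv2 LMet.anc_par)
    · rw [Set.disjoint_left]
      rintro v ⟨hv1, hv2⟩ (⟨-, b2, -⟩ | ⟨p, -, rfl⟩)
      · exact h.h1 (near_unique b2 hv2)
      · exact hpl hv1 ⟨p, rfl⟩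
    · rw [Set.disjoint_left]
      rintro v ⟨hv1, hv2⟩ (⟨-, b2, -⟩ | ⟨p, -, rfl⟩)
      · exact h.h2 (near_unique b2 hv2)
      · exact hpl hv1 ⟨p, rfl⟩
    · intro p hp
      constructor
      · rintro (⟨b1, -, -⟩ | ⟨p', hp', hpp⟩)
        · exact b1 ⟨p, rfl⟩
        · rw [I.E.w_inj _ _ hpp] at hp'
          exact Set.disjoint_left.mp h.d1 hp hp'
      · rintro (⟨b1, -, -⟩ | ⟨p', hp', hpp⟩)
        · exact b1 ⟨p, rfl⟩
        · rw [I.E.w_inj _ _ hpp] at hp'
          exact Set.disjoint_left.mp h.d2 hp hp'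
    · intro b hb
      rcases hl2 b hb with h1 | h1
      · exact ⟨(hlist h1).1, (hlist h1).2, Or.inl (hQ h1)⟩
      · exact ⟨(hlist h1).1, (hlist h1).2, Or.inr (hQ h1)⟩
    · refine List.IsChain.imp_of_mem_imp ?_ hl3
      intro a b ha hb hab
      have ea : a ∈ NEz I {u, y₁, y₂} y₁ L₁ ↔ a ∈ QN I u y₁ y₂ A y₁ L₁ := by
        constructor
        · intro h1
          rcases hl2 a ha with h2 | h2
          · exact h2
          · exact absurd (hQ h2) (Set.disjoint_left.mp hdz h1)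
        · exact hQ
      have eb : b ∈ NEz I {u, y₁, y₂} y₂ L₂ ↔ b ∈ QN I u y₁ y₂ A y₂ L₂ := by
        constructor
        · intro h1
          rcases hl2 b hb with h2 | h2
          · exact absurd h1 (Set.disjoint_left.mp hdz (hQ h2))
          · exact h2
        · exact hQ
      rw [ea, eb]
      exact hab

end Pool.Agent.BTV
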