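import Pool.Agent.BTV.NE
import Pool.Agent.BTV.NB

/-! BTV NG: decodable change points for nearest sites.

`DCP X u A`: all change points with parameters: sites `y₁, y₂ ∈ X`; `L₂` = no landing or a cell of level
2; `L₁` = no landing or a type of positions relative to `A` and `L₂`.
`dcp_dcd`: `A` fixed.  The parameters `(y₁, y₂, L₂, L₁)` are decodable (`Dcd.site`, `twN_dcd`,
`Dcd.option`, `fib_dcd` with the pair `(OA A, OA L₂)`: here use `bind` over `L₂`), `L₁` given `L₂` is one of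
`4 s + 1` possibilities (`fib_ncard`); then `bind` with `Dcd.ncard (cpN_bound ..)` (for non-admissible
parameters there is nothing to decode). -/

set_option autoImplicit false

open Classical

namespace Pool.Agent.BTV

open Pool.Agent.BTD Pool.Agent.H81.Balls

universe u

/-- decodable change points -/
def DCP {V : Type u} [Fintype V] {g k s : ℕ} (I : Inst g k s V) (X : Set (V × ℕ)) (u : V × ℕ)
    (A : Option (Set (Fin I.E.n))) : Set V :=
  {v | ∃ y₁ ∈ X, ∃ y₂ ∈ X, ∃ L₁ L₂ : Option (Set (Fin I.E.n)), OKN I u A y₁ L₁ y₂ L₂ ∧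
    (L₂ = none ∨ ∃ p, L₂ = some (I.E.cell (TwN I X 2) p)) ∧
    (L₁ = none ∨ ∃ p, L₁ = some (fib I.E (OA A) (OA L₂) p)) ∧ v ∈ CPN I u A y₁ L₁ y₂ L₂}

/-- a condition which does not depend on the sites -/
private lemma ng_if {P Z : Type*} {N : ℕ} {R : Set P → Z → Prop} {p : Prop} (h : p → Dcd N R) :
    Dcd N (fun X z => p ∧ R X z) := by
  by_cases hp : p
  · exact (h hp).mono le_rfl (fun X z hz => hz.2)
  · exact ⟨fun _ _ => none, fun X z hz => absurd hz.1 hp⟩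

theorem dcp_dcd (g k s : ℕ) : ∃ N : ℕ, ∀ (V : Type u) [Fintype V] (I : Inst g k s V) (u : V × ℕ)
    (A : Option (Set (Fin I.E.n))), Dcd N (fun X v => v ∈ DCP I X u A) := by
  obtain ⟨N, hN⟩ := twN_dcd.{u} g k s 2
  refine ⟨bd (bd (bd (bd 1 1) (N + 1)) (4 * s + 1)) (4 * (2 * g + 3)), fun V _ I u A => ?_⟩
  have h1 : Dcd (bd (bd 1 1) (N + 1))
      (fun (X : Set (V × ℕ)) (z : ((V × ℕ) × (V × ℕ)) × Option (Set (Fin I.E.n))) =>
        (z.1.1 ∈ X ∧ z.1.2 ∈ X) ∧ ∀ α, z.2 = some α → ∃ p, α = I.E.cell (TwN I X 2) p) :=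
    Dcd.pair (Dcd.pair Dcd.site Dcd.site) (Dcd.option (hN V I).2)
  have h2 : Dcd (bd (bd (bd 1 1) (N + 1)) (4 * s + 1))
      (fun (X : Set (V × ℕ)) (w : (((V × ℕ) × (V × ℕ)) × Option (Set (Fin I.E.n))) ×
        Option (Set (Fin I.E.n))) =>
        ∃ z, ((z.1.1 ∈ X ∧ z.1.2 ∈ X) ∧ ∀ α, z.2 = some α → ∃ p, α = I.E.cell (TwN I X 2) p) ∧
          ∃ L₁ : Option (Set (Fin I.E.n)), (∀ F, L₁ = some F →
            F ∈ {F | ∃ q₀, F = fib I.E (OA A) (OA z.2) q₀}) ∧ (z, L₁) = w) :=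
    Dcd.bind h1 (fun z => Dcd.map (Dcd.option (Dcd.ncard
      (fib_ncard I.disc_lt (OA A) (OA z.2)).1 (fib_ncard I.disc_lt (OA A) (OA z.2)).2)) _)
  refine (Dcd.bind h2 (R' := fun w _ v => OKN I u A w.1.1.1 w.2 w.1.1.2 w.1.2 ∧
    v ∈ CPN I u A w.1.1.1 w.2 w.1.1.2 w.1.2) (fun w => ng_if (fun hok =>
      Dcd.ncard (Set.toFinite _) (cpN_bound I hok)))).mono le_rfl ?_
  rintro X v ⟨y₁, hy₁, y₂, hy₂, L₁, L₂, hok, hL₂, hL₁, hv⟩
  refine ⟨(((y₁, y₂), L₂), L₁), ⟨((y₁, y₂), L₂), ⟨⟨hy₁, hy₂⟩, ?_⟩, L₁, ?_, rfl⟩, hok, hv⟩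
  · rintro α hα
    rcases hL₂ with h | ⟨p, h⟩
    · exact absurd (h.symm.trans hα) (by simp)
    · exact ⟨p, (Option.some.inj (h.symm.trans hα)).symm⟩
  · rintro F hF
    rcases hL₁ with h | ⟨p, h⟩
    · exact absurd (h.symm.trans hF) (by simp)
    · exact ⟨p, (Option.some.inj (h.symm.trans hF)).symm⟩

end Pool.Agent.BTV
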