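import Pool.Agent.BTV.NG
import Pool.Agent.BTV.NC

/-! BTV NH: the key lemma for planar targets, nearest sites.

Setting (structure `SetN`): `u` a site of `X`, `A` = none or a cell of level 2, `rk := rkP I u.1 A`,
`c ∈ PP u.1 A` with `Near X u c`.
`FO` = outer frontier: `b ∈ PP u.1 A`, `¬ Near X u b`, (`Near X u (par b)` or `par b` a vortex vertex),
and for the site `x` with `Near X x b` the landing of `b` towards `x` (if any) is not in `OA A`.
PROOF of `top_FO` (here `c` with `Near X u c` is needed, otherwise `Near X u` may be empty):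
`z ∈ PP u.1 A`, `Near S u z`, `¬ Near X u z`, `S ⊆ X`, `Col X (OA A) ⊆ S`.  Let `b` be the
vertex with the largest iterate number on the planar part of the leg of `z` towards `u` (`PAnc`) with
`¬ Near X u b`.  `Near S u b` (`near_anc`).  `wd u b ≠ ⊤`, so there is `x` with `Near X x b`; `x ∉ S`
(otherwise `near_lift` gives `x = u`).  `par b` is a vortex vertex or (by maximality) `Near X u (par b)`.
If `b` lands at `p ∈ OA A` towards `x` then `Near X x (w p)` so `x ∈ Col X (OA A) ⊆ S`; contradiction.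
PROOF of `left_N`: `bL ∈ FO`, `rk bL < rk c`, no element of `FO` strictly between `rk bL` and `rk c`,
`Near X yL bL`, `yL ∈ S`, and (`bL` free towards `yL`, or `bL` lands at `p` and
`Col X (cell (TwN 2) p) ⊆ S`).  `z` as in `top_FO` with `rk z < rk c`.  Then there is `λ ∈ DCP` with
`rk z < rk λ < rk c`.
 Let `b`, `x` from `top_FO`; `rk b ≤ rk z < rk c` (`POrd.anc_le`), so `rk b ≤ rk bL`; `b ≠ bL` since the
 nearest site of `bL` is `yL ∈ S`, that of `b` is `x ∉ S`.  So `rk b < rk bL`.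
 Claim `rk z < rk bL`: otherwise `rk b ≤ rk bL ≤ rk z` gives `PAnc u.1 b bL` (`POrd.interval`), `b ≠ bL`, so
 `b` is on the leg of `par bL`, and `par bL` is planar, so `Near X u (par bL)`, hence `Near X u b`
 (`near_anc`), contradiction.
 `L₂ :=` none or `some (cell (TwN 2) p)`; `L₁ :=` none (if `b` is free towards `x`) or
 `some (fib (OA A) (OA L₂) p')` with `p'` the landing of `b` towards `x` (`p' ∉ OA A` by `top_FO`;
 `p' ∉ OA L₂` since otherwise `x ∈ Col X (cell ..) ⊆ S`).  `OKN` holds: `x ≠ yL`, both `≠ u`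
 (`¬ Near X u b`, `¬ Near X u bL`), intervals (`cell_itv`, `fib_itv`), `OA L₂` is disjoint from `OA A`:
 cells of one level, and the landing `p` of `bL` is not in `OA A` (`bL ∈ FO`) (`cell_disj`), `fib_disj`.
 `b ∈ QN .. x L₁`, `bL ∈ QN .. yL L₂` (with `y₁ = x`, `y₂ = yL`; `near_sub` from `X` to `{u, x, yL}`).
 `cp_between` (`rk b < rk bL`): change points `e ∈ Q₁`, `e' ∈ Q₂`, `rk b ≤ rk e < rk e' ≤ rk bL`.
 `λ := e'`.  `rk z < rk e'`: otherwise `rk b < rk e' ≤ rk z` gives `PAnc u.1 b e'` (interval),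
 `b ≠ e'`; `par e'` is planar, so `Near {u,x,yL} u (par e')` (definition of `QN`), so
 `Near {u,x,yL} u b`; but `Near {u,x,yL} x b`, `x ≠ u`: contradiction.
PROOF of `right_N` (mirror, simpler): `bR ∈ FO`, `rk c < rk bR`, none strictly between; `z` with
`rk c < rk z`: there is `λ ∈ DCP` with `rk c < rk λ`, `rk λ < rk z` or `λ = z`... precisely
`rk c < rk λ ≤ rk z`.  `b`, `x` as before, `rk b ≤ rk z`.  `rk b < rk c` is impossible: then
`rk b < rk c < rk z` gives `PAnc u.1 b c`, so `Near X u b` from `Near X u c`.  `b ≠ c`.  So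
`rk bR ≤ rk b`, `b ≠ bR`, `rk bR < rk b`; `cp_between` for `bR ∈ Q₂`, `b ∈ Q₁` (use `cp_comm`):
`rk bR ≤ rk e < rk e' ≤ rk b`; `λ := e`. -/

set_option autoImplicit false

open Classical

namespace Pool.Agent.BTV

open Pool.Agent.BTD Pool.Agent.H81.Balls

universe u

variable {V : Type u} [Fintype V] {g k s : ℕ}

/-- outer frontier of the true region of `u` over `A` -/
def FO (I : Inst g k s V) (X : Set (V × ℕ)) (u : V × ℕ) (A : Option (Set (Fin I.E.n))) : Set V :=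
  {b | b ∈ PP I.M I.E u.1 A ∧ ¬ Near I.M X u b ∧
    (Near I.M X u (I.M.par u.1 b) ∨ I.E.IsV (I.M.par u.1 b)) ∧
    ∀ x, Near I.M X x b → ∀ p, Land I.M I.E x.1 b p → p ∉ OA A}

/-- `S` contains the colour of `b` and the colours over the cell of its landing. -/
def Cov (I : Inst g k s V) (X S : Set (V × ℕ)) (b : V) : Prop :=
  ∃ y ∈ S, Near I.M X y b ∧ ∀ p, Land I.M I.E y.1 b p → Col I.M I.E X (I.E.cell (TwN I X 2) p) ⊆ S

omit [Fintype V] in
lemma NH_pp_top {G : SimpleGraph V} {M : LMet G} {E : NE V} {q v : V} {A : Option (Set (Fin E.n))}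
    (h : v ∈ PP M E q A) : M.D v q ≠ ⊤ := by
  cases A with
  | none => exact h.1
  | some α => exact h.2.1

omit [Fintype V] in
lemma NH_pp_plan {G : SimpleGraph V} {M : LMet G} {E : NE V} {q v : V} {A : Option (Set (Fin E.n))}
    (h : v ∈ PP M E q A) : ¬ E.IsV v := by
  cases A with
  | none => exact h.2 v ⟨0, rfl⟩
  | some α => exact h.1

omit [Fintype V] in
lemma NH_panc_anc {G : SimpleGraph V} {M : LMet G} {E : NE V} {q a v : V} (h : PAnc M E q a v) :
    M.Anc q a v := by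
  obtain ⟨k, hk, _⟩ := h
  exact ⟨k, hk⟩

omit [Fintype V] in
/-- vertices on the planar part of the leg are in the same planar part -/
lemma NH_pp_panc {G : SimpleGraph V} {M : LMet G} {E : NE V} {q a v : V}
    {A : Option (Set (Fin E.n))} (h : v ∈ PP M E q A) (ha : PAnc M E q a v) : a ∈ PP M E q A := by
  obtain ⟨k, hk, hpl⟩ := ha
  have haD : M.D a q ≠ ⊤ := LMet.Anc.ne_top ⟨k, hk⟩ (NH_pp_top h)
  cases A with
  | none =>
    refine ⟨haD, fun b hb => h.2 b ?_⟩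
    exact LMet.anc_trans hb ⟨k, hk⟩
  | some α =>
    obtain ⟨_, _, p, hp, m, hm, hmin⟩ := h
    have hkm : k < m := by
      by_contra hlt
      exact hpl m (not_lt.1 hlt) ⟨p, hm.symm⟩
    refine ⟨?_, haD, p, hp, m - k, ?_, fun j hj => ?_⟩
    · rw [← hk]
      exact hpl k le_rfl
    · rw [← hk, ← Function.iterate_add_apply, Nat.sub_add_cancel hkm.le]
      exact hm
    · rw [← hk, ← Function.iterate_add_apply]
      exact hmin _ (by omega)

omit [Fintype V] in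
/-- a vertex with a proper planar ancestor `b`: its parent is planar and has the ancestor `b` -/
lemma NH_panc_par {G : SimpleGraph V} {M : LMet G} {E : NE V} {q a v : V} (h : PAnc M E q a v)
    (hne : a ≠ v) : ¬ E.IsV (M.par q v) ∧ M.Anc q a (M.par q v) := by
  obtain ⟨k, hk, hpl⟩ := h
  cases k with
  | zero => exact absurd hk.symm hne
  | succ k =>
    refine ⟨?_, k, ?_⟩
    · have := hpl 1 (by omega)
      simpa using this
    · rw [← hk, Function.iterate_succ_apply]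

lemma top_FO (I : Inst g k s V) {X S : Set (V × ℕ)} {u : V × ℕ} {A : Option (Set (Fin I.E.n))}
    (hu : u ∈ X) (hS : S ⊆ X) (hcol : Col I.M I.E X (OA A) ⊆ S) {c : V} (hcX : Near I.M X u c) {z : V}
    (hz : z ∈ PP I.M I.E u.1 A) (hzS : Near I.M S u z) (hzX : ¬ Near I.M X u z) :
    ∃ b x, PAnc I.M I.E u.1 b z ∧ b ∈ FO I X u A ∧ Near I.M S u b ∧ Near I.M X x b ∧ x ∉ S := by
  have hex : ∃ m, Near I.M X u ((I.M.par u.1)^[m] z) ∨ I.E.IsV ((I.M.par u.1)^[m] z) := by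
    cases A with
    | none =>
      obtain ⟨m, hm⟩ := LMet.anc_root (M := I.M) hz.1
      refine ⟨m, Or.inl ?_⟩
      rw [hm]
      exact near_anc hcX (LMet.anc_root (LMet.wd_ne_top.1 hcX.2.1))
    | some α =>
      obtain ⟨_, _, p, _, m, hm, _⟩ := hz
      exact ⟨m, Or.inr ⟨p, hm.symm⟩⟩
  have hm := Nat.find_spec hex
  have hmin : ∀ j < Nat.find hex, ¬ (Near I.M X u ((I.M.par u.1)^[j] z) ∨
    I.E.IsV ((I.M.par u.1)^[j] z)) := fun j hj => Nat.find_min hex hj
  obtain ⟨k, hk⟩ : ∃ k, Nat.find hex = k + 1 := by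
    cases hc : Nat.find hex with
    | zero =>
      exfalso
      rw [hc] at hm
      rcases hm with hm | hm
      · exact hzX hm
      · exact NH_pp_plan hz hm
    | succ k => exact ⟨k, rfl⟩
  rw [hk, Function.iterate_succ_apply'] at hm
  rw [hk] at hmin
  set b := (I.M.par u.1)^[k] z with hb
  have hP : PAnc I.M I.E u.1 b z := ⟨k, rfl, fun j hj => fun h => hmin j (by omega) (Or.inr h)⟩
  have hbX : ¬ Near I.M X u b := fun h => hmin k (by omega) (Or.inl h)
  have hbS : Near I.M S u b := near_anc hzS ⟨k, rfl⟩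
  obtain ⟨x, hx⟩ := near_exists hu hbS.2.1
  have hxS : x ∉ S := by
    intro hxS
    have := near_lift hbS hS hx hxS
    subst this
    exact hbX hx
  refine ⟨b, x, hP, ⟨NH_pp_panc hz hP, hbX, hm, fun x' hx' p hp hpA => ?_⟩, hbS, hx, hxS⟩
  have hxx := near_unique hx' hx
  subst hxx
  exact hxS (hcol ⟨p, hpA, near_anc hx' (land_anc hp)⟩)

/-- the two landings give admissible parameters -/
lemma NH_core (I : Inst g k s V) {X S : Set (V × ℕ)} {u x y : V × ℕ}
    {A : Option (Set (Fin I.E.n))} (hA : A = none ∨ ∃ p, A = some (I.E.cell (TwN I X 2) p))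
    (hu : u ∈ X) {b b' : V} (hb : b ∈ FO I X u A) (hx : Near I.M X x b) (hxS : x ∉ S)
    (hb' : b' ∈ FO I X u A) (hyS : y ∈ S) (hy : Near I.M X y b')
    (hcov : ∀ p, Land I.M I.E y.1 b' p → Col I.M I.E X (I.E.cell (TwN I X 2) p) ⊆ S) :
    ∃ L₁ L₂ : Option (Set (Fin I.E.n)), OKN I u A x L₁ y L₂ ∧
      (L₂ = none ∨ ∃ p, L₂ = some (I.E.cell (TwN I X 2) p)) ∧
      (L₁ = none ∨ ∃ p, L₁ = some (fib I.E (OA A) (OA L₂) p)) ∧
      b ∈ QN I u x y A x L₁ ∧ b' ∈ QN I u x y A y L₂ := by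
  have hxu : x ≠ u := by
    rintro rfl
    exact hb.2.1 hx
  have hyu : y ≠ u := by
    rintro rfl
    exact hb'.2.1 hy
  have hxy : x ≠ y := by
    rintro rfl
    exact hxS hyS
  have hsub : ({u, x, y} : Set (V × ℕ)) ⊆ X := by
    rintro v (rfl | rfl | rfl)
    · exact hu
    · exact hx.1
    · exact hy.1
  have hOAnone : OA (none : Option (Set (Fin I.E.n))) = ∅ := by
    ext p
    simp [OA]
  have hOAsome : ∀ α : Set (Fin I.E.n), OA (some α) = α := by
    intro α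
    ext p
    simp [OA]
  have hempty : I.E.Itv (∅ : Set (Fin I.E.n)) :=
    ⟨fun p hp => absurd hp (by simp), fun p q r hp => absurd hp (by simp)⟩
  have hitvA : ∀ α, A = some α → I.E.Itv α := by
    intro α hα
    rcases hA with rfl | ⟨p, rfl⟩
    · simp at hα
    · rw [← Option.some.inj hα]
      exact cell_itv _ _
  have hitvOA : ∀ A' : Option (Set (Fin I.E.n)), (∀ α, A' = some α → I.E.Itv α) → I.E.Itv (OA A') := by
    intro A' h
    cases A' with
    | none =>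
      rw [hOAnone]
      exact hempty
    | some α =>
      rw [hOAsome]
      exact h α rfl
  -- the landing of `b'`
  have hL₂ : ∃ L₂ : Option (Set (Fin I.E.n)), (L₂ = none ∨ ∃ p, L₂ = some (I.E.cell (TwN I X 2) p)) ∧
      InL I.M I.E y.1 L₂ b' ∧ Col I.M I.E X (OA L₂) ⊆ S ∧ Disjoint (OA A) (OA L₂) := by
    have hD : I.M.D b' y.1 ≠ ⊤ := LMet.wd_ne_top.1 hy.2.1
    rcases free_or_land (M := I.M) (E := I.E) hD with hf | ⟨p, hp⟩
    · refine ⟨none, Or.inl rfl, hf, ?_, ?_⟩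
      · rw [hOAnone]
        rintro v ⟨q, hq, _⟩
        exact absurd hq (by simp)
      · rw [hOAnone]
        exact Set.disjoint_empty _
    · refine ⟨some (I.E.cell (TwN I X 2) p), Or.inr ⟨p, rfl⟩, ⟨hD, p, cell_self, hp⟩, ?_, ?_⟩
      · rw [hOAsome]
        exact hcov p hp
      · rw [hOAsome]
        have hpA : p ∉ OA A := hb'.2.2.2 y hy p hp
        rcases hA with rfl | ⟨p₀, rfl⟩
        · rw [hOAnone]
          exact Set.empty_disjoint _
        · rw [hOAsome] at hpA ⊢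
          exact cell_disj hpA
  obtain ⟨L₂, hL₂c, hL₂in, hL₂col, hL₂d⟩ := hL₂
  have hitv2 : ∀ α, L₂ = some α → I.E.Itv α := by
    intro α hα
    rcases hL₂c with rfl | ⟨p, rfl⟩
    · simp at hα
    · rw [← Option.some.inj hα]
      exact cell_itv _ _
  -- the landing of `b`
  have hL₁ : ∃ L₁ : Option (Set (Fin I.E.n)), (L₁ = none ∨ ∃ p, L₁ = some (fib I.E (OA A) (OA L₂) p)) ∧
      InL I.M I.E x.1 L₁ b := by
    have hD : I.M.D b x.1 ≠ ⊤ := LMet.wd_ne_top.1 hx.2.1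
    rcases free_or_land (M := I.M) (E := I.E) hD with hf | ⟨p, hp⟩
    · exact ⟨none, Or.inl rfl, hf⟩
    · refine ⟨some (fib I.E (OA A) (OA L₂) p), Or.inr ⟨p, rfl⟩, hD, p, fib_self ?_ ?_, hp⟩
      · exact hb.2.2.2 x hx p hp
      · intro hpL
        exact hxS (hL₂col ⟨p, hpL, near_anc hx (land_anc hp)⟩)
  obtain ⟨L₁, hL₁c, hL₁in⟩ := hL₁
  have hitv1 : ∀ α, L₁ = some α → I.E.Itv α := by
    intro α hα
    rcases hL₁c with rfl | ⟨p, rfl⟩
    · simp at hα
    · rw [← Option.some.inj hα]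
      exact fib_itv (hitvOA A hitvA) (hitvOA L₂ hitv2) _
  have hd1 : Disjoint (OA A) (OA L₁) := by
    rcases hL₁c with rfl | ⟨p, rfl⟩
    · rw [hOAnone]
      exact Set.disjoint_empty _
    · rw [hOAsome]
      exact fib_disj.1
  have hd12 : Disjoint (OA L₁) (OA L₂) := by
    rcases hL₁c with rfl | ⟨p, rfl⟩
    · rw [hOAnone]
      exact Set.empty_disjoint _
    · rw [hOAsome]
      exact fib_disj.2.symm
  have nx : Near I.M {u, x, y} x b := near_sub hx hsub (by simp)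
  have ny : Near I.M {u, x, y} y b' := near_sub hy hsub (by simp)
  refine ⟨L₁, L₂, ⟨hxu, hyu, hxy, hitvA, hitv1, hitv2, hd1, hL₂d, hd12⟩, hL₂c, hL₁c, ?_, ?_⟩
  · exact ⟨hb.1, fun h => hxu (near_unique nx h), hb.2.2.1.imp (fun h => near_sub h hsub (by simp)) id,
      nx, hL₁in⟩
  · exact ⟨hb'.1, fun h => hyu (near_unique ny h), hb'.2.2.1.imp (fun h => near_sub h hsub (by simp)) id,
      ny, hL₂in⟩

lemma NH_itv (I : Inst g k s V) {X : Set (V × ℕ)} {A : Option (Set (Fin I.E.n))}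
    (hA : A = none ∨ ∃ p, A = some (I.E.cell (TwN I X 2) p)) : ∀ α, A = some α → I.E.Itv α := by
  intro α hα
  rcases hA with rfl | ⟨p, rfl⟩
  · simp at hα
  · rw [← Option.some.inj hα]
    exact cell_itv _ _

lemma NH_qn_pp {I : Inst g k s V} {u y₁ y₂ y : V × ℕ} {A L : Option (Set (Fin I.E.n))} {v : V}
    (h : v ∈ QN I u y₁ y₂ A y L) : v ∈ PP I.M I.E u.1 A := h.1

lemma NH_qn_disj (I : Inst g k s V) {u x y : V × ℕ} {A L₁ L₂ : Option (Set (Fin I.E.n))}
    (hxy : x ≠ y) : Disjoint (QN I u x y A x L₁) (QN I u x y A y L₂) := by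
  rw [Set.disjoint_left]
  intro v h1 h2
  exact hxy (near_unique h1.2.2.2.1 h2.2.2.2.1)

lemma left_N (I : Inst g k s V) {X S : Set (V × ℕ)} {u : V × ℕ} {A : Option (Set (Fin I.E.n))}
    (hA : A = none ∨ ∃ p, A = some (I.E.cell (TwN I X 2) p)) (hu : u ∈ X) (hS : S ⊆ X)
    (hcol : Col I.M I.E X (OA A) ⊆ S) {c z bL : V} (hc : c ∈ PP I.M I.E u.1 A)
    (hcX : Near I.M X u c) (hbL : bL ∈ FO I X u A) (hlt : rkP I u.1 A bL < rkP I u.1 A c)
    (hmax : ∀ b ∈ FO I X u A, rkP I u.1 A b < rkP I u.1 A c → rkP I u.1 A b ≤ rkP I u.1 A bL)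
    (hcov : Cov I X S bL) (hz : z ∈ PP I.M I.E u.1 A) (hzS : Near I.M S u z)
    (hzX : ¬ Near I.M X u z) (hzc : rkP I u.1 A z < rkP I u.1 A c) :
    ∃ v ∈ DCP I X u A, rkP I u.1 A z < rkP I u.1 A v ∧ rkP I u.1 A v < rkP I u.1 A c := by
  have hord := rkP_spec I u.1 A (NH_itv I hA)
  obtain ⟨b, x, hbz, hb, hbS, hx, hxS⟩ := top_FO I hu hS hcol hcX hz hzS hzX
  obtain ⟨y, hyS, hy, hcy⟩ := hcov
  have hbz' := hord.anc_le b z hz hbz
  have hle := hmax b hb (lt_of_le_of_lt hbz' hzc)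
  have hne : b ≠ bL := by
    rintro rfl
    exact hxS (by rw [near_unique hx hy]; exact hyS)
  have hlt' : rkP I u.1 A b < rkP I u.1 A bL :=
    lt_of_le_of_ne hle fun h => hne (hord.inj b hb.1 bL hbL.1 h)
  obtain ⟨L₁, L₂, hok, hL₂, hL₁, hQ₁, hQ₂⟩ := NH_core I hA hu hb hx hxS hbL hyS hy hcy
  obtain ⟨e, he, e', he', heQ, heQ', h1, h2, h3⟩ := cp_between
    (rk := rkP I u.1 A) (NH_qn_disj I hok.h12 : Disjoint (QN I u x y A x L₁) (QN I u x y A y L₂))
    (fun v w hv hw h => hord.inj v (hv.elim NH_qn_pp NH_qn_pp) w (hw.elim NH_qn_pp NH_qn_pp) h)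
    hQ₁ hQ₂ hlt'
  refine ⟨e', ⟨x, hx.1, y, hy.1, L₁, L₂, hok, hL₂, hL₁, he'⟩, ?_, lt_of_le_of_lt h3 hlt⟩
  by_contra hcon
  have hle' := not_lt.1 hcon
  have hpe := hord.interval b e' z heQ'.1 hz hbz ((h1.trans h2.le)) hle'
  have hbe : b ≠ e' := by
    rintro rfl
    exact absurd (lt_of_le_of_lt h1 h2) (lt_irrefl _)
  obtain ⟨hpl, hanc⟩ := NH_panc_par hpe hbe
  have hn : Near I.M {u, x, y} u (I.M.par u.1 e') := heQ'.2.2.1.resolve_right hpl
  exact hQ₁.2.1 (near_anc hn hanc)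

lemma right_N (I : Inst g k s V) {X S : Set (V × ℕ)} {u : V × ℕ} {A : Option (Set (Fin I.E.n))}
    (hA : A = none ∨ ∃ p, A = some (I.E.cell (TwN I X 2) p)) (hu : u ∈ X) (hS : S ⊆ X)
    (hcol : Col I.M I.E X (OA A) ⊆ S) {c z bR : V} (hc : c ∈ PP I.M I.E u.1 A)
    (hcX : Near I.M X u c) (hbR : bR ∈ FO I X u A) (hlt : rkP I u.1 A c < rkP I u.1 A bR)
    (hmin : ∀ b ∈ FO I X u A, rkP I u.1 A c < rkP I u.1 A b → rkP I u.1 A bR ≤ rkP I u.1 A b)
    (hcov : Cov I X S bR) (hz : z ∈ PP I.M I.E u.1 A) (hzS : Near I.M S u z)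
    (hzX : ¬ Near I.M X u z) (hzc : rkP I u.1 A c < rkP I u.1 A z) :
    ∃ v ∈ DCP I X u A, rkP I u.1 A c < rkP I u.1 A v ∧ rkP I u.1 A v ≤ rkP I u.1 A z := by
  have hord := rkP_spec I u.1 A (NH_itv I hA)
  obtain ⟨b, x, hbz, hb, hbS, hx, hxS⟩ := top_FO I hu hS hcol hcX hz hzS hzX
  obtain ⟨y, hyS, hy, hcy⟩ := hcov
  have hbz' := hord.anc_le b z hz hbz
  have hcb : rkP I u.1 A c < rkP I u.1 A b := by
    rcases lt_trichotomy (rkP I u.1 A b) (rkP I u.1 A c) with h | h | h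
    · exfalso
      exact hb.2.1 (near_anc hcX (NH_panc_anc (hord.interval b c z hc hz hbz h.le hzc.le)))
    · exfalso
      have := hord.inj b hb.1 c hc h
      subst this
      exact hb.2.1 hcX
    · exact h
  have hle := hmin b hb hcb
  have hne : bR ≠ b := by
    rintro rfl
    exact hxS (by rw [near_unique hx hy]; exact hyS)
  have hlt' : rkP I u.1 A bR < rkP I u.1 A b :=
    lt_of_le_of_ne hle fun h => hne (hord.inj bR hbR.1 b hb.1 h)
  obtain ⟨L₁, L₂, hok, hL₂, hL₁, hQ₁, hQ₂⟩ := NH_core I hA hu hb hx hxS hbR hyS hy hcy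
  obtain ⟨e, he, e', he', heQ, heQ', h1, h2, h3⟩ := cp_between
    (rk := rkP I u.1 A) (NH_qn_disj I hok.h12 : Disjoint (QN I u x y A x L₁) (QN I u x y A y L₂)).symm
    (fun v w hv hw h => hord.inj v (hv.elim NH_qn_pp NH_qn_pp) w (hw.elim NH_qn_pp NH_qn_pp) h)
    hQ₂ hQ₁ hlt'
  rw [cp_comm] at he
  exact ⟨e, ⟨x, hx.1, y, hy.1, L₁, L₂, hok, hL₂, hL₁, he⟩, lt_of_lt_of_le hlt h1,
    (h2.le.trans h3).trans hbz'⟩

end Pool.Agent.BTV
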