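import Pool.Agent.BTV.JLa
import Pool.Agent.BTV.CDd
import Pool.Agent.BTV.CDe

/-! BTV PA: alternation of two sites along an interval of positions.

`QA`: positions of `α` strictly closer to `x₁` whose leg to `x₁` is a regular piece landing in `E₁`.
`QB`: positions of `α` closer to `x₂` whose leg to `x₂` is a regular piece landing in `E₂`.
PROOF of `alt_bound`: `cp_bound_cls` with `rk = Fin.val`, `κ q := I.cl x₂.1 x₁.1 (w q)`.  Disjoint: `<` and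
`≤` exclude each other.  Let `a, a' ∈ QA` with equal class, `q ∈ QB`, `a < q < a'`; landings `e, e' ∈ E₁`,
`e₂ ∈ E₂`.  `Cmp`: starts in `α` (one disc), ends by `OKA.same`.  `cl_spec`: `Ins`.  The sets
`V₁ = {v | wd x₁ v < wd x₂ v}` (closed under `par x₁.1`) and `V₂ = {v | wd x₂ v ≠ ⊤ ∧ wd x₂ v ≤ wd x₁ v}`
(closed under `par x₂.1`; `cl_cmp`) are disjoint; both pieces `UU x₁ (w a) e`, `UU x₁ (w a') e'` are in
`V₁` (`uu_sub`), the piece of `q` and `x₂.1` are in `V₂` (`LMet.Cl.root`), so `¬ Ins x₂.1`.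
`Ins (w q)`: `Bt a a' q`; and `¬ OBt e e' q` by `OKA.same` since `q ∈ α`.  If `e₂ = none`:
`sep_piece_none` gives `Ins x₂.1`, contradiction.  If `e₂ = some b`: `sep_piece` gives `Ins (w b)`, but
`b ∉ α` (`OKA.out`) so not `Bt a a' b` (`itv_bt`), and not `OBt e e' b` by `OKA.same` (`some b ∈ E₂`):
contradiction to `hV`. -/

set_option autoImplicit false

open Classical

namespace Pool.Agent.BTV

open Pool.Agent.BTD Pool.Agent.H81.Balls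

universe u

variable {V : Type u} [Fintype V] {g k s : ℕ}

def QA (I : Inst g k s V) (x₁ x₂ : V × ℕ) (α : Set (Fin I.E.n)) (E₁ : Set (Option (Fin I.E.n))) :
    Set (Fin I.E.n) :=
  {q | q ∈ α ∧ I.M.wd x₁ (I.E.w q) < I.M.wd x₂ (I.E.w q) ∧ ∃ e ∈ E₁, Reg I.M I.E x₁.1 (I.E.w q) e}

def QB (I : Inst g k s V) (x₁ x₂ : V × ℕ) (α : Set (Fin I.E.n)) (E₂ : Set (Option (Fin I.E.n))) :
    Set (Fin I.E.n) :=
  {q | q ∈ α ∧ I.M.wd x₂ (I.E.w q) ≤ I.M.wd x₁ (I.E.w q) ∧ ∃ e ∈ E₂, Reg I.M I.E x₂.1 (I.E.w q) e}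

structure OKA {V : Type u} (E : NE V) (α : Set (Fin E.n)) (E₁ E₂ : Set (Option (Fin E.n))) : Prop where
  itv : E.Itv α
  same : ∀ e ∈ E₁, ∀ e' ∈ E₁, (e = none ∧ e' = none) ∨ ∃ b b', e = some b ∧ e' = some b' ∧
    E.disc b = E.disc b' ∧ ∀ c, E.Bt b b' c → c ∉ α ∧ some c ∉ E₂
  out : ∀ b, some b ∈ E₂ → b ∉ α

/-- change points -/
def CA (I : Inst g k s V) (x₁ x₂ : V × ℕ) (α : Set (Fin I.E.n)) (E₁ E₂ : Set (Option (Fin I.E.n))) :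
    Set (Fin I.E.n) :=
  CP (fun q : Fin I.E.n => q.val) (QA I x₁ x₂ α E₁) (QB I x₁ x₂ α E₂)

lemma PA_po {V : Type u} {E : NE V} (p : Fin E.n) : E.po (E.w p) = some p := by
  have h : ∃ p', E.w p' = E.w p := ⟨p, rfl⟩
  unfold NE.po
  rw [dif_pos h]
  exact congrArg some (E.w_inj _ _ h.choose_spec)

lemma PA_disj {I : Inst g k s V} {x₁ x₂ : V × ℕ} {α : Set (Fin I.E.n)}
    {E₁ E₂ : Set (Option (Fin I.E.n))} : Disjoint (QA I x₁ x₂ α E₁) (QB I x₁ x₂ α E₂) := by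
  rw [Set.disjoint_left]
  rintro q ⟨-, h1, -⟩ ⟨-, h2, -⟩
  exact absurd h1 (not_lt.mpr h2)

theorem alt_bound (I : Inst g k s V) (x₁ x₂ : V × ℕ) {α : Set (Fin I.E.n)}
    {E₁ E₂ : Set (Option (Fin I.E.n))} (h : OKA I.E α E₁ E₂) :
    (CA I x₁ x₂ α E₁ E₂).ncard ≤ 4 * NC.{u} g k s := by
  refine cp_bound_cls PA_disj (fun a b _ _ h => Fin.ext h)
    (fun q => I.cl x₂.1 x₁.1 (I.E.w q)) ?_
  rintro a ⟨haα, haw, e, he, hRe⟩ a' ⟨ha'α, ha'w, e', he', hRe'⟩ hcl q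
    ⟨hqα, hqw, e₂, he₂, hRq⟩ ⟨h1, h2⟩
  have h1' : a < q := h1
  have h2' : q < a' := h2
  have hcmp : Cmp I.E x₁.1 (I.E.w a) e x₁.1 (I.E.w a') e' := by
    refine ⟨Or.inr ⟨a, a', rfl, rfl, h.itv.1 a haα a' ha'α⟩, ?_⟩
    rcases h.same e he e' he' with ⟨h3, h4⟩ | ⟨b, b', h3, h4, h5, -⟩
    · exact Or.inl ⟨h3, h4, rfl⟩
    · exact Or.inr ⟨b, b', h3, h4, h5⟩
  obtain ⟨Ins, hS, hO⟩ := cl_spec I x₂.1 hRe hRe' hcmp hcl
  have hC1 := cl_cmp (M := I.M) x₁ ∅ {x₂}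
  have hC2 := cl_cmp (M := I.M) x₂ {x₁} ∅
  have hm1 : ∀ c, I.M.D (I.E.w c) x₁.1 ≠ ⊤ → I.M.wd x₁ (I.E.w c) < I.M.wd x₂ (I.E.w c) →
      I.E.w c ∈ {v | I.M.wd x₁ v ≠ ⊤ ∧ (∀ y ∈ (∅ : Set (V × ℕ)), I.M.wd x₁ v ≤ I.M.wd y v) ∧
        ∀ y ∈ ({x₂} : Set (V × ℕ)), I.M.wd x₁ v < I.M.wd y v} := by
    intro c hc hlt
    refine ⟨LMet.wd_ne_top.mpr hc, ?_, ?_⟩
    · intro y hy
      exact absurd hy (Set.notMem_empty y)
    · intro y hy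
      rw [Set.mem_singleton_iff.mp hy]
      exact hlt
  have hm2 : I.E.w q ∈ {v | I.M.wd x₂ v ≠ ⊤ ∧
      (∀ y ∈ ({x₁} : Set (V × ℕ)), I.M.wd x₂ v ≤ I.M.wd y v) ∧
        ∀ y ∈ (∅ : Set (V × ℕ)), I.M.wd x₂ v < I.M.wd y v} := by
    refine ⟨LMet.wd_ne_top.mpr (reg_ne_top hRq), ?_, ?_⟩
    · intro y hy
      rw [Set.mem_singleton_iff.mp hy]
      exact hqw
    · intro y hy
      exact absurd hy (Set.notMem_empty y)
  have hdj : ∀ v, v ∈ {v | I.M.wd x₂ v ≠ ⊤ ∧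
      (∀ y ∈ ({x₁} : Set (V × ℕ)), I.M.wd x₂ v ≤ I.M.wd y v) ∧
        ∀ y ∈ (∅ : Set (V × ℕ)), I.M.wd x₂ v < I.M.wd y v} → v ∉ {v | I.M.wd x₁ v ≠ ⊤ ∧
      (∀ y ∈ (∅ : Set (V × ℕ)), I.M.wd x₁ v ≤ I.M.wd y v) ∧
        ∀ y ∈ ({x₂} : Set (V × ℕ)), I.M.wd x₁ v < I.M.wd y v} := by
    rintro v ⟨-, h3, -⟩ ⟨-, -, h4⟩
    exact absurd (h4 x₂ rfl) (not_lt.mpr (h3 x₁ rfl))
  have hu1 := uu_sub (e := e) hC1 (hm1 a (reg_ne_top hRe) haw)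
  have hu2 := uu_sub (e := e') hC1 (hm1 a' (reg_ne_top hRe') ha'w)
  have hu3 := uu_sub (e := e₂) hC2 hm2
  have off1 : ∀ v, v ∈ {v | I.M.wd x₂ v ≠ ⊤ ∧
      (∀ y ∈ ({x₁} : Set (V × ℕ)), I.M.wd x₂ v ≤ I.M.wd y v) ∧
        ∀ y ∈ (∅ : Set (V × ℕ)), I.M.wd x₂ v < I.M.wd y v} →
      v ∉ UU I.M I.E x₁.1 (I.E.w a) e := fun v hv h => hdj v hv (hu1 h)
  have off2 : ∀ v, v ∈ {v | I.M.wd x₂ v ≠ ⊤ ∧
      (∀ y ∈ ({x₁} : Set (V × ℕ)), I.M.wd x₂ v ≤ I.M.wd y v) ∧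
        ∀ y ∈ (∅ : Set (V × ℕ)), I.M.wd x₂ v < I.M.wd y v} →
      v ∉ UU I.M I.E x₁.1 (I.E.w a') e' := fun v hv h => hdj v hv (hu2 h)
  have hOx : ¬ Ins x₂.1 := hO (off1 _ (hC2.root hm2)) (off2 _ (hC2.root hm2))
  have hIq : Ins (I.E.w q) := by
    refine (hS.hV q (off1 _ hm2) (off2 _ hm2)).mpr (Or.inl ⟨?_, ?_⟩)
    · rw [PA_po, PA_po]
      exact ⟨a, a', rfl, rfl, Or.inl ⟨h1', h2'⟩⟩
    · rintro ⟨b, b', rfl, rfl, hb⟩
      rcases h.same _ he _ he' with ⟨h3, -⟩ | ⟨b2, b2', h3, h4, -, h6⟩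
      · cases h3
      · cases h3
        cases h4
        exact (h6 q hb).1 hqα
  cases e₂ with
  | none =>
    exact hOx ((sep_piece_none I.fits hS hRq (fun t ht =>
      ⟨off1 t (hu3 ht), off2 t (hu3 ht)⟩)).mp hIq)
  | some b =>
    have hIb := (sep_piece I.fits hS hRq (fun t ht =>
      ⟨off1 t (hu3 ht), off2 t (hu3 ht)⟩)).mp hIq
    have hbU := hu3 (uu_end hRq)
    rcases (hS.hV b (off1 _ hbU) (off2 _ hbU)).mp hIb with ⟨h3, -⟩ | ⟨h3, -⟩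
    · rw [PA_po, PA_po] at h3
      obtain ⟨c, c', h4, h5, h6⟩ := h3
      cases h4
      cases h5
      exact h.out b he₂ (itv_bt h.itv haα ha'α h6)
    · obtain ⟨c, c', rfl, rfl, h6⟩ := h3
      rcases h.same _ he _ he' with ⟨h4, -⟩ | ⟨b2, b2', h4, h5, -, h7⟩
      · cases h4
      · cases h4
        cases h5
        exact (h7 b h6).2 he₂

/-- between a member of `QA` and a member of `QB` there is a change point -/
lemma alt_between (I : Inst g k s V) {x₁ x₂ : V × ℕ} {α : Set (Fin I.E.n)}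
    {E₁ E₂ : Set (Option (Fin I.E.n))} {a b : Fin I.E.n} (ha : a ∈ QA I x₁ x₂ α E₁)
    (hb : b ∈ QB I x₁ x₂ α E₂) : ∃ q ∈ CA I x₁ x₂ α E₁ E₂, I.E.Hull a b q := by
  rcases lt_trichotomy a b with hab | hab | hab
  · obtain ⟨e, he, e', he', -, -, h1, h2, h3⟩ := cp_between (rk := fun q : Fin I.E.n => q.val)
      PA_disj (fun a b _ _ h => Fin.ext h) ha hb hab
    exact ⟨e, he, Or.inl ⟨h1, le_trans h2.le h3⟩⟩
  · rw [← hab] at hb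
    exact absurd hb (Set.disjoint_left.mp PA_disj ha)
  · obtain ⟨e, he, e', he', -, -, h1, h2, h3⟩ := cp_between (rk := fun q : Fin I.E.n => q.val)
      PA_disj.symm (fun a b _ _ h => Fin.ext h) hb ha hab
    refine ⟨e, ?_, Or.inr ⟨h1, le_trans h2.le h3⟩⟩
    unfold CA
    rw [cp_comm]
    exact he

end Pool.Agent.BTV
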