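import Pool.Agent.BTV.PA
import Pool.Agent.BTV.CDc

/-! BTV PB: the tower for D+.

Outputs: (0) site vertices; (1) change points of two sites with last pieces, on a whole vortex;
(2) change points for pieces from `α` to `β` versus pieces leaving `α ∪ β`; (3) for last pieces from `α`
versus pieces leaving `α`; (4) outputs of the jump lemma with `Red = {x_m ≤ x_j}`,
`Bl = {x_j < x_m, x_j ≤ x_i}`.
`opP_dcd`: five applications of `Dcd.or`; each part: bounded many sites (`Dcd.site`, `Dcd.pair`),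
`Dcd.bind` with `Dcd.ncard` (`alt_bound`, `jout_ncard`); for (1) also `i < s` (`Dcd.fin`), `OKA` of the
three situations: (1) trivial, `{q | disc q = i}` is an interval (`disc_mono`); (2) `c` strictly between
`b, b' ∈ β` is in `β`; (3) trivial.  If `α`, `β` are not disjoint intervals part (2) is empty, etc. -/

set_option autoImplicit false

open Classical

namespace Pool.Agent.BTV

open Pool.Agent.BTD Pool.Agent.H81.Balls

universe u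

variable {V : Type u} [Fintype V] {g k s : ℕ}

def RedP (I : Inst g k s V) (xm xj : V × ℕ) : Set V := {v | I.M.wd xm v ≠ ⊤ ∧ I.M.wd xm v ≤ I.M.wd xj v}

def BlP (I : Inst g k s V) (xi xj xm : V × ℕ) : Set V :=
  {v | I.M.wd xj v < I.M.wd xm v ∧ I.M.wd xj v ≤ I.M.wd xi v}

/-- outputs for D+ -/
def OpP (I : Inst g k s V) (X : Set (V × ℕ)) (α β : Set (Fin I.E.n)) : Set (Fin I.E.n) :=
  {q | (∃ x ∈ X, I.E.w q = x.1) ∨
    (∃ x₁ ∈ X, ∃ x₂ ∈ X, ∃ i, q ∈ CA I x₁ x₂ {p | I.E.disc p = i} {none} {none}) ∨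
    (∃ x₁ ∈ X, ∃ x₂ ∈ X, I.E.Itv α ∧ I.E.Itv β ∧ Disjoint α β ∧
      q ∈ CA I x₁ x₂ α {e | ∃ b ∈ β, e = some b} {e | ∀ b, e = some b → b ∉ α ∧ b ∉ β}) ∨
    (∃ x₁ ∈ X, ∃ x₂ ∈ X, I.E.Itv α ∧ q ∈ CA I x₁ x₂ α {none} {e | ∀ b, e = some b → b ∉ α}) ∨
    (∃ xi ∈ X, ∃ xj ∈ X, ∃ xm ∈ X, q ∈ JOut I xm xj (RedP I xm xj) (BlP I xi xj xm) α)}

/-- the tower for D+ -/
abbrev TwP (I : Inst g k s V) (X : Set (V × ℕ)) (t : ℕ) : Set (Fin I.E.n) := Tow I.E (OpP I) X t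

/-- a condition which does not depend on the sites -/
private lemma pb_if {P Z : Type*} {N : ℕ} {R : Set P → Z → Prop} {p : Prop} (h : p → Dcd N R) :
    Dcd N (fun X z => p ∧ R X z) := by
  by_cases hp : p
  · exact (h hp).mono le_rfl (fun X z hz => hz.2)
  · exact ⟨fun _ _ => none, fun X z hz => absurd hz.1 hp⟩

omit [Fintype V] in
private lemma pb_oka1 (I : Inst g k s V) (i : ℕ) : OKA I.E {p | I.E.disc p = i} {none} {none} where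
  itv := by
    refine ⟨fun p hp r hr => ?_, fun p q r hp hr h1 h2 => ?_⟩
    · exact Eq.trans hp (Eq.symm hr)
    · have e1 := I.E.disc_mono _ _ h1
      have e2 := I.E.disc_mono _ _ h2
      have e3 : I.E.disc p = i := hp
      have e4 : I.E.disc r = i := hr
      show I.E.disc q = i
      omega
  same := fun _ he _ he' => Or.inl ⟨he, he'⟩
  out := fun b hb => by simp at hb

omit [Fintype V] in
private lemma pb_oka2 (I : Inst g k s V) {α β : Set (Fin I.E.n)} (hα : I.E.Itv α) (hβ : I.E.Itv β)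
    (hd : Disjoint α β) :
    OKA I.E α {e | ∃ b ∈ β, e = some b} {e | ∀ b, e = some b → b ∉ α ∧ b ∉ β} where
  itv := hα
  same := by
    rintro e ⟨b, hb, rfl⟩ e' ⟨b', hb', rfl⟩
    refine Or.inr ⟨b, b', rfl, rfl, hβ.1 b hb b' hb', fun c hc => ?_⟩
    have hcβ := itv_bt hβ hb hb' hc
    exact ⟨fun h => Set.disjoint_left.1 hd h hcβ, fun h => (h c rfl).2 hcβ⟩
  out := fun b hb => (hb b rfl).1

omit [Fintype V] in
private lemma pb_oka3 (I : Inst g k s V) {α : Set (Fin I.E.n)} (hα : I.E.Itv α) :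
    OKA I.E α {none} {e | ∀ b, e = some b → b ∉ α} where
  itv := hα
  same := fun _ he _ he' => Or.inl ⟨he, he'⟩
  out := fun b hb => hb b rfl

theorem opP_dcd (g k s : ℕ) : ∃ N : ℕ, ∀ (V : Type u) [Fintype V] (I : Inst g k s V)
    (α β : Set (Fin I.E.n)), Dcd N (fun X q => q ∈ OpP I X α β) := by
  refine ⟨bd 1 1 + (bd (bd (bd 1 1) s) (4 * NC.{u} g k s) + (bd (bd 1 1) (4 * NC.{u} g k s) +
    (bd (bd 1 1) (4 * NC.{u} g k s) +
      bd (bd (bd 1 1) 1) ((2 * s + 1) * NC.{u} g k s * (2 + 8 * k))))), fun V _ I α β => ?_⟩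
  have h0 : Dcd (bd 1 1) (fun (X : Set (V × ℕ)) (q : Fin I.E.n) => ∃ x ∈ X, I.E.w q = x.1) := by
    refine Dcd.bind Dcd.site (R' := fun (x : V × ℕ) _ (q : Fin I.E.n) => q ∈ {q | I.E.w q = x.1})
      (fun x => Dcd.ncard (Set.toFinite _) ?_)
    rw [Set.ncard_le_one (Set.toFinite _)]
    intro a ha b hb
    exact I.E.w_inj a b (Eq.trans ha (Eq.symm hb))
  have h1 : Dcd (bd (bd (bd 1 1) s) (4 * NC.{u} g k s)) (fun (X : Set (V × ℕ)) (q : Fin I.E.n) =>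
      ∃ x₁ ∈ X, ∃ x₂ ∈ X, ∃ i, q ∈ CA I x₁ x₂ {p | I.E.disc p = i} {none} {none}) := by
    refine (Dcd.bind (Dcd.pair (Dcd.pair Dcd.site Dcd.site) (Dcd.fin (fun i : Fin s => (i : ℕ))))
      (R' := fun (z : ((V × ℕ) × (V × ℕ)) × ℕ) _ (q : Fin I.E.n) =>
        q ∈ CA I z.1.1 z.1.2 {p | I.E.disc p = z.2} {none} {none})
      (fun z => Dcd.ncard (Set.toFinite _) (alt_bound I _ _ (pb_oka1 I _)))).mono le_rfl ?_
    rintro X q ⟨x₁, hx₁, x₂, hx₂, i, hq⟩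
    have hi : I.E.disc q = i := by
      rcases cp_mem hq with h | h
      · exact h.1
      · exact h.1
    have his : i < s := by
      rw [← hi]
      exact I.disc_lt q
    exact ⟨((x₁, x₂), i), ⟨⟨hx₁, hx₂⟩, ⟨⟨i, his⟩, rfl⟩⟩, hq⟩
  have h2 : Dcd (bd (bd 1 1) (4 * NC.{u} g k s)) (fun (X : Set (V × ℕ)) (q : Fin I.E.n) =>
      ∃ x₁ ∈ X, ∃ x₂ ∈ X, I.E.Itv α ∧ I.E.Itv β ∧ Disjoint α β ∧
      q ∈ CA I x₁ x₂ α {e | ∃ b ∈ β, e = some b} {e | ∀ b, e = some b → b ∉ α ∧ b ∉ β}) := by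
    refine (pb_if (p := I.E.Itv α ∧ I.E.Itv β ∧ Disjoint α β) (fun hp =>
      Dcd.bind (Dcd.pair Dcd.site Dcd.site)
      (R' := fun (z : (V × ℕ) × (V × ℕ)) _ (q : Fin I.E.n) => q ∈ CA I z.1 z.2 α
        {e | ∃ b ∈ β, e = some b} {e | ∀ b, e = some b → b ∉ α ∧ b ∉ β})
      (fun z => Dcd.ncard (Set.toFinite _)
        (alt_bound I _ _ (pb_oka2 I hp.1 hp.2.1 hp.2.2))))).mono le_rfl ?_
    rintro X q ⟨x₁, hx₁, x₂, hx₂, hα, hβ, hd, hq⟩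
    exact ⟨⟨hα, hβ, hd⟩, (x₁, x₂), ⟨hx₁, hx₂⟩, hq⟩
  have h3 : Dcd (bd (bd 1 1) (4 * NC.{u} g k s)) (fun (X : Set (V × ℕ)) (q : Fin I.E.n) =>
      ∃ x₁ ∈ X, ∃ x₂ ∈ X, I.E.Itv α ∧
        q ∈ CA I x₁ x₂ α {none} {e | ∀ b, e = some b → b ∉ α}) := by
    refine (pb_if (p := I.E.Itv α) (fun hp =>
      Dcd.bind (Dcd.pair Dcd.site Dcd.site)
      (R' := fun (z : (V × ℕ) × (V × ℕ)) _ (q : Fin I.E.n) => q ∈ CA I z.1 z.2 α
        {none} {e | ∀ b, e = some b → b ∉ α})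
      (fun z => Dcd.ncard (Set.toFinite _) (alt_bound I _ _ (pb_oka3 I hp))))).mono le_rfl ?_
    rintro X q ⟨x₁, hx₁, x₂, hx₂, hα, hq⟩
    exact ⟨hα, (x₁, x₂), ⟨hx₁, hx₂⟩, hq⟩
  have h4 : Dcd (bd (bd (bd 1 1) 1) ((2 * s + 1) * NC.{u} g k s * (2 + 8 * k)))
      (fun (X : Set (V × ℕ)) (q : Fin I.E.n) => ∃ xi ∈ X, ∃ xj ∈ X, ∃ xm ∈ X,
        q ∈ JOut I xm xj (RedP I xm xj) (BlP I xi xj xm) α) := by
    refine (Dcd.bind (Dcd.pair (Dcd.pair Dcd.site Dcd.site) Dcd.site)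
      (R' := fun (z : ((V × ℕ) × (V × ℕ)) × (V × ℕ)) _ (q : Fin I.E.n) =>
        q ∈ JOut I z.2 z.1.2 (RedP I z.2 z.1.2) (BlP I z.1.1 z.1.2 z.2) α)
      (fun z => Dcd.ncard (Set.toFinite _) (jout_ncard I _ _ _ _ _))).mono le_rfl ?_
    rintro X q ⟨xi, hxi, xj, hxj, xm, hxm, hq⟩
    exact ⟨((xi, xj), xm), ⟨⟨hxi, hxj⟩, hxm⟩, hq⟩
  exact (h0.or (h1.or (h2.or (h3.or h4)))).mono le_rfl (fun X q hq => hq)

theorem twP_dcd (g k s t : ℕ) : ∃ N : ℕ, ∀ (V : Type u) [Fintype V] (I : Inst g k s V),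
    Dcd N (fun X q => q ∈ TwP I X t) ∧ Dcd N (fun X α => ∃ p, α = I.E.cell (TwP I X t) p) := by
  obtain ⟨N, hN⟩ := opP_dcd.{u} g k s
  obtain ⟨N', hN'⟩ := tow_dcd.{u} N s t
  exact ⟨N', fun V _ I => hN' V (V × ℕ) I.E I.disc_lt (OpP I) (fun α β => hN V I α β)⟩

lemma twP_site (I : Inst g k s V) {X : Set (V × ℕ)} {x : V × ℕ} (hx : x ∈ X) {q : Fin I.E.n}
    (h : I.E.w q = x.1) (t : ℕ) : q ∈ TwP I X (t + 1) :=
  tow_op I.E (OpP I) X q q q (Or.inl ⟨x, hx, h⟩)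

/-- a decodable vortex vertex on all legs -/
theorem hd_viaP (g k s t : ℕ) : ∃ N : ℕ, ∀ (V : Type u) [Fintype V] (I : Inst g k s V),
    Hd I.M.inc N (fun X Y e => ∃ p ∈ TwP I X t, ∀ x ∈ Y, I.M.Anc x.1 (I.E.w p) e.1) := by
  obtain ⟨N, hN⟩ := twP_dcd.{u} g k s t
  refine ⟨bd N 1 + 1, fun V _ I => ?_⟩
  refine (hd_via (M := I.M) ((hN V I).1.map I.E.w)).weaken le_rfl ?_
  rintro X Y e hYX hinc ⟨p, hp, h⟩
  refine ⟨I.E.w p, ⟨p, hp, rfl⟩, fun x hx => wd_anc ?_ (h x hx)⟩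
  exact LMet.wd_ne_top.1 (ne_top_of_le_ne_top (ENat.natCast_ne_top _) (LMet.inc_iff.1 (hinc x hx)))

/-- legs through gates of cells: labels by the gate vertex -/
theorem hd_gateP (g k s t : ℕ) : ∃ N : ℕ, ∀ (V : Type u) [Fintype V] (I : Inst g k s V),
    Hd I.M.inc N (fun X Y e => ∃ p, ∀ x ∈ Y, ∃ z ∈ I.E.Gt (I.E.cell (TwP I X t) p), I.M.Anc x.1 z e.1) := by
  obtain ⟨N, hN⟩ := twP_dcd.{u} g k s t
  obtain ⟨N', hN'⟩ := gate_dcd.{u} N k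
  refine ⟨ld (bd N' 1 + 1) (2 * k), fun V _ I => ?_⟩
  have hg := hN' V (V × ℕ) I.E I.bag _ (hN V I).2 (by
    rintro X _ ⟨p, rfl⟩
    exact cell_itv _ _)
  refine ((hd_via (M := I.M) hg).labelSet (T := V) (2 * k)).weaken le_rfl ?_
  rintro X Y e hYX hinc ⟨p, h⟩
  have hsub : {t' | ∃ x ∈ Y, (fun x : V × ℕ => if hz : ∃ z ∈ I.E.Gt (I.E.cell (TwP I X t) p),
      I.M.Anc x.1 z e.1 then hz.choose else e.1) x = t'} ⊆ I.E.Gt (I.E.cell (TwP I X t) p) := by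
    rintro t' ⟨x, hx, rfl⟩
    simp only [dif_pos (h x hx)]
    exact (h x hx).choose_spec.1
  refine ⟨fun x => if hz : ∃ z ∈ I.E.Gt (I.E.cell (TwP I X t) p), I.M.Anc x.1 z e.1 then hz.choose
    else e.1, Set.toFinite _, (Set.ncard_le_ncard hsub (Set.toFinite _)).trans
      (gt_ncard (cell_itv _ _) I.bag), ?_⟩
  intro t' ht'
  refine ⟨t', ⟨_, ⟨p, rfl⟩, hsub ht'⟩, ?_⟩
  rintro x ⟨hx, hLx⟩
  simp only [dif_pos (h x hx)] at hLx
  have ha := (h x hx).choose_spec.2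
  rw [hLx] at ha
  refine wd_anc ?_ ha
  exact LMet.wd_ne_top.1 (ne_top_of_le_ne_top (ENat.natCast_ne_top _) (LMet.inc_iff.1 (hinc x hx)))

end Pool.Agent.BTV
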