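import Pool.Agent.BTV.PB

/-! BTV PC: sites whose last landing is in one cell (`hd_T1`), and whose exit piece is not of the type
of the farthest site (`hd_Ts`).

PROOF of `hd_T1`.  Let `α := cell (TwP (t+1)) p`.  If `p ∈ TwP (t+1)`: `α = {p}`, all legs pass `w p`:
`hd_viaP`.  Otherwise (`Hd.or`): `Y = ∅` trivial; `x₁ ∈ Y` farthest at `e.1` (`exists_far`).  Region
`{e' | wd x₁ e'.1 ≤ e'.2 ∧ ∃ p' ∈ α, Anc x₁.1 (w p') e'.1 ∧ Reg x₁.1 (w p') none}`, decodable from `x₁`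
and the cell.  Let `e'` be a member, `x₂ ∈ Y`, suppose `wd x₂ e'.1 > wd x₁ e'.1` (otherwise fine).
`q₁ := p'` (for `e'`): `lt_anc`: `wd x₁ (w q₁) < wd x₂ (w q₁)`; `q₂ :=` the last landing of `x₂` from
`e.1`: `wd x₂ (w q₂) ≤ wd x₁ (w q₂)` (`le_anc`).  With `D := {p | disc p = disc q₁}`: `q₁ ∈ QA I x₁ x₂ D
{none}`, `q₂ ∈ QB I x₁ x₂ D {none}` (both in `α`, one disc).  `alt_between`: an output `q` with
`Hull q₁ q₂ q`, so `q ∈ α` (`itv_hull`, `cell_itv`) and `q ∈ TwP (t+1)` (`tow_op` at level `0`,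
`tow_mono`); contradiction to `cell_not_mem`.

PROOF of `hd_Ts`.  `α := cell (TwP t) p`, `α' := cell (TwP (t+1)) p`.  If `p ∈ TwP (t+1)`: `α' = {p}`, all
legs pass `w p`: `hd_viaP`.  Otherwise region
`{e' | wd x₁ e'.1 ≤ e'.2 ∧ ∃ a' ∈ α', ∃ e₁', Anc x₁.1 (w a') e'.1 ∧ Reg x₁.1 (w a') e₁' ∧ e₁' ∈ E₁}` with
`E₁ = {none}` if `e₁ = none` and `E₁ = {some b | b ∈ β}`, `β := cell (TwP t) b₁` if `e₁ = some b₁`
(`b₁ ∉ α`, so `α`, `β` are disjoint: `cell_disj`); decodable from `x₁`, the cells `α'`, `β` and a tag.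
`e ∈` region by hypothesis.  `e'` a member, `x ∈ Y`, suppose `wd x e'.1 > wd x₁ e'.1`.
`a' ∈ QA I x₁ x α E₁` (`lt_anc`), `a ∈ QB I x₁ x α E₂` (`le_anc`; `a`, `e_x` from the hypothesis for `x`),
`E₂ = {e | ∀ b, e = some b → b ∉ α}` resp. `{e | ∀ b, e = some b → b ∉ α ∧ b ∉ β}`.  `alt_between`: an
output `q` of the level `t + 1` (`tow_op` with the cells of `p` and `b₁` of level `t`) with
`Hull a' a q`, `a, a' ∈ α'`: `q ∈ α'`, contradiction to `cell_not_mem`. -/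

set_option autoImplicit false

open Classical

namespace Pool.Agent.BTV

open Pool.Agent.BTD Pool.Agent.H81.Balls

universe u

private lemma PC_ne_top {V : Type u} {G : SimpleGraph V} {M : LMet G} {x : V × ℕ} {v : V} {n : ℕ}
    (h : M.wd x v ≤ n) : M.D v x.1 ≠ ⊤ := by
  intro h0
  unfold LMet.wd at h
  rw [h0, top_add] at h
  exact absurd (top_le_iff.mp h) (ENat.natCast_ne_top _)

/-- the region for one cell -/
private def PCReg {V : Type u} [Fintype V] {g k s : ℕ} (I : Inst g k s V)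
    (x₁ : V × ℕ) (α : Set (Fin I.E.n)) (E₁ : Set (Option (Fin I.E.n))) : Set (V × ℕ) :=
  {e' | I.M.wd x₁ e'.1 ≤ e'.2 ∧ ∃ a ∈ α, I.M.Anc x₁.1 (I.E.w a) e'.1 ∧
    ∃ f ∈ E₁, Reg I.M I.E x₁.1 (I.E.w a) f}

/-- the landings of a tag -/
private def PCE {V : Type u} {E : NE V} : Option (Set (Fin E.n)) → Set (Option (Fin E.n))
  | none => {none}
  | some β => {f | ∃ b ∈ β, f = some b}

/-- the argument common to both statements -/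
private lemma PC_core {V : Type u} [Fintype V] {g k s : ℕ} (I : Inst g k s V)
    {x₁ x : V × ℕ} {e e' : V × ℕ} {α' α : Set (Fin I.E.n)} {E₁ E₂ : Set (Option (Fin I.E.n))}
    (hi : I.E.Itv α') {a : Fin I.E.n} (ha : a ∈ α') (hD : I.M.D e.1 x.1 ≠ ⊤)
    (hanc : I.M.Anc x.1 (I.E.w a) e.1) (hreg : ∃ f ∈ E₂, Reg I.M I.E x.1 (I.E.w a) f)
    (hle : I.M.wd x e.1 ≤ I.M.wd x₁ e.1) (hsub : α' ⊆ α) (he' : e' ∈ PCReg I x₁ α' E₁)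
    (hq : ∀ q ∈ CA I x₁ x α E₁ E₂, q ∉ α') : I.M.inc e' x := by
  obtain ⟨hle1, a', ha', hanc', hreg'⟩ := he'
  by_contra hcon
  have hlt : I.M.wd x₁ e'.1 < I.M.wd x e'.1 := by
    by_contra h
    exact hcon (LMet.inc_iff.2 ((not_lt.1 h).trans hle1))
  have hA : a' ∈ QA I x₁ x α E₁ := ⟨hsub ha', lt_anc (PC_ne_top hle1) hanc' hlt, hreg'⟩
  have hB : a ∈ QB I x₁ x α E₂ := ⟨hsub ha, le_anc hD hanc hle, hreg⟩
  obtain ⟨q, hq1, hq2⟩ := alt_between I hA hB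
  exact hq q hq1 (itv_hull hi ha' ha hq2)

theorem hd_T1 (g k s t : ℕ) : ∃ N : ℕ, ∀ (V : Type u) [Fintype V] (I : Inst g k s V),
    Hd I.M.inc N (fun X Y e => ∃ p, ∀ x ∈ Y, ∃ p' ∈ I.E.cell (TwP I X (t + 1)) p,
      I.M.Anc x.1 (I.E.w p') e.1 ∧ Reg I.M I.E x.1 (I.E.w p') none) := by
  obtain ⟨N1, h1⟩ := hd_viaP.{u} g k s (t + 1)
  obtain ⟨N2, h2⟩ := twP_dcd.{u} g k s (t + 1)
  refine ⟨N1 + (1 + bd 1 N2), fun V _ I => ?_⟩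
  have hmain : Hd I.M.inc (bd 1 N2) (fun X Y e => Y.Nonempty ∧ ∃ p, p ∉ TwP I X (t + 1) ∧
      ∀ x ∈ Y, ∃ p' ∈ I.E.cell (TwP I X (t + 1)) p,
        I.M.Anc x.1 (I.E.w p') e.1 ∧ Reg I.M I.E x.1 (I.E.w p') none) := by
    have hdc := ((Dcd.site (P := V × ℕ)).pair (h2 V I).2).map
      (fun z : (V × ℕ) × Set (Fin I.E.n) => PCReg I z.1 z.2 {none})
    refine ⟨_, hdc, ?_⟩
    rintro X Y e hYX hinc ⟨hne, p, hp, hY⟩
    obtain ⟨x₁, hx₁, hmax⟩ := exists_far (M := I.M) (c := e.1) (ρ := e.2) hne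
      (fun x hx => LMet.inc_iff.1 (hinc x hx))
    obtain ⟨p1, hp1, hanc1, hreg1⟩ := hY x₁ hx₁
    refine ⟨_, ⟨(x₁, _), ⟨hYX hx₁, ⟨p, rfl⟩⟩, rfl⟩,
      ⟨LMet.inc_iff.1 (hinc x₁ hx₁), p1, hp1, hanc1, none, rfl, hreg1⟩, ?_⟩
    intro e' he' x hx
    obtain ⟨p2, hp2, hanc2, hreg2⟩ := hY x hx
    have hsub : I.E.cell (TwP I X (t + 1)) p ⊆ {q | I.E.disc q = I.E.disc p} :=
      fun q hq => LC_cell_disc hq
    refine PC_core I (cell_itv _ p) hp2 (PC_ne_top (LMet.inc_iff.1 (hinc x hx))) hanc2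
      (E₂ := {none}) ⟨none, rfl, hreg2⟩ (hmax x hx) hsub he' ?_
    intro q hq hqα
    exact cell_not_mem hp hqα (tow_op I.E (OpP I) X p p q
      (Or.inr (Or.inl ⟨x₁, hYX hx₁, x, hYX hx, I.E.disc p, hq⟩)))
  refine ((h1 V I).or (Hd.empty.or hmain)).weaken le_rfl ?_
  rintro X Y e hYX hinc ⟨p, hY⟩
  by_cases hp : p ∈ TwP I X (t + 1)
  · left
    refine ⟨p, hp, fun x hx => ?_⟩
    obtain ⟨p', hp', hanc, -⟩ := hY x hx
    rw [cell_sing hp] at hp'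
    rw [← Set.mem_singleton_iff.1 hp']
    exact hanc
  · right
    rcases Y.eq_empty_or_nonempty with h | h
    · exact Or.inl h
    · exact Or.inr ⟨h, p, hp, hY⟩

theorem hd_Ts (g k s t : ℕ) : ∃ N : ℕ, ∀ (V : Type u) [Fintype V] (I : Inst g k s V),
    Hd I.M.inc N (fun X Y e => ∃ (p : Fin I.E.n) (x₁ : V × ℕ) (a₁ : Fin I.E.n) (e₁ : Option (Fin I.E.n)),
      x₁ ∈ X ∧ I.M.inc e x₁ ∧ (∀ x ∈ Y, I.M.wd x e.1 ≤ I.M.wd x₁ e.1) ∧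
      a₁ ∈ I.E.cell (TwP I X (t + 1)) p ∧ I.M.Anc x₁.1 (I.E.w a₁) e.1 ∧
      Reg I.M I.E x₁.1 (I.E.w a₁) e₁ ∧ (∀ b, e₁ = some b → b ∉ I.E.cell (TwP I X t) p) ∧
      ∀ x ∈ Y, ∃ a ∈ I.E.cell (TwP I X (t + 1)) p, ∃ e', I.M.Anc x.1 (I.E.w a) e.1 ∧
        Reg I.M I.E x.1 (I.E.w a) e' ∧ ∀ b, e' = some b → b ∉ I.E.cell (TwP I X t) p ∧
          ∀ b₁, e₁ = some b₁ → b ∉ I.E.cell (TwP I X t) b₁) := by
  obtain ⟨N1, h1⟩ := hd_viaP.{u} g k s (t + 1)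
  obtain ⟨N2, h2⟩ := twP_dcd.{u} g k s (t + 1)
  obtain ⟨N3, h3⟩ := twP_dcd.{u} g k s t
  refine ⟨N1 + bd 1 (bd N2 (N3 + 1)), fun V _ I => ?_⟩
  have hmain : Hd I.M.inc (bd 1 (bd N2 (N3 + 1))) (fun X Y e => ∃ (p : Fin I.E.n) (x₁ : V × ℕ)
      (a₁ : Fin I.E.n) (e₁ : Option (Fin I.E.n)), p ∉ TwP I X (t + 1) ∧
      x₁ ∈ X ∧ I.M.inc e x₁ ∧ (∀ x ∈ Y, I.M.wd x e.1 ≤ I.M.wd x₁ e.1) ∧
      a₁ ∈ I.E.cell (TwP I X (t + 1)) p ∧ I.M.Anc x₁.1 (I.E.w a₁) e.1 ∧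
      Reg I.M I.E x₁.1 (I.E.w a₁) e₁ ∧ (∀ b, e₁ = some b → b ∉ I.E.cell (TwP I X t) p) ∧
      ∀ x ∈ Y, ∃ a ∈ I.E.cell (TwP I X (t + 1)) p, ∃ e', I.M.Anc x.1 (I.E.w a) e.1 ∧
        Reg I.M I.E x.1 (I.E.w a) e' ∧ ∀ b, e' = some b → b ∉ I.E.cell (TwP I X t) p ∧
          ∀ b₁, e₁ = some b₁ → b ∉ I.E.cell (TwP I X t) b₁) := by
    have hdc := ((Dcd.site (P := V × ℕ)).pair ((h2 V I).2.pair (h3 V I).2.option)).map
      (fun z : (V × ℕ) × (Set (Fin I.E.n) × Option (Set (Fin I.E.n))) =>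
        PCReg I z.1 z.2.1 (PCE z.2.2))
    refine ⟨_, hdc, ?_⟩
    rintro X Y e hYX hinc ⟨p, x₁, a₁, e₁, hp, hx₁, hinc1, hfar, ha₁, hanc1, hreg1, hout, hY⟩
    have hsub : I.E.cell (TwP I X (t + 1)) p ⊆ I.E.cell (TwP I X t) p :=
      cell_mono (tow_mono I.E (OpP I) X (Nat.le_succ t)) p
    cases e₁ with
    | none =>
      refine ⟨_, ⟨(x₁, (_, none)), ⟨hx₁, ⟨p, rfl⟩, fun z hz => absurd hz (by simp)⟩, rfl⟩,
        ⟨LMet.inc_iff.1 hinc1, a₁, ha₁, hanc1, none, rfl, hreg1⟩, ?_⟩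
      intro e' he' x hx
      obtain ⟨a, ha, f, hanc, hreg, hf⟩ := hY x hx
      refine PC_core I (cell_itv _ p) ha (PC_ne_top (LMet.inc_iff.1 (hinc x hx))) hanc
        (E₂ := {f | ∀ b, f = some b → b ∉ I.E.cell (TwP I X t) p})
        ⟨f, fun b hb => (hf b hb).1, hreg⟩ (hfar x hx) hsub he' ?_
      intro q hq hqα
      exact cell_not_mem hp hqα (tow_op I.E (OpP I) X p p q
        (Or.inr (Or.inr (Or.inr (Or.inl ⟨x₁, hx₁, x, hYX hx, cell_itv _ p, hq⟩)))))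
    | some b₁ =>
      refine ⟨_, ⟨(x₁, (_, some (I.E.cell (TwP I X t) b₁))), ⟨hx₁, ⟨p, rfl⟩,
        fun z hz => ⟨b₁, (Option.some.inj hz).symm⟩⟩, rfl⟩,
        ⟨LMet.inc_iff.1 hinc1, a₁, ha₁, hanc1, some b₁, ⟨b₁, cell_self, rfl⟩, hreg1⟩, ?_⟩
      intro e' he' x hx
      obtain ⟨a, ha, f, hanc, hreg, hf⟩ := hY x hx
      refine PC_core I (cell_itv _ p) ha (PC_ne_top (LMet.inc_iff.1 (hinc x hx))) hanc
        (E₂ := {f | ∀ b, f = some b → b ∉ I.E.cell (TwP I X t) p ∧ b ∉ I.E.cell (TwP I X t) b₁})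
        ⟨f, fun b hb => ⟨(hf b hb).1, (hf b hb).2 b₁ rfl⟩, hreg⟩ (hfar x hx) hsub he' ?_
      intro q hq hqα
      exact cell_not_mem hp hqα (tow_op I.E (OpP I) X p b₁ q
        (Or.inr (Or.inr (Or.inl ⟨x₁, hx₁, x, hYX hx, cell_itv _ p, cell_itv _ b₁,
          cell_disj (hout b₁ rfl), hq⟩))))
  refine ((h1 V I).or hmain).weaken le_rfl ?_
  rintro X Y e hYX hinc ⟨p, x₁, a₁, e₁, hx₁, hinc1, hfar, ha₁, hanc1, hreg1, hout, hY⟩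
  by_cases hp : p ∈ TwP I X (t + 1)
  · left
    refine ⟨p, hp, fun x hx => ?_⟩
    obtain ⟨a, ha, -, hanc, -⟩ := hY x hx
    rw [cell_sing hp] at ha
    rw [← Set.mem_singleton_iff.1 ha]
    exact hanc
  · exact Or.inr ⟨p, x₁, a₁, e₁, hp, hx₁, hinc1, hfar, ha₁, hanc1, hreg1, hout, hY⟩

end Pool.Agent.BTV
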