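import Pool.Agent.BTV.CDe

/-! BTV PE: unique geodesics.

`UG M`: symmetric distances, unique parents.
PROOF of `seg_par`: `y` on the leg of `c` towards `x`, `t` on the leg of `c` towards `x` before `y`
(`Anc x y t`), `t ≠ y`.  `D t x = D t y + D y x` (`D_anc`), `t' := par x t` is still before `y` (or
equal): `D t' x = D t' y + D y x` and `D t x = len t t' + D t' x`, all finite, so
`D t y = len t t' + D t' y` and `uniq` gives `par y t = t'`.
PROOF of `seg_iff`: (→) `t` is an iterate of `par x` from `c`, all earlier iterates are before `y` and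
(if `t` is before `y`) different from `y` unless equal, so by `seg_par` they are the iterates of
`par y`.  (←) the iterates of `par y` from `c` down to `y`: by induction they are iterates of `par x`
before `y`.
PROOF of `tree_seg`: by `seg_iff` for `x` and `x'` with the same `y`: the vertices before `y` on both legs
are the vertices of the leg of `c` towards `y`. -/

set_option autoImplicit false

open Classical

namespace Pool.Agent.BTV

open Pool.Agent.BTD

universe u

variable {V : Type u} {G : SimpleGraph V}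

structure UG (M : LMet G) : Prop where
  symm : ∀ v q, M.D v q = M.D q v
  uniq : ∀ v w q, v ≠ q → M.D v q ≠ ⊤ → G.Adj v w → M.D v q = M.len v w + M.D w q → w = M.par q v

variable {M : LMet G}

lemma seg_par (hU : UG M) {c x y t : V} (hD : M.D c x ≠ ⊤) (hy : M.Anc x y c) (ht : M.Anc x t c)
    (hyt : M.Anc x y t) (hne : t ≠ y) : M.par x t = M.par y t := by
  have hDt : M.D t x ≠ ⊤ := ht.ne_top hD
  have htx : t ≠ x := by
    rintro rfl
    obtain ⟨k, hk⟩ := hyt
    rw [LMet.CAb_iter_root] at hk
    exact hne hk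
  have hDy : M.D y x ≠ ⊤ := hyt.ne_top hDt
  have hyt' : M.Anc x y (M.par x t) := LMet.anc_par_of_ne hyt (Ne.symm hne)
  have hDt' : M.D (M.par x t) x ≠ ⊤ := LMet.par_ne_top hDt
  have e1 := D_anc hDt hyt
  have e2 := D_anc hDt' hyt'
  have e3 := LMet.par_D htx hDt
  have hadj := LMet.par_adj htx hDt
  have e4 : M.D t y = M.len t (M.par x t) + M.D (M.par x t) y := by
    have : M.D t y + M.D y x = (M.len t (M.par x t) + M.D (M.par x t) y) + M.D y x := by
      rw [← e1, e3, e2, add_assoc]
    exact ENat.add_left_injective_of_ne_top hDy this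
  have h5 : M.D t y ≠ ⊤ := by
    intro h
    rw [e1, h] at hDt
    simp at hDt
  exact hU.uniq t (M.par x t) y hne h5 hadj e4

lemma PE_fwd (hU : UG M) {x y t : V} (hyt : M.Anc x y t) (hDt : M.D t x ≠ ⊤) (k : ℕ) :
    ∀ c : V, M.D c x ≠ ⊤ → M.Anc x y c → (M.par x)^[k] c = t → M.Anc y t c := by
  induction k with
  | zero =>
    intro c _ _ h
    have h' : c = t := h
    subst h'
    exact LMet.anc_refl
  | succ k ih =>
    intro c hD hy h
    by_cases hcy : c = y
    · subst hcy
      have h2 : t = c := LMet.anc_antisymm hDt ⟨k + 1, h⟩ hyt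
      rw [h2]
      exact LMet.anc_refl
    · rw [Function.iterate_succ_apply] at h
      have e := seg_par hU hD hy LMet.anc_refl hy hcy
      have h3 := ih (M.par x c) (LMet.par_ne_top hD) (LMet.anc_par_of_ne hy (Ne.symm hcy)) h
      rw [e] at h3
      exact LMet.anc_trans h3 LMet.anc_par

lemma PE_bwd (hU : UG M) {x y t : V} (k : ℕ) :
    ∀ c : V, M.D c x ≠ ⊤ → M.Anc x y c → (M.par y)^[k] c = t → M.Anc x t c ∧ M.Anc x y t := by
  induction k with
  | zero =>
    intro c _ hy h
    have h' : c = t := h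
    subst h'
    exact ⟨LMet.anc_refl, hy⟩
  | succ k ih =>
    intro c hD hy h
    by_cases hcy : c = y
    · subst hcy
      rw [LMet.CAb_iter_root] at h
      subst h
      exact ⟨LMet.anc_refl, LMet.anc_refl⟩
    · rw [Function.iterate_succ_apply] at h
      have e := seg_par hU hD hy LMet.anc_refl hy hcy
      rw [← e] at h
      have h3 := ih (M.par x c) (LMet.par_ne_top hD) (LMet.anc_par_of_ne hy (Ne.symm hcy)) h
      exact ⟨LMet.anc_trans h3.1 LMet.anc_par, h3.2⟩

lemma seg_iff (hU : UG M) {c x y : V} (hD : M.D c x ≠ ⊤) (hy : M.Anc x y c) (t : V) :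
    (M.Anc x t c ∧ M.Anc x y t) ↔ M.Anc y t c := by
  constructor
  · rintro ⟨ht, hyt⟩
    have hDt := ht.ne_top hD
    obtain ⟨k, hk⟩ := ht
    exact PE_fwd hU hyt hDt k c hD hy hk
  · rintro ⟨k, hk⟩
    exact PE_bwd hU k c hD hy hk

/-- two legs of `c` which meet in `y` agree up to `y` -/
lemma tree_seg (hU : UG M) {c x x' y t : V} (hD : M.D c x ≠ ⊤) (hD' : M.D c x' ≠ ⊤)
    (hy : M.Anc x y c) (hy' : M.Anc x' y c) (ht : M.Anc x t c) (hyt : M.Anc x y t) :
    M.Anc x' t c ∧ M.Anc x' y t :=
  (seg_iff hU hD' hy' t).mpr ((seg_iff hU hD hy t).mp ⟨ht, hyt⟩)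

/-- order of vertices before a common vertex -/
lemma tree_ord (hU : UG M) {c x x' y t t' : V} (hD : M.D c x ≠ ⊤) (hD' : M.D c x' ≠ ⊤)
    (hy : M.Anc x y c) (hy' : M.Anc x' y c) (ht : M.Anc x t c) (hyt : M.Anc x y t)
    (ht' : M.Anc x t' t) (hyt' : M.Anc x y t') : M.Anc x' t' t := by
  obtain ⟨h1, h2⟩ := tree_seg hU hD hD' hy hy' ht hyt
  exact (tree_seg hU (ht.ne_top hD) (h1.ne_top hD') hyt h2 ht' hyt').1

end Pool.Agent.BTV
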