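import Pool.Agent.BTV.PE

/-! BTV PF: instances with generic symmetric lengths, and their restrictions.

`LInst`: lengths `ln : Sym2 V → ℕ` such that different finite sets of pairs have different sums (`SI`).
`pos`: `SI {e} ∅`.
`ug`: symmetry: `D v q` is the infimum of walk lengths (`wlen`), reverse the walks.  Uniqueness: suppose
`G.Adj v w`, `D v q = len v w + D w q`, `w ≠ w' := par q v`.  For every vertex `z` with `D z q ≠ ⊤` let
`LE z : Finset (Sym2 V)` be the set of edges of the leg of `z` (`{s((par q)^[j] z, (par q)^[j+1] z)}`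
for `j <` the first index with iterate `q`); along the leg `D · q` decreases strictly, so these
edges are distinct and `(∑ e ∈ LE z, ln e : ℕ) = D z q`.  The edge `s(v, w)` is not in `LE w` (all
vertices of the leg of `w` have `D ≤ D w q < D v q`), so the sums over `insert s(v,w) (LE w)` and
`LE v` agree; by `SI` the sets are equal; so `s(v, w) ∈ LE v`; the only edge of `LE v` which contains
`v` is `s(v, par q v)` (again because `D` decreases strictly), so `w = par q v`.
`restrG E G B`: delete all edges at vortex vertices whose position is not in `B`.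
`restr_le`: every walk of the subgraph is a walk of `G` with the same length.
`restr_eq`: the leg of `v` towards `q` is a walk in the subgraph if all vortex vertices on it are
in `B`.
`restr_isV`: `v` planar, `w p` on the leg in the restricted graph: `w p ≠ v`, so `w p` is the end of an edge
of the restricted graph (the step before it).
`restr_top`: no edges at `w p`. -/

set_option autoImplicit false

open Classical

namespace Pool.Agent.BTV

open Pool.Agent.BTD Pool.Agent.H81.Balls

universe u

section PFgen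

variable {V : Type u} {G : SimpleGraph V}

lemma PF_wlen_append {H : SimpleGraph V} (len : V → V → ℕ∞) : ∀ {a b c : V} (p : H.Walk a b)
    (r : H.Walk b c), wlen len (p.append r) = wlen len p + wlen len r
  | _, _, _, .nil, r => by simp [wlen]
  | _, _, _, .cons h p, r => by
    rw [SimpleGraph.Walk.cons_append, wlen, wlen, PF_wlen_append len p r, add_assoc]

lemma PF_wlen_reverse {H : SimpleGraph V} (len : V → V → ℕ∞) (hs : ∀ a b, len a b = len b a) :
    ∀ {a b : V} (p : H.Walk a b), wlen len p.reverse = wlen len p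
  | _, _, .nil => by simp [wlen]
  | a, _, .cons (v := b) h p => by
    rw [SimpleGraph.Walk.reverse_cons, PF_wlen_append, PF_wlen_reverse len hs p]
    simp only [wlen]
    rw [add_zero, hs b a, add_comm]

lemma PF_D_le_wlen (M : LMet G) {H : SimpleGraph V} (hH : ∀ a b, H.Adj a b → G.Adj a b) :
    ∀ {a b : V} (p : H.Walk a b), M.D a b ≤ wlen (fun a b => (M.len a b : ℕ∞)) p
  | _, _, .nil => by rw [M.D_self]; exact bot_le
  | _, _, .cons h p => by
    refine (M.D_le _ _ _ (hH _ _ h)).trans ?_
    rw [wlen]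
    exact add_le_add le_rfl (PF_D_le_wlen M hH p)

/-- the set of edges of a leg -/
lemma PF_leg (M : LMet G) (ln : Sym2 V → ℕ) (hln : ∀ a b, M.len a b = ln s(a, b)) (q : V) :
    ∀ (n : ℕ) (z : V), M.D z q ≠ ⊤ → (M.D z q).toNat ≤ n →
      ∃ S : Finset (Sym2 V), ∑ e ∈ S, ln e = (M.D z q).toNat ∧
        ∀ e ∈ S, ∃ x, e = s(x, M.par q x) ∧ (M.D x q).toNat ≤ (M.D z q).toNat ∧ x ≠ q ∧
          M.D x q ≠ ⊤ := by
  intro n
  induction n with
  | zero =>
    intro z hz hn
    by_cases hzq : z = q
    · subst hzq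
      refine ⟨∅, ?_, by simp⟩
      rw [M.D_self]; simp
    · have := LMet.toNat_par_lt hzq hz
      omega
  | succ n ih =>
    intro z hz hn
    by_cases hzq : z = q
    · subst hzq
      refine ⟨∅, ?_, by simp⟩
      rw [M.D_self]; simp
    · have h1 := LMet.toNat_par_lt hzq hz
      have h2 := LMet.par_ne_top hz
      obtain ⟨S, hS, hS'⟩ := ih (M.par q z) h2 (by omega)
      have hnot : s(z, M.par q z) ∉ S := by
        intro hmem
        obtain ⟨x, hx, hle, hxq, hxt⟩ := hS' _ hmem
        have h3 := LMet.toNat_par_lt hxq hxt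
        rw [Sym2.eq_iff] at hx
        rcases hx with ⟨e1, _⟩ | ⟨e1, _⟩
        · rw [← e1] at hle; omega
        · rw [← e1] at h3; omega
      refine ⟨insert s(z, M.par q z) S, ?_, ?_⟩
      · rw [Finset.sum_insert hnot, hS, LMet.par_D hzq hz, hln,
          ENat.toNat_add (ENat.natCast_ne_top _) h2]
        simp
      · intro e he
        rw [Finset.mem_insert] at he
        rcases he with he | he
        · exact ⟨z, he, le_refl _, hzq, hz⟩
        · obtain ⟨x, hx, hle, hxq, hxt⟩ := hS' _ he
          exact ⟨x, hx, by omega, hxq, hxt⟩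

lemma PF_uniq (M : LMet G) (ln : Sym2 V → ℕ) (hln : ∀ a b, M.len a b = ln s(a, b))
    (SI : ∀ S T : Finset (Sym2 V), ∑ e ∈ S, ln e = ∑ e ∈ T, ln e → S = T)
    {v w q : V} (hv : v ≠ q) (hD : M.D v q ≠ ⊤) (hadj : G.Adj v w)
    (he : M.D v q = M.len v w + M.D w q) : w = M.par q v := by
  have hw : M.D w q ≠ ⊤ := by
    intro h
    rw [h] at he
    exact hD (by rw [he]; simp)
  have hlt : (M.D w q).toNat < (M.D v q).toNat := by
    rw [he, ENat.toNat_add (ENat.natCast_ne_top _) hw]
    have := M.len_pos _ _ hadj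
    simp only [ENat.toNat_natCast]
    omega
  obtain ⟨S, hS, hS'⟩ := PF_leg M ln hln q _ w hw le_rfl
  have hp := LMet.par_ne_top hD
  have hplt := LMet.toNat_par_lt hv hD
  obtain ⟨T, hT, hT'⟩ := PF_leg M ln hln q _ (M.par q v) hp le_rfl
  have key : ∀ (U : Finset (Sym2 V)) (z : V), (M.D z q).toNat < (M.D v q).toNat →
      (∀ e ∈ U, ∃ x, e = s(x, M.par q x) ∧ (M.D x q).toNat ≤ (M.D z q).toNat ∧ x ≠ q ∧
          M.D x q ≠ ⊤) → ∀ u, s(v, u) ∉ U := by
    intro U z hz hU u hmem
    obtain ⟨x, hx, hle, hxq, hxt⟩ := hU _ hmem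
    have h3 := LMet.toNat_par_lt hxq hxt
    rw [Sym2.eq_iff] at hx
    rcases hx with ⟨e1, _⟩ | ⟨e1, _⟩
    · rw [← e1] at hle; omega
    · rw [← e1] at h3; omega
  have n1 : s(v, w) ∉ S := key S w hlt hS' w
  have n2 : s(v, M.par q v) ∉ T := key T _ hplt hT' _
  have s1 : ∑ e ∈ insert s(v, w) S, ln e = (M.D v q).toNat := by
    rw [Finset.sum_insert n1, hS, he, hln, ENat.toNat_add (ENat.natCast_ne_top _) hw]
    simp
  have s2 : ∑ e ∈ insert s(v, M.par q v) T, ln e = (M.D v q).toNat := by
    rw [Finset.sum_insert n2, hT, LMet.par_D hv hD, hln,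
      ENat.toNat_add (ENat.natCast_ne_top _) hp]
    simp
  have hST := SI _ _ (s1.trans s2.symm)
  have hmem : s(v, w) ∈ insert s(v, M.par q v) T := by
    rw [← hST]; exact Finset.mem_insert_self _ _
  rw [Finset.mem_insert] at hmem
  rcases hmem with h | h
  · rw [Sym2.eq_iff] at h
    rcases h with ⟨_, h⟩ | ⟨h1, h2⟩
    · exact h
    · exact h2.trans h1
  · exact absurd h (key T _ hplt hT' w)

end PFgen

structure LInst (g k s : ℕ) (V : Type u) where
  G : SimpleGraph V
  E : NE V
  fits : E.Fits G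
  A : E.Emb g
  bag : ∀ p, (E.X p).ncard ≤ k
  disc_lt : ∀ p, E.disc p < s
  ln : Sym2 V → ℕ
  SI : ∀ S T : Finset (Sym2 V), ∑ e ∈ S, ln e = ∑ e ∈ T, ln e → S = T

variable {V : Type u} {g k s : ℕ}

lemma LInst.ln_pos (J : LInst g k s V) (e : Sym2 V) : 0 < J.ln e := by
  rcases Nat.eq_zero_or_pos (J.ln e) with h | h
  · exfalso
    have := J.SI {e} ∅ (by simp [h])
    exact Finset.singleton_ne_empty e this
  · exact h

noncomputable def LInst.inst (J : LInst g k s V) : Inst g k s V where
  G := J.G
  M := pathMet J.G (fun a b => J.ln s(a, b)) (fun _ _ _ => J.ln_pos _)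
  E := J.E
  fits := J.fits
  A := J.A
  bag := J.bag
  disc_lt := J.disc_lt

/-- delete the edges at vortex vertices outside of `B` -/
def restrG (E : NE V) (G : SimpleGraph V) (B : Set (Fin E.n)) : SimpleGraph V where
  Adj a b := G.Adj a b ∧ (∀ p, E.w p = a → p ∈ B) ∧ ∀ p, E.w p = b → p ∈ B
  symm := ⟨fun _ _ h => ⟨h.1.symm, h.2.2, h.2.1⟩⟩
  loopless := ⟨fun a h => G.loopless.irrefl a h.1⟩

def LInst.restr (J : LInst g k s V) (B : Set (Fin J.E.n)) : LInst g k s V :=
  { J with
    G := restrG J.E J.G B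
    fits := fun a b h => J.fits a b h.1 }

lemma PF_symm_le (J : LInst g k s V) (v q : V) : J.inst.M.D v q ≤ J.inst.M.D q v := by
  refine le_iInf fun p => ?_
  have h := iInf_le (fun p : J.G.Walk v q => wlen (fun a b => (J.ln s(a, b) : ℕ∞)) p) p.reverse
  refine le_trans h (le_of_eq ?_)
  exact PF_wlen_reverse _ (fun a b => by rw [Sym2.eq_swap]) p

theorem LInst.ug [Fintype V] (J : LInst g k s V) : UG J.inst.M where
  symm v q := le_antisymm (PF_symm_le J v q) (PF_symm_le J q v)
  uniq _ _ _ hv hD hadj he := PF_uniq J.inst.M J.ln (fun _ _ => rfl) J.SI hv hD hadj he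

lemma restr_le (J : LInst g k s V) (B : Set (Fin J.E.n)) (v q : V) :
    J.inst.M.D v q ≤ (J.restr B).inst.M.D v q := by
  refine le_iInf fun p => ?_
  exact PF_D_le_wlen J.inst.M (H := restrG J.E J.G B) (fun a b h => h.1) p

lemma restr_eq (J : LInst g k s V) (B : Set (Fin J.E.n)) {v q : V} (hD : J.inst.M.D v q ≠ ⊤)
    (h : ∀ p, J.inst.M.Anc q (J.E.w p) v → p ∈ B) : (J.restr B).inst.M.D v q = J.inst.M.D v q := by
  refine le_antisymm ?_ (restr_le J B v q)
  have key : ∀ (n : ℕ) (z : V), J.inst.M.D z q ≠ ⊤ → (J.inst.M.D z q).toNat ≤ n →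
      (∀ p, J.inst.M.Anc q (J.E.w p) z → p ∈ B) →
      (J.restr B).inst.M.D z q ≤ J.inst.M.D z q := by
    intro n
    induction n with
    | zero =>
      intro z hz hn _
      by_cases hzq : z = q
      · subst hzq
        rw [(J.restr B).inst.M.D_self]; exact bot_le
      · have := LMet.toNat_par_lt hzq hz
        omega
    | succ n ih =>
      intro z hz hn hB
      by_cases hzq : z = q
      · subst hzq
        rw [(J.restr B).inst.M.D_self]; exact bot_le
      · have h1 := LMet.toNat_par_lt hzq hz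
        have h2 := LMet.par_ne_top hz
        have h3 := ih (J.inst.M.par q z) h2 (by omega) (fun p hp =>
          hB p (LMet.anc_trans hp LMet.anc_par))
        have hadj : (J.restr B).G.Adj z (J.inst.M.par q z) := by
          refine ⟨LMet.par_adj hzq hz, fun p hp => hB p ?_, fun p hp => hB p ?_⟩
          · rw [hp]; exact LMet.anc_refl
          · rw [hp]; exact LMet.anc_par
        rw [LMet.par_D hzq hz]
        exact ((J.restr B).inst.M.D_le _ _ q hadj).trans (add_le_add le_rfl h3)
  exact key _ v hD le_rfl h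

lemma restr_isV (J : LInst g k s V) (B : Set (Fin J.E.n)) {v q : V} (hv : ¬ J.E.IsV v)
    (hD : (J.restr B).inst.M.D v q ≠ ⊤) {p : Fin J.E.n} (h : (J.restr B).inst.M.Anc q (J.E.w p) v) :
    p ∈ B := by
  obtain ⟨l, hl⟩ := h
  have key : ∀ l : ℕ, ((J.restr B).inst.M.par q)^[l] v = v ∨
      ∃ y, (J.restr B).G.Adj y (((J.restr B).inst.M.par q)^[l] v) := by
    intro l
    induction l with
    | zero => exact Or.inl rfl
    | succ l ih =>
      rw [Function.iterate_succ_apply']
      by_cases hq : ((J.restr B).inst.M.par q)^[l] v = q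
      · rw [hq, LMet.par_root]
        rw [hq] at ih
        exact ih
      · exact Or.inr ⟨_, LMet.par_adj hq (LMet.CAb_iter_ne_top hD l)⟩
  rcases key l with h | ⟨y, hy⟩
  · rw [hl] at h
    exact absurd ⟨p, h⟩ hv
  · rw [hl] at hy
    exact hy.2.2 p rfl

lemma restr_top (J : LInst g k s V) (B : Set (Fin J.E.n)) {p : Fin J.E.n} (hp : p ∉ B) {q : V}
    (hq : J.E.w p ≠ q) : (J.restr B).inst.M.D (J.E.w p) q = ⊤ := by
  by_contra h
  have hadj : (J.restr B).G.Adj (J.E.w p) ((J.restr B).inst.M.par q (J.E.w p)) := LMet.par_adj hq h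
  exact hp (hadj.2.1 p rfl)

end Pool.Agent.BTV
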