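import Pool.Agent.BTV.JLa
import Pool.Agent.BTV.PE

/-! BTV PG: the strip lemma: boundedly many exit arms whose tails leave.

`Arm c x α' v b`: `v` on the leg of `c` towards `x`; the leg of `v` is a regular piece landing at `b ∉ α'`;
`v = c` is planar or `v = w a`, `a ∈ α'`; all vortex vertices on the leg at or before `v` are in `α'`.
PROOF of `strip_count`.  `C := NC * (4 k + 2)`.  `Bs := {b | ∃ x ∈ Y, b = b x}`.  For `b ∈ Bs` choose
`x_b ∈ Y`; `κ b := I.cl c x_b.1 (v x_b)`.  Claim: for every `κ₀` at most `4 k + 2` elements `b ∈ Bs`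
with `κ b = κ₀`.  Let `b₁ < b_m` be the smallest and the largest of them (if fewer than 3: fine).
`Cmp`: starts: both `c` (planar case, then `α' = ∅`) or both in `α'` (one disc); ends in `β`.
`cl_spec`: `Ins`.  Let `b` be another one, `b₁ < b < b_m`, `x := x_b`.
(1) `w b` is not on the pieces of `b₁`, `b_m`: `uu_isV`: `w b = v x_{b₁}` is impossible (`b ∉ α'`,
or `v = c` planar), `b ≠ b₁`.  `Ins (w b)`: `Bt b₁ b_m b`; not `OBt (po v₁) (po v_m) b`: the feet are in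
`α'` (or absent), `b ∉ α'`.
(2) tail: `f` with `Anc x (w f) (w b)`, `f ∉ α' ∪ β`.  Let `t` be on the tail: `Anc x t (w b)`,
`Anc x (w f) t`.  `t` is not on the piece of `b₁` (site `x₁`, start `v₁`): otherwise `t` is on the
legs of `c` to `x` and to `x₁`; `w b` is before `t` on the leg to `x`; `tree_seg`: `Anc x₁ (w b) c`,
`Anc x₁ t (w b)`.  `w b` and `v₁` are comparable on the leg to `x₁` (`anc_total`): if `Anc x₁ v₁ (w b)`:
`b ∈ α'` by `Arm`, contradiction.  Otherwise `Anc x₁ (w b) v₁`, and `Anc x₁ (w b₁) t`, `Anc x₁ t (w b)`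
so `w b ∈ UU x₁ v₁ (some b₁)`, contradiction to (1).  Same for `b_m`.
(3) `¬ Ins (w f)`: `f ∉ β` so not `Bt b₁ b_m f`; feet in `α'`, `f ∉ α'`.  So `conf_leg` (from `w b` to
`w f`) gives a vertex `z_b ∈ F4` on the tail of `b`.
(4) `z_b ≠ z_{b'}` for different middle `b, b'`: if `z` is on both tails then by `tree_seg` `w b` is on
the leg to `x'` before `z`, and `w b'` on the leg to `x` before `z`.  On the leg to `x'`: `w b'` is at or
before every vortex vertex not in `α'`: (`w b` compared with `v'`: `Anc x' v' (w b)` would give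
`b ∈ α'`; so `w b` is on the leg of `v'`, `w b ≠ v'`, hence an ancestor of `par v'`, and
`land_first` gives `Anc x' (w b) (w b')`).  Symmetrically `Anc x (w b') (w b)`, and by `tree_ord`
(both before `z`) `Anc x' (w b') (w b)`.  `anc_antisymm`: `w b = w b'`.
So the number of middle ones is `≤ |F4| ≤ 4 k`.
PROOF of `arm_start`: two arms with the same landing `b`: `w b` is on both legs; `tree_seg`/`tree_ord` give
that `v` is before `w b` on both; compare `v` and `v'` on the leg to `x`: if `Anc x v' v`, `v ≠ v'`, (`v'`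
strictly after `v` and before `w b`) then `v' ∈ UU x v (some b)` and `v'` is a vortex vertex
or `c`: if vortex: `v' = w b`, no (`b ∉ α'`); if `v' = c` then also `v` is between `c` and `c`. -/

set_option autoImplicit false

open Classical

namespace Pool.Agent.BTV

open Pool.Agent.BTD Pool.Agent.H81.Balls

universe u

variable {V : Type u} [Fintype V] {g k s : ℕ}

structure Arm (I : Inst g k s V) (c : V) (x : V × ℕ) (α' : Set (Fin I.E.n)) (v : V) (b : Fin I.E.n) :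
    Prop where
  anc : I.M.Anc x.1 v c
  reg : Reg I.M I.E x.1 v (some b)
  start : (v = c ∧ ¬ I.E.IsV c) ∨ ∃ a ∈ α', v = I.E.w a
  bef : ∀ p, I.M.Anc x.1 (I.E.w p) c → I.M.Anc x.1 v (I.E.w p) → p ∈ α'
  out : b ∉ α'

private lemma PG_end {I : Inst g k s V} {c : V} {x : V × ℕ} {α' : Set (Fin I.E.n)} {v : V}
    {b : Fin I.E.n} (h : Arm I c x α' v b) : I.M.Anc x.1 (I.E.w b) v :=
  LMet.anc_trans (land_anc h.reg.2.2.2) LMet.anc_par

private lemma PG_start {I : Inst g k s V} {c : V} {x : V × ℕ} {α' : Set (Fin I.E.n)} {v v' : V}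
    {b : Fin I.E.n} (hD : I.M.D c x.1 ≠ ⊤) (h : Arm I c x α' v b) (h1 : I.M.Anc x.1 v' v)
    (h2 : I.M.Anc x.1 (I.E.w b) v') (hst : (v' = c ∧ ¬ I.E.IsV c) ∨ ∃ a ∈ α', v' = I.E.w a) :
    v = v' := by
  rcases hst with ⟨h3, -⟩ | ⟨a, ha, h3⟩
  · rw [h3] at h1 ⊢
    exact LMet.anc_antisymm (h.anc.ne_top hD) h.anc h1
  · rcases uu_isV h.reg (x := v') ⟨h1, h2⟩ ⟨a, h3.symm⟩ with h4 | ⟨b', h4, h5⟩
    · exact h4.symm
    · rw [← Option.some.inj h4, h3] at h5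
      exact absurd (I.E.w_inj _ _ h5 ▸ ha) h.out

lemma arm_start (I : Inst g k s V) (hU : UG I.M) {c : V} {x x' : V × ℕ} {α' : Set (Fin I.E.n)}
    {v v' : V} {b : Fin I.E.n} (hD : I.M.D c x.1 ≠ ⊤) (hD' : I.M.D c x'.1 ≠ ⊤)
    (h : Arm I c x α' v b) (h' : Arm I c x' α' v' b) : v = v' := by
  have hb1 := PG_end h
  have hb2 := PG_end h'
  have hy := LMet.anc_trans hb1 h.anc
  have hy' := LMet.anc_trans hb2 h'.anc
  have hv' := tree_seg hU hD' hD hy' hy h'.anc hb2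
  rcases anc_total h.anc hv'.1 with h1 | h1
  · have h2 := tree_ord hU hD hD' hy hy' hv'.1 hv'.2 h1 hb1
    have hv := tree_seg hU hD hD' hy hy' h.anc hb1
    exact (PG_start hD' h' h2 hv.2 h.start).symm
  · exact PG_start hD h h1 hv'.2 h'.start

private lemma PG_inj {I : Inst g k s V} (hU : UG I.M) {c : V} {x x' : V × ℕ}
    {α' : Set (Fin I.E.n)} {v v' : V} {b b' : Fin I.E.n} (hD : I.M.D c x.1 ≠ ⊤)
    (hD' : I.M.D c x'.1 ≠ ⊤) (h : Arm I c x α' v b) (h' : Arm I c x' α' v' b') {z : V}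
    (hz : I.M.Anc x.1 z (I.E.w b)) (hz' : I.M.Anc x'.1 z (I.E.w b')) : b = b' := by
  have hb := LMet.anc_trans (PG_end h) h.anc
  have hb' := LMet.anc_trans (PG_end h') h'.anc
  have hzc := LMet.anc_trans hz hb
  have hzc' := LMet.anc_trans hz' hb'
  have key : ∀ {y y' : V × ℕ} {u u' : V} {d d' : Fin I.E.n}, Arm I c y α' u d →
      Arm I c y' α' u' d' → I.M.Anc y'.1 (I.E.w d) c → I.M.Anc y'.1 (I.E.w d) (I.E.w d') := by
    intro y y' u u' d d' h1 h2 h3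
    have h4 : ¬ I.M.Anc y'.1 u' (I.E.w d) := fun h5 => h1.out (h2.bef d h3 h5)
    rcases anc_total h3 h2.anc with h5 | h5
    · have hne : I.E.w d ≠ u' := by
        intro h6
        exact h4 (h6 ▸ LMet.anc_refl)
      exact land_first h2.reg.2.2.2 (LMet.anc_par_of_ne h5 hne) ⟨d, rfl⟩
    · exact absurd h5 h4
  have e1 := tree_seg hU hD hD' hzc hzc' hb hz
  have e2 := tree_seg hU hD' hD hzc' hzc hb' hz'
  have h1 := key h h' e1.1
  have h2 := key h' h e2.1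
  have h3 := tree_ord hU hD hD' hzc hzc' hb hz h2 e2.2
  exact I.E.w_inj _ _ (LMet.anc_antisymm (e1.1.ne_top hD') h1 h3)

private lemma PG_off {I : Inst g k s V} (hU : UG I.M) {c : V} {x x₁ : V × ℕ}
    {α' : Set (Fin I.E.n)} {v v₁ : V} {b b₁ : Fin I.E.n} (hD : I.M.D c x.1 ≠ ⊤)
    (hD₁ : I.M.D c x₁.1 ≠ ⊤) (h : Arm I c x α' v b) (h₁ : Arm I c x₁ α' v₁ b₁) (hne : b ≠ b₁)
    {t : V} (ht : I.M.Anc x.1 t (I.E.w b)) : t ∉ UU I.M I.E x₁.1 v₁ (some b₁) := by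
  rintro ⟨h1, h2⟩
  have hb := LMet.anc_trans (PG_end h) h.anc
  have e1 := tree_seg hU hD hD₁ (LMet.anc_trans ht hb) (LMet.anc_trans h1 h₁.anc) hb ht
  rcases anc_total e1.1 h₁.anc with h3 | h3
  · rcases uu_isV h₁.reg (x := I.E.w b) ⟨h3, LMet.anc_trans h2 e1.2⟩ ⟨b, rfl⟩ with h4 | ⟨b', h4, h5⟩
    · rcases h₁.start with ⟨h5, h6⟩ | ⟨a, ha, h5⟩
      · exact h6 ⟨b, by rw [h4, h5]⟩
      · rw [h5] at h4
        exact h.out (by rw [I.E.w_inj _ _ h4]; exact ha)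
    · rw [← Option.some.inj h4] at h5
      exact hne (I.E.w_inj _ _ h5)
  · exact h.out (h₁.bef b e1.1 h3)

private lemma PG_po {V : Type u} {E : NE V} (p : Fin E.n) : E.po (E.w p) = some p := by
  have h : ∃ p', E.w p' = E.w p := ⟨p, rfl⟩
  unfold NE.po
  rw [dif_pos h]
  exact congrArg some (E.w_inj _ _ h.choose_spec)

private lemma PG_foot {I : Inst g k s V} {c : V} {x : V × ℕ} {α' : Set (Fin I.E.n)} {v : V}
    {b : Fin I.E.n} (h : Arm I c x α' v b) {a : Fin I.E.n} (ha : I.E.po v = some a) : a ∈ α' := by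
  rcases h.start with ⟨h1, h2⟩ | ⟨a', ha', h1⟩
  · unfold NE.po at ha
    rw [dif_neg (by rw [h1]; exact h2)] at ha
    cases ha
  · rw [h1, PG_po] at ha
    rw [← Option.some.inj ha]
    exact ha'

private lemma PG_mid {I : Inst g k s V} (hU : UG I.M) {c : V} {α' β : Set (Fin I.E.n)}
    (hα : I.E.Itv α') (hβ : I.E.Itv β) (hc : ¬ I.E.IsV c → α' = ∅)
    {x₁ x₂ x : V × ℕ} (hD₁ : I.M.D c x₁.1 ≠ ⊤) (hD₂ : I.M.D c x₂.1 ≠ ⊤) (hD : I.M.D c x.1 ≠ ⊤)
    {v₁ v₂ v : V} {b₁ b₂ b : Fin I.E.n} (h₁ : Arm I c x₁ α' v₁ b₁) (h₂ : Arm I c x₂ α' v₂ b₂)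
    (h : Arm I c x α' v b) (hb₁ : b₁ ∈ β) (hb₂ : b₂ ∈ β) (h1 : b₁ < b) (h2 : b < b₂)
    (hcl : I.cl c x₁.1 v₁ = I.cl c x₂.1 v₂) {f : Fin I.E.n} (hf : I.M.Anc x.1 (I.E.w f) (I.E.w b))
    (hfα : f ∉ α') (hfβ : f ∉ β) :
    ∃ z ∈ F4 I.E v₁ (some b₁) v₂ (some b₂), I.M.Anc x.1 z (I.E.w b) := by
  have hcmp : Cmp I.E x₁.1 v₁ (some b₁) x₂.1 v₂ (some b₂) := by
    refine ⟨?_, Or.inr ⟨b₁, b₂, rfl, rfl, hβ.1 b₁ hb₁ b₂ hb₂⟩⟩
    rcases h₁.start with ⟨h3, h4⟩ | ⟨a, ha, h3⟩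
    · rcases h₂.start with ⟨h5, -⟩ | ⟨a, ha, -⟩
      · left; rw [h3, h5]
      · rw [hc h4] at ha
        exact absurd ha (Set.notMem_empty _)
    · rcases h₂.start with ⟨-, h4⟩ | ⟨a', ha', h5⟩
      · rw [hc h4] at ha
        exact absurd ha (Set.notMem_empty _)
      · exact Or.inr ⟨a, a', h3.symm, h5.symm, hα.1 a ha a' ha'⟩
  obtain ⟨Ins, hS, -⟩ := cl_spec I c h₁.reg h₂.reg hcmp hcl
  have off1 : ∀ t, I.M.Anc x.1 t (I.E.w b) → t ∉ UU I.M I.E x₁.1 v₁ (some b₁) := fun t ht =>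
    PG_off hU hD hD₁ h h₁ h1.ne' ht
  have off2 : ∀ t, I.M.Anc x.1 t (I.E.w b) → t ∉ UU I.M I.E x₂.1 v₂ (some b₂) := fun t ht =>
    PG_off hU hD hD₂ h h₂ h2.ne ht
  have hno : ∀ d, d ∉ α' → ¬ I.E.OBt (I.E.po v₁) (I.E.po v₂) d := by
    rintro d hdα ⟨a, a', ha, ha', hbt⟩
    exact hdα (itv_bt hα (PG_foot h₁ ha) (PG_foot h₂ ha') hbt)
  have hInb : Ins (I.E.w b) := by
    rw [hS.hV b (off1 _ LMet.anc_refl) (off2 _ LMet.anc_refl)]
    exact Or.inr ⟨⟨b₁, b₂, rfl, rfl, Or.inl ⟨h1, h2⟩⟩, hno b h.out⟩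
  have hInf : ¬ Ins (I.E.w f) := by
    rw [hS.hV f (off1 _ hf) (off2 _ hf)]
    rintro (⟨h3, -⟩ | ⟨⟨d, d', h3, h4, h5⟩, -⟩)
    · exact hno f hfα h3
    · rw [← Option.some.inj h3, ← Option.some.inj h4] at h5
      exact hfβ (itv_bt hβ hb₁ hb₂ h5)
  by_contra hcon
  push Not at hcon
  have hDb : I.M.D (I.E.w b) x.1 ≠ ⊤ := (LMet.anc_trans (PG_end h) h.anc).ne_top hD
  exact hInf ((conf_leg I.fits hS hDb hf (fun t ht _ => ⟨off1 t ht, off2 t ht,
    fun hF => hcon t hF ht⟩)).1 hInb)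

theorem strip_count (I : Inst g k s V) (hU : UG I.M) {c : V} {α' β : Set (Fin I.E.n)}
    (hα : I.E.Itv α') (hβ : I.E.Itv β) (hd : Disjoint α' β) (hc : ¬ I.E.IsV c → α' = ∅)
    (Y : Set (V × ℕ)) (hY : ∀ x ∈ Y, I.M.D c x.1 ≠ ⊤) (v : V × ℕ → V) (b : V × ℕ → Fin I.E.n)
    (harm : ∀ x ∈ Y, Arm I c x α' (v x) (b x)) (hb : ∀ x ∈ Y, b x ∈ β)
    (htail : ∀ x ∈ Y, ∃ f, I.M.Anc x.1 (I.E.w f) (I.E.w (b x)) ∧ f ∉ α' ∧ f ∉ β) :
    {p | ∃ x ∈ Y, b x = p}.ncard ≤ NC.{u} g k s * (4 * k + 2) := by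
  by_cases hYe : Y.Nonempty
  swap
  · rw [Set.not_nonempty_iff_eq_empty] at hYe
    have : {p | ∃ x ∈ Y, b x = p} = ∅ := by
      rw [hYe]
      ext p
      simp
    rw [this, Set.ncard_empty]
    exact Nat.zero_le _
  obtain ⟨x0, hx0⟩ := hYe
  have hch : ∀ p : Fin I.E.n, ∃ x ∈ Y, (∃ x ∈ Y, b x = p) → b x = p := by
    intro p
    by_cases hp : ∃ x ∈ Y, b x = p
    · obtain ⟨x, hx, hxp⟩ := hp
      exact ⟨x, hx, fun _ => hxp⟩
    · exact ⟨x0, hx0, fun h => absurd h hp⟩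
  choose X hX hXb using hch
  rw [Set.ncard_eq_toFinset_card']
  set B : Finset (Fin I.E.n) := {p | ∃ x ∈ Y, b x = p}.toFinset with hB
  have hmem : ∀ p ∈ B, b (X p) = p := by
    intro p hp
    rw [hB, Set.mem_toFinset] at hp
    exact hXb p hp
  have hmain := Finset.card_le_mul_card_image_of_maps_to (s := B) (t := Finset.univ)
    (f := fun p => I.cl c (X p).1 (v (X p))) (fun a _ => Finset.mem_univ _) (4 * k + 2) ?_
  · rw [Finset.card_univ, Fintype.card_fin] at hmain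
    rw [mul_comm]
    exact hmain
  intro κ _
  set S : Finset (Fin I.E.n) := {p ∈ B | I.cl c (X p).1 (v (X p)) = κ} with hS
  by_cases hSe : S.Nonempty
  swap
  · rw [Finset.not_nonempty_iff_eq_empty] at hSe
    rw [hSe, Finset.card_empty]
    exact Nat.zero_le _
  set b₁ := S.min' hSe with hb1
  set b₂ := S.max' hSe with hb2
  have hb₁S : b₁ ∈ S := S.min'_mem hSe
  have hb₂S : b₂ ∈ S := S.max'_mem hSe
  have hSB : ∀ p ∈ S, p ∈ B := fun p hp => (Finset.mem_filter.1 hp).1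
  have hSκ : ∀ p ∈ S, I.cl c (X p).1 (v (X p)) = κ := fun p hp => (Finset.mem_filter.1 hp).2
  have hArm : ∀ p ∈ S, Arm I c (X p) α' (v (X p)) p := by
    intro p hp
    have h3 := harm (X p) (hX p)
    rw [hmem p (hSB p hp)] at h3
    exact h3
  have hβm : ∀ p ∈ S, p ∈ β := by
    intro p hp
    have h3 := hb (X p) (hX p)
    rw [hmem p (hSB p hp)] at h3
    exact h3
  set S' : Finset (Fin I.E.n) := (S.erase b₁).erase b₂ with hS'
  have hz : ∀ p : Fin I.E.n, ∃ z : V, p ∈ S' → z ∈ F4 I.E (v (X b₁)) (some b₁) (v (X b₂)) (some b₂) ∧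
      I.M.Anc (X p).1 z (I.E.w p) := by
    intro p
    by_cases hp : p ∈ S'
    · rw [hS', Finset.mem_erase, Finset.mem_erase] at hp
      obtain ⟨hp2, hp1, hpS⟩ := hp
      have h1 : b₁ < p := lt_of_le_of_ne (S.min'_le p hpS) (Ne.symm hp1)
      have h2 : p < b₂ := lt_of_le_of_ne (S.le_max' p hpS) hp2
      obtain ⟨f, hf, hfα, hfβ⟩ := htail (X p) (hX p)
      rw [hmem p (hSB p hpS)] at hf
      obtain ⟨z, hz1, hz2⟩ := PG_mid hU hα hβ hc (hY _ (hX b₁)) (hY _ (hX b₂)) (hY _ (hX p))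
        (hArm b₁ hb₁S) (hArm b₂ hb₂S) (hArm p hpS) (hβm b₁ hb₁S) (hβm b₂ hb₂S) h1 h2
        (by rw [hSκ b₁ hb₁S, hSκ b₂ hb₂S]) hf hfα hfβ
      exact ⟨z, fun _ => ⟨hz1, hz2⟩⟩
    · exact ⟨c, fun h => absurd h hp⟩
  choose Z hZ using hz
  have hcard : S'.card ≤ 4 * k := by
    have h1 : (↑S' : Set (Fin I.E.n)).ncard ≤
        (F4 I.E (v (X b₁)) (some b₁) (v (X b₂)) (some b₂)).ncard := by
      refine Set.ncard_le_ncard_of_injOn Z (fun p hp => (hZ p hp).1) ?_ (Set.toFinite _)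
      intro p hp p' hp' hpp
      have e1 := (hZ p hp).2
      have e2 := (hZ p' hp').2
      rw [← hpp] at e2
      have hpS : p ∈ S := Finset.mem_of_mem_erase (Finset.mem_of_mem_erase hp)
      have hpS' : p' ∈ S := Finset.mem_of_mem_erase (Finset.mem_of_mem_erase hp')
      exact PG_inj hU (hY _ (hX p)) (hY _ (hX p')) (hArm p hpS) (hArm p' hpS') e1 e2
    rw [Set.ncard_coe_finset] at h1
    exact h1.trans (f4_ncard I _ _ _ _)
  have e1 : S.card - 1 ≤ (S.erase b₁).card := Finset.pred_card_le_card_erase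
  have e2 : (S.erase b₁).card - 1 ≤ S'.card := Finset.pred_card_le_card_erase
  omega

end Pool.Agent.BTV
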