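import Pool.Agent.BTV.JLc
import Pool.Agent.BTV.PB

/-! BTV PH: rounds of farthest sites along a constant arm.

`pig`: colours `c i j ⊆ W`, `W.ncard ≤ m`.  Suppose there are no `i < j < l ≤ 2 ^ 2 ^ m` with
`c i j = c j l`.  `In j := {c i j | i < j}`, a set of subsets of `W`.  For `j < l`: `c j l ∈ In l`,
`c j l ∉ In j`, so `In j ≠ In l`: `2 ^ 2 ^ m + 1` different sets of subsets of `W`; but there are at
most `2 ^ 2 ^ m`.
`RJ α α' l`: the region of a list of sites.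
PROOF of `jseq`.  `N₀ := 2 ^ 2 ^ (2 k)`.  For a list `l` and `i < l.length` put
`R i := {a' ∈ α' | (∀ j < i, wd l[i] (w a') ≤ wd l[j] (w a')) ∧ ∀ t, Anc l[i].1 t (w a') → t ∉ Gt α}`,
`Y' i := {x ∈ Y | ∀ j < i, ∃ a' ∈ R j, wd l[j] (w a') < wd x (w a')}` (for `i ≤ l.length`).
`l` is GOOD if for all `i < l.length`: `l[i] ∈ Y' i` and `∀ x ∈ Y' i, wd x (w a) ≤ wd l[i] (w a)`.
The empty list is good.  If `l` is good and `Y' l.length ≠ ∅` then `l ++ [x]` with `x` farthest in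
`Y' l.length` (`exists_far`; `wd · (w a) ≤ σ` on `Y`) is good.
(A) a good list has length `≤ N₀`: otherwise `c i j := {v | (v ∈ X a ∨ v ∈ X b) ∧ wd l[j] v ≤ wd l[i] v}`,
`W = X a ∪ X b`, at most `2 k` elements; `pig`: `i < j < m` with `c i j = c j m`.  `jumpL` with
`y := l[m]`, `x := l[j]`, `Red := RedP l[m] l[j]`, `Bl := BlP l[i] l[j] l[m]`: closed (`cl_cmp`),
disjoint; `w a ∈ Red`: `l[m] ∈ Y' m ⊆ Y' j`, so `wd l[m] (w a) ≤ wd l[j] (w a)`; finite.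
`Reg l[m].1 (w a) (some b)`.  `l[m] ∈ Y' m` and `j < m`: `a' ∈ R j` with `wd l[j] (w a') <
wd l[m] (w a')`; `w a' ∈ Bl` (`i < j`).  Gates: `a' ∈ R j`.  `hXa`: `t ∈ Bl`, `t ∈ X a` or `t ∈ X b`
(`OX (some b)`): then `t ∈ c i j = c j m` so `wd l[m] t ≤ wd l[j] t < wd l[m] t`.
`jumpL` gives `q ∈ JOut`, `Hull a a' q`, so `q ∈ α'` (`Itv`), contradiction to `hno`.
(B) So there is a good list `l` with `Y' l.length = ∅` (take a good list of maximal length).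
`(w a, σ) ∈ RJ`: `l[i] ∈ Y`, `wd l[i] (w a) ≤ σ`; for `j < i`, `l[i] ∈ Y' i ⊆ Y' j`.  If `e' ∈ RJ`,
`e'.1 = w a'`, `x ∈ Y`: `x ∉ Y' l.length`, so there is `j` with `wd x (w a'') ≤ wd l[j] (w a'')` for all
`a'' ∈ R j`; `a' ∈ R j`; `≤ e'.2`. -/

set_option autoImplicit false

open Classical

namespace Pool.Agent.BTV

open Pool.Agent.BTD Pool.Agent.H81.Balls

universe u

lemma pig {V : Type u} [Finite V] {W : Set V} {m : ℕ} (hW : W.ncard ≤ m) (c : ℕ → ℕ → Set V)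
    (hc : ∀ i j, c i j ⊆ W) : ∃ i j l, i < j ∧ j < l ∧ l ≤ 2 ^ 2 ^ m ∧ c i j = c j l := by
  by_contra hcon
  push Not at hcon
  have hWf : W.Finite := W.toFinite
  let In : ℕ → Set (Set V) := fun j => {s | ∃ i, i < j ∧ s = c i j}
  have hne : ∀ j l, j < l → l ≤ 2 ^ 2 ^ m → In j ≠ In l := by
    intro j l hjl hl heq
    have h1 : c j l ∈ In l := ⟨j, hjl, rfl⟩
    rw [← heq] at h1
    obtain ⟨i, hij, h2⟩ := h1
    exact hcon i j l hij hjl hl h2.symm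
  have hinj : Set.InjOn In (Set.Iic (2 ^ 2 ^ m)) := by
    intro j hj l hl heq
    rcases lt_trichotomy j l with h | h | h
    · exact absurd heq (hne j l h hl)
    · exact h
    · exact absurd heq.symm (hne l j h hj)
  have hmaps : ∀ j ∈ Set.Iic (2 ^ 2 ^ m), In j ∈ 𝒫 (𝒫 W) := by
    intro j _ s hs
    obtain ⟨i, _, rfl⟩ := hs
    exact hc i j
  have hPf1 : (𝒫 W).Finite := hWf.finite_subsets
  have hPf : (𝒫 (𝒫 W)).Finite := hPf1.finite_subsets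
  have hle := Set.ncard_le_ncard_of_injOn In hmaps hinj hPf
  rw [Set.ncard_powerset (𝒫 W) hPf1, Set.ncard_powerset W hWf] at hle
  have h1 : (Set.Iic (2 ^ 2 ^ m) : Set ℕ).ncard = 2 ^ 2 ^ m + 1 := by
    rw [← Nat.card_coe_set_eq]; simp
  rw [h1] at hle
  have h2 : 2 ^ 2 ^ W.ncard ≤ 2 ^ 2 ^ m :=
    Nat.pow_le_pow_right (by norm_num) (Nat.pow_le_pow_right (by norm_num) hW)
  omega

variable {V : Type u} [Fintype V] {g k s : ℕ}

/-- region of a list of sites -/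
def RJ (I : Inst g k s V) (α α' : Set (Fin I.E.n)) (l : List (V × ℕ)) : Set (V × ℕ) :=
  {e' | ∃ a' ∈ α', e'.1 = I.E.w a' ∧ ∀ (i : ℕ) (hi : i < l.length),
    I.M.wd l[i] (I.E.w a') ≤ e'.2 ∧
    (∀ (j : ℕ) (hj : j < i), I.M.wd l[i] (I.E.w a') ≤ I.M.wd (l[j]'(hj.trans hi)) (I.E.w a')) ∧
    ∀ t, I.M.Anc (l[i]).1 t (I.E.w a') → t ∉ I.E.Gt α}

/-- the positions controlled by round `j` of the sequence `x` -/
def phR (I : Inst g k s V) (α α' : Set (Fin I.E.n)) (x : ℕ → V × ℕ) (j : ℕ) : Set (Fin I.E.n) :=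
  {a' | a' ∈ α' ∧ (∀ i < j, I.M.wd (x j) (I.E.w a') ≤ I.M.wd (x i) (I.E.w a')) ∧
    ∀ t, I.M.Anc (x j).1 t (I.E.w a') → t ∉ I.E.Gt α}

/-- the sites left before round `i` -/
def phY (I : Inst g k s V) (Y : Set (V × ℕ)) (α α' : Set (Fin I.E.n)) (x : ℕ → V × ℕ) (i : ℕ) :
    Set (V × ℕ) :=
  {y | y ∈ Y ∧ ∀ j < i, ∃ a' ∈ phR I α α' x j, I.M.wd (x j) (I.E.w a') < I.M.wd y (I.E.w a')}

/-- the first `m` rounds take a farthest site -/
def phG (I : Inst g k s V) (Y : Set (V × ℕ)) (α α' : Set (Fin I.E.n)) (a : Fin I.E.n)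
    (x : ℕ → V × ℕ) (m : ℕ) : Prop :=
  ∀ i < m, x i ∈ phY I Y α α' x i ∧
    ∀ y ∈ phY I Y α α' x i, I.M.wd y (I.E.w a) ≤ I.M.wd (x i) (I.E.w a)

omit [Fintype V] in
lemma phR_congr {I : Inst g k s V} {α α' : Set (Fin I.E.n)} {x x' : ℕ → V × ℕ} {j : ℕ}
    (h : ∀ i ≤ j, x' i = x i) : phR I α α' x' j = phR I α α' x j := by
  ext a'
  simp only [phR, Set.mem_ofPred_eq]
  rw [h j le_rfl]
  constructor
  · rintro ⟨h1, h2, h3⟩
    exact ⟨h1, fun i hi => by rw [← h i hi.le]; exact h2 i hi, h3⟩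
  · rintro ⟨h1, h2, h3⟩
    exact ⟨h1, fun i hi => by rw [h i hi.le]; exact h2 i hi, h3⟩

omit [Fintype V] in
lemma phY_congr {I : Inst g k s V} {Y : Set (V × ℕ)} {α α' : Set (Fin I.E.n)} {x x' : ℕ → V × ℕ}
    {i : ℕ} (h : ∀ j < i, x' j = x j) : phY I Y α α' x' i = phY I Y α α' x i := by
  have hR : ∀ j < i, phR I α α' x' j = phR I α α' x j := fun j hj =>
    phR_congr (fun t ht => h t (lt_of_le_of_lt ht hj))
  ext y
  simp only [phY, Set.mem_ofPred_eq]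
  constructor
  · rintro ⟨h1, h2⟩
    refine ⟨h1, fun j hj => ?_⟩
    obtain ⟨a', ha', h3⟩ := h2 j hj
    rw [hR j hj] at ha'
    rw [h j hj] at h3
    exact ⟨a', ha', h3⟩
  · rintro ⟨h1, h2⟩
    refine ⟨h1, fun j hj => ?_⟩
    obtain ⟨a', ha', h3⟩ := h2 j hj
    rw [← hR j hj] at ha'
    rw [← h j hj] at h3
    exact ⟨a', ha', h3⟩

omit [Fintype V] in
lemma phY_mono {I : Inst g k s V} {Y : Set (V × ℕ)} {α α' : Set (Fin I.E.n)} {x : ℕ → V × ℕ}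
    {i j : ℕ} (h : i ≤ j) : phY I Y α α' x j ⊆ phY I Y α α' x i :=
  fun _ hy => ⟨hy.1, fun t ht => hy.2 t (lt_of_lt_of_le ht h)⟩

/-- good sequences are short -/
lemma phG_le (I : Inst g k s V) {X Y : Set (V × ℕ)} (hYX : Y ⊆ X) {α α' : Set (Fin I.E.n)}
    (hα : I.E.Itv α) (hα' : I.E.Itv α') (hsub : α' ⊆ α) {a b : Fin I.E.n} (ha : a ∈ α') (hb : b ∉ α)
    {σ : ℕ} (hinc : ∀ x ∈ Y, I.M.wd x (I.E.w a) ≤ σ)
    (hreg : ∀ x ∈ Y, Reg I.M I.E x.1 (I.E.w a) (some b))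
    (hno : ∀ xi ∈ X, ∀ xj ∈ X, ∀ xm ∈ X, ∀ q ∈ JOut I xm xj (RedP I xm xj) (BlP I xi xj xm) α, q ∉ α')
    {x : ℕ → V × ℕ} {m : ℕ} (hG : phG I Y α α' a x m) : m ≤ 2 ^ 2 ^ (2 * k) := by
  by_contra hm
  push Not at hm
  have hW : (I.E.X a ∪ I.E.X b).ncard ≤ 2 * k := by
    have h1 := Set.ncard_union_le (I.E.X a) (I.E.X b)
    have h2 := I.bag a
    have h3 := I.bag b
    omega
  obtain ⟨i, j, l, hij, hjl, hl, hc⟩ := pig hW
    (fun i j => {v | (v ∈ I.E.X a ∨ v ∈ I.E.X b) ∧ I.M.wd (x j) v ≤ I.M.wd (x i) v})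
    (fun i j v hv => hv.1)
  have hlm : l < m := lt_of_le_of_lt hl hm
  have hjm : j < m := hjl.trans hlm
  have him : i < m := hij.trans hjm
  have hYl := (hG l hlm).1
  have hYj := (hG j hjm).1
  have hYi := (hG i him).1
  obtain ⟨a', ha'R, hlt⟩ := hYl.2 j hjl
  have hfin : I.M.wd (x l) (I.E.w a) ≠ ⊤ := by
    intro h
    have := hinc _ hYl.1
    rw [h] at this
    exact absurd this (by simp)
  obtain ⟨q, hq, hull⟩ := jumpL I (x l) (x j) (RedP I (x l) (x j)) (BlP I (x i) (x j) (x l)) α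
    (by
      have := cl_cmp (M := I.M) (x l) {x j} ∅
      have he : RedP I (x l) (x j) = {v | I.M.wd (x l) v ≠ ⊤ ∧ (∀ y ∈ ({x j} : Set (V × ℕ)),
          I.M.wd (x l) v ≤ I.M.wd y v) ∧ ∀ y ∈ (∅ : Set (V × ℕ)), I.M.wd (x l) v < I.M.wd y v} := by
        ext v
        simp [RedP]
      rw [he]
      exact this)
    (by
      have := cl_cmp (M := I.M) (x j) {x i} {x l}
      have he : BlP I (x i) (x j) (x l) = {v | I.M.wd (x j) v ≠ ⊤ ∧ (∀ y ∈ ({x i} : Set (V × ℕ)),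
          I.M.wd (x j) v ≤ I.M.wd y v) ∧ ∀ y ∈ ({x l} : Set (V × ℕ)),
          I.M.wd (x j) v < I.M.wd y v} := by
        ext v
        simp only [BlP, Set.mem_ofPred_eq, Set.mem_singleton_iff, forall_eq]
        constructor
        · rintro ⟨h1, h2⟩
          exact ⟨ne_top_of_lt h1, h2, h1⟩
        · rintro ⟨_, h2, h1⟩
          exact ⟨h1, h2⟩
      rw [he]
      exact this)
    (by
      rw [Set.disjoint_left]
      intro v hv hv'
      exact absurd (lt_of_le_of_lt hv.2 hv'.1) (lt_irrefl _))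
    hα (hsub ha) (hsub ha'R.1) (hreg _ hYl.1)
    ⟨hfin, (hG j hjm).2 _ (phY_mono hjl.le hYl)⟩
    (fun b' hb' => by
      cases hb'
      exact hb)
    ⟨hlt, ha'R.2.1 i hij⟩
    ha'R.2.2
    (by
      have key : ∀ t ∈ BlP I (x i) (x j) (x l), ¬ (t ∈ I.E.X a ∨ t ∈ I.E.X b) := by
        intro t ht hor
        have h1 := (Set.ext_iff.mp hc t).mp ⟨hor, ht.2⟩
        exact absurd (lt_of_le_of_lt h1.2 ht.1) (lt_irrefl _)
      intro t ht
      refine ⟨fun h => key t ht (Or.inl h), ?_⟩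
      rintro ⟨p, hp, h⟩
      cases hp
      exact key t ht (Or.inr h))
  refine hno _ (hYX hYi.1) _ (hYX hYj.1) _ (hYX hYl.1) q hq ?_
  rcases hull with ⟨h1, h2⟩ | ⟨h1, h2⟩
  · exact hα'.2 a q a' ha ha'R.1 h1 h2
  · exact hα'.2 a' q a ha'R.1 ha h1 h2

theorem jseq (I : Inst g k s V) {X Y : Set (V × ℕ)} (hYX : Y ⊆ X) {α α' : Set (Fin I.E.n)}
    (hα : I.E.Itv α) (hα' : I.E.Itv α') (hsub : α' ⊆ α) {a b : Fin I.E.n} (ha : a ∈ α') (hb : b ∉ α)
    {σ : ℕ} (hinc : ∀ x ∈ Y, I.M.wd x (I.E.w a) ≤ σ)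
    (hreg : ∀ x ∈ Y, Reg I.M I.E x.1 (I.E.w a) (some b))
    (hgate : ∀ x ∈ Y, ∀ t, I.M.Anc x.1 t (I.E.w a) → t ∉ I.E.Gt α)
    (hno : ∀ xi ∈ X, ∀ xj ∈ X, ∀ xm ∈ X, ∀ q ∈ JOut I xm xj (RedP I xm xj) (BlP I xi xj xm) α, q ∉ α') :
    ∃ l : List (V × ℕ), l.length ≤ 2 ^ 2 ^ (2 * k) ∧ (∀ x ∈ l, x ∈ Y) ∧
      (I.E.w a, σ) ∈ RJ I α α' l ∧ ∀ e' ∈ RJ I α α' l, ∀ x ∈ Y, I.M.wd x e'.1 ≤ e'.2 := by
  have hbd : ∀ m, (∃ x, phG I Y α α' a x m) → m ≤ 2 ^ 2 ^ (2 * k) := fun m ⟨x, hx⟩ =>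
    phG_le I hYX hα hα' hsub ha hb hinc hreg hno hx
  obtain ⟨m, ⟨x, hG⟩, hmax⟩ : ∃ m, (∃ x, phG I Y α α' a x m) ∧ ¬ ∃ x, phG I Y α α' a x (m + 1) := by
    by_contra hcon
    push Not at hcon
    have hall : ∀ m, ∃ x, phG I Y α α' a x m := by
      intro m
      induction m with
      | zero => exact ⟨fun _ => (I.E.w a, 0), fun i hi => absurd hi (by omega)⟩
      | succ m ih => exact hcon m ih
    have := hbd _ (hall (2 ^ 2 ^ (2 * k) + 1))
    omega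
  have hempty : phY I Y α α' x m = ∅ := by
    by_contra hne
    have hne' : (phY I Y α α' x m).Nonempty := Set.nonempty_iff_ne_empty.mpr hne
    obtain ⟨z, hz, hfar⟩ := exists_far (M := I.M) hne' (c := I.E.w a) (ρ := σ)
      (fun y hy => hinc y hy.1)
    refine hmax ⟨Function.update x m z, fun i hi => ?_⟩
    have hcg : phY I Y α α' (Function.update x m z) i = phY I Y α α' x i :=
      phY_congr (fun j hj => by rw [Function.update_of_ne (by omega)])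
    rw [hcg]
    rcases Nat.lt_or_ge i m with him | him
    · rw [Function.update_of_ne (by omega)]
      exact hG i him
    · have : i = m := by omega
      subst this
      rw [Function.update_self]
      exact ⟨hz, hfar⟩
  have hget : ∀ (i : ℕ) (hi : i < ((List.range m).map x).length), ((List.range m).map x)[i] = x i := by
    intro i hi
    simp
  refine ⟨(List.range m).map x, ?_, ?_, ?_, ?_⟩
  · simp only [List.length_map, List.length_range]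
    exact hbd m ⟨x, hG⟩
  · intro y hy
    simp only [List.mem_map, List.mem_range] at hy
    obtain ⟨i, hi, rfl⟩ := hy
    exact (hG i hi).1.1
  · refine ⟨a, ha, rfl, fun i hi => ?_⟩
    have him : i < m := by simpa using hi
    rw [hget i hi]
    refine ⟨hinc _ (hG i him).1.1, fun j hj => ?_, hgate _ (hG i him).1.1⟩
    rw [hget j (hj.trans hi)]
    exact (hG j (hj.trans him)).2 _ (phY_mono hj.le (hG i him).1)
  · rintro e' ⟨a', ha', he', hreg'⟩ y hy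
    have hny : y ∉ phY I Y α α' x m := by rw [hempty]; exact Set.notMem_empty y
    have : ∃ j < m, ∀ a'' ∈ phR I α α' x j, I.M.wd y (I.E.w a'') ≤ I.M.wd (x j) (I.E.w a'') := by
      by_contra hcon
      push Not at hcon
      exact hny ⟨hy, hcon⟩
    obtain ⟨j, hj, h1⟩ := this
    have hj' : j < ((List.range m).map x).length := by simpa using hj
    obtain ⟨h2, h3, h4⟩ := hreg' j hj'
    rw [hget j hj'] at h2 h4
    rw [he']
    refine (h1 a' ⟨ha', fun i hi => ?_, h4⟩).trans h2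
    have h5 := h3 i hi
    rw [hget j hj', hget i (hi.trans hj')] at h5
    exact h5

end Pool.Agent.BTV
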