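import Pool.Agent.BTV.PH

/-! BTV PI: constant arms.

PROOF.  `α := cell (TwP t) a`, `α' := cell (TwP (t+1)) a ⊆ α` (`cell_mono`, `tow_mono`).  If
`a ∈ TwP (t+1)`: all legs pass `w a`: `hd_viaP`.  Otherwise `jseq` with `hno`: an output
`q ∈ JOut .. α` is in `OpP X α β` (any `β`, take the cell of `a`), so in `TwP (t+1)` (`tow_op`), and `α'`
contains no position of `TwP (t+1)` (`cell_not_mem`).  Region `RJ I α α' l`, decodable from the two
cells (`twP_dcd`) and the list of at most `2 ^ 2 ^ (2 k)` sites (`Dcd.list Dcd.site`).  `e = (w a, e.2)`. -/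

set_option autoImplicit false

open Classical

namespace Pool.Agent.BTV

open Pool.Agent.BTD Pool.Agent.H81.Balls

universe u

theorem hd_jump (g k s t : ℕ) : ∃ N : ℕ, ∀ (V : Type u) [Fintype V] (I : Inst g k s V),
    Hd I.M.inc N (fun X Y e => ∃ a b, e.1 = I.E.w a ∧ b ∉ I.E.cell (TwP I X t) a ∧
      ∀ x ∈ Y, Reg I.M I.E x.1 (I.E.w a) (some b) ∧
        ∀ y, I.M.Anc x.1 y (I.E.w a) → y ∉ I.E.Gt (I.E.cell (TwP I X t) a)) := by
  obtain ⟨N1, h1⟩ := hd_viaP.{u} g k s (t + 1)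
  obtain ⟨N2, h2⟩ := twP_dcd.{u} g k s t
  obtain ⟨N3, h3⟩ := twP_dcd.{u} g k s (t + 1)
  refine ⟨N1 + bd (bd N2 N3) (ld 1 (2 ^ 2 ^ (2 * k))), fun V _ I => ?_⟩
  have hD := ((((h2 V I).2).pair ((h3 V I).2)).pair
    ((Dcd.site (P := V × ℕ)).list (2 ^ 2 ^ (2 * k)))).map
      (fun z => RJ I z.1.1 z.1.2 z.2)
  have hB : Hd I.M.inc (bd (bd N2 N3) (ld 1 (2 ^ 2 ^ (2 * k)))) (fun X Y e =>
      ∃ a b, e.1 = I.E.w a ∧ b ∉ I.E.cell (TwP I X t) a ∧ a ∉ TwP I X (t + 1) ∧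
      ∀ x ∈ Y, Reg I.M I.E x.1 (I.E.w a) (some b) ∧
        ∀ y, I.M.Anc x.1 y (I.E.w a) → y ∉ I.E.Gt (I.E.cell (TwP I X t) a)) := by
    refine ⟨_, hD, ?_⟩
    intro X Y e hYX hinc hC
    obtain ⟨a, b, hea, hb, haT, hY⟩ := hC
    have hno : ∀ xi ∈ X, ∀ xj ∈ X, ∀ xm ∈ X,
        ∀ q ∈ JOut I xm xj (RedP I xm xj) (BlP I xi xj xm) (I.E.cell (TwP I X t) a),
        q ∉ I.E.cell (TwP I X (t + 1)) a := by
      intro xi hxi xj hxj xm hxm q hq hq'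
      have hq2 : q ∈ OpP I X (I.E.cell (TwP I X t) a) (I.E.cell (TwP I X t) a) :=
        Or.inr (Or.inr (Or.inr (Or.inr ⟨xi, hxi, xj, hxj, xm, hxm, hq⟩)))
      exact cell_not_mem haT hq' (tow_op I.E (OpP I) X a a q hq2)
    obtain ⟨l, hl, hlY, hmem, hall⟩ := jseq I hYX (cell_itv (TwP I X t) a)
      (cell_itv (TwP I X (t + 1)) a) (cell_mono (tow_mono I.E (OpP I) X (Nat.le_succ t)) a)
      cell_self hb (σ := e.2)
      (fun x hx => by
        have := hinc x hx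
        rw [LMet.inc_iff, hea] at this
        exact this)
      (fun x hx => (hY x hx).1) (fun x hx => (hY x hx).2) hno
    refine ⟨_, ⟨((I.E.cell (TwP I X t) a, I.E.cell (TwP I X (t + 1)) a), l),
      ⟨⟨⟨a, rfl⟩, ⟨a, rfl⟩⟩, hl, fun x hx => hYX (hlY x hx)⟩, rfl⟩, ?_, ?_⟩
    · have : e = (I.E.w a, e.2) := by rw [← hea]
      rw [this]
      exact hmem
    · intro e' he' x hx
      exact hall e' he' x hx
  refine ((h1 V I).or hB).weaken le_rfl ?_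
  rintro X Y e - - ⟨a, b, hea, hb, hY⟩
  by_cases haT : a ∈ TwP I X (t + 1)
  · refine Or.inl ⟨a, haT, fun x _ => ?_⟩
    rw [hea]
    exact LMet.anc_refl
  · exact Or.inr ⟨a, b, hea, hb, haT, hY⟩

end Pool.Agent.BTV
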