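import Pool.Agent.BTV.PI
import Pool.Agent.BTV.PG

/-! BTV PJ: exit arms with tails leaving.

PROOF.  For `x ∈ Y` choose `a_x`, `b_x`, `f_x`.  `Arm I (w p) x α' (w a_x) b_x` with `α' := cell (TwP t) p`
from `Exit`.  `strip_count` (`c = w p` is a vortex vertex): the set of the `b_x` has at most
`NC * (4 k + 2)` elements; by `arm_start` (and `w_inj`) `a_x` is determined by `b_x`.
`Hd.labelSet` with the label `b_x`.  For one class `Y_b` (nonempty), with `a`: all its sites pass `w a`: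
`hd_shift` with the target `e' := (w a, e.2 - D)`, `D := (D (w p) (w a)).toNat` (finite by `D_anc`):
`wd x (w a) + D = wd x (w p) ≤ e.2` (`wd_anc`); and `hd_jump` at the level `t` for the class: `a ∈ α'`, so
`cell (TwP t) a = α'` (`cell_eq`), `b ∉ α'`; the leg of `w a` is part of the leg of `w p`, so it avoids
the gates.
All bounds are functions of `g, k, s, t`. -/

set_option autoImplicit false

open Classical

namespace Pool.Agent.BTV

open Pool.Agent.BTD Pool.Agent.H81.Balls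

universe u

theorem hd_const (g k s t : ℕ) : ∃ N : ℕ, ∀ (V : Type u) [Fintype V] (I : Inst g k s V), UG I.M →
    Hd I.M.inc N (fun X Y e => ∃ (p : Fin I.E.n) (β : Set (Fin I.E.n)), e.1 = I.E.w p ∧ I.E.Itv β ∧
      Disjoint (I.E.cell (TwP I X t) p) β ∧
      ∀ x ∈ Y, (∀ y, I.M.Anc x.1 y (I.E.w p) → y ∉ I.E.Gt (I.E.cell (TwP I X t) p)) ∧
        ∃ a b, Exit I.M I.E x.1 (I.E.w p) (I.E.cell (TwP I X t) p) a (some b) ∧ b ∈ β ∧
          ∃ f, I.M.Anc x.1 (I.E.w f) (I.E.w b) ∧ f ∉ I.E.cell (TwP I X t) p ∧ f ∉ β) := by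
  obtain ⟨N1, h1⟩ := hd_jump.{u} g k s t
  refine ⟨ld N1 (NC.{u} g k s * (4 * k + 2)), fun V _ I hU => ?_⟩
  refine ((hd_shift (h1 V I)).labelSet (T := Fin I.E.n) (NC.{u} g k s * (4 * k + 2))).weaken le_rfl ?_
  intro X Y e hYX hinc hc
  obtain ⟨p, β, hep, hβ, hdis, hY⟩ := hc
  have : Nonempty (Fin I.E.n) := ⟨p⟩
  choose! a b hab using fun x hx => (hY x hx).2
  have hle : ∀ x ∈ Y, I.M.wd x (I.E.w p) ≤ e.2 := fun x hx => by
    have := LMet.inc_iff.1 (hinc x hx)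
    rwa [hep] at this
  have hD : ∀ x ∈ Y, I.M.D (I.E.w p) x.1 ≠ ⊤ := fun x hx h => by
    have h2 := hle x hx
    unfold LMet.wd at h2
    rw [h, top_add] at h2
    exact absurd (top_le_iff.1 h2) (ENat.natCast_ne_top _)
  have harm : ∀ x ∈ Y, Arm I (I.E.w p) x (I.E.cell (TwP I X t) p) (I.E.w (a x)) (b x) := fun x hx => by
    obtain ⟨⟨e1, e2, e3, e4, e5⟩, -, -⟩ := hab x hx
    exact ⟨e1, e3, Or.inr ⟨a x, e2, rfl⟩, e5, e4 (b x) rfl⟩
  refine ⟨b, Set.toFinite _, strip_count I hU (cell_itv (TwP I X t) p) hβ hdis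
    (fun h => absurd ⟨p, rfl⟩ h) Y hD (fun x => I.E.w (a x)) b harm (fun x hx => (hab x hx).2.1)
    (fun x hx => (hab x hx).2.2), ?_⟩
  rintro b0 ⟨x0, hx0, hb0⟩
  have hb : ∀ x ∈ {x ∈ Y | b x = b0}, a x = a x0 := by
    rintro x ⟨hx, hxb⟩
    refine I.E.w_inj _ _ (arm_start I hU (hD x hx) (hD x0 hx0) (b := b0)
      (α' := I.E.cell (TwP I X t) p) ?_ ?_)
    · have := harm x hx
      rwa [hxb] at this
    · have := harm x0 hx0
      rwa [hb0] at this
  have hanc : ∀ x ∈ {x ∈ Y | b x = b0}, I.M.Anc x.1 (I.E.w (a x0)) (I.E.w p) := fun x hx => by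
    have := (hab x hx.1).1.1
    rwa [hb x hx] at this
  have hx0' : x0 ∈ {x ∈ Y | b x = b0} := ⟨hx0, hb0⟩
  have hDa : I.M.D (I.E.w p) (I.E.w (a x0)) ≠ ⊤ := CDe_ne_top (hD x0 hx0) (hanc x0 hx0')
  obtain ⟨n, hn⟩ := ENat.ne_top_iff_exists.1 hDa
  have hwd : ∀ x ∈ {x ∈ Y | b x = b0}, (n : ℕ∞) + I.M.wd x (I.E.w (a x0)) ≤ e.2 := fun x hx => by
    have h2 := hle x hx.1
    rwa [wd_anc (hD x hx.1) (hanc x hx), ← hn] at h2
  have hne : n ≤ e.2 := by
    have h2 := le_trans le_self_add (hwd x0 hx0')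
    exact_mod_cast h2
  have hcell : I.E.cell (TwP I X t) (a x0) = I.E.cell (TwP I X t) p := cell_eq (hab x0 hx0).1.2.1
  refine ⟨(I.E.w (a x0), e.2 - n), ?_, fun x hx => ?_, a x0, b0, rfl, ?_, fun x hx => ⟨?_, ?_⟩⟩
  · rw [hep, ← hn]
    have : n + (e.2 - n) ≤ e.2 := by omega
    exact_mod_cast this
  · rw [LMet.inc_iff]
    have h2 := hwd x hx
    have h3 : ((n : ℕ∞) + I.M.wd x (I.E.w (a x0))) ≤ (n : ℕ∞) + ((e.2 - n : ℕ) : ℕ∞) := by
      refine h2.trans (le_of_eq ?_)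
      have : e.2 = n + (e.2 - n) := by omega
      exact_mod_cast this
    exact (ENat.add_le_add_iff_left (ENat.natCast_ne_top n)).1 h3
  · rw [hcell]
    have := (hab x0 hx0).1.2.2.2.1 (b x0) rfl
    rwa [hb0] at this
  · have := (hab x hx.1).1.2.2.1
    rwa [hb x hx, hx.2] at this
  · rw [hcell]
    intro y hy
    refine (hY x hx.1).1 y ?_
    exact LMet.anc_trans hy (hanc x hx)

end Pool.Agent.BTV
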