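import Pool.Agent.BTV.PJ
import Pool.Agent.BTV.PC

/-! BTV PK: vortex targets, the two classes of exits.

Notation: `α i := cell (TwP i) p` for `i = 2, 3`; `p ∉ TwP 3`, so both are gaps; `α 3 ⊆ α 2`.  No site
vertex `x.1` (`x ∈ X`) is `w q` with `q ∈ α 2` (`twP_site`, `cell_not_mem`).
Condition `CV`: `e.1 = w p`; for all `x ∈ Y` the leg avoids `Gt (α 2)` and `Gt (α 3)` and there is
`Exit x.1 (w p) (α 3) a_x e_x`.

PROOF of `hdV_J` (`e_x` leaves `α 2`).  `Y = ∅` trivial.  `x₁ ∈ Y` farthest at `w p` (`exists_far`), `a₁`,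
`e₁` its exit.
 Class 1: `{x | ∀ b, e_x = some b → ∀ b₁, e₁ = some b₁ → b ∉ cell (TwP 2) b₁}`: `hd_Ts` with `t = 2`.
 Class 2: the others: `e₁ = some b₁`, `e_x = some b_x`, `b_x ∈ β := cell (TwP 2) b₁`; `β` is disjoint from
 `α 2 ⊇ α 3` (`cell_disj`).  If `b₁ ∈ TwP 2`: `β = {b₁}`, all legs pass `w b₁`: `hd_viaP`.
 Otherwise: 2a: there is `f` with `w f` on the leg of `w b_x`, `f ∉ α 3`, `f ∉ β`: `hd_const` (`t = 3`).
 2b: all vortex vertices on the leg of `w b_x` are in `α 3 ∪ β`.  `x.1` is planar (if `x.1 = w q` then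
 `w q` is on the leg of `w b_x`, `q ∈ α 3` or `q ∈ β`, gaps: impossible by `twP_site`).
 `lastV`: `w p'` on the leg of `w b_x` with `Reg x.1 (w p') none`, `p' ∈ α 3` or `p' ∈ β`: two classes,
 `hd_T1` with `t + 1 = 3` and `p`, resp. `t + 1 = 2` and `b₁`.
PROOF of `hdV_K` (`e_x = some b_x`, `b_x ∈ α 2`, `b_x ∉ α 3`).  a: there is `f ∉ α 2` with `w f` on the leg
of `w b_x`: two classes `b_x < p`, `p < b_x`; `hd_const` (`t = 3`) with `β := {q ∈ α 2 | q ∉ α 3, q < p}`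
resp. `p < q` (intervals, as `α 2` and `α 3` are intervals containing `p`).
b: all vortex vertices on the leg of `w b_x` are in `α 2`: `x.1` planar, `lastV`, `hd_T1` (`t + 1 = 2`).
Use `Hd.inter` / `Hd.or` / `Hd.weaken` to combine. -/

set_option autoImplicit false

open Classical

namespace Pool.Agent.BTV

open Pool.Agent.BTD Pool.Agent.H81.Balls

universe u

/-- common condition for vortex targets -/
def CV {V : Type u} [Fintype V] {g k s : ℕ} (I : Inst g k s V) (X Y : Set (V × ℕ)) (e : V × ℕ)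
    (p : Fin I.E.n) (Q : Option (Fin I.E.n) → Prop) : Prop :=
  e.1 = I.E.w p ∧ p ∉ TwP I X 3 ∧ ∀ x ∈ Y,
    (∀ y, I.M.Anc x.1 y (I.E.w p) → y ∉ I.E.Gt (I.E.cell (TwP I X 2) p)) ∧
    (∀ y, I.M.Anc x.1 y (I.E.w p) → y ∉ I.E.Gt (I.E.cell (TwP I X 3) p)) ∧
    ∃ a e', Exit I.M I.E x.1 (I.E.w p) (I.E.cell (TwP I X 3) p) a e' ∧ Q e'

section

variable {V : Type u} [Fintype V] {g k s : ℕ} (I : Inst g k s V)

lemma PK_reg_anc {q v : V} {b : Fin I.E.n} (h : Reg I.M I.E q v (some b)) : I.M.Anc q (I.E.w b) v :=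
  uu_anc (uu_end h)

lemma PK_exit_anc {q v : V} {α : Set (Fin I.E.n)} {a b : Fin I.E.n} (h : Exit I.M I.E q v α a (some b)) :
    I.M.Anc q (I.E.w b) v := LMet.anc_trans (PK_reg_anc I h.2.2.1) h.1

lemma PK_exit_top {q v : V} {α : Set (Fin I.E.n)} {a b : Fin I.E.n} (h : Exit I.M I.E q v α a (some b)) :
    I.M.D (I.E.w b) q ≠ ⊤ := LMet.Anc.ne_top (PK_reg_anc I h.2.2.1) (reg_ne_top h.2.2.1)

lemma PK_sub (X : Set (V × ℕ)) {t t' : ℕ} (h : t ≤ t') (p : Fin I.E.n) :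
    I.E.cell (TwP I X t') p ⊆ I.E.cell (TwP I X t) p := cell_mono (tow_mono I.E (OpP I) X h) p

/-- no site vertex lies in a gap -/
lemma PK_planar {X : Set (V × ℕ)} {x : V × ℕ} (hx : x ∈ X) {q p : Fin I.E.n} {t : ℕ}
    (hp : p ∉ TwP I X (t + 1)) (hq : q ∈ I.E.cell (TwP I X (t + 1)) p) (h : I.E.w q = x.1) : False :=
  cell_not_mem hp hq (twP_site I hx h t)

/-- the sides of a smaller cell in a larger cell -/
lemma PK_itv_lt {α α' : Set (Fin I.E.n)} (h : I.E.Itv α) (h' : I.E.Itv α') {p : Fin I.E.n} (hp : p ∈ α') :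
    I.E.Itv {q | q ∈ α ∧ q ∉ α' ∧ q < p} := by
  refine ⟨fun a ha b hb => h.1 a ha.1 b hb.1, ?_⟩
  intro a q b ha hb haq hqb
  refine ⟨h.2 a q b ha.1 hb.1 haq hqb, ?_, lt_of_le_of_lt hqb hb.2.2⟩
  intro hq
  exact hb.2.1 (h'.2 q b p hq hp hqb hb.2.2.le)

lemma PK_itv_gt {α α' : Set (Fin I.E.n)} (h : I.E.Itv α) (h' : I.E.Itv α') {p : Fin I.E.n} (hp : p ∈ α') :
    I.E.Itv {q | q ∈ α ∧ q ∉ α' ∧ p < q} := by
  refine ⟨fun a ha b hb => h.1 a ha.1 b hb.1, ?_⟩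
  intro a q b ha hb haq hqb
  refine ⟨h.2 a q b ha.1 hb.1 haq hqb, ?_, lt_of_lt_of_le ha.2.2 haq⟩
  intro hq
  exact ha.2.1 (h'.2 p a q hp hq ha.2.2.le haq)

end

theorem hdV_J (g k s : ℕ) : ∃ N : ℕ, ∀ (V : Type u) [Fintype V] (I : Inst g k s V), UG I.M →
    Hd I.M.inc N (fun X Y e => ∃ p, CV I X Y e p (fun e' => ∀ b, e' = some b →
      b ∉ I.E.cell (TwP I X 2) p)) := by
  obtain ⟨N1, h1⟩ := hd_Ts.{u} g k s 2
  obtain ⟨N2, h2⟩ := hd_viaP.{u} g k s 2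
  obtain ⟨N3, h3⟩ := hd_const.{u} g k s 3
  obtain ⟨N4, h4⟩ := hd_T1.{u} g k s 2
  obtain ⟨N5, h5⟩ := hd_T1.{u} g k s 1
  refine ⟨1 + bd N1 (1 + (N2 + bd N3 (bd N4 N5))), fun V _ I hU => ?_⟩
  refine (Hd.or Hd.empty (Hd.inter (h1 V I) (Hd.or Hd.empty (Hd.or (h2 V I)
    (Hd.inter (h3 V I hU) (Hd.inter (h4 V I) (h5 V I))))))).weaken le_rfl ?_
  rintro X Y e hYX hinc ⟨p, he, hp3, hY⟩
  rcases Y.eq_empty_or_nonempty with hemp | hne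
  · exact Or.inl hemp
  right
  obtain ⟨x₁, hx₁, hfar⟩ := exists_far (M := I.M) (c := e.1) (ρ := e.2) hne
    (fun x hx => LMet.inc_iff.1 (hinc x hx))
  obtain ⟨-, -, a₁, e₁, hE₁, hQ₁⟩ := hY x₁ hx₁
  refine ⟨{x ∈ Y | ∃ a e', Exit I.M I.E x.1 (I.E.w p) (I.E.cell (TwP I X 3) p) a e' ∧
      ∀ b, e' = some b → b ∉ I.E.cell (TwP I X 2) p ∧ ∀ b₁, e₁ = some b₁ → b ∉ I.E.cell (TwP I X 2) b₁},
    {x ∈ Y | ∃ a b b₁, Exit I.M I.E x.1 (I.E.w p) (I.E.cell (TwP I X 3) p) a (some b) ∧ e₁ = some b₁ ∧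
      b ∈ I.E.cell (TwP I X 2) b₁}, ?_, fun x hx => hx.1, fun x hx => hx.1, ?_, ?_⟩
  · intro x hx
    obtain ⟨-, -, a, e', hE, hQ⟩ := hY x hx
    by_cases hc : ∀ b, e' = some b → ∀ b₁, e₁ = some b₁ → b ∉ I.E.cell (TwP I X 2) b₁
    · exact Or.inl ⟨hx, a, e', hE, fun b hb => ⟨hQ b hb, hc b hb⟩⟩
    · push Not at hc
      obtain ⟨b, hb, b₁, hb₁, hbb⟩ := hc
      subst hb
      exact Or.inr ⟨hx, a, b, b₁, hE, hb₁, hbb⟩
  · refine ⟨p, x₁, a₁, e₁, hYX hx₁, hinc x₁ hx₁, fun x hx => hfar x hx.1, hE₁.2.1, ?_, hE₁.2.2.1, hQ₁, ?_⟩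
    · rw [he]
      exact hE₁.1
    · rintro x ⟨hx, a, e', hE, hQ⟩
      refine ⟨a, hE.2.1, e', ?_, hE.2.2.1, hQ⟩
      rw [he]
      exact hE.1
  · cases hb₁ : e₁ with
    | none =>
      left
      rw [Set.eq_empty_iff_forall_notMem]
      rintro x ⟨-, a, b, b₁, -, h, -⟩
      cases h
    | some b₁ =>
      right
      have hb₁2 : b₁ ∉ I.E.cell (TwP I X 2) p := hQ₁ b₁ hb₁
      have hdis : Disjoint (I.E.cell (TwP I X 2) p) (I.E.cell (TwP I X 2) b₁) := cell_disj hb₁2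
      have hsub := PK_sub I X (show 2 ≤ 3 by omega) p
      by_cases hT : b₁ ∈ TwP I X 2
      · left
        refine ⟨b₁, hT, ?_⟩
        rintro x ⟨hx, a, b, b', hE, hb', hbb⟩
        obtain rfl := Option.some.inj hb'
        rw [cell_sing hT] at hbb
        obtain rfl : b = b₁ := hbb
        rw [he]
        exact PK_exit_anc I hE
      right
      refine ⟨{x ∈ Y | ∃ a b, Exit I.M I.E x.1 (I.E.w p) (I.E.cell (TwP I X 3) p) a (some b) ∧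
          b ∈ I.E.cell (TwP I X 2) b₁ ∧ ∃ f, I.M.Anc x.1 (I.E.w f) (I.E.w b) ∧
            f ∉ I.E.cell (TwP I X 3) p ∧ f ∉ I.E.cell (TwP I X 2) b₁} ∩
          {x ∈ Y | ∃ a b b₁', Exit I.M I.E x.1 (I.E.w p) (I.E.cell (TwP I X 3) p) a (some b) ∧
            some b₁ = some b₁' ∧ b ∈ I.E.cell (TwP I X 2) b₁'},
        {x ∈ Y | ∃ a b, Exit I.M I.E x.1 (I.E.w p) (I.E.cell (TwP I X 3) p) a (some b) ∧
          b ∈ I.E.cell (TwP I X 2) b₁ ∧ ∀ f, I.M.Anc x.1 (I.E.w f) (I.E.w b) →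
            f ∈ I.E.cell (TwP I X 3) p ∨ f ∈ I.E.cell (TwP I X 2) b₁} ∩
          {x ∈ Y | ∃ a b b₁', Exit I.M I.E x.1 (I.E.w p) (I.E.cell (TwP I X 3) p) a (some b) ∧
            some b₁ = some b₁' ∧ b ∈ I.E.cell (TwP I X 2) b₁'}, ?_, fun x hx => hx.2, fun x hx => hx.2, ?_, ?_⟩
      · intro x hx
        obtain ⟨hxY, a, b, b', hE, hb', hbb⟩ := id hx
        obtain rfl := Option.some.inj hb'
        by_cases hc : ∃ f, I.M.Anc x.1 (I.E.w f) (I.E.w b) ∧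
            f ∉ I.E.cell (TwP I X 3) p ∧ f ∉ I.E.cell (TwP I X 2) b₁
        · exact Or.inl ⟨⟨hxY, a, b, hE, hbb, hc⟩, hx⟩
        · refine Or.inr ⟨⟨hxY, a, b, hE, hbb, fun f hf => ?_⟩, hx⟩
          by_contra hcon
          exact hc ⟨f, hf, fun h => hcon (Or.inl h), fun h => hcon (Or.inr h)⟩
      · refine ⟨p, I.E.cell (TwP I X 2) b₁, he, cell_itv _ _, Set.disjoint_of_subset_left hsub hdis, ?_⟩
        rintro x ⟨⟨hxY, hx⟩, -⟩
        exact ⟨(hY x hxY).2.1, hx⟩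
      · have key : ∀ x ∈ Y, (∃ a b, Exit I.M I.E x.1 (I.E.w p) (I.E.cell (TwP I X 3) p) a (some b) ∧
            b ∈ I.E.cell (TwP I X 2) b₁ ∧ ∀ f, I.M.Anc x.1 (I.E.w f) (I.E.w b) →
            f ∈ I.E.cell (TwP I X 3) p ∨ f ∈ I.E.cell (TwP I X 2) b₁) →
            ∃ p', I.M.Anc x.1 (I.E.w p') e.1 ∧ Reg I.M I.E x.1 (I.E.w p') none ∧
              (p' ∈ I.E.cell (TwP I X 3) p ∨ p' ∈ I.E.cell (TwP I X 2) b₁) := by
          rintro x hx ⟨a, b, hE, hbb, hall⟩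
          have hD := PK_exit_top I hE
          have hpl : ¬ I.E.IsV x.1 := by
            rintro ⟨q, hq⟩
            have h6 : I.M.Anc x.1 (I.E.w q) (I.E.w b) := by
              rw [hq]
              exact LMet.anc_root hD
            rcases hall q h6 with h7 | h7
            · exact PK_planar I (hYX hx) (t := 2) hp3 h7 hq
            · exact PK_planar I (hYX hx) (t := 1) hT h7 hq
          obtain ⟨p', h6, h7⟩ := lastV hD hpl (p := b) LMet.anc_refl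
          refine ⟨p', ?_, h7, hall p' h6⟩
          rw [he]
          exact LMet.anc_trans h6 (PK_exit_anc I hE)
        refine ⟨{x ∈ Y | ∃ p' ∈ I.E.cell (TwP I X 3) p, I.M.Anc x.1 (I.E.w p') e.1 ∧
            Reg I.M I.E x.1 (I.E.w p') none} ∩ {x ∈ Y | ∃ a b, Exit I.M I.E x.1 (I.E.w p)
              (I.E.cell (TwP I X 3) p) a (some b) ∧ b ∈ I.E.cell (TwP I X 2) b₁ ∧
              ∀ f, I.M.Anc x.1 (I.E.w f) (I.E.w b) →
              f ∈ I.E.cell (TwP I X 3) p ∨ f ∈ I.E.cell (TwP I X 2) b₁} ∩ {x ∈ Y | ∃ a b b₁', Exit I.M I.E x.1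
              (I.E.w p) (I.E.cell (TwP I X 3) p) a (some b) ∧ some b₁ = some b₁' ∧ b ∈ I.E.cell (TwP I X 2) b₁'},
          {x ∈ Y | ∃ p' ∈ I.E.cell (TwP I X 2) b₁, I.M.Anc x.1 (I.E.w p') e.1 ∧
            Reg I.M I.E x.1 (I.E.w p') none} ∩ {x ∈ Y | ∃ a b, Exit I.M I.E x.1 (I.E.w p)
              (I.E.cell (TwP I X 3) p) a (some b) ∧ b ∈ I.E.cell (TwP I X 2) b₁ ∧
              ∀ f, I.M.Anc x.1 (I.E.w f) (I.E.w b) →
              f ∈ I.E.cell (TwP I X 3) p ∨ f ∈ I.E.cell (TwP I X 2) b₁} ∩ {x ∈ Y | ∃ a b b₁', Exit I.M I.E x.1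
              (I.E.w p) (I.E.cell (TwP I X 3) p) a (some b) ∧ some b₁ = some b₁' ∧ b ∈ I.E.cell (TwP I X 2) b₁'},
          ?_, fun x hx => ⟨hx.1.2, hx.2⟩, fun x hx => ⟨hx.1.2, hx.2⟩, ?_, ?_⟩
        · intro x hx
          obtain ⟨p', h6, h7, h8 | h8⟩ := key x hx.1.1 hx.1.2
          · exact Or.inl ⟨⟨⟨hx.1.1, p', h8, h6, h7⟩, hx.1⟩, hx.2⟩
          · exact Or.inr ⟨⟨⟨hx.1.1, p', h8, h6, h7⟩, hx.1⟩, hx.2⟩
        · exact ⟨p, fun x hx => hx.1.1.2⟩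
        · exact ⟨b₁, fun x hx => hx.1.1.2⟩

theorem hdV_K (g k s : ℕ) : ∃ N : ℕ, ∀ (V : Type u) [Fintype V] (I : Inst g k s V), UG I.M →
    Hd I.M.inc N (fun X Y e => ∃ p, CV I X Y e p (fun e' => ∃ b, e' = some b ∧
      b ∈ I.E.cell (TwP I X 2) p)) := by
  obtain ⟨N3, h3⟩ := hd_const.{u} g k s 3
  obtain ⟨N5, h5⟩ := hd_T1.{u} g k s 1
  refine ⟨bd N3 (bd N3 N5), fun V _ I hU => ?_⟩
  refine (Hd.inter (h3 V I hU) (Hd.inter (h3 V I hU) (h5 V I))).weaken le_rfl ?_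
  rintro X Y e hYX hinc ⟨p, he, hp3, hY⟩
  have hsub := PK_sub I X (show 2 ≤ 3 by omega) p
  have hp2 : p ∉ TwP I X 2 := fun h => hp3 (tow_mono I.E (OpP I) X (show 2 ≤ 3 by omega) h)
  have hI2 : I.E.Itv (I.E.cell (TwP I X 2) p) := cell_itv _ _
  have hI3 : I.E.Itv (I.E.cell (TwP I X 3) p) := cell_itv _ _
  have hpp : p ∈ I.E.cell (TwP I X 3) p := cell_self
  -- the three classes
  let Y1 : Set (V × ℕ) := {x ∈ Y | ∃ a b, Exit I.M I.E x.1 (I.E.w p) (I.E.cell (TwP I X 3) p) a (some b) ∧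
    (b ∈ I.E.cell (TwP I X 2) p ∧ b ∉ I.E.cell (TwP I X 3) p ∧ b < p) ∧
    ∃ f, I.M.Anc x.1 (I.E.w f) (I.E.w b) ∧ f ∉ I.E.cell (TwP I X 2) p}
  let Y2 : Set (V × ℕ) := {x ∈ Y | ∃ a b, Exit I.M I.E x.1 (I.E.w p) (I.E.cell (TwP I X 3) p) a (some b) ∧
    (b ∈ I.E.cell (TwP I X 2) p ∧ b ∉ I.E.cell (TwP I X 3) p ∧ p < b) ∧
    ∃ f, I.M.Anc x.1 (I.E.w f) (I.E.w b) ∧ f ∉ I.E.cell (TwP I X 2) p}
  let Y3 : Set (V × ℕ) := {x ∈ Y | ∃ a b, Exit I.M I.E x.1 (I.E.w p) (I.E.cell (TwP I X 3) p) a (some b) ∧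
    ∀ f, I.M.Anc x.1 (I.E.w f) (I.E.w b) → f ∈ I.E.cell (TwP I X 2) p}
  refine ⟨Y1, Y2 ∪ Y3, ?_, fun x hx => hx.1, ?_, ?_, ?_⟩
  · intro x hx
    obtain ⟨-, -, a, e', hE, b, rfl, hb⟩ := hY x hx
    have hb3 : b ∉ I.E.cell (TwP I X 3) p := hE.2.2.2.1 b rfl
    by_cases hc : ∃ f, I.M.Anc x.1 (I.E.w f) (I.E.w b) ∧ f ∉ I.E.cell (TwP I X 2) p
    · rcases lt_trichotomy b p with h | h | h
      · exact Or.inl ⟨hx, a, b, hE, ⟨hb, hb3, h⟩, hc⟩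
      · subst h
        exact absurd hpp hb3
      · exact Or.inr (Or.inl ⟨hx, a, b, hE, ⟨hb, hb3, h⟩, hc⟩)
    · refine Or.inr (Or.inr ⟨hx, a, b, hE, fun f hf => ?_⟩)
      by_contra hcon
      exact hc ⟨f, hf, hcon⟩
  · rintro x (hx | hx)
    · exact hx.1
    · exact hx.1
  · refine ⟨p, {q | q ∈ I.E.cell (TwP I X 2) p ∧ q ∉ I.E.cell (TwP I X 3) p ∧ q < p}, he,
      PK_itv_lt I hI2 hI3 hpp, ?_, ?_⟩
    · rw [Set.disjoint_left]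
      intro q hq hq'
      exact hq'.2.1 hq
    · rintro x ⟨hx, a, b, hE, hb, f, hf, hf2⟩
      exact ⟨(hY x hx).2.1, a, b, hE, hb, f, hf, fun h => hf2 (hsub h), fun h => hf2 h.1⟩
  · refine ⟨Y2, Y3, fun x hx => hx, fun x hx => Or.inl hx, fun x hx => Or.inr hx, ?_, ?_⟩
    · refine ⟨p, {q | q ∈ I.E.cell (TwP I X 2) p ∧ q ∉ I.E.cell (TwP I X 3) p ∧ p < q}, he,
        PK_itv_gt I hI2 hI3 hpp, ?_, ?_⟩
      · rw [Set.disjoint_left]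
        intro q hq hq'
        exact hq'.2.1 hq
      · rintro x ⟨hx, a, b, hE, hb, f, hf, hf2⟩
        exact ⟨(hY x hx).2.1, a, b, hE, hb, f, hf, fun h => hf2 (hsub h), fun h => hf2 h.1⟩
    · refine ⟨p, ?_⟩
      rintro x ⟨hx, a, b, hE, hall⟩
      have hD := PK_exit_top I hE
      have hpl : ¬ I.E.IsV x.1 := by
        rintro ⟨q, hq⟩
        have h6 : I.M.Anc x.1 (I.E.w q) (I.E.w b) := by
          rw [hq]
          exact LMet.anc_root hD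
        exact PK_planar I (hYX hx) (t := 1) hp2 (hall q h6) hq
      obtain ⟨p', h6, h7⟩ := lastV hD hpl (p := b) LMet.anc_refl
      refine ⟨p', hall p' h6, ?_, h7⟩
      rw [he]
      exact LMet.anc_trans h6 (PK_exit_anc I hE)

end Pool.Agent.BTV
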