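import Pool.Agent.BTV.PK

/-! BTV PL: vortex targets (D+).

PROOF.  `e.1 = w p`.  If `p ∈ TwP 3`: all legs pass `w p` (`anc_refl`): `hd_viaP`.  Otherwise classes
(`Hd.inter` three times): (1) legs meeting `Gt (cell (TwP 2) p)`, (2) legs meeting
`Gt (cell (TwP 3) p)`: `hd_gateP`.  (3) the others have an exit from `cell (TwP 3) p`
(`exists_exitV`; `w q ≠ x.1` for `q` in the cell by `twP_site`, `cell_not_mem`; `D ≠ ⊤` since the site is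
covered): those whose exit is `some b` with `b ∈ cell (TwP 2) p`: `hdV_K`; the rest: `hdV_J`. -/

set_option autoImplicit false

open Classical

namespace Pool.Agent.BTV

open Pool.Agent.BTD Pool.Agent.H81.Balls

universe u

theorem hdV (g k s : ℕ) : ∃ N : ℕ, ∀ (V : Type u) [Fintype V] (I : Inst g k s V), UG I.M →
    Hd I.M.inc N (fun _ _ e => I.E.IsV e.1) := by
  obtain ⟨N1, h1⟩ := hd_viaP.{u} g k s 3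
  obtain ⟨N2, h2⟩ := hd_gateP.{u} g k s 2
  obtain ⟨N3, h3⟩ := hd_gateP.{u} g k s 3
  obtain ⟨N4, h4⟩ := hdV_K.{u} g k s
  obtain ⟨N5, h5⟩ := hdV_J.{u} g k s
  refine ⟨N1 + bd N2 (bd N3 (bd N4 N5)), fun V _ I hU => Hd.weaken (Hd.or (h1 V I)
    (Hd.inter (h2 V I) (Hd.inter (h3 V I) (Hd.inter (h4 V I hU) (h5 V I hU))))) le_rfl ?_⟩
  rintro X Y e hYX hinc ⟨p, hp⟩
  by_cases hpT : p ∈ TwP I X 3
  · exact Or.inl ⟨p, hpT, fun x _ => ⟨0, hp.symm⟩⟩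
  refine Or.inr ⟨{x ∈ Y | ∃ z ∈ I.E.Gt (I.E.cell (TwP I X 2) p), I.M.Anc x.1 z e.1},
    {x ∈ Y | ¬ ∃ z ∈ I.E.Gt (I.E.cell (TwP I X 2) p), I.M.Anc x.1 z e.1}, ?_,
    fun x hx => hx.1, fun x hx => hx.1, ⟨p, fun x hx => hx.2⟩, ?_⟩
  · intro x hx
    by_cases h : ∃ z ∈ I.E.Gt (I.E.cell (TwP I X 2) p), I.M.Anc x.1 z e.1
    · exact Or.inl ⟨hx, h⟩
    · exact Or.inr ⟨hx, h⟩
  refine ⟨{x ∈ Y | (¬ ∃ z ∈ I.E.Gt (I.E.cell (TwP I X 2) p), I.M.Anc x.1 z e.1) ∧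
      ∃ z ∈ I.E.Gt (I.E.cell (TwP I X 3) p), I.M.Anc x.1 z e.1},
    {x ∈ Y | (¬ ∃ z ∈ I.E.Gt (I.E.cell (TwP I X 2) p), I.M.Anc x.1 z e.1) ∧
      ¬ ∃ z ∈ I.E.Gt (I.E.cell (TwP I X 3) p), I.M.Anc x.1 z e.1}, ?_,
    fun x hx => ⟨hx.1, hx.2.1⟩, fun x hx => ⟨hx.1, hx.2.1⟩, ⟨p, fun x hx => hx.2.2⟩, ?_⟩
  · intro x hx
    by_cases h : ∃ z ∈ I.E.Gt (I.E.cell (TwP I X 3) p), I.M.Anc x.1 z e.1
    · exact Or.inl ⟨hx.1, hx.2, h⟩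
    · exact Or.inr ⟨hx.1, hx.2, h⟩
  have gates : ∀ x : V × ℕ, (¬ ∃ z ∈ I.E.Gt (I.E.cell (TwP I X 2) p), I.M.Anc x.1 z e.1) →
      (¬ ∃ z ∈ I.E.Gt (I.E.cell (TwP I X 3) p), I.M.Anc x.1 z e.1) →
      (∀ y, I.M.Anc x.1 y (I.E.w p) → y ∉ I.E.Gt (I.E.cell (TwP I X 2) p)) ∧
      (∀ y, I.M.Anc x.1 y (I.E.w p) → y ∉ I.E.Gt (I.E.cell (TwP I X 3) p)) := by
    intro x h2 h3
    refine ⟨fun y hy hg => h2 ⟨y, hg, ?_⟩, fun y hy hg => h3 ⟨y, hg, ?_⟩⟩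
    · rw [← hp]; exact hy
    · rw [← hp]; exact hy
  refine ⟨{x : V × ℕ | (x ∈ Y ∧ (¬ ∃ z ∈ I.E.Gt (I.E.cell (TwP I X 2) p), I.M.Anc x.1 z e.1) ∧
      ¬ ∃ z ∈ I.E.Gt (I.E.cell (TwP I X 3) p), I.M.Anc x.1 z e.1) ∧
      ∃ a b, Exit I.M I.E x.1 (I.E.w p) (I.E.cell (TwP I X 3) p) a (some b) ∧
        b ∈ I.E.cell (TwP I X 2) p},
    {x : V × ℕ | (x ∈ Y ∧ (¬ ∃ z ∈ I.E.Gt (I.E.cell (TwP I X 2) p), I.M.Anc x.1 z e.1) ∧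
      ¬ ∃ z ∈ I.E.Gt (I.E.cell (TwP I X 3) p), I.M.Anc x.1 z e.1) ∧
      ¬ ∃ a b, Exit I.M I.E x.1 (I.E.w p) (I.E.cell (TwP I X 3) p) a (some b) ∧
        b ∈ I.E.cell (TwP I X 2) p}, ?_, fun x hx => hx.1, fun x hx => hx.1, ?_, ?_⟩
  · intro x hx
    by_cases h : ∃ a b, Exit I.M I.E x.1 (I.E.w p) (I.E.cell (TwP I X 3) p) a (some b) ∧
        b ∈ I.E.cell (TwP I X 2) p
    · exact Or.inl ⟨hx, h⟩
    · exact Or.inr ⟨hx, h⟩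
  · refine ⟨p, hp.symm, hpT, fun x hx => ?_⟩
    obtain ⟨⟨_, h2, h3⟩, a, b, hE, hb⟩ := hx
    exact ⟨(gates x h2 h3).1, (gates x h2 h3).2, a, some b, hE, b, rfl, hb⟩
  · refine ⟨p, hp.symm, hpT, fun x hx => ?_⟩
    obtain ⟨⟨hxY, h2, h3⟩, hno⟩ := hx
    have hD : I.M.D (I.E.w p) x.1 ≠ ⊤ := by
      intro htop
      have h4 : I.M.wd x e.1 ≤ (e.2 : ℕ∞) := hinc x hxY
      rw [LMet.wd, ← hp, htop, top_add] at h4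
      exact absurd h4 (by simp)
    obtain ⟨a, e', hE⟩ := exists_exitV (M := I.M) (cell_itv (TwP I X 3) p)
      (a := p) (Or.inl rfl) hD (gates x h2 h3).2
      (fun q hq h => cell_not_mem hpT hq (twP_site I (hYX hxY) h 2))
    refine ⟨(gates x h2 h3).1, (gates x h2 h3).2, a, e', hE, fun b hb hmem => ?_⟩
    subst hb
    exact hno ⟨a, b, hE, hmem⟩

end Pool.Agent.BTV
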