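import Pool.Agent.BTV.LA
import Pool.Agent.BTV.CDe
import Pool.Agent.BTD.COb

/-! BTV PM: sites with free legs (no vortex vertex): the embedded core theorem.

PROOF.  `Λ : ℕ` with `Λ ≥ 1` and `D v q ≤ Λ` for all `v, q` with `D v q ≠ ⊤` (`V` finite).
`M̂ := pathMet I.E.Ga len̂ _`, `len̂ (inl a) (inl b) := M.len a b` if `G.Adj a b`, `a`, `b` planar;
`len̂ := Λ` otherwise.
(1) `Free q v → M̂.D (inl v) (inl q) ≤ M.D v q`: induction on `(D v q).toNat` along the leg: `v ≠ q`:
`v`, `par q v` planar and `G`-adjacent, so `H`-adjacent (`hadj_par`, planar vertices are in no bag),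
`M̂.D_le`.
(2) `M.D v q ≠ ⊤ → M.D v q ≤ M̂.D (inl v) (inl q)`: for every walk in `Ga` from `inl v` to `inl q`: if it
uses an edge of length `Λ` by the second rule, its length is `≥ Λ`; otherwise all its edges are
`inl a - inl b` with `G.Adj a b` and the length `M.len a b`: length `≥ M.D v q` by `D_le` (induction).
(Induction on the walk: `min Λ (M.D v q) ≤ wlen`, for `inr` end points there is nothing to show except
`Λ ≤`; statement: for a walk from `x` to `inl q`: if `x = inl v` then `M.D v q ≤ wlen ∨ Λ ≤ wlen`,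
if `x = inr _` then `Λ ≤ wlen` (its first edge has length `Λ`).)
`cert_embedded_core g` for `Ga`, `I.A.S`, `I.A.genus`, `M̂`, `s = true`, and `dcd_of_cert`: regions `Rĝ`
for sites of `Ga`.  For `X`, `Y ≠ ∅`, `e`: `Ŷ := {(inl x.1, x.2) | x ∈ Y}`, `ê := (inl e.1, e.2)`, covered
by (1).  `Rg X reg := ∃ reĝ r, Rĝ {(inl x.1, x.2) | x ∈ Y'} reĝ` for some `Y' ⊆ X`, `r ∈ X`,
`reg = {e' | (inl e'.1, e'.2) ∈ reĝ ∧ M.D e'.1 r.1 ≠ ⊤}`: decodable: a hint `(inl q, o)` of `reĝ` comes
from the hint `(q, o) ∈ Y' ⊆ X`.  `e' ∈ reg`, `x ∈ Y`: `M̂.D (inl e'.1) (inl x.1) + x.2 ≤ e'.2`, and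
`M.D e'.1 x.1 ≠ ⊤` (`e'.1 ~ r.1 ~ e.1 ~ x.1` reachable in `G`: `LMet.ne_top_iff`), so (2). -/

set_option autoImplicit false

open Classical

namespace Pool.Agent.BTV

open Pool.Agent.BTD Pool.Agent.H81.Balls

universe u

/-- the lengths on the auxiliary graph -/
noncomputable def fLen {V : Type u} {G : SimpleGraph V} (M : LMet G) (E : NE V) (L : ℕ) :
    V ⊕ Fin E.n → V ⊕ Fin E.n → ℕ
  | .inl a, .inl b => if G.Adj a b then M.len a b else L
  | .inl _, .inr _ => L
  | .inr _, .inl _ => L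
  | .inr _, .inr _ => L

lemma fLen_pos {V : Type u} {G : SimpleGraph V} (M : LMet G) (E : NE V) {L : ℕ} (hL : 0 < L)
    (v w : V ⊕ Fin E.n) : 0 < fLen M E L v w := by
  rcases v with a | a <;> rcases w with b | b
  · simp only [fLen]
    split_ifs with h
    · exact M.len_pos a b h
    · exact hL
  · exact hL
  · exact hL
  · exact hL

/-- the metric on the auxiliary graph -/
noncomputable def fMet {V : Type u} {G : SimpleGraph V} (M : LMet G) (E : NE V) {L : ℕ}
    (hL : 0 < L) : LMet E.Ga :=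
  pathMet E.Ga (fLen M E L) (fun v w _ => fLen_pos M E hL v w)

lemma exists_boundD {V : Type u} [Finite V] {G : SimpleGraph V} (M : LMet G) :
    ∃ L : ℕ, 0 < L ∧ ∀ v q, M.D v q ≠ ⊤ → M.D v q ≤ L := by
  obtain ⟨B, hB⟩ : ∃ B : ℕ, ∀ p : V × V, (M.D p.1 p.2).toNat ≤ B := by
    have hf : (Set.range (fun p : V × V => (M.D p.1 p.2).toNat)).Finite :=
      Set.finite_range _
    obtain ⟨B, hB⟩ := hf.bddAbove
    exact ⟨B, fun p => hB ⟨p, rfl⟩⟩
  refine ⟨B + 1, by omega, ?_⟩
  intro v q h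
  rw [← ENat.natCast_toNat h]
  have := hB (v, q)
  exact_mod_cast Nat.le_succ_of_le this

/-- (1) -/
lemma fMet_le {V : Type u} {G : SimpleGraph V} {M : LMet G} {E : NE V} (hfit : E.Fits G) {L : ℕ}
    (hL : 0 < L) {q : V} :
    ∀ (n : ℕ) (v : V), Free M E q v → (M.D v q).toNat ≤ n →
      (fMet M E hL).D (.inl v) (.inl q) ≤ M.D v q := by
  intro n
  induction n with
  | zero =>
    intro v hv hn
    by_cases hvq : v = q
    · subst hvq
      rw [(fMet M E hL).D_self]
      exact bot_le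
    · have := LMet.toNat_par_lt hvq hv.1
      omega
  | succ n ih =>
    intro v hv hn
    by_cases hvq : v = q
    · subst hvq
      rw [(fMet M E hL).D_self]
      exact bot_le
    · have h1 := LMet.toNat_par_lt hvq hv.1
      have hvV : ¬ E.IsV v := hv.2 v LMet.anc_refl
      have hst : ¬ E.VSt v (M.par q v) := fun h => hvV (vst_isV h).1
      have hH : E.H.Adj v (M.par q v) := hadj_par hfit hv.1 hvq hst
      have hG : G.Adj v (M.par q v) := LMet.par_adj hvq hv.1
      have h2 := ih (M.par q v) (free_anc hv LMet.anc_par) (by omega)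
      have h3 := (fMet M E hL).D_le (.inl v) (.inl (M.par q v)) (.inl q) hH
      have h4 : (fMet M E hL).len (.inl v) (.inl (M.par q v)) = M.len v (M.par q v) := by
        change fLen M E L (.inl v) (.inl (M.par q v)) = _
        simp only [fLen]
        rw [if_pos hG]
      rw [h4] at h3
      rw [LMet.par_D hvq hv.1]
      exact h3.trans (add_le_add le_rfl h2)

/-- (2) for walks -/
lemma wlen_fLen {V : Type u} {G : SimpleGraph V} {M : LMet G} {E : NE V} {L : ℕ} (q : V) :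
    ∀ {x y : V ⊕ Fin E.n} (p : E.Ga.Walk x y), y = .inl q →
      (∀ v, x = .inl v → M.D v q ≤ wlen (fun a b => (fLen M E L a b : ℕ∞)) p ∨
        (L : ℕ∞) ≤ wlen (fun a b => (fLen M E L a b : ℕ∞)) p) ∧
      (∀ j, x = .inr j → (L : ℕ∞) ≤ wlen (fun a b => (fLen M E L a b : ℕ∞)) p) := by
  intro x y p
  induction p with
  | nil =>
    intro hy
    subst hy
    refine ⟨?_, ?_⟩
    · intro v hv
      left
      rw [Sum.inl.inj hv, M.D_self]
      exact bot_le
    · intro j hj
      exact absurd hj (by simp)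
  | @cons a b c hadj p ih =>
    intro hy
    have ih' := ih hy
    rcases a with a | a
    · refine ⟨?_, fun j hj => absurd hj (by simp)⟩
      intro v hv
      have hav : a = v := Sum.inl.inj hv
      subst hav
      rcases b with b | b
      · by_cases hG : G.Adj a b
        · have h1 : fLen M E L (.inl a) (.inl b) = M.len a b := by
            simp only [fLen]
            rw [if_pos hG]
          simp only [wlen]
          rw [h1]
          rcases ih'.1 b rfl with h | h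
          · left
            exact (M.D_le a b q hG).trans (add_le_add le_rfl h)
          · right
            exact h.trans le_add_self
        · right
          have h1 : fLen M E L (.inl a) (.inl b) = L := by
            simp only [fLen]
            rw [if_neg hG]
          simp only [wlen]
          rw [h1]
          exact le_self_add
      · right
        exact le_self_add
    · refine ⟨fun v hv => absurd hv (by simp), ?_⟩
      intro j hj
      rcases b with b | b
      · exact le_self_add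
      · exact le_self_add

/-- (2) -/
lemma le_fMet {V : Type u} {G : SimpleGraph V} {M : LMet G} {E : NE V} {L : ℕ} (hL : 0 < L)
    (hB : ∀ v q, M.D v q ≠ ⊤ → M.D v q ≤ L) {v q : V} (h : M.D v q ≠ ⊤) :
    M.D v q ≤ (fMet M E hL).D (.inl v) (.inl q) := by
  apply le_iInf
  intro p
  rcases (wlen_fLen (M := M) (L := L) q p rfl).1 v rfl with h1 | h1
  · exact h1
  · exact (hB v q h).trans h1

/-- decoding sites of the auxiliary graph -/
lemma dcd_inl {V : Type u} {E : NE V} {Z : Type*} {N : ℕ} {R : Set ((V ⊕ Fin E.n) × ℕ) → Z → Prop}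
    (h : Dcd N R) : Dcd N (fun (X : Set (V × ℕ)) z => ∃ Y' ⊆ X,
      R ((fun x : V × ℕ => ((Sum.inl x.1 : V ⊕ Fin E.n), x.2)) '' Y') z) := by
  obtain ⟨dec, hdec⟩ := h
  refine ⟨fun hh t => dec (fun i => (hh i).map
    (fun x : V × ℕ => ((Sum.inl x.1 : V ⊕ Fin E.n), x.2))) t, ?_⟩
  rintro X z ⟨Y', hY, hz⟩
  obtain ⟨hh, t, h1, h2⟩ := hdec _ z hz
  have hex : ∀ i, ∃ o : Option (V × ℕ), (∀ x, o = some x → x ∈ X) ∧
      o.map (fun x : V × ℕ => ((Sum.inl x.1 : V ⊕ Fin E.n), x.2)) = hh i := by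
    intro i
    rcases hi : hh i with _ | x
    · exact ⟨none, by simp, rfl⟩
    · obtain ⟨y, hy, hyx⟩ := h1 i x hi
      refine ⟨some y, ?_, ?_⟩
      · intro x' hx'
        rw [← Option.some.inj hx']
        exact hY hy
      · rw [← hyx]
        rfl
  choose o ho1 ho2 using hex
  refine ⟨o, t, ho1, ?_⟩
  have : (fun i => (o i).map (fun x : V × ℕ => ((Sum.inl x.1 : V ⊕ Fin E.n), x.2))) = hh := by
    funext i
    exact ho2 i
  simp only [this]
  exact h2

lemma hd_free_ne (g k s : ℕ) : ∃ N : ℕ, ∀ (V : Type u) [Fintype V] (I : Inst g k s V),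
    Hd I.M.inc N (fun _ Y e => Y.Nonempty ∧ ∀ x ∈ Y, Free I.M I.E x.1 e.1) := by
  obtain ⟨N0, hN0⟩ := cert_embedded_core.{u} g
  refine ⟨bd N0 1, ?_⟩
  intro V _ I
  obtain ⟨L, hL, hB⟩ := exists_boundD I.M
  obtain ⟨Rg, hRg, hcov⟩ := dcd_of_cert
    (hN0 true (V ⊕ Fin I.E.n) I.E.Ga I.A.S I.A.genus (fMet I.M I.E hL))
  have hD := (Dcd.pair (dcd_inl hRg) (Dcd.site (P := V × ℕ))).map
    (fun z : Set ((V ⊕ Fin I.E.n) × ℕ) × (V × ℕ) =>
      {e' : V × ℕ | ((Sum.inl e'.1 : V ⊕ Fin I.E.n), e'.2) ∈ z.1 ∧ I.M.D e'.1 z.2.1 ≠ ⊤})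
  refine ⟨_, hD, ?_⟩
  rintro X Y e hYX hcovY ⟨⟨r, hr⟩, hfree⟩
  obtain ⟨reg, hreg, hereg, hall⟩ := hcov
    ((fun x : V × ℕ => ((Sum.inl x.1 : V ⊕ Fin I.E.n), x.2)) '' Y) (Sum.inl e.1, e.2) (by
      rintro _ ⟨x, hx, rfl⟩
      have h1 := fMet_le I.fits hL _ e.1 (hfree x hx) le_rfl
      have h2 : I.M.D e.1 x.1 + x.2 ≤ e.2 := hcovY x hx
      exact (add_le_add h1 le_rfl).trans h2)
  refine ⟨_, ⟨(reg, r), ⟨⟨Y, hYX, hreg⟩, hYX hr⟩, rfl⟩, ?_, ?_⟩
  · exact ⟨hereg, (hfree r hr).1⟩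
  · rintro e' ⟨h1, h2⟩ x hx
    have h3 := hall _ h1 _ ⟨x, hx, rfl⟩
    have hne : I.M.D e'.1 x.1 ≠ ⊤ := by
      rw [LMet.ne_top_iff]
      have a1 := LMet.ne_top_iff.mp h2
      have a2 := LMet.ne_top_iff.mp (hfree r hr).1
      have a3 := LMet.ne_top_iff.mp (hfree x hx).1
      exact a1.trans (a2.symm.trans a3)
    have h4 := le_fMet (E := I.E) hL hB hne
    exact (add_le_add h4 le_rfl).trans h3

theorem hd_free (g k s : ℕ) : ∃ N : ℕ, ∀ (V : Type u) [Fintype V] (I : Inst g k s V),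
    Hd I.M.inc N (fun _ Y e => ∀ x ∈ Y, Free I.M I.E x.1 e.1) := by
  obtain ⟨N, hN⟩ := hd_free_ne.{u} g k s
  refine ⟨N + 1, ?_⟩
  intro V _ I
  refine ((hN V I).or Hd.empty).weaken le_rfl ?_
  intro X Y e _ _ h
  rcases Set.eq_empty_or_nonempty Y with h1 | h1
  · exact Or.inr h1
  · exact Or.inl ⟨h1, h⟩

end Pool.Agent.BTV
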