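import Pool.Agent.BTV.PL

/-! BTV PN: planar targets, landings in one interval.

PROOF of `hd_tail`: `c := e.1` planar.  For `x ∈ Y`: `Arm I c x ∅ c ℓ_x` (`reg_of_land`; there is no vortex
vertex at or before `c` on the leg: `Anc x c (w p)` and `Anc x (w p) c` gives `w p = c`, `anc_antisymm`).
`strip_count` with `α' = ∅` (`Itv ∅`): at most `NC * (4 k + 2)` landings.  `Hd.labelSet` by the landing
`ℓ`; for one class: all legs pass `w ℓ` (`land_anc`): `hd_shift` with the target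
`(w ℓ, e.2 - (D c (w ℓ)).toNat)` (`wd_anc`), and `hdV`.
PROOF of `hd_land`: `β := cell (TwP (t+1)) μ`.  If `μ ∈ TwP (t+1)`: `β = {μ}`: `hd_viaP`.  Otherwise: a: there
is `f ∉ β` with `w f` on the leg of `w ℓ_x`: `hd_tail`.  b: all vortex vertices on the leg are in `β`:
`x.1` is planar (`twP_site`, `cell_not_mem`), `lastV` gives the last one, in `β`: `hd_T1`.  (The vortex
vertices on the leg of `e.1` are those on the leg of `w ℓ_x`: `land_first`.) -/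

set_option autoImplicit false

open Classical

namespace Pool.Agent.BTV

open Pool.Agent.BTD Pool.Agent.H81.Balls

universe u

private lemma pn_inc_top {V : Type u} {G : SimpleGraph V} {M : LMet G} {e x : V × ℕ} (h : M.inc e x) :
    M.D e.1 x.1 ≠ ⊤ := by
  intro h0
  have h1 : M.D e.1 x.1 + x.2 ≤ e.2 := h
  rw [h0, top_add] at h1
  exact absurd (top_le_iff.mp h1) (ENat.natCast_ne_top _)

theorem hd_tail (g k s : ℕ) : ∃ N : ℕ, ∀ (V : Type u) [Fintype V] (I : Inst g k s V), UG I.M →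
    Hd I.M.inc N (fun _ Y e => ¬ I.E.IsV e.1 ∧ ∃ β, I.E.Itv β ∧ ∀ x ∈ Y, ∃ l ∈ β,
      Land I.M I.E x.1 e.1 l ∧ ∃ f, f ∉ β ∧ I.M.Anc x.1 (I.E.w f) (I.E.w l)) := by
  obtain ⟨NV, hV⟩ := hdV.{u} g k s
  refine ⟨ld NV (NC.{u} g k s * (4 * k + 2)), fun V _ I hU => ?_⟩
  refine Hd.weaken ((hd_shift (hV V I hU)).labelSet (T := Option (Fin I.E.n))
    (NC.{u} g k s * (4 * k + 2))) le_rfl ?_
  rintro X Y e hYX hinc ⟨hc, β, hβ, hY⟩
  rcases Y.eq_empty_or_nonempty with rfl | ⟨x0, hx0⟩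
  · refine ⟨fun _ => none, ?_, ?_, ?_⟩
    · have : {t : Option (Fin I.E.n) | ∃ x ∈ (∅ : Set (V × ℕ)), (none : Option (Fin I.E.n)) = t} = ∅ := by
        ext t
        simp
      rw [this]
      exact Set.finite_empty
    · have : {t : Option (Fin I.E.n) | ∃ x ∈ (∅ : Set (V × ℕ)), (none : Option (Fin I.E.n)) = t} = ∅ := by
        ext t
        simp
      rw [this, Set.ncard_empty]
      exact Nat.zero_le _
    · rintro t ⟨x, hx, -⟩
      exact absurd hx (Set.notMem_empty _)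
  obtain ⟨l0, -, -⟩ := hY x0 hx0
  have hch : ∀ x : V × ℕ, ∃ l : Fin I.E.n, x ∈ Y → (l ∈ β ∧ Land I.M I.E x.1 e.1 l ∧
      ∃ f, f ∉ β ∧ I.M.Anc x.1 (I.E.w f) (I.E.w l)) := by
    intro x
    by_cases hx : x ∈ Y
    · obtain ⟨l, h1, h2, h3⟩ := hY x hx
      exact ⟨l, fun _ => ⟨h1, h2, h3⟩⟩
    · exact ⟨l0, fun h => absurd h hx⟩
  choose b hb using hch
  have hcount := strip_count I hU (c := e.1) (α' := ∅) (β := β)
    ⟨fun p hp => absurd hp (Set.notMem_empty _), fun p q r hp => absurd hp (Set.notMem_empty _)⟩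
    hβ (Set.empty_disjoint _) (fun _ => rfl) Y (fun x hx => pn_inc_top (hinc x hx)) (fun _ => e.1) b
    (fun x hx => by
      have hD := pn_inc_top (hinc x hx)
      refine ⟨LMet.anc_refl, reg_of_land hc hD (hb x hx).2.1, Or.inl ⟨rfl, hc⟩, ?_, Set.notMem_empty _⟩
      intro p h1 h2
      exfalso
      apply hc
      have h3 : e.1 = I.E.w p := LMet.anc_antisymm hD h2 h1
      exact ⟨p, h3.symm⟩)
    (fun x hx => (hb x hx).1)
    (fun x hx => by
      obtain ⟨f, hf, hf'⟩ := (hb x hx).2.2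
      exact ⟨f, hf', Set.notMem_empty _, hf⟩)
  have himg : {t : Option (Fin I.E.n) | ∃ x ∈ Y, some (b x) = t} =
      some '' {p | ∃ x ∈ Y, b x = p} := by
    ext t
    constructor
    · rintro ⟨x, hx, rfl⟩
      exact ⟨b x, ⟨x, hx, rfl⟩, rfl⟩
    · rintro ⟨p, ⟨x, hx, rfl⟩, rfl⟩
      exact ⟨x, hx, rfl⟩
  refine ⟨fun x => some (b x), Set.toFinite _, ?_, ?_⟩
  · rw [himg]
    exact (Set.ncard_image_le (Set.toFinite _)).trans hcount
  · rintro t ⟨x1, hx1, rfl⟩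
    have hD1 := pn_inc_top (hinc x1 hx1)
    have hanc : ∀ x ∈ {x ∈ Y | some (b x) = some (b x1)}, I.M.Anc x.1 (I.E.w (b x1)) e.1 := by
      rintro x ⟨hx, hx'⟩
      have h1 : b x = b x1 := Option.some.inj hx'
      rw [← h1]
      exact land_anc (hb x hx).2.1
    have hwd : ∀ x ∈ {x ∈ Y | some (b x) = some (b x1)},
        I.M.D e.1 (I.E.w (b x1)) + I.M.wd x (I.E.w (b x1)) ≤ e.2 := by
      intro x hx
      rw [← wd_anc (pn_inc_top (hinc x hx.1)) (hanc x hx)]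
      exact hinc x hx.1
    have h1 := hwd x1 ⟨hx1, rfl⟩
    have hfin : I.M.D e.1 (I.E.w (b x1)) ≠ ⊤ := by
      intro h0
      rw [h0, top_add] at h1
      exact absurd (top_le_iff.mp h1) (ENat.natCast_ne_top _)
    obtain ⟨d, hd⟩ := ENat.ne_top_iff_exists.mp hfin
    rw [← hd] at h1
    have hde : d ≤ e.2 := by
      have h2 : ((d : ℕ) : ℕ∞) ≤ ((e.2 : ℕ) : ℕ∞) := le_trans le_self_add h1
      exact_mod_cast h2
    refine ⟨(I.E.w (b x1), e.2 - d), ?_, ?_, ?_⟩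
    · change I.M.D e.1 (I.E.w (b x1)) + ((e.2 - d : ℕ) : ℕ∞) ≤ ((e.2 : ℕ) : ℕ∞)
      rw [← hd]
      have h2 : d + (e.2 - d) ≤ e.2 := by omega
      exact_mod_cast h2
    · intro x hx
      have h2 := hwd x hx
      rw [← hd] at h2
      change I.M.wd x (I.E.w (b x1)) ≤ ((e.2 - d : ℕ) : ℕ∞)
      have h3 : I.M.wd x (I.E.w (b x1)) ≠ ⊤ := by
        intro h0
        rw [h0, add_top] at h2
        exact absurd (top_le_iff.mp h2) (ENat.natCast_ne_top _)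
      obtain ⟨m, hm⟩ := ENat.ne_top_iff_exists.mp h3
      rw [← hm] at h2 ⊢
      have h4 : d + m ≤ e.2 := by exact_mod_cast h2
      have h5 : m ≤ e.2 - d := by omega
      exact_mod_cast h5
    · exact ⟨b x1, rfl⟩

theorem hd_land (g k s t : ℕ) : ∃ N : ℕ, ∀ (V : Type u) [Fintype V] (I : Inst g k s V), UG I.M →
    Hd I.M.inc N (fun X Y e => ¬ I.E.IsV e.1 ∧ ∃ μ, ∀ x ∈ Y,
      ∃ l ∈ I.E.cell (TwP I X (t + 1)) μ, Land I.M I.E x.1 e.1 l) := by
  obtain ⟨N1, h1⟩ := hd_viaP.{u} g k s (t + 1)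
  obtain ⟨N2, h2⟩ := hd_tail.{u} g k s
  obtain ⟨N3, h3⟩ := hd_T1.{u} g k s t
  refine ⟨N1 + bd N2 N3, fun V _ I hU => ?_⟩
  refine Hd.weaken ((h1 V I).or ((h2 V I hU).inter (h3 V I))) le_rfl ?_
  rintro X Y e hYX hinc ⟨hc, μ, hY⟩
  by_cases hμ : μ ∈ TwP I X (t + 1)
  · left
    refine ⟨μ, hμ, ?_⟩
    intro x hx
    obtain ⟨l, hl, hl'⟩ := hY x hx
    rw [cell_sing hμ] at hl
    obtain rfl : l = μ := hl
    exact land_anc hl'
  · right
    refine ⟨{x ∈ Y | ∃ l ∈ I.E.cell (TwP I X (t + 1)) μ, Land I.M I.E x.1 e.1 l ∧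
        ∃ f, f ∉ I.E.cell (TwP I X (t + 1)) μ ∧ I.M.Anc x.1 (I.E.w f) (I.E.w l)},
      {x ∈ Y | ∃ l ∈ I.E.cell (TwP I X (t + 1)) μ, Land I.M I.E x.1 e.1 l ∧
        ∀ f, I.M.Anc x.1 (I.E.w f) (I.E.w l) → f ∈ I.E.cell (TwP I X (t + 1)) μ}, ?_,
      Set.sep_subset _ _, Set.sep_subset _ _, ?_, ?_⟩
    · intro x hx
      obtain ⟨l, hl, hl'⟩ := hY x hx
      by_cases hf : ∃ f, f ∉ I.E.cell (TwP I X (t + 1)) μ ∧ I.M.Anc x.1 (I.E.w f) (I.E.w l)
      · exact Or.inl ⟨hx, l, hl, hl', hf⟩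
      · refine Or.inr ⟨hx, l, hl, hl', ?_⟩
        intro f hf'
        by_contra h0
        exact hf ⟨f, h0, hf'⟩
    · refine ⟨hc, I.E.cell (TwP I X (t + 1)) μ, cell_itv _ _, ?_⟩
      rintro x ⟨hx, l, hl, hl', hf⟩
      exact ⟨l, hl, hl', hf⟩
    · refine ⟨μ, ?_⟩
      rintro x ⟨hx, l, hl, hl', hf⟩
      have hD := pn_inc_top (hinc x hx)
      have hanc := land_anc hl'
      have hDl : I.M.D (I.E.w l) x.1 ≠ ⊤ := by
        intro h0
        have h4 := D_anc hD hanc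
        rw [h0, add_top] at h4
        exact hD h4
      have hpl : ¬ I.E.IsV x.1 := by
        rintro ⟨q, hq⟩
        have h4 : I.M.Anc x.1 (I.E.w q) (I.E.w l) := by
          rw [hq]
          exact LMet.anc_root hDl
        exact cell_not_mem hμ (hf q h4) (twP_site I (hYX hx) hq t)
      obtain ⟨p', hp1, hp2⟩ := lastV hDl hpl (p := l) LMet.anc_refl
      exact ⟨p', hf p' hp1, LMet.anc_trans hp1 hanc, hp2⟩

end Pool.Agent.BTV
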