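import Pool.Agent.BTV.PF
import Pool.Agent.BTV.FB

/-! BTV PQ: alive vertices for the restricted metric.

`AL J B r x v`: in the restricted graph (vortex vertices only over `B`) the site `x` is at most as far
from `v` as `r` (in the full graph).
`killed_par`: `v ≠ r.1` (otherwise `par = v`): `v`, `v' := par r.1 v` planar and `G`-adjacent, so adjacent
in the restricted graph; `wd^B x v ≤ ln + wd^B x v'` (`D_le`), `wd r v = ln + wd r v'` (`par_D`), the same
`ln s(v, v')`.
`killed_up`: induction along the iterates (`PAnc`: all planar).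
`exists_exitAL`: follow the planar part of the leg of `c` towards `r.1`.  `A = some α`: the last planar
vertex before the landing has a vortex vertex as parent; `A = none`: the last vertex is `r.1`, which is
not alive.  Take the alive vertex with the largest iterate number (on the planar part); its parent is a
vortex vertex or not alive (`killed_up` is not needed).
`exit_unique`: `b`, `b'` comparable; if `b'` is a proper ancestor of `b` in the planar part then
`par b` is planar, so not alive (`KP`), so `b'` is not alive by `killed_up`.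
`al_leg`: `wd^B x v = D^B v y + wd^B x y` (`wd_anc`), `wd r v ≤ D v y + wd r y ≤ D^B v y + wd r y`
(`wd_tri`, `restr_le`), `D^B v y` finite. -/

set_option autoImplicit false

open Classical

namespace Pool.Agent.BTV

open Pool.Agent.BTD Pool.Agent.H81.Balls

universe u

variable {V : Type u} {g k s : ℕ}

/-- `x` is alive at `v` -/
def AL (J : LInst g k s V) (B : Set (Fin J.E.n)) (r x : V × ℕ) (v : V) : Prop :=
  (J.restr B).inst.M.wd x v ≤ J.inst.M.wd r v

/-- the parent of `v` is a vortex vertex or `x` is not alive there -/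
def KP (J : LInst g k s V) (B : Set (Fin J.E.n)) (r x : V × ℕ) (v : V) : Prop :=
  J.E.IsV (J.inst.M.par r.1 v) ∨ ¬ AL J B r x (J.inst.M.par r.1 v)

variable {J : LInst g k s V} {B : Set (Fin J.E.n)} {r x : V × ℕ}

lemma killed_par {v : V} (hv : ¬ J.E.IsV v) (hp : ¬ J.E.IsV (J.inst.M.par r.1 v))
    (hD : J.inst.M.D v r.1 ≠ ⊤) (h : ¬ AL J B r x v) : ¬ AL J B r x (J.inst.M.par r.1 v) := by
  intro h1
  apply h
  by_cases hvr : v = r.1
  · rw [hvr, LMet.par_root] at h1
    rw [hvr]
    exact h1
  · have hadj : J.G.Adj v (J.inst.M.par r.1 v) := LMet.par_adj (M := J.inst.M) hvr hD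
    have hadj' : (J.restr B).G.Adj v (J.inst.M.par r.1 v) :=
      ⟨hadj, fun p hp1 => absurd ⟨p, hp1⟩ hv, fun p hp1 => absurd ⟨p, hp1⟩ hp⟩
    have h2 : (J.restr B).inst.M.D v x.1 ≤ (J.ln s(v, J.inst.M.par r.1 v) : ℕ∞) +
        (J.restr B).inst.M.D (J.inst.M.par r.1 v) x.1 :=
      (J.restr B).inst.M.D_le v _ x.1 hadj'
    have h3 : J.inst.M.D v r.1 = (J.ln s(v, J.inst.M.par r.1 v) : ℕ∞) +
        J.inst.M.D (J.inst.M.par r.1 v) r.1 := LMet.par_D (M := J.inst.M) hvr hD
    unfold AL LMet.wd at h1 ⊢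
    rw [h3]
    calc (J.restr B).inst.M.D v x.1 + (x.2 : ℕ∞)
        ≤ ((J.ln s(v, J.inst.M.par r.1 v) : ℕ∞) +
          (J.restr B).inst.M.D (J.inst.M.par r.1 v) x.1) + x.2 := add_le_add h2 le_rfl
      _ = (J.ln s(v, J.inst.M.par r.1 v) : ℕ∞) +
          ((J.restr B).inst.M.D (J.inst.M.par r.1 v) x.1 + x.2) := add_assoc _ _ _
      _ ≤ (J.ln s(v, J.inst.M.par r.1 v) : ℕ∞) +
          (J.inst.M.D (J.inst.M.par r.1 v) r.1 + r.2) := add_le_add le_rfl h1
      _ = _ := (add_assoc _ _ _).symm

lemma killed_up {v a : V} (hD : J.inst.M.D v r.1 ≠ ⊤) (ha : PAnc J.inst.M J.E r.1 a v)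
    (h : ¬ AL J B r x v) : ¬ AL J B r x a := by
  obtain ⟨k, hk, hpl⟩ := ha
  induction k generalizing v with
  | zero =>
    have h1 : v = a := hk
    rw [← h1]
    exact h
  | succ k ih =>
    rw [Function.iterate_succ_apply] at hk
    refine ih (LMet.par_ne_top hD) ?_ hk ?_
    · exact killed_par (hpl 0 (by omega)) (by
        have h1 := hpl 1 (by omega)
        exact h1) hD h
    · intro j hj
      have h1 := hpl (j + 1) (by omega)
      rw [Function.iterate_succ_apply] at h1
      exact h1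

lemma panc_anc {q a v : V} (h : PAnc J.inst.M J.E q a v) : J.inst.M.Anc q a v := by
  obtain ⟨k, hk, -⟩ := h
  exact ⟨k, hk⟩

lemma panc_trans {q a b v : V} (h : PAnc J.inst.M J.E q a b) (h' : PAnc J.inst.M J.E q b v) :
    PAnc J.inst.M J.E q a v := by
  obtain ⟨k, hk, hp⟩ := h
  obtain ⟨l, hl, hp'⟩ := h'
  refine ⟨k + l, ?_, ?_⟩
  · rw [Function.iterate_add_apply, hl, hk]
  · intro j hj
    by_cases h1 : j ≤ l
    · exact hp' j h1
    · have h2 := hp (j - l) (by omega)
      have h3 : j = (j - l) + l := by omega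
      rw [h3, Function.iterate_add_apply, hl]
      exact h2

/-- a proper planar ancestor is a planar ancestor of the parent, which is planar -/
lemma panc_par {q a v : V} (h : PAnc J.inst.M J.E q a v) (hne : a ≠ v) :
    PAnc J.inst.M J.E q a (J.inst.M.par q v) ∧ ¬ J.E.IsV (J.inst.M.par q v) := by
  obtain ⟨k, hk, hp⟩ := h
  cases k with
  | zero => exact absurd hk.symm hne
  | succ k =>
    rw [Function.iterate_succ_apply] at hk
    refine ⟨⟨k, hk, ?_⟩, ?_⟩
    · intro j hj
      have h1 := hp (j + 1) (by omega)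
      rw [Function.iterate_succ_apply] at h1
      exact h1
    · exact hp 1 (by omega)

lemma panc_total {q a b v : V} (h : PAnc J.inst.M J.E q a v) (h' : PAnc J.inst.M J.E q b v) :
    PAnc J.inst.M J.E q a b ∨ PAnc J.inst.M J.E q b a := by
  obtain ⟨k, hk, hp⟩ := h
  obtain ⟨l, hl, hp'⟩ := h'
  rcases le_total k l with hkl | hkl
  · right
    refine ⟨l - k, ?_, ?_⟩
    · rw [← hk, ← Function.iterate_add_apply, Nat.sub_add_cancel hkl]
      exact hl
    · intro j hj
      rw [← hk, ← Function.iterate_add_apply]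
      exact hp' (j + k) (by omega)
  · left
    refine ⟨k - l, ?_, ?_⟩
    · rw [← hl, ← Function.iterate_add_apply, Nat.sub_add_cancel hkl]
      exact hk
    · intro j hj
      rw [← hl, ← Function.iterate_add_apply]
      exact hp (j + l) (by omega)

/-- planar ancestors stay in the planar part -/
lemma panc_pp {q a v : V} {A : Option (Set (Fin J.E.n))} (hv : v ∈ PP J.inst.M J.E q A)
    (h : PAnc J.inst.M J.E q a v) : a ∈ PP J.inst.M J.E q A := by
  obtain ⟨k, hk, hp⟩ := h
  cases A with
  | none => exact free_anc hv ⟨k, hk⟩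
  | some α =>
    obtain ⟨h1, h2, p, hpα, m, hm, hm'⟩ := hv
    have hkm : k < m := by
      by_contra hc
      exact hp m (by omega) ⟨p, hm.symm⟩
    refine ⟨?_, ?_, p, hpα, m - k, ?_, ?_⟩
    · rw [← hk]
      exact hp k le_rfl
    · rw [← hk]
      exact LMet.CAb_iter_ne_top h2 k
    · rw [← hk, ← Function.iterate_add_apply, Nat.sub_add_cancel hkm.le]
      exact hm
    · intro j hj
      rw [← hk, ← Function.iterate_add_apply]
      exact hm' (j + k) (by omega)

lemma exists_exitAL {A : Option (Set (Fin J.E.n))} {c : V} (hc : c ∈ PP J.inst.M J.E r.1 A)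
    (hal : AL J B r x c) (hr : A = none → ¬ AL J B r x r.1) :
    ∃ b, PAnc J.inst.M J.E r.1 b c ∧ AL J B r x b ∧ KP J B r x b := by
  have hend : ∃ m, (∀ j < m, ¬ J.E.IsV ((J.inst.M.par r.1)^[j] c)) ∧ 0 < m ∧
      (J.E.IsV ((J.inst.M.par r.1)^[m] c) ∨ ¬ AL J B r x ((J.inst.M.par r.1)^[m] c)) := by
    cases A with
    | none =>
      obtain ⟨hD, hF⟩ := hc
      obtain ⟨m, hm⟩ := LMet.anc_root hD
      have hnal := hr rfl
      refine ⟨m, fun j _ => hF _ ⟨j, rfl⟩, ?_, Or.inr ?_⟩
      · rcases Nat.eq_zero_or_pos m with h0 | h0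
        · subst h0
          have h1 : c = r.1 := hm
          rw [h1] at hal
          exact absurd hal hnal
        · exact h0
      · rw [hm]
        exact hnal
    | some α =>
      obtain ⟨h1, h2, p, hpα, m, hm, hm'⟩ := hc
      refine ⟨m, hm', ?_, Or.inl ⟨p, hm.symm⟩⟩
      rcases Nat.eq_zero_or_pos m with h0 | h0
      · subst h0
        exact absurd ⟨p, hm.symm⟩ h1
      · exact h0
  obtain ⟨m, hpl, hm0, hm⟩ := hend
  have hex : ∃ j, j + 1 = m ∨ ¬ AL J B r x ((J.inst.M.par r.1)^[j + 1] c) := ⟨m - 1, Or.inl (by omega)⟩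
  have hle : Nat.find hex ≤ m - 1 := Nat.find_le (Or.inl (by omega))
  have hlt : Nat.find hex < m := by omega
  refine ⟨(J.inst.M.par r.1)^[Nat.find hex] c, ⟨Nat.find hex, rfl, ?_⟩, ?_, ?_⟩
  · intro j hj
    exact hpl j (by omega)
  · rcases Nat.eq_zero_or_pos (Nat.find hex) with h0 | h0
    · rw [h0]
      exact hal
    · have h1 := Nat.find_min hex (show Nat.find hex - 1 < Nat.find hex by omega)
      by_contra h2
      apply h1
      right
      rw [Nat.sub_add_cancel h0]
      exact h2
  · have h2 : J.inst.M.par r.1 ((J.inst.M.par r.1)^[Nat.find hex] c) =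
        (J.inst.M.par r.1)^[Nat.find hex + 1] c :=
      (Function.iterate_succ_apply' (J.inst.M.par r.1) (Nat.find hex) c).symm
    unfold KP
    rw [h2]
    rcases Nat.find_spec hex with h1 | h1
    · rw [h1]
      exact hm
    · exact Or.inr h1

/-- strictly above an exit the site is not alive -/
lemma above_exit {u y : V} (hD : J.inst.M.D u r.1 ≠ ⊤) (hk : KP J B r x u)
    (hy : PAnc J.inst.M J.E r.1 y u) (hne : y ≠ u) : ¬ AL J B r x y := by
  obtain ⟨h1, h2⟩ := panc_par hy hne
  rcases hk with h3 | h3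
  · exact absurd h3 h2
  · exact killed_up (LMet.par_ne_top hD) h1 h3

lemma exit_unique {c b b' : V} (hD : J.inst.M.D c r.1 ≠ ⊤) (hb : PAnc J.inst.M J.E r.1 b c)
    (hb' : PAnc J.inst.M J.E r.1 b' c) (h : AL J B r x b) (h' : AL J B r x b')
    (hk : KP J B r x b) (hk' : KP J B r x b') : b = b' := by
  by_contra hne
  rcases panc_total hb hb' with h1 | h1
  · exact above_exit (LMet.Anc.ne_top (panc_anc hb') hD) hk' h1 hne h
  · exact above_exit (LMet.Anc.ne_top (panc_anc hb) hD) hk h1 (Ne.symm hne) h'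

lemma al_leg {v y : V} (hD : (J.restr B).inst.M.D v x.1 ≠ ⊤)
    (hy : (J.restr B).inst.M.Anc x.1 y v) (h : AL J B r x v) : AL J B r x y := by
  have h1 : (J.restr B).inst.M.wd x v = (J.restr B).inst.M.D v y + (J.restr B).inst.M.wd x y :=
    wd_anc hD hy
  have h2 : J.inst.M.wd r v ≤ J.inst.M.D v y + J.inst.M.wd r y := wd_tri r v y
  have h3 : J.inst.M.wd r v ≤ (J.restr B).inst.M.D v y + J.inst.M.wd r y :=
    h2.trans (add_le_add (restr_le J B v y) le_rfl)
  have h4 : (J.restr B).inst.M.D v y + (J.restr B).inst.M.wd x y ≤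
      (J.restr B).inst.M.D v y + J.inst.M.wd r y := by
    rw [← h1]
    exact le_trans h h3
  exact (ENat.add_le_add_iff_left (CDe_ne_top hD hy)).1 h4

end Pool.Agent.BTV
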