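import Pool.Agent.BTV.PQ
import Pool.Agent.BTV.NE

/-! BTV PR: change points between dead and good elements of the frontier.

`FR x L` = frontier elements of `x` over `A` whose leg to `x` in the restricted graph lands in `L`.
`vv i u` = `u` or its parent.  `GD i u`: `u ∈ FR s L₁`, and `a` is alive at `v := vv i u` (planar), not
farther than `s` there, with landing in `L₂`.
`Q1F` = the elements of `FR s L₁` where `a` is dead, `Q2F` = the exits of `a` above good elements.

PROOF of `cpF_bound`.  Write `AL_x v` for `AL J B r x v`, `M' := (J.restr B).inst.M`.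
`cp_bound_alt`, `B = 2 g + 3`: disjoint (`AL_a`), injective by `POrd.inj` (`rkP_spec`; elements of `Q2F` are in
`PP`: `panc_pp`, `u ∈ PP`, `vv i u ∈ PP`).  `POrd.alt` with
`N₀ := {v ∈ PP r.1 A | ¬ AL_s v ∧ ¬ AL_a v}`: closed (`killed_par`; at `r.1` the parent is `r.1`);
 `A = none → r.1 ∈ N₀` by `OKF.hs`, `ha` (if `PP` is nonempty then `r.1` is planar and free; if `PP = ∅`
 everything is empty);
`Z₁ := {y | ¬ IsV y ∧ AL_s y ∧ wd' s y < wd' a y ∧ InL M' s.1 L₁ y} ∪ {w p | p ∈ OA L₁}`, `B₁ := OA L₁`;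
`Z₂ := {y | ¬ IsV y ∧ AL_a y ∧ wd' a y ≤ wd' s y ∧ InL M' a.1 L₂ y} ∪ {y | ∃ u, GD i u ∧
 PAnc r.1 y (vv i u) ∧ y ≠ vv i u ∧ AL_a y} ∪ {w p | p ∈ OA L₂}`, `B₂ := OA L₂`.
Conn `Z₁`: along the `M'`-leg towards `s.1` (steps: `M'`-parent; edges of the restricted graph are edges of
`G`, with a planar end, so edges of `H`); the set is closed (`al_leg`, `lt_anc`, `inL_par`); `conn_zb` or
`conn_zb_none`.  Conn `Z₂`: first part likewise; second part: go down from `y` to `vv i u`: the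
vertices of the `r`-leg of `vv i u` between are alive for `a` (`killed_up` contraposed: alive at `y` above
implies alive below), planar, and strictly above `vv i u` until `vv i u`, which is in the first part.
Disjoint: `N₀`/`Z₁`: `AL_s`; `N₀`/`Z₂`: `AL_a`; `Z₁`/`Z₂`: planar: `wd' s < wd' a` versus `wd' a ≤ wd' s`, or
`AL_s y` versus `¬ AL_s y` for the second part: `y` is strictly above `vv i u`, so strictly above
`u` (`i = true`: `u ≠ par u` or `y` above), so dead for `s` (`above_exit`); vortex parts: `OKF.d..`, `w_inj`.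
`Q1F ⊆ Z₁`: `wd' s u ≤ wd r u < wd' a u`.  `Q2F ⊆ Z₂`: `t = vv i u`: first part; otherwise second.
Frontier: `u ∈ Q1F`: `KP s u`: the parent is a vortex vertex, or planar and dead for `s`, and dead for `a`
by `killed_par`.  `t ∈ Q2F`: `KP a t`; if the parent is planar: dead for `a`; dead for `s` since it is
strictly above `u` (`above_exit`; `D` strictly decreases along the leg; if the parent of `t` is `t`
itself then `t = r.1`, `A = none`, excluded by `OKF.ha`). -/

set_option autoImplicit false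

open Classical

namespace Pool.Agent.BTV

open Pool.Agent.BTD Pool.Agent.H81.Balls

universe u

variable {V : Type u} [Fintype V] {g k s : ℕ}

/-- frontier elements of `x` with landing in `L` -/
def FR (J : LInst g k s V) (B : Set (Fin J.E.n)) (A : Option (Set (Fin J.E.n))) (r x : V × ℕ)
    (L : Option (Set (Fin J.E.n))) : Set V :=
  {u | u ∈ PP J.inst.M J.E r.1 A ∧ AL J B r x u ∧ KP J B r x u ∧ InL (J.restr B).inst.M J.E x.1 L u}

noncomputable def vv (J : LInst g k s V) (r : V × ℕ) (i : Bool) (u : V) : V :=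
  if i then J.inst.M.par r.1 u else u

/-- good elements -/
def GD (J : LInst g k s V) (B : Set (Fin J.E.n)) (A : Option (Set (Fin J.E.n))) (r st a : V × ℕ)
    (L₁ L₂ : Option (Set (Fin J.E.n))) (i : Bool) (u : V) : Prop :=
  u ∈ FR J B A r st L₁ ∧ ¬ J.E.IsV (vv J r i u) ∧ AL J B r a (vv J r i u) ∧
    (J.restr B).inst.M.wd a (vv J r i u) ≤ (J.restr B).inst.M.wd st (vv J r i u) ∧
    InL (J.restr B).inst.M J.E a.1 L₂ (vv J r i u)

def Q1F (J : LInst g k s V) (B : Set (Fin J.E.n)) (A : Option (Set (Fin J.E.n))) (r st a : V × ℕ)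
    (L₁ : Option (Set (Fin J.E.n))) : Set V :=
  {u | u ∈ FR J B A r st L₁ ∧ ¬ AL J B r a u}

def Q2F (J : LInst g k s V) (B : Set (Fin J.E.n)) (A : Option (Set (Fin J.E.n))) (r st a : V × ℕ)
    (L₁ L₂ : Option (Set (Fin J.E.n))) (i : Bool) : Set V :=
  {t | ∃ u, GD J B A r st a L₁ L₂ i u ∧ PAnc J.inst.M J.E r.1 t (vv J r i u) ∧ AL J B r a t ∧
    KP J B r a t}

/-- admissible parameters -/
structure OKF (J : LInst g k s V) (B : Set (Fin J.E.n)) (A : Option (Set (Fin J.E.n)))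
    (r st a : V × ℕ) (L₁ L₂ : Option (Set (Fin J.E.n))) : Prop where
  iA : ∀ α, A = some α → J.E.Itv α
  i1 : ∀ α, L₁ = some α → J.E.Itv α
  i2 : ∀ α, L₂ = some α → J.E.Itv α
  d1 : Disjoint (OA A) (OA L₁)
  d2 : Disjoint (OA A) (OA L₂)
  d12 : Disjoint (OA L₁) (OA L₂)
  hs : A = none → ¬ AL J B r st r.1
  ha : A = none → ¬ AL J B r a r.1

def CPF (J : LInst g k s V) (B : Set (Fin J.E.n)) (A : Option (Set (Fin J.E.n))) (r st a : V × ℕ)
    (L₁ L₂ : Option (Set (Fin J.E.n))) (i : Bool) : Set V :=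
  CP (rkP J.inst r.1 A) (Q1F J B A r st a L₁) (Q2F J B A r st a L₁ L₂ i)

private lemma PR_chain_some (I : Inst g k s V) {q : V} {C : V → Prop} {Z : Set V}
    {Bs : Set (Fin I.E.n)} {p : Fin I.E.n} (hp : p ∈ Bs)
    (hC : ∀ z, I.M.D z q ≠ ⊤ → C z → C (I.M.par q z))
    (hZ1 : ∀ z, ¬ I.E.IsV z → C z → InL I.M I.E q (some Bs) z → z ∈ Z) (hZ2 : I.E.w p ∈ Z) :
    ∀ (m : ℕ) (z : V), C z → InL I.M I.E q (some Bs) z → (I.M.par q)^[m] z = I.E.w p →
      (∀ j < m, ¬ I.E.IsV ((I.M.par q)^[j] z)) →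
      Relation.ReflTransGen (fun a b => I.E.H.Adj a b ∧ b ∈ Z) z (I.E.w p) := by
  intro m
  induction m with
  | zero =>
    intro z _ _ h _
    rw [← h]
    exact .refl
  | succ m ih =>
    intro z hz hL h hj
    have hzV : ¬ I.E.IsV z := hj 0 (by omega)
    have hD : I.M.D z q ≠ ⊤ := hL.1
    have hzy : z ≠ q := by
      rintro rfl
      rw [LMet.CAb_iter_root] at h
      exact hzV ⟨p, h.symm⟩
    rw [Function.iterate_succ_apply] at h
    have hnear : C (I.M.par q z) := hC z hD hz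
    have hL' : InL I.M I.E q (some Bs) (I.M.par q z) := ((inL_par hzV hzy).mp hL).2
    have hj' : ∀ j < m, ¬ I.E.IsV ((I.M.par q)^[j] (I.M.par q z)) := by
      intro j hjm
      have := hj (j + 1) (by omega)
      rwa [Function.iterate_succ_apply] at this
    have hmem : I.M.par q z ∈ Z := by
      by_cases hV : I.E.IsV (I.M.par q z)
      · have hm0 : m = 0 := by
          by_contra hm
          exact hj' 0 (by omega) hV
        subst hm0
        have h2 : I.M.par q z = I.E.w p := h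
        rw [h2]
        exact hZ2
      · exact hZ1 _ hV hnear hL'
    have hadj : I.E.H.Adj z (I.M.par q z) := hadj_par I.fits hD hzy (fun hc => hzV (vst_isV hc).1)
    exact Relation.ReflTransGen.head ⟨hadj, hmem⟩ (ih _ hnear hL' h hj')

private lemma PR_chain_none (I : Inst g k s V) {q : V} {C : V → Prop} {Z : Set V}
    (hC : ∀ z, I.M.D z q ≠ ⊤ → C z → C (I.M.par q z))
    (hZ1 : ∀ z, ¬ I.E.IsV z → C z → Free I.M I.E q z → z ∈ Z) :
    ∀ (m : ℕ) (z : V), C z → Free I.M I.E q z → (I.M.par q)^[m] z = q →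
      Relation.ReflTransGen (fun a b => I.E.H.Adj a b ∧ b ∈ Z) z q := by
  intro m
  induction m with
  | zero =>
    intro z _ _ h
    have h' : z = q := h
    rw [h']
  | succ m ih =>
    intro z hz hL h
    by_cases hzy : z = q
    · rw [hzy]
    have hzV : ¬ I.E.IsV z := hL.2 z LMet.anc_refl
    rw [Function.iterate_succ_apply] at h
    have hnear : C (I.M.par q z) := hC z hL.1 hz
    have hL' : Free I.M I.E q (I.M.par q z) := free_anc hL LMet.anc_par
    have hmem : I.M.par q z ∈ Z := hZ1 _ (hL'.2 _ LMet.anc_refl) hnear hL'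
    have hadj : I.E.H.Adj z (I.M.par q z) :=
      hadj_par I.fits hL.1 hzy (fun hc => hzV (vst_isV hc).1)
    exact Relation.ReflTransGen.head ⟨hadj, hmem⟩ (ih _ hnear hL' h)

/-- a set which contains the closed part of a site and is connected to it -/
private lemma PR_conn (I : Inst g k s V) {q : V} {C : V → Prop} {Z : Set V}
    {L : Option (Set (Fin I.E.n))} (hL : ∀ α, L = some α → I.E.Itv α)
    (hC : ∀ z, I.M.D z q ≠ ⊤ → C z → C (I.M.par q z))
    (hZ1 : ∀ z, ¬ I.E.IsV z → C z → InL I.M I.E q L z → z ∈ Z)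
    (hZ2 : ∀ p ∈ (OA L : Set (Fin I.E.n)), I.E.w p ∈ Z)
    (hZ3 : ∀ z ∈ Z, (∃ p ∈ (OA L : Set (Fin I.E.n)), I.E.w p = z) ∨
      ∃ z', Relation.ReflTransGen (fun a b => I.E.H.Adj a b ∧ b ∈ Z) z z' ∧ C z' ∧
        InL I.M I.E q L z') : Conn I.E.Ga (ZB I.E Z (OA L)) := by
  have : Nonempty V := ⟨q⟩
  cases L with
  | none =>
    have h0 : (OA (none : Option (Set (Fin I.E.n))) : Set (Fin I.E.n)) = ∅ := by
      ext p
      constructor
      · rintro ⟨α, hα, -⟩
        exact absurd hα (by simp)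
      · intro h
        exact absurd h (Set.notMem_empty p)
    rw [h0]
    refine conn_zb_none (q := q) ?_
    intro z hz
    rcases hZ3 z hz with ⟨p, hp, -⟩ | ⟨z', h1, h2, h3⟩
    · rw [h0] at hp
      exact absurd hp (Set.notMem_empty p)
    · obtain ⟨m, hm⟩ := LMet.anc_root (M := I.M) h3.1
      exact h1.trans (PR_chain_none I hC hZ1 m z' h2 h3 hm)
  | some Bs =>
    have h0 : (OA (some Bs) : Set (Fin I.E.n)) = Bs := by
      ext p
      constructor
      · rintro ⟨α, hα, h⟩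
        rw [Option.some.injEq] at hα
        rwa [hα]
      · intro h
        exact ⟨Bs, rfl, h⟩
    rw [h0]
    rw [h0] at hZ2 hZ3
    refine conn_zb (hL Bs rfl) hZ2 ?_
    intro z hz
    rcases hZ3 z hz with ⟨p, hp, hpz⟩ | ⟨z', h1, h2, h3⟩
    · rw [← hpz]
      exact ⟨p, hp, .refl⟩
    · obtain ⟨p, hp, m, hm, hj⟩ := h3.2
      exact ⟨p, hp, h1.trans (PR_chain_some I hp hC hZ1 (hZ2 p hp) m z' h2 h3 hm hj)⟩

/-- going down along the reversed leg -/
private lemma PR_down (I : Inst g k s V) {q : V} {Z : Set V} :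
    ∀ (K : ℕ) (z : V), I.M.D z q ≠ ⊤ → (∀ j ≤ K, ¬ I.E.IsV ((I.M.par q)^[j] z)) →
      (∀ j < K, (I.M.par q)^[j] z ∈ Z) →
      Relation.ReflTransGen (fun a b => I.E.H.Adj a b ∧ b ∈ Z) ((I.M.par q)^[K] z) z := by
  intro K
  induction K with
  | zero =>
    intro z _ _ _
    exact .refl
  | succ K ih =>
    intro z hD hpl hmem
    rw [Function.iterate_succ_apply]
    have h1 := ih (I.M.par q z) (LMet.par_ne_top hD) (by
      intro j hj
      have := hpl (j + 1) (by omega)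
      rwa [Function.iterate_succ_apply] at this) (by
      intro j hj
      have := hmem (j + 1) (by omega)
      rwa [Function.iterate_succ_apply] at this)
    by_cases hz : z = q
    · have h2 : I.M.par q z = z := by rw [hz, LMet.par_root]
      rw [h2] at h1 ⊢
      exact h1
    · have hzV : ¬ I.E.IsV z := hpl 0 (by omega)
      have hadj : I.E.H.Adj z (I.M.par q z) :=
        hadj_par I.fits hD hz (fun hc => hzV (vst_isV hc).1)
      exact h1.tail ⟨hadj.symm, hmem 0 (by omega)⟩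

section

variable {J : LInst g k s V} {B : Set (Fin J.E.n)} {A L₁ L₂ : Option (Set (Fin J.E.n))}
  {r st a : V × ℕ} {i : Bool}

private lemma PR_panc_isV {q x v : V} (h : PAnc J.inst.M J.E q x v) : ¬ J.E.IsV x := by
  obtain ⟨k, hk, hp⟩ := h
  rw [← hk]
  exact hp k le_rfl

private lemma PR_panc_start {q x v : V} (h : PAnc J.inst.M J.E q x v) : ¬ J.E.IsV v := by
  obtain ⟨k, hk, hp⟩ := h
  exact hp 0 (by omega)

private lemma PR_pp_isV {q v : V} (h : v ∈ PP J.inst.M J.E q A) : ¬ J.E.IsV v := (mem_pp.mp h).1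

private lemma PR_pp_D {q v : V} (h : v ∈ PP J.inst.M J.E q A) : J.inst.M.D v q ≠ ⊤ := by
  cases A with
  | none => exact h.1
  | some α => exact h.2.1

private lemma PR_panc_refl {q v : V} (h : ¬ J.E.IsV v) : PAnc J.inst.M J.E q v v :=
  ⟨0, rfl, fun j hj => by
    have : j = 0 := by omega
    rw [this]
    exact h⟩

private lemma PR_panc_par {q v : V} (h : ¬ J.E.IsV v) (h' : ¬ J.E.IsV (J.inst.M.par q v)) :
    PAnc J.inst.M J.E q (J.inst.M.par q v) v :=
  ⟨1, rfl, fun j hj => by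
    rcases Nat.eq_zero_or_pos j with h0 | h0
    · rw [h0]
      exact h
    · have : j = 1 := by omega
      rw [this]
      exact h'⟩

/-- `vv i u` is `u` or its planar parent -/
private lemma PR_vv {u : V} (hu : ¬ J.E.IsV u) (h : ¬ J.E.IsV (vv J r i u)) :
    PAnc J.inst.M J.E r.1 (vv J r i u) u := by
  cases i with
  | false => exact PR_panc_refl hu
  | true => exact PR_panc_par hu h

/-- strictly above `vv i u` is strictly above `u` -/
private lemma PR_vv_ne {u y : V} (hD : J.inst.M.D u r.1 ≠ ⊤)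
    (hy : PAnc J.inst.M J.E r.1 y (vv J r i u)) (hne : y ≠ vv J r i u) : y ≠ u := by
  cases i with
  | false => exact hne
  | true =>
    intro h1
    have e : vv J r true u = J.inst.M.par r.1 u := rfl
    rw [e] at hy hne
    by_cases hr : u = r.1
    · apply hne
      rw [h1, hr, LMet.par_root]
    · have h2 := LMet.CAb_anc_toNat_le (panc_anc hy) (LMet.par_ne_top hD)
      have h3 := LMet.toNat_par_lt (M := J.inst.M) hr hD
      rw [h1] at h2
      omega

private lemma PR_par_pp {q v : V} (h : v ∈ PP J.inst.M J.E q A)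
    (h' : ¬ J.E.IsV (J.inst.M.par q v)) : J.inst.M.par q v ∈ PP J.inst.M J.E q A :=
  panc_pp h (PR_panc_par (PR_pp_isV h) h')

private lemma PR_vv_pp {u : V} (hG : GD J B A r st a L₁ L₂ i u) :
    vv J r i u ∈ PP J.inst.M J.E r.1 A :=
  panc_pp hG.1.1 (PR_vv (PR_pp_isV hG.1.1) hG.2.1)

end

theorem cpF_bound (J : LInst g k s V) {B : Set (Fin J.E.n)} {A L₁ L₂ : Option (Set (Fin J.E.n))}
    {r st a : V × ℕ} (i : Bool) (h : OKF J B A r st a L₁ L₂) :
    (CPF J B A r st a L₁ L₂ i).ncard ≤ 4 * (2 * g + 3) := by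
  have hspec := rkP_spec J.inst r.1 A h.iA
  -- the closed conditions of the two sites
  set C₁ : V → Prop := fun y => AL J B r st y ∧
    (J.restr B).inst.M.wd st y < (J.restr B).inst.M.wd a y with hC₁
  set C₂ : V → Prop := fun y => AL J B r a y ∧
    (J.restr B).inst.M.wd a y ≤ (J.restr B).inst.M.wd st y with hC₂
  have hcl₁ : ∀ z, (J.restr B).inst.M.D z st.1 ≠ ⊤ → C₁ z → C₁ ((J.restr B).inst.M.par st.1 z) :=
    fun z hD hz => ⟨al_leg hD LMet.anc_par hz.1, lt_anc hD LMet.anc_par hz.2⟩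
  have hcl₂ : ∀ z, (J.restr B).inst.M.D z a.1 ≠ ⊤ → C₂ z → C₂ ((J.restr B).inst.M.par a.1 z) :=
    fun z hD hz => ⟨al_leg hD LMet.anc_par hz.1, le_anc hD LMet.anc_par hz.2⟩
  set Z₁ : Set V := {y | (¬ J.E.IsV y ∧ C₁ y ∧ InL (J.restr B).inst.M J.E st.1 L₁ y) ∨
    ∃ p ∈ (OA L₁ : Set (Fin J.E.n)), J.E.w p = y} with hZ₁
  set Z₂ : Set V := {y | (¬ J.E.IsV y ∧ C₂ y ∧ InL (J.restr B).inst.M J.E a.1 L₂ y) ∨
    (∃ u, GD J B A r st a L₁ L₂ i u ∧ PAnc J.inst.M J.E r.1 y (vv J r i u) ∧ y ≠ vv J r i u ∧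
      AL J B r a y) ∨ ∃ p ∈ (OA L₂ : Set (Fin J.E.n)), J.E.w p = y} with hZ₂
  set N₀ : Set V := {v | v ∈ PP J.inst.M J.E r.1 A ∧ ¬ AL J B r st v ∧ ¬ AL J B r a v} with hN₀
  have hvvZ : ∀ u, GD J B A r st a L₁ L₂ i u → vv J r i u ∈ Z₂ := fun u hu =>
    Or.inl ⟨hu.2.1, ⟨hu.2.2.1, hu.2.2.2.1⟩, hu.2.2.2.2⟩
  -- facts about the two colours
  have hQ1pp : ∀ u ∈ Q1F J B A r st a L₁, u ∈ PP J.inst.M J.E r.1 A := fun u hu => hu.1.1
  have hQ2pp : ∀ t ∈ Q2F J B A r st a L₁ L₂ i, t ∈ PP J.inst.M J.E r.1 A := by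
    rintro t ⟨u, hG, ht, -, -⟩
    exact panc_pp (PR_vv_pp hG) ht
  have hQ1Z : ∀ u ∈ Q1F J B A r st a L₁, u ∈ Z₁ := by
    rintro u ⟨⟨h1, h2, h3, h4⟩, h5⟩
    refine Or.inl ⟨PR_pp_isV h1, ⟨h2, ?_⟩, h4⟩
    exact lt_of_le_of_lt h2 (not_le.mp h5)
  have hQ2Z : ∀ t ∈ Q2F J B A r st a L₁ L₂ i, t ∈ Z₂ := by
    rintro t ⟨u, hG, ht, hal, -⟩
    by_cases hne : t = vv J r i u
    · rw [hne]
      exact hvvZ u hG
    · exact Or.inr (Or.inl ⟨u, hG, ht, hne, hal⟩)
  -- disjointness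
  have habove : ∀ u y, GD J B A r st a L₁ L₂ i u → PAnc J.inst.M J.E r.1 y (vv J r i u) →
      y ≠ vv J r i u → ¬ AL J B r st y := by
    intro u y hG hy hne
    have hup := hG.1.1
    have h1 : PAnc J.inst.M J.E r.1 y u := panc_trans hy (PR_vv (PR_pp_isV hup) hG.2.1)
    exact above_exit (PR_pp_D hup) hG.1.2.2.1 h1 (PR_vv_ne (PR_pp_D hup) hy hne)
  have hdz : Disjoint Z₁ Z₂ := by
    rw [Set.disjoint_left]
    rintro v (⟨a1, a2, -⟩ | ⟨p, hp, rfl⟩) (⟨b1, b2, -⟩ | ⟨u, hG, hy, hne, -⟩ | ⟨p', hp', hpp⟩)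
    · exact absurd a2.2 (not_lt.mpr b2.2)
    · exact habove u v hG hy hne a2.1
    · exact a1 ⟨p', hpp⟩
    · exact b1 ⟨p, rfl⟩
    · exact PR_panc_isV hy ⟨p, rfl⟩
    · rw [J.E.w_inj _ _ hpp] at hp'
      exact Set.disjoint_left.mp h.d12 hp hp'
  have hdQ : Disjoint (Q1F J B A r st a L₁) (Q2F J B A r st a L₁ L₂ i) := by
    rw [Set.disjoint_left]
    intro v hv hv'
    exact Set.disjoint_left.mp hdz (hQ1Z v hv) (hQ2Z v hv')
  -- the parents
  have hNpar : ∀ v ∈ N₀, J.inst.M.par r.1 v ∈ N₀ ∨ J.E.IsV (J.inst.M.par r.1 v) := by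
    rintro v ⟨h1, h2, h3⟩
    by_cases hV : J.E.IsV (J.inst.M.par r.1 v)
    · exact Or.inr hV
    · exact Or.inl ⟨PR_par_pp h1 hV, killed_par (PR_pp_isV h1) hV (PR_pp_D h1) h2,
        killed_par (PR_pp_isV h1) hV (PR_pp_D h1) h3⟩
  have hQ1par : ∀ u ∈ Q1F J B A r st a L₁, J.inst.M.par r.1 u ∈ N₀ ∨
      J.E.IsV (J.inst.M.par r.1 u) := by
    rintro u ⟨⟨h1, h2, h3, h4⟩, h5⟩
    by_cases hV : J.E.IsV (J.inst.M.par r.1 u)
    · exact Or.inr hV
    · refine Or.inl ⟨PR_par_pp h1 hV, ?_, killed_par (PR_pp_isV h1) hV (PR_pp_D h1) h5⟩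
      rcases h3 with h6 | h6
      · exact absurd h6 hV
      · exact h6
  have hQ2par : ∀ t ∈ Q2F J B A r st a L₁ L₂ i, J.inst.M.par r.1 t ∈ N₀ ∨
      J.E.IsV (J.inst.M.par r.1 t) := by
    intro t ht0
    have htpp := hQ2pp t ht0
    obtain ⟨u, hG, ht, hal, hkp⟩ := ht0
    by_cases hV : J.E.IsV (J.inst.M.par r.1 t)
    · exact Or.inr hV
    · have hup := hG.1.1
      have htr : t ≠ r.1 := by
        intro htr
        have hAn : A = none := by
          cases hA : A with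
          | none => rfl
          | some α =>
            exfalso
            rw [hA] at htpp
            obtain ⟨h1, -, p, -, k, hk, -⟩ := htpp
            rw [htr, LMet.CAb_iter_root] at hk
            rw [htr] at h1
            exact h1 ⟨p, hk.symm⟩
        rw [htr] at hal
        exact h.ha hAn hal
      have hu1 : PAnc J.inst.M J.E r.1 t u := panc_trans ht (PR_vv (PR_pp_isV hup) hG.2.1)
      have hu2 : PAnc J.inst.M J.E r.1 (J.inst.M.par r.1 t) u :=
        panc_trans (PR_panc_par (PR_pp_isV htpp) hV) hu1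
      have hne : J.inst.M.par r.1 t ≠ u := by
        intro h1
        have h2 := LMet.toNat_par_lt (M := J.inst.M) htr (PR_pp_D htpp)
        have h3 := LMet.CAb_anc_toNat_le (panc_anc hu1) (PR_pp_D hup)
        rw [h1] at h2
        omega
      refine Or.inl ⟨PR_par_pp htpp hV, above_exit (PR_pp_D hup) hG.1.2.2.1 hu2 hne, ?_⟩
      rcases hkp with h6 | h6
      · exact absurd h6 hV
      · exact h6
  refine cp_bound_alt hdQ ?_ (2 * g + 3) ?_
  · intro b b' hb hb' hab
    have hb1 : b ∈ PP J.inst.M J.E r.1 A := hb.elim (fun h => hQ1pp b h) (fun h => hQ2pp b h)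
    have hb2 : b' ∈ PP J.inst.M J.E r.1 A := hb'.elim (fun h => hQ1pp b' h) (fun h => hQ2pp b' h)
    exact hspec.inj b hb1 b' hb2 hab
  · intro l hl1 hl2 hl3
    rcases l with _ | ⟨b₀, l₀⟩
    · exact Nat.zero_le _
    have hroot : A = none → r.1 ∈ N₀ := by
      intro hA
      have hb0 : b₀ ∈ PP J.inst.M J.E r.1 A := by
        rcases hl2 b₀ (by simp) with h1 | h1
        · exact hQ1pp b₀ h1
        · exact hQ2pp b₀ h1
      refine ⟨?_, h.hs hA, h.ha hA⟩
      subst hA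
      have hfree : Free J.inst.M J.E r.1 b₀ := hb0
      exact free_anc hfree (LMet.anc_root hfree.1)
    have hconn1 : Conn J.E.Ga (ZB J.E Z₁ (OA L₁)) := by
      refine PR_conn (J.restr B).inst (q := st.1) (C := C₁) (L := L₁) h.i1 hcl₁ ?_ ?_ ?_
      · intro z h1 h2 h3
        exact Or.inl ⟨h1, h2, h3⟩
      · intro p hp
        exact Or.inr ⟨p, hp, rfl⟩
      · rintro z (⟨h1, h2, h3⟩ | ⟨p, hp, hpz⟩)
        · exact Or.inr ⟨z, .refl, h2, h3⟩
        · exact Or.inl ⟨p, hp, hpz⟩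
    have hconn2 : Conn J.E.Ga (ZB J.E Z₂ (OA L₂)) := by
      refine PR_conn (J.restr B).inst (q := a.1) (C := C₂) (L := L₂) h.i2 hcl₂ ?_ ?_ ?_
      · intro z h1 h2 h3
        exact Or.inl ⟨h1, h2, h3⟩
      · intro p hp
        exact Or.inr (Or.inr ⟨p, hp, rfl⟩)
      · rintro z (⟨h1, h2, h3⟩ | ⟨u, hG, hy, hne, hal⟩ | ⟨p, hp, hpz⟩)
        · exact Or.inr ⟨z, .refl, h2, h3⟩
        · right
          refine ⟨vv J r i u, ?_, ⟨hG.2.2.1, hG.2.2.2.1⟩, hG.2.2.2.2⟩
          have hvD : J.inst.M.D (vv J r i u) r.1 ≠ ⊤ := PR_pp_D (PR_vv_pp hG)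
          obtain ⟨K, hK, hpl⟩ := hy
          have h5 := PR_down J.inst (q := r.1) (Z := Z₂) K (vv J r i u) hvD hpl (by
            intro j hj
            have hzj : PAnc J.inst.M J.E r.1 z ((J.inst.M.par r.1)^[j] (vv J r i u)) := by
              refine ⟨K - j, ?_, ?_⟩
              · rw [← Function.iterate_add_apply, Nat.sub_add_cancel hj.le]
                exact hK
              · intro j' hj'
                rw [← Function.iterate_add_apply]
                exact hpl _ (by omega)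
            have halj : AL J B r a ((J.inst.M.par r.1)^[j] (vv J r i u)) := by
              by_contra hc
              exact killed_up (LMet.CAb_iter_ne_top hvD j) hzj hc hal
            by_cases he : (J.inst.M.par r.1)^[j] (vv J r i u) = vv J r i u
            · rw [he]
              exact hvvZ u hG
            · refine Or.inr (Or.inl ⟨u, hG, ⟨j, rfl, ?_⟩, he, halj⟩)
              intro j' hj'
              exact hpl _ (by omega))
          rw [hK] at h5
          exact h5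
        · exact Or.inl ⟨p, hp, hpz⟩
    refine hspec.alt N₀ Z₁ Z₂ (OA L₁) (OA L₂) (fun v hv => hv.1) hNpar hroot hconn1 hconn2
      ?_ ?_ hdz h.d12 h.d1 h.d2 ?_ (b₀ :: l₀) hl1 ?_ ?_
    · rw [Set.disjoint_left]
      rintro v ⟨hv1, hv2, hv3⟩ (⟨-, b2, -⟩ | ⟨p, -, rfl⟩)
      · exact hv2 b2.1
      · exact PR_pp_isV hv1 ⟨p, rfl⟩
    · rw [Set.disjoint_left]
      rintro v ⟨hv1, hv2, hv3⟩ (⟨-, b2, -⟩ | ⟨u, -, -, -, hal⟩ | ⟨p, -, rfl⟩)
      · exact hv3 b2.1
      · exact hv3 hal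
      · exact PR_pp_isV hv1 ⟨p, rfl⟩
    · intro p hp
      constructor
      · rintro (⟨b1, -, -⟩ | ⟨p', hp', hpp⟩)
        · exact b1 ⟨p, rfl⟩
        · rw [J.E.w_inj _ _ hpp] at hp'
          exact Set.disjoint_left.mp h.d1 hp hp'
      · rintro (⟨b1, -, -⟩ | ⟨u, -, hy, -, -⟩ | ⟨p', hp', hpp⟩)
        · exact b1 ⟨p, rfl⟩
        · exact PR_panc_isV hy ⟨p, rfl⟩
        · rw [J.E.w_inj _ _ hpp] at hp'
          exact Set.disjoint_left.mp h.d2 hp hp'
    · intro b hb
      rcases hl2 b hb with h1 | h1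
      · exact ⟨hQ1pp b h1, hQ1par b h1, Or.inl (hQ1Z b h1)⟩
      · exact ⟨hQ2pp b h1, hQ2par b h1, Or.inr (hQ2Z b h1)⟩
    · refine List.IsChain.imp_of_mem_imp ?_ hl3
      intro b b' hb hb' hab
      have ea : b ∈ Z₁ ↔ b ∈ Q1F J B A r st a L₁ := by
        constructor
        · intro h1
          rcases hl2 b hb with h2 | h2
          · exact h2
          · exact absurd (hQ2Z b h2) (Set.disjoint_left.mp hdz h1)
        · exact hQ1Z b
      have eb : b' ∈ Z₂ ↔ b' ∈ Q2F J B A r st a L₁ L₂ i := by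
        constructor
        · intro h1
          rcases hl2 b' hb' with h2 | h2
          · exact absurd h1 (Set.disjoint_left.mp hdz (hQ1Z b' h2))
          · exact h2
        · exact hQ2Z b'
      rw [ea, eb]
      exact hab

end Pool.Agent.BTV
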