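import Pool.Agent.BTV.PR

/-! BTV PS: decodable change points and the far region.

`DCF`: change points for the sites `r`, `st`, all `a ∈ X`, both `i`, and `L₂` = type of a position
relative to `A` and `L₁`.
`dcF_dcd`: `Dcd.site`, `Dcd.fin` (Bool), `fib_ncard` (at most `4 s` sets `L₂`), `Dcd.ncard (cpF_bound ..)`.

PROOF of `far_region`.  `L₂ := some (fib E (OA A) (OA L₁) q₀)`, `rk := rkP J.inst r.1 A`, `u ∈ FR st L₁`.
For `a ∈ Y`: `GD .. a .. i u`; let `t_a` be the exit of `a` above `v := vv i u` (`exists_exitAL`, `v ∈ PP`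
(`u ∈ PP`, `panc_pp`/`land_par`), `OKF.ha`): `t_a ∈ Q2F`, `PAnc t_a u`, `rk t_a ≤ rk u`.  `a` is alive at `u`
(for `i = false` `v = u`; for `i = true`: alive at `par u` implies alive at `u`: `killed_par`).
`lo` := the element of `FR st L₁` of largest rank `< rk u` at which some `a ∈ Y` is dead, if there is one
(`none` otherwise); `hi` := smallest rank `> rk u`.  Then the last claim is clear.
`lo ∈ DCF`: let `a ∈ Y` be dead at `lo`: `lo ∈ Q1F`.  `rk lo < rk t_a`: otherwise `rk t_a ≤ rk lo < rk u`, so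
`PAnc t_a lo` (`POrd.interval` with `PAnc t_a u`), and `a` dead at `lo` would be dead at `t_a`
(`killed_up`).  `cp_between` for `lo ∈ Q1F`, `t_a ∈ Q2F`: `e ∈ CPF ∩ Q1F` with
`rk lo ≤ rk e < rk t_a ≤ rk u`; by maximality of `lo` `rk e ≤ rk lo`, so `e = lo` (`POrd.inj`).
`hi ∈ DCF`: `a` dead at `hi`, `rk t_a ≤ rk u < rk hi`; `cp_between` with the roles exchanged (`cp_comm`):
`e' ∈ CPF ∩ Q1F`, `rk t_a < rk e' ≤ rk hi`.  If `rk e' ≤ rk u`: `rk e' < rk u` (`a` is alive at `u`), then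
`PAnc t_a e'` by `interval`, contradiction as before.  So `rk u < rk e'`, and by minimality `e' = hi`. -/

set_option autoImplicit false

open Classical

namespace Pool.Agent.BTV

open Pool.Agent.BTD Pool.Agent.H81.Balls

universe u

/-- decodable change points -/
def DCF {V : Type u} [Fintype V] {g k s : ℕ} (J : LInst g k s V) (X : Set (V × ℕ))
    (B : Set (Fin J.E.n)) (A : Option (Set (Fin J.E.n))) (r st : V × ℕ)
    (L₁ : Option (Set (Fin J.E.n))) : Set V :=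
  {v | ∃ a ∈ X, ∃ (i : Bool) (q₀ : Fin J.E.n),
    OKF J B A r st a L₁ (some (fib J.E (OA A) (OA L₁) q₀)) ∧
      v ∈ CPF J B A r st a L₁ (some (fib J.E (OA A) (OA L₁) q₀)) i}

theorem dcF_dcd (g k s : ℕ) : ∃ N : ℕ, ∀ (V : Type u) [Fintype V] (J : LInst g k s V)
    (B : Set (Fin J.E.n)) (A : Option (Set (Fin J.E.n))) (r st : V × ℕ)
    (L₁ : Option (Set (Fin J.E.n))), Dcd N (fun X v => v ∈ DCF J X B A r st L₁) := by
  refine ⟨bd 1 (bd 2 (bd (4 * s) (4 * (2 * g + 3)))), ?_⟩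
  intro V _ J B A r st L₁
  have h3 : ∀ (a : V × ℕ) (i : Bool) (F : Set (Fin J.E.n)), Dcd (P := V × ℕ) (4 * (2 * g + 3))
      (fun _ v => v ∈ {v | OKF J B A r st a L₁ (some F) ∧ v ∈ CPF J B A r st a L₁ (some F) i}) := by
    intro a i F
    refine Dcd.ncard (Set.toFinite _) ?_
    by_cases hok : OKF J B A r st a L₁ (some F)
    · refine (Set.ncard_le_ncard (fun v hv => hv.2) (Set.toFinite _)).trans (cpF_bound J i hok)
    · have h0 : {v | OKF J B A r st a L₁ (some F) ∧ v ∈ CPF J B A r st a L₁ (some F) i} = ∅ := by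
        ext v
        constructor
        · rintro ⟨h1, -⟩
          exact absurd h1 hok
        · intro h1
          exact absurd h1 (Set.notMem_empty v)
      rw [h0, Set.ncard_empty]
      exact Nat.zero_le _
  have h2 : ∀ (a : V × ℕ) (i : Bool), Dcd (P := V × ℕ) (bd (4 * s) (4 * (2 * g + 3)))
      (fun X v => ∃ F, F ∈ {F | ∃ q₀, F = fib J.E (OA A) (OA L₁) q₀} ∧
        v ∈ {v | OKF J B A r st a L₁ (some F) ∧ v ∈ CPF J B A r st a L₁ (some F) i}) := by
    intro a i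
    have h4 := fib_ncard (E := J.E) (s := s) J.disc_lt (OA A) (OA L₁)
    exact Dcd.bind (Dcd.ncard h4.1 h4.2) (fun F => h3 a i F)
  have h1 : ∀ a : V × ℕ, Dcd (P := V × ℕ) (bd 2 (bd (4 * s) (4 * (2 * g + 3))))
      (fun X v => ∃ i : Bool, (∃ j : Fin 2, (fun j : Fin 2 => decide (j.val = 0)) j = i) ∧
        ∃ F, F ∈ {F | ∃ q₀, F = fib J.E (OA A) (OA L₁) q₀} ∧
          v ∈ {v | OKF J B A r st a L₁ (some F) ∧ v ∈ CPF J B A r st a L₁ (some F) i}) := by
    intro a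
    exact Dcd.bind (Dcd.fin (fun j : Fin 2 => decide (j.val = 0))) (fun i => h2 a i)
  refine (Dcd.bind (Dcd.site (P := V × ℕ)) h1).mono le_rfl ?_
  rintro X v ⟨a, haX, i, q₀, hok, hv⟩
  refine ⟨a, haX, i, ?_, _, ⟨q₀, rfl⟩, hok, hv⟩
  cases i with
  | true => exact ⟨0, rfl⟩
  | false => exact ⟨1, rfl⟩

section

variable {V : Type u} [Fintype V] {g k s : ℕ} {J : LInst g k s V} {B : Set (Fin J.E.n)}
  {A L₁ L₂ : Option (Set (Fin J.E.n))} {r st a : V × ℕ} {i : Bool}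

private lemma PS_pp_isV {q v : V} (h : v ∈ PP J.inst.M J.E q A) : ¬ J.E.IsV v := (mem_pp.mp h).1

private lemma PS_pp_D {q v : V} (h : v ∈ PP J.inst.M J.E q A) : J.inst.M.D v q ≠ ⊤ := by
  cases A with
  | none => exact h.1
  | some α => exact h.2.1

private lemma PS_vv {u : V} (hu : ¬ J.E.IsV u) (h : ¬ J.E.IsV (vv J r i u)) :
    PAnc J.inst.M J.E r.1 (vv J r i u) u := by
  cases i with
  | false =>
    refine ⟨0, rfl, fun j hj => ?_⟩
    have : j = 0 := by omega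
    rw [this]
    exact hu
  | true =>
    refine ⟨1, rfl, fun j hj => ?_⟩
    rcases Nat.eq_zero_or_pos j with h0 | h0
    · rw [h0]
      exact hu
    · have : j = 1 := by omega
      rw [this]
      exact h

private lemma PS_alive {u : V} (hG : GD J B A r st a L₁ L₂ i u) : AL J B r a u := by
  have hup := hG.1.1
  by_contra hc
  exact killed_up (PS_pp_D hup) (PS_vv (PS_pp_isV hup) hG.2.1) hc hG.2.2.1

private lemma PS_exit {u : V} (hok : OKF J B A r st a L₁ L₂) (hG : GD J B A r st a L₁ L₂ i u) :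
    ∃ t ∈ Q2F J B A r st a L₁ L₂ i, PAnc J.inst.M J.E r.1 t u ∧ AL J B r a t := by
  have hup := hG.1.1
  have h1 := PS_vv (PS_pp_isV hup) hG.2.1
  obtain ⟨t, ht1, ht2, ht3⟩ := exists_exitAL (panc_pp hup h1) hG.2.2.1 hok.ha
  exact ⟨t, ⟨u, hG, ht1, ht2, ht3⟩, panc_trans ht1 h1, ht2⟩

private lemma PS_Q2pp {t : V} (h : t ∈ Q2F J B A r st a L₁ L₂ i) : t ∈ PP J.inst.M J.E r.1 A := by
  obtain ⟨u, hG, ht, -, -⟩ := h
  exact panc_pp (panc_pp hG.1.1 (PS_vv (PS_pp_isV hG.1.1) hG.2.1)) ht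

private lemma PS_disj : Disjoint (Q1F J B A r st a L₁) (Q2F J B A r st a L₁ L₂ i) := by
  rw [Set.disjoint_left]
  rintro v ⟨-, h1⟩ ⟨u, -, -, h2, -⟩
  exact h1 h2

end

theorem far_region {V : Type u} [Fintype V] {g k s : ℕ} (J : LInst g k s V) {X Y : Set (V × ℕ)}
    (hYX : Y ⊆ X) {B : Set (Fin J.E.n)} {A L₁ : Option (Set (Fin J.E.n))} {r st : V × ℕ} {i : Bool}
    {q₀ : Fin J.E.n} {u : V} (hu : u ∈ FR J B A r st L₁)
    (hOK : ∀ a ∈ Y, OKF J B A r st a L₁ (some (fib J.E (OA A) (OA L₁) q₀)))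
    (hGD : ∀ a ∈ Y, GD J B A r st a L₁ (some (fib J.E (OA A) (OA L₁) q₀)) i u) :
    ∃ lo hi : Option V, (∀ l, lo = some l → l ∈ DCF J X B A r st L₁ ∧
        rkP J.inst r.1 A l < rkP J.inst r.1 A u) ∧
      (∀ h, hi = some h → h ∈ DCF J X B A r st L₁ ∧ rkP J.inst r.1 A u < rkP J.inst r.1 A h) ∧
      ∀ u' ∈ FR J B A r st L₁, (∀ l, lo = some l → rkP J.inst r.1 A l < rkP J.inst r.1 A u') →
        (∀ h, hi = some h → rkP J.inst r.1 A u' < rkP J.inst r.1 A h) → ∀ a ∈ Y, AL J B r a u' := by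
  by_cases hne : Y.Nonempty
  swap
  · exact ⟨none, none, fun l hl => absurd hl (by simp), fun l hl => absurd hl (by simp),
      fun u' _ _ _ a ha => absurd ⟨a, ha⟩ hne⟩
  obtain ⟨a₀, ha₀⟩ := hne
  have hspec : POrd J.inst.M J.E r.1 A (2 * g + 3) (rkP J.inst r.1 A) :=
    rkP_spec J.inst r.1 A (hOK a₀ ha₀).iA
  set rk := rkP J.inst r.1 A with hrk
  have hupp : u ∈ PP J.inst.M J.E r.1 A := hu.1
  -- injectivity on the two colours
  have hinj : ∀ a : V × ℕ, ∀ b b' : V,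
      (b ∈ Q1F J B A r st a L₁ ∨ b ∈ Q2F J B A r st a L₁ (some (fib J.E (OA A) (OA L₁) q₀)) i) →
      (b' ∈ Q1F J B A r st a L₁ ∨ b' ∈ Q2F J B A r st a L₁ (some (fib J.E (OA A) (OA L₁) q₀)) i) →
      rk b = rk b' → b = b' := by
    intro a b b' hb hb' h
    exact hspec.inj b (hb.elim (fun h => h.1.1) (fun h => PS_Q2pp h)) b'
      (hb'.elim (fun h => h.1.1) (fun h => PS_Q2pp h)) h
  -- the exit of `a` is not in the interval of a dead element
  have hdead : ∀ a ∈ Y, ∀ t e, PAnc J.inst.M J.E r.1 t u → AL J B r a t → e ∈ FR J B A r st L₁ →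
      ¬ AL J B r a e → rk t ≤ rk e → rk e ≤ rk u → False := by
    intro a ha t e h1 h2 h3 h4 h5 h6
    have h7 := hspec.interval t e u h3.1 hupp h1 h5 h6
    exact killed_up (PS_pp_D h3.1) h7 h4 h2
  let Slo : Set V := {e | e ∈ FR J B A r st L₁ ∧ rk e < rk u ∧ ∃ a ∈ Y, ¬ AL J B r a e}
  let Shi : Set V := {e | e ∈ FR J B A r st L₁ ∧ rk u < rk e ∧ ∃ a ∈ Y, ¬ AL J B r a e}
  have hlo : ∃ lo : Option V, (∀ l, lo = some l → l ∈ DCF J X B A r st L₁ ∧ rk l < rk u) ∧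
      ∀ e ∈ Slo, ∃ l, lo = some l ∧ rk e ≤ rk l := by
    by_cases hS : Slo.Nonempty
    · obtain ⟨l, ⟨hl1, hl2, a, haY, hl3⟩, hmax⟩ :=
        Set.exists_max_image Slo rk (Set.toFinite _) hS
      refine ⟨some l, ?_, fun e he => ⟨l, rfl, hmax e he⟩⟩
      intro l' hl'
      rw [← Option.some.inj hl']
      refine ⟨⟨a, hYX haY, i, q₀, hOK a haY, ?_⟩, hl2⟩
      obtain ⟨t, ht1, ht2, ht3⟩ := PS_exit (hOK a haY) (hGD a haY)
      have hlt : rk l < rk t := by
        by_contra hc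
        exact hdead a haY t l ht2 ht3 hl1 hl3 (not_lt.mp hc) hl2.le
      have htu : rk t ≤ rk u := hspec.anc_le t u hupp ht2
      obtain ⟨e, he, e', -, he1, -, he2, he3, he4⟩ :=
        cp_between PS_disj (hinj a) (show l ∈ Q1F J B A r st a L₁ from ⟨hl1, hl3⟩) ht1 hlt
      have h5 : rk e ≤ rk l := hmax e ⟨he1.1, by omega, a, haY, he1.2⟩
      have h6 : e = l := hspec.inj e he1.1.1 l hl1.1 (by omega)
      rw [← h6]
      exact he
    · exact ⟨none, fun l hl => absurd hl (by simp), fun e he => absurd ⟨e, he⟩ hS⟩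
  have hhi : ∃ hi : Option V, (∀ l, hi = some l → l ∈ DCF J X B A r st L₁ ∧ rk u < rk l) ∧
      ∀ e ∈ Shi, ∃ l, hi = some l ∧ rk l ≤ rk e := by
    by_cases hS : Shi.Nonempty
    · obtain ⟨l, ⟨hl1, hl2, a, haY, hl3⟩, hmin⟩ :=
        Set.exists_min_image Shi rk (Set.toFinite _) hS
      refine ⟨some l, ?_, fun e he => ⟨l, rfl, hmin e he⟩⟩
      intro l' hl'
      rw [← Option.some.inj hl']
      refine ⟨⟨a, hYX haY, i, q₀, hOK a haY, ?_⟩, hl2⟩
      obtain ⟨t, ht1, ht2, ht3⟩ := PS_exit (hOK a haY) (hGD a haY)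
      have htu : rk t ≤ rk u := hspec.anc_le t u hupp ht2
      obtain ⟨e, -, e', he', -, he1', he2, he3, he4⟩ :=
        cp_between PS_disj.symm (fun b b' hb hb' => hinj a b b' hb.symm hb'.symm) ht1
          (show l ∈ Q1F J B A r st a L₁ from ⟨hl1, hl3⟩) (by omega)
      have h7 : rk u < rk e' := by
        by_contra hc
        exact hdead a haY t e' ht2 ht3 he1'.1 he1'.2 (by omega) (not_lt.mp hc)
      have h5 : rk l ≤ rk e' := hmin e' ⟨he1'.1, h7, a, haY, he1'.2⟩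
      have h6 : e' = l := hspec.inj e' he1'.1.1 l hl1.1 (by omega)
      rw [← h6]
      rw [cp_comm] at he'
      exact he'
    · exact ⟨none, fun l hl => absurd hl (by simp), fun e he => absurd ⟨e, he⟩ hS⟩
  obtain ⟨lo, hlo1, hlo2⟩ := hlo
  obtain ⟨hi, hhi1, hhi2⟩ := hhi
  refine ⟨lo, hi, hlo1, hhi1, ?_⟩
  intro u' hu' h1 h2 a haY
  by_contra hc
  rcases lt_trichotomy (rk u') (rk u) with h3 | h3 | h3
  · obtain ⟨l, hl, hle⟩ := hlo2 u' ⟨hu', h3, a, haY, hc⟩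
    have := h1 l hl
    omega
  · have h4 : u' = u := hspec.inj u' hu'.1 u hupp h3
    rw [h4] at hc
    exact hc (PS_alive (hGD a haY))
  · obtain ⟨l, hl, hle⟩ := hhi2 u' ⟨hu', h3, a, haY, hc⟩
    have := h2 l hl
    omega

end Pool.Agent.BTV
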