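import Pool.Agent.BTV.PS
import Pool.Agent.BTV.PB

/-! BTV PT: handled class: far landings.

`B` is fixed (the bound does not depend on it).
Region: `{e' | wd r e'.1 ≤ e'.2 ∧ e'.1 ∈ PP r.1 A ∧ ∃ u' ∈ FR st L₁, PAnc r.1 u' e'.1 ∧
(lo < u') ∧ (u' < hi)}` (ranks), with `lo`, `hi` from `far_region`.  Decodable from: `r`, `st` (sites),
`A` (none or a cell: `Dcd.option (twP_dcd 1)`), `L₁` (none, or a cell of the tower of the restricted
instance intersected with `B`: `Dcd.option`, `Dcd.map`), `lo`, `hi` (`Dcd.option (dcF_dcd)`, `bind` over the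
previous parameters).
`e` is in the region (`u' = u`).  For a member `e'` and `a ∈ Y`: `a` is alive at `u'`, hence at `e'.1`
(`killed_up` contraposed): `wd a e'.1 ≤ wd^B a e'.1 ≤ wd r e'.1 ≤ e'.2` (`restr_le`). -/

set_option autoImplicit false

open Classical

namespace Pool.Agent.BTV

open Pool.Agent.BTD Pool.Agent.H81.Balls

universe u

lemma pp_ne_top {V : Type u} {G : SimpleGraph V} {M : LMet G} {E : NE V} {q v : V}
    {A : Option (Set (Fin E.n))} (h : v ∈ PP M E q A) : M.D v q ≠ ⊤ := by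
  cases A with
  | none => exact h.1
  | some α => exact h.2.1

/-- the region of `hd_far` -/
def RegF {V : Type u} [Fintype V] {g k s : ℕ} (J : LInst g k s V) (B : Set (Fin J.E.n))
    (z : ((V × ℕ) × (V × ℕ)) × (Option (Set (Fin J.E.n)) × Option (Set (Fin J.E.n))))
    (w : Option V × Option V) : Set (V × ℕ) :=
  {e' | J.inst.M.wd z.1.1 e'.1 ≤ e'.2 ∧ e'.1 ∈ PP J.inst.M J.E z.1.1.1 z.2.1 ∧
    ∃ u' ∈ FR J B z.2.1 z.1.1 z.1.2 z.2.2, PAnc J.inst.M J.E z.1.1.1 u' e'.1 ∧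
      (∀ l, w.1 = some l → rkP J.inst z.1.1.1 z.2.1 l < rkP J.inst z.1.1.1 z.2.1 u') ∧
      (∀ h, w.2 = some h → rkP J.inst z.1.1.1 z.2.1 u' < rkP J.inst z.1.1.1 z.2.1 h)}

theorem hd_far (g k s : ℕ) : ∃ N : ℕ, ∀ (V : Type u) [Fintype V] (J : LInst g k s V)
    (B : Set (Fin J.E.n)),
    Hd J.inst.M.inc N (fun X Y e => ∃ (A L₁ : Option (Set (Fin J.E.n))) (r st : V × ℕ) (u : V)
      (i : Bool) (q₀ : Fin J.E.n),
      (A = none ∨ ∃ p, A = some (J.E.cell (TwP J.inst X 1) p)) ∧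
      (L₁ = none ∨ ∃ p, L₁ = some (J.E.cell (TwP (J.restr B).inst X 1) p ∩ B)) ∧
      r ∈ X ∧ st ∈ X ∧ J.inst.M.inc e r ∧ e.1 ∈ PP J.inst.M J.E r.1 A ∧ u ∈ FR J B A r st L₁ ∧
      PAnc J.inst.M J.E r.1 u e.1 ∧
      (∀ a ∈ Y, OKF J B A r st a L₁ (some (fib J.E (OA A) (OA L₁) q₀))) ∧
      ∀ a ∈ Y, GD J B A r st a L₁ (some (fib J.E (OA A) (OA L₁) q₀)) i u) := by
  obtain ⟨N1, h1⟩ := twP_dcd.{u} g k s 1
  obtain ⟨N2, h2⟩ := dcF_dcd.{u} g k s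
  refine ⟨bd (bd (bd 1 1) (bd (N1 + 1) (N1 + 1))) (bd (N2 + 1) (N2 + 1)), ?_⟩
  intro V _ J B
  have hA : Dcd (N1 + 1) (fun X (o : Option (Set (Fin J.E.n))) => ∀ z, o = some z →
      ∃ p, z = J.E.cell (TwP J.inst X 1) p) := (h1 V J.inst).2.option
  have hL : Dcd (N1 + 1) (fun X (o : Option (Set (Fin J.E.n))) => ∀ z, o = some z →
      ∃ α : Set (Fin J.E.n), (∃ p, α = J.E.cell (TwP (J.restr B).inst X 1) p) ∧ α ∩ B = z) :=
    ((h1 V (J.restr B).inst).2.map (fun α : Set (Fin J.E.n) => α ∩ B)).option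
  have hz := ((Dcd.site (P := V × ℕ)).pair (Dcd.site (P := V × ℕ))).pair (hA.pair hL)
  have hw : ∀ z : ((V × ℕ) × (V × ℕ)) × (Option (Set (Fin J.E.n)) × Option (Set (Fin J.E.n))),
      Dcd (bd (N2 + 1) (N2 + 1)) (fun X reg => ∃ w : Option V × Option V,
        ((∀ l, w.1 = some l → l ∈ DCF J X B z.2.1 z.1.1 z.1.2 z.2.2) ∧
          (∀ l, w.2 = some l → l ∈ DCF J X B z.2.1 z.1.1 z.1.2 z.2.2)) ∧ RegF J B z w = reg) := by
    intro z
    have h3 := (h2 V J B z.2.1 z.1.1 z.1.2 z.2.2).option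
    exact (h3.pair h3).map (fun w => RegF J B z w)
  have hb := hz.bind hw
  refine ⟨_, hb, ?_⟩
  rintro X Y e hYX hcov ⟨A, L₁, r, st, u, i, q₀, hAc, hLc, hr, hst, hinc, hepp, hu, hpa, hOK, hGD⟩
  obtain ⟨lo, hi, hlo, hhi, hall⟩ := far_region J hYX hu hOK hGD
  refine ⟨RegF J B ((r, st), (A, L₁)) (lo, hi), ⟨((r, st), (A, L₁)), ⟨⟨hr, hst⟩, ?_, ?_⟩,
    (lo, hi), ⟨fun l hl => (hlo l hl).1, fun l hl => (hhi l hl).1⟩, rfl⟩, ?_, ?_⟩
  · intro z hz'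
    rcases hAc with h | ⟨p, h⟩
    · simp [h] at hz'
    · exact ⟨p, Option.some.inj (hz'.symm.trans h)⟩
  · intro z hz'
    rcases hLc with h | ⟨p, h⟩
    · simp [h] at hz'
    · exact ⟨_, ⟨p, rfl⟩, Option.some.inj (h.symm.trans hz')⟩
  · exact ⟨hinc, hepp, u, hu, hpa, fun l hl => (hlo l hl).2, fun l hl => (hhi l hl).2⟩
  · rintro e' ⟨h3, h4, u', hu', hpa', hl1, hl2⟩ a ha
    have h5 := hall u' hu' hl1 hl2 a ha
    have h6 : AL J B r a e'.1 := by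
      by_contra hcon
      exact killed_up (pp_ne_top h4) hpa' hcon h5
    have h7 : J.inst.M.D e'.1 a.1 + a.2 ≤ (J.restr B).inst.M.D e'.1 a.1 + a.2 :=
      add_le_add (restr_le J B e'.1 a.1) le_rfl
    exact h7.trans (h6.trans h3)

end Pool.Agent.BTV
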