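import Pool.Agent.BTV.PT
import Pool.Agent.BTV.PN
import Pool.Agent.BTV.PM

/-! BTV PU: planar targets, legs inside one interval `B` away from the landing of the farthest site.

`B` is fixed.  Write `M := J.inst.M`, `J' := J.restr B`, `M' := J'.inst.M`, `AL x v := AL J B r x v`.
PROOF.  `Y = ∅` trivial.  `c := e.1`.  `AL x c` for `x ∈ Y`.  `¬ AL x r.1`: `wd' x r.1 ≥ wd x r.1 > r.2 =
wd r r.1` (`restr_le`, `D_self`).  Exits `b_x` (`exists_exitAL`).  Choose `st ∈ Y` with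
`(D b_st r.1).toNat` maximal (finite: bounded by `D c r.1`), and among those with `b_x = b_st` with
`wd' x u` maximal, `u := b_st` (`wd' x u ≤ wd r u < ⊤`).  For `x ∈ Y` with `b_x ≠ u`: `b_x`, `u` are
comparable (`panc_total`); `D b_x r.1 ≤ D u r.1`, so `b_x` is a proper planar ancestor of `u`
(`D` strictly decreases upwards; two comparable vertices with the same distance agree), so
`par u` is planar and `b_x` is on its planar leg (`panc_par`), so `AL x (par u)` (`killed_up`).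
`L₁ :=` none if `u` is free towards `st.1` in `M'`, else `some (cell (TwP J'.inst X 1) μ ∩ B)`, `μ` the
landing (`free_or_land`; `μ ∈ B` by `restr_isV`).  `u ∈ FR st L₁`.
Two classes `i = false`: `Y₁ = {x | b_x = u}`, `v := u`; `i = true`: `Y₂ = {x | b_x ≠ u}`, `v := par u`
(`vv i u = v`).  In both: `v` planar, `AL x v`, `wd' x v ≤ wd' st v` (`i = false`: choice of `st`;
`i = true`: `wd' x v ≤ wd r v < wd' st v` by `KP st u`).
For each class, by the `M'`-leg of `v` towards `x` (`wd' x v` is finite):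
 (F) free: target `e' := (v, (wd r v).toNat)` for `M'`: `hd_free` for `J'.inst`, transported by
 `hd_larger` (`restr_le`) and `hd_shift` for `M`: `D c v + wd r v = wd r c ≤ e.2` (`wd_anc`), `x` is covered
 by `e'` in `M'` by `AL`.
 (N) landing in `cell (TwP J'.inst X 1) μ` (only if `L₁ ≠ none`): `hd_land` (`t = 0`) for `J'.inst`
 (`J'.ug`), same transport.
 (R) landing `ℓ ∈ B` (`restr_isV`), not in that cell: `ℓ ∉ OA L₁`, `ℓ ∉ OA A` (`Disjoint (OA A) B`):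
 `Hd.labelSet` with the label `fib E (OA A) (OA L₁) ℓ` (at most `4 s` values, `fib_ncard`); one class:
 `hd_far`: `OKF`: `A` a cell (`cell_itv`), `L₁ ⊆ B` an interval (intersection of intervals), `fib_itv`,
 `fib_disj`; `hs`, `ha` by `¬ AL x r.1`.  `GD`: `InL M' a.1 (some fib) v` by `fib_self`. -/

set_option autoImplicit false

open Classical

namespace Pool.Agent.BTV

open Pool.Agent.BTD Pool.Agent.H81.Balls

universe u

lemma PU_max {α : Type*} {Y : Set α} (hY : Y.Nonempty) (f : α → ℕ) (N : ℕ) (h : ∀ x ∈ Y, f x ≤ N) :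
    ∃ x ∈ Y, ∀ y ∈ Y, f y ≤ f x := by
  have hex : ∃ n : ℕ, ∀ y ∈ Y, f y ≤ n := ⟨N, h⟩
  have h1 := Nat.find_spec hex
  by_contra hcon
  push Not at hcon
  rcases Nat.eq_zero_or_pos (Nat.find hex) with h0 | h0
  · obtain ⟨x, hx⟩ := hY
    obtain ⟨y, hy, hlt⟩ := hcon x hx
    have := h1 y hy
    omega
  · refine Nat.find_min hex (m := Nat.find hex - 1) (by omega) fun y hy => ?_
    obtain ⟨z, hz, hlt⟩ := hcon y hy
    have := h1 z hz
    omega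

section

variable {V : Type u} {g k s : ℕ}

lemma PU_oa_none {E : NE V} : OA (E := E) none = ∅ := by
  ext p
  simp [OA]

lemma PU_oa_some {E : NE V} (α : Set (Fin E.n)) : OA (E := E) (some α) = α := by
  ext p
  simp [OA]

lemma PU_itv_empty {E : NE V} : E.Itv ∅ :=
  ⟨fun _ h => absurd h (Set.notMem_empty _), fun _ _ _ h => absurd h (Set.notMem_empty _)⟩

lemma PU_itv_inter {E : NE V} {α β : Set (Fin E.n)} (h : E.Itv α) (h' : E.Itv β) :
    E.Itv (α ∩ β) :=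
  ⟨fun p hp r hr => h.1 p hp.1 r hr.1, fun p q r hp hr h1 h2 =>
    ⟨h.2 p q r hp.1 hr.1 h1 h2, h'.2 p q r hp.2 hr.2 h1 h2⟩⟩

lemma PU_itv_oa {E : NE V} {A : Option (Set (Fin E.n))} (h : ∀ α, A = some α → E.Itv α) :
    E.Itv (OA A) := by
  cases A with
  | none => rw [PU_oa_none]; exact PU_itv_empty
  | some α => rw [PU_oa_some]; exact h α rfl

lemma PU_pp_ne_top {G : SimpleGraph V} {M : LMet G} {E : NE V} {q v : V}
    {A : Option (Set (Fin E.n))} (h : v ∈ PP M E q A) : M.D v q ≠ ⊤ := by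
  cases A with
  | none => exact h.1
  | some α => exact h.2.1

lemma PU_panc_lt (J : LInst g k s V) {q a b : V} (hD : J.inst.M.D b q ≠ ⊤)
    (h : PAnc J.inst.M J.E q a b) (hne : a ≠ b) :
    (J.inst.M.D a q).toNat < (J.inst.M.D b q).toNat := by
  have h1 := panc_par h hne
  have hb : b ≠ q := by
    intro hb
    subst hb
    obtain ⟨l, hl⟩ := panc_anc h
    rw [LMet.CAb_iter_root] at hl
    exact hne hl.symm
  have h2 := LMet.toNat_par_lt hb hD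
  have h3 := LMet.CAb_anc_toNat_le (panc_anc h1.1) (LMet.par_ne_top hD)
  omega

lemma PU_coe_toNat {a : ℕ∞} (h : a ≠ ⊤) : ((a.toNat : ℕ) : ℕ∞) = a := ENat.natCast_toNat h

/-- the two choices -/
lemma PU_choice (J : LInst g k s V) (B : Set (Fin J.E.n)) {Y : Set (V × ℕ)} (hY : Y.Nonempty)
    {r : V × ℕ} {c : V} (hD : J.inst.M.D c r.1 ≠ ⊤) (bx : V × ℕ → V)
    (h1 : ∀ x ∈ Y, PAnc J.inst.M J.E r.1 (bx x) c) (h2 : ∀ x ∈ Y, AL J B r x (bx x)) :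
    ∃ st ∈ Y, (∀ x ∈ Y, bx x = bx st →
        (J.restr B).inst.M.wd x (bx st) ≤ (J.restr B).inst.M.wd st (bx st)) ∧
      ∀ x ∈ Y, bx x ≠ bx st → PAnc J.inst.M J.E r.1 (bx x) (bx st) := by
  obtain ⟨x0, hx0, hmax⟩ := PU_max hY (fun x => (J.inst.M.D (bx x) r.1).toNat)
    (J.inst.M.D c r.1).toNat (fun x hx => LMet.CAb_anc_toNat_le (panc_anc (h1 x hx)) hD)
  have hfin : ∀ x ∈ Y, J.inst.M.D (bx x) r.1 ≠ ⊤ :=
    fun x hx => LMet.Anc.ne_top (panc_anc (h1 x hx)) hD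
  have hw : ∀ x ∈ Y, J.inst.M.wd r (bx x) ≠ ⊤ := fun x hx => LMet.wd_ne_top.2 (hfin x hx)
  have hw' : ∀ x ∈ Y, (J.restr B).inst.M.wd x (bx x) ≠ ⊤ := fun x hx =>
    ne_top_of_le_ne_top (hw x hx) (h2 x hx)
  obtain ⟨st, ⟨hst, hsu⟩, hmax2⟩ := PU_max (Y := {x | x ∈ Y ∧ bx x = bx x0}) ⟨x0, hx0, rfl⟩
    (fun x => ((J.restr B).inst.M.wd x (bx x)).toNat) (J.inst.M.wd r (bx x0)).toNat (by
      rintro x ⟨hx, hxe⟩
      rw [← hxe]
      exact ENat.toNat_le_toNat (h2 x hx) (hw x hx))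
  refine ⟨st, hst, ?_, ?_⟩
  · intro x hx hxe
    have h3 := hmax2 x ⟨hx, hxe.trans hsu⟩
    have h4 := hw' x hx
    have h5 := hw' st hst
    rw [← hxe]
    rw [← PU_coe_toNat h4]
    rw [hxe] at h3 ⊢
    rw [← PU_coe_toNat h5]
    exact_mod_cast h3
  · intro x hx hxe
    rcases panc_total (h1 x hx) (h1 st hst) with h | h
    · exact h
    · exfalso
      have h3 := PU_panc_lt J (hfin x hx) h (Ne.symm hxe)
      have h4 := hmax x hx
      rw [← hsu] at h4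
      omega

lemma PU_trans (J : LInst g k s V) (B : Set (Fin J.E.n)) {N : ℕ}
    {Cond : Set (V × ℕ) → Set (V × ℕ) → V × ℕ → Prop} (h : Hd (J.restr B).inst.M.inc N Cond) :
    Hd J.inst.M.inc N (fun X Y e => ∃ e' : V × ℕ, J.inst.M.D e.1 e'.1 + e'.2 ≤ e.2 ∧
      (∀ x ∈ Y, J.inst.M.inc e' x) ∧ ((∀ x ∈ Y, (J.restr B).inst.M.inc e' x) ∧ Cond X Y e')) :=
  hd_shift (hd_larger (restr_le J B) h)

lemma PU_tgt (J : LInst g k s V) (B : Set (Fin J.E.n)) {r e : V × ℕ} {v : V}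
    (hD : J.inst.M.D e.1 r.1 ≠ ⊤) (hcv : J.inst.M.Anc r.1 v e.1) (hinc : J.inst.M.inc e r) :
    J.inst.M.D e.1 v + ((J.inst.M.wd r v).toNat : ℕ∞) ≤ e.2 ∧
      ∀ x, AL J B r x v → (J.restr B).inst.M.inc (v, (J.inst.M.wd r v).toNat) x ∧
        J.inst.M.inc (v, (J.inst.M.wd r v).toNat) x := by
  have hf : J.inst.M.wd r v ≠ ⊤ := LMet.wd_ne_top.2 (LMet.Anc.ne_top hcv hD)
  refine ⟨?_, fun x hx => ?_⟩
  · rw [PU_coe_toNat hf, ← wd_anc hD hcv]
    exact hinc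
  · have h1 : (J.restr B).inst.M.wd x v ≤ ((J.inst.M.wd r v).toNat : ℕ∞) := by
      rw [PU_coe_toNat hf]; exact hx
    refine ⟨h1, ?_⟩
    refine le_trans ?_ h1
    exact add_le_add (restr_le J B v x.1) le_rfl

/-- the class of far landings -/
def PUfar (J : LInst g k s V) [Fintype V] (B : Set (Fin J.E.n)) (X Y : Set (V × ℕ)) (e : V × ℕ) : Prop :=
  ∃ (A L₁ : Option (Set (Fin J.E.n))) (r st : V × ℕ) (u : V)
      (i : Bool) (q₀ : Fin J.E.n),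
      (A = none ∨ ∃ p, A = some (J.E.cell (TwP J.inst X 1) p)) ∧
      (L₁ = none ∨ ∃ p, L₁ = some (J.E.cell (TwP (J.restr B).inst X 1) p ∩ B)) ∧
      r ∈ X ∧ st ∈ X ∧ J.inst.M.inc e r ∧ e.1 ∈ PP J.inst.M J.E r.1 A ∧ u ∈ FR J B A r st L₁ ∧
      PAnc J.inst.M J.E r.1 u e.1 ∧
      (∀ a ∈ Y, OKF J B A r st a L₁ (some (fib J.E (OA A) (OA L₁) q₀))) ∧
      ∀ a ∈ Y, GD J B A r st a L₁ (some (fib J.E (OA A) (OA L₁) q₀)) i u

def PUF (J : LInst g k s V) (B : Set (Fin J.E.n)) (Y : Set (V × ℕ)) (e : V × ℕ) : Prop :=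
  ∃ e' : V × ℕ, J.inst.M.D e.1 e'.1 + e'.2 ≤ e.2 ∧ (∀ x ∈ Y, J.inst.M.inc e' x) ∧
    ((∀ x ∈ Y, (J.restr B).inst.M.inc e' x) ∧
      ∀ x ∈ Y, Free (J.restr B).inst.M (J.restr B).inst.E x.1 e'.1)

def PUN (J : LInst g k s V) [Fintype V] (B : Set (Fin J.E.n)) (X Y : Set (V × ℕ)) (e : V × ℕ) : Prop :=
  ∃ e' : V × ℕ, J.inst.M.D e.1 e'.1 + e'.2 ≤ e.2 ∧ (∀ x ∈ Y, J.inst.M.inc e' x) ∧
    ((∀ x ∈ Y, (J.restr B).inst.M.inc e' x) ∧
      (¬ (J.restr B).inst.E.IsV e'.1 ∧ ∃ μ, ∀ x ∈ Y,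
        ∃ l ∈ (J.restr B).inst.E.cell (TwP (J.restr B).inst X (0 + 1)) μ,
          Land (J.restr B).inst.M (J.restr B).inst.E x.1 e'.1 l))

def PUR (J : LInst g k s V) [Fintype V] (B : Set (Fin J.E.n)) (X Y : Set (V × ℕ)) (e : V × ℕ) : Prop :=
  ∃ L : V × ℕ → Set (Fin J.E.n), {t | ∃ x ∈ Y, L x = t}.Finite ∧
      {t | ∃ x ∈ Y, L x = t}.ncard ≤ 4 * s ∧
      ∀ t, (∃ x ∈ Y, L x = t) → PUfar J B X {x ∈ Y | L x = t} e

lemma PU_F (J : LInst g k s V) (B : Set (Fin J.E.n)) {Z : Set (V × ℕ)} {r e : V × ℕ} {v : V}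
    (hD : J.inst.M.D e.1 r.1 ≠ ⊤) (hcv : J.inst.M.Anc r.1 v e.1) (hinc : J.inst.M.inc e r)
    (hal : ∀ x ∈ Z, AL J B r x v)
    (hf : ∀ x ∈ Z, Free (J.restr B).inst.M (J.restr B).inst.E x.1 v) : PUF J B Z e := by
  obtain ⟨h1, h2⟩ := PU_tgt J B hD hcv hinc
  exact ⟨(v, (J.inst.M.wd r v).toNat), h1, fun x hx => (h2 x (hal x hx)).2,
    fun x hx => (h2 x (hal x hx)).1, hf⟩

lemma PU_N [Fintype V] (J : LInst g k s V) (B : Set (Fin J.E.n)) {X Z : Set (V × ℕ)} {r e : V × ℕ}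
    {v : V} (hD : J.inst.M.D e.1 r.1 ≠ ⊤) (hcv : J.inst.M.Anc r.1 v e.1) (hinc : J.inst.M.inc e r)
    (hv : ¬ J.E.IsV v) (hal : ∀ x ∈ Z, AL J B r x v) (μ : Fin J.E.n)
    (hf : ∀ x ∈ Z, ∃ l ∈ J.E.cell (TwP (J.restr B).inst X 1) μ,
      Land (J.restr B).inst.M J.E x.1 v l) : PUN J B X Z e := by
  obtain ⟨h1, h2⟩ := PU_tgt J B hD hcv hinc
  exact ⟨(v, (J.inst.M.wd r v).toNat), h1, fun x hx => (h2 x (hal x hx)).2,
    fun x hx => (h2 x (hal x hx)).1, hv, μ, hf⟩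

lemma PU_R [Fintype V] (J : LInst g k s V) (B : Set (Fin J.E.n)) {X Z : Set (V × ℕ)}
    {r st e : V × ℕ} {u : V} {A L₁ : Option (Set (Fin J.E.n))} {i : Bool}
    (hA : A = none ∨ ∃ p, A = some (J.E.cell (TwP J.inst X 1) p)) (hB : J.E.Itv B)
    (hL : L₁ = none ∨ ∃ p, L₁ = some (J.E.cell (TwP (J.restr B).inst X 1) p ∩ B))
    (hr : r ∈ X) (hst : st ∈ X) (hinc : J.inst.M.inc e r) (hc : e.1 ∈ PP J.inst.M J.E r.1 A)
    (hAB : Disjoint (OA A) B) (hu : u ∈ FR J B A r st L₁) (huc : PAnc J.inst.M J.E r.1 u e.1)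
    (hsr : ¬ AL J B r st r.1) (hxr : ∀ x ∈ Z, ¬ AL J B r x r.1)
    (hv : ¬ J.E.IsV (vv J r i u)) (hal : ∀ x ∈ Z, AL J B r x (vv J r i u))
    (hle : ∀ x ∈ Z, (J.restr B).inst.M.wd x (vv J r i u) ≤ (J.restr B).inst.M.wd st (vv J r i u))
    (hland : ∀ x ∈ Z, (J.restr B).inst.M.D (vv J r i u) x.1 ≠ ⊤ ∧
      ∃ l, Land (J.restr B).inst.M J.E x.1 (vv J r i u) l ∧ l ∉ OA L₁) : PUR J B X Z e := by
  have iA : ∀ α, A = some α → J.E.Itv α := by
    intro α hα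
    rcases hA with h | ⟨p, h⟩
    · rw [h] at hα; exact absurd hα (by simp)
    · rw [h] at hα
      rw [← Option.some.inj hα]
      exact cell_itv _ _
  have i1 : ∀ α, L₁ = some α → J.E.Itv α := by
    intro α hα
    rcases hL with h | ⟨p, h⟩
    · rw [h] at hα; exact absurd hα (by simp)
    · rw [h] at hα
      rw [← Option.some.inj hα]
      exact PU_itv_inter (cell_itv _ _) hB
  have hLB : OA L₁ ⊆ B := by
    rcases hL with h | ⟨p, h⟩
    · rw [h, PU_oa_none]; exact Set.empty_subset _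
    · rw [h, PU_oa_some]; exact Set.inter_subset_right
  have d1 : Disjoint (OA A) (OA L₁) := hAB.mono_right hLB
  have D1 : ∀ x ∈ Z, (J.restr B).inst.M.D (vv J r i u) x.1 ≠ ⊤ := fun x hx => (hland x hx).1
  rcases Set.eq_empty_or_nonempty Z with hZ | ⟨x1, hx1⟩
  · refine ⟨fun _ => ∅, ?_, ?_, ?_⟩
    · rw [hZ]; simp
    · rw [hZ]; simp
    · rintro t ⟨x, hx, _⟩
      rw [hZ] at hx
      exact absurd hx (Set.notMem_empty _)
  obtain ⟨l1, -⟩ := (hland x1 hx1).2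
  have hland' : ∀ x : V × ℕ, ∃ l : Fin J.E.n, x ∈ Z →
      Land (J.restr B).inst.M J.E x.1 (vv J r i u) l ∧ l ∉ OA L₁ := by
    intro x
    by_cases hx : x ∈ Z
    · obtain ⟨l, hl⟩ := (hland x hx).2
      exact ⟨l, fun _ => hl⟩
    · exact ⟨l1, fun h => absurd h hx⟩
  choose lx hlx using hland'
  have hl := fun x hx => (hlx x hx).1
  have hl' := fun x hx => (hlx x hx).2
  have hlB : ∀ x ∈ Z, lx x ∈ B := fun x hx =>
    restr_isV J B hv (D1 x hx) (land_anc (hl x hx))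
  have hlA : ∀ x ∈ Z, lx x ∉ OA A := fun x hx hmem =>
    Set.disjoint_left.1 hAB hmem (hlB x hx)
  refine ⟨fun x => fib J.E (OA A) (OA L₁) (lx x), ?_, ?_, ?_⟩
  · refine (fib_ncard J.disc_lt (OA A) (OA L₁)).1.subset ?_
    rintro t ⟨x, _, rfl⟩
    exact ⟨lx x, rfl⟩
  · refine le_trans (Set.ncard_le_ncard ?_ (fib_ncard J.disc_lt (OA A) (OA L₁)).1)
      (fib_ncard J.disc_lt (OA A) (OA L₁)).2
    rintro t ⟨x, _, rfl⟩
    exact ⟨lx x, rfl⟩
  · rintro t ⟨x0, hx0, rfl⟩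
    refine ⟨A, L₁, r, st, u, i, lx x0, hA, hL, hr, hst, hinc, hc, hu, huc, ?_, ?_⟩
    · rintro a ⟨ha, hae⟩
      exact
        { iA := iA
          i1 := i1
          i2 := by
            intro α hα
            rw [← Option.some.inj hα]
            exact fib_itv (PU_itv_oa iA) (PU_itv_oa i1) _
          d1 := d1
          d2 := by rw [PU_oa_some]; exact fib_disj.1
          d12 := by rw [PU_oa_some]; exact fib_disj.2
          hs := fun _ => hsr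
          ha := fun _ => hxr a ha }
    · rintro a ⟨ha, hae⟩
      refine ⟨hu, hv, hal a ha, hle a ha, D1 a ha, lx a, ?_, hl a ha⟩
      have hae' : fib J.E (OA A) (OA L₁) (lx a) = fib J.E (OA A) (OA L₁) (lx x0) := hae
      rw [← hae']
      exact fib_self (hlA a ha) (hl' a ha)

/-- one class: two or three subclasses -/
lemma PU_cls [Fintype V] (J : LInst g k s V) (B : Set (Fin J.E.n)) {X Z : Set (V × ℕ)}
    {r st e : V × ℕ} {u : V} {A L₁ : Option (Set (Fin J.E.n))} {i : Bool}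
    (hA : A = none ∨ ∃ p, A = some (J.E.cell (TwP J.inst X 1) p)) (hB : J.E.Itv B)
    (hL : L₁ = none ∨ ∃ p, L₁ = some (J.E.cell (TwP (J.restr B).inst X 1) p ∩ B))
    (hr : r ∈ X) (hst : st ∈ X) (hinc : J.inst.M.inc e r) (hc : e.1 ∈ PP J.inst.M J.E r.1 A)
    (hAB : Disjoint (OA A) B) (hu : u ∈ FR J B A r st L₁) (huc : PAnc J.inst.M J.E r.1 u e.1)
    (hsr : ¬ AL J B r st r.1) (hxr : ∀ x ∈ Z, ¬ AL J B r x r.1)
    (hv : ¬ J.E.IsV (vv J r i u)) (hal : ∀ x ∈ Z, AL J B r x (vv J r i u))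
    (hle : ∀ x ∈ Z, (J.restr B).inst.M.wd x (vv J r i u) ≤ (J.restr B).inst.M.wd st (vv J r i u)) :
    ∃ l : List (Set (V × ℕ)), l.length ≤ 3 ∧ (∀ x ∈ Z, ∃ Y' ∈ l, x ∈ Y') ∧
      ∀ Y' ∈ l, Y' ⊆ Z ∧ (PUF J B Y' e ∨ (PUN J B X Y' e ∨ PUR J B X Y' e)) := by
  have hD : J.inst.M.D e.1 r.1 ≠ ⊤ := PU_pp_ne_top hc
  have hcv : J.inst.M.Anc r.1 (vv J r i u) e.1 := by
    cases i with
    | false => exact panc_anc huc
    | true => exact LMet.anc_trans LMet.anc_par (panc_anc huc)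
  have hDx : ∀ x ∈ Z, (J.restr B).inst.M.D (vv J r i u) x.1 ≠ ⊤ := fun x hx =>
    LMet.wd_ne_top.1 (ne_top_of_le_ne_top
      (LMet.wd_ne_top.2 (LMet.Anc.ne_top hcv hD)) (hal x hx))
  have hfl : ∀ x ∈ Z, Free (J.restr B).inst.M J.E x.1 (vv J r i u) ∨
      ∃ l, Land (J.restr B).inst.M J.E x.1 (vv J r i u) l := fun x hx =>
    free_or_land (hDx x hx)
  rcases hL with hL0 | ⟨p, hLp⟩
  · refine ⟨[{x ∈ Z | Free (J.restr B).inst.M J.E x.1 (vv J r i u)},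
      {x ∈ Z | ¬ Free (J.restr B).inst.M J.E x.1 (vv J r i u)}], by simp, ?_, ?_⟩
    · intro x hx
      by_cases hfx : Free (J.restr B).inst.M J.E x.1 (vv J r i u)
      · exact ⟨{x ∈ Z | Free (J.restr B).inst.M J.E x.1 (vv J r i u)}, by simp, hx, hfx⟩
      · exact ⟨{x ∈ Z | ¬ Free (J.restr B).inst.M J.E x.1 (vv J r i u)}, by simp, hx, hfx⟩
    · intro Y' hY'
      simp only [List.mem_cons, List.not_mem_nil, or_false] at hY'
      rcases hY' with rfl | rfl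
      · exact ⟨fun x hx => hx.1, Or.inl (PU_F J B hD hcv hinc (fun x hx => hal x hx.1)
          (fun x hx => hx.2))⟩
      · refine ⟨fun x hx => hx.1, Or.inr (Or.inr (PU_R J B (u := u) (i := i) hA hB (Or.inl hL0) hr hst
          hinc hc hAB hu huc hsr (fun x hx => hxr x hx.1) hv (fun x hx => hal x hx.1)
          (fun x hx => hle x hx.1) (fun x hx => ⟨hDx x hx.1, ?_⟩)))⟩
        rcases hfl x hx.1 with h | ⟨l, h⟩
        · exact absurd h hx.2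
        · refine ⟨l, h, ?_⟩
          rw [hL0, PU_oa_none]
          exact Set.notMem_empty _
  · refine ⟨[{x ∈ Z | Free (J.restr B).inst.M J.E x.1 (vv J r i u)},
      {x ∈ Z | ∃ l ∈ J.E.cell (TwP (J.restr B).inst X 1) p,
        Land (J.restr B).inst.M J.E x.1 (vv J r i u) l},
      {x ∈ Z | ¬ Free (J.restr B).inst.M J.E x.1 (vv J r i u) ∧
        ¬ ∃ l ∈ J.E.cell (TwP (J.restr B).inst X 1) p,
        Land (J.restr B).inst.M J.E x.1 (vv J r i u) l}], by simp, ?_, ?_⟩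
    · intro x hx
      by_cases hfx : Free (J.restr B).inst.M J.E x.1 (vv J r i u)
      · exact ⟨{x ∈ Z | Free (J.restr B).inst.M J.E x.1 (vv J r i u)}, by simp, hx, hfx⟩
      · by_cases hlx : ∃ l ∈ J.E.cell (TwP (J.restr B).inst X 1) p,
          Land (J.restr B).inst.M J.E x.1 (vv J r i u) l
        · exact ⟨{x ∈ Z | ∃ l ∈ J.E.cell (TwP (J.restr B).inst X 1) p,
            Land (J.restr B).inst.M J.E x.1 (vv J r i u) l}, by simp, hx, hlx⟩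
        · exact ⟨{x ∈ Z | ¬ Free (J.restr B).inst.M J.E x.1 (vv J r i u) ∧
            ¬ ∃ l ∈ J.E.cell (TwP (J.restr B).inst X 1) p,
            Land (J.restr B).inst.M J.E x.1 (vv J r i u) l}, by simp, hx, hfx, hlx⟩
    · intro Y' hY'
      simp only [List.mem_cons, List.not_mem_nil, or_false] at hY'
      rcases hY' with rfl | rfl | rfl
      · exact ⟨fun x hx => hx.1, Or.inl (PU_F J B hD hcv hinc (fun x hx => hal x hx.1)
          (fun x hx => hx.2))⟩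
      · exact ⟨fun x hx => hx.1, Or.inr (Or.inl (PU_N J B hD hcv hinc hv
          (fun x hx => hal x hx.1) p (fun x hx => hx.2)))⟩
      · refine ⟨fun x hx => hx.1, Or.inr (Or.inr (PU_R J B (u := u) (i := i) hA hB (Or.inr ⟨p, hLp⟩)
          hr hst hinc hc hAB hu huc hsr (fun x hx => hxr x hx.1) hv (fun x hx => hal x hx.1)
          (fun x hx => hle x hx.1) (fun x hx => ⟨hDx x hx.1, ?_⟩)))⟩
        rcases hfl x hx.1 with h | ⟨l, h⟩
        · exact absurd h hx.2.1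
        · refine ⟨l, h, ?_⟩
          rw [hLp, PU_oa_some]
          intro hmem
          exact hx.2.2 ⟨l, hmem.1, h⟩

lemma PU_main [Fintype V] (J : LInst g k s V) (B : Set (Fin J.E.n)) {X Y : Set (V × ℕ)}
    {r e : V × ℕ} {A : Option (Set (Fin J.E.n))} (hYX : Y ⊆ X)
    (hA : A = none ∨ ∃ p, A = some (J.E.cell (TwP J.inst X 1) p)) (hB : J.E.Itv B)
    (hr : r ∈ X) (hinc : J.inst.M.inc e r) (hc : e.1 ∈ PP J.inst.M J.E r.1 A)
    (hAB : Disjoint (OA A) B)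
    (hw1 : ∀ x ∈ Y, J.inst.M.wd x e.1 ≤ J.inst.M.wd r e.1)
    (hw2 : ∀ x ∈ Y, (J.restr B).inst.M.wd x e.1 = J.inst.M.wd x e.1)
    (hw3 : ∀ x ∈ Y, (r.2 : ℕ∞) < J.inst.M.wd x r.1) :
    ∃ l : List (Set (V × ℕ)), l.length ≤ 6 ∧ (∀ x ∈ Y, ∃ Y' ∈ l, x ∈ Y') ∧
      ∀ Y' ∈ l, Y' ⊆ Y ∧ (PUF J B Y' e ∨ (PUN J B X Y' e ∨ PUR J B X Y' e)) := by
  rcases Set.eq_empty_or_nonempty Y with hY | hY
  · exact ⟨[], by simp, by rw [hY]; simp, by simp⟩
  have hD : J.inst.M.D e.1 r.1 ≠ ⊤ := PU_pp_ne_top hc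
  have hal : ∀ x ∈ Y, AL J B r x e.1 := fun x hx => by
    show (J.restr B).inst.M.wd x e.1 ≤ J.inst.M.wd r e.1
    rw [hw2 x hx]; exact hw1 x hx
  have hxr : ∀ x ∈ Y, ¬ AL J B r x r.1 := fun x hx h => by
    have h' : (J.restr B).inst.M.wd x r.1 ≤ J.inst.M.wd r r.1 := h
    have h1 : J.inst.M.wd x r.1 ≤ (J.restr B).inst.M.wd x r.1 :=
      add_le_add (restr_le J B r.1 x.1) le_rfl
    have h2 : J.inst.M.wd r r.1 = (r.2 : ℕ∞) := by
      simp [LMet.wd, J.inst.M.D_self]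
    exact absurd (hw3 x hx) (not_lt.2 (h1.trans (h'.trans h2.le)))
  have hex : ∀ x : V × ℕ, ∃ b, x ∈ Y → PAnc J.inst.M J.E r.1 b e.1 ∧ AL J B r x b ∧
      KP J B r x b := by
    intro x
    by_cases hx : x ∈ Y
    · obtain ⟨b, hb⟩ := exists_exitAL hc (hal x hx) (fun _ => hxr x hx)
      exact ⟨b, fun _ => hb⟩
    · exact ⟨e.1, fun h => absurd h hx⟩
  choose bx hbx using hex
  obtain ⟨st, hst, hmax, hanc⟩ := PU_choice J B hY hD bx (fun x hx => (hbx x hx).1)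
    (fun x hx => (hbx x hx).2.1)
  obtain ⟨huc, hus, huk⟩ := hbx st hst
  generalize hu : bx st = u at *
  have hpu : u ∈ PP J.inst.M J.E r.1 A := panc_pp hc huc
  have huV : ¬ J.E.IsV u := (mem_pp.1 hpu).1
  have hDur : J.inst.M.D u r.1 ≠ ⊤ := LMet.Anc.ne_top (panc_anc huc) hD
  have hDu : (J.restr B).inst.M.D u st.1 ≠ ⊤ := LMet.wd_ne_top.1
    (ne_top_of_le_ne_top (LMet.wd_ne_top.2 hDur) hus)
  obtain ⟨L₁, hL, hin⟩ : ∃ L₁ : Option (Set (Fin J.E.n)),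
      (L₁ = none ∨ ∃ p, L₁ = some (J.E.cell (TwP (J.restr B).inst X 1) p ∩ B)) ∧
        InL (J.restr B).inst.M J.E st.1 L₁ u := by
    have hfl : Free (J.restr B).inst.M J.E st.1 u ∨
      ∃ l, Land (J.restr B).inst.M J.E st.1 u l := free_or_land hDu
    rcases hfl with h | ⟨μ, h⟩
    · exact ⟨none, Or.inl rfl, h⟩
    · exact ⟨some (J.E.cell (TwP (J.restr B).inst X 1) μ ∩ B), Or.inr ⟨μ, rfl⟩, hDu, μ,
        ⟨cell_self, restr_isV J B huV hDu (land_anc h)⟩, h⟩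
  have huF : u ∈ FR J B A r st L₁ := ⟨hpu, hus, huk, hin⟩
  obtain ⟨l1, hl1, hc1, hp1⟩ := PU_cls J B (Z := {x ∈ Y | bx x = u}) (i := false) hA hB hL hr
    (hYX hst) hinc hc hAB huF huc (hxr st hst) (fun x hx => hxr x hx.1) huV
    (fun x hx => by
      show AL J B r x u
      rw [← hx.2]
      exact (hbx x hx.1).2.1)
    (fun x hx => hmax x hx.1 hx.2)
  rcases Set.eq_empty_or_nonempty {x ∈ Y | bx x ≠ u} with hE | ⟨x0, hx0, hne0⟩
  · refine ⟨l1, by omega, fun x hx => hc1 x ⟨hx, ?_⟩, fun Y' hY' => ?_⟩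
    · by_contra hcon
      have : x ∈ {x ∈ Y | bx x ≠ u} := ⟨hx, hcon⟩
      rw [hE] at this
      exact this
    · obtain ⟨ha, hb⟩ := hp1 Y' hY'
      exact ⟨fun x hx => (ha hx).1, hb⟩
  have hpV : ¬ J.E.IsV (J.inst.M.par r.1 u) := (panc_par (hanc x0 hx0 hne0) hne0).2
  have hk : ¬ AL J B r st (J.inst.M.par r.1 u) := huk.resolve_left hpV
  have halp : ∀ x ∈ Y, bx x ≠ u → AL J B r x (J.inst.M.par r.1 u) := by
    intro x hx hne
    by_contra hcon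
    exact killed_up (LMet.par_ne_top hDur) (panc_par (hanc x hx hne) hne).1 hcon (hbx x hx).2.1
  obtain ⟨l2, hl2, hc2, hp2⟩ := PU_cls J B (Z := {x ∈ Y | bx x ≠ u}) (i := true) hA hB hL hr
    (hYX hst) hinc hc hAB huF huc (hxr st hst) (fun x hx => hxr x hx.1) hpV
    (fun x hx => halp x hx.1 hx.2)
    (fun x hx => le_trans (halp x hx.1 hx.2) (le_of_lt (not_le.1 hk)))
  refine ⟨l1 ++ l2, by rw [List.length_append]; omega, fun x hx => ?_, fun Y' hY' => ?_⟩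
  · by_cases hxe : bx x = u
    · obtain ⟨Y', h1, h2⟩ := hc1 x ⟨hx, hxe⟩
      exact ⟨Y', List.mem_append.2 (Or.inl h1), h2⟩
    · obtain ⟨Y', h1, h2⟩ := hc2 x ⟨hx, hxe⟩
      exact ⟨Y', List.mem_append.2 (Or.inr h1), h2⟩
  · rcases List.mem_append.1 hY' with h | h
    · obtain ⟨ha, hb⟩ := hp1 Y' h
      exact ⟨fun x hx => (ha hx).1, hb⟩
    · obtain ⟨ha, hb⟩ := hp2 Y' h
      exact ⟨fun x hx => (ha hx).1, hb⟩

end

theorem hdP2 (g k s : ℕ) : ∃ N : ℕ, ∀ (V : Type u) [Fintype V] (J : LInst g k s V)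
    (B : Set (Fin J.E.n)),
    Hd J.inst.M.inc N (fun X Y e => ∃ (A : Option (Set (Fin J.E.n))) (r : V × ℕ),
      (A = none ∨ ∃ p, A = some (J.E.cell (TwP J.inst X 1) p)) ∧ J.E.Itv B ∧
      r ∈ X ∧ J.inst.M.inc e r ∧ e.1 ∈ PP J.inst.M J.E r.1 A ∧ Disjoint (OA A) B ∧
      (∀ x ∈ Y, J.inst.M.wd x e.1 ≤ J.inst.M.wd r e.1) ∧
      (∀ x ∈ Y, (J.restr B).inst.M.wd x e.1 = J.inst.M.wd x e.1) ∧
      ∀ x ∈ Y, (r.2 : ℕ∞) < J.inst.M.wd x r.1) := by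
  obtain ⟨N1, h1⟩ := hd_free.{u} g k s
  obtain ⟨N2, h2⟩ := hd_land.{u} g k s 0
  obtain ⟨N3, h3⟩ := hd_far.{u} g k s
  refine ⟨ld (N1 + (N2 + ld N3 (4 * s))) 6, fun V _ J B => ?_⟩
  have H1 := PU_trans J B (h1 V (J.restr B).inst)
  have H2 := PU_trans J B (h2 V (J.restr B).inst (J.restr B).ug)
  have H3 := Hd.labelSet (T := Set (Fin J.E.n)) (h3 V J B) (4 * s)
  refine Hd.weaken (Hd.split (Hd.or H1 (Hd.or H2 H3)) 6) le_rfl ?_
  rintro X Y e hYX - ⟨A, r, hA, hB, hr, hincr, hc, hAB, hw1, hw2, hw3⟩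
  exact PU_main J B hYX hA hB hr hincr hc hAB hw1 hw2 hw3

end Pool.Agent.BTV
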