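import Pool.Agent.BTV.PU

/-! BTV PV: planar targets, and the positive certificate for generic lengths.

PROOF of `hdP`.  `c := e.1` planar; `Y = ∅` trivial; `r ∈ Y` farthest (`exists_far`).  Classes:
(D) `wd x r.1 ≤ r.2`: contains `r` (`D_self`); `hd_dom`: `wd x v ≤ D v r.1 + wd x r.1 ≤ wd r v` (`wd_tri`).
(F) free legs: `hd_free`.
Otherwise the leg lands at `f_x` (`free_or_land`).  `A := none` if the leg of `c` to `r` is free, else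
`some (cell (TwP 1) f₀)`, `f₀` its landing; `c ∈ PP r.1 A`.
(N) `f_x ∈ OA A`: `hd_land` (`t = 0`, `μ = f₀`).
(R) `f_x ∉ OA A`: label `B := fib E (OA A) ∅ f_x` (at most `4 s` values: `Hd.labelSet`); `B` is decodable
(`Dcd.option (twP_dcd 1)` for `A`, `fib_dcd`), an interval (`fib_itv`), disjoint from `OA A` (`fib_disj`).
For one class: tails: sites with some `w f` on the leg of `w f_x`, `f ∉ B`: `hd_tail` (`β = B`).  The
others: all vortex vertices on the leg of `c` are in `B` (`land_first`), `restr_eq`: `wd' x c = wd x c`: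
`hdP2` for this `B` (`Hd.param` over `B`), not of class (D) so `r.2 < wd x r.1`.
`certP`: `Hd.or hdV hdP`, `Hd.weaken`, `Hd.cert`. -/

set_option autoImplicit false

open Classical

namespace Pool.Agent.BTV

open Pool.Agent.BTD Pool.Agent.H81.Balls

universe u

section

variable {V : Type u} {g k s : ℕ}

/-- the condition of `hdP2` -/
def PVC [Fintype V] (J : LInst g k s V) (B : Set (Fin J.E.n)) (X Y : Set (V × ℕ)) (e : V × ℕ) : Prop :=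
  ∃ (A : Option (Set (Fin J.E.n))) (r : V × ℕ),
      (A = none ∨ ∃ p, A = some (J.E.cell (TwP J.inst X 1) p)) ∧ J.E.Itv B ∧
      r ∈ X ∧ J.inst.M.inc e r ∧ e.1 ∈ PP J.inst.M J.E r.1 A ∧ Disjoint (OA A) B ∧
      (∀ x ∈ Y, J.inst.M.wd x e.1 ≤ J.inst.M.wd r e.1) ∧
      (∀ x ∈ Y, (J.restr B).inst.M.wd x e.1 = J.inst.M.wd x e.1) ∧
      ∀ x ∈ Y, (r.2 : ℕ∞) < J.inst.M.wd x r.1

/-- the decodable intervals -/
def PVB [Fintype V] (J : LInst g k s V) (X : Set (V × ℕ)) (B : Set (Fin J.E.n)) : Prop :=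
  ∃ (z : Set (Fin J.E.n) × Set (Fin J.E.n)) (q₀ : Fin J.E.n),
    (∃ o : Option (Set (Fin J.E.n)), (∀ α, o = some α → ∃ p, α = J.inst.E.cell (TwP J.inst X 1) p) ∧
      (OA (E := J.E) o, (∅ : Set (Fin J.E.n))) = z) ∧ B = fib J.E z.1 z.2 q₀

/-- one class of landings in `B`: tails or restricted -/
def PVS [Fintype V] (J : LInst g k s V) (X Y : Set (V × ℕ)) (e : V × ℕ) : Prop :=
  (¬ J.inst.E.IsV e.1 ∧ ∃ β, J.inst.E.Itv β ∧ ∀ x ∈ Y, ∃ l ∈ β,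
      Land J.inst.M J.inst.E x.1 e.1 l ∧ ∃ f, f ∉ β ∧ J.inst.M.Anc x.1 (J.inst.E.w f) (J.inst.E.w l)) ∨
    ∃ B, PVB J X B ∧ PVC J B X Y e

def PVR [Fintype V] (J : LInst g k s V) (X Y : Set (V × ℕ)) (e : V × ℕ) : Prop :=
  ∃ L : V × ℕ → Set (Fin J.E.n), {t | ∃ x ∈ Y, L x = t}.Finite ∧
      {t | ∃ x ∈ Y, L x = t}.ncard ≤ 4 * s ∧ ∀ t, (∃ x ∈ Y, L x = t) →
        ∃ l : List (Set (V × ℕ)), l.length ≤ 2 ∧ (∀ x ∈ {x ∈ Y | L x = t}, ∃ Y' ∈ l, x ∈ Y') ∧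
          ∀ Y' ∈ l, Y' ⊆ {x ∈ Y | L x = t} ∧ PVS J X Y' e

lemma PV_inc_top {G : SimpleGraph V} {M : LMet G} {e x : V × ℕ} (h : M.inc e x) :
    M.D e.1 x.1 ≠ ⊤ := by
  intro h0
  have h1 : M.D e.1 x.1 + x.2 ≤ e.2 := h
  rw [h0, top_add] at h1
  exact absurd (top_le_iff.mp h1) (ENat.natCast_ne_top _)

lemma PV_R [Fintype V] (J : LInst g k s V) {X Y : Set (V × ℕ)} {r e : V × ℕ}
    {A : Option (Set (Fin J.E.n))}
    (hA : A = none ∨ ∃ p, A = some (J.E.cell (TwP J.inst X 1) p))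
    (hr : r ∈ X) (hinc : J.inst.M.inc e r) (hc : e.1 ∈ PP J.inst.M J.E r.1 A)
    (hcV : ¬ J.E.IsV e.1) (hY : ∀ x ∈ Y, J.inst.M.D e.1 x.1 ≠ ⊤)
    (hw1 : ∀ x ∈ Y, J.inst.M.wd x e.1 ≤ J.inst.M.wd r e.1)
    (hw3 : ∀ x ∈ Y, (r.2 : ℕ∞) < J.inst.M.wd x r.1)
    (hl : ∀ x ∈ Y, ∃ l, l ∉ OA A ∧ Land J.inst.M J.E x.1 e.1 l) (hne : Y.Nonempty) :
    PVR J X Y e := by
  have iA : ∀ α, A = some α → J.E.Itv α := by
    intro α hα
    rcases hA with h | ⟨p, h⟩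
    · rw [h] at hα; exact absurd hα (by simp)
    · rw [h] at hα
      rw [← Option.some.inj hα]
      exact cell_itv _ _
  obtain ⟨x1, hx1⟩ := hne
  obtain ⟨l1, -, -⟩ := hl x1 hx1
  have hch : ∀ x : V × ℕ, ∃ l : Fin J.E.n, x ∈ Y → (l ∉ OA A ∧ Land J.inst.M J.E x.1 e.1 l) := by
    intro x
    by_cases hx : x ∈ Y
    · obtain ⟨l, h⟩ := hl x hx
      exact ⟨l, fun _ => h⟩
    · exact ⟨l1, fun h => absurd h hx⟩
  choose lx hlx using hch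
  refine ⟨fun x => fib J.E (OA A) ∅ (lx x), ?_, ?_, ?_⟩
  · refine (fib_ncard J.disc_lt (OA A) ∅).1.subset ?_
    rintro t ⟨x, _, rfl⟩
    exact ⟨lx x, rfl⟩
  · refine le_trans (Set.ncard_le_ncard ?_ (fib_ncard J.disc_lt (OA A) ∅).1)
      (fib_ncard J.disc_lt (OA A) ∅).2
    rintro t ⟨x, _, rfl⟩
    exact ⟨lx x, rfl⟩
  · rintro t ⟨x0, hx0, ht⟩
    have hB : J.E.Itv t := by
      rw [← ht]
      exact fib_itv (PU_itv_oa iA) PU_itv_empty _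
    have hself : ∀ x ∈ Y, fib J.E (OA A) ∅ (lx x) = t → lx x ∈ t := by
      intro x hx hxt
      rw [← hxt]
      exact fib_self (hlx x hx).1 (Set.notMem_empty _)
    refine ⟨[{x ∈ {x ∈ Y | fib J.E (OA A) ∅ (lx x) = t} |
          ∃ f, f ∉ t ∧ J.inst.M.Anc x.1 (J.E.w f) (J.E.w (lx x))},
        {x ∈ {x ∈ Y | fib J.E (OA A) ∅ (lx x) = t} |
          ¬ ∃ f, f ∉ t ∧ J.inst.M.Anc x.1 (J.E.w f) (J.E.w (lx x))}], by simp, ?_, ?_⟩
    · intro x hx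
      by_cases hf : ∃ f, f ∉ t ∧ J.inst.M.Anc x.1 (J.E.w f) (J.E.w (lx x))
      · exact ⟨_, List.mem_cons_self, hx, hf⟩
      · exact ⟨_, List.mem_cons_of_mem _ List.mem_cons_self, hx, hf⟩
    · intro Y' hY'
      simp only [List.mem_cons, List.not_mem_nil, or_false] at hY'
      rcases hY' with rfl | rfl
      · refine ⟨fun x hx => hx.1, Or.inl ⟨hcV, t, hB, ?_⟩⟩
        rintro x ⟨⟨hx, hxt⟩, hf⟩
        exact ⟨lx x, hself x hx hxt, (hlx x hx).2, hf⟩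
      · refine ⟨fun x hx => hx.1, Or.inr ⟨t, ⟨(OA A, ∅), lx x0, ⟨A, ?_, rfl⟩, ht.symm⟩, A, r, hA, hB,
          hr, hinc, hc, ?_, fun x hx => hw1 x hx.1.1, ?_, fun x hx => hw3 x hx.1.1⟩⟩
        · intro α hα
          rcases hA with h | ⟨p, h⟩
          · rw [h] at hα; exact absurd hα (by simp)
          · rw [h] at hα
            exact ⟨p, (Option.some.inj hα).symm⟩
        · rw [← ht]
          exact fib_disj.1
        · rintro x ⟨⟨hx, hxt⟩, hf⟩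
          have h1 : (J.restr t).inst.M.D e.1 x.1 = J.inst.M.D e.1 x.1 := by
            refine restr_eq J t (hY x hx) fun p hp => ?_
            by_contra hpt
            exact hf ⟨p, hpt, land_first (hlx x hx).2 hp ⟨p, rfl⟩⟩
          show (J.restr t).inst.M.D e.1 x.1 + x.2 = J.inst.M.D e.1 x.1 + x.2
          rw [h1]

lemma PV_main [Fintype V] (J : LInst g k s V) {X Y : Set (V × ℕ)} {e : V × ℕ} (hYX : Y ⊆ X)
    (hinc : ∀ x ∈ Y, J.inst.M.inc e x) (hcV : ¬ J.E.IsV e.1) :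
    ∃ l : List (Set (V × ℕ)), l.length ≤ 4 ∧ (∀ x ∈ Y, ∃ Y' ∈ l, x ∈ Y') ∧
      ∀ Y' ∈ l, Y' ⊆ Y ∧
        ((Y' = ∅ ∨ ∃ r ∈ Y', ∀ x ∈ Y', ∀ c, J.inst.M.wd x c ≤ J.inst.M.wd r c) ∨
        ((∀ x ∈ Y', Free J.inst.M J.inst.E x.1 e.1) ∨
        ((¬ J.inst.E.IsV e.1 ∧ ∃ μ, ∀ x ∈ Y', ∃ l ∈ J.inst.E.cell (TwP J.inst X (0 + 1)) μ,
          Land J.inst.M J.inst.E x.1 e.1 l) ∨ PVR J X Y' e))) := by
  rcases Set.eq_empty_or_nonempty Y with hY | hY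
  · exact ⟨[], by simp, by rw [hY]; simp, by simp⟩
  obtain ⟨r, hr, hfar⟩ := exists_far (M := J.inst.M) (c := e.1) (ρ := e.2) hY
    (fun x hx => hinc x hx)
  have hD : ∀ x ∈ Y, J.inst.M.D e.1 x.1 ≠ ⊤ := fun x hx => PV_inc_top (hinc x hx)
  obtain ⟨A, hA, hc⟩ : ∃ A : Option (Set (Fin J.E.n)),
      (A = none ∨ ∃ p, A = some (J.E.cell (TwP J.inst X 1) p)) ∧
        e.1 ∈ PP J.inst.M J.E r.1 A := by
    have hfl : Free J.inst.M J.E r.1 e.1 ∨ ∃ l, Land J.inst.M J.E r.1 e.1 l :=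
      free_or_land (hD r hr)
    rcases hfl with h | ⟨p, h⟩
    · exact ⟨none, Or.inl rfl, h⟩
    · exact ⟨some (J.E.cell (TwP J.inst X 1) p), Or.inr ⟨p, rfl⟩, hcV, hD r hr, p, cell_self, h⟩
  refine ⟨[{x ∈ Y | J.inst.M.wd x r.1 ≤ r.2}, {x ∈ Y | Free J.inst.M J.E x.1 e.1},
    {x ∈ Y | ∃ l ∈ OA A, Land J.inst.M J.E x.1 e.1 l},
    {x ∈ Y | (r.2 : ℕ∞) < J.inst.M.wd x r.1 ∧ ∃ l, l ∉ OA A ∧ Land J.inst.M J.E x.1 e.1 l}],
    by simp, ?_, ?_⟩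
  · intro x hx
    by_cases h1 : J.inst.M.wd x r.1 ≤ r.2
    · exact ⟨_, List.mem_cons_self, hx, h1⟩
    have hfl : Free J.inst.M J.E x.1 e.1 ∨ ∃ l, Land J.inst.M J.E x.1 e.1 l :=
      free_or_land (hD x hx)
    rcases hfl with h2 | ⟨l, h2⟩
    · exact ⟨_, List.mem_cons_of_mem _ List.mem_cons_self, hx, h2⟩
    by_cases h3 : l ∈ OA A
    · exact ⟨_, List.mem_cons_of_mem _ (List.mem_cons_of_mem _ List.mem_cons_self), hx, l, h3, h2⟩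
    · exact ⟨_, List.mem_cons_of_mem _ (List.mem_cons_of_mem _ (List.mem_cons_of_mem _
        List.mem_cons_self)), hx, not_le.1 h1, l, h3, h2⟩
  · intro Y' hY'
    simp only [List.mem_cons, List.not_mem_nil, or_false] at hY'
    rcases hY' with rfl | rfl | rfl | rfl
    · refine ⟨fun x hx => hx.1, Or.inl (Or.inr ⟨r, ⟨hr, ?_⟩, ?_⟩)⟩
      · show J.inst.M.D r.1 r.1 + r.2 ≤ r.2
        rw [J.inst.M.D_self, zero_add]
      · rintro x ⟨hx, hxr⟩ c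
        refine le_trans (wd_tri x c r.1) ?_
        exact add_le_add le_rfl hxr
    · exact ⟨fun x hx => hx.1, Or.inr (Or.inl fun x hx => hx.2)⟩
    · refine ⟨fun x hx => hx.1, ?_⟩
      rcases hA with h | ⟨p, h⟩
      · refine Or.inl (Or.inl (Set.eq_empty_of_forall_notMem ?_))
        rintro x ⟨-, l, hl, -⟩
        rw [h, PU_oa_none] at hl
        exact hl
      · refine Or.inr (Or.inr (Or.inl ⟨hcV, p, ?_⟩))
        rintro x ⟨-, l, hl, hl'⟩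
        rw [h, PU_oa_some] at hl
        exact ⟨l, hl, hl'⟩
    · refine ⟨fun x hx => hx.1, ?_⟩
      rcases Set.eq_empty_or_nonempty {x ∈ Y | (r.2 : ℕ∞) < J.inst.M.wd x r.1 ∧
        ∃ l, l ∉ OA A ∧ Land J.inst.M J.E x.1 e.1 l} with h | h
      · exact Or.inl (Or.inl h)
      · exact Or.inr (Or.inr (Or.inr (PV_R J hA (hYX hr) (hinc r hr) hc hcV
          (fun x hx => hD x hx.1) (fun x hx => hfar x hx.1) (fun x hx => hx.2.1)
          (fun x hx => hx.2.2) h)))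

end

theorem hdP (g k s : ℕ) : ∃ N : ℕ, ∀ (V : Type u) [Fintype V] (J : LInst g k s V),
    Hd J.inst.M.inc N (fun _ _ e => ¬ J.E.IsV e.1) := by
  obtain ⟨N1, h1⟩ := hd_free.{u} g k s
  obtain ⟨N2, h2⟩ := hd_land.{u} g k s 0
  obtain ⟨N3, h3⟩ := hd_tail.{u} g k s
  obtain ⟨N4, h4⟩ := hdP2.{u} g k s
  obtain ⟨N5, h5⟩ := twP_dcd.{u} g k s 1
  obtain ⟨N6, h6⟩ := fib_dcd.{u} (N5 + 1) s
  refine ⟨ld (1 + (N1 + (N2 + ld (ld (N3 + bd N6 N4) 2) (4 * s)))) 4, fun V _ J => ?_⟩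
  have HB : Dcd N6 (PVB J) :=
    h6 V (V × ℕ) J.E J.disc_lt _ ((h5 V J.inst).2.option.map
      (fun o => (OA (E := J.E) o, (∅ : Set (Fin J.E.n)))))
  have HC : Hd J.inst.M.inc (bd N6 N4) (fun X Y e => ∃ B, PVB J X B ∧ PVC J B X Y e) :=
    Hd.param HB (fun B => h4 V J B)
  have HS : Hd J.inst.M.inc (N3 + bd N6 N4) (PVS J) := Hd.or (h3 V J.inst J.ug) HC
  have HR : Hd J.inst.M.inc (ld (ld (N3 + bd N6 N4) 2) (4 * s)) (PVR J) :=
    Hd.labelSet (T := Set (Fin J.E.n)) (Hd.split HS 2) (4 * s)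
  refine Hd.weaken (Hd.split (Hd.or hd_dom (Hd.or (h1 V J.inst) (Hd.or (h2 V J.inst J.ug) HR))) 4)
    le_rfl ?_
  intro X Y e hYX hinc hcV
  exact PV_main J hYX hinc hcV

theorem certP (g k s : ℕ) : ∃ N : ℕ, ∀ (V : Type u) [Fintype V] (J : LInst g k s V),
    Cert true N J.inst.M.inc Set.univ Set.univ := by
  obtain ⟨N1, h1⟩ := hdV.{u} g k s
  obtain ⟨N2, h2⟩ := hdP.{u} g k s
  refine ⟨N1 + N2, fun V _ J => ?_⟩
  refine Hd.cert (Hd.weaken (Hd.or (h1 V J.inst J.ug) (h2 V J)) le_rfl ?_)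
  intro X Y e _ _ _
  exact Classical.em _

end Pool.Agent.BTV
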