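import Pool.Agent.BTD.CDefs
import Pool.Agent.BTD.CAa
import Pool.Agent.BTD.CAb
import Pool.Agent.BTD.T4

/-! BTV RTa: length metrics with prescribed trees.

`RT Γ`: a rooted tree in the graph `Γ`.

PROOF of `exists_treeMet`: lengths of darts `a → b`: `1` if `b = T.p a`, `a ∈ comp`, `a ≠ T.r`;
`card W + 2` otherwise; `M := pathMet Γ len _` (`Pool/Agent/BTD/T4.lean`, distances are infima of the
walk lengths `wlen`).  For `v ∈ comp` the walk `v, p v, p (p v), …, r` has at most `card W` steps (`mu`
decreases strictly, the vertices are distinct), so `D v r ≤ card W`; by `LMet.par_D` the dart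
`v → par v` has length `≤ card W`, so `par v = p v`. -/

set_option autoImplicit false

open Classical

namespace Pool.Agent.BTV

open Pool.Agent.BTD

universe u

/-- A rooted tree in `Γ` on the vertex set `comp`. -/
structure RT {W : Type u} (Γ : SimpleGraph W) where
  comp : Set W
  r : W
  p : W → W
  mu : W → ℕ
  r_mem : r ∈ comp
  p_root : p r = r
  p_mem : ∀ v ∈ comp, p v ∈ comp
  adj : ∀ v ∈ comp, v ≠ r → Γ.Adj v (p v)
  mu_lt : ∀ v ∈ comp, v ≠ r → mu (p v) < mu v

def RT.Anc {W : Type u} {Γ : SimpleGraph W} (T : RT Γ) (a v : W) : Prop := ∃ k : ℕ, T.p^[k] v = a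

/-- `U` is empty or connected. -/
def Conn {W : Type u} (Γ : SimpleGraph W) (U : Set W) : Prop :=
  ∃ c, ∀ v ∈ U, Relation.ReflTransGen (fun a b => Γ.Adj a b ∧ b ∈ U) v c

/-- A metric whose parent map towards `T.r` is `T.p` on `comp` (no other requirement). -/
theorem exists_treeMet {W : Type u} [Fintype W] {Γ : SimpleGraph W} (T : RT Γ) :
    ∃ M : LMet Γ, (∀ v ∈ T.comp, M.D v T.r ≠ ⊤) ∧ (∀ v ∈ T.comp, M.par T.r v = T.p v) := by
  let len : W → W → ℕ := fun a b =>
    if a ∈ T.comp ∧ a ≠ T.r ∧ b = T.p a then 1 else Fintype.card W + 2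
  have hlen : ∀ a b, len a b ≤ Fintype.card W → a ∈ T.comp ∧ a ≠ T.r ∧ b = T.p a := by
    intro a b h
    by_contra hc
    have : len a b = Fintype.card W + 2 := if_neg hc
    omega
  have hpos : ∀ v w, Γ.Adj v w → 0 < len v w := by
    intro v w _
    change 0 < (if v ∈ T.comp ∧ v ≠ T.r ∧ w = T.p v then 1 else Fintype.card W + 2)
    split_ifs <;> omega
  let M : LMet Γ := pathMet Γ len hpos
  have key : ∀ n : ℕ, ∀ v ∈ T.comp, T.mu v ≤ n →
      M.D v T.r ≤ ((Finset.univ.filter fun w => T.mu w < T.mu v).card : ℕ) := by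
    intro n
    induction n with
    | zero =>
      intro v hv hn
      by_cases hr : v = T.r
      · rw [hr, M.D_self]
        exact bot_le
      · have := T.mu_lt v hv hr
        omega
    | succ n ih =>
      intro v hv hn
      by_cases hr : v = T.r
      · rw [hr, M.D_self]
        exact bot_le
      · have h1 := T.mu_lt v hv hr
        have h2 := ih (T.p v) (T.p_mem v hv) (by omega)
        have h3 := M.D_le v (T.p v) T.r (T.adj v hv hr)
        have h4 : M.len v (T.p v) = 1 := if_pos ⟨hv, hr, rfl⟩
        rw [h4] at h3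
        refine h3.trans ((add_le_add le_rfl h2).trans ?_)
        have h5 : insert (T.p v) (Finset.univ.filter fun w => T.mu w < T.mu (T.p v)) ⊆
            Finset.univ.filter fun w => T.mu w < T.mu v := by
          intro w hw
          rw [Finset.mem_insert, Finset.mem_filter] at hw
          rw [Finset.mem_filter]
          refine ⟨Finset.mem_univ _, ?_⟩
          rcases hw with rfl | ⟨-, hw⟩
          · exact h1
          · exact hw.trans h1
        have h6 := Finset.card_le_card h5
        rw [Finset.card_insert_of_notMem (by simp)] at h6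
        have h7 : 1 + (Finset.univ.filter fun w => T.mu w < T.mu (T.p v)).card ≤
          (Finset.univ.filter fun w => T.mu w < T.mu v).card := by omega
        exact_mod_cast h7
  have hD : ∀ v ∈ T.comp, M.D v T.r ≤ (Fintype.card W : ℕ) := by
    intro v hv
    refine (key _ v hv le_rfl).trans ?_
    have := Finset.card_le_univ (Finset.univ.filter fun w => T.mu w < T.mu v)
    exact_mod_cast this
  have hne : ∀ v ∈ T.comp, M.D v T.r ≠ ⊤ := fun v hv =>
    ne_top_of_le_ne_top (ENat.natCast_ne_top _) (hD v hv)
  refine ⟨M, hne, ?_⟩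
  intro v hv
  by_cases hr : v = T.r
  · rw [hr, LMet.par_root, T.p_root]
  · have h1 := LMet.par_D hr (hne v hv)
    have h2 : (M.len v (M.par T.r v) : ℕ∞) ≤ (Fintype.card W : ℕ) := by
      refine le_trans ?_ (hD v hv)
      rw [h1]
      exact le_self_add
    exact (hlen v _ (by exact_mod_cast h2)).2.2

end Pool.Agent.BTV
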