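import Pool.Agent.BTV.RTe
import Pool.Agent.BTD.COa

/-! BTV RTb: the root order for arbitrary connected sets.

PROOF: copy `exists_rootOrd` (`Pool/Agent/BTD/COa.lean`).  Let `M₀` be the metric of
`exists_treeMet T`; apply `contour S M₀ T.r` and build the `PTree` with
`comp := {v | M₀.D v T.r ≠ ⊤}` as there; `L := pre ch N T.r`; `rk v := L.idxOf v`.
`inj`, `anc_le`, `interval`: from `rank_facts`/`mem_pre`/`nodup_pre` exactly as there; for
`v ∈ T.comp` the iterates of `M₀.par T.r` and of `T.p` agree (`comp` is closed under `p`).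
`alt`: suppose a list of length `≥ 2 g + 4`; take the first `2 g + 4` elements `l'`, `b i := l'[i]`
(`Fin (2 g + 2 + 2)`).  Apply `exists_met` with `Sel := {v | v ∈ l'}` to get `M, q₁, q₂`, and
`alternation` for `M` with `b`, `inF`, `outF`.  `hb : b i ∈ Fr M T.r N₀ (V₁ ∪ V₂)` since
`M.par T.r (b i) = T.p (b i) ∈ N₀`.  `hio`: from the contour (third clause, stated with
`M₀.par T.r (b i) = T.p (b i) = M.par T.r (b i)`).  `hcont`: fourth clause of the contour for `M₀`
with `N₀`, `Sel`; its hypothesis on `K` (for `w ∈ N₀`, `u` adjacent, not a tree edge inside `N₀`, not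
a selected edge) follows from `K ∈ KK (M := M) ...` because `s(w, u) ∈ Hed M ...` would by `touch_N0`
(`Pool/Agent/BTD/CMc.lean`) be a tree edge of `N₀` or a selected edge, and the parents for `M` and
`M₀` agree on `N₀` and on the selected vertices.  (`touch_N0` is stated for one metric `M`; its
conclusion speaks about `M.par T.r`.)  `2 g + 2 ≤ 2 g` is absurd. -/

set_option autoImplicit false

open Classical

namespace Pool.Agent.BTV

open Pool.Agent.BTD Pool.Agent.H81.Balls

universe u

private lemma RTb_add {k : ℕ} (i : Fin (k + 2)) : (i + 1).val = (i.val + 1) % (k + 2) := by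
  rw [Fin.val_add, Fin.val_one]

private lemma RTb_alt {V : Type u} {l : List V}
    {V₁ V₂ : Set V} (h12 : Disjoint V₁ V₂) (hFr : ∀ b ∈ l, b ∈ V₁ ∨ b ∈ V₂)
    (hch : l.IsChain (fun a b => a ∈ V₁ ↔ b ∈ V₂)) :
    ∀ (j : ℕ) (hj : j < l.length), (l[j] ∈ V₁ ↔ (l[0] ∈ V₁ ↔ Even j)) := by
  have hmem : ∀ (j : ℕ) (hj : j < l.length), (l[j] ∈ V₂ ↔ l[j] ∉ V₁) := by
    intro j hj
    have h := hFr l[j] (List.getElem_mem hj)
    constructor
    · intro h2 h1
      exact Set.disjoint_left.1 h12 h1 h2
    · intro h1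
      rcases h with h | h
      · exact absurd h h1
      · exact h
  intro j
  induction j with
  | zero => intro hj; simp
  | succ j ih =>
    intro hj
    have h1 := ih (by omega)
    have h2 : l[j] ∈ V₁ ↔ l[j + 1] ∈ V₂ := by
      have := List.isChain_iff_getElem.1 hch j (by omega)
      exact this
    rw [hmem] at h2
    have h3 : Even (j + 1) ↔ ¬ Even j := Nat.even_add_one
    rw [h3]
    tauto

private lemma RTb_iter {W : Type u} {Γ : SimpleGraph W} (T : RT Γ) {M₀ : LMet Γ}
    (hM2 : ∀ v ∈ T.comp, M₀.par T.r v = T.p v) (k : ℕ) :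
    ∀ v ∈ T.comp, (M₀.par T.r)^[k] v = T.p^[k] v := by
  induction k with
  | zero => intro v _; rfl
  | succ k ih =>
    intro v hv
    rw [Function.iterate_succ_apply, Function.iterate_succ_apply, hM2 v hv]
    exact ih _ (T.p_mem v hv)

private lemma RTb_anc {W : Type u} {Γ : SimpleGraph W} (T : RT Γ) {M₀ : LMet Γ}
    (hM2 : ∀ v ∈ T.comp, M₀.par T.r v = T.p v) {a v : W} (hv : v ∈ T.comp) :
    M₀.Anc T.r a v ↔ T.Anc a v := by
  constructor
  · rintro ⟨k, hk⟩
    exact ⟨k, by rw [← RTb_iter T hM2 k v hv]; exact hk⟩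
  · rintro ⟨k, hk⟩
    exact ⟨k, by rw [RTb_iter T hM2 k v hv]; exact hk⟩

theorem treeOrd {W : Type u} [Fintype W] {Γ : SimpleGraph W} (S : EmbeddingScheme Γ) {g : ℕ}
    (hg : S.EulerGenusLE g) (T : RT Γ) :
    ∃ rk : W → ℕ, (∀ v ∈ T.comp, ∀ w ∈ T.comp, rk v = rk w → v = w) ∧
      (∀ a v, v ∈ T.comp → T.Anc a v → rk a ≤ rk v) ∧
      (∀ a y v, y ∈ T.comp → v ∈ T.comp → T.Anc a v → rk a ≤ rk y → rk y ≤ rk v → T.Anc a y) ∧
      ∀ N₀ V₁ V₂ : Set W, N₀ ⊆ T.comp → (∀ v ∈ N₀, T.p v ∈ N₀) → T.r ∈ N₀ → Conn Γ V₁ → Conn Γ V₂ →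
        Disjoint N₀ V₁ → Disjoint N₀ V₂ → Disjoint V₁ V₂ →
        ∀ l : List W, l.Pairwise (fun a b => rk a < rk b) →
          (∀ b ∈ l, b ∈ T.comp ∧ T.p b ∈ N₀ ∧ (b ∈ V₁ ∨ b ∈ V₂)) →
          l.IsChain (fun a b => a ∈ V₁ ↔ b ∈ V₂) → l.length ≤ 2 * g + 3 := by
  obtain ⟨M₀, hM1, hM2⟩ := exists_treeMet T
  obtain ⟨ch, inF, outF, hc1, hc2, hc3, hc4⟩ := contour S M₀ T.r
  let P : PTree W :=
    { comp := {v | M₀.D v T.r ≠ ⊤}
      r := T.r
      p := M₀.par T.r
      mu := fun v => (M₀.D v T.r).toNat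
      ch := ch
      r_mem := by simp [M₀.D_self]
      p_root := LMet.par_root
      p_mem := fun v hv => LMet.par_ne_top hv
      mu_lt := fun v hv hvr => LMet.toNat_par_lt hvr hv
      mem_ch := fun v hv w => hc1 v hv w
      nodup := hc2 }
  set N : ℕ := Finset.univ.sup (fun v => (M₀.D v T.r).toNat) with hNdef
  have hN : ∀ v, (M₀.D v T.r).toNat ≤ N := fun v =>
    Finset.le_sup (f := fun v => (M₀.D v T.r).toNat) (Finset.mem_univ v)
  have hNT : ∀ v ∈ P.comp, P.mu v ≤ N := fun v _ => hN v
  set L : List W := pre ch N T.r with hL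
  have hmemL : ∀ v, M₀.D v T.r ≠ ⊤ → v ∈ L := by
    intro v hv
    exact (P.mem_pre (n := N) hNT P.r_mem (by omega) v).2 ⟨hv, LMet.anc_root hv⟩
  have hndL : L.Nodup := P.nodup_pre (n := N) hNT P.r_mem (by omega)
  have hrf := P.rank_facts (n := N) hNT le_rfl
  refine ⟨fun v => L.idxOf v, ?_, ?_, ?_, ?_⟩
  · intro v hv w hw h
    exact (List.idxOf_inj (hmemL v (hM1 v hv))).1 h
  · intro a v hv ha
    exact hrf.1 a v (hM1 v hv) ((RTb_anc T hM2 hv).2 ha)
  · intro a y v hy hv ha h1 h2
    exact (RTb_anc T hM2 hy).1 (hrf.2 a y v (hM1 y hy) (hM1 v hv) ((RTb_anc T hM2 hv).2 ha) h1 h2)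
  · intro N₀ V₁ V₂ hNc hNp hr hV1 hV2 h01 h02 h12 l hsort hFr hchain
    by_contra hlen
    push Not at hlen
    set l' : List W := l.take (2 * g + 4) with hl'
    have hlen' : l'.length = 2 * g + 4 := by
      rw [hl', List.length_take]; omega
    have hsub : ∀ b ∈ l', b ∈ l := fun b hb => List.mem_of_mem_take hb
    have hsort' : l'.Pairwise (fun a b => L.idxOf a < L.idxOf b) :=
      hsort.sublist (List.take_sublist _ _)
    have hFr' : ∀ b ∈ l', b ∈ T.comp ∧ T.p b ∈ N₀ ∧ (b ∈ V₁ ∨ b ∈ V₂) := fun b hb => hFr b (hsub b hb)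
    have hchain' : l'.IsChain (fun a b => a ∈ V₁ ↔ b ∈ V₂) := hchain.take _
    have hnN : ∀ b ∈ l', b ∉ N₀ := by
      intro b hb hbN
      rcases (hFr' b hb).2.2 with h | h
      · exact Set.disjoint_left.1 h01 hbN h
      · exact Set.disjoint_left.1 h02 hbN h
    have hnt : ∀ b ∈ l', M₀.D b T.r ≠ ⊤ := fun b hb => hM1 b (hFr' b hb).1
    have hbr : ∀ b ∈ l', b ≠ T.r := by
      intro b hb h
      exact hnN b hb (by rw [h]; exact hr)
    have hM0p : ∀ b ∈ l', M₀.par T.r b = T.p b := fun b hb => hM2 b (hFr' b hb).1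
    have hC0 : M₀.Cl T.r N₀ := by
      intro v hv
      refine ⟨hM1 v (hNc hv), ?_⟩
      rw [hM2 v (hNc hv)]
      exact hNp v hv
    obtain ⟨M, q₁, q₂, h0, h1, h2, hMN, hMS⟩ := exists_met T N₀ V₁ V₂ {v | v ∈ l'} hNc hNp hr hV1
      hV2 h01 h02 h12 (fun b hb => ⟨(hFr' b hb).1, hnN b hb, (hFr' b hb).2.1⟩)
    have hFrM : ∀ b ∈ l', b ∈ Fr M T.r N₀ (V₁ ∪ V₂) := by
      intro b hb
      refine ⟨?_, (hFr' b hb).2.2⟩
      rw [hMS b hb]
      exact (hFr' b hb).2.1
    have hnd' : l'.Nodup := by
      refine hsort'.imp ?_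
      intro a b h1 h2
      rw [h2] at h1
      exact lt_irrefl _ h1
    have hfilter : L.filter (fun b => b ∈ l') = l' :=
      filter_eq_of_sorted hndL hsort' (fun b hb => hmemL b (hnt b hb))
    let b : Fin (2 * g + 2 + 2) → W := fun i => l'[i.val]'(by have := i.isLt; omega)
    have hbmem : ∀ i, b i ∈ l' := fun i => List.getElem_mem _
    have hinj : Function.Injective b := by
      intro i j hij
      exact Fin.ext ((hnd'.getElem_inj_iff).1 hij)
    have halt : ∀ i, b i ∈ V₁ ↔ b (i + 1) ∈ V₂ := by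
      intro i
      have hA := RTb_alt h12 (fun b hb => (hFr' b hb).2.2) hchain'
      by_cases hi : i.val + 1 < 2 * g + 2 + 2
      · have e : (i + 1).val = i.val + 1 := by
          rw [RTb_add, Nat.mod_eq_of_lt hi]
        have h3 := List.isChain_iff_getElem.1 hchain' i.val (by omega)
        have h4 : b (i + 1) = l'[i.val + 1]'(by omega) := by
          show l'[(i + 1).val]'_ = _
          simp only [e]
        rw [h4]
        exact h3
      · have hi' : i.val = 2 * g + 3 := by have := i.isLt; omega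
        have e : (i + 1).val = 0 := by
          rw [RTb_add, hi']
          exact Nat.mod_self _
        have h4 : b (i + 1) = l'[0]'(by omega) := by
          show l'[(i + 1).val]'_ = _
          simp only [e]
        have h5 : b i = l'[2 * g + 3]'(by omega) := by
          show l'[i.val]'_ = _
          simp only [hi']
        rw [h4, h5, hA (2 * g + 3) (by omega)]
        have h6 : ¬ Even (2 * g + 3) := by
          rw [Nat.not_even_iff_odd]
          exact ⟨g + 1, by ring⟩
        have h7 := (hFr' (l'[0]'(by omega)) (List.getElem_mem _)).2.2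
        constructor
        · intro h8
          rcases h7 with h7 | h7
          · exact absurd (h8.1 h7) h6
          · exact h7
        · intro h8
          constructor
          · intro h9
            exact absurd h8 (Set.disjoint_left.1 h12 h9)
          · intro h9
            exact absurd h9 h6
    have hcont : ∀ K ∈ KK (M := M) S T.r q₁ q₂ N₀ V₁ V₂ b, ∀ i, K (inF (b (i + 1))) =
        K (outF (b i)) := by
      intro K hK i
      obtain ⟨x, hx⟩ := hc4 N N (fun v _ => hN v) le_rfl N₀ {v | v ∈ l'} hC0 hr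
        (fun b hb => ⟨hnt b hb, hbr b hb, by rw [hM0p b hb]; exact (hFr' b hb).2.1, hnN b hb⟩) K (by
          intro w hw u hadj hn1 hn2
          refine hK w u hadj (LMet.ne_top_iff.1 (h0 w hw).1).symm ?_
          intro hh
          rcases touch_N0 h0 h1 h2 h01 h02 (fun i => hFrM _ (hbmem i)) hw hh with
            ⟨hu, h⟩ | ⟨j, hj, hj'⟩
          · rw [hMN u hu, hMN w hw] at h
            rw [hM2 u (hNc hu), hM2 w (hNc hw)] at hn1
            exact hn1 ⟨hu, h⟩
          · have hul : u ∈ l' := by rw [← hj]; exact hbmem j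
            rw [hMS u hul] at hj'
            rw [hM0p u hul] at hn2
            exact hn2 ⟨hul, hj'⟩)
      have hx' : Lk (fun b => K (inF b)) (fun b => K (outF b)) x x l' := by
        refine Eq.subst (motive := fun t => Lk (fun b => K (inF b)) (fun b => K (outF b)) x x t)
          ?_ hx
        rw [← hL]
        conv_rhs => rw [← hfilter]
        refine List.filter_congr ?_
        intro b _
        simp
      have hne : l' ≠ [] := by
        intro h
        rw [h] at hlen'
        simp at hlen'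
      have hg2 := Lk.get hx' hne
      by_cases hi : i.val + 1 < 2 * g + 2 + 2
      · have e : (i + 1).val = i.val + 1 := by
          rw [RTb_add, Nat.mod_eq_of_lt hi]
        have h4 : b (i + 1) = l'[i.val + 1]'(by omega) := by
          show l'[(i + 1).val]'_ = _
          simp only [e]
        rw [h4]
        exact hg2.2 i.val (by omega)
      · have hi' : i.val = 2 * g + 3 := by have := i.isLt; omega
        have e : (i + 1).val = 0 := by
          rw [RTb_add, hi']
          exact Nat.mod_self _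
        have h4 : b (i + 1) = l'[0]'(by omega) := by
          show l'[(i + 1).val]'_ = _
          simp only [e]
        have h5 : b i = l'.getLast hne := by
          rw [List.getLast_eq_getElem]
          show l'[i.val]'_ = _
          simp only [hi', hlen']
          rfl
        rw [h4, h5]
        exact hg2.1
    have := alternation (b := b) hg h0 hr h1 h2 h01 h02 h12 hinj (fun i => hFrM _ (hbmem i)) halt
      inF outF (fun K i => by
        have h9 := hc3 K (b i) (hnt _ (hbmem i)) (hbr _ (hbmem i))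
        rw [hM0p _ (hbmem i)] at h9
        rw [hMS _ (hbmem i)]
        exact h9) hcont
    omega

end Pool.Agent.BTV
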