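import Pool.Agent.BTV.RTa

/-! BTV RTe: a metric for three sets.

PROOF of `exists_met`.  `W` finite, `n := Fintype.card W`, `T := n + 1`, `H := T * (n + 2) + 1`.
Lengths of darts `a → b` (not symmetric!):
 `1` if `b = R.p a`, `a ≠ R.r` and (`a ∈ N₀` or `a ∈ Sel`);
 `T` if `a, b ∈ V₁` or `a, b ∈ V₂` (and not the first case);
 `H` otherwise.  `M := pathMet Γ len _` (`Pool/Agent/BTD/T4.lean`; distances are infima of walk
lengths `wlen`).
(1) `M.par R.r v = R.p v` for `v ∈ N₀ ∪ Sel`, `v ≠ r`: the path `v, p v, p (p v), …, r` (inside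
`N₀` after the first step; at most `n` steps since `mu` decreases strictly, so the vertices are
distinct) has length `≤ n < T ≤ H`; so `D v r ≤ n`; by `par_D` the dart `v → par v` has length
`≤ n < T`, hence it is of the first kind.  In particular `M.Cl R.r N₀`.
(2) `V_i` with centre `c_i` (`c_i ∈ V_i` if `V_i ≠ ∅`): every `v ∈ V_i` has a walk inside `V_i` to
`c_i`; take a path (no repeated vertices), so `D v c_i ≤ T * n < H` (a dart inside `V_i` has length
`≤ T`).  Claim `par c_i v ∈ V_i` for `v ∈ V_i`, `v ≠ c_i`: let `v = u_0, u_1, …, u_m = c_i` be the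
leg (iterates of `par c_i`), total length `< H`, so no dart of length `H` is used.  If `u_1 ∉ V_i`,
let `j ≥ 2` be the first index with `u_j ∈ V_i` (exists, `u_m ∈ V_i`); the dart `u_{j-1} → u_j`
enters `V_i` from outside; it is not inside `V_1` or `V_2` (disjoint), and not of the first kind:
`b = R.p a ∈ V_i` with `a ∈ N₀ ∪ Sel` is impossible since `R.p a ∈ N₀` and `N₀ ∩ V_i = ∅`.  So its
length is `H`, contradiction. -/

set_option autoImplicit false

open Classical

namespace Pool.Agent.BTV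

open Pool.Agent.BTD

universe u

/-- an induced piece of the graph -/
private def rteG {W : Type u} (Γ : SimpleGraph W) (U : Set W) : SimpleGraph W where
  Adj a b := Γ.Adj a b ∧ a ∈ U ∧ b ∈ U
  symm := ⟨fun _ _ h => ⟨h.1.symm, h.2.2, h.2.1⟩⟩
  loopless := ⟨fun a h => Γ.loopless.irrefl a h.1⟩

/-- a connected set with short inner darts and long entering darts is closed -/
private lemma rte_cl {W : Type u} [Fintype W] {Γ : SimpleGraph W} (M : LMet Γ) (r : W) {U : Set W}
    (hU : Conn Γ U) {K H : ℕ} (hK : ∀ a b, a ∈ U → b ∈ U → M.len a b ≤ K)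
    (hH : ∀ a b, a ∉ U → b ∈ U → M.len a b = H) (hKH : K * Fintype.card W < H) :
    ∃ q, M.Cl q U := by
  obtain ⟨c, hc⟩ := hU
  rcases U.eq_empty_or_nonempty with rfl | ⟨v0, hv0⟩
  · exact ⟨r, fun v hv => absurd hv (Set.notMem_empty v)⟩
  have hcU : c ∈ U := by
    have h := hc v0 hv0
    rcases Relation.ReflTransGen.cases_tail h with h1 | ⟨b, -, h1⟩
    · rw [h1]
      exact hv0
    · exact h1.2
  have hwalk : ∀ {a b : W} (p : (rteG Γ U).Walk a b), M.D a b ≤ ((K * p.length : ℕ) : ℕ∞) := by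
    intro a b p
    induction p with
    | nil => rw [M.D_self]; exact bot_le
    | @cons a w b h q ih =>
      refine (M.D_le _ w _ h.1).trans ?_
      have h1 := hK a w h.2.1 h.2.2
      have h2 : ((M.len a w : ℕ) : ℕ∞) ≤ (K : ℕ) := by exact_mod_cast h1
      refine (add_le_add h2 ih).trans ?_
      rw [SimpleGraph.Walk.length_cons]
      have : K + K * q.length = K * (q.length + 1) := by ring
      rw [← this]
      push_cast
      exact le_rfl
  have hreach : ∀ v ∈ U, (rteG Γ U).Reachable v c := by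
    intro v hv
    have h := hc v hv
    induction h using Relation.ReflTransGen.head_induction_on with
    | refl => exact SimpleGraph.Reachable.refl _
    | head h' h ih =>
      have hadj : (rteG Γ U).Adj _ _ := ⟨h'.1, hv, h'.2⟩
      exact hadj.reachable.trans (ih h'.2)
  have hD : ∀ v ∈ U, M.D v c < (H : ℕ) := by
    intro v hv
    obtain ⟨p, hp⟩ := (hreach v hv).exists_isPath
    refine lt_of_le_of_lt (hwalk p) ?_
    have h1 := hp.length_lt
    have h2 : K * p.length ≤ K * Fintype.card W := Nat.mul_le_mul_left _ h1.le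
    exact_mod_cast lt_of_le_of_lt h2 hKH
  have hent : ∀ n : ℕ, ∀ u, M.D u c ≠ ⊤ → (M.D u c).toNat ≤ n → u ∉ U → ((H : ℕ) : ℕ∞) ≤ M.D u c := by
    intro n
    induction n with
    | zero =>
      intro u hu hn hnU
      have hne : u ≠ c := fun h => hnU (h ▸ hcU)
      have := LMet.toNat_par_lt hne hu
      omega
    | succ n ih =>
      intro u hu hn hnU
      have hne : u ≠ c := fun h => hnU (h ▸ hcU)
      have h1 := LMet.toNat_par_lt hne hu
      have h2 := LMet.par_D hne hu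
      rw [h2]
      by_cases hp : M.par c u ∈ U
      · rw [hH u _ hnU hp]
        exact le_self_add
      · exact (ih _ (LMet.par_ne_top hu) (by omega) hp).trans le_add_self
  refine ⟨c, fun v hv => ⟨((hD v hv).trans_le le_top).ne, ?_⟩⟩
  by_cases hvc : v = c
  · rw [hvc, LMet.par_root]
    exact hcU
  by_contra hp
  have htop : M.D v c ≠ ⊤ := ((hD v hv).trans_le le_top).ne
  have h1 := hent _ (M.par c v) (LMet.par_ne_top htop) le_rfl hp
  have h2 := LMet.par_D hvc htop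
  have h3 : M.D (M.par c v) c ≤ M.D v c := by
    rw [h2]
    exact le_add_self
  exact absurd (hD v hv) (not_lt.2 (h1.trans h3))

/-- A metric for three sets. -/
theorem exists_met {W : Type u} [Fintype W] {Γ : SimpleGraph W} (T : RT Γ) (N₀ V₁ V₂ Sel : Set W)
    (h0 : N₀ ⊆ T.comp) (hp : ∀ v ∈ N₀, T.p v ∈ N₀) (hr : T.r ∈ N₀) (h1 : Conn Γ V₁) (h2 : Conn Γ V₂)
    (h01 : Disjoint N₀ V₁) (h02 : Disjoint N₀ V₂) (h12 : Disjoint V₁ V₂)
    (hS : ∀ b ∈ Sel, b ∈ T.comp ∧ b ∉ N₀ ∧ T.p b ∈ N₀) :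
    ∃ (M : LMet Γ) (q₁ q₂ : W), M.Cl T.r N₀ ∧ M.Cl q₁ V₁ ∧ M.Cl q₂ V₂ ∧
      (∀ v ∈ N₀, M.par T.r v = T.p v) ∧ ∀ b ∈ Sel, M.par T.r b = T.p b := by
  have hcomp : ∀ a, a ∈ N₀ ∨ a ∈ Sel → a ∈ T.comp := by
    rintro a (h | h)
    · exact h0 h
    · exact (hS a h).1
  have hpN : ∀ a, a ∈ N₀ ∨ a ∈ Sel → T.p a ∈ N₀ := by
    rintro a (h | h)
    · exact hp a h
    · exact (hS a h).2.2
  obtain ⟨K, hKdef⟩ : ∃ K : ℕ, K = Fintype.card W + 1 := ⟨_, rfl⟩
  obtain ⟨H, hHdef⟩ : ∃ H : ℕ, H = K * (Fintype.card W + 2) + 1 := ⟨_, rfl⟩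
  have hKH : K * Fintype.card W < H := by
    have : K * Fintype.card W ≤ K * (Fintype.card W + 2) := Nat.mul_le_mul_left _ (by omega)
    omega
  have hKH' : K ≤ H := by
    have : K * 1 ≤ K * (Fintype.card W + 2) := Nat.mul_le_mul_left _ (by omega)
    omega
  let len : W → W → ℕ := fun a b =>
    if b = T.p a ∧ a ≠ T.r ∧ (a ∈ N₀ ∨ a ∈ Sel) then 1
    else if (a ∈ V₁ ∧ b ∈ V₁) ∨ (a ∈ V₂ ∧ b ∈ V₂) then K else H
  have hlen1 : ∀ a b, (b = T.p a ∧ a ≠ T.r ∧ (a ∈ N₀ ∨ a ∈ Sel)) → len a b = 1 :=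
    fun a b h => if_pos h
  have hlenK : ∀ a b, (a ∈ V₁ ∧ b ∈ V₁) ∨ (a ∈ V₂ ∧ b ∈ V₂) → len a b ≤ K := by
    intro a b h
    change (if b = T.p a ∧ a ≠ T.r ∧ (a ∈ N₀ ∨ a ∈ Sel) then 1
      else if (a ∈ V₁ ∧ b ∈ V₁) ∨ (a ∈ V₂ ∧ b ∈ V₂) then K else H) ≤ K
    split_ifs <;> omega
  have hlenH : ∀ a b, ¬ (b = T.p a ∧ a ≠ T.r ∧ (a ∈ N₀ ∨ a ∈ Sel)) →
      ¬ ((a ∈ V₁ ∧ b ∈ V₁) ∨ (a ∈ V₂ ∧ b ∈ V₂)) → len a b = H := by
    intro a b h h'
    change (if b = T.p a ∧ a ≠ T.r ∧ (a ∈ N₀ ∨ a ∈ Sel) then 1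
      else if (a ∈ V₁ ∧ b ∈ V₁) ∨ (a ∈ V₂ ∧ b ∈ V₂) then K else H) = H
    rw [if_neg h, if_neg h']
  have hlen : ∀ a b, len a b ≤ Fintype.card W → b = T.p a ∧ a ≠ T.r ∧ (a ∈ N₀ ∨ a ∈ Sel) := by
    intro a b h
    by_contra hc
    have h3 : K ≤ len a b := by
      change K ≤ (if b = T.p a ∧ a ≠ T.r ∧ (a ∈ N₀ ∨ a ∈ Sel) then 1
        else if (a ∈ V₁ ∧ b ∈ V₁) ∨ (a ∈ V₂ ∧ b ∈ V₂) then K else H)
      rw [if_neg hc]
      split_ifs <;> omega
    omega
  have hpos : ∀ v w, Γ.Adj v w → 0 < len v w := by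
    intro v w _
    change 0 < (if w = T.p v ∧ v ≠ T.r ∧ (v ∈ N₀ ∨ v ∈ Sel) then 1
      else if (v ∈ V₁ ∧ w ∈ V₁) ∨ (v ∈ V₂ ∧ w ∈ V₂) then K else H)
    split_ifs <;> omega
  let M : LMet Γ := pathMet Γ len hpos
  have hMlen : ∀ a b, M.len a b = len a b := fun _ _ => rfl
  have key : ∀ n : ℕ, ∀ v, v ∈ N₀ ∨ v ∈ Sel → T.mu v ≤ n →
      M.D v T.r ≤ ((Finset.univ.filter fun w => T.mu w < T.mu v).card : ℕ) := by
    intro n
    induction n with
    | zero =>
      intro v hv hn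
      by_cases hr : v = T.r
      · rw [hr, M.D_self]
        exact bot_le
      · have := T.mu_lt v (hcomp v hv) hr
        omega
    | succ n ih =>
      intro v hv hn
      by_cases hr : v = T.r
      · rw [hr, M.D_self]
        exact bot_le
      · have h1 := T.mu_lt v (hcomp v hv) hr
        have h2 := ih (T.p v) (Or.inl (hpN v hv)) (by omega)
        have h3 := M.D_le v (T.p v) T.r (T.adj v (hcomp v hv) hr)
        have h4 : M.len v (T.p v) = 1 := hlen1 v _ ⟨rfl, hr, hv⟩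
        rw [h4] at h3
        refine h3.trans ((add_le_add le_rfl h2).trans ?_)
        have h5 : insert (T.p v) (Finset.univ.filter fun w => T.mu w < T.mu (T.p v)) ⊆
            Finset.univ.filter fun w => T.mu w < T.mu v := by
          intro w hw
          rw [Finset.mem_insert, Finset.mem_filter] at hw
          rw [Finset.mem_filter]
          refine ⟨Finset.mem_univ _, ?_⟩
          rcases hw with rfl | ⟨-, hw⟩
          · exact h1
          · exact hw.trans h1
        have h6 := Finset.card_le_card h5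
        rw [Finset.card_insert_of_notMem (by simp)] at h6
        have h7 : 1 + (Finset.univ.filter fun w => T.mu w < T.mu (T.p v)).card ≤
          (Finset.univ.filter fun w => T.mu w < T.mu v).card := by omega
        exact_mod_cast h7
  have hD : ∀ v, v ∈ N₀ ∨ v ∈ Sel → M.D v T.r ≤ (Fintype.card W : ℕ) := by
    intro v hv
    refine (key _ v hv le_rfl).trans ?_
    have := Finset.card_le_univ (Finset.univ.filter fun w => T.mu w < T.mu v)
    exact_mod_cast this
  have hne : ∀ v, v ∈ N₀ ∨ v ∈ Sel → M.D v T.r ≠ ⊤ := fun v hv =>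
    ne_top_of_le_ne_top (ENat.natCast_ne_top _) (hD v hv)
  have hpar : ∀ v, v ∈ N₀ ∨ v ∈ Sel → M.par T.r v = T.p v := by
    intro v hv
    by_cases hr : v = T.r
    · rw [hr, LMet.par_root, T.p_root]
    · have h1 := LMet.par_D hr (hne v hv)
      have h2 : (M.len v (M.par T.r v) : ℕ∞) ≤ (Fintype.card W : ℕ) := by
        refine le_trans ?_ (hD v hv)
        rw [h1]
        exact le_self_add
      exact (hlen v _ (by exact_mod_cast h2)).1
  obtain ⟨q₁, hq₁⟩ := rte_cl M T.r h1 (K := K) (H := H)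
    (fun a b ha hb => by
      rw [hMlen]
      exact hlenK a b (Or.inl ⟨ha, hb⟩))
    (fun a b ha hb => by
      rw [hMlen]
      refine hlenH a b ?_ ?_
      · rintro ⟨rfl, -, h⟩
        exact Set.disjoint_left.1 h01 (hpN a h) hb
      · rintro (h | h)
        · exact ha h.1
        · exact Set.disjoint_left.1 h12 hb h.2) hKH
  obtain ⟨q₂, hq₂⟩ := rte_cl M T.r h2 (K := K) (H := H)
    (fun a b ha hb => by
      rw [hMlen]
      exact hlenK a b (Or.inr ⟨ha, hb⟩))
    (fun a b ha hb => by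
      rw [hMlen]
      refine hlenH a b ?_ ?_
      · rintro ⟨rfl, -, h⟩
        exact Set.disjoint_left.1 h02 (hpN a h) hb
      · rintro (h | h)
        · exact Set.disjoint_left.1 h12 h.2 hb
        · exact ha h.1) hKH
  exact ⟨M, q₁, q₂, fun v hv => ⟨hne v (Or.inl hv), by
    rw [hpar v (Or.inl hv)]
    exact hp v hv⟩, hq₁, hq₂, fun v hv => hpar v (Or.inl hv), fun b hb => hpar b (Or.inr hb)⟩

end Pool.Agent.BTV
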