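import Pool.Agent.BTV.RTc

/-! BTV RTf: the order of the planar part of the tree of a site, case of landings.
PROOF: see the header of RTc, case `A = some α`. -/

set_option autoImplicit false

open Classical

namespace Pool.Agent.BTV

open Pool.Agent.BTD Pool.Agent.H81.Balls

universe u

/-- parents in the comb tree -/
noncomputable def RTf_p {V : Type u} {G : SimpleGraph V} (M : LMet G) (E : NE V) (q : V)
    (p₀ : Fin E.n) : V ⊕ Fin E.n → V ⊕ Fin E.n
  | .inl v => if h : ∃ p, E.w p = v then .inr h.choose else .inl (M.par q v)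
  | .inr p => if p = p₀ then .inr p₀ else .inr ⟨p.val - 1, lt_of_le_of_lt (Nat.sub_le _ _) p.2⟩

/-- heights in the comb tree -/
noncomputable def RTf_mu {V : Type u} {G : SimpleGraph V} (M : LMet G) (E : NE V) (q : V) :
    V ⊕ Fin E.n → ℕ
  | .inl v => if E.IsV v then E.n else E.n + 1 + (M.D v q).toNat
  | .inr p => p.val

section

variable {V : Type u} {G : SimpleGraph V} {M : LMet G} {E : NE V} {q : V} {p₀ : Fin E.n}

lemma RTf_p_w (p : Fin E.n) : RTf_p M E q p₀ (.inl (E.w p)) = .inr p := by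
  have h : ∃ p', E.w p' = E.w p := ⟨p, rfl⟩
  unfold RTf_p
  simp only
  rw [dif_pos h]
  exact congrArg Sum.inr (E.w_inj _ _ h.choose_spec)

lemma RTf_p_pl {v : V} (h : ¬ E.IsV v) : RTf_p M E q p₀ (.inl v) = .inl (M.par q v) := by
  have h' : ¬ ∃ p, E.w p = v := h
  unfold RTf_p
  simp only
  rw [dif_neg h']

lemma RTf_p_inr (p : Fin E.n) : ∃ p', RTf_p M E q p₀ (.inr p) = .inr p' := by
  unfold RTf_p
  simp only
  split_ifs
  · exact ⟨_, rfl⟩
  · exact ⟨_, rfl⟩

lemma RTf_iter_inr (k : ℕ) (p : Fin E.n) : ∃ p', (RTf_p M E q p₀)^[k] (.inr p) = .inr p' := by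
  induction k generalizing p with
  | zero => exact ⟨p, rfl⟩
  | succ k ih =>
    obtain ⟨p', hp'⟩ := RTf_p_inr (M := M) (q := q) (p₀ := p₀) p
    rw [Function.iterate_succ_apply, hp']
    exact ih p'

lemma RTf_iter {k : ℕ} {v : V} (h : ∀ j < k, ¬ E.IsV ((M.par q)^[j] v)) :
    (RTf_p M E q p₀)^[k] (.inl v) = .inl ((M.par q)^[k] v) := by
  induction k generalizing v with
  | zero => rfl
  | succ k ih =>
    have h0 : ¬ E.IsV v := h 0 (Nat.succ_pos k)
    rw [Function.iterate_succ_apply, Function.iterate_succ_apply, RTf_p_pl h0]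
    exact ih (fun j hj => by
      have := h (j + 1) (Nat.succ_lt_succ hj)
      rwa [Function.iterate_succ_apply] at this)

lemma RTf_iter_conv {k : ℕ} {y a : V} (h : (RTf_p M E q p₀)^[k] (.inl y) = .inl a)
    (ha : ¬ E.IsV a) : (M.par q)^[k] y = a ∧ ∀ j ≤ k, ¬ E.IsV ((M.par q)^[j] y) := by
  induction k generalizing y with
  | zero =>
    have h1 : y = a := Sum.inl.inj h
    subst h1
    refine ⟨rfl, ?_⟩
    intro j hj
    rw [Nat.le_zero.mp hj]
    exact ha
  | succ k ih =>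
    rw [Function.iterate_succ_apply] at h
    by_cases hy : E.IsV y
    · exfalso
      obtain ⟨p, rfl⟩ := hy
      rw [RTf_p_w] at h
      obtain ⟨p', hp'⟩ := RTf_iter_inr (M := M) (q := q) (p₀ := p₀) k p
      rw [hp'] at h
      cases h
    · rw [RTf_p_pl hy] at h
      obtain ⟨h1, h2⟩ := ih h
      refine ⟨by rw [Function.iterate_succ_apply]; exact h1, ?_⟩
      intro j hj
      cases j with
      | zero => exact hy
      | succ j =>
        rw [Function.iterate_succ_apply]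
        exact h2 j (Nat.le_of_succ_le_succ hj)

end

lemma RTf_pp {V : Type u} [Fintype V] {g k s : ℕ} {I : Inst g k s V} {q : V}
    {α : Set (Fin I.E.n)} {z : V} (hz : z ∈ PP I.M I.E q (some α)) :
    z ≠ q ∧ I.E.H.Adj z (I.M.par q z) ∧
      (I.M.par q z ∈ PP I.M I.E q (some α) ∨ ∃ p ∈ α, I.E.w p = I.M.par q z) := by
  obtain ⟨h1, h2, p, hp, hl⟩ := hz
  have hq : z ≠ q := by
    intro hzq
    rw [hzq] at hl h1
    obtain ⟨k, hk, -⟩ := hl
    rw [LMet.CAb_iter_root] at hk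
    exact h1 ⟨p, hk.symm⟩
  have hst : ¬ I.E.VSt z (I.M.par q z) := fun h => h1 (vst_isV h).1
  refine ⟨hq, hadj_par I.fits h2 hq hst, ?_⟩
  have hl' := (land_par h1).mp hl
  by_cases hV : I.E.IsV (I.M.par q z)
  · exact Or.inr ⟨p, hp, land_eq_of_isV hl' hV⟩
  · exact Or.inl ⟨hV, LMet.par_ne_top h2, p, hp, hl'⟩

/-- the tree of the planar part over `α` -/
noncomputable def RTf_T {V : Type u} [Fintype V] {g k s : ℕ} (I : Inst g k s V) (q : V)
    (α : Set (Fin I.E.n)) (hA : I.E.Itv α) (p₀ : Fin I.E.n) (hp₀ : IsLeast α p₀) :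
    RT I.E.Ga where
  comp := {x | (∃ p ∈ α, x = .inr p) ∨ (∃ p ∈ α, x = .inl (I.E.w p)) ∨
    ∃ z ∈ PP I.M I.E q (some α), x = .inl z}
  r := .inr p₀
  p := RTf_p I.M I.E q p₀
  mu := RTf_mu I.M I.E q
  r_mem := Or.inl ⟨p₀, hp₀.1, rfl⟩
  p_root := by
    unfold RTf_p
    simp
  p_mem := by
    rintro x (⟨p, hp, rfl⟩ | ⟨p, hp, rfl⟩ | ⟨z, hz, rfl⟩)
    · by_cases h : p = p₀
      · refine Or.inl ⟨p₀, hp₀.1, ?_⟩
        unfold RTf_p
        simp [h]
      · refine Or.inl ⟨⟨p.val - 1, lt_of_le_of_lt (Nat.sub_le _ _) p.2⟩, ?_, ?_⟩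
        · have h1 : p₀ < p := lt_of_le_of_ne (hp₀.2 hp) (Ne.symm h)
          refine hA.2 p₀ _ p hp₀.1 hp ?_ ?_
          · rw [Fin.lt_def] at h1
            rw [Fin.le_def]
            simp only
            omega
          · rw [Fin.le_def]
            simp only
            omega
        · unfold RTf_p
          simp [h]
    · exact Or.inl ⟨p, hp, RTf_p_w p⟩
    · rw [RTf_p_pl hz.1]
      rcases (RTf_pp hz).2.2 with h | ⟨p, hp, h⟩
      · exact Or.inr (Or.inr ⟨_, h, rfl⟩)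
      · exact Or.inr (Or.inl ⟨p, hp, by rw [h]⟩)
  adj := by
    rintro x (⟨p, hp, rfl⟩ | ⟨p, hp, rfl⟩ | ⟨z, hz, rfl⟩) hr
    · have h : p ≠ p₀ := fun h => hr (by rw [h])
      have h1 : p₀ < p := lt_of_le_of_ne (hp₀.2 hp) (Ne.symm h)
      rw [Fin.lt_def] at h1
      have h2 : (⟨p.val - 1, lt_of_le_of_lt (Nat.sub_le _ _) p.2⟩ : Fin I.E.n) ∈ α := by
        refine hA.2 p₀ _ p hp₀.1 hp ?_ ?_
        · rw [Fin.le_def]
          simp only
          omega
        · rw [Fin.le_def]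
          simp only
          omega
      have h3 : RTf_p I.M I.E q p₀ (.inr p) =
          .inr ⟨p.val - 1, lt_of_le_of_lt (Nat.sub_le _ _) p.2⟩ := by
        unfold RTf_p
        simp [h]
      rw [h3]
      refine Or.inr ⟨?_, hA.1 _ hp _ h2⟩
      simp only
      omega
    · rw [RTf_p_w]
      exact (rfl : I.E.w p = I.E.w p)
    · rw [RTf_p_pl hz.1]
      exact (RTf_pp hz).2.1
  mu_lt := by
    rintro x (⟨p, hp, rfl⟩ | ⟨p, hp, rfl⟩ | ⟨z, hz, rfl⟩) hr
    · have h : p ≠ p₀ := fun h => hr (by rw [h])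
      have h1 : p₀ < p := lt_of_le_of_ne (hp₀.2 hp) (Ne.symm h)
      rw [Fin.lt_def] at h1
      have h3 : RTf_p I.M I.E q p₀ (.inr p) =
          .inr ⟨p.val - 1, lt_of_le_of_lt (Nat.sub_le _ _) p.2⟩ := by
        unfold RTf_p
        simp [h]
      rw [h3]
      unfold RTf_mu
      simp only
      omega
    · rw [RTf_p_w]
      have h1 : I.E.IsV (I.E.w p) := ⟨p, rfl⟩
      unfold RTf_mu
      simp only [h1, if_true]
      exact p.2
    · rw [RTf_p_pl hz.1]
      have h1 := LMet.toNat_par_lt (RTf_pp hz).1 hz.2.1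
      have h2 : ¬ I.E.IsV z := hz.1
      unfold RTf_mu
      simp only [h2, if_false]
      split_ifs
      · omega
      · omega

theorem exists_pord_some {V : Type u} [Fintype V] {g k s : ℕ} (I : Inst g k s V) (q : V)
    (α : Set (Fin I.E.n)) (hA : I.E.Itv α) :
    ∃ rk : V → ℕ, POrd I.M I.E q (some α) (2 * g + 3) rk := by
  rcases Set.eq_empty_or_nonempty α with h0 | hne
  · have hPP : ∀ z, z ∉ PP I.M I.E q (some α) := by
      rintro z ⟨-, -, p, hp, -⟩
      rw [h0] at hp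
      exact hp
    refine ⟨fun _ => 0, ⟨?_, ?_, ?_, ?_⟩⟩
    · intro v hv
      exact absurd hv (hPP v)
    · intro a v hv
      exact absurd hv (hPP v)
    · intro a y v hy
      exact absurd hy (hPP y)
    · intro N₀ Z₁ Z₂ B₁ B₂ _ _ _ _ _ _ _ _ _ _ _ _ l _ hl _
      cases l with
      | nil => exact Nat.zero_le _
      | cons b l => exact absurd (hl b (by simp)).1 (hPP b)
  · obtain ⟨p₀, h1, h2⟩ := Set.exists_min_image α id (Set.toFinite α) hne
    have hp₀ : IsLeast α p₀ := ⟨h1, fun b hb => h2 b hb⟩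
    obtain ⟨rk, hinj, hle, hint, halt⟩ := treeOrd I.A.S I.A.genus (RTf_T I q α hA p₀ hp₀)
    have hcomp : ∀ z ∈ PP I.M I.E q (some α),
        (.inl z : V ⊕ Fin I.E.n) ∈ (RTf_T I q α hA p₀ hp₀).comp :=
      fun z hz => Or.inr (Or.inr ⟨z, hz, rfl⟩)
    have hAnc : ∀ a v, PAnc I.M I.E q a v → (RTf_T I q α hA p₀ hp₀).Anc (.inl a) (.inl v) := by
      rintro a v ⟨k, hk, hj⟩
      refine ⟨k, ?_⟩
      have := RTf_iter (M := I.M) (E := I.E) (q := q) (p₀ := p₀) (k := k) (v := v)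
        (fun j hjk => hj j hjk.le)
      rw [hk] at this
      exact this
    refine ⟨fun z => rk (.inl z), ⟨?_, ?_, ?_, ?_⟩⟩
    · intro v hv w hw h
      exact Sum.inl.inj (hinj _ (hcomp v hv) _ (hcomp w hw) h)
    · intro a v hv ha
      exact hle _ _ (hcomp v hv) (hAnc a v ha)
    · intro a y v hy hv ha h3 h4
      obtain ⟨k, hk⟩ := hint _ _ _ (hcomp y hy) (hcomp v hv) (hAnc a v ha) h3 h4
      have haV : ¬ I.E.IsV a := by
        obtain ⟨k', hk', hj'⟩ := ha
        rw [← hk']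
        exact hj' k' le_rfl
      obtain ⟨h5, h6⟩ := RTf_iter_conv hk haV
      exact ⟨k, h5, h6⟩
    · intro N₀ Z₁ Z₂ B₁ B₂ hN hNp _ hc1 hc2 d01 d02 d12 dB dA1 dA2 hwZ l hl hlm hlc
      have hNV : ∀ z ∈ N₀, ¬ I.E.IsV z := fun z hz => (hN hz).1
      have hOA : ∀ p ∈ α, p ∈ (OA (some α) : Set (Fin I.E.n)) := fun p hp => ⟨α, rfl, hp⟩
      have hpar : ∀ b ∈ PP I.M I.E q (some α), I.E.IsV (I.M.par q b) →
          ∃ p ∈ α, I.E.w p = I.M.par q b := by
        intro b hb hV
        rcases (RTf_pp hb).2.2 with h | h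
        · exact absurd hV h.1
        · exact h
      have hdis : ∀ (Z : Set V) (B : Set (Fin I.E.n)), Disjoint N₀ Z →
          Disjoint (OA (some α)) B → (∀ p ∈ (OA (some α) : Set (Fin I.E.n)), I.E.w p ∉ Z) →
          Disjoint {x : V ⊕ Fin I.E.n | (∃ p ∈ α, x = .inr p) ∨ (∃ p ∈ α, x = .inl (I.E.w p)) ∨
            ∃ z ∈ N₀, x = .inl z} (ZB I.E Z B) := by
        intro Z B hZ hB hw
        rw [Set.disjoint_left]
        rintro x (⟨p, hp, rfl⟩ | ⟨p, hp, rfl⟩ | ⟨z, hz, rfl⟩) hx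
        · rcases hx with ⟨z', hz', h⟩ | ⟨b, hb, h⟩
          · cases h
          · have h' := Sum.inr.inj h
            rw [← h'] at hb
            exact Set.disjoint_left.mp hB (hOA p hp) hb
        · rcases hx with ⟨z', hz', h⟩ | ⟨b, hb, h⟩
          · have h' := Sum.inl.inj h
            rw [← h'] at hz'
            exact hw p (hOA p hp) hz'
          · cases h
        · rcases hx with ⟨z', hz', h⟩ | ⟨b, hb, h⟩
          · have h' := Sum.inl.inj h
            rw [← h'] at hz'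
            exact Set.disjoint_left.mp hZ hz hz'
          · cases h
      have hmem : ∀ (Z : Set V) (B : Set (Fin I.E.n)) (b : V),
          (.inl b : V ⊕ Fin I.E.n) ∈ ZB I.E Z B ↔ b ∈ Z := by
        intro Z B b
        constructor
        · rintro (⟨z', hz', h⟩ | ⟨b', hb', h⟩)
          · rw [Sum.inl.inj h]
            exact hz'
          · cases h
        · intro h
          exact Or.inl ⟨b, h, rfl⟩
      have key := halt {x | (∃ p ∈ α, x = .inr p) ∨ (∃ p ∈ α, x = .inl (I.E.w p)) ∨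
          ∃ z ∈ N₀, x = .inl z} (ZB I.E Z₁ B₁) (ZB I.E Z₂ B₂) ?_ ?_ ?_ hc1 hc2
        (hdis Z₁ B₁ d01 dA1 (fun p hp => (hwZ p hp).1))
        (hdis Z₂ B₂ d02 dA2 (fun p hp => (hwZ p hp).2)) ?_ (l.map Sum.inl) ?_ ?_ ?_
      · rwa [List.length_map] at key
      · rintro x (h | h | ⟨z, hz, rfl⟩)
        · exact Or.inl h
        · exact Or.inr (Or.inl h)
        · exact Or.inr (Or.inr ⟨z, hN hz, rfl⟩)
      · rintro x (⟨p, hp, rfl⟩ | ⟨p, hp, rfl⟩ | ⟨z, hz, rfl⟩)
        · have h3 := (RTf_T I q α hA p₀ hp₀).p_mem (.inr p) (Or.inl ⟨p, hp, rfl⟩)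
          obtain ⟨p', hp'⟩ := RTf_p_inr (M := I.M) (E := I.E) (q := q) (p₀ := p₀) p
          have hp'' : (RTf_T I q α hA p₀ hp₀).p (.inr p) = .inr p' := hp'
          rw [hp''] at h3 ⊢
          rcases h3 with h3 | ⟨p2, _, h3⟩ | ⟨z2, _, h3⟩
          · exact Or.inl h3
          · cases h3
          · cases h3
        · exact Or.inl ⟨p, hp, RTf_p_w (M := I.M) (E := I.E) (q := q) (p₀ := p₀) p⟩
        · have hp'' : (RTf_T I q α hA p₀ hp₀).p (.inl z) = .inl (I.M.par q z) :=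
            RTf_p_pl (E := I.E) (p₀ := p₀) (hNV z hz)
          rw [hp'']
          rcases hNp z hz with h | h
          · exact Or.inr (Or.inr ⟨_, h, rfl⟩)
          · obtain ⟨p, hp, h'⟩ := hpar z (hN hz) h
            exact Or.inr (Or.inl ⟨p, hp, by rw [h']⟩)
      · exact Or.inl ⟨p₀, hp₀.1, rfl⟩
      · rw [Set.disjoint_left]
        rintro x (⟨z, hz, rfl⟩ | ⟨b, hb, rfl⟩) hx
        · exact Set.disjoint_left.mp d12 hz ((hmem _ _ _).mp hx)
        · rcases hx with ⟨z', hz', h⟩ | ⟨b', hb', h⟩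
          · cases h
          · have h' := Sum.inr.inj h
            rw [← h'] at hb'
            exact Set.disjoint_left.mp dB hb hb'
      · rw [List.pairwise_map]
        exact hl
      · intro x hx
        obtain ⟨b, hb, rfl⟩ := List.mem_map.mp hx
        obtain ⟨h3, h4, h5⟩ := hlm b hb
        refine ⟨hcomp b h3, ?_, ?_⟩
        · have hp'' : (RTf_T I q α hA p₀ hp₀).p (.inl b) = .inl (I.M.par q b) :=
            RTf_p_pl (E := I.E) (p₀ := p₀) h3.1
          rw [hp'']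
          rcases h4 with h | h
          · exact Or.inr (Or.inr ⟨_, h, rfl⟩)
          · obtain ⟨p, hp, h'⟩ := hpar b h3 h
            exact Or.inr (Or.inl ⟨p, hp, by rw [h']⟩)
        · rcases h5 with h | h
          · exact Or.inl ((hmem _ _ _).mpr h)
          · exact Or.inr ((hmem _ _ _).mpr h)
      · rw [List.isChain_map]
        refine hlc.imp ?_
        intro a b hab
        rw [hmem, hmem]
        exact hab

end Pool.Agent.BTV
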