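import Pool.Agent.BTV.Defs

/-! BTV TAa: faces around a vertex; chains of lists.

PROOFS.
`around`: `S.side_eq d` gives `K (some (S.face d true)) = K (some (S.face d false))` for every dart
`d` at `v` (in both cases of `side_eq`; note `d.edge = s(v, d.snd)`).  `S.face_corner d` :
`face d true = face (rot d) false`, and `(rot d).fst = d.fst` (`rot_fst`).  So
`K (face d true) = K (face (rot d) true)`; by `rot_cycle` and `Equiv.Perm.SameCycle`
(finite order, `SameCycle.exists_nat_pow_eq`, see `Pool/Agent/BTD/CIa.lean` lemma `nxt_reach`)
all darts at `v` are reached by iterating `rot`.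

`dl_boundary`: induction on the list: `∑ u, ed a b s(v,u) = [v=a]+[v=b]` for `a ≠ b` (the sum has
the only non-zero term `u = b` for `v = a`, `u = a` for `v = b`); mod 2 the middle vertex cancels
(`CharTwo`).
`dl_ne`: a non-zero coefficient of the sum comes from a non-zero summand. -/

set_option autoImplicit false

open Classical

namespace Pool.Agent.BTV

open Pool.Agent.BTD Pool.Agent.H81.Balls

universe u

private lemma TAa_eq_of_add {a b c d : ZMod 2} (h : a + b = c + d) (h' : a = b) : c = d := by
  rw [h', CharTwo.add_self_eq_zero] at h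
  exact (CharTwo.add_eq_zero.mp h.symm)

lemma around {W : Type u} [Fintype W] {Γ : SimpleGraph W} (S : EmbeddingScheme Γ)
    (K : Option S.Face → ZMod 2) (v : W)
    (h : ∀ u, Γ.Adj v u → K (S.side s(v, u) true) = K (S.side s(v, u) false))
    (d d' : Γ.Dart) (hd : d.fst = v) (hd' : d'.fst = v) (b b' : Bool) :
    K (some (S.face d b)) = K (some (S.face d' b')) := by
  have h1 : ∀ e : Γ.Dart, e.fst = v → K (some (S.face e true)) = K (some (S.face e false)) := by
    intro e he
    have h2 := S.side_add K e
    refine TAa_eq_of_add h2 ?_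
    have h3 : e.edge = s(v, e.snd) := by rw [← he]; rfl
    rw [h3]
    exact h e.snd (by rw [← he]; exact e.adj)
  have h4 : ∀ (n : ℕ) (e : Γ.Dart), e.fst = v →
      ((S.rot ^ n) e).fst = v ∧ K (some (S.face ((S.rot ^ n) e) true)) = K (some (S.face e true)) := by
    intro n
    induction n with
    | zero => intro e he; exact ⟨he, rfl⟩
    | succ n ih =>
      intro e he
      obtain ⟨h5, h6⟩ := ih e he
      have h7 : (S.rot ^ (n + 1)) e = S.rot ((S.rot ^ n) e) := by
        rw [pow_succ']; rfl
      have h8 : (S.rot ((S.rot ^ n) e)).fst = v := by rw [S.rot_fst]; exact h5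
      rw [h7]
      refine ⟨h8, ?_⟩
      rw [h1 _ h8, ← S.face_corner, h6]
  have h9 : K (some (S.face d true)) = K (some (S.face d' true)) := by
    obtain ⟨n, hn⟩ := (S.rot_cycle d d' (by rw [hd, hd'])).exists_nat_pow_eq
    rw [← hn]
    exact ((h4 n d hd).2).symm
  have h10 : ∀ c : Bool, K (some (S.face d c)) = K (some (S.face d true)) := by
    intro c
    cases c
    · exact (h1 d hd).symm
    · rfl
  have h11 : ∀ c : Bool, K (some (S.face d' c)) = K (some (S.face d' true)) := by
    intro c
    cases c
    · exact (h1 d' hd').symm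
    · rfl
  rw [h10, h11, h9]

/-- sides of an edge, read at a dart -/
lemma side_add_dart {W : Type u} {Γ : SimpleGraph W} (S : EmbeddingScheme Γ)
    (K : Option S.Face → ZMod 2) (d : Γ.Dart) :
    K (S.side d.edge true) + K (S.side d.edge false) =
      K (some (S.face d true)) + K (some (S.face d false)) :=
  S.side_add K d

/-- the chain of one edge -/
noncomputable def ed {W : Type u} (a b : W) : Sym2 W → ZMod 2 := fun e => if e = s(a, b) then 1 else 0

/-- the chain of a list of vertices -/
noncomputable def dl {W : Type u} : List W → (Sym2 W → ZMod 2)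
  | [] => 0
  | [_] => 0
  | a :: b :: l => ed a b + dl (b :: l)

private lemma TAa_ed_boundary {W : Type u} [Fintype W] {a b : W} (hab : a ≠ b) (v : W) :
    ∑ u, ed a b s(v, u) = (if v = a then 1 else 0) + (if v = b then 1 else 0) := by
  by_cases h1 : v = a
  · subst h1
    rw [if_pos rfl, if_neg hab, add_zero]
    rw [Finset.sum_eq_single b]
    · simp [ed]
    · intro u _ hu
      unfold ed
      rw [if_neg]
      intro h2
      rw [Sym2.eq_iff] at h2
      rcases h2 with ⟨-, h2⟩ | ⟨h2, -⟩
      · exact hu h2
      · exact hab h2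
    · intro h2
      exact absurd (Finset.mem_univ b) h2
  · rw [if_neg h1, zero_add]
    by_cases h3 : v = b
    · subst h3
      rw [if_pos rfl]
      rw [Finset.sum_eq_single a]
      · unfold ed
        rw [if_pos Sym2.eq_swap]
      · intro u _ hu
        unfold ed
        rw [if_neg]
        intro h2
        rw [Sym2.eq_iff] at h2
        rcases h2 with ⟨h2, -⟩ | ⟨-, h2⟩
        · exact h1 h2
        · exact hu h2
      · intro h2
        exact absurd (Finset.mem_univ a) h2
    · rw [if_neg h3]
      apply Finset.sum_eq_zero
      intro u _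
      unfold ed
      rw [if_neg]
      intro h2
      rw [Sym2.eq_iff] at h2
      rcases h2 with ⟨h2, -⟩ | ⟨h2, -⟩
      · exact h1 h2
      · exact h3 h2

private lemma TAa_bd {W : Type u} [Fintype W] (v : W) (l : List W) :
    ∀ a z : W, (a :: l).IsChain (· ≠ ·) → (a :: l).getLast (List.cons_ne_nil a l) = z →
      ∑ u, dl (a :: l) s(v, u) = (if v = a then 1 else 0) + (if v = z then 1 else 0) := by
  induction l with
  | nil =>
    intro a z _ hz
    have hz' : a = z := hz
    subst hz'
    rw [CharTwo.add_self_eq_zero]
    apply Finset.sum_eq_zero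
    intro u _
    rfl
  | cons b l ih =>
    intro a z hch hz
    have h1 : a ≠ b ∧ (b :: l).IsChain (· ≠ ·) := by
      rw [List.isChain_cons_cons] at hch
      exact hch
    have h2 := ih b z h1.2 (by rw [← hz, List.getLast_cons (List.cons_ne_nil b l)])
    have h3 : ∀ u, dl (a :: b :: l) s(v, u) = ed a b s(v, u) + dl (b :: l) s(v, u) := fun u => rfl
    simp only [h3]
    rw [Finset.sum_add_distrib, h2, TAa_ed_boundary h1.1, add_assoc,
      ← add_assoc (if v = b then (1 : ZMod 2) else 0) (if v = b then 1 else 0) _,
      CharTwo.add_self_eq_zero, zero_add]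

/-- boundary of the chain of a list -/
lemma dl_boundary {W : Type u} [Fintype W] (l : List W) (hl : l ≠ []) (hch : l.IsChain (· ≠ ·)) (v : W) :
    ∑ u, dl l s(v, u) = (if v = l.head hl then 1 else 0) + (if v = l.getLast hl then 1 else 0) := by
  cases l with
  | nil => exact absurd rfl hl
  | cons a l => exact TAa_bd v l a _ hch rfl

/-- a non-zero coefficient is an edge of two consecutive vertices of the list -/
lemma dl_ne {W : Type u} (l : List W) (e : Sym2 W) (he : dl l e ≠ 0) :
    ∃ (i : ℕ) (hi : i + 1 < l.length), e = s(l[i], l[i + 1]) := by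
  induction l with
  | nil => exact absurd rfl he
  | cons a l ih =>
    cases l with
    | nil => exact absurd rfl he
    | cons b l =>
      have h3 : dl (a :: b :: l) e = ed a b e + dl (b :: l) e := rfl
      by_cases h1 : e = s(a, b)
      · exact ⟨0, by simp, by simpa using h1⟩
      · have h2 : ed a b e = 0 := if_neg h1
        rw [h3, h2, zero_add] at he
        obtain ⟨i, hi, h4⟩ := ih he
        exact ⟨i + 1, by simpa using hi, by simpa using h4⟩

end Pool.Agent.BTV
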