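import Pool.Agent.BTV.TAa
import Pool.Agent.BTD.CAa
import Pool.Agent.BTD.CAb

/-! BTV TAb: the chain of a regular leg piece.

PROOF of `exists_pch`.  Let `Reg q v e`.  Let `k` be the number of the landing: for `e = some b`
take `k` from `Land q (par q v) b` (so `(par q)^[k] (par q v) = w b`, and
`(par q)^[j] (par q v)` planar for `j < k`); for `e = none` take the least `k` with
`(par q)^[k] (par q v) = q` (exists by `LMet.anc_root`, `LMet.par_ne_top`).
List of vertices `L := (List.range (k+2)).map (fun j => (par q)^[j] v)` (first `v`, last `w b`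
resp. `q`).  Consecutive elements are `H`-adjacent: they are `G`-adjacent (`LMet.par_adj`; for the
vertex `x = (par q)^[j] v`, `j ≤ k`, we have `x ≠ q`: for `j = 0` by `Reg`; for `j > 0`: for
`e = none` by minimality of `k`; for `e = some b`: `x = q` would give `par q x = x` planar, and all
later iterates equal `q` (`LMet.par_root`), also `w b`, contradiction) and not in a common bag
(for `j = 0` by `Reg`; for `j ≥ 1` the vertex `(par q)^[j] v` is planar, and elements of bags are
vortex vertices by `X_sub`), so `I.fits` gives `H.Adj`.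
`Lx := (if po v = some a then [inr a] else []) ++ L.map inl ++ (if e = some b then [inr b] else [])`
is a chain of `Ga`-adjacent vertices (`po v = some a` implies `w a = v`), first `ancS`, last `ancE`.
`c := dl Lx`.  (1) from `dl_ne`; (2) from `dl_boundary`; (3) the vertices of `Lx` of the form
`inl x` are the elements of `L`, all in `UU` (for `e = some b`: `x = (par q)^[j] v`, `w b` is an
iterate of `x`; `Anc` is `∃ k, (par q)^[k] v = a`); (4) two consecutive vertices of `Lx` are not
both `inr`, since `L ≠ []`. (5) all vertices of `Lx` are reachable in `Ga` from `ancS` . -/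

set_option autoImplicit false

open Classical

namespace Pool.Agent.BTV

open Pool.Agent.BTD Pool.Agent.H81.Balls

universe u

variable {V : Type u}

/-- start of the extended piece -/
noncomputable def ancS (E : NE V) (v : V) : V ⊕ Fin E.n :=
  match E.po v with
  | some a => .inr a
  | none => .inl v

/-- end of the extended piece -/
def ancE (E : NE V) (q : V) (e : Option (Fin E.n)) : V ⊕ Fin E.n :=
  match e with
  | some b => .inr b
  | none => .inl q

lemma po_w (E : NE V) (p : Fin E.n) : E.po (E.w p) = some p := by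
  have h : ∃ r, E.w r = E.w p := ⟨p, rfl⟩
  unfold NE.po
  rw [dif_pos h]
  exact congrArg some (E.w_inj _ _ h.choose_spec)

lemma po_none (E : NE V) {v : V} (h : ¬ E.IsV v) : E.po v = none := by
  unfold NE.po
  exact dif_neg h

lemma po_some (E : NE V) {v : V} {p : Fin E.n} (h : E.po v = some p) : E.w p = v := by
  unfold NE.po at h
  by_cases h1 : ∃ r, E.w r = v
  · rw [dif_pos h1] at h
    have h2 : h1.choose = p := Option.some.inj h
    rw [← h2]
    exact h1.choose_spec
  · rw [dif_neg h1] at h
    exact absurd h (by simp)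

private lemma TAb_data {G : SimpleGraph V} (M : LMet G) (E : NE V) {q v : V}
    {e : Option (Fin E.n)} (h : Reg M E q v e) :
    ∃ k : ℕ, M.D v q ≠ ⊤ ∧ ¬ E.VSt v (M.par q v) ∧
      (∀ j ≤ k, (M.par q)^[j] v ≠ q) ∧
      (∀ j, 1 ≤ j → j ≤ k → ¬ E.IsV ((M.par q)^[j] v)) ∧
      (∀ j ≤ k + 1, (M.par q)^[j] v ∈ UU M E q v e) ∧
      (∀ b, e = some b → (M.par q)^[k + 1] v = E.w b) ∧
      (e = none → (M.par q)^[k + 1] v = q) := by
  cases e with
  | some b =>
    obtain ⟨h1, h2, h3, k, h4, h5⟩ := h
    have hend : (M.par q)^[k + 1] v = E.w b := by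
      rw [Function.iterate_succ_apply]
      exact h4
    have hpl : ∀ j, 1 ≤ j → j ≤ k → ¬ E.IsV ((M.par q)^[j] v) := by
      intro j hj hjk
      obtain ⟨i, rfl⟩ := Nat.exists_eq_succ_of_ne_zero (show j ≠ 0 by omega)
      rw [Function.iterate_succ_apply]
      exact h5 i (by omega)
    refine ⟨k, h1, h3, ?_, hpl, ?_, ?_, ?_⟩
    · intro j hj hq
      rcases Nat.eq_zero_or_pos j with h0 | h0
      · subst h0
        exact h2 hq
      · apply hpl j h0 hj
        have h6 : (M.par q)^[k + 1] v = q := by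
          have h7 : k + 1 = (k + 1 - j) + j := by omega
          rw [h7, Function.iterate_add_apply, hq, LMet.CAb_iter_root]
        rw [hq, ← h6, hend]
        exact ⟨b, rfl⟩
    · intro j hj
      refine ⟨⟨j, rfl⟩, ⟨k + 1 - j, ?_⟩⟩
      rw [← Function.iterate_add_apply, Nat.sub_add_cancel hj]
      exact hend
    · intro b' hb
      rw [← Option.some.inj hb]
      exact hend
    · intro hb
      exact absurd hb (by simp)
  | none =>
    obtain ⟨h1, h2, h3, h4, h5⟩ := h
    obtain ⟨k0, hk0⟩ := LMet.anc_root h4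
    have hex : ∃ k, (M.par q)^[k] (M.par q v) = q := ⟨k0, hk0⟩
    have hend : (M.par q)^[Nat.find hex + 1] v = q := by
      rw [Function.iterate_succ_apply]
      exact Nat.find_spec hex
    refine ⟨Nat.find hex, h1, h3, ?_, ?_, ?_, ?_, ?_⟩
    · intro j hj hq
      rcases Nat.eq_zero_or_pos j with h0 | h0
      · subst h0
        exact h2 hq
      · obtain ⟨i, rfl⟩ := Nat.exists_eq_succ_of_ne_zero (show j ≠ 0 by omega)
        rw [Function.iterate_succ_apply] at hq
        exact Nat.find_min hex (show i < Nat.find hex by omega) hq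
    · intro j hj hjk
      obtain ⟨i, rfl⟩ := Nat.exists_eq_succ_of_ne_zero (show j ≠ 0 by omega)
      rw [Function.iterate_succ_apply]
      exact h5 _ ⟨i, rfl⟩
    · intro j hj
      exact ⟨j, rfl⟩
    · intro b' hb
      exact absurd hb (by simp)
    · intro _
      exact hend

private noncomputable def TAb_i {W : Type u} (z a : W) : ZMod 2 := if z = a then 1 else 0

private lemma TAb_i_eq {W : Type u} (z a : W) (d : Decidable (z = a)) :
    @ite (ZMod 2) (z = a) d 1 0 = TAb_i z a := by
  unfold TAb_i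
  split_ifs <;> rfl

private lemma TAb_ed {W : Type u} [Fintype W] {a b : W} (hab : a ≠ b) (v : W) :
    ∑ u, ed a b s(v, u) = TAb_i v a + TAb_i v b := by
  have h1 := dl_boundary [a, b] (by simp) (by simpa using hab) v
  have h2 : ∀ u, dl [a, b] s(v, u) = ed a b s(v, u) := by
    intro u
    show (ed a b + 0 : Sym2 W → ZMod 2) s(v, u) = _
    rw [add_zero]
  simp only [h2] at h1
  exact h1

private lemma TAb_ed_ne {W : Type u} {a b : W} {e : Sym2 W} (h : ed a b e ≠ 0) : e = s(a, b) := by
  by_contra h1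
  exact h (if_neg h1)

private lemma TAb_tel {W : Type u} (z : W) (g : ℕ → W) (k : ℕ) :
    ∑ j ∈ Finset.range (k + 1), (TAb_i z (g j) + TAb_i z (g (j + 1))) =
      TAb_i z (g 0) + TAb_i z (g (k + 1)) := by
  induction k with
  | zero => simp
  | succ k ih =>
    rw [Finset.sum_range_succ, ih, add_assoc,
      ← add_assoc (TAb_i z (g (k + 1))) (TAb_i z (g (k + 1))) _,
      CharTwo.add_self_eq_zero, zero_add]

theorem exists_pch [Fintype V] {g k s : ℕ} (I : Inst g k s V) {q v : V} {e : Option (Fin I.E.n)}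
    (h : Reg I.M I.E q v e) :
    ∃ c : Sym2 (V ⊕ Fin I.E.n) → ZMod 2,
      (∀ x y, c s(x, y) ≠ 0 → I.E.Ga.Adj x y ∧ I.E.Ga.Reachable (ancS I.E v) x) ∧
      (∀ z, ∑ y, c s(z, y) = (if z = ancS I.E v then 1 else 0) + (if z = ancE I.E q e then 1 else 0)) ∧
      (∀ x, x ∉ UU I.M I.E q v e → ∀ y, c s(.inl x, y) = 0) ∧
      (∀ p p', c s(.inr p, .inr p') = 0) ∧
      I.E.Ga.Reachable (ancS I.E v) (ancE I.E q e) := by
  obtain ⟨m, hD, hVS, hq, hpl, hU, hes, hen⟩ := TAb_data I.M I.E h
  set f : ℕ → V := fun j => (I.M.par q)^[j] v with hf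
  have hf0 : f 0 = v := rfl
  have hadjH : ∀ j ≤ m, I.E.H.Adj (f j) (f (j + 1)) := by
    intro j hj
    have h1 : f (j + 1) = I.M.par q (f j) := Function.iterate_succ_apply' _ _ _
    have h2 : I.G.Adj (f j) (f (j + 1)) := by
      rw [h1]
      exact LMet.par_adj (hq j hj) (LMet.CAb_iter_ne_top hD j)
    rcases I.fits _ _ h2 with h3 | ⟨p, h3, h4⟩
    · exact h3
    · exfalso
      rcases Nat.eq_zero_or_pos j with h0 | h0
      · subst h0
        exact hVS ⟨p, h3, by rw [h1] at h4; exact h4⟩
      · obtain ⟨r, hr, -⟩ := I.E.X_sub p _ h3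
        exact hpl j h0 hj ⟨r, hr⟩
  have hadj : ∀ j ≤ m, I.E.Ga.Adj (.inl (f j)) (.inl (f (j + 1))) := hadjH
  -- the two end edges
  have hA : ∃ A : Sym2 (V ⊕ Fin I.E.n) → ZMod 2,
      (∀ x y, A s(x, y) ≠ 0 → I.E.Ga.Adj x y ∧ I.E.Ga.Reachable (ancS I.E v) x) ∧
      (∀ z, ∑ y, A s(z, y) + TAb_i z (.inl v) = TAb_i z (ancS I.E v)) ∧
      (∀ x, x ∉ UU I.M I.E q v e → ∀ y, A s(.inl x, y) = 0) ∧
      (∀ p p', A s(.inr p, .inr p') = 0) ∧
      I.E.Ga.Reachable (ancS I.E v) (.inl v) := by
    rcases hp : I.E.po v with _ | a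
    · have hS : ancS I.E v = .inl v := by
        unfold ancS
        rw [hp]
      rw [hS]
      refine ⟨0, ?_, ?_, ?_, ?_, SimpleGraph.Reachable.refl _⟩
      · intro x y hxy
        exact absurd rfl hxy
      · intro z
        simp
      · intro x _ y
        rfl
      · intro p p'
        rfl
    · have hS : ancS I.E v = .inr a := by
        unfold ancS
        rw [hp]
      have hw : I.E.w a = v := po_some I.E hp
      have h1 : I.E.Ga.Adj (.inr a) (.inl v) := hw
      rw [hS]
      refine ⟨ed (.inr a) (.inl v), ?_, ?_, ?_, ?_, h1.reachable⟩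
      · intro x y hxy
        have h2 := TAb_ed_ne hxy
        rw [Sym2.eq_iff] at h2
        rcases h2 with ⟨rfl, rfl⟩ | ⟨rfl, rfl⟩
        · exact ⟨h1, SimpleGraph.Reachable.refl _⟩
        · exact ⟨h1.symm, h1.reachable⟩
      · intro z
        rw [TAb_ed (by simp), add_assoc, CharTwo.add_self_eq_zero, add_zero]
      · intro x hx y
        by_contra hne
        have h2 := TAb_ed_ne hne
        rw [Sym2.eq_iff] at h2
        rcases h2 with ⟨h2, -⟩ | ⟨h2, -⟩
        · exact absurd h2 (by simp)
        · have h3 : x = v := Sum.inl_injective h2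
          rw [h3] at hx
          exact hx (hU 0 (by omega))
      · intro p p'
        by_contra hne
        have h2 := TAb_ed_ne hne
        rw [Sym2.eq_iff] at h2
        rcases h2 with ⟨-, h2⟩ | ⟨h2, -⟩
        · exact absurd h2 (by simp)
        · exact absurd h2 (by simp)
  obtain ⟨A, hA1, hA2, hA3, hA4, hA5⟩ := hA
  have hreach : ∀ j ≤ m + 1, I.E.Ga.Reachable (ancS I.E v) (.inl (f j)) := by
    intro j
    induction j with
    | zero => intro _; exact hA5
    | succ j ih =>
      intro hj
      exact (ih (by omega)).trans (hadj j (by omega)).reachable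
  have hB : ∃ B : Sym2 (V ⊕ Fin I.E.n) → ZMod 2,
      (∀ x y, B s(x, y) ≠ 0 → I.E.Ga.Adj x y ∧ I.E.Ga.Reachable (ancS I.E v) x) ∧
      (∀ z, TAb_i z (.inl (f (m + 1))) + ∑ y, B s(z, y) = TAb_i z (ancE I.E q e)) ∧
      (∀ x, x ∉ UU I.M I.E q v e → ∀ y, B s(.inl x, y) = 0) ∧
      (∀ p p', B s(.inr p, .inr p') = 0) ∧
      I.E.Ga.Reachable (ancS I.E v) (ancE I.E q e) := by
    have hr := hreach (m + 1) le_rfl
    cases e with
    | none =>
      have h1 : f (m + 1) = q := hen rfl
      rw [h1] at hr
      refine ⟨0, ?_, ?_, ?_, ?_, hr⟩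
      · intro x y hxy
        exact absurd rfl hxy
      · intro z
        rw [h1]
        have h2 : ancE I.E q none = .inl q := rfl
        rw [h2]
        simp
      · intro x _ y
        rfl
      · intro p p'
        rfl
    | some b =>
      have h1 : f (m + 1) = I.E.w b := hes b rfl
      have h2 : I.E.Ga.Adj (.inl (f (m + 1))) (.inr b) := h1.symm
      have h3 : ancE I.E q (some b) = .inr b := rfl
      rw [h3]
      refine ⟨ed (.inl (f (m + 1))) (.inr b), ?_, ?_, ?_, ?_, hr.trans h2.reachable⟩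
      · intro x y hxy
        have h4 := TAb_ed_ne hxy
        rw [Sym2.eq_iff] at h4
        rcases h4 with ⟨rfl, rfl⟩ | ⟨rfl, rfl⟩
        · exact ⟨h2, hr⟩
        · exact ⟨h2.symm, hr.trans h2.reachable⟩
      · intro z
        rw [TAb_ed (by simp), ← add_assoc, CharTwo.add_self_eq_zero, zero_add]
      · intro x hx y
        by_contra hne
        have h4 := TAb_ed_ne hne
        rw [Sym2.eq_iff] at h4
        rcases h4 with ⟨h4, -⟩ | ⟨h4, -⟩
        · have h5 : x = f (m + 1) := Sum.inl_injective h4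
          rw [h5] at hx
          exact hx (hU (m + 1) le_rfl)
        · exact absurd h4 (by simp)
      · intro p p'
        by_contra hne
        have h4 := TAb_ed_ne hne
        rw [Sym2.eq_iff] at h4
        rcases h4 with ⟨h4, -⟩ | ⟨-, h4⟩
        · exact absurd h4 (by simp)
        · exact absurd h4 (by simp)
  obtain ⟨B, hB1, hB2, hB3, hB4, hB5⟩ := hB
  let F : ℕ → Sym2 (V ⊕ Fin I.E.n) → ZMod 2 := fun j => ed (.inl (f j)) (.inl (f (j + 1)))
  refine ⟨fun e => A e + (∑ j ∈ Finset.range (m + 1), F j e) + B e, ?_, ?_, ?_, ?_, hB5⟩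
  · intro x y hxy
    by_cases h1 : A s(x, y) = 0
    · by_cases h2 : B s(x, y) = 0
      · have h3 : ∑ j ∈ Finset.range (m + 1), F j s(x, y) ≠ 0 := by
          intro h3
          apply hxy
          show A s(x, y) + _ + B s(x, y) = 0
          rw [h1, h2, h3]
          simp
        obtain ⟨j, hj, h4⟩ := Finset.exists_ne_zero_of_sum_ne_zero h3
        have hj' : j < m + 1 := Finset.mem_range.mp hj
        have h5 := TAb_ed_ne h4
        rw [Sym2.eq_iff] at h5
        rcases h5 with ⟨rfl, rfl⟩ | ⟨rfl, rfl⟩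
        · exact ⟨hadj j (by omega), hreach j (by omega)⟩
        · exact ⟨(hadj j (by omega)).symm, hreach (j + 1) (by omega)⟩
      · exact hB1 x y h2
    · exact hA1 x y h1
  · intro z
    show ∑ y, (A s(z, y) + (∑ j ∈ Finset.range (m + 1), F j s(z, y)) + B s(z, y)) = _
    rw [TAb_i_eq, TAb_i_eq, Finset.sum_add_distrib, Finset.sum_add_distrib, Finset.sum_comm]
    have h1 : ∀ j ∈ Finset.range (m + 1), ∑ y, F j s(z, y) =
        TAb_i z (.inl (f j)) + TAb_i z (.inl (f (j + 1))) := by
      intro j hj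
      have hj' : j < m + 1 := Finset.mem_range.mp hj
      exact TAb_ed (hadj j (by omega)).ne z
    rw [Finset.sum_congr rfl h1, TAb_tel z (fun j => Sum.inl (f j)) m]
    rw [← hA2 z, ← hB2 z, hf0]
    ring
  · intro x hx y
    show A s(.inl x, y) + (∑ j ∈ Finset.range (m + 1), F j s(.inl x, y)) + B s(.inl x, y) = 0
    rw [hA3 x hx y, hB3 x hx y, zero_add, add_zero]
    apply Finset.sum_eq_zero
    intro j hj
    have hj' : j < m + 1 := Finset.mem_range.mp hj
    by_contra hne
    have h5 := TAb_ed_ne hne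
    rw [Sym2.eq_iff] at h5
    rcases h5 with ⟨h5, -⟩ | ⟨h5, -⟩
    · have h6 : x = f j := Sum.inl_injective h5
      rw [h6] at hx
      exact hx (hU j (by omega))
    · have h6 : x = f (j + 1) := Sum.inl_injective h5
      rw [h6] at hx
      exact hx (hU (j + 1) (by omega))
  · intro p p'
    show A s(.inr p, .inr p') + (∑ j ∈ Finset.range (m + 1), F j s(.inr p, .inr p')) +
      B s(.inr p, .inr p') = 0
    rw [hA4, hB4, zero_add, add_zero]
    apply Finset.sum_eq_zero
    intro j hj
    by_contra hne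
    have h5 := TAb_ed_ne hne
    rw [Sym2.eq_iff] at h5
    rcases h5 with ⟨h5, -⟩ | ⟨h5, -⟩
    · exact absurd h5 (by simp)
    · exact absurd h5 (by simp)

end Pool.Agent.BTV
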