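import Pool.Agent.BTV.TAa

/-! BTV TAd: the faces along the combs.

Darts at `inr p`: `dW p`, `dR p q` (if `Nx p q`), `dL p' p` (if `Nx p' p`) and no others (the
neighbours of `inr p` in `Ga` are `inl (w p)`, the next and the previous position, both unique
because of `q.val = p.val + 1`).
`finf p` = the face on the other side of the comb path.
(a) `rot` at `inr p` is a cyclic permutation of its darts (`rot_cycle`, `rot_fst`): if `p` has a next
`q` and a previous `p'`: `rot L = W`, `rot W = R`, hence `rot R = L` (`rot R` is one of the three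
darts, not `W = rot L` and not `R = rot W` by injectivity).  If `p` has a previous but no next:
`rot L = W` and `rot W = L`.
(b) `finf_next`: `Nx p q`.  `finf p = face (dR p q) true`.  By `face_along` with `flat`:
`face (dR p q) true = face (dR p q).symm (!(xor true false)) = face (dL p q) false`.
If `q` has a next `q'`: `rot (dR q q') = dL p q`, so `face_corner` gives
`face (dR q q') true = face (dL p q) false`.  If `q` has no next: `finf q = face (dW q) true =
face (rot (dW q)) false = face (dL p q) false`.
(c) `finf_const`: induction along the comb.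
(d) `val_faces`: `p` with all sides of the edges at `inl (w p)` equal for `K` (also the spoke).
`around` at `inl (w p)`: all faces at `inl (w p)` have the same value as `K (face d b)` for the dart
`d = (inl (w p), inr p)`; `side_add_dart`/`side_eq`/`face_along` relate it with `K (face (dW p) b)`
(both sides of the spoke have the same value).  If `p` has a next `q`: `face (dW p) true =
face (dR p q) false` (corner, `rotW`), and `K (face (dR p q) false) + K (face (dR p q) true) =
K(side true)+K(side false)` of the comb edge (`side_add_dart`).  If not: `finf p = face (dW p) true`. -/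

set_option autoImplicit false

open Classical

namespace Pool.Agent.BTV

open Pool.Agent.BTD Pool.Agent.H81.Balls

universe u

variable {V : Type u}

/-- the face at the comb path on the side without spokes -/
noncomputable def finf {E : NE V} {g : ℕ} (A : E.Emb g) (p : Fin E.n) : A.S.Face :=
  if h : ∃ q, E.Nx p q then A.S.face (E.dR p h.choose h.choose_spec) true
  else A.S.face (E.dW p) true

/-- the next position is unique -/
lemma TAd_nx_unique {E : NE V} {p q q' : Fin E.n} (h : E.Nx p q) (h' : E.Nx p q') : q = q' :=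
  Fin.ext (by rw [h.1, h'.1])

/-- the previous position is unique -/
lemma TAd_nx_unique' {E : NE V} {p p' q : Fin E.n} (h : E.Nx p q) (h' : E.Nx p' q) : p = p' :=
  Fin.ext (by have h1 := h.1; have h2 := h'.1; omega)

/-- the darts at a vertex of the comb path -/
lemma TAd_darts {E : NE V} (d : E.Ga.Dart) (q : Fin E.n) (hd : d.fst = .inr q) :
    d = E.dW q ∨ (∃ q' h, d = E.dR q q' h) ∨ (∃ p h, d = E.dL p q h) := by
  obtain ⟨⟨x, y⟩, hxy⟩ := d
  have hx : x = .inr q := hd
  subst hx
  cases y with
  | inl v =>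
    left
    have h1 : E.w q = v := hxy
    subst h1
    rfl
  | inr q' =>
    right
    have h1 : E.Nx q q' ∨ E.Nx q' q := hxy
    rcases h1 with h1 | h1
    · exact Or.inl ⟨q', h1, rfl⟩
    · exact Or.inr ⟨q', h1, rfl⟩

lemma TAd_finf_of {E : NE V} {g : ℕ} (A : E.Emb g) {p q : Fin E.n} (h : E.Nx p q) :
    finf A p = A.S.face (E.dR p q h) true := by
  have h1 : ∃ q, E.Nx p q := ⟨q, h⟩
  have h2 : finf A p = A.S.face (E.dR p h1.choose h1.choose_spec) true := by
    unfold finf
    rw [dif_pos h1]
  have h3 : ∀ (q' : Fin E.n) (h' : E.Nx p q'), q' = q →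
      A.S.face (E.dR p q' h') true = A.S.face (E.dR p q h) true := by
    intro q' h' hq
    subst hq
    rfl
  rw [h2]
  exact h3 _ _ (TAd_nx_unique h1.choose_spec h)

lemma TAd_dW_ne_dR {E : NE V} {q q' : Fin E.n} (h : E.Nx q q') : E.dW q ≠ E.dR q q' h := by
  intro h1
  have h2 : (E.dW q).snd = (E.dR q q' h).snd := by rw [h1]
  exact absurd h2 (by simp [NE.dW, NE.dR])

lemma TAd_dW_ne_dL {E : NE V} {p q : Fin E.n} (h : E.Nx p q) : E.dW q ≠ E.dL p q h := by
  intro h1
  have h2 : (E.dW q).snd = (E.dL p q h).snd := by rw [h1]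
  exact absurd h2 (by simp [NE.dW, NE.dL])

lemma TAd_dR_ne_dL {E : NE V} {p q q' : Fin E.n} (h : E.Nx p q) (h' : E.Nx q q') :
    E.dR q q' h' ≠ E.dL p q h := by
  intro h1
  have h2 : (E.dR q q' h').snd = (E.dL p q h).snd := by rw [h1]
  have h3 : q' = p := Sum.inr_injective h2
  have h4 := h.1
  have h5 := h'.1
  rw [h3] at h5
  omega

lemma TAd_rotR {E : NE V} {g : ℕ} (A : E.Emb g) {p q q' : Fin E.n} (h : E.Nx p q)
    (h' : E.Nx q q') : A.S.rot (E.dR q q' h') = E.dL p q h := by
  have h1 : (A.S.rot (E.dR q q' h')).fst = .inr q := A.S.rot_fst _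
  rcases TAd_darts _ q h1 with h2 | ⟨r, hr, h2⟩ | ⟨r, hr, h2⟩
  · exfalso
    rw [← A.rotL p q h] at h2
    exact TAd_dR_ne_dL h h' (A.S.rot.injective h2)
  · exfalso
    have h3 : r = q' := TAd_nx_unique hr h'
    subst h3
    have h4 : A.S.rot (E.dR q r h') = A.S.rot (E.dW q) := by
      rw [A.rotW q r h']
      exact h2
    exact TAd_dW_ne_dR h' (A.S.rot.injective h4).symm
  · have h3 : r = p := TAd_nx_unique' hr h
    subst h3
    exact h2

lemma TAd_rotW {E : NE V} {g : ℕ} (A : E.Emb g) {p q : Fin E.n} (h : E.Nx p q)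
    (h' : ¬ ∃ q', E.Nx q q') : A.S.rot (E.dW q) = E.dL p q h := by
  have h1 : (A.S.rot (E.dW q)).fst = .inr q := A.S.rot_fst _
  rcases TAd_darts _ q h1 with h2 | ⟨r, hr, h2⟩ | ⟨r, hr, h2⟩
  · exfalso
    have h3 : A.S.rot (E.dW q) = A.S.rot (E.dL p q h) := by rw [h2, A.rotL p q h]
    exact TAd_dW_ne_dL h (A.S.rot.injective h3)
  · exact absurd ⟨r, hr⟩ h'
  · have h3 : r = p := TAd_nx_unique' hr h
    subst h3
    exact h2

lemma TAd_face_R {E : NE V} {g : ℕ} (A : E.Emb g) {p q : Fin E.n} (h : E.Nx p q) :
    A.S.face (E.dR p q h) true = A.S.face (E.dL p q h) false := by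
  have h1 := A.S.face_along (E.dR p q h) true
  rw [A.flat p q h] at h1
  exact h1

lemma finf_next {E : NE V} {g : ℕ} (A : E.Emb g) {p q : Fin E.n} (h : E.Nx p q) :
    finf A p = finf A q := by
  rw [TAd_finf_of A h, TAd_face_R A h]
  by_cases h' : ∃ q', E.Nx q q'
  · obtain ⟨q', h'⟩ := h'
    rw [TAd_finf_of A h', A.S.face_corner, TAd_rotR A h h']
  · unfold finf
    rw [dif_neg h', A.S.face_corner, TAd_rotW A h h']

lemma TAd_finf_le {E : NE V} {g : ℕ} (A : E.Emb g) (m : ℕ) : ∀ {p q : Fin E.n},
    E.disc p = E.disc q → q.val = p.val + m → finf A p = finf A q := by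
  induction m with
  | zero =>
    intro p q _ h
    have h1 : p = q := Fin.ext (by omega)
    rw [h1]
  | succ m ih =>
    intro p q hd h
    have hr : p.val + m < E.n := by have := q.isLt; omega
    have h1 : E.disc p ≤ E.disc ⟨p.val + m, hr⟩ := E.disc_mono _ _ (Fin.mk_le_mk.mpr (by omega))
    have h2 : E.disc ⟨p.val + m, hr⟩ ≤ E.disc q := E.disc_mono _ _ (by
      rw [Fin.le_def]
      change p.val + m ≤ q.val
      omega)
    have h3 : E.disc p = E.disc ⟨p.val + m, hr⟩ := by omega
    rw [ih h3 rfl]
    exact finf_next A ⟨by rw [h]; rfl, by omega⟩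

lemma finf_const {E : NE V} {g : ℕ} (A : E.Emb g) {p q : Fin E.n} (h : E.disc p = E.disc q) :
    finf A p = finf A q := by
  rcases le_total p.val q.val with h1 | h1
  · exact TAd_finf_le A (q.val - p.val) h (by omega)
  · exact (TAd_finf_le A (p.val - q.val) h.symm (by omega)).symm

lemma val_faces [Fintype V] {E : NE V} {g : ℕ} (A : E.Emb g) (K : Option A.S.Face → ZMod 2)
    (p : Fin E.n)
    (h : ∀ y, E.Ga.Adj (.inl (E.w p)) y →
      K (A.S.side s(.inl (E.w p), y) true) = K (A.S.side s(.inl (E.w p), y) false))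
    (d : E.Ga.Dart) (hd : d.fst = .inl (E.w p)) (b : Bool) :
    K (some (A.S.face d b)) = K (some (finf A p)) +
      (if h : ∃ q, E.Nx p q then K (A.S.side s(.inr p, .inr h.choose) true) +
        K (A.S.side s(.inr p, .inr h.choose) false) else 0) := by
  have h1 : K (some (A.S.face d b)) = K (some (A.S.face (E.dW p) true)) := by
    rw [A.S.face_along (E.dW p) true]
    exact around A.S K (.inl (E.w p)) h d (E.dW p).symm hd rfl b _
  rw [h1]
  by_cases h2 : ∃ q, E.Nx p q
  · rw [dif_pos h2]
    have h3 : finf A p = A.S.face (E.dR p h2.choose h2.choose_spec) true :=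
      TAd_finf_of A h2.choose_spec
    have h4 : A.S.face (E.dW p) true = A.S.face (E.dR p h2.choose h2.choose_spec) false := by
      rw [A.S.face_corner, A.rotW p h2.choose h2.choose_spec]
    have h5 : K (A.S.side s(.inr p, .inr h2.choose) true) +
        K (A.S.side s(.inr p, .inr h2.choose) false) =
        K (some (A.S.face (E.dR p h2.choose h2.choose_spec) true)) +
        K (some (A.S.face (E.dR p h2.choose h2.choose_spec) false)) :=
      side_add_dart A.S K (E.dR p h2.choose h2.choose_spec)
    rw [h3, h4, h5, ← add_assoc, CharTwo.add_self_eq_zero, zero_add]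
  · rw [dif_neg h2, add_zero]
    unfold finf
    rw [dif_neg h2]

end Pool.Agent.BTV
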