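import Pool.Agent.BTV.TAb
import Pool.Agent.BTV.TAc
import Pool.Agent.BTV.TAd
import Pool.Agent.BTD.CLa

/-! BTV TAe: two pieces whose difference is a boundary.

`KFor I x c K`: `K` is a function on faces with boundary `c` on the component of `x`.
`dch` = the closed chain of two comparable pieces: chosen chains `pch` of both (from `exists_pch`)
plus the comb chains joining their anchors.

PROOF of `dch_closed`: `exists_pch` (2), `cs_boundary`, `CharTwo.add_self_eq_zero`; the anchors: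
if `v = v'` then `ancS v = ancS v'` and no comb chain is needed (`jS = 0`); if `v = w a`, `v' = w a'`
then `ancS v = inr a`, `ancS v' = inr a'`, joined by `cs a a'` (which is `0`-boundary if `a = a'`).
Likewise at the ends.
PROOF of `dch_supp`: (1) of `exists_pch`, `cs_ne`, `comb_reach`, `cs_reach`. -/

set_option autoImplicit false

open Classical

namespace Pool.Agent.BTV

open Pool.Agent.BTD Pool.Agent.H81.Balls

universe u

variable {V : Type u} [Fintype V] {g k s : ℕ}

/-- the chosen chain of a regular piece -/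
noncomputable def pch (I : Inst g k s V) (q v : V) (e : Option (Fin I.E.n)) :
    Sym2 (V ⊕ Fin I.E.n) → ZMod 2 :=
  if h : Reg I.M I.E q v e then (exists_pch I h).choose else 0

/-- joins two starts -/
noncomputable def jS (I : Inst g k s V) (v v' : V) : Sym2 (V ⊕ Fin I.E.n) → ZMod 2 :=
  match I.E.po v, I.E.po v' with
  | some a, some a' => cs I.E a a'
  | _, _ => 0

/-- joins two ends -/
noncomputable def jE (I : Inst g k s V) (e e' : Option (Fin I.E.n)) : Sym2 (V ⊕ Fin I.E.n) → ZMod 2 :=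
  match e, e' with
  | some b, some b' => cs I.E b b'
  | _, _ => 0

/-- the closed chain of two comparable pieces -/
noncomputable def dch (I : Inst g k s V) (q v : V) (e : Option (Fin I.E.n)) (q' v' : V)
    (e' : Option (Fin I.E.n)) : Sym2 (V ⊕ Fin I.E.n) → ZMod 2 := fun t =>
  pch I q v e t + pch I q' v' e' t + (jS I v v' t + jE I e e' t)

/-- `K` has boundary `c` on the component of `x`. -/
def KFor (I : Inst g k s V) (x : V ⊕ Fin I.E.n) (c : Sym2 (V ⊕ Fin I.E.n) → ZMod 2)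
    (K : Option I.A.S.Face → ZMod 2) : Prop :=
  ∀ v u, I.E.Ga.Adj v u → I.E.Ga.Reachable x v →
    K (I.A.S.side s(v, u) true) + K (I.A.S.side s(v, u) false) = c s(v, u)

lemma TAe_pch (I : Inst g k s V) {q v : V} {e : Option (Fin I.E.n)} (h : Reg I.M I.E q v e) :
    (∀ x y, pch I q v e s(x, y) ≠ 0 → I.E.Ga.Adj x y ∧ I.E.Ga.Reachable (ancS I.E v) x) ∧
      (∀ z, ∑ y, pch I q v e s(z, y) =
        (if z = ancS I.E v then 1 else 0) + (if z = ancE I.E q e then 1 else 0)) ∧
      (∀ x, x ∉ UU I.M I.E q v e → ∀ y, pch I q v e s(.inl x, y) = 0) ∧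
      (∀ p p', pch I q v e s(.inr p, .inr p') = 0) ∧
      I.E.Ga.Reachable (ancS I.E v) (ancE I.E q e) := by
  have h1 : pch I q v e = (exists_pch I h).choose := by
    unfold pch
    rw [dif_pos h]
  rw [h1]
  exact (exists_pch I h).choose_spec

lemma TAe_jS_some (I : Inst g k s V) {v v' : V} {a a' : Fin I.E.n} (h : I.E.po v = some a)
    (h' : I.E.po v' = some a') : jS I v v' = cs I.E a a' := by
  unfold jS
  rw [h, h']

lemma TAe_jS_none (I : Inst g k s V) {v v' : V} (h : I.E.po v = none) : jS I v v' = 0 := by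
  unfold jS
  rw [h]

lemma TAe_ancS_some (E : NE V) {v : V} {a : Fin E.n} (h : E.po v = some a) :
    ancS E v = .inr a := by
  unfold ancS
  rw [h]

lemma TAe_ancS_none (E : NE V) {v : V} (h : E.po v = none) : ancS E v = .inl v := by
  unfold ancS
  rw [h]

/-- the positions of comparable starts -/
lemma TAe_start (I : Inst g k s V) {v v' : V}
    (h : v = v' ∨ ∃ a a', I.E.w a = v ∧ I.E.w a' = v' ∧ I.E.disc a = I.E.disc a') :
    (v = v' ∧ I.E.po v = none) ∨
      ∃ a a', I.E.po v = some a ∧ I.E.po v' = some a' ∧ I.E.disc a = I.E.disc a' := by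
  rcases h with h | ⟨a, a', h1, h2, h3⟩
  · subst h
    cases h1 : I.E.po v with
    | none => exact Or.inl ⟨rfl, rfl⟩
    | some a => exact Or.inr ⟨a, a, rfl, rfl, rfl⟩
  · subst h1
    subst h2
    exact Or.inr ⟨a, a', po_w I.E a, po_w I.E a', h3⟩

lemma TAe_jS_sum (I : Inst g k s V) {v v' : V}
    (h : v = v' ∨ ∃ a a', I.E.w a = v ∧ I.E.w a' = v' ∧ I.E.disc a = I.E.disc a')
    (z : V ⊕ Fin I.E.n) : ∑ y, jS I v v' s(z, y) =
      (if z = ancS I.E v then 1 else 0) + (if z = ancS I.E v' then 1 else 0) := by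
  rcases TAe_start I h with ⟨h1, h2⟩ | ⟨a, a', h1, h2, h3⟩
  · subst h1
    rw [TAe_jS_none I h2, CharTwo.add_self_eq_zero]
    exact Finset.sum_eq_zero (fun y _ => rfl)
  · rw [TAe_jS_some I h1 h2, TAe_ancS_some I.E h1, TAe_ancS_some I.E h2]
    exact cs_boundary I.E h3 z

lemma TAe_jE_sum (I : Inst g k s V) {q q' : V} {e e' : Option (Fin I.E.n)}
    (h : (e = none ∧ e' = none ∧ q = q') ∨
      ∃ b b', e = some b ∧ e' = some b' ∧ I.E.disc b = I.E.disc b')
    (z : V ⊕ Fin I.E.n) : ∑ y, jE I e e' s(z, y) =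
      (if z = ancE I.E q e then 1 else 0) + (if z = ancE I.E q' e' then 1 else 0) := by
  rcases h with ⟨h1, h2, h3⟩ | ⟨b, b', h1, h2, h3⟩
  · subst h1
    subst h2
    subst h3
    rw [CharTwo.add_self_eq_zero]
    exact Finset.sum_eq_zero (fun y _ => rfl)
  · subst h1
    subst h2
    exact cs_boundary I.E h3 z

lemma dch_closed (I : Inst g k s V) {q v q' v' : V} {e e' : Option (Fin I.E.n)}
    (h : Reg I.M I.E q v e) (h' : Reg I.M I.E q' v' e') (hc : Cmp I.E q v e q' v' e') (z : V ⊕ Fin I.E.n) :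
    ∑ y, dch I q v e q' v' e' s(z, y) = 0 := by
  unfold dch
  rw [Finset.sum_add_distrib, Finset.sum_add_distrib, Finset.sum_add_distrib,
    (TAe_pch I h).2.1 z, (TAe_pch I h').2.1 z, TAe_jS_sum I hc.1 z, TAe_jE_sum I hc.2 z]
  have h1 : ∀ a b c d : ZMod 2, a + b + (c + d) + (a + c + (b + d)) = 0 := by decide
  exact h1 _ _ _ _

lemma dch_supp (I : Inst g k s V) {q v q' v' : V} {e e' : Option (Fin I.E.n)}
    (h : Reg I.M I.E q v e) (h' : Reg I.M I.E q' v' e') (hc : Cmp I.E q v e q' v' e')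
    (x : V ⊕ Fin I.E.n) (hx : I.E.Ga.Reachable x (ancS I.E v)) (z y : V ⊕ Fin I.E.n)
    (hzy : dch I q v e q' v' e' s(z, y) ≠ 0) : I.E.Ga.Adj z y ∧ I.E.Ga.Reachable x z := by
  have p1 := TAe_pch I h
  have p2 := TAe_pch I h'
  have hr : I.E.Ga.Reachable (ancS I.E v) (ancS I.E v') := by
    rcases TAe_start I hc.1 with ⟨h1, -⟩ | ⟨a, a', h1, h2, h3⟩
    · rw [h1]
    · rw [TAe_ancS_some I.E h1, TAe_ancS_some I.E h2]
      exact comb_reach I.E h3
  by_cases c1 : pch I q v e s(z, y) ≠ 0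
  · obtain ⟨h1, h2⟩ := p1.1 z y c1
    exact ⟨h1, hx.trans h2⟩
  by_cases c2 : pch I q' v' e' s(z, y) ≠ 0
  · obtain ⟨h1, h2⟩ := p2.1 z y c2
    exact ⟨h1, hx.trans (hr.trans h2)⟩
  by_cases c3 : jS I v v' s(z, y) ≠ 0
  · rcases TAe_start I hc.1 with ⟨-, h1⟩ | ⟨a, a', h1, h2, h3⟩
    · rw [TAe_jS_none I h1] at c3
      exact absurd rfl c3
    · rw [TAe_jS_some I h1 h2] at c3
      refine ⟨(cs_ne I.E c3).1, hx.trans ?_⟩
      rw [TAe_ancS_some I.E h1]
      exact cs_reach I.E h3 c3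
  by_cases c4 : jE I e e' s(z, y) ≠ 0
  · rcases hc.2 with ⟨h1, h2, -⟩ | ⟨b, b', h1, h2, h3⟩
    · subst h1
      subst h2
      exact absurd rfl c4
    · subst h1
      subst h2
      have c5 : cs I.E b b' s(z, y) ≠ 0 := c4
      exact ⟨(cs_ne I.E c5).1, hx.trans (p1.2.2.2.2.trans (cs_reach I.E h3 c5))⟩
  exfalso
  push Not at c1 c2 c3 c4
  apply hzy
  unfold dch
  rw [c1, c2, c3, c4]
  rfl

end Pool.Agent.BTV
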