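import Pool.Agent.BTV.TAe

/-! BTV TAf: the region of a boundary.

PROOF of `sep_of_K`: `Ins v := ∃ d : Dart, d.fst = inl v ∧ Reachable x (inl v) ∧
K (some (face d true)) = 1` with `x = ancS v0` (`v0` the first start vertex).
 If `y ∉ U ∪ U'` then all chains vanish on all edges at `inl y` (`exists_pch` (3), `cs_inl`), so by
`around` all faces at `inl y` have the same value `val y`.  `hH`: `y, z` H-adjacent, both off
`U ∪ U'`: one is reachable iff the other is; the edge has coefficient 0, its two sides are faces at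
both vertices (dart and reversed dart have the same edge; `side_eq`), so the values agree.
`hV`: `w p ∉ U ∪ U'`.  By `val_faces` the value at `w p` is `K (finf p) +` coefficient of the comb
edge after `p`.  `K (finf p) = 0` by hypothesis `hf` if `p` is in the component of `x` (reachable).
The coefficient is the sum of the two comb chains (`exists_pch` (4)), which by `cs_coeff` and
`bt_next` is `[OBt (po v) (po v') p] + [OBt e e' p]` (`p ≠` the feet since the feet are on
`U ∪ U'`: `w a = v ∈ UU`, `w b ∈ UU` by definition, `anc_refl`) .  If `w p` is not reachable from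
`x` then both sides are false: `Bt a a' p` implies `disc p = disc a` (`bt_disc`) so `inr p` and
`inl (w p)` are reachable (`comb_reach`, spoke).  There is a dart at `inl (w p)`, the spoke.
last clause: `hfo`. -/

set_option autoImplicit false

open Classical

namespace Pool.Agent.BTV

open Pool.Agent.BTD Pool.Agent.H81.Balls

universe u

variable {V : Type u} [Fintype V] {g k s : ℕ}

/-- the start vertex is on the piece -/
lemma TAf_mem_start (I : Inst g k s V) {q v : V} {e : Option (Fin I.E.n)}
    (h : Reg I.M I.E q v e) : v ∈ UU I.M I.E q v e := by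
  cases e with
  | none => exact ⟨0, rfl⟩
  | some b =>
    obtain ⟨-, -, -, m, hm, -⟩ := h
    exact ⟨⟨0, rfl⟩, ⟨m + 1, hm⟩⟩

/-- the landing vertex is on the piece -/
lemma TAf_mem_end (I : Inst g k s V) {q v : V} {b : Fin I.E.n}
    (h : Reg I.M I.E q v (some b)) : I.E.w b ∈ UU I.M I.E q v (some b) := by
  obtain ⟨-, -, -, m, hm, -⟩ := h
  exact ⟨⟨m + 1, hm⟩, ⟨0, rfl⟩⟩

lemma TAf_jS_inl (I : Inst g k s V) (v v' y : V) (u : V ⊕ Fin I.E.n) :
    jS I v v' s(.inl y, u) = 0 := by
  cases h1 : I.E.po v with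
  | none => rw [TAe_jS_none I h1]; rfl
  | some a =>
    cases h2 : I.E.po v' with
    | none =>
      unfold jS
      rw [h1, h2]
      rfl
    | some a' =>
      rw [TAe_jS_some I h1 h2]
      exact cs_inl I.E y u

lemma TAf_jE_inl (I : Inst g k s V) (e e' : Option (Fin I.E.n)) (y : V) (u : V ⊕ Fin I.E.n) :
    jE I e e' s(.inl y, u) = 0 := by
  cases e with
  | none => rfl
  | some b =>
    cases e' with
    | none => rfl
    | some b' => exact cs_inl I.E y u

/-- the closed chain vanishes at the vertices off the two pieces -/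
lemma TAf_dch_inl (I : Inst g k s V) {q v q' v' : V} {e e' : Option (Fin I.E.n)}
    (h : Reg I.M I.E q v e) (h' : Reg I.M I.E q' v' e') {y : V} (hy : y ∉ UU I.M I.E q v e)
    (hy' : y ∉ UU I.M I.E q' v' e') (u : V ⊕ Fin I.E.n) :
    dch I q v e q' v' e' s(.inl y, u) = 0 := by
  unfold dch
  rw [(TAe_pch I h).2.2.1 y hy u, (TAe_pch I h').2.2.1 y hy' u, TAf_jS_inl, TAf_jE_inl]
  rfl

/-- the coefficient of the start part at the comb edge after `p` -/
lemma TAf_jS_coeff (I : Inst g k s V) {v v' : V}
    (hc : v = v' ∨ ∃ a a', I.E.w a = v ∧ I.E.w a' = v' ∧ I.E.disc a = I.E.disc a')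
    {p r : Fin I.E.n} (hpr : I.E.Nx p r) (h1 : I.E.w p ≠ v) (h2 : I.E.w p ≠ v') :
    jS I v v' s(.inr p, .inr r) = if I.E.OBt (I.E.po v) (I.E.po v') p then 1 else 0 := by
  rcases TAe_start I hc with ⟨h3, h4⟩ | ⟨a, a', h3, h4, h5⟩
  · rw [TAe_jS_none I h4, if_neg]
    · rfl
    · rintro ⟨a, a', h5, -, -⟩
      rw [h4] at h5
      cases h5
  · rw [TAe_jS_some I h3 h4, cs_coeff I.E hpr]
    · congr 1
      apply propext
      constructor
      · intro h6
        exact ⟨a, a', h3, h4, h6⟩
      · rintro ⟨c, c', h6, h7, h8⟩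
        rw [h3] at h6
        rw [h4] at h7
        cases h6
        cases h7
        exact h8
    · intro h6
      exact h1 (by rw [h6]; exact po_some I.E h3)
    · intro h6
      exact h2 (by rw [h6]; exact po_some I.E h4)

/-- the coefficient of the end part at the comb edge after `p` -/
lemma TAf_jE_coeff (I : Inst g k s V) {q q' : V} {e e' : Option (Fin I.E.n)}
    (hc : (e = none ∧ e' = none ∧ q = q') ∨
      ∃ b b', e = some b ∧ e' = some b' ∧ I.E.disc b = I.E.disc b')
    {p r : Fin I.E.n} (hpr : I.E.Nx p r) (h1 : e ≠ some p) (h2 : e' ≠ some p) :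
    jE I e e' s(.inr p, .inr r) = if I.E.OBt e e' p then 1 else 0 := by
  rcases hc with ⟨h3, h4, -⟩ | ⟨b, b', h3, h4, h5⟩
  · subst h3
    subst h4
    rw [if_neg]
    · rfl
    · rintro ⟨a, a', h5, -, -⟩
      cases h5
  · subst h3
    subst h4
    have h6 : jE I (some b) (some b') = cs I.E b b' := rfl
    rw [h6, cs_coeff I.E hpr]
    · congr 1
      apply propext
      constructor
      · intro h7
        exact ⟨b, b', rfl, rfl, h7⟩
      · rintro ⟨c, c', h7, h8, h9⟩
        cases h7
        cases h8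
        exact h9
    · intro h7
      exact h1 (by rw [h7])
    · intro h7
      exact h2 (by rw [h7])

lemma TAf_xor (A B : Prop) :
    ((if A then (1 : ZMod 2) else 0) + (if B then 1 else 0) = 1) ↔ Xor' A B := by
  unfold Xor'
  by_cases hA : A <;> by_cases hB : B <;> simp [hA, hB]

lemma sep_of_K (I : Inst g k s V) {q v q' v' : V} {e e' : Option (Fin I.E.n)}
    (h : Reg I.M I.E q v e) (h' : Reg I.M I.E q' v' e') (hc : Cmp I.E q v e q' v' e')
    (x : V ⊕ Fin I.E.n) (hx : I.E.Ga.Reachable x (ancS I.E v))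
    (K : Option I.A.S.Face → ZMod 2) (hK : KFor I x (dch I q v e q' v' e') K)
    (hf : ∀ p, I.E.Ga.Reachable x (.inr p) → K (some (finf I.A p)) = 0)
    (o : V) (hfo : ∀ d : I.E.Ga.Dart, d.fst = .inl o → I.E.Ga.Reachable x (.inl o) →
      ∃ d' : I.E.Ga.Dart, d'.fst = .inl o ∧ K (some (I.A.S.face d' true)) = 0) :
    ∃ Ins : V → Prop, Sep I.M I.E q v e q' v' e' Ins ∧
      (o ∉ UU I.M I.E q v e → o ∉ UU I.M I.E q' v' e' → ¬ Ins o) := by
  have hR : ∀ {y z : V ⊕ Fin I.E.n}, I.E.Ga.Adj y z → I.E.Ga.Reachable x y →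
      I.E.Ga.Reachable x z := fun h1 h2 => h2.trans h1.reachable
  have hK0 : ∀ y : V, y ∉ UU I.M I.E q v e → y ∉ UU I.M I.E q' v' e' →
      I.E.Ga.Reachable x (.inl y) → ∀ u, I.E.Ga.Adj (.inl y) u →
      K (I.A.S.side s(.inl y, u) true) = K (I.A.S.side s(.inl y, u) false) := by
    intro y h1 h2 h3 u h4
    have h5 := hK (.inl y) u h4 h3
    rw [TAf_dch_inl I h h' h1 h2 u] at h5
    exact CharTwo.add_eq_zero.mp h5
  have har : ∀ y : V, y ∉ UU I.M I.E q v e → y ∉ UU I.M I.E q' v' e' →
      I.E.Ga.Reachable x (.inl y) → ∀ d d' : I.E.Ga.Dart, d.fst = .inl y → d'.fst = .inl y →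
      ∀ b b' : Bool, K (some (I.A.S.face d b)) = K (some (I.A.S.face d' b')) := by
    intro y h1 h2 h3 d d' hd hd' b b'
    exact around I.A.S K (.inl y) (hK0 y h1 h2 h3) d d' hd hd' b b'
  have hrev : ∀ p, I.E.Ga.Reachable x (.inr p) → I.E.Ga.Reachable x (.inl (I.E.w p)) :=
    fun p h1 => hR (show I.E.Ga.Adj (.inr p) (.inl (I.E.w p)) from rfl) h1
  have hrev' : ∀ p, I.E.Ga.Reachable x (.inl (I.E.w p)) → I.E.Ga.Reachable x (.inr p) :=
    fun p h1 => hR (show I.E.Ga.Adj (.inl (I.E.w p)) (.inr p) from rfl) h1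
  refine ⟨fun y => ∃ d : I.E.Ga.Dart, d.fst = .inl y ∧ I.E.Ga.Reachable x (.inl y) ∧
    K (some (I.A.S.face d true)) = 1, ⟨?_, ?_⟩, ?_⟩
  · have key : ∀ y z, I.E.H.Adj y z → y ∉ UU I.M I.E q v e → y ∉ UU I.M I.E q' v' e' →
        z ∉ UU I.M I.E q v e → z ∉ UU I.M I.E q' v' e' →
        (∃ d : I.E.Ga.Dart, d.fst = .inl y ∧ I.E.Ga.Reachable x (.inl y) ∧
          K (some (I.A.S.face d true)) = 1) →
        (∃ d : I.E.Ga.Dart, d.fst = .inl z ∧ I.E.Ga.Reachable x (.inl z) ∧
          K (some (I.A.S.face d true)) = 1) := by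
      rintro y z hyz h1 h2 h3 h4 ⟨d, hd, hr, hd1⟩
      have hadj : I.E.Ga.Adj (.inl y) (.inl z) := hyz
      have hrz : I.E.Ga.Reachable x (.inl z) := hR hadj hr
      let d0 : I.E.Ga.Dart := ⟨(.inl y, .inl z), hadj⟩
      have h5 : K (some (I.A.S.face d0 true)) = 1 := by
        rw [← hd1]
        exact har y h1 h2 hr d0 d rfl hd true true
      rw [I.A.S.face_along d0 true] at h5
      refine ⟨d0.symm, rfl, hrz, ?_⟩
      rw [← h5]
      exact har z h3 h4 hrz d0.symm d0.symm rfl rfl _ _
    intro y z hyz h1 h2 h3 h4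
    exact ⟨key y z hyz h1 h2 h3 h4, key z y hyz.symm h3 h4 h1 h2⟩
  · intro p h1 h2
    have hv : I.E.w p ≠ v := fun h3 => h1 (by rw [h3]; exact TAf_mem_start I h)
    have hv' : I.E.w p ≠ v' := fun h3 => h2 (by rw [h3]; exact TAf_mem_start I h')
    have he : e ≠ some p := by
      intro h3
      subst h3
      exact h1 (TAf_mem_end I h)
    have he' : e' ≠ some p := by
      intro h3
      subst h3
      exact h2 (TAf_mem_end I h')
    by_cases hr : I.E.Ga.Reachable x (.inl (I.E.w p))
    · have hval := val_faces I.A K p (hK0 (I.E.w p) h1 h2 hr) (I.E.dW p).symm rfl true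
      rw [hf p (hrev' p hr), zero_add] at hval
      have h3 : (∃ d : I.E.Ga.Dart, d.fst = .inl (I.E.w p) ∧
          I.E.Ga.Reachable x (.inl (I.E.w p)) ∧ K (some (I.A.S.face d true)) = 1) ↔
          K (some (I.A.S.face (I.E.dW p).symm true)) = 1 := by
        constructor
        · rintro ⟨d, hd, -, hd1⟩
          rw [← hd1]
          exact har (I.E.w p) h1 h2 hr _ d rfl hd true true
        · intro h4
          exact ⟨(I.E.dW p).symm, rfl, hr, h4⟩
      rw [h3, hval]
      by_cases hq : ∃ r, I.E.Nx p r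
      · rw [dif_pos hq, hK (.inr p) (.inr hq.choose) (Or.inl hq.choose_spec) (hrev' p hr)]
        have h4 : dch I q v e q' v' e' s(.inr p, .inr hq.choose) =
            (if I.E.OBt (I.E.po v) (I.E.po v') p then 1 else 0) +
              (if I.E.OBt e e' p then 1 else 0) := by
          unfold dch
          rw [(TAe_pch I h).2.2.2.1, (TAe_pch I h').2.2.2.1,
            TAf_jS_coeff I hc.1 hq.choose_spec hv hv',
            TAf_jE_coeff I hc.2 hq.choose_spec he he', add_zero, zero_add]
        rw [h4]
        exact TAf_xor _ _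
      · rw [dif_neg hq]
        have h4 : ¬ I.E.OBt (I.E.po v) (I.E.po v') p := by
          rintro ⟨a, a', h5, h6, h7⟩
          rcases TAe_start I hc.1 with ⟨-, h8⟩ | ⟨c, c', h8, h9, h10⟩
          · rw [h8] at h5
            cases h5
          · rw [h5] at h8
            rw [h6] at h9
            cases h8
            cases h9
            exact hq (bt_next I.E h10 h7)
        have h5 : ¬ I.E.OBt e e' p := by
          rintro ⟨b, b', h5, h6, h7⟩
          rcases hc.2 with ⟨h8, -, -⟩ | ⟨c, c', h8, h9, h10⟩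
          · rw [h8] at h5
            cases h5
          · rw [h5] at h8
            rw [h6] at h9
            cases h8
            cases h9
            exact hq (bt_next I.E h10 h7)
        unfold Xor'
        simp [h4, h5]
    · have h4 : ¬ I.E.OBt (I.E.po v) (I.E.po v') p := by
        rintro ⟨a, a', h5, h6, h7⟩
        rcases TAe_start I hc.1 with ⟨-, h8⟩ | ⟨c, c', h8, h9, h10⟩
        · rw [h8] at h5
          cases h5
        · rw [h5] at h8
          rw [h6] at h9
          cases h8
          cases h9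
          apply hr
          apply hrev
          rw [TAe_ancS_some I.E h5] at hx
          exact hx.trans (comb_reach I.E (bt_disc I.E h10 h7).symm)
      have h5 : ¬ I.E.OBt e e' p := by
        rintro ⟨b, b', h5, h6, h7⟩
        rcases hc.2 with ⟨h8, -, -⟩ | ⟨c, c', h8, h9, h10⟩
        · rw [h8] at h5
          cases h5
        · rw [h5] at h8
          rw [h6] at h9
          cases h8
          cases h9
          apply hr
          apply hrev
          subst h5
          exact hx.trans ((TAe_pch I h).2.2.2.2.trans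
            (comb_reach I.E (bt_disc I.E h10 h7).symm))
      constructor
      · rintro ⟨d, -, h6, -⟩
        exact absurd h6 hr
      · intro h6
        unfold Xor' at h6
        simp [h4, h5] at h6
  · rintro h1 h2 ⟨d, hd, hr, hd1⟩
    obtain ⟨d', hd', h3⟩ := hfo d hd hr
    have h4 := har o h1 h2 hr d d' hd hd' true true
    rw [hd1, h3] at h4
    exact absurd h4 (by decide)

end Pool.Agent.BTV
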