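import Pool.Agent.BTV.TAe

/-! BTV TLa: additivity of the closed chains.

`cs_add`: unfold; for a comb edge `{p, q}`, `Nx p q`, in the vortex of `a`, `b`, `c`: `[p, q between a, b]
+ [p, q between b, c] = [p, q between a, c]` mod 2 (case analysis on the order of `a, b, c, p`, with
`q = p + 1`: `p, q` between `a` and `b` means `min a b ≤ p < max a b`).
`dch_add`: `pch` of the middle piece cancels; `jS`, `jE`: if the start of one is planar then all three
start at the same planar vertex (`Cmp`; `po_none`) and all `jS` vanish; otherwise `cs_add`.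
`cmp_symm`, `cmp_trans`, `cmp_reach`: comparable pieces have reachable anchors (`comb_reach`). -/

set_option autoImplicit false

open Classical

namespace Pool.Agent.BTV

open Pool.Agent.BTD Pool.Agent.H81.Balls

universe u

private lemma tla_cs_val {V : Type u} (E : NE V) {a b p q : Fin E.n} (h : E.Nx p q) :
    cs E a b s(.inr p, .inr q) = if ((a ≤ p ∧ q ≤ b) ∨ (b ≤ p ∧ q ≤ a)) then 1 else 0 := by
  unfold cs
  congr 1
  apply propext
  constructor
  · rintro ⟨p', q', hn, he, hc⟩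
    rcases Sym2.eq_iff.mp he with ⟨h1, h2⟩ | ⟨h1, h2⟩
    · obtain rfl := Sum.inr.inj h1
      obtain rfl := Sum.inr.inj h2
      exact hc
    · obtain rfl := Sum.inr.inj h1
      obtain rfl := Sum.inr.inj h2
      exfalso
      have h3 := h.1
      have h4 := hn.1
      omega
  · intro hc
    exact ⟨p, q, h, rfl, hc⟩

lemma cs_add {V : Type u} (E : NE V) {a b c : Fin E.n} (hab : E.disc a = E.disc b)
    (hbc : E.disc b = E.disc c) (t : Sym2 (V ⊕ Fin E.n)) : cs E a b t + cs E b c t = cs E a c t := by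
  by_cases ht : ∃ p q, E.Nx p q ∧ t = s(.inr p, .inr q)
  · obtain ⟨p, q, hn, rfl⟩ := ht
    rw [tla_cs_val E hn, tla_cs_val E hn, tla_cs_val E hn]
    have h1 := hn.1
    simp only [Fin.le_def]
    have e2 : (1 : ZMod 2) + 1 = 0 := by decide
    by_cases h2 : (a : ℕ) ≤ p <;> by_cases h3 : (b : ℕ) ≤ p <;> by_cases h4 : (c : ℕ) ≤ p
    all_goals
      have e3 : ((q : ℕ) ≤ a) ↔ ¬ ((a : ℕ) ≤ p) := by omega
      have e4 : ((q : ℕ) ≤ b) ↔ ¬ ((b : ℕ) ≤ p) := by omega
      have e5 : ((q : ℕ) ≤ c) ↔ ¬ ((c : ℕ) ≤ p) := by omega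
      simp [e3, e4, e5, h2, h3, h4, e2]
  · have h0 : ∀ x y : Fin E.n, cs E x y t = 0 := by
      intro x y
      unfold cs
      rw [if_neg]
      rintro ⟨p, q, hn, he, -⟩
      exact ht ⟨p, q, hn, he⟩
    rw [h0, h0, h0, add_zero]

lemma cmp_symm {V : Type u} {E : NE V} {q v q' v' : V} {e e' : Option (Fin E.n)}
    (h : Cmp E q v e q' v' e') : Cmp E q' v' e' q v e := by
  obtain ⟨h1, h2⟩ := h
  refine ⟨?_, ?_⟩
  · rcases h1 with h1 | ⟨a, a', h3, h4, h5⟩
    · exact Or.inl h1.symm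
    · exact Or.inr ⟨a', a, h4, h3, h5.symm⟩
  · rcases h2 with ⟨h3, h4, h5⟩ | ⟨b, b', h3, h4, h5⟩
    · exact Or.inl ⟨h4, h3, h5.symm⟩
    · exact Or.inr ⟨b', b, h4, h3, h5.symm⟩

lemma cmp_trans {V : Type u} {E : NE V} {q v q' v' q'' v'' : V} {e e' e'' : Option (Fin E.n)}
    (h : Cmp E q v e q' v' e') (h' : Cmp E q' v' e' q'' v'' e'') : Cmp E q v e q'' v'' e'' := by
  obtain ⟨h1, h2⟩ := h
  obtain ⟨h1', h2'⟩ := h'
  refine ⟨?_, ?_⟩
  · rcases h1 with rfl | ⟨a, a', h3, h4, h5⟩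
    · exact h1'
    · rcases h1' with rfl | ⟨c, c', h6, h7, h8⟩
      · exact Or.inr ⟨a, a', h3, h4, h5⟩
      · have h9 : a' = c := E.w_inj _ _ (h4.trans h6.symm)
        subst h9
        exact Or.inr ⟨a, c', h3, h7, h5.trans h8⟩
  · rcases h2 with ⟨h3, h4, h5⟩ | ⟨b, b', h3, h4, h5⟩
    · rcases h2' with ⟨h6, h7, h8⟩ | ⟨c, c', h6, h7, h8⟩
      · exact Or.inl ⟨h3, h7, h5.trans h8⟩
      · rw [h4] at h6
        exact absurd h6 (by simp)
    · rcases h2' with ⟨h6, h7, h8⟩ | ⟨c, c', h6, h7, h8⟩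
      · rw [h4] at h6
        exact absurd h6 (by simp)
      · have h9 : b' = c := Option.some.inj (h4.symm.trans h6)
        subst h9
        exact Or.inr ⟨b, c', h3, h7, h5.trans h8⟩

lemma cmp_refl {V : Type u} {E : NE V} (q v : V) (e : Option (Fin E.n)) : Cmp E q v e q v e := by
  refine ⟨Or.inl rfl, ?_⟩
  cases e with
  | none => exact Or.inl ⟨rfl, rfl, rfl⟩
  | some b => exact Or.inr ⟨b, b, rfl, rfl, rfl⟩

lemma cmp_reach {V : Type u} {E : NE V} {q v q' v' : V} {e e' : Option (Fin E.n)}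
    (h : Cmp E q v e q' v' e') : E.Ga.Reachable (ancS E v) (ancS E v') := by
  rcases h.1 with rfl | ⟨a, a', rfl, rfl, h5⟩
  · exact SimpleGraph.Reachable.refl _
  · have e1 : ancS E (E.w a) = .inr a := by
      unfold ancS
      rw [po_w]
    have e2 : ancS E (E.w a') = .inr a' := by
      unfold ancS
      rw [po_w]
    rw [e1, e2]
    exact comb_reach E h5

private lemma tla_start {V : Type u} (E : NE V) {v v' : V}
    (h : v = v' ∨ ∃ a a', E.w a = v ∧ E.w a' = v' ∧ E.disc a = E.disc a') :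
    (E.po v = none ∧ v = v') ∨ ∃ a a', E.po v = some a ∧ E.po v' = some a' ∧ E.disc a = E.disc a' := by
  rcases h with rfl | ⟨a, a', rfl, rfl, h5⟩
  · by_cases h0 : E.po v = none
    · exact Or.inl ⟨h0, rfl⟩
    · obtain ⟨a, ha⟩ := Option.ne_none_iff_exists'.mp h0
      exact Or.inr ⟨a, a, ha, ha, rfl⟩
  · exact Or.inr ⟨a, a', po_w E a, po_w E a', h5⟩

private lemma tla_jS_add {V : Type u} [Fintype V] {g k s : ℕ} (I : Inst g k s V) {v v' v'' : V}
    (h : v = v' ∨ ∃ a a', I.E.w a = v ∧ I.E.w a' = v' ∧ I.E.disc a = I.E.disc a')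
    (h' : v' = v'' ∨ ∃ a a', I.E.w a = v' ∧ I.E.w a' = v'' ∧ I.E.disc a = I.E.disc a')
    (t : Sym2 (V ⊕ Fin I.E.n)) : jS I v v' t + jS I v' v'' t = jS I v v'' t := by
  rcases tla_start I.E h with ⟨h1, rfl⟩ | ⟨a, a', h1, h2, h3⟩
  · rcases tla_start I.E h' with ⟨-, rfl⟩ | ⟨b, b', h4, -, -⟩
    · have : jS I v v t = 0 := by
        unfold jS
        rw [h1]
        rfl
      rw [this, add_zero]
    · rw [h1] at h4
      exact absurd h4 (by simp)
  · rcases tla_start I.E h' with ⟨h4, -⟩ | ⟨b, b', h4, h5, h6⟩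
    · rw [h2] at h4
      exact absurd h4 (by simp)
    · have h7 : a' = b := Option.some.inj (h2.symm.trans h4)
      subst h7
      have e1 : jS I v v' = cs I.E a a' := by
        unfold jS
        rw [h1, h2]
      have e2 : jS I v' v'' = cs I.E a' b' := by
        unfold jS
        rw [h2, h5]
      have e3 : jS I v v'' = cs I.E a b' := by
        unfold jS
        rw [h1, h5]
      rw [e1, e2, e3]
      exact cs_add I.E h3 h6 t

private lemma tla_jE_add {V : Type u} [Fintype V] {g k s : ℕ} (I : Inst g k s V) {q v q' v' q'' v'' : V}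
    {e e' e'' : Option (Fin I.E.n)} (h : Cmp I.E q v e q' v' e') (h' : Cmp I.E q' v' e' q'' v'' e'')
    (t : Sym2 (V ⊕ Fin I.E.n)) : jE I e e' t + jE I e' e'' t = jE I e e'' t := by
  rcases h.2 with ⟨rfl, rfl, -⟩ | ⟨b, b', rfl, rfl, h5⟩
  · rcases h'.2 with ⟨-, rfl, -⟩ | ⟨c, c', h6, -, -⟩
    · exact add_zero (0 : ZMod 2)
    · exact absurd h6 (by simp)
  · rcases h'.2 with ⟨h6, -, -⟩ | ⟨c, c', h6, rfl, h8⟩
    · exact absurd h6 (by simp)
    · have h9 : b' = c := Option.some.inj h6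
      subst h9
      exact cs_add I.E h5 h8 t

lemma dch_add {V : Type u} [Fintype V] {g k s : ℕ} (I : Inst g k s V) {q v q' v' q'' v'' : V}
    {e e' e'' : Option (Fin I.E.n)} (h : Cmp I.E q v e q' v' e') (h' : Cmp I.E q' v' e' q'' v'' e'')
    (t : Sym2 (V ⊕ Fin I.E.n)) :
    dch I q v e q' v' e' t + dch I q' v' e' q'' v'' e'' t = dch I q v e q'' v'' e'' t := by
  have h1 := tla_jS_add I h.1 h'.1 t
  have h2 := tla_jE_add I h h' t
  have h3 : pch I q' v' e' t + pch I q' v' e' t = 0 := CharTwo.add_self_eq_zero _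
  unfold dch
  rw [← h1, ← h2]
  linear_combination h3

end Pool.Agent.BTV
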