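import Pool.Agent.BTV.TAf
import Pool.Agent.BTV.TLa
import Pool.Agent.BTV.LA
import Pool.Agent.BTD.CLa

/-! BTV TL: the topological theorem.

PROOF.  `N := 2 ^ g * 2 ^ (s + 1)` (or any such number: the values of the class function lie in a
finite type `(Fin g → ZMod 2) × (Fin s → ZMod 2) × ZMod 2` independent of the instance; compose
with an injection into `Fin N`).  Fix `V`, `I`, `o`.
For each vertex `x` of `Ga` choose a representative `ρ x` of its component
(`ρ x = ρ y ↔ Reachable x y`, e.g. `Quot.out (connectedComponentMk x)`), and for each `x` the map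
`φ x` of `exists_hcls I.A.genus x` (from `Pool/Agent/BTD/CLa.lean`).
Say pieces `π = (q, v, e)` with `Reg q v e` (`e` is determined by `(q, v)`: see `reg_unique` below;
define `e` from `(q, v)` by choice).  Type of a piece: `τ π :=` (start type: `inl v` if `v` planar,
`inr (disc a)` if `v = w a`; end type: `inl q` if `e = none`, `inr (disc b)` if `e = some b`).
`Cmp π π' ↔ τ π = τ π'` (for the start: `v = v'` or same disc; equivalence relation).
For every type which occurs choose a base piece `β τ`; `A1 π := φ (ρ (ancS (β τ))) (dch (β (τ π)) π)`.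
For every pair `(τ, a)` which occurs as `(τ π, A1 π)` choose a base `β' (τ, a)` with these values.
Then `dch (β' ) π = dch (β') (β) + dch β π` up to the comb chains: NOT literally, since
`cs a b + cs b c ≠ cs a c` as functions in general; but it is true in `ZMod 2`:
`cs a b + cs b c = cs a c` for `disc a = disc b = disc c` (indicator of intervals: a comb edge lies
between `a` and `c` iff it lies in exactly one of the other two) -- lemma `cs_add` below.  Hence
`dch π₁ π₂ + dch π₂ π₃ = dch π₁ π₃` for three pairwise comparable pieces (`dch_add`), and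
`φ (dch (β') π) = A1 β' + A1 π = 0`.  All these chains are closed and supported in the component
(`dch_closed`, `dch_supp`, base point `x := ρ (ancS v)`, which depends only on the type: comparable
pieces have reachable anchors), so `exists_hcls` gives `Kπ` with `KFor I x (dch β' π) Kπ`.  The class:
`cl q v := (A1 π, (fun i : Fin s => Kπ (some (finf p))` for some `p` with `disc p = i` reachable from
`x`, `0` if there is none`), Kπ (some (face d₀ true))`, `d₀` a chosen dart at `inl o` if it exists and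
is reachable from `x`, else `0`).
Two pieces with `Cmp` and equal class: `K := fun f => Kπ f + Kπ' f` satisfies
`KFor I x (dch π π') K` (`dch_add`; the bases `β'` are the same), vanishes on `finf p`
(`finf_const`) and on the face of `d₀`; apply `sep_of_K`. -/

set_option autoImplicit false

open Classical

namespace Pool.Agent.BTV

open Pool.Agent.BTD Pool.Agent.H81.Balls

universe u

lemma TL_two {α : Type*} (f : α → ZMod 2) : f + f = 0 := by
  funext t
  exact CharTwo.add_self_eq_zero _

lemma TL_eq {α : Type*} {f h : α → ZMod 2} (e : f + h = 0) : f = h := by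
  funext t
  exact CharTwo.add_eq_zero.mp (congrFun e t)

section

variable {V : Type u} [Fintype V] {g k s : ℕ} (I : Inst g k s V)

/-- regular pieces -/
abbrev TLp : Type u := {p : V × V × Option (Fin I.E.n) // Reg I.M I.E p.1 p.2.1 p.2.2}

def TLcmp (p p' : TLp I) : Prop := Cmp I.E p.1.1 p.1.2.1 p.1.2.2 p'.1.1 p'.1.2.1 p'.1.2.2

/-- comparable pieces -/
def TLs1 : Setoid (TLp I) where
  r := TLcmp I
  iseqv := ⟨fun _ => cmp_refl _ _ _, fun h => cmp_symm h, fun h h' => cmp_trans h h'⟩

/-- the base piece -/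
noncomputable def TLb (p : TLp I) : TLp I := (Quotient.mk (TLs1 I) p).out

lemma TLb_cmp (p : TLp I) : TLcmp I (TLb I p) p := Quotient.mk_out (s := TLs1 I) p

variable {I} in
lemma TLb_eq {p p' : TLp I} (h : TLcmp I p p') : TLb I p = TLb I p' := by
  unfold TLb
  rw [Quotient.sound (s := TLs1 I) h]

/-- the closed chain of two pieces -/
noncomputable def TLd (p p' : TLp I) : Sym2 (V ⊕ Fin I.E.n) → ZMod 2 :=
  dch I p.1.1 p.1.2.1 p.1.2.2 p'.1.1 p'.1.2.1 p'.1.2.2

variable {I} in
lemma TLd_add {p p' p'' : TLp I} (h : TLcmp I p p') (h' : TLcmp I p' p'') :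
    TLd I p p' + TLd I p' p'' = TLd I p p'' := by
  funext t
  exact dch_add I h h' t

variable {I} in
lemma TLd_symm {p p' : TLp I} (h : TLcmp I p p') : TLd I p p' = TLd I p' p := by
  have h1 : TLd I p p' + TLd I p' p = TLd I p p := TLd_add h (cmp_symm h)
  have h2 : TLd I p p + TLd I p p = TLd I p p := TLd_add (cmp_refl _ _ _) (cmp_refl _ _ _)
  have h3 : TLd I p p = 0 := by
    rw [← h2]
    exact TL_two _
  rw [h3] at h1
  exact TL_eq h1

/-- the base point -/
noncomputable def TLx (p : TLp I) : V ⊕ Fin I.E.n := ancS I.E (TLb I p).1.2.1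

lemma TLx_reach (p : TLp I) : I.E.Ga.Reachable (TLx I p) (ancS I.E p.1.2.1) := cmp_reach (TLb_cmp I p)

variable {I} in
lemma TLx_eq {p p' : TLp I} (h : TLcmp I p p') : TLx I p = TLx I p' := by
  unfold TLx
  rw [TLb_eq h]

/-- the homology class map at a base point -/
noncomputable def TLphi (x : V ⊕ Fin I.E.n) : (Sym2 (V ⊕ Fin I.E.n) → ZMod 2) →+ (Fin g → ZMod 2) :=
  (exists_hcls I.A.S I.A.genus x).choose

/-- the homology class of a piece relative to the base piece -/
noncomputable def TLa1 (p : TLp I) : Fin g → ZMod 2 := TLphi I (TLx I p) (TLd I (TLb I p) p)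

/-- comparable pieces with the same homology class -/
def TLs2 : Setoid (TLp I) where
  r := fun p p' => TLcmp I p p' ∧ TLa1 I p = TLa1 I p'
  iseqv := ⟨fun _ => ⟨cmp_refl _ _ _, rfl⟩, fun h => ⟨cmp_symm h.1, h.2.symm⟩,
    fun h h' => ⟨cmp_trans h.1 h'.1, h.2.trans h'.2⟩⟩

/-- the second base piece -/
noncomputable def TLc (p : TLp I) : TLp I := (Quotient.mk (TLs2 I) p).out

lemma TLc_cmp (p : TLp I) : TLcmp I (TLc I p) p ∧ TLa1 I (TLc I p) = TLa1 I p :=
  Quotient.mk_out (s := TLs2 I) p

variable {I} in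
lemma TLc_eq {p p' : TLp I} (h : TLcmp I p p') (h' : TLa1 I p = TLa1 I p') : TLc I p = TLc I p' := by
  unfold TLc
  rw [Quotient.sound (s := TLs2 I) ⟨h, h'⟩]

lemma TL_exists (p : TLp I) : ∃ K : Option I.A.S.Face → ZMod 2, KFor I (TLx I p) (TLd I (TLc I p) p) K := by
  obtain ⟨h1, h2⟩ := TLc_cmp I p
  have hx := TLx_eq h1
  have hr : I.E.Ga.Reachable (TLx I p) (ancS I.E (TLc I p).1.2.1) := by
    rw [← hx]
    exact TLx_reach I (TLc I p)
  refine (exists_hcls I.A.S I.A.genus (TLx I p)).choose_spec (TLd I (TLc I p) p) ?_ ?_ ?_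
  · intro z
    exact dch_closed I (TLc I p).2 p.2 h1 z
  · intro z y hzy
    exact dch_supp I (TLc I p).2 p.2 h1 (TLx I p) hr z y hzy
  · have e1 : TLd I (TLc I p) p = TLd I (TLb I p) (TLc I p) + TLd I (TLb I p) p := by
      have h3 : TLcmp I (TLb I p) (TLc I p) := cmp_trans (TLb_cmp I p) (cmp_symm h1)
      rw [TLd_symm h3]
      exact (TLd_add (cmp_symm h3) (TLb_cmp I p)).symm
    change TLphi I (TLx I p) (TLd I (TLc I p) p) = 0
    rw [e1, map_add]
    have e2 : TLphi I (TLx I p) (TLd I (TLb I p) (TLc I p)) = TLa1 I p := by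
      rw [← h2]
      unfold TLa1
      rw [hx, TLb_eq h1]
    rw [e2]
    exact TL_two _

/-- the region of a piece relative to its second base piece -/
noncomputable def TLK (p : TLp I) : Option I.A.S.Face → ZMod 2 := (TL_exists I p).choose

/-- the value of the region at a vortex -/
noncomputable def TLf (p : TLp I) (i : Fin s) : ZMod 2 :=
  if h : ∃ r : Fin I.E.n, I.E.disc r = i.val ∧ I.E.Ga.Reachable (TLx I p) (.inr r) then
    TLK I p (some (finf I.A h.choose)) else 0

/-- the value of the region at a vertex -/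
noncomputable def TLo (o : V) (p : TLp I) : ZMod 2 :=
  if h : ∃ d : I.E.Ga.Dart, d.fst = .inl o then TLK I p (some (I.A.S.face h.choose true)) else 0

lemma TLf_eq (p : TLp I) (r : Fin I.E.n) (hr : I.E.Ga.Reachable (TLx I p) (.inr r)) :
    TLf I p ⟨I.E.disc r, I.disc_lt r⟩ = TLK I p (some (finf I.A r)) := by
  have h : ∃ r' : Fin I.E.n, I.E.disc r' = (⟨I.E.disc r, I.disc_lt r⟩ : Fin s).val ∧
      I.E.Ga.Reachable (TLx I p) (.inr r') := ⟨r, rfl, hr⟩
  unfold TLf
  rw [dif_pos h, finf_const I.A h.choose_spec.1]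

lemma TL_main (o : V) (p p' : TLp I) (hc : TLcmp I p p') (h1 : TLa1 I p = TLa1 I p')
    (h2 : TLf I p = TLf I p') (h3 : TLo I o p = TLo I o p') :
    ∃ Ins : V → Prop, Sep I.M I.E p.1.1 p.1.2.1 p.1.2.2 p'.1.1 p'.1.2.1 p'.1.2.2 Ins ∧
      (o ∉ UU I.M I.E p.1.1 p.1.2.1 p.1.2.2 → o ∉ UU I.M I.E p'.1.1 p'.1.2.1 p'.1.2.2 → ¬ Ins o) := by
  have hx := TLx_eq hc
  have hcc := TLc_eq hc h1
  have hd : TLd I (TLc I p) p + TLd I (TLc I p') p' = TLd I p p' := by
    rw [← hcc, TLd_symm (TLc_cmp I p).1]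
    exact TLd_add (cmp_symm (TLc_cmp I p).1) (cmp_trans (TLc_cmp I p).1 hc)
  refine sep_of_K I p.2 p'.2 hc (TLx I p) (TLx_reach I p) (fun f => TLK I p f + TLK I p' f) ?_ ?_ o ?_
  · intro v u hvu hv
    have k1 := (TL_exists I p).choose_spec v u hvu hv
    have k2 := (TL_exists I p').choose_spec v u hvu (hx ▸ hv)
    change TLK I p (I.A.S.side s(v, u) true) + TLK I p' (I.A.S.side s(v, u) true)
      + (TLK I p (I.A.S.side s(v, u) false) + TLK I p' (I.A.S.side s(v, u) false)) = TLd I p p' s(v, u)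
    rw [← hd, Pi.add_apply, ← k1, ← k2]
    change _ = TLK I p (I.A.S.side s(v, u) true) + TLK I p (I.A.S.side s(v, u) false)
      + (TLK I p' (I.A.S.side s(v, u) true) + TLK I p' (I.A.S.side s(v, u) false))
    ring
  · intro r hr
    change TLK I p (some (finf I.A r)) + TLK I p' (some (finf I.A r)) = 0
    rw [← TLf_eq I p r hr, ← TLf_eq I p' r (hx ▸ hr), h2]
    exact CharTwo.add_self_eq_zero _
  · intro d hd' _
    have h : ∃ d : I.E.Ga.Dart, d.fst = .inl o := ⟨d, hd'⟩
    refine ⟨h.choose, h.choose_spec, ?_⟩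
    unfold TLo at h3
    rw [dif_pos h, dif_pos h] at h3
    rw [h3]
    exact CharTwo.add_self_eq_zero _

end

theorem topoL (g k s : ℕ) : ∃ N : ℕ, ∀ (V : Type u) [Fintype V] (I : Inst g k s V) (o : V),
    ∃ cl : V → V → Fin N, ∀ (q v : V) (e : Option (Fin I.E.n)) (q' v' : V) (e' : Option (Fin I.E.n)),
      Reg I.M I.E q v e → Reg I.M I.E q' v' e' → Cmp I.E q v e q' v' e' → cl q v = cl q' v' →
      ∃ Ins : V → Prop, Sep I.M I.E q v e q' v' e' Ins ∧
        (o ∉ UU I.M I.E q v e → o ∉ UU I.M I.E q' v' e' → ¬ Ins o) := by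
  refine ⟨Fintype.card ((Fin g → ZMod 2) × (Fin s → ZMod 2) × ZMod 2), fun V _ I o =>
    ⟨fun q v => if h : ∃ e, Reg I.M I.E q v e then
      Fintype.equivFin _ (TLa1 I ⟨(q, v, h.choose), h.choose_spec⟩, TLf I ⟨(q, v, h.choose), h.choose_spec⟩,
        TLo I o ⟨(q, v, h.choose), h.choose_spec⟩) else Fintype.equivFin _ (0, 0, 0), ?_⟩⟩
  intro q v e q' v' e' h h' hc hcl
  have key : ∀ (q v : V) (e : Option (Fin I.E.n)) (h : Reg I.M I.E q v e),
      (if h : ∃ e, Reg I.M I.E q v e then
      Fintype.equivFin _ (TLa1 I ⟨(q, v, h.choose), h.choose_spec⟩, TLf I ⟨(q, v, h.choose), h.choose_spec⟩,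
        TLo I o ⟨(q, v, h.choose), h.choose_spec⟩) else Fintype.equivFin _ (0, 0, 0)) =
      Fintype.equivFin _ (TLa1 I ⟨(q, v, e), h⟩, TLf I ⟨(q, v, e), h⟩, TLo I o ⟨(q, v, e), h⟩) := by
    intro q v e h
    have hex : ∃ e, Reg I.M I.E q v e := ⟨e, h⟩
    rw [dif_pos hex]
    have he : hex.choose = e := reg_unique hex.choose_spec h
    have hp : (⟨(q, v, hex.choose), hex.choose_spec⟩ : TLp I) = ⟨(q, v, e), h⟩ :=
      Subtype.ext (congrArg (fun e' => (q, v, e')) he)
    rw [hp]
  dsimp only at hcl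
  rw [key q v e h, key q' v' e' h'] at hcl
  have h4 := (Fintype.equivFin _).injective hcl
  simp only [Prod.mk.injEq] at h4
  exact TL_main I o ⟨(q, v, e), h⟩ ⟨(q', v', e'), h'⟩ hc h4.1 h4.2.1 h4.2.2

end Pool.Agent.BTV
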